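import Mathlib

/-! Multiplicity form of the one-dimensional area inequality. -/

open Set MeasureTheory Topology Filter
open scoped ENNReal

namespace Pool.Agent.H709R2

noncomputable section

lemma encard_le_of_finset {α : Type*} {N : Set α} {c : ℝ≥0∞}
    (h : ∀ F : Finset α, (F : Set α) ⊆ N → (F.card : ℝ≥0∞) ≤ c) : (N.encard : ℝ≥0∞) ≤ c := by
  rcases N.finite_or_infinite with hN | hN
  · have h1 := h hN.toFinset (by simp)
    rw [hN.encard_eq_coe_toFinset_card]
    simpa using h1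
  · rw [hN.encard_eq]
    simp only [ENat.toENNReal_top, top_le_iff]
    by_contra hc
    obtain ⟨n, hn⟩ := ENNReal.exists_nat_gt hc
    obtain ⟨F, hF1, hF2⟩ := hN.exists_subset_card_eq n
    have := h F hF1
    rw [hF2] at this
    exact absurd (lt_of_lt_of_le hn this) (lt_irrefl _)

/-- dyadic intervals -/
def dy (k : ℕ) (j : ℤ) : Set ℝ := {x | ⌊x * 2 ^ k⌋ = j}

lemma measurableSet_dy (k : ℕ) (j : ℤ) : MeasurableSet (dy k j) := by
  unfold dy
  have h1 : Measurable fun x : ℝ => ⌊x * 2 ^ k⌋ :=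
    Int.measurable_floor.comp (measurable_id.mul_const _)
  exact h1 (measurableSet_singleton j)

lemma iUnion_dy (k : ℕ) : ⋃ j, dy k j = univ := by
  ext x; simp [dy]

lemma disjoint_dy (k : ℕ) : Pairwise (Function.onFun Disjoint (dy k)) := by
  intro i j hij
  rw [Function.onFun, Set.disjoint_left]
  intro x hx hx'
  simp only [dy, mem_ofPred_eq] at hx hx'
  exact hij (hx.symm.trans hx')

/-- multiplicity version of `|a(S)| ≤ ∫_S |a'|` -/
theorem indicatrix {S : Set ℝ} (hS : MeasurableSet S) {a a' : ℝ → ℝ}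
    (ha : ∀ s ∈ S, HasDerivAt a (a' s) s) :
    ∃ g : ℝ → ℝ≥0∞, Measurable g ∧ (∀ β, ((S ∩ a ⁻¹' {β}).encard : ℝ≥0∞) ≤ g β) ∧
      ∫⁻ β, g β ≤ ∫⁻ s in S, ENNReal.ofReal |a' s| := by
  set G : ℕ → ℝ → ℝ≥0∞ := fun k β =>
    ∑' j : ℤ, (toMeasurable volume (a '' (S ∩ dy k j))).indicator (fun _ => (1:ℝ≥0∞)) β with hG
  have hGm : ∀ k, Measurable (G k) := by
    intro k
    refine Measurable.tsum fun j => ?_
    exact measurable_const.indicator (measurableSet_toMeasurable _ _)
  have hGi : ∀ k, ∫⁻ β, G k β ≤ ∫⁻ s in S, ENNReal.ofReal |a' s| := by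
    intro k
    have e1 : ∫⁻ β, G k β = ∑' j : ℤ, volume (a '' (S ∩ dy k j)) := by
      simp only [hG]
      rw [lintegral_tsum (fun j =>
        (measurable_const.indicator (measurableSet_toMeasurable _ _)).aemeasurable)]
      congr 1
      ext j
      rw [lintegral_indicator (measurableSet_toMeasurable _ _)]
      simp
    have e2 : ∀ j : ℤ, volume (a '' (S ∩ dy k j)) ≤
        ∫⁻ s in S ∩ dy k j, ENNReal.ofReal |a' s| := by
      intro j
      have h1 := addHaar_image_le_lintegral_abs_det_fderiv volume (f := a)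
        (f' := fun s => ContinuousLinearMap.toSpanSingleton ℝ (a' s))
        (hS.inter (measurableSet_dy k j)) (fun x hx => (ha x hx.1).hasFDerivAt.hasFDerivWithinAt)
      simpa using h1
    rw [e1]
    refine (ENNReal.tsum_le_tsum e2).trans ?_
    rw [← lintegral_iUnion (fun j => hS.inter (measurableSet_dy k j))
      (fun i j hij => ((disjoint_dy k hij).inter_left' S).inter_right' S)]
    rw [← inter_iUnion, iUnion_dy, inter_univ]
  refine ⟨fun β => liminf (fun k => G k β) atTop, Measurable.liminf hGm, ?_, ?_⟩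
  · intro β
    refine encard_le_of_finset fun F hF => ?_
    -- for large `k` the points of `F` lie in distinct dyadic intervals
    have hsep : ∃ k₀ : ℕ, ∀ k ≥ k₀, ∀ x ∈ F, ∀ y ∈ F, ⌊x * 2 ^ k⌋ = ⌊y * 2 ^ k⌋ → x = y := by
      have hfin : ∀ q ∈ F ×ˢ F, ∃ k₀ : ℕ, ∀ k ≥ k₀, ⌊q.1 * 2 ^ k⌋ = ⌊q.2 * 2 ^ k⌋ → q.1 = q.2 := by
        rintro ⟨x, y⟩ -
        by_cases hxy : x = y
        · exact ⟨0, fun k _ _ => hxy⟩
        · have hd : 0 < |x - y| := abs_pos.2 (sub_ne_zero.2 hxy)
          obtain ⟨k₀, hk₀⟩ := exists_nat_gt (1 / |x - y|)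
          refine ⟨k₀, fun k hk hfl => ?_⟩
          exfalso
          have h1 : |x * 2 ^ k - y * 2 ^ k| < 1 := Int.abs_sub_lt_one_of_floor_eq_floor hfl
          rw [← sub_mul, abs_mul, abs_of_pos (by positivity : (0:ℝ) < 2 ^ k)] at h1
          have h2 : (k₀ : ℝ) ≤ 2 ^ k := by
            have h3 : k < 2 ^ k := Nat.lt_two_pow_self
            have h4 : (k₀ : ℝ) ≤ k := by exact_mod_cast hk
            have h5 : (k : ℝ) ≤ 2 ^ k := by exact_mod_cast h3.le
            linarith
          have h6 : 1 < |x - y| * 2 ^ k := by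
            rw [div_lt_iff₀ hd] at hk₀
            nlinarith
          linarith
      choose! kk hkk using hfin
      refine ⟨(F ×ˢ F).sup kk, fun k hk x hx y hy h => ?_⟩
      have hm : (x, y) ∈ F ×ˢ F := Finset.mk_mem_product hx hy
      exact hkk (x, y) hm k ((Finset.le_sup hm).trans hk) h
    obtain ⟨k₀, hk₀⟩ := hsep
    refine le_liminf_of_le (by isBoundedDefault) ?_
    filter_upwards [eventually_ge_atTop k₀] with k hk
    have hinj : ∀ x ∈ F, ∀ y ∈ F, (fun x : ℝ => ⌊x * 2 ^ k⌋) x = (fun x : ℝ => ⌊x * 2 ^ k⌋) y → x = y :=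
      fun x hx y hy => hk₀ k hk x hx y hy
    have hcard : (F.image fun x : ℝ => ⌊x * 2 ^ k⌋).card = F.card :=
      Finset.card_image_of_injOn fun x hx y hy h => hinj x hx y hy h
    calc (F.card : ℝ≥0∞) = ∑ j ∈ F.image (fun x : ℝ => ⌊x * 2 ^ k⌋), (1:ℝ≥0∞) := by
          rw [Finset.sum_const, hcard]; simp
      _ ≤ ∑ j ∈ F.image (fun x : ℝ => ⌊x * 2 ^ k⌋),
          (toMeasurable volume (a '' (S ∩ dy k j))).indicator (fun _ => (1:ℝ≥0∞)) β := by
          refine Finset.sum_le_sum fun j hj => ?_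
          obtain ⟨x, hx, rfl⟩ := Finset.mem_image.1 hj
          have h1 := hF hx
          have h2 : β ∈ toMeasurable volume (a '' (S ∩ dy k ⌊x * 2 ^ k⌋)) := by
            apply subset_toMeasurable
            exact ⟨x, ⟨h1.1, rfl⟩, h1.2⟩
          rw [indicator_of_mem h2]
      _ ≤ G k β := ENNReal.sum_le_tsum _
  · refine (lintegral_liminf_le hGm).trans ?_
    refine liminf_le_of_le (by isBoundedDefault) fun b hb => ?_
    obtain ⟨k, hk⟩ := hb.exists
    exact hk.trans (hGi k)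

end

end Pool.Agent.H709R2
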