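import Pool.Agent.H709R2.Main

/-! The master inequality for closed orbits containing a pair of points outside a closed relation. -/

open Real Set MeasureTheory Topology Filter
open scoped ENNReal

namespace Pool.Agent.H709R2

noncomputable section

variable {X : ℝ × ℝ → ℝ × ℝ} {φ : ℝ → ℝ × ℝ → ℝ → ℝ × ℝ}

/-- a closed orbit of `rot α X`, contained in `Ω`, containing a pair of points outside `Γ` -/
def Good2 (X : ℝ × ℝ → ℝ × ℝ) (φ : ℝ → ℝ × ℝ → ℝ → ℝ × ℝ) (Ω : Set (ℝ × ℝ))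
    (Γ : Set ((ℝ × ℝ) × (ℝ × ℝ))) (α : ℝ) (C : Set (ℝ × ℝ)) : Prop :=
  ∃ p T, MinPer X φ α p T ∧ C = range (fun t => φ t p α) ∧ C ⊆ Ω ∧ ∃ x ∈ C, ∃ y ∈ C, (x, y) ∉ Γ

namespace Patch

variable {p₀ : ℝ × ℝ}

/-- good transversal parameters -/
def good2 (P : Patch X φ p₀) (Ω B : Set (ℝ × ℝ)) (Γ : Set ((ℝ × ℝ) × (ℝ × ℝ))) : Set ℝ :=
  {s | s ∈ Ioo (-P.ε) P.ε ∧ P.σ s ∉ B ∧ (∀ t, P.Q (s, t) ∈ Ω) ∧
    ∃ t t', (P.Q (s, t), P.Q (s, t')) ∉ Γ}

lemma measurableSet_good2 (hφ : RotFlow X φ) (hX : ContDiff ℝ 2 X) (P : Patch X φ p₀)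
    {Ω B : Set (ℝ × ℝ)} {Γ : Set ((ℝ × ℝ) × (ℝ × ℝ))} (hΓ : IsClosed Γ)
    (hΩ : IsClosed Ω) (hB : MeasurableSet B) :
    MeasurableSet (P.good2 Ω B Γ) := by
  classical
  set I := Ioo (-P.ε) P.ε with hI
  have hIm : MeasurableSet I := measurableSet_Ioo
  set O : Set (ℝ × ℝ) := I ×ˢ univ with hO
  have hOm : MeasurableSet O := hIm.prod MeasurableSet.univ
  have hQm : Measurable (O.piecewise P.Q (fun _ => 0)) :=
    (P.continuousOn_Q hφ).measurable_piecewise continuousOn_const hOm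
  have m0 : MeasurableSet (P.good (fun _ => 0) Ω B univ) :=
    P.measurableSet_good hφ hX (fun _ _ => contDiffAt_const) hΩ hB MeasurableSet.univ
  have m2 : MeasurableSet (I ∩ {s | ∃ t t', (P.Q (s, t), P.Q (s, t')) ∉ Γ}) := by
    have : I ∩ {s | ∃ t t', (P.Q (s, t), P.Q (s, t')) ∉ Γ} =
        ⋃ r : ℚ, ⋃ r' : ℚ, (I ∩ (fun s => (O.piecewise P.Q (fun _ => 0) (s, (r:ℝ)),
          O.piecewise P.Q (fun _ => 0) (s, (r':ℝ)))) ⁻¹' Γᶜ) := by
      ext s
      simp only [mem_inter_iff, mem_ofPred_eq, mem_iUnion, mem_preimage, mem_compl_iff]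
      constructor
      · rintro ⟨hs, t, t', h⟩
        have hcont : Continuous fun z : ℝ × ℝ => (P.Q (s, z.1), P.Q (s, z.2)) :=
          ((P.continuous_Q_snd hφ s).comp continuous_fst).prodMk
            ((P.continuous_Q_snd hφ s).comp continuous_snd)
        have hop : IsOpen {z : ℝ × ℝ | (P.Q (s, z.1), P.Q (s, z.2)) ∉ Γ} :=
          hΓ.isOpen_compl.preimage hcont
        have hdense : DenseRange (fun r : ℚ × ℚ => ((r.1 : ℝ), (r.2 : ℝ))) :=
          Rat.denseRange_cast.prodMap Rat.denseRange_cast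
        obtain ⟨⟨r, r'⟩, hr⟩ := hdense.exists_mem_open hop ⟨(t, t'), h⟩
        refine ⟨r, r', hs, ?_⟩
        rw [piecewise_eq_of_mem O _ _ (show ((s, (r:ℝ)) : ℝ × ℝ) ∈ O from ⟨hs, trivial⟩),
          piecewise_eq_of_mem O _ _ (show ((s, (r':ℝ)) : ℝ × ℝ) ∈ O from ⟨hs, trivial⟩)]
        exact hr
      · rintro ⟨r, r', hs, hr⟩
        rw [piecewise_eq_of_mem O _ _ (show ((s, (r:ℝ)) : ℝ × ℝ) ∈ O from ⟨hs, trivial⟩),
          piecewise_eq_of_mem O _ _ (show ((s, (r':ℝ)) : ℝ × ℝ) ∈ O from ⟨hs, trivial⟩)] at hr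
        exact ⟨hs, r, r', hr⟩
    rw [this]
    refine MeasurableSet.iUnion fun r => MeasurableSet.iUnion fun r' => hIm.inter ?_
    exact ((hQm.comp (measurable_id.prodMk measurable_const)).prodMk
      (hQm.comp (measurable_id.prodMk measurable_const))) hΓ.measurableSet.compl
  have : P.good2 Ω B Γ = P.good (fun _ => 0) Ω B univ ∩
      (I ∩ {s | ∃ t t', (P.Q (s, t), P.Q (s, t')) ∉ Γ}) := by
    ext s
    simp only [good2, good, mem_inter_iff, mem_ofPred_eq, mem_univ, and_true]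
    tauto
  rw [this]
  exact m0.inter m2

end Patch

/-- **Master inequality**: the upper integral over the angle of the number of good closed orbits
is controlled by the integral of the divergence of the weighted field. -/
theorem master2 (hφ : RotFlow X φ) (hX : ContDiff ℝ 2 X)
    {w : ℝ × ℝ → ℝ} (hw : ∀ p, X p ≠ 0 → ContDiffAt ℝ 1 w p)
    {Ω : Set (ℝ × ℝ)} (hΩ : IsClosed Ω) {Γ : Set ((ℝ × ℝ) × (ℝ × ℝ))} (hΓ : IsClosed Γ)
    {h : ℝ × ℝ → ℝ≥0∞} (hh : Measurable h) {ℓ : ℝ} (hℓ : 0 < ℓ)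
    (hbd : ∀ α ∈ Ioo 0 π, ∀ p T, MinPer X φ α p T → (∀ t, φ t p α ∈ Ω) →
      (∃ s t, (φ s p α, φ t p α) ∉ Γ) →
      ℓ ≤ wlen X φ w α p T ∧ ENNReal.ofReal |divW w X α p| ≤ h p) :
    ∃ g : ℝ → ℝ≥0∞, Measurable g ∧
      (∀ α ∈ Ioo 0 π, ({C | Good2 X φ Ω Γ α C}.encard : ℝ≥0∞) ≤ g α) ∧
      ∫⁻ α, g α ≤ ENNReal.ofReal (1 / ℓ) * ∫⁻ p in Ω, h p := by
  classical
  set U : Set (ℝ × ℝ) := {p | ∃ α ∈ Ioo 0 π, ∃ C, Good2 X φ Ω Γ α C ∧ p ∈ C} with hU
  have hpatch : ∀ p ∈ U, Nonempty (Patch X φ p) := by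
    rintro p ⟨α, hα, C, ⟨q, T, hq, rfl, -, -⟩, ⟨u, rfl⟩⟩
    exact good_patch hφ hX hα hq u
  by_cases hUe : U = ∅
  · refine ⟨fun _ => 0, measurable_const, ?_, by simp⟩
    intro α hα
    have : {C | Good2 X φ Ω Γ α C} = ∅ := by
      ext C
      simp only [mem_ofPred_eq, mem_empty_iff_false, iff_false]
      intro hC
      have hC' := hC
      obtain ⟨p, T, h1, rfl, -, -⟩ := hC
      have : φ 0 p α ∈ U := ⟨α, hα, _, hC', ⟨0, rfl⟩⟩
      rw [hUe] at this
      exact this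
    rw [this]
    simp
  -- countable cover
  set V : ℝ × ℝ → Set (ℝ × ℝ) := fun p => if hp : p ∈ U then (hpatch p hp).some.reg else univ with hV
  have hVn : ∀ p ∈ U, V p ∈ 𝓝[U] p := by
    intro p hp
    simp only [hV, dif_pos hp]
    exact mem_nhdsWithin_of_mem_nhds ((hpatch p hp).some.reg_mem_nhds hφ)
  obtain ⟨t, htU, htc, hcover⟩ := TopologicalSpace.countable_cover_nhdsWithin hVn
  have htne : t.Nonempty := by
    by_contra hne
    rw [Set.not_nonempty_iff_eq_empty] at hne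
    subst hne
    simp only [mem_empty_iff_false, iUnion_of_empty, iUnion_empty, subset_empty_iff] at hcover
    exact hUe hcover
  obtain ⟨e, he⟩ := htc.exists_eq_range htne
  have heU : ∀ k, e k ∈ U := fun k => htU (by rw [he]; exact mem_range_self k)
  set P : ∀ k, Patch X φ (e k) := fun k => (hpatch (e k) (heU k)).some with hP
  have hcov : ∀ p ∈ U, ∃ k, p ∈ (P k).reg := by
    intro p hp
    have h1 := hcover hp
    simp only [mem_iUnion] at h1
    obtain ⟨q, hq, hq2⟩ := h1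
    rw [he] at hq
    obtain ⟨k, rfl⟩ := hq
    refine ⟨k, ?_⟩
    simp only [hV, dif_pos (heU k)] at hq2
    exact hq2
  have hregm : ∀ k, MeasurableSet (P k).reg := fun k =>
    (P k).measurableSet_image hφ measurableSet_Ioo subset_rfl
  -- earlier regions and good parameters
  set B : ℕ → Set (ℝ × ℝ) := fun k => ⋃ j : ℕ, ⋃ (_ : j < k), (P j).reg with hB
  have hBm : ∀ k, MeasurableSet (B k) := fun k =>
    MeasurableSet.iUnion fun j => MeasurableSet.iUnion fun _ => hregm j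
  set S : ℕ → Set ℝ := fun k => (P k).good2 Ω (B k) Γ with hS
  have hSm : ∀ k, MeasurableSet (S k) := fun k => (P k).measurableSet_good2 hφ hX hΓ hΩ (hBm k)
  have hSε : ∀ k, S k ⊆ Ioo (-(P k).ε) (P k).ε := fun k s hs => hs.1
  have hSprop : ∀ k, ∀ s ∈ S k, ∀ t, ℓ ≤ (P k).len w s ∧
      ENNReal.ofReal |divW w X ((P k).a s) ((P k).Q (s, t))| ≤ h ((P k).Q (s, t)) := by
    intro k s hs t
    have hmp := (P k).minPer hφ (hSε k hs)
    have hmp' := hmp.shift hφ t
    have h1 := hbd _ ((P k).haπ s (hSε k hs)) ((P k).Q (s, t)) _ hmp' (by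
      intro r
      have h2 := hs.2.2.1 (r + t)
      have h3 : φ r ((P k).Q (s, t)) ((P k).a s) = (P k).Q (s, r + t) := by
        simp only [Patch.Q, QQ]
        rw [hφ.add]
      rw [h3]
      exact h2) (by
      obtain ⟨r, r', hrr⟩ := hs.2.2.2
      refine ⟨r - t, r' - t, ?_⟩
      have h3 : ∀ r, φ (r - t) ((P k).Q (s, t)) ((P k).a s) = (P k).Q (s, r) := by
        intro r
        simp only [Patch.Q, QQ]
        rw [← hφ.add, sub_add_cancel]
      rw [h3, h3]
      exact hrr)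
    refine ⟨?_, h1.2⟩
    have h4 := h1.1
    rw [show (P k).Q (s, t) = φ t ((P k).σ s) ((P k).a s) from rfl, wlen_shift hφ hmp] at h4
    exact h4
  -- one-dimensional indicatrix on each patch
  have hind : ∀ k, ∃ g : ℝ → ℝ≥0∞, Measurable g ∧
      (∀ β, ((S k ∩ (P k).a ⁻¹' {β}).encard : ℝ≥0∞) ≤ g β) ∧
      ∫⁻ β, g β ≤ ENNReal.ofReal (1 / ℓ) * ∫⁻ p in (P k).Q '' (P k).strip (S k), h p := by
    intro k
    obtain ⟨g, hg1, hg2, hg3⟩ := indicatrix (hSm k) (a := (P k).a) (a' := deriv (P k).a)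
      (fun s hs => (((P k).ha s (hSε k hs)).differentiableAt (by norm_num)).hasDerivAt)
    refine ⟨g, hg1, hg2, hg3.trans ?_⟩
    exact (P k).lintegral_deriv_le hφ hX (hSm k) (hSε k) hw hh
      (fun s hs t => (hSprop k s hs t).2) hℓ (fun s hs => (hSprop k s hs 0).1)
  choose g hg1 hg2 hg3 using hind
  refine ⟨fun β => ∑' k, g k β, Measurable.tsum hg1, ?_, ?_⟩
  · -- counting
    intro α hα
    refine encard_le_of_finset fun F hF => ?_
    have hch : ∀ C ∈ F, ∃ k : ℕ, ∃ s, s ∈ S k ∧ (P k).a s = α ∧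
        C = range (fun t => (P k).Q (s, t)) := by
      intro C hC
      have hCg : Good2 X φ Ω Γ α C := hF hC
      have hCg' := hCg
      obtain ⟨p, T, hmp, hCr, hCΩ, x, hxC, y, hyC, hxy⟩ := hCg
      have hex : ∃ k, (C ∩ (P k).reg).Nonempty := by
        have hpC : φ 0 p α ∈ C := by rw [hCr]; exact ⟨0, rfl⟩
        obtain ⟨k, hk⟩ := hcov (φ 0 p α) ⟨α, hα, C, hCg', hpC⟩
        exact ⟨k, _, hpC, hk⟩
      set k := Nat.find hex with hk
      obtain ⟨q, hqC, ⟨⟨s, t⟩, ⟨hs, ht⟩, hq⟩⟩ := Nat.find_spec hex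
      rw [← hk] at hs ht hq
      simp only at hs ht
      rw [hCr] at hqC
      obtain ⟨u, hu⟩ := hqC
      simp only at hu
      have hmps := (P k).minPer hφ hs
      have hq' : φ t ((P k).σ s) ((P k).a s) = q := hq
      obtain ⟨e1, e2⟩ := orbit_eq hφ hX.continuous hα ((P k).haπ s hs) hmp hmps
        (hu.trans hq'.symm)
      have hrange : C = range (fun t => (P k).Q (s, t)) := by
        rw [hCr]
        have h5 : (fun r => (P k).Q (s, r)) = fun r => φ r (φ (u - t) p α) α := by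
          ext1 r
          simp only [Patch.Q, QQ]
          rw [← e1, e2]
        rw [h5, range_shift hφ]
      refine ⟨k, s, ⟨hs, ?_, ?_, ?_⟩, e1.symm, hrange⟩
      · -- not in an earlier region
        intro hσB
        simp only [hB, mem_iUnion] at hσB
        obtain ⟨j, hj, hj2⟩ := hσB
        refine Nat.find_min hex hj ⟨(P k).σ s, ?_, hj2⟩
        rw [hrange]
        exact ⟨0, (P k).Q_zero hφ s⟩
      · intro r
        apply hCΩ
        rw [hrange]
        exact ⟨r, rfl⟩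
      · rw [hrange] at hxC hyC
        obtain ⟨r, rfl⟩ := hxC
        obtain ⟨r', rfl⟩ := hyC
        exact ⟨r, r', hxy⟩
    choose! kk ss h1 h2 h3 using hch
    have hinj : ∀ k, Set.InjOn ss (F.filter fun C => kk C = k) := by
      intro k C hC C' hC' hss
      simp only [Finset.coe_filter, mem_ofPred_eq] at hC hC'
      rw [h3 C hC.1, h3 C' hC'.1, hC.2, hC'.2, hss]
    calc (F.card : ℝ≥0∞) = ((∑ k ∈ F.image kk, (F.filter fun C => kk C = k).card : ℕ) : ℝ≥0∞) := by
          congr 1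
          exact Finset.card_eq_sum_card_image kk F
      _ = ∑ k ∈ F.image kk, ((F.filter fun C => kk C = k).card : ℝ≥0∞) := by push_cast; rfl
      _ ≤ ∑ k ∈ F.image kk, g k α := by
          refine Finset.sum_le_sum fun k _ => ?_
          refine le_trans ?_ (hg2 k α)
          have h4 : ((F.filter fun C => kk C = k).card : ℕ∞) ≤
              (S k ∩ (P k).a ⁻¹' {α}).encard := by
            rw [← Set.encard_coe_eq_coe_finsetCard, ← (hinj k).encard_image]
            apply Set.encard_le_encard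
            rintro _ ⟨C, hC, rfl⟩
            simp only [Finset.coe_filter, mem_ofPred_eq] at hC
            have h5 := h1 C hC.1
            have h6 := h2 C hC.1
            rw [hC.2] at h5 h6
            exact ⟨h5, h6⟩
          have h7 := ENat.toENNReal_le.2 h4
          simpa using h7
      _ ≤ ∑' k, g k α := ENNReal.sum_le_tsum _
  · -- integral
    have hmeasimg : ∀ k, MeasurableSet ((P k).Q '' (P k).strip (S k)) := fun k =>
      (P k).measurableSet_image hφ (hSm k) (hSε k)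
    have hdisj : Pairwise (Function.onFun Disjoint fun k => (P k).Q '' (P k).strip (S k)) := by
      have key : ∀ j k, j < k → Disjoint ((P j).Q '' (P j).strip (S j))
          ((P k).Q '' (P k).strip (S k)) := by
        intro j k hjk
        rw [Set.disjoint_left]
        rintro _ ⟨⟨s', t'⟩, ⟨hs', ht'⟩, rfl⟩ ⟨⟨s, t⟩, ⟨hs, ht⟩, heq⟩
        simp only at hs' ht' hs ht
        have hm1 := (P j).minPer hφ (hSε j hs')
        have hm2 := (P k).minPer hφ (hSε k hs)
        have heq' : φ t' ((P j).σ s') ((P j).a s') = φ t ((P k).σ s) ((P k).a s) := heq.symm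
        obtain ⟨e1, e2⟩ := orbit_eq hφ hX.continuous ((P j).haπ s' (hSε j hs'))
          ((P k).haπ s (hSε k hs)) hm1 hm2 heq'
        apply hs.2.1
        simp only [hB, mem_iUnion]
        refine ⟨j, hjk, ?_⟩
        rw [e2]
        exact (P j).mem_reg hφ (hSε j hs') (t' - t)
      intro j k hjk
      rcases lt_or_gt_of_ne hjk with h | h
      · exact key j k h
      · exact (key k j h).symm
    rw [lintegral_tsum fun k => (hg1 k).aemeasurable]
    calc ∑' k, ∫⁻ β, g k β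
        ≤ ∑' k, ENNReal.ofReal (1 / ℓ) * ∫⁻ p in (P k).Q '' (P k).strip (S k), h p :=
          ENNReal.tsum_le_tsum hg3
      _ = ENNReal.ofReal (1 / ℓ) * ∫⁻ p in ⋃ k, (P k).Q '' (P k).strip (S k), h p := by
          rw [ENNReal.tsum_mul_left, lintegral_iUnion hmeasimg hdisj]
      _ ≤ ENNReal.ofReal (1 / ℓ) * ∫⁻ p in Ω, h p := by
          gcongr
          rintro _ hx
          simp only [mem_iUnion] at hx
          obtain ⟨k, ⟨s, t⟩, ⟨hs, ht⟩, rfl⟩ := hx
          exact hs.2.2.1 t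

end

end Pool.Agent.H709R2
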