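import Pool.Agent.H709R2.LocalE
import Pool.Agent.H709R2.Master2

/-! Closed orbits in a small cell. -/

open Real Set MeasureTheory Topology Filter
open scoped ENNReal

namespace Pool.Agent.H709R2

noncomputable section

/-- closed square with centre `q` and half side `r` -/
def sqr (q : ℝ × ℝ) (r : ℝ) : Set (ℝ × ℝ) :=
  Icc (q.1 - r) (q.1 + r) ×ˢ Icc (q.2 - r) (q.2 + r)

lemma mem_sqr {q p : ℝ × ℝ} {r : ℝ} : p ∈ sqr q r ↔ ‖p - q‖ ≤ r := by
  unfold sqr
  rw [Prod.norm_def, max_le_iff, Real.norm_eq_abs, Real.norm_eq_abs, abs_le, abs_le, mem_prod,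
    mem_Icc, mem_Icc]
  simp only [Prod.fst_sub, Prod.snd_sub]
  constructor
  · rintro ⟨⟨h1, h2⟩, h3, h4⟩
    exact ⟨⟨by linarith, by linarith⟩, by linarith, by linarith⟩
  · rintro ⟨⟨h1, h2⟩, h3, h4⟩
    exact ⟨⟨by linarith, by linarith⟩, by linarith, by linarith⟩

/-- `C` is a nonconstant closed orbit of the field `V` -/
def ClosedOrbit (V : ℝ × ℝ → ℝ × ℝ) (C : Set (ℝ × ℝ)) : Prop :=
  ∃ γ : ℝ → ℝ × ℝ, ∃ T : ℝ, 0 < T ∧ (∀ t, HasDerivAt γ (V (γ t)) t) ∧
    (∀ t, γ (t + T) = γ t) ∧ (∃ s t, γ s ≠ γ t) ∧ C = range γ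

/-- closed orbits of `V` in `Ω` of Euclidean diameter `≥ d` -/
def Cls (V : ℝ × ℝ → ℝ × ℝ) (Ω : Set (ℝ × ℝ)) (d : ℝ) : Set (Set (ℝ × ℝ)) :=
  {C | ClosedOrbit V C ∧ C ⊆ Ω ∧ ∃ x ∈ C, ∃ y ∈ C, d ^ 2 ≤ sq (x - y)}

lemma sq_le_norm (v : ℝ × ℝ) : sq v ≤ 2 * ‖v‖ ^ 2 := by
  have h1 : |v.1| ≤ ‖v‖ := norm_fst_le v
  have h2 : |v.2| ≤ ‖v‖ := norm_snd_le v
  unfold sq
  rw [← sq_abs v.1, ← sq_abs v.2]
  have := pow_le_pow_left₀ (abs_nonneg _) h1 2
  have := pow_le_pow_left₀ (abs_nonneg _) h2 2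
  linarith

lemma norm_le_sq (v : ℝ × ℝ) : ‖v‖ ^ 2 ≤ sq v := by
  rw [Prod.norm_def]
  unfold sq
  rcases max_cases ‖v.1‖ ‖v.2‖ with ⟨h, -⟩ | ⟨h, -⟩
  · rw [h, Real.norm_eq_abs, sq_abs]; nlinarith [sq_nonneg v.2]
  · rw [h, Real.norm_eq_abs, sq_abs]; nlinarith [sq_nonneg v.1]

/-- no closed orbit in a cell where the field is almost constant -/
lemma cls_eq_empty {F : ℝ × ℝ → ℝ × ℝ} {q : ℝ × ℝ} {L K d : ℝ} (hK : 0 ≤ K) (hL : 0 < L)
    (h4 : ∀ p, ‖p - q‖ ≤ 2 * L → ‖F p - F q‖ ≤ K * ‖p - q‖) (hFq : 3 * K * L < ‖F q‖) (α : ℝ) :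
    Cls (fun p => rot α (F p)) (sqr q (2 * L)) d = ∅ := by
  ext C
  simp only [Cls, mem_ofPred_eq, mem_empty_iff_false, iff_false]
  rintro ⟨⟨γ, T, hT, hγ, hper, -, rfl⟩, hsub, -⟩
  set u := rot α (F q) with hu
  have h1 : ∀ t, HasDerivAt (fun t => (γ t).1 * u.1 + (γ t).2 * u.2)
      ((rot α (F (γ t))).1 * u.1 + (rot α (F (γ t))).2 * u.2) t := by
    intro t
    have e1 := (ContinuousLinearMap.fst ℝ ℝ ℝ).hasFDerivAt.comp_hasDerivAt t (hγ t)
    have e2 := (ContinuousLinearMap.snd ℝ ℝ ℝ).hasFDerivAt.comp_hasDerivAt t (hγ t)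
    exact (e1.mul_const u.1).add (e2.mul_const u.2)
  have h2 : ∀ t, 0 < (rot α (F (γ t))).1 * u.1 + (rot α (F (γ t))).2 * u.2 := by
    intro t
    have hp : ‖γ t - q‖ ≤ 2 * L := mem_sqr.1 (hsub ⟨t, rfl⟩)
    have e1 : (rot α (F (γ t))).1 * u.1 + (rot α (F (γ t))).2 * u.2 =
        (F (γ t)).1 * (F q).1 + (F (γ t)).2 * (F q).2 := by
      rw [hu]; unfold rot
      have := Real.sin_sq_add_cos_sq α
      simp only
      linear_combination ((F (γ t)).1 * (F q).1 + (F (γ t)).2 * (F q).2) * this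
    rw [e1]
    set a := F (γ t) - F q with ha
    have e2 : sq a ≤ 8 * (K * L) ^ 2 := by
      have := sq_le_norm a
      have e3 : ‖a‖ ≤ 2 * (K * L) := (h4 _ hp).trans (by nlinarith)
      have := pow_le_pow_left₀ (norm_nonneg _) e3 2
      nlinarith
    have e3 : 9 * (K * L) ^ 2 < sq (F q) := by
      have h5 := norm_le_sq (F q)
      have h6 : (3 * K * L) ^ 2 < ‖F q‖ ^ 2 := by gcongr
      nlinarith
    have e4 : (a.1 * (F q).1 + a.2 * (F q).2) ^ 2 ≤ sq a * sq (F q) := cs2 _ _ _ _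
    have e5 : (F (γ t)).1 * (F q).1 + (F (γ t)).2 * (F q).2 =
        sq (F q) + (a.1 * (F q).1 + a.2 * (F q).2) := by
      rw [ha]; unfold sq; simp only [Prod.fst_sub, Prod.snd_sub]; ring
    rw [e5]
    have hs0 : 0 < sq (F q) := lt_of_le_of_lt (by positivity) e3
    have e6 : sq a * sq (F q) < sq (F q) ^ 2 := by
      rw [pow_two (sq (F q))]
      exact mul_lt_mul_of_pos_right (by nlinarith [sq_nonneg (K * L)]) hs0
    have e7 : |a.1 * (F q).1 + a.2 * (F q).2| < sq (F q) :=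
      abs_lt_of_sq_lt_sq (lt_of_le_of_lt e4 e6) hs0.le
    have := (abs_lt.1 e7).1
    linarith
  have h3 : StrictMono (fun t => (γ t).1 * u.1 + (γ t).2 * u.2) :=
    strictMono_of_hasDerivAt_pos h1 h2
  have h5 := h3 hT
  have h6 := hper 0
  rw [zero_add] at h6
  simp only [h6] at h5
  exact lt_irrefl _ h5

lemma sq_sub_le (x y z : ℝ × ℝ) : sq (x - y) ≤ 2 * sq (x - z) + 2 * sq (y - z) := by
  unfold sq
  simp only [Prod.fst_sub, Prod.snd_sub]
  nlinarith [sq_nonneg ((x.1 - z.1) + (y.1 - z.1)), sq_nonneg ((x.2 - z.2) + (y.2 - z.2))]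

lemma isClosed_pairs (d : ℝ) : IsClosed {z : (ℝ × ℝ) × (ℝ × ℝ) | sq (z.1 - z.2) ≤ d ^ 2} := by
  have : Continuous fun z : (ℝ × ℝ) × (ℝ × ℝ) => sq (z.1 - z.2) :=
    continuous_sq.comp (continuous_fst.sub continuous_snd)
  exact isClosed_le this continuous_const

lemma wlen_one {X : ℝ × ℝ → ℝ × ℝ} {φ : ℝ → ℝ × ℝ → ℝ → ℝ × ℝ} {α : ℝ} {p : ℝ × ℝ} {T : ℝ} :
    wlen X φ (fun _ => 1) α p T = ∫ t in (0:ℝ)..T, sq (rot α (X (φ t p α))) := by
  unfold wlen
  simp only [one_mul, sq_rot]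

lemma divW_one {X : ℝ × ℝ → ℝ × ℝ} {α : ℝ} {p : ℝ × ℝ} :
    divW (fun _ => 1) X α p = divRot X α p := by
  unfold divW
  simp

/-- the number of closed orbits in a small nondegenerate cell -/
theorem cell_bound {F : ℝ × ℝ → ℝ × ℝ} (hF : ContDiff ℝ 2 F) {q : ℝ × ℝ} {L K θ δ : ℝ}
    (hK : 1 ≤ K) (hL : 0 < L) (hL1 : L ≤ 1) (hθ : 0 < θ) (hθ1 : θ ≤ 1) (hδ : 0 < δ) (hδ1 : δ ≤ 1)
    (h1 : ∀ p, ‖p - q‖ ≤ 2 * L → ‖F p - F q - fderiv ℝ F q (p - q)‖ ≤ K * ‖p - q‖ ^ 2)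
    (h2 : ∀ p, ‖p - q‖ ≤ 2 * L → ‖fderiv ℝ F p - fderiv ℝ F q‖ ≤ K * ‖p - q‖)
    (h3 : ‖fderiv ℝ F q‖ ≤ K) (hFq : ‖F q‖ ≤ 3 * K * L)
    (hD : δ ≤ |wedge (fderiv ℝ F q (1, 0)) (fderiv ℝ F q (0, 1))|)
    (hc1 : 300 * K ^ 2 * L ≤ δ * θ) (hc2 : 13000000 * K ^ 6 * L ^ 2 ≤ θ ^ 3 * δ ^ 3) :
    ∃ g : ℝ → ℝ≥0∞, Measurable g ∧
      (∀ α ∈ Ioo 0 π, ((Cls (fun p => rot α (F p)) (sqr q (2 * L)) (θ * L)).encard : ℝ≥0∞) ≤
        g α) ∧
      ∫⁻ α, g α ≤ ENNReal.ofReal (700000000 * K ^ 7 * L / (θ ^ 4 * δ ^ 4)) := by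
  obtain ⟨X, hX, ⟨K', hK'⟩, ⟨M, hM⟩, hXF⟩ := exists_cutoff hF (‖q‖ + 2 * L)
  obtain ⟨φ, hφ⟩ := exists_rotFlow hX hK' hM
  set Ω := sqr q (2 * L) with hΩ
  have hΩc : IsClosed Ω := (isClosed_Icc.prod isClosed_Icc)
  have hXF' : ∀ p ∈ Ω, X =ᶠ[𝓝 p] F := by
    intro p hp
    apply hXF
    have := mem_sqr.1 hp
    calc ‖p‖ = ‖q + (p - q)‖ := by congr 1; abel
      _ ≤ ‖q‖ + ‖p - q‖ := norm_add_le _ _
      _ ≤ _ := by linarith
  set u := fderiv ℝ F q (1, 0) with hu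
  set v := fderiv ℝ F q (0, 1) with hv
  set D := wedge u v with hDdef
  have hun : ‖u‖ ≤ K := by
    have := (fderiv ℝ F q).le_opNorm ((1:ℝ), (0:ℝ))
    have h5 : ‖((1:ℝ), (0:ℝ))‖ = 1 := by simp [Prod.norm_def]
    rw [h5, mul_one] at this
    exact this.trans h3
  have hvn : ‖v‖ ≤ K := by
    have := (fderiv ℝ F q).le_opNorm ((0:ℝ), (1:ℝ))
    have h5 : ‖((0:ℝ), (1:ℝ))‖ = 1 := by simp [Prod.norm_def]
    rw [h5, mul_one] at this
    exact this.trans h3
  have hK0 : 0 < K := by linarith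
  have hsu : sq u ≤ 2 * K ^ 2 := (sq_le_norm u).trans (by gcongr)
  have hsv : sq v ≤ 2 * K ^ 2 := (sq_le_norm v).trans (by gcongr)
  have hDne : D ≠ 0 := by
    intro h
    rw [h, abs_zero] at hD
    linarith
  -- the zero of the linearisation
  set z : ℝ × ℝ := ((v.2 * (F q).1 - v.1 * (F q).2) / D, (-u.2 * (F q).1 + u.1 * (F q).2) / D) with hz
  have hlinz : fderiv ℝ F q z = F q := by
    rw [clm_decomp (fderiv ℝ F q) z, ← hu, ← hv, hz]
    have hD' : u.1 * v.2 - u.2 * v.1 = D := by rw [hDdef]; rfl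
    ext
    · simp only [Prod.fst_add, Prod.smul_fst, smul_eq_mul]
      field_simp
      rw [← hD']; ring
    · simp only [Prod.snd_add, Prod.smul_snd, smul_eq_mul]
      field_simp
      rw [← hD']; ring
  set z₀ := q - z with hz₀
  set ε := 6 * K * L ^ 2 with hε
  set vm := 13 * K * L with hvm
  set ρ := θ * L / 4 with hρ
  have hρ0 : 0 < ρ := by positivity
  have hvm0 : 0 < vm := by positivity
  have hε0 : 0 ≤ ε := by positivity
  have herr : ∀ p ∈ Ω, sq (F p - fderiv ℝ F q (p - z₀)) ≤ ε ^ 2 := by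
    intro p hp
    have hp' := mem_sqr.1 hp
    have e1 : F p - fderiv ℝ F q (p - z₀) = F p - F q - fderiv ℝ F q (p - q) := by
      rw [hz₀, show p - (q - z) = (p - q) + z by abel, map_add, hlinz]
      abel
    rw [e1]
    have e2 : ‖F p - F q - fderiv ℝ F q (p - q)‖ ≤ 4 * (K * L ^ 2) := by
      refine (h1 p hp').trans ?_
      calc K * ‖p - q‖ ^ 2 ≤ K * (2 * L) ^ 2 := by gcongr
        _ = _ := by ring
    have e3 := pow_le_pow_left₀ (norm_nonneg _) e2 2
    refine (sq_le_norm _).trans ?_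
    rw [hε]
    nlinarith [sq_nonneg (K * L ^ 2)]
  have hspeed : ∀ p ∈ Ω, sq (F p) ≤ vm ^ 2 := by
    intro p hp
    have hp' := mem_sqr.1 hp
    have e1 : ‖F p‖ ≤ 9 * (K * L) := by
      calc ‖F p‖ = ‖F q + fderiv ℝ F q (p - q) + (F p - F q - fderiv ℝ F q (p - q))‖ := by
            congr 1; abel
        _ ≤ ‖F q‖ + ‖fderiv ℝ F q (p - q)‖ + ‖F p - F q - fderiv ℝ F q (p - q)‖ :=
            norm_add₃_le
        _ ≤ 3 * K * L + K * (2 * L) + K * (2 * L) ^ 2 := by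
            refine add_le_add (add_le_add hFq ?_) ((h1 p hp').trans (by gcongr))
            exact ((fderiv ℝ F q).le_opNorm _).trans (by gcongr)
        _ ≤ 9 * (K * L) := by nlinarith [mul_le_mul_of_nonneg_left hL1 (mul_pos hK0 hL).le]
    have e3 := pow_le_pow_left₀ (norm_nonneg _) e1 2
    refine (sq_le_norm _).trans ?_
    rw [hvm]
    nlinarith [sq_nonneg (K * L)]
  -- the rotated linear part
  have hrotlin : ∀ α (y : ℝ × ℝ), rot α (fderiv ℝ F q y) =
      lin (rot α u).1 (rot α v).1 (rot α u).2 (rot α v).2 y := by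
    intro α y
    rw [clm_decomp (fderiv ℝ F q) y, ← hu, ← hv]
    unfold lin rot
    ext
    · simp only [Prod.fst_add, Prod.snd_add, Prod.smul_fst, Prod.smul_snd, smul_eq_mul]; ring
    · simp only [Prod.fst_add, Prod.snd_add, Prod.smul_fst, Prod.smul_snd, smul_eq_mul]; ring
  have hdet : ∀ α, (rot α u).1 * (rot α v).2 - (rot α v).1 * (rot α u).2 = D := by
    intro α
    rw [hDdef]
    unfold rot wedge
    have := Real.sin_sq_add_cos_sq α
    simp only
    linear_combination (u.1 * v.2 - u.2 * v.1) * this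
  have hfro : ∀ α, fro (rot α u).1 (rot α v).1 (rot α u).2 (rot α v).2 = sq u + sq v := by
    intro α
    have e1 := sq_rot α u
    have e2 := sq_rot α v
    unfold fro
    rw [← e1, ← e2]
    unfold sq
    ring
  have hDabs : |D| ≤ 2 * K ^ 2 := by
    have e1 : D ^ 2 ≤ (2 * K ^ 2) ^ 2 := by
      have e2 : D ^ 2 ≤ sq u * sq v := by
        rw [hDdef]; unfold wedge sq
        nlinarith [sq_nonneg (u.1 * v.1 + u.2 * v.2)]
      refine e2.trans ?_
      rw [pow_two (2 * K ^ 2)]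
      exact mul_le_mul hsu hsv (sq_nonneg' _) (by positivity)
    exact abs_le_of_sq_le_sq e1 (by positivity)
  -- error transported by the rotation
  have herr' : ∀ α, ∀ p ∈ Ω, sq (rot α (F p) -
      lin (rot α u).1 (rot α v).1 (rot α u).2 (rot α v).2 (p - z₀)) ≤ ε ^ 2 := by
    intro α p hp
    rw [← hrotlin, rot_sub, sq_rot]
    exact herr p hp
  set ℓ := D ^ 2 * ρ ^ 3 / (32 * (4 * K ^ 2) * vm) with hℓ
  have hℓ0 : 0 < ℓ := by positivity
  set H := 361 * K ^ 4 * L / (θ * δ ^ 2) with hH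
  -- key facts for an orbit
  have key : ∀ α ∈ Ioo 0 π, ∀ p T, MinPer X φ α p T → (∀ t, φ t p α ∈ Ω) →
      (∃ s t, (φ s p α, φ t p α) ∉ {z : (ℝ × ℝ) × (ℝ × ℝ) | sq (z.1 - z.2) ≤ (θ * L / 2) ^ 2}) →
      ℓ ≤ wlen X φ (fun _ => 1) α p T ∧
        ENNReal.ofReal |divW (fun _ => 1) X α p| ≤ ENNReal.ofReal H := by
    intro α hα p T hmp hpΩ ⟨s, t, hst⟩
    simp only [mem_ofPred_eq, not_le] at hst
    -- far base point
    obtain ⟨r, hr⟩ : ∃ r, ρ ^ 2 ≤ sq (φ r p α - z₀) := by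
      by_contra hc
      push Not at hc
      have e1 := hc s
      have e2 := hc t
      have e3 := sq_sub_le (φ s p α) (φ t p α) z₀
      rw [hρ] at e1 e2
      nlinarith
    set p' := φ r p α with hp'
    have hmp' := hmp.shift hφ r
    rw [← hp'] at hmp'
    have hΩ' : ∀ t, φ t p' α ∈ Ω := fun t => by rw [hp', ← hφ.add]; exact hpΩ _
    set y : ℝ → ℝ × ℝ := fun t => φ t p' α - z₀ with hy
    set V : ℝ → ℝ × ℝ := fun t => rot α (X (φ t p' α)) with hV
    have hyd : ∀ t, HasDerivAt y (V t) t := fun t => (hφ.deriv p' α t).sub_const z₀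
    have hVc : Continuous V := (continuous_rot α).comp (hX.continuous.comp (hφ.continuous_orbit _ _))
    have hXeq : ∀ t, X (φ t p' α) = F (φ t p' α) := fun t => (hXF' _ (hΩ' t)).eq_of_nhds
    have hyper : Function.Periodic y T := fun t => by simp only [hy]; rw [hφ.periodic hmp'.per]
    have he : ∀ t, sq (V t - lin (rot α u).1 (rot α v).1 (rot α u).2 (rot α v).2 (y t)) ≤
        ε ^ 2 := by
      intro t
      simp only [hV, hXeq]
      exact herr' α _ (hΩ' t)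
    have hvV : ∀ t, sq (V t) ≤ vm ^ 2 := by
      intro t
      simp only [hV, hXeq, sq_rot]
      exact hspeed _ (hΩ' t)
    have h0 : ρ ^ 2 ≤ sq (y 0) := by simp only [hy, hφ.zero]; exact hr
    have hT : ρ / (2 * vm) ≤ T := by
      have e1 := len_ge hφ hX.continuous hmp (q := φ s p α) (q' := φ t p α) ⟨s, rfl⟩ ⟨t, rfl⟩
      rw [wlen_winv_eq hφ hmp] at e1
      have e2 : ∫ t in (0:ℝ)..T, √(sq (rot α (X (φ t p α)))) ≤ ∫ t in (0:ℝ)..T, vm := by
        refine intervalIntegral.integral_mono_on hmp.pos.le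
          (((continuous_sq.comp ((continuous_rot α).comp (hX.continuous.comp
            (hφ.continuous_orbit _ _)))).sqrt).intervalIntegrable _ _) (by simp) fun t _ => ?_
        rw [sq_rot, (hXF' _ (hpΩ t)).eq_of_nhds]
        exact Real.sqrt_le_iff.2 ⟨hvm0.le, hspeed _ (hpΩ t)⟩
      rw [intervalIntegral.integral_const, smul_eq_mul, sub_zero] at e2
      have e3 : θ * L / 2 ≤ √(sq (φ s p α - φ t p α)) := by
        apply Real.le_sqrt_of_sq_le hst.le
      rw [div_le_iff₀ (by positivity), hρ]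
      have : 0 < θ * L := by positivity
      linarith
    have hNle : fro (rot α u).1 (rot α v).1 (rot α u).2 (rot α v).2 ≤ 4 * K ^ 2 := by
      rw [hfro]; linarith
    have hD2 : δ ^ 2 ≤ D ^ 2 := by
      rw [← sq_abs D]
      exact pow_le_pow_left₀ hδ.le hD 2
    have hact := action_ge hyd hVc he hNle (by positivity) hvm0 hρ0 hvV h0 hT (by
      rw [hdet, hε, hρ]
      have e1 : (300 * K ^ 2 * L) ^ 2 ≤ (δ * θ) ^ 2 := pow_le_pow_left₀ (by positivity) hc1 2
      calc 16 * (4 * K ^ 2) * (6 * K * L ^ 2) ^ 2 = 2304 * (K ^ 4 * L ^ 2) * L ^ 2 := by ring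
        _ ≤ (300 * K ^ 2 * L) ^ 2 / 16 * L ^ 2 := by
            have : 0 ≤ K ^ 4 * L ^ 2 * L ^ 2 := by positivity
            nlinarith
        _ ≤ (δ * θ) ^ 2 / 16 * L ^ 2 := by gcongr
        _ = δ ^ 2 * (θ * L / 4) ^ 2 := by ring
        _ ≤ D ^ 2 * (θ * L / 4) ^ 2 := by gcongr)
    rw [hdet, zero_add] at hact
    refine ⟨?_, ?_⟩
    · rw [← wlen_shift hφ hmp r, wlen_one]
      exact hact
    · apply ENNReal.ofReal_le_ofReal
      rw [divW_one]
      have hpp : p ∈ Ω := by have := hpΩ 0; rwa [hφ.zero] at this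
      -- the trace at the centre
      have htr : |(rot α u).1 + (rot α v).2| ≤ 353 * K ^ 4 * L / (θ * δ ^ 2) := by
        rcases lt_or_gt_of_ne hDne with hneg | hpos
        · exfalso
          have hE : |D| = -D := abs_of_neg hneg
          refine no_saddle (g := 3 * K) hyd hVc hmp.pos hyper hε0 he (by rw [hdet]; exact hneg)
            (by positivity) ?_ hvm0 hρ0 hvV h0 ?_ ?_
          · rw [hdet, hfro]
            have := neg_abs_le D
            nlinarith [sq_nonneg K]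
          · rw [hdet, ← hE, hε, hρ]
            calc 3 * K * (6 * K * L ^ 2) = 18 * K ^ 2 * L * L := by ring
              _ ≤ (300 * K ^ 2 * L) / 16 * L := by
                  have : 0 ≤ K ^ 2 * L * L := by positivity
                  nlinarith
              _ ≤ (δ * θ) / 16 * L := by gcongr
              _ = δ * (θ * L / 4) / 4 := by ring
              _ ≤ |D| * (θ * L / 4) / 4 := by gcongr
          · rw [hdet, ← hE, hε, hρ, hvm]
            have hpos : 0 < K ^ 6 * L ^ 5 := by positivity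
            calc 16 * (3 * K) ^ 3 * (6 * K * L ^ 2) ^ 2 * (13 * K * L)
                = 202176 * (K ^ 6 * L ^ 5) := by ring
              _ < 203125 * (K ^ 6 * L ^ 5) := by linarith
              _ = (13000000 * K ^ 6 * L ^ 2) * L ^ 3 / 64 := by ring
              _ ≤ (θ ^ 3 * δ ^ 3) * L ^ 3 / 64 := by gcongr
              _ = (θ * L / 4) ^ 3 * δ ^ 3 := by ring
              _ ≤ (θ * L / 4) ^ 3 * |D| ^ 3 := by gcongr
        · have hE : |D| = D := abs_of_pos hpos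
          rw [hE] at hD hDabs
          have e1 := trace_small hyd hmp.pos hyper he (by rw [hdet]; exact hpos) 0
          rw [hdet, hfro] at e1
          set tr := (rot α u).1 + (rot α v).2 with htr
          have e2 : δ ^ 3 * tr ^ 2 * ρ ^ 2 ≤ (6 * K ^ 2) ^ 3 * ε ^ 2 := by
            calc δ ^ 3 * tr ^ 2 * ρ ^ 2 ≤ D ^ 3 * tr ^ 2 * sq (y 0) := by gcongr
              _ ≤ (D + (sq u + sq v)) ^ 3 * ε ^ 2 := e1
              _ ≤ (6 * K ^ 2) ^ 3 * ε ^ 2 := by
                  have := sq_nonneg' u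
                  have := sq_nonneg' v
                  gcongr
                  linarith
          apply abs_le_of_sq_le_sq _ (by positivity)
          rw [div_pow, le_div_iff₀ (by positivity)]
          have hL2 : 0 < L ^ 2 := by positivity
          have e3 : δ ^ 3 * tr ^ 2 * θ ^ 2 ≤ 124416 * (K ^ 4 * L) ^ 2 := by
            have e4 : (δ ^ 3 * tr ^ 2 * θ ^ 2) * (L ^ 2) ≤ (124416 * (K ^ 4 * L) ^ 2) * (L ^ 2) := by
              calc (δ ^ 3 * tr ^ 2 * θ ^ 2) * (L ^ 2) = 16 * (δ ^ 3 * tr ^ 2 * ρ ^ 2) := by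
                    rw [hρ]; ring
                _ ≤ 16 * ((6 * K ^ 2) ^ 3 * ε ^ 2) := by gcongr
                _ = _ := by rw [hε]; ring
            exact le_of_mul_le_mul_right e4 hL2
          calc tr ^ 2 * (θ * δ ^ 2) ^ 2 = (δ ^ 3 * tr ^ 2 * θ ^ 2) * δ := by ring
            _ ≤ (δ ^ 3 * tr ^ 2 * θ ^ 2) * 1 := by gcongr
            _ ≤ 124416 * (K ^ 4 * L) ^ 2 := by linarith
            _ ≤ (353 * K ^ 4 * L) ^ 2 := by
                have : 0 ≤ (K ^ 4 * L) ^ 2 := by positivity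
                nlinarith
      -- variation of the divergence in the cell
      have hfd : fderiv ℝ X p = fderiv ℝ F p := (hXF' p hpp).fderiv_eq
      have hvar : |divRot X α p - ((rot α u).1 + (rot α v).2)| ≤ 8 * K * L := by
        unfold divRot
        rw [hfd]
        set A := fderiv ℝ F p - fderiv ℝ F q with hA
        have hAn : ‖A‖ ≤ 2 * (K * L) := by
          have hp' := mem_sqr.1 hpp
          refine (h2 p hp').trans ?_
          calc K * ‖p - q‖ ≤ K * (2 * L) := by gcongr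
            _ = _ := by ring
        have e1 : (rot α (fderiv ℝ F p (1, 0))).1 + (rot α (fderiv ℝ F p (0, 1))).2 -
            ((rot α u).1 + (rot α v).2) = (rot α (A (1, 0))).1 + (rot α (A (0, 1))).2 := by
          rw [hA, hu, hv]
          simp only [ContinuousLinearMap.sub_apply]
          rw [← rot_sub, ← rot_sub]
          simp only [Prod.fst_sub, Prod.snd_sub]
          ring
        rw [e1]
        have e2 : ∀ w : ℝ × ℝ, ‖w‖ = 1 → ‖rot α (A w)‖ ≤ 4 * (K * L) := by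
          intro w hw
          refine (norm_rot_le _ _).trans ?_
          have := A.le_opNorm w
          rw [hw, mul_one] at this
          linarith
        have e3 := (norm_fst_le _).trans (e2 (1, 0) (by simp [Prod.norm_def]))
        have e4 := (norm_snd_le _).trans (e2 (0, 1) (by simp [Prod.norm_def]))
        rw [Real.norm_eq_abs] at e3 e4
        refine (abs_add_le _ _).trans ?_
        linarith
      have hfin : 8 * K * L ≤ 8 * K ^ 4 * L / (θ * δ ^ 2) := by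
        rw [le_div_iff₀ (by positivity)]
        have e1 : θ * δ ^ 2 ≤ 1 := by
          have : δ ^ 2 ≤ 1 := pow_le_one₀ hδ.le hδ1
          calc θ * δ ^ 2 ≤ 1 * 1 := mul_le_mul hθ1 this (by positivity) (by norm_num)
            _ = 1 := by norm_num
        have e2 : K ≤ K ^ 4 := by
          calc K = K ^ 1 := (pow_one K).symm
            _ ≤ K ^ 4 := pow_le_pow_right₀ hK (by norm_num)
        calc 8 * K * L * (θ * δ ^ 2) ≤ 8 * K * L * 1 := by gcongr
          _ ≤ 8 * K ^ 4 * L * 1 := by gcongr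
          _ = _ := by ring
      have : |divRot X α p| ≤ |divRot X α p - ((rot α u).1 + (rot α v).2)| +
          |(rot α u).1 + (rot α v).2| := by
        have := abs_add_le (divRot X α p - ((rot α u).1 + (rot α v).2)) ((rot α u).1 + (rot α v).2)
        rwa [sub_add_cancel] at this
      refine this.trans ((add_le_add hvar htr).trans ?_)
      rw [hH]
      calc 8 * K * L + 353 * K ^ 4 * L / (θ * δ ^ 2)
          ≤ 8 * K ^ 4 * L / (θ * δ ^ 2) + 353 * K ^ 4 * L / (θ * δ ^ 2) := by gcongr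
        _ = _ := by ring
  obtain ⟨g, hg1, hg2, hg3⟩ := master2 (w := fun _ => 1) (ℓ := ℓ) (Ω := Ω) hφ hX
    (fun _ _ => contDiffAt_const) hΩc (isClosed_pairs (θ * L / 2)) (h := fun _ => ENNReal.ofReal H)
    measurable_const hℓ0 key
  refine ⟨g, hg1, ?_, hg3.trans ?_⟩
  · intro α hα
    refine le_trans ?_ (hg2 α hα)
    refine ENat.toENNReal_le.2 (Set.encard_le_encard ?_)
    rintro C ⟨⟨γ, T, hT, hγ, hper, hnc, rfl⟩, hCΩ, x, hx, y, hy, hxy⟩
    have hγ' : ∀ t, HasDerivAt γ (rot α (X (γ t))) t := by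
      intro t
      rw [(hXF' _ (hCΩ ⟨t, rfl⟩)).eq_of_nhds]
      exact hγ t
    obtain ⟨T₀, hmp, hrange⟩ := minPer_of_closed hφ hT hγ' hper hnc
    refine ⟨γ 0, T₀, hmp, hrange, hCΩ, x, hx, y, hy, ?_⟩
    simp only [mem_ofPred_eq, not_le]
    refine lt_of_lt_of_le ?_ hxy
    have : 0 < (θ * L) ^ 2 := by positivity
    nlinarith
  · rw [lintegral_const, Measure.restrict_apply_univ, hΩ]
    unfold sqr
    rw [Measure.volume_eq_prod, Measure.prod_prod, Real.volume_Icc, Real.volume_Icc]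
    rw [← ENNReal.ofReal_mul (by linarith), ← ENNReal.ofReal_mul (by positivity),
      ← ENNReal.ofReal_mul (by positivity)]
    apply ENNReal.ofReal_le_ofReal
    have hD2 : δ ^ 2 ≤ D ^ 2 := by
      rw [← sq_abs D]
      exact pow_le_pow_left₀ hδ.le hD 2
    have e1 : δ ^ 2 * ρ ^ 3 / (32 * (4 * K ^ 2) * vm) ≤ ℓ := by
      rw [hℓ]; gcongr
    have e2 : 1 / ℓ ≤ 1 / (δ ^ 2 * ρ ^ 3 / (32 * (4 * K ^ 2) * vm)) :=
      one_div_le_one_div_of_le (by positivity) e1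
    calc 1 / ℓ * (H * ((q.1 + 2 * L - (q.1 - 2 * L)) * (q.2 + 2 * L - (q.2 - 2 * L))))
        ≤ 1 / (δ ^ 2 * ρ ^ 3 / (32 * (4 * K ^ 2) * vm)) *
          (H * ((q.1 + 2 * L - (q.1 - 2 * L)) * (q.2 + 2 * L - (q.2 - 2 * L)))) := by
          have : 0 ≤ H * ((q.1 + 2 * L - (q.1 - 2 * L)) * (q.2 + 2 * L - (q.2 - 2 * L))) := by
            rw [show (q.1 + 2 * L - (q.1 - 2 * L)) * (q.2 + 2 * L - (q.2 - 2 * L)) = (4 * L) ^ 2 by
              ring]
            positivity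
          gcongr
      _ = 615120896 * K ^ 7 * L / (θ ^ 4 * δ ^ 4) := by
          rw [hH, hρ, hvm]
          field_simp
          ring
      _ ≤ _ := by gcongr; norm_num

end

end Pool.Agent.H709R2
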