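import Pool.Agent.H709R2.Variation

/-! Local structure of the set of closed orbits of a rotated family. -/

open Real Set MeasureTheory Topology Filter

namespace Pool.Agent.H709R2

noncomputable section

/-- a linear map of the plane with nonzero determinant is invertible -/
lemma isInvertible_of_wedge {L : (ℝ × ℝ) →L[ℝ] (ℝ × ℝ)} (h : wedge (L (1, 0)) (L (0, 1)) ≠ 0) :
    L.IsInvertible := by
  have hinj : Function.Injective (L : (ℝ × ℝ) →ₗ[ℝ] (ℝ × ℝ)) := by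
    rw [← LinearMap.ker_eq_bot, LinearMap.ker_eq_bot']
    intro u hu
    have h1 : L u = 0 := hu
    rw [clm_decomp L u] at h1
    have h2 := congrArg Prod.fst h1
    have h3 := congrArg Prod.snd h1
    simp only [Prod.fst_add, Prod.snd_add, Prod.smul_fst, Prod.smul_snd, smul_eq_mul,
      Prod.fst_zero, Prod.snd_zero] at h2 h3
    unfold wedge at h
    have h4 : u.1 * ((L (1, 0)).1 * (L (0, 1)).2 - (L (1, 0)).2 * (L (0, 1)).1) = 0 := by
      linear_combination (L (0, 1)).2 * h2 - (L (0, 1)).1 * h3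
    have h5 : u.2 * ((L (1, 0)).1 * (L (0, 1)).2 - (L (1, 0)).2 * (L (0, 1)).1) = 0 := by
      linear_combination (L (1, 0)).1 * h3 - (L (1, 0)).2 * h2
    have h6 : u.1 = 0 := (mul_eq_zero.1 h4).resolve_right h
    have h7 : u.2 = 0 := (mul_eq_zero.1 h5).resolve_right h
    exact Prod.ext h6 h7
  refine ⟨(LinearEquiv.ofInjectiveEndo (L : (ℝ × ℝ) →ₗ[ℝ] (ℝ × ℝ)) hinj).toContinuousLinearEquiv, ?_⟩
  ext <;> simp

/-- sign of the parameter derivative of a flow -/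
lemma neg_of_deriv {y c q : ℝ → ℝ} (hc : Continuous c) (hq : Continuous q)
    (hy : ∀ t, HasDerivAt y (c t * y t - q t) t) (h0 : y 0 = 0) (hq0 : ∀ t, 0 < q t)
    {T : ℝ} (hT : 0 < T) : y T < 0 := by
  set C : ℝ → ℝ := fun t => ∫ u in (0:ℝ)..t, c u with hC
  have hCd : ∀ t, HasDerivAt C (c t) t := fun t =>
    intervalIntegral.integral_hasDerivAt_right (hc.intervalIntegrable _ _)
      (hc.stronglyMeasurableAtFilter _ _) hc.continuousAt
  have hE : ∀ t, HasDerivAt (fun t => Real.exp (-C t) * y t) (-(Real.exp (-C t) * q t)) t := by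
    intro t
    have h1 := ((hCd t).neg.exp).mul (hy t)
    refine h1.congr_deriv ?_
    simp only [Pi.neg_apply]
    ring
  have hEc : Continuous C := continuous_iff_continuousAt.2 fun t => (hCd t).continuousAt
  have h2 := intervalIntegral.integral_eq_sub_of_hasDerivAt (fun t (_ : t ∈ uIcc 0 T) => hE t)
    (Continuous.intervalIntegrable (by fun_prop) _ _)
  rw [intervalIntegral.integral_neg, h0, mul_zero, sub_zero] at h2
  have h3 : 0 < ∫ t in (0:ℝ)..T, Real.exp (-C t) * q t :=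
    intervalIntegral.intervalIntegral_pos_of_pos (Continuous.intervalIntegrable (by fun_prop) _ _)
      (fun t => by have := hq0 t; positivity) hT
  have h4 : Real.exp (-C T) * y T < 0 := by linarith
  by_contra h5
  push Not at h5
  have := mul_nonneg (Real.exp_pos (-C T)).le h5
  linarith

section flow

variable {X : ℝ × ℝ → ℝ × ℝ} {φ : ℝ → ℝ × ℝ → ℝ → ℝ × ℝ}

lemma RotFlow.continuous (hφ : RotFlow X φ) :
    Continuous (fun q : ℝ × (ℝ × ℝ) × ℝ => φ q.1 q.2.1 q.2.2) := hφ.smooth.continuous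

lemma RotFlow.ne_zero (hφ : RotFlow X φ) {p : ℝ × ℝ} {α : ℝ} (hp : X p ≠ 0) (t : ℝ) :
    X (φ t p α) ≠ 0 := by
  intro h
  have h1 := hφ.uniq α (fun _ => φ t p α) (fun u => by
    simp only [h]
    have : rot α (0 : ℝ × ℝ) = 0 := by unfold rot; simp
    rw [this]
    exact hasDerivAt_const _ _) (-t)
  have h2 := hφ.add (-t) t p α
  rw [neg_add_cancel, hφ.zero] at h2
  rw [← h2] at h1
  rw [h1] at h
  exact hp h

lemma RotFlow.periodic (hφ : RotFlow X φ) {p : ℝ × ℝ} {α T : ℝ} (h : φ T p α = p) (t : ℝ) :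
    φ (t + T) p α = φ t p α := by
  rw [hφ.add, h]

/-- the parametrised family of orbits -/
def QQ (φ : ℝ → ℝ × ℝ → ℝ → ℝ × ℝ) (σ : ℝ → ℝ × ℝ) (a : ℝ → ℝ) (z : ℝ × ℝ) : ℝ × ℝ :=
  φ z.2 (σ z.1) (a z.1)

lemma contDiffAt_QQ (hφ : RotFlow X φ) {σ : ℝ → ℝ × ℝ} {a : ℝ → ℝ} {s t : ℝ}
    (hσ : ContDiffAt ℝ 2 σ s) (ha : ContDiffAt ℝ 2 a s) : ContDiffAt ℝ 2 (QQ φ σ a) (s, t) := by
  unfold QQ
  have h1 : ContDiffAt ℝ 2 (fun z : ℝ × ℝ => ((z.2, σ z.1, a z.1) : ℝ × (ℝ × ℝ) × ℝ)) (s, t) := by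
    refine contDiffAt_snd.prodMk (ContDiffAt.prodMk ?_ ?_)
    · exact ContDiffAt.comp (s, t) (g := σ) hσ contDiffAt_fst
    · exact ContDiffAt.comp (s, t) (g := a) ha contDiffAt_fst
  exact ContDiffAt.comp (s, t) (g := fun q : ℝ × (ℝ × ℝ) × ℝ => φ q.1 q.2.1 q.2.2)
    hφ.smooth.contDiffAt h1

lemma fderiv_QQ_snd (hφ : RotFlow X φ) {σ : ℝ → ℝ × ℝ} {a : ℝ → ℝ} {y : ℝ × ℝ}
    (hd : DifferentiableAt ℝ (QQ φ σ a) y) :
    fderiv ℝ (QQ φ σ a) y (0, 1) = rot (a y.1) (X (QQ φ σ a y)) := by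
  have lt : HasDerivAt (fun t' : ℝ => ((y.1, t') : ℝ × ℝ)) (0, 1) y.2 :=
    (hasDerivAt_const y.2 y.1).prodMk (hasDerivAt_id y.2)
  have h1 : HasDerivAt (fun t' : ℝ => QQ φ σ a (y.1, t')) (fderiv ℝ (QQ φ σ a) y (0, 1)) y.2 :=
    HasFDerivAt.comp_hasDerivAt y.2 (f := fun t' : ℝ => ((y.1, t') : ℝ × ℝ))
      (l := QQ φ σ a) hd.hasFDerivAt lt
  have h2 : HasDerivAt (fun t' : ℝ => QQ φ σ a (y.1, t')) (rot (a y.1) (X (QQ φ σ a y))) y.2 :=
    hφ.deriv (σ y.1) (a y.1) y.2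
  exact h1.unique h2

lemma eventually_flow_QQ (hφ : RotFlow X φ) {σ : ℝ → ℝ × ℝ} {a : ℝ → ℝ} {s t : ℝ}
    (hσ : ContDiffAt ℝ 2 σ s) (ha : ContDiffAt ℝ 2 a s) :
    ∀ᶠ y : ℝ × ℝ in 𝓝 (s, t), fderiv ℝ (QQ φ σ a) y (0, 1) = rot (a y.1) (X (QQ φ σ a y)) := by
  have h1 := contDiffAt_QQ hφ (t := t) hσ ha
  have h2 := h1.eventually (by norm_num)
  filter_upwards [h2] with y hy
  exact fderiv_QQ_snd hφ (hy.differentiableAt (by norm_num))

end flow

end

end Pool.Agent.H709R2
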