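import Pool.Agent.H709R2.Flows

/-! The variational identity for a family of integral curves of a rotated family. -/

open Real Set MeasureTheory Topology Filter

namespace Pool.Agent.H709R2

noncomputable section

/-- divergence of `rot α X` -/
def divRot (X : ℝ × ℝ → ℝ × ℝ) (α : ℝ) (p : ℝ × ℝ) : ℝ :=
  (rot α (fderiv ℝ X p (1, 0))).1 + (rot α (fderiv ℝ X p (0, 1))).2

/-- divergence of `w • rot α X` -/
def divW (w : ℝ × ℝ → ℝ) (X : ℝ × ℝ → ℝ × ℝ) (α : ℝ) (p : ℝ × ℝ) : ℝ :=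
  fderiv ℝ w p (rot α (X p)) + w p * divRot X α p

/-- the Jacobian -/
def Jac (Q : ℝ × ℝ → ℝ × ℝ) (z : ℝ × ℝ) : ℝ :=
  wedge (fderiv ℝ Q z (1, 0)) (fderiv ℝ Q z (0, 1))

lemma clm_decomp (L : (ℝ × ℝ) →L[ℝ] (ℝ × ℝ)) (u : ℝ × ℝ) :
    L u = u.1 • L (1, 0) + u.2 • L (0, 1) := by
  conv_lhs => rw [show u = u.1 • ((1:ℝ), (0:ℝ)) + u.2 • ((0:ℝ), (1:ℝ)) by ext <;> simp]
  rw [map_add, map_smul, map_smul]

lemma trace_identity (X : ℝ × ℝ → ℝ × ℝ) (α : ℝ) (p u v : ℝ × ℝ) :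
    wedge (rot α (fderiv ℝ X p u)) v + wedge u (rot α (fderiv ℝ X p v)) =
      divRot X α p * wedge u v := by
  rw [clm_decomp (fderiv ℝ X p) u, clm_decomp (fderiv ℝ X p) v]
  unfold wedge divRot rot
  simp only [Prod.fst_add, Prod.snd_add, Prod.smul_fst, Prod.smul_snd, smul_eq_mul]
  ring

lemma hasDerivAt_rot_comp {X : ℝ × ℝ → ℝ × ℝ} {a : ℝ → ℝ} {q : ℝ → ℝ × ℝ} {a' : ℝ} {u : ℝ × ℝ}
    {s : ℝ} (ha : HasDerivAt a a' s) (hq : HasDerivAt q u s) (hX : DifferentiableAt ℝ X (q s)) :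
    HasDerivAt (fun s => rot (a s) (X (q s)))
      (rot (a s) (fderiv ℝ X (q s) u) +
        a' • (-(rot (a s) (X (q s))).2, (rot (a s) (X (q s))).1)) s := by
  have h1 : HasDerivAt (fun s => X (q s)) (fderiv ℝ X (q s) u) s :=
    hX.hasFDerivAt.comp_hasDerivAt s hq
  have h11 : HasDerivAt (fun s => (X (q s)).1) (fderiv ℝ X (q s) u).1 s :=
    (ContinuousLinearMap.fst ℝ ℝ ℝ).hasFDerivAt.comp_hasDerivAt s h1
  have h12 : HasDerivAt (fun s => (X (q s)).2) (fderiv ℝ X (q s) u).2 s :=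
    (ContinuousLinearMap.snd ℝ ℝ ℝ).hasFDerivAt.comp_hasDerivAt s h1
  have hc : HasDerivAt (fun s => Real.cos (a s)) (-Real.sin (a s) * a') s := ha.cos
  have hs : HasDerivAt (fun s => Real.sin (a s)) (Real.cos (a s) * a') s := ha.sin
  have h2 := ((hc.mul h11).sub (hs.mul h12)).prodMk ((hs.mul h11).add (hc.mul h12))
  unfold rot
  refine h2.congr_deriv ?_
  ext <;> simp <;> ring

/-- the variational identity -/
theorem hasDerivAt_Jac {X : ℝ × ℝ → ℝ × ℝ} {a : ℝ → ℝ} {Q : ℝ × ℝ → ℝ × ℝ} {s t a' : ℝ}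
    (hQ : ContDiffAt ℝ 2 Q (s, t))
    (hflow : ∀ᶠ y : ℝ × ℝ in 𝓝 (s, t), fderiv ℝ Q y (0, 1) = rot (a y.1) (X (Q y)))
    (ha : HasDerivAt a a' s) (hX : DifferentiableAt ℝ X (Q (s, t))) :
    HasDerivAt (fun t => Jac Q (s, t))
      (divRot X (a s) (Q (s, t)) * Jac Q (s, t) - a' * sq (X (Q (s, t)))) t := by
  have hQd : DifferentiableAt ℝ Q (s, t) := hQ.differentiableAt (by norm_num)
  have hD : DifferentiableAt ℝ (fderiv ℝ Q) (s, t) :=
    (hQ.fderiv_right (m := 1) (by norm_num)).differentiableAt (by norm_num)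
  set D' := fderiv ℝ (fderiv ℝ Q) (s, t) with hD'
  have hsymm : IsSymmSndFDerivAt ℝ Q (s, t) := hQ.isSymmSndFDerivAt (by simp)
  -- lines
  have lt : HasDerivAt (fun t' : ℝ => ((s, t') : ℝ × ℝ)) (0, 1) t :=
    (hasDerivAt_const t s).prodMk (hasDerivAt_id t)
  have ls : HasDerivAt (fun s' : ℝ => ((s', t) : ℝ × ℝ)) (1, 0) s :=
    (hasDerivAt_id s).prodMk (hasDerivAt_const s t)
  have hDt : ∀ u, HasDerivAt (fun t' : ℝ => fderiv ℝ Q (s, t') u) (D' (0, 1) u) t := by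
    intro u
    have h1 := hD.hasFDerivAt.comp_hasDerivAt t lt
    exact ((ContinuousLinearMap.apply ℝ (ℝ × ℝ) u).hasFDerivAt.comp_hasDerivAt t h1)
  have hDs : ∀ u, HasDerivAt (fun s' : ℝ => fderiv ℝ Q (s', t) u) (D' (1, 0) u) s := by
    intro u
    have h1 := hD.hasFDerivAt.comp_hasDerivAt s ls
    exact ((ContinuousLinearMap.apply ℝ (ℝ × ℝ) u).hasFDerivAt.comp_hasDerivAt s h1)
  have hQt : HasDerivAt (fun t' : ℝ => Q (s, t')) (fderiv ℝ Q (s, t) (0, 1)) t :=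
    hQd.hasFDerivAt.comp_hasDerivAt t lt
  have hQs : HasDerivAt (fun s' : ℝ => Q (s', t)) (fderiv ℝ Q (s, t) (1, 0)) s :=
    hQd.hasFDerivAt.comp_hasDerivAt s ls
  have hz : fderiv ℝ Q (s, t) (0, 1) = rot (a s) (X (Q (s, t))) := hflow.self_of_nhds
  -- second derivatives through the equation
  have e1 : D' (1, 0) (0, 1) = rot (a s) (fderiv ℝ X (Q (s, t)) (fderiv ℝ Q (s, t) (1, 0))) +
      a' • (-(rot (a s) (X (Q (s, t)))).2, (rot (a s) (X (Q (s, t)))).1) := by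
    have h1 := hasDerivAt_rot_comp ha hQs hX
    have h2 : (fun s' : ℝ => fderiv ℝ Q (s', t) (0, 1)) =ᶠ[𝓝 s]
        fun s' => rot (a s') (X (Q (s', t))) := by
      have : Tendsto (fun s' : ℝ => ((s', t) : ℝ × ℝ)) (𝓝 s) (𝓝 (s, t)) := ls.continuousAt
      exact this.eventually hflow
    exact ((hDs (0, 1)).congr_of_eventuallyEq h2.symm).unique h1
  have e2 : D' (0, 1) (0, 1) = rot (a s) (fderiv ℝ X (Q (s, t)) (fderiv ℝ Q (s, t) (0, 1))) := by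
    have h1 := hasDerivAt_rot_comp (hasDerivAt_const t (a s)) hQt hX
    have h2 : (fun t' : ℝ => fderiv ℝ Q (s, t') (0, 1)) =ᶠ[𝓝 t]
        fun t' => rot (a s) (X (Q (s, t'))) := by
      have : Tendsto (fun t' : ℝ => ((s, t') : ℝ × ℝ)) (𝓝 t) (𝓝 (s, t)) := lt.continuousAt
      exact this.eventually hflow
    have h3 := ((hDt (0, 1)).congr_of_eventuallyEq h2.symm).unique h1
    rw [h3]
    simp
  have e3 : D' (0, 1) (1, 0) = D' (1, 0) (0, 1) := hsymm.eq (0, 1) (1, 0)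
  -- derivative of the wedge
  have hu := hDt (1, 0)
  have hv := hDt (0, 1)
  have hu1 : HasDerivAt (fun t' : ℝ => (fderiv ℝ Q (s, t') (1, 0)).1) (D' (0, 1) (1, 0)).1 t :=
    (ContinuousLinearMap.fst ℝ ℝ ℝ).hasFDerivAt.comp_hasDerivAt t hu
  have hu2 : HasDerivAt (fun t' : ℝ => (fderiv ℝ Q (s, t') (1, 0)).2) (D' (0, 1) (1, 0)).2 t :=
    (ContinuousLinearMap.snd ℝ ℝ ℝ).hasFDerivAt.comp_hasDerivAt t hu
  have hv1 : HasDerivAt (fun t' : ℝ => (fderiv ℝ Q (s, t') (0, 1)).1) (D' (0, 1) (0, 1)).1 t :=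
    (ContinuousLinearMap.fst ℝ ℝ ℝ).hasFDerivAt.comp_hasDerivAt t hv
  have hv2 : HasDerivAt (fun t' : ℝ => (fderiv ℝ Q (s, t') (0, 1)).2) (D' (0, 1) (0, 1)).2 t :=
    (ContinuousLinearMap.snd ℝ ℝ ℝ).hasFDerivAt.comp_hasDerivAt t hv
  have hw := (hu1.mul hv2).sub (hu2.mul hv1)
  unfold Jac
  have hfin : HasDerivAt (fun t' : ℝ => wedge (fderiv ℝ Q (s, t') (1, 0)) (fderiv ℝ Q (s, t') (0, 1)))
      (wedge (D' (0, 1) (1, 0)) (fderiv ℝ Q (s, t) (0, 1)) +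
        wedge (fderiv ℝ Q (s, t) (1, 0)) (D' (0, 1) (0, 1))) t := by
    refine hw.congr_deriv ?_
    unfold wedge
    ring
  refine hfin.congr_deriv ?_
  rw [e3, e1, e2]
  have h5 := trace_identity X (a s) (Q (s, t)) (fderiv ℝ Q (s, t) (1, 0))
    (fderiv ℝ Q (s, t) (0, 1))
  rw [← h5]
  have h6 : wedge (a' • (-(rot (a s) (X (Q (s, t)))).2, (rot (a s) (X (Q (s, t)))).1))
      (fderiv ℝ Q (s, t) (0, 1)) = - (a' * sq (X (Q (s, t)))) := by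
    rw [hz, ← sq_rot (a s) (X (Q (s, t)))]
    unfold wedge sq
    simp only [Prod.smul_fst, Prod.smul_snd, smul_eq_mul]
    ring
  have h7 : ∀ x y z : ℝ × ℝ, wedge (x + y) z = wedge x z + wedge y z := by
    intro x y z; unfold wedge; simp only [Prod.fst_add, Prod.snd_add]; ring
  rw [h7, h6]
  ring

/-- the weighted variational identity -/
theorem hasDerivAt_wJac {X : ℝ × ℝ → ℝ × ℝ} {w : ℝ × ℝ → ℝ} {a : ℝ → ℝ} {Q : ℝ × ℝ → ℝ × ℝ}
    {s t a' : ℝ} (hQ : ContDiffAt ℝ 2 Q (s, t))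
    (hflow : ∀ᶠ y : ℝ × ℝ in 𝓝 (s, t), fderiv ℝ Q y (0, 1) = rot (a y.1) (X (Q y)))
    (ha : HasDerivAt a a' s) (hX : DifferentiableAt ℝ X (Q (s, t)))
    (hw : DifferentiableAt ℝ w (Q (s, t))) :
    HasDerivAt (fun t => w (Q (s, t)) * Jac Q (s, t))
      (divW w X (a s) (Q (s, t)) * Jac Q (s, t) - a' * (w (Q (s, t)) * sq (X (Q (s, t))))) t := by
  have h1 := hasDerivAt_Jac hQ hflow ha hX
  have hQd : DifferentiableAt ℝ Q (s, t) := hQ.differentiableAt (by norm_num)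
  have lt : HasDerivAt (fun t' : ℝ => ((s, t') : ℝ × ℝ)) (0, 1) t :=
    (hasDerivAt_const t s).prodMk (hasDerivAt_id t)
  have hQt : HasDerivAt (fun t' : ℝ => Q (s, t')) (fderiv ℝ Q (s, t) (0, 1)) t :=
    hQd.hasFDerivAt.comp_hasDerivAt t lt
  have hz : fderiv ℝ Q (s, t) (0, 1) = rot (a s) (X (Q (s, t))) := hflow.self_of_nhds
  rw [hz] at hQt
  have h2 : HasDerivAt (fun t' : ℝ => w (Q (s, t')))
      (fderiv ℝ w (Q (s, t)) (rot (a s) (X (Q (s, t))))) t :=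
    hw.hasFDerivAt.comp_hasDerivAt t hQt
  refine (h2.mul h1).congr_deriv ?_
  unfold divW
  ring

end

end Pool.Agent.H709R2
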