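import Pool.Agent.H709R2.WMeas

/-! The averaged theorem for closed orbits of large spherical diameter, whole plane. -/

open Real Set MeasureTheory Topology Filter
open scoped ENNReal

namespace Pool.Agent.H709R2

noncomputable section

variable {X : ℝ × ℝ → ℝ × ℝ} {φ : ℝ → ℝ × ℝ → ℝ → ℝ × ℝ}

/-- conformal factor of the spherical metric -/
def psi (p : ℝ × ℝ) : ℝ := (1 + sq p)⁻¹

lemma one_add_sq_pos (p : ℝ × ℝ) : 0 < 1 + sq p := by unfold sq; positivity

lemma psi_pos (p : ℝ × ℝ) : 0 < psi p := inv_pos.2 (one_add_sq_pos p)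

lemma contDiff_sq' {m : WithTop ℕ∞} : ContDiff ℝ m sq := by
  unfold sq
  exact (contDiff_fst.pow 2).add (contDiff_snd.pow 2)

lemma contDiff_psi {m : WithTop ℕ∞} : ContDiff ℝ m psi := by
  unfold psi
  exact (contDiff_const.add contDiff_sq').inv fun p => (one_add_sq_pos p).ne'

/-- derivative of `psi` along a curve -/
lemma hasDerivAt_psi {γ : ℝ → ℝ × ℝ} {V : ℝ × ℝ} {t : ℝ} (h : HasDerivAt γ V t) :
    HasDerivAt (fun t => psi (γ t))
      (-(2 * ((γ t).1 * V.1 + (γ t).2 * V.2) * psi (γ t) ^ 2)) t := by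
  have h1 := (ContinuousLinearMap.fst ℝ ℝ ℝ).hasFDerivAt.comp_hasDerivAt t h
  have h2 := (ContinuousLinearMap.snd ℝ ℝ ℝ).hasFDerivAt.comp_hasDerivAt t h
  have h3 := ((h1.pow 2).add (h2.pow 2)).const_add 1
  have h4 := h3.inv (one_add_sq_pos (γ t)).ne'
  refine h4.congr_deriv ?_
  have h5 := (one_add_sq_pos (γ t)).ne'
  unfold psi
  simp only [ContinuousLinearMap.coe_fst', ContinuousLinearMap.coe_snd', Nat.cast_ofNat,
    Function.comp_apply]
  have h6 : (1 : ℝ) + ((γ t).1 ^ 2 + (γ t).2 ^ 2) = 1 + sq (γ t) := rfl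
  simp only [Pi.add_apply, Pi.pow_apply, Function.comp_apply, ContinuousLinearMap.coe_fst',
    ContinuousLinearMap.coe_snd'] at *
  field_simp
  rw [← h6]
  ring

lemma cs3 (a b c d e f : ℝ) :
    (a * d + b * e + c * f) ^ 2 ≤ (a ^ 2 + b ^ 2 + c ^ 2) * (d ^ 2 + e ^ 2 + f ^ 2) := by
  nlinarith [sq_nonneg (a * e - b * d), sq_nonneg (a * f - c * d), sq_nonneg (b * f - c * e)]

/-- chordal distance is at most the spherical length -/
lemma chord_le_len {γ V : ℝ → ℝ × ℝ} (hγ : ∀ t, HasDerivAt γ (V t) t) (hV : Continuous V)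
    {a b : ℝ} (hab : a ≤ b) :
    √(psi (γ a) * psi (γ b) * sq (γ a - γ b)) ≤ ∫ t in a..b, psi (γ t) * √(sq (V t)) := by
  have hγc : Continuous γ := continuous_iff_continuousAt.2 fun t => (hγ t).continuousAt
  have hψc : Continuous fun t => psi (γ t) := (contDiff_psi (m := 0)).continuous.comp hγc
  set D1 := (γ b).1 * psi (γ b) - (γ a).1 * psi (γ a) with hD1
  set D2 := (γ b).2 * psi (γ b) - (γ a).2 * psi (γ a) with hD2
  set D3 := psi (γ b) - psi (γ a) with hD3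
  set N := D1 ^ 2 + D2 ^ 2 + D3 ^ 2 with hN
  have hchord : psi (γ a) * psi (γ b) * sq (γ a - γ b) = N := by
    have e1 := (one_add_sq_pos (γ a)).ne'
    have e2 := (one_add_sq_pos (γ b)).ne'
    rw [hN, hD1, hD2, hD3]
    unfold psi
    field_simp
    unfold sq
    simp only [Prod.fst_sub, Prod.snd_sub]
    ring
  rw [hchord]
  by_cases hN0 : N = 0
  · rw [hN0, Real.sqrt_zero]
    exact intervalIntegral.integral_nonneg hab fun t _ =>
      mul_nonneg (psi_pos _).le (Real.sqrt_nonneg _)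
  have hNpos : 0 < N := lt_of_le_of_ne (by positivity) (Ne.symm hN0)
  set dψ : ℝ → ℝ := fun t => -(2 * ((γ t).1 * (V t).1 + (γ t).2 * (V t).2) * psi (γ t) ^ 2)
    with hdψ
  set E1 : ℝ → ℝ := fun t => (V t).1 * psi (γ t) + (γ t).1 * dψ t with hE1
  set E2 : ℝ → ℝ := fun t => (V t).2 * psi (γ t) + (γ t).2 * dψ t with hE2
  have hdψc : Continuous dψ := by
    rw [hdψ]; fun_prop
  have hE1c : Continuous E1 := by rw [hE1]; fun_prop
  have hE2c : Continuous E2 := by rw [hE2]; fun_prop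
  have hd : ∀ t, HasDerivAt (fun t => D1 * ((γ t).1 * psi (γ t)) + D2 * ((γ t).2 * psi (γ t)) +
      D3 * psi (γ t)) (D1 * E1 t + D2 * E2 t + D3 * dψ t) t := by
    intro t
    have h1 := (ContinuousLinearMap.fst ℝ ℝ ℝ).hasFDerivAt.comp_hasDerivAt t (hγ t)
    have h2 := (ContinuousLinearMap.snd ℝ ℝ ℝ).hasFDerivAt.comp_hasDerivAt t (hγ t)
    have h3 := hasDerivAt_psi (hγ t)
    exact (((h1.mul h3).const_mul D1).add ((h2.mul h3).const_mul D2)).add (h3.const_mul D3)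
  have hdc : Continuous fun t => D1 * E1 t + D2 * E2 t + D3 * dψ t := by fun_prop
  have h2 : ∫ t in a..b, (D1 * E1 t + D2 * E2 t + D3 * dψ t) = N := by
    rw [intervalIntegral.integral_eq_sub_of_hasDerivAt (fun t _ => hd t) (hdc.intervalIntegrable _ _)]
    rw [hN, hD1, hD2, hD3]
    ring
  have hconf : ∀ t, E1 t ^ 2 + E2 t ^ 2 + dψ t ^ 2 = psi (γ t) ^ 2 * sq (V t) := by
    intro t
    have e1 := (one_add_sq_pos (γ t)).ne'
    simp only [hE1, hE2, hdψ]
    unfold psi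
    field_simp
    unfold sq
    ring
  have hcs : Continuous fun t => √N * (psi (γ t) * √(sq (V t))) :=
    continuous_const.mul (hψc.mul (continuous_sq.comp hV).sqrt)
  have h3 : N ≤ √N * ∫ t in a..b, psi (γ t) * √(sq (V t)) := by
    rw [← intervalIntegral.integral_const_mul]
    refine h2.symm.le.trans ?_
    refine intervalIntegral.integral_mono_on hab (hdc.intervalIntegrable _ _)
      (hcs.intervalIntegrable _ _) fun t _ => ?_
    have e1 : psi (γ t) * √(sq (V t)) = √(psi (γ t) ^ 2 * sq (V t)) := by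
      rw [Real.sqrt_mul (sq_nonneg _), Real.sqrt_sq (psi_pos _).le]
    rw [e1, ← Real.sqrt_mul hNpos.le]
    apply Real.le_sqrt_of_sq_le
    rw [← hconf t, hN]
    exact cs3 _ _ _ _ _ _
  have h4 : √N * √N ≤ √N * ∫ t in a..b, psi (γ t) * √(sq (V t)) := by
    rw [Real.mul_self_sqrt hNpos.le]; exact h3
  exact le_of_mul_le_mul_left h4 (Real.sqrt_pos.2 hNpos)

/-- the weight -/
def wpsi (X : ℝ × ℝ → ℝ × ℝ) (p : ℝ × ℝ) : ℝ := psi p * winv X p

lemma wlen_wpsi_eq (hφ : RotFlow X φ) {α : ℝ} {p : ℝ × ℝ} {T : ℝ} (h : MinPer X φ α p T) :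
    wlen X φ (wpsi X) α p T =
      ∫ t in (0:ℝ)..T, psi (φ t p α) * √(sq (rot α (X (φ t p α)))) := by
  unfold wlen wpsi winv
  congr 1
  ext1 t
  rw [sq_rot, mul_assoc]
  have h1 := sq_pos (hφ.ne_zero (α := α) h.ne t)
  have h2 := Real.sqrt_pos.2 h1
  congr 1
  rw [inv_mul_eq_div, div_eq_iff h2.ne', Real.mul_self_sqrt h1.le]

lemma plen_ge (hφ : RotFlow X φ) (hX : Continuous X) {α : ℝ} {p : ℝ × ℝ} {T : ℝ}
    (h : MinPer X φ α p T)
    {q q' : ℝ × ℝ} (hq : q ∈ range (fun t => φ t p α)) (hq' : q' ∈ range (fun t => φ t p α)) :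
    2 * √(psi q * psi q' * sq (q - q')) ≤ wlen X φ (wpsi X) α p T := by
  obtain ⟨s, rfl⟩ := hq
  obtain ⟨s', rfl⟩ := hq'
  simp only
  have hs := h.shift hφ s
  rw [← wlen_shift hφ h s, wlen_wpsi_eq hφ hs]
  set q := φ s p α with hqdef
  have hper : Function.Periodic (fun t => φ t q α) T := fun t => hφ.periodic hs.per t
  obtain ⟨u, hu, hu2⟩ := hper.exists_mem_Ico₀ hs.pos (s' - s)
  have hq' : φ s' p α = φ u q α := by
    rw [← hu2, hqdef, ← hφ.add, sub_add_cancel]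
  rw [hq']
  have hd := hφ.deriv q α
  have hV : Continuous fun t => rot α (X (φ t q α)) :=
    (continuous_rot α).comp (hX.comp (hφ.continuous_orbit q α))
  have hi : ∀ a b : ℝ, IntervalIntegrable
      (fun t => psi (φ t q α) * √(sq (rot α (X (φ t q α))))) volume a b :=
    fun a b => (((contDiff_psi (m := 0)).continuous.comp (hφ.continuous_orbit q α)).mul
      ((continuous_sq.comp hV).sqrt)).intervalIntegrable _ _
  have h1 := chord_le_len hd hV hu.1
  have h2 := chord_le_len hd hV hu.2.le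
  simp only [hφ.zero, hs.per] at h1 h2
  rw [← intervalIntegral.integral_add_adjacent_intervals (hi 0 u) (hi u T)]
  have h3 : psi (φ u q α) * psi q * sq (φ u q α - q) = psi q * psi (φ u q α) * sq (q - φ u q α) := by
    unfold sq
    simp only [Prod.fst_sub, Prod.snd_sub]
    ring
  rw [h3] at h2
  linarith

lemma contDiffAt_wpsi (hX : ContDiff ℝ 2 X) {p : ℝ × ℝ} (hp : X p ≠ 0) :
    ContDiffAt ℝ 1 (wpsi X) p := contDiff_psi.contDiffAt.mul (contDiffAt_winv hX hp)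

lemma two_mul_le_psi (x y : ℝ) : 2 * |x| * psi (x, y) ^ 2 ≤ psi (x, y) * (√(1 + y ^ 2))⁻¹ := by
  have h1 : 0 < 1 + y ^ 2 := by positivity
  have h2 : 0 < √(1 + y ^ 2) := Real.sqrt_pos.2 h1
  have h3 := psi_pos (x, y)
  have h4 : 2 * |x| * psi (x, y) ≤ (√(1 + y ^ 2))⁻¹ := by
    unfold psi sq
    simp only
    rw [← div_eq_mul_inv, div_le_iff₀ (by positivity), inv_mul_eq_div, le_div_iff₀ h2]
    have h5 := Real.sq_sqrt h1.le
    nlinarith [sq_nonneg (|x| - √(1 + y ^ 2)), sq_abs x]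
  nlinarith

lemma two_mul_le_psi' (x y : ℝ) : 2 * |y| * psi (x, y) ^ 2 ≤ psi (x, y) * (√(1 + x ^ 2))⁻¹ := by
  have := two_mul_le_psi y x
  have h : psi (y, x) = psi (x, y) := by unfold psi sq; simp only; rw [add_comm (y ^ 2)]
  rwa [h] at this

lemma abs_divW_wpsi_le (hX : ContDiff ℝ 2 X) {p : ℝ × ℝ} (hp : X p ≠ 0) (α : ℝ) :
    |divW (wpsi X) X α p| ≤ psi p * (|wedge (X p) (fderiv ℝ X p (1, 0))| / sq (X p) +
      |wedge (X p) (fderiv ℝ X p (0, 1))| / sq (X p)) +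
      (psi p * (√(1 + p.2 ^ 2))⁻¹ + psi p * (√(1 + p.1 ^ 2))⁻¹) := by
  have hs := sq_pos hp
  have hs2 := Real.sqrt_pos.2 hs
  set V := rot α (X p) with hV
  have hVsq : sq V = sq (X p) := sq_rot _ _
  have hder : fderiv ℝ (wpsi X) p V = -(2 * (p.1 * V.1 + p.2 * V.2) * psi p ^ 2) * winv X p +
      psi p * fderiv ℝ (winv X) p V := by
    have hl : HasDerivAt (fun t : ℝ => p + t • V) V 0 := by
      simpa using ((hasDerivAt_id (0:ℝ)).smul_const V).const_add p
    have hp0 : p + (0:ℝ) • V = p := by simp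
    have e1 : HasDerivAt (fun t : ℝ => wpsi X (p + t • V)) (fderiv ℝ (wpsi X) p V) 0 := by
      have h1 : HasFDerivAt (wpsi X) (fderiv ℝ (wpsi X) p) (p + (0:ℝ) • V) := by
        rw [hp0]
        exact ((contDiffAt_wpsi hX hp).differentiableAt (by norm_num)).hasFDerivAt
      exact h1.comp_hasDerivAt 0 hl
    have e2 : HasDerivAt (fun t : ℝ => winv X (p + t • V)) (fderiv ℝ (winv X) p V) 0 := by
      have h1 : HasFDerivAt (winv X) (fderiv ℝ (winv X) p) (p + (0:ℝ) • V) := by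
        rw [hp0]
        exact ((contDiffAt_winv hX hp).differentiableAt (by norm_num)).hasFDerivAt
      exact h1.comp_hasDerivAt 0 hl
    have e3 := hasDerivAt_psi hl
    have e4 := e3.mul e2
    rw [hp0] at e4
    exact e1.unique e4
  have hsplit : divW (wpsi X) X α p =
      -(2 * (p.1 * V.1 + p.2 * V.2) * psi p ^ 2) * winv X p + psi p * divW (winv X) X α p := by
    unfold divW
    rw [← hV, hder]
    unfold wpsi
    ring
  have hV1 : |V.1| ≤ √(sq (X p)) := by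
    apply Real.abs_le_sqrt
    rw [← hVsq]
    unfold sq
    nlinarith [sq_nonneg V.2]
  have hV2 : |V.2| ≤ √(sq (X p)) := by
    apply Real.abs_le_sqrt
    rw [← hVsq]
    unfold sq
    nlinarith [sq_nonneg V.1]
  have hψ := psi_pos p
  have h1 := abs_divW_winv_le hX hp α
  have hw : winv X p = (√(sq (X p)))⁻¹ := rfl
  have h2 : |-(2 * (p.1 * V.1 + p.2 * V.2) * psi p ^ 2) * winv X p| ≤
      psi p * (√(1 + p.2 ^ 2))⁻¹ + psi p * (√(1 + p.1 ^ 2))⁻¹ := by
    rw [abs_mul, abs_neg, hw, abs_of_pos (inv_pos.2 hs2), ← div_eq_mul_inv, div_le_iff₀ hs2]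
    have e1 : |2 * (p.1 * V.1 + p.2 * V.2) * psi p ^ 2| ≤
        (2 * |p.1| * psi p ^ 2 + 2 * |p.2| * psi p ^ 2) * √(sq (X p)) := by
      rw [abs_mul, abs_mul, abs_of_pos (show (0:ℝ) < 2 by norm_num),
        abs_of_pos (show 0 < psi p ^ 2 by positivity)]
      have e2 : |p.1 * V.1 + p.2 * V.2| ≤ (|p.1| + |p.2|) * √(sq (X p)) := by
        calc |p.1 * V.1 + p.2 * V.2| ≤ |p.1| * |V.1| + |p.2| * |V.2| := by
              rw [← abs_mul, ← abs_mul]; exact abs_add_le _ _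
          _ ≤ |p.1| * √(sq (X p)) + |p.2| * √(sq (X p)) := by gcongr
          _ = _ := by ring
      calc 2 * |p.1 * V.1 + p.2 * V.2| * psi p ^ 2
          ≤ 2 * ((|p.1| + |p.2|) * √(sq (X p))) * psi p ^ 2 := by gcongr
        _ = _ := by ring
    refine e1.trans ?_
    have e3 := two_mul_le_psi p.1 p.2
    have e4 := two_mul_le_psi' p.1 p.2
    exact mul_le_mul_of_nonneg_right (add_le_add e3 e4) hs2.le
  rw [hsplit]
  refine (abs_add_le _ _).trans ?_
  rw [abs_mul (psi p), abs_of_pos hψ, add_comm]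
  gcongr

lemma psi_le_fst (p : ℝ × ℝ) : psi p ≤ (1 + p.2 ^ 2)⁻¹ := by
  unfold psi sq
  apply inv_anti₀ (by positivity)
  nlinarith [sq_nonneg p.1]

lemma psi_le_snd (p : ℝ × ℝ) : psi p ≤ (1 + p.1 ^ 2)⁻¹ := by
  unfold psi sq
  apply inv_anti₀ (by positivity)
  nlinarith [sq_nonneg p.2]

lemma lintegral_cauchy : ∫⁻ x : ℝ, ENNReal.ofReal ((1 + x ^ 2)⁻¹) = ENNReal.ofReal π := by
  rw [← ofReal_integral_eq_lintegral_ofReal integrable_inv_one_add_sq
    (ae_of_all _ fun x => by positivity), integral_univ_inv_one_add_sq]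

/-- the kernel of the gradient term -/
lemma lintegral_psi_x (y : ℝ) : ∫⁻ x : ℝ, ENNReal.ofReal (psi (x, y) * (√(1 + y ^ 2))⁻¹) ≤
    ENNReal.ofReal (π * (1 + y ^ 2)⁻¹) := by
  have h0 : 0 < 1 + y ^ 2 := by positivity
  set a := √(1 + y ^ 2) with ha
  have ha0 : 0 < a := Real.sqrt_pos.2 h0
  have ha2 : a ^ 2 = 1 + y ^ 2 := Real.sq_sqrt h0.le
  have h1 := lintegral_root (Complex.I * a)
  have h2 : ∀ x : ℝ, psi (x, y) * a⁻¹ = a⁻¹ ^ 2 * |(1 / ((x : ℂ) - Complex.I * a)).im| := by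
    intro x
    have him : (1 / ((x : ℂ) - Complex.I * a)).im = a / (x ^ 2 + a ^ 2) := by
      rw [one_div, Complex.inv_im, Complex.normSq_apply]
      simp
      ring_nf
    rw [him, abs_of_pos (by positivity)]
    unfold psi sq
    simp only
    rw [show 1 + (x ^ 2 + y ^ 2) = x ^ 2 + a ^ 2 by rw [ha2]; ring]
    field_simp
  simp only [h2]
  calc ∫⁻ x : ℝ, ENNReal.ofReal (a⁻¹ ^ 2 * |(1 / ((x : ℂ) - Complex.I * a)).im|)
      = ENNReal.ofReal (a⁻¹ ^ 2) *
          ∫⁻ x : ℝ, ENNReal.ofReal |(1 / ((x : ℂ) - Complex.I * a)).im| := by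
        rw [← lintegral_const_mul']
        · congr 1
          ext1 x
          rw [← ENNReal.ofReal_mul (by positivity)]
        · exact ENNReal.ofReal_ne_top
    _ ≤ ENNReal.ofReal (a⁻¹ ^ 2) * ENNReal.ofReal π := by gcongr
    _ = _ := by
        rw [← ENNReal.ofReal_mul (by positivity), inv_pow, ha2, mul_comm]

/-- kernels with the weight -/
theorem lintegral_plane {P Q : MvPolynomial (Fin 2) ℝ} {n : ℕ} (hP : P.totalDegree ≤ n)
    (hQ : Q.totalDegree ≤ n) :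
    ∫⁻ p : ℝ × ℝ, (ENNReal.ofReal (psi p) * (ENNReal.ofReal
      (|wedge (field P Q p) (fderiv ℝ (field P Q) p (1, 0))| / sq (field P Q p)) +
      ENNReal.ofReal
      (|wedge (field P Q p) (fderiv ℝ (field P Q) p (0, 1))| / sq (field P Q p))) +
      (ENNReal.ofReal (psi p * (√(1 + p.2 ^ 2))⁻¹) +
        ENNReal.ofReal (psi p * (√(1 + p.1 ^ 2))⁻¹))) ≤
      ENNReal.ofReal (2 * π ^ 2 * (n + 1)) := by
  have hF : ContDiff ℝ 2 (field P Q) := contDiff_field P Q
  have hψm : Measurable fun p : ℝ × ℝ => ENNReal.ofReal (psi p) :=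
    (contDiff_psi (m := 0)).continuous.measurable.ennreal_ofReal
  have hsqy : Continuous fun p : ℝ × ℝ => psi p * (√(1 + p.2 ^ 2))⁻¹ := by
    refine (contDiff_psi (m := 0)).continuous.mul (Continuous.inv₀ (by fun_prop) fun p => ?_)
    have : 0 < 1 + p.2 ^ 2 := by positivity
    exact (Real.sqrt_pos.2 this).ne'
  have hsqx : Continuous fun p : ℝ × ℝ => psi p * (√(1 + p.1 ^ 2))⁻¹ := by
    refine (contDiff_psi (m := 0)).continuous.mul (Continuous.inv₀ (by fun_prop) fun p => ?_)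
    have : 0 < 1 + p.1 ^ 2 := by positivity
    exact (Real.sqrt_pos.2 this).ne'
  have m1 := measurable_kernel hF (1, 0)
  have m2 := measurable_kernel hF (0, 1)
  have m3 : Measurable fun p : ℝ × ℝ => ENNReal.ofReal (psi p * (√(1 + p.2 ^ 2))⁻¹) :=
    hsqy.measurable.ennreal_ofReal
  have m4 : Measurable fun p : ℝ × ℝ => ENNReal.ofReal (psi p * (√(1 + p.1 ^ 2))⁻¹) :=
    hsqx.measurable.ennreal_ofReal
  set kx : ℝ × ℝ → ℝ≥0∞ := fun p => ENNReal.ofReal
      (|wedge (field P Q p) (fderiv ℝ (field P Q) p (1, 0))| / sq (field P Q p)) with hkx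
  set ky : ℝ × ℝ → ℝ≥0∞ := fun p => ENNReal.ofReal
      (|wedge (field P Q p) (fderiv ℝ (field P Q) p (0, 1))| / sq (field P Q p)) with hky
  have lx : ∀ y : ℝ, ∫⁻ x : ℝ, kx (x, y) ≤ ENNReal.ofReal (n * π) := by
    intro y
    have h2 := lintegral_line hP hQ (0, y) (1, 0)
    have h3 : ∀ t : ℝ, ((0:ℝ), y) + t • ((1:ℝ), (0:ℝ)) = (t, y) := by
      intro t; ext <;> simp
    simp only [h3] at h2
    exact h2
  have ly : ∀ x : ℝ, ∫⁻ y : ℝ, ky (x, y) ≤ ENNReal.ofReal (n * π) := by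
    intro x
    have h2 := lintegral_line hP hQ (x, 0) (0, 1)
    have h3 : ∀ t : ℝ, (x, (0:ℝ)) + t • ((0:ℝ), (1:ℝ)) = (x, t) := by
      intro t; ext <;> simp
    simp only [h3] at h2
    exact h2
  have i1 : ∫⁻ p : ℝ × ℝ, ENNReal.ofReal (psi p) * kx p ≤
      ENNReal.ofReal π * ENNReal.ofReal (n * π) := by
    have e0 : ∫⁻ p : ℝ × ℝ, ENNReal.ofReal (psi p) * kx p =
        ∫⁻ y : ℝ, ∫⁻ x : ℝ, ENNReal.ofReal (psi (x, y)) * kx (x, y) := by
      rw [Measure.volume_eq_prod]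
      exact lintegral_prod_symm (fun p => ENNReal.ofReal (psi p) * kx p) (hψm.mul m1).aemeasurable
    rw [e0]
    calc ∫⁻ y : ℝ, ∫⁻ x : ℝ, ENNReal.ofReal (psi (x, y)) * kx (x, y)
        ≤ ∫⁻ y : ℝ, ENNReal.ofReal ((1 + y ^ 2)⁻¹) * ENNReal.ofReal (n * π) := by
          refine lintegral_mono fun y => ?_
          calc ∫⁻ x : ℝ, ENNReal.ofReal (psi (x, y)) * kx (x, y)
              ≤ ∫⁻ x : ℝ, ENNReal.ofReal ((1 + y ^ 2)⁻¹) * kx (x, y) := by
                refine lintegral_mono fun x => ?_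
                gcongr
                exact psi_le_fst (x, y)
            _ = ENNReal.ofReal ((1 + y ^ 2)⁻¹) * ∫⁻ x : ℝ, kx (x, y) :=
                lintegral_const_mul' _ _ ENNReal.ofReal_ne_top
            _ ≤ _ := by gcongr; exact lx y
      _ = (∫⁻ y : ℝ, ENNReal.ofReal ((1 + y ^ 2)⁻¹)) * ENNReal.ofReal (n * π) :=
          lintegral_mul_const' _ _ ENNReal.ofReal_ne_top
      _ = _ := by rw [lintegral_cauchy]
  have i2 : ∫⁻ p : ℝ × ℝ, ENNReal.ofReal (psi p) * ky p ≤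
      ENNReal.ofReal π * ENNReal.ofReal (n * π) := by
    have e0 : ∫⁻ p : ℝ × ℝ, ENNReal.ofReal (psi p) * ky p =
        ∫⁻ x : ℝ, ∫⁻ y : ℝ, ENNReal.ofReal (psi (x, y)) * ky (x, y) := by
      rw [Measure.volume_eq_prod]
      exact lintegral_prod (fun p => ENNReal.ofReal (psi p) * ky p) (hψm.mul m2).aemeasurable
    rw [e0]
    calc ∫⁻ x : ℝ, ∫⁻ y : ℝ, ENNReal.ofReal (psi (x, y)) * ky (x, y)
        ≤ ∫⁻ x : ℝ, ENNReal.ofReal ((1 + x ^ 2)⁻¹) * ENNReal.ofReal (n * π) := by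
          refine lintegral_mono fun x => ?_
          calc ∫⁻ y : ℝ, ENNReal.ofReal (psi (x, y)) * ky (x, y)
              ≤ ∫⁻ y : ℝ, ENNReal.ofReal ((1 + x ^ 2)⁻¹) * ky (x, y) := by
                refine lintegral_mono fun y => ?_
                gcongr
                exact psi_le_snd (x, y)
            _ = ENNReal.ofReal ((1 + x ^ 2)⁻¹) * ∫⁻ y : ℝ, ky (x, y) :=
                lintegral_const_mul' _ _ ENNReal.ofReal_ne_top
            _ ≤ _ := by gcongr; exact ly x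
      _ = (∫⁻ y : ℝ, ENNReal.ofReal ((1 + y ^ 2)⁻¹)) * ENNReal.ofReal (n * π) :=
          lintegral_mul_const' _ _ ENNReal.ofReal_ne_top
      _ = _ := by rw [lintegral_cauchy]
  have i3 : ∫⁻ p : ℝ × ℝ, ENNReal.ofReal (psi p * (√(1 + p.2 ^ 2))⁻¹) ≤
      ENNReal.ofReal π * ENNReal.ofReal π := by
    rw [Measure.volume_eq_prod, lintegral_prod_symm _ m3.aemeasurable]
    calc ∫⁻ y : ℝ, ∫⁻ x : ℝ, ENNReal.ofReal (psi (x, y) * (√(1 + y ^ 2))⁻¹)
        ≤ ∫⁻ y : ℝ, ENNReal.ofReal (π * (1 + y ^ 2)⁻¹) := lintegral_mono lintegral_psi_x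
      _ = ENNReal.ofReal π * ∫⁻ y : ℝ, ENNReal.ofReal ((1 + y ^ 2)⁻¹) := by
          rw [← lintegral_const_mul' _ _ ENNReal.ofReal_ne_top]
          congr 1
          ext1 y
          rw [← ENNReal.ofReal_mul pi_pos.le]
      _ = _ := by rw [lintegral_cauchy]
  have i4 : ∫⁻ p : ℝ × ℝ, ENNReal.ofReal (psi p * (√(1 + p.1 ^ 2))⁻¹) ≤
      ENNReal.ofReal π * ENNReal.ofReal π := by
    rw [Measure.volume_eq_prod, lintegral_prod _ m4.aemeasurable]
    calc ∫⁻ x : ℝ, ∫⁻ y : ℝ, ENNReal.ofReal (psi (x, y) * (√(1 + x ^ 2))⁻¹)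
        ≤ ∫⁻ x : ℝ, ENNReal.ofReal (π * (1 + x ^ 2)⁻¹) := by
          refine lintegral_mono fun x => ?_
          have h := lintegral_psi_x x
          have h2 : ∀ y : ℝ, psi (y, x) = psi (x, y) := by
            intro y; unfold psi sq; simp only; rw [add_comm (y ^ 2)]
          simp only [h2] at h
          exact h
      _ = ENNReal.ofReal π * ∫⁻ y : ℝ, ENNReal.ofReal ((1 + y ^ 2)⁻¹) := by
          rw [← lintegral_const_mul' _ _ ENNReal.ofReal_ne_top]
          congr 1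
          ext1 y
          rw [← ENNReal.ofReal_mul pi_pos.le]
      _ = _ := by rw [lintegral_cauchy]
  simp only [mul_add]
  have s1 : ∫⁻ p : ℝ × ℝ, (ENNReal.ofReal (psi p) * kx p + ENNReal.ofReal (psi p) * ky p +
      (ENNReal.ofReal (psi p * (√(1 + p.2 ^ 2))⁻¹) +
        ENNReal.ofReal (psi p * (√(1 + p.1 ^ 2))⁻¹))) =
      (∫⁻ p : ℝ × ℝ, ENNReal.ofReal (psi p) * kx p) + (∫⁻ p : ℝ × ℝ, ENNReal.ofReal (psi p) * ky p) +
      ((∫⁻ p : ℝ × ℝ, ENNReal.ofReal (psi p * (√(1 + p.2 ^ 2))⁻¹)) +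
        ∫⁻ p : ℝ × ℝ, ENNReal.ofReal (psi p * (√(1 + p.1 ^ 2))⁻¹)) := by
    rw [lintegral_add_left (f := fun p : ℝ × ℝ => ENNReal.ofReal (psi p) * kx p +
      ENNReal.ofReal (psi p) * ky p) ((hψm.mul m1).add (hψm.mul m2)),
      lintegral_add_left (f := fun p : ℝ × ℝ => ENNReal.ofReal (psi p) * kx p) (hψm.mul m1),
      lintegral_add_left m3]
  rw [s1]
  calc _ ≤ (ENNReal.ofReal π * ENNReal.ofReal (n * π) + ENNReal.ofReal π * ENNReal.ofReal (n * π)) +
        (ENNReal.ofReal π * ENNReal.ofReal π + ENNReal.ofReal π * ENNReal.ofReal π) :=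
        add_le_add (add_le_add i1 i2) (add_le_add i3 i4)
    _ = _ := by
        rw [← ENNReal.ofReal_mul pi_pos.le, ← ENNReal.ofReal_mul pi_pos.le,
          ← ENNReal.ofReal_add (by positivity) (by positivity),
          ← ENNReal.ofReal_add (by positivity) (by positivity),
          ← ENNReal.ofReal_add (by positivity) (by positivity)]
        congr 1
        ring

/-- **Theorem A, spherical version.** -/
theorem thmAplus {P Q : MvPolynomial (Fin 2) ℝ} {n : ℕ} (hP : P.totalDegree ≤ n)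
    (hQ : Q.totalDegree ≤ n) {Ω : Set (ℝ × ℝ)} (hΩc : IsCompact Ω) {d : ℝ} (hd : 0 < d) :
    ∃ g : ℝ → ℝ≥0∞, Measurable g ∧
      (∀ α ∈ Ioo 0 π, ({C : Set (ℝ × ℝ) | ClosedOrbit (fun p => rot α (field P Q p)) C ∧ C ⊆ Ω ∧
          ∃ p ∈ C, ∃ q ∈ C, d ≤ √(psi p * psi q * sq (p - q))}.encard : ℝ≥0∞) ≤ g α) ∧
      ∫⁻ α, g α ≤ ENNReal.ofReal (π ^ 2 * (n + 1) / d) := by
  set F := field P Q with hFdef
  have hF : ContDiff ℝ 2 F := contDiff_field P Q
  obtain ⟨R, hR⟩ := hΩc.isBounded.exists_norm_le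
  obtain ⟨X, hX, ⟨K, hK⟩, ⟨M, hM⟩, hXF⟩ := exists_cutoff hF R
  obtain ⟨φ, hφ⟩ := exists_rotFlow hX hK hM
  set h : ℝ × ℝ → ℝ≥0∞ := fun p => ENNReal.ofReal (psi p) * (ENNReal.ofReal
      (|wedge (F p) (fderiv ℝ F p (1, 0))| / sq (F p)) +
      ENNReal.ofReal (|wedge (F p) (fderiv ℝ F p (0, 1))| / sq (F p))) +
      (ENNReal.ofReal (psi p * (√(1 + p.2 ^ 2))⁻¹) +
        ENNReal.ofReal (psi p * (√(1 + p.1 ^ 2))⁻¹)) with hh
  have hψm : Measurable fun p : ℝ × ℝ => ENNReal.ofReal (psi p) :=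
    (contDiff_psi (m := 0)).continuous.measurable.ennreal_ofReal
  have hsqy : Continuous fun p : ℝ × ℝ => psi p * (√(1 + p.2 ^ 2))⁻¹ := by
    refine (contDiff_psi (m := 0)).continuous.mul (Continuous.inv₀ (by fun_prop) fun p => ?_)
    have : 0 < 1 + p.2 ^ 2 := by positivity
    exact (Real.sqrt_pos.2 this).ne'
  have hsqx : Continuous fun p : ℝ × ℝ => psi p * (√(1 + p.1 ^ 2))⁻¹ := by
    refine (contDiff_psi (m := 0)).continuous.mul (Continuous.inv₀ (by fun_prop) fun p => ?_)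
    have : 0 < 1 + p.1 ^ 2 := by positivity
    exact (Real.sqrt_pos.2 this).ne'
  have hhm : Measurable h := (hψm.mul ((measurable_kernel hF _).add (measurable_kernel hF _))).add
    (hsqy.measurable.ennreal_ofReal.add hsqx.measurable.ennreal_ofReal)
  have hw : ∀ p, X p ≠ 0 → ContDiffAt ℝ 1 (wpsi X) p := fun p hp => contDiffAt_wpsi hX hp
  obtain ⟨g, hg1, hg2, hg3⟩ := master (w₁ := wpsi X) (w := wpsi X) (M := Ici (2 * d)) (ℓ := 2 * d)
    (Ω := Ω) hφ hX hw hw hΩc.isClosed measurableSet_Ici hhm (by positivity) (by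
      intro α hα p T hmp hpΩ hlen
      refine ⟨hlen, ?_⟩
      have hp : p ∈ Ω := by
        have := hpΩ 0
        rwa [hφ.zero] at this
      have heq := hXF p (hR p hp)
      have h1 := abs_divW_wpsi_le hX hmp.ne α
      rw [heq.fderiv_eq, heq.eq_of_nhds] at h1
      have hψ := psi_pos p
      simp only [hh]
      rw [← ENNReal.ofReal_add (by unfold sq; positivity) (by unfold sq; positivity),
        ← ENNReal.ofReal_mul hψ.le,
        ← ENNReal.ofReal_add (by positivity) (by positivity),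
        ← ENNReal.ofReal_add (by unfold sq; positivity) (by positivity)]
      exact ENNReal.ofReal_le_ofReal h1)
  refine ⟨g, hg1, ?_, hg3.trans ?_⟩
  · intro α hα
    refine le_trans ?_ (hg2 α hα)
    have hsub : {C : Set (ℝ × ℝ) | ClosedOrbit (fun p => rot α (F p)) C ∧ C ⊆ Ω ∧
          ∃ p ∈ C, ∃ q ∈ C, d ≤ √(psi p * psi q * sq (p - q))} ⊆
        {C | Good X φ (wpsi X) Ω (Ici (2 * d)) α C} := by
      rintro C ⟨⟨γ, T, hT, hγ, hper, hnc, rfl⟩, hCΩ, q, hq, q', hq', hdist⟩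
      have hγ' : ∀ t, HasDerivAt γ (rot α (X (γ t))) t := by
        intro t
        rw [(hXF (γ t) (hR _ (hCΩ ⟨t, rfl⟩))).eq_of_nhds]
        exact hγ t
      obtain ⟨T₀, hmp, hrange⟩ := minPer_of_closed hφ hT hγ' hper hnc
      refine ⟨γ 0, T₀, hmp, hrange, hCΩ, ?_⟩
      rw [hrange] at hq hq'
      have h1 := plen_ge hφ hX.continuous hmp hq hq'
      rw [mem_Ici]
      linarith
    exact ENat.toENNReal_le.2 (Set.encard_le_encard hsub)
  · calc ENNReal.ofReal (1 / (2 * d)) * ∫⁻ p in Ω, h p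
        ≤ ENNReal.ofReal (1 / (2 * d)) * ENNReal.ofReal (2 * π ^ 2 * (n + 1)) := by
          gcongr
          exact (setLIntegral_le_lintegral _ _).trans (lintegral_plane hP hQ)
      _ = _ := by
          rw [← ENNReal.ofReal_mul (by positivity)]
          congr 1
          field_simp

end

end Pool.Agent.H709R2
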