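import Pool.Agent.H709R2.PatchIneq2

/-! Global assembly of the patches. -/

open Real Set MeasureTheory Topology Filter
open scoped ENNReal

namespace Pool.Agent.H709R2

noncomputable section

variable {X : ℝ × ℝ → ℝ × ℝ} {φ : ℝ → ℝ × ℝ → ℝ → ℝ × ℝ}

/-- `T` is the minimal period of the nonconstant orbit of `p` -/
structure MinPer (X : ℝ × ℝ → ℝ × ℝ) (φ : ℝ → ℝ × ℝ → ℝ → ℝ × ℝ) (α : ℝ) (p : ℝ × ℝ) (T : ℝ) :
    Prop where
  pos : 0 < T
  per : φ T p α = p
  min : ∀ t ∈ Ioo 0 T, φ t p α ≠ p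
  ne : X p ≠ 0

lemma MinPer.shift (hφ : RotFlow X φ) {α : ℝ} {p : ℝ × ℝ} {T : ℝ} (h : MinPer X φ α p T) (u : ℝ) :
    MinPer X φ α (φ u p α) T := by
  refine ⟨h.pos, ?_, ?_, hφ.ne_zero h.ne u⟩
  · rw [← hφ.add, add_comm, hφ.periodic h.per]
  · intro t ht hc
    apply h.min t ht
    have h1 := congrArg (fun q => φ (-u) q α) hc
    rw [← hφ.add, ← hφ.add, ← hφ.add, neg_add_cancel, hφ.zero] at h1
    rw [← h1]
    congr 1
    ring

lemma MinPer.unique {α : ℝ} {p : ℝ × ℝ} {T T' : ℝ} (h : MinPer X φ α p T)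
    (h' : MinPer X φ α p T') : T = T' := by
  rcases lt_trichotomy T T' with h1 | h1 | h1
  · exact absurd h.per (h'.min T ⟨h.pos, h1⟩)
  · exact h1
  · exact absurd h'.per (h.min T' ⟨h'.pos, h1⟩)

/-- weighted length of the closed orbit through `p` -/
def wlen (X : ℝ × ℝ → ℝ × ℝ) (φ : ℝ → ℝ × ℝ → ℝ → ℝ × ℝ) (w : ℝ × ℝ → ℝ) (α : ℝ) (p : ℝ × ℝ)
    (T : ℝ) : ℝ := ∫ t in (0:ℝ)..T, w (φ t p α) * sq (X (φ t p α))

lemma wlen_shift (hφ : RotFlow X φ) {w : ℝ × ℝ → ℝ} {α : ℝ} {p : ℝ × ℝ} {T : ℝ}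
    (h : MinPer X φ α p T) (u : ℝ) : wlen X φ w α (φ u p α) T = wlen X φ w α p T := by
  unfold wlen
  have h1 : Function.Periodic (fun t => w (φ t p α) * sq (X (φ t p α))) T := by
    intro t
    simp only
    rw [hφ.periodic h.per]
  have h2 : (fun t => w (φ t (φ u p α) α) * sq (X (φ t (φ u p α) α))) =
      fun t => (fun t => w (φ t p α) * sq (X (φ t p α))) (t + u) := by
    ext t
    simp only
    rw [hφ.add]
  rw [h2, intervalIntegral.integral_comp_add_right (fun t => w (φ t p α) * sq (X (φ t p α)))]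
  have h3 := h1.intervalIntegral_add_eq 0 u
  rw [zero_add] at h3
  rw [zero_add, add_comm T u, h3]

/-- a closed orbit of `rot α X`, contained in `Ω`, with weighted length in `M` -/
def Good (X : ℝ × ℝ → ℝ × ℝ) (φ : ℝ → ℝ × ℝ → ℝ → ℝ × ℝ) (w : ℝ × ℝ → ℝ) (Ω : Set (ℝ × ℝ))
    (M : Set ℝ) (α : ℝ) (C : Set (ℝ × ℝ)) : Prop :=
  ∃ p T, MinPer X φ α p T ∧ C = range (fun t => φ t p α) ∧ C ⊆ Ω ∧ wlen X φ w α p T ∈ M

/-- two closed orbits through a common point coincide -/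
lemma orbit_eq (hφ : RotFlow X φ) (hX : Continuous X) {p q : ℝ × ℝ} {α β T S t u : ℝ}
    (hα : α ∈ Ioo 0 π) (hβ : β ∈ Ioo 0 π) (hp : MinPer X φ α p T) (hq : MinPer X φ β q S)
    (hm : φ t p α = φ u q β) : α = β ∧ q = φ (t - u) p α := by
  have h1 : α = β := same_angle hφ hX hα hβ hp.pos hq.pos hp.per hq.per hp.ne hm
  refine ⟨h1, ?_⟩
  subst h1
  have h2 := congrArg (fun x => φ (-u) x α) hm
  rw [← hφ.add, ← hφ.add, neg_add_cancel, hφ.zero] at h2
  rw [← h2]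
  congr 1
  ring

lemma range_shift (hφ : RotFlow X φ) (p : ℝ × ℝ) (α u : ℝ) :
    range (fun t => φ t (φ u p α) α) = range (fun t => φ t p α) := by
  ext x
  constructor
  · rintro ⟨t, rfl⟩
    exact ⟨t + u, by simp only; rw [hφ.add]⟩
  · rintro ⟨t, rfl⟩
    refine ⟨t - u, ?_⟩
    simp only
    rw [← hφ.add, sub_add_cancel]

namespace Patch

variable {p₀ : ℝ × ℝ}

lemma minPer (hφ : RotFlow X φ) (P : Patch X φ p₀) {s : ℝ} (hs : s ∈ Ioo (-P.ε) P.ε) :
    MinPer X φ (P.a s) (P.σ s) (P.T s) := by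
  refine ⟨P.hT s hs, P.hper s hs, ?_, P.hne s hs⟩
  intro t ht hc
  have h1 : QQ φ P.σ P.a (s, t) = QQ φ P.σ P.a (s, 0) := by
    simp only [QQ]
    rw [hc, hφ.zero]
  have h2 := P.hinj (x₁ := (s, t)) (x₂ := (s, 0)) ⟨hs, ht.1.le, ht.2⟩ ⟨hs, le_rfl, P.hT s hs⟩ h1
  have h3 := congrArg Prod.snd h2
  simp only at h3
  exact ht.1.ne' h3

/-- the region swept by the patch -/
def reg (P : Patch X φ p₀) : Set (ℝ × ℝ) := P.Q '' P.strip (Ioo (-P.ε) P.ε)

lemma mem_reg (hφ : RotFlow X φ) (P : Patch X φ p₀) {s : ℝ} (hs : s ∈ Ioo (-P.ε) P.ε) (t : ℝ) :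
    P.Q (s, t) ∈ P.reg := by
  have h1 : Function.Periodic (fun t => P.Q (s, t)) (P.T s) := fun t => P.Q_period hφ hs t
  obtain ⟨y, hy, hy2⟩ := h1.exists_mem_Ico₀ (P.hT s hs) t
  rw [hy2]
  exact ⟨(s, y), ⟨hs, hy⟩, rfl⟩

lemma reg_mem_nhds (hφ : RotFlow X φ) (P : Patch X φ p₀) : P.reg ∈ 𝓝 p₀ := by
  refine mem_of_superset P.hnhds ?_
  rintro _ ⟨⟨s, t⟩, hs, rfl⟩
  exact P.mem_reg hφ hs t

lemma measurableSet_image (hφ : RotFlow X φ) (P : Patch X φ p₀) {S : Set ℝ}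
    (hS : MeasurableSet S) (hSε : S ⊆ Ioo (-P.ε) P.ε) : MeasurableSet (P.Q '' P.strip S) := by
  have hsub : P.strip S ⊆ Ioo (-P.ε) P.ε ×ˢ (univ : Set ℝ) := fun z hz => ⟨hSε hz.1, trivial⟩
  have hsub2 : P.strip S ⊆ {z : ℝ × ℝ | z.1 ∈ Ioo (-P.ε) P.ε ∧ z.2 ∈ Ico 0 (P.T z.1)} :=
    fun z hz => ⟨hSε hz.1, hz.2⟩
  exact (P.measurableSet_strip hS hSε).image_of_continuousOn_injOn
    ((P.continuousOn_Q hφ).mono hsub) (P.hinj.mono hsub2)

/-- good transversal parameters -/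
def good (P : Patch X φ p₀) (w : ℝ × ℝ → ℝ) (Ω B : Set (ℝ × ℝ)) (M : Set ℝ) : Set ℝ :=
  {s | s ∈ Ioo (-P.ε) P.ε ∧ P.σ s ∉ B ∧ (∀ t, P.Q (s, t) ∈ Ω) ∧ P.len w s ∈ M}

lemma measurableSet_good (hφ : RotFlow X φ) (hX : ContDiff ℝ 2 X) (P : Patch X φ p₀)
    {w : ℝ × ℝ → ℝ} (hw : ∀ p, X p ≠ 0 → ContDiffAt ℝ 1 w p) {Ω B : Set (ℝ × ℝ)}
    (hΩ : IsClosed Ω) (hB : MeasurableSet B) {M : Set ℝ} (hM : MeasurableSet M) :
    MeasurableSet (P.good w Ω B M) := by
  classical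
  set I := Ioo (-P.ε) P.ε with hI
  have hIm : MeasurableSet I := measurableSet_Ioo
  set O : Set (ℝ × ℝ) := I ×ˢ univ with hO
  have hOm : MeasurableSet O := hIm.prod MeasurableSet.univ
  -- σ
  have hσc : ContinuousOn P.σ I := fun s hs => (P.hσ s hs).continuousAt.continuousWithinAt
  have hσm : Measurable (I.piecewise P.σ (fun _ => 0)) :=
    hσc.measurable_piecewise continuousOn_const hIm
  have m1 : MeasurableSet (I ∩ {s | P.σ s ∉ B}) := by
    have : I ∩ {s | P.σ s ∉ B} = I ∩ (I.piecewise P.σ (fun _ => 0)) ⁻¹' Bᶜ := by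
      ext s
      simp only [mem_inter_iff, mem_ofPred_eq, mem_preimage, mem_compl_iff]
      refine and_congr_right fun hs => ?_
      rw [piecewise_eq_of_mem _ _ _ hs]
    rw [this]
    exact hIm.inter (hσm hB.compl)
  -- containment in Ω
  have hQm : Measurable (O.piecewise P.Q (fun _ => 0)) :=
    (P.continuousOn_Q hφ).measurable_piecewise continuousOn_const hOm
  have m2 : MeasurableSet (I ∩ {s | ∀ t, P.Q (s, t) ∈ Ω}) := by
    have : I ∩ {s | ∀ t, P.Q (s, t) ∈ Ω} =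
        ⋂ r : ℚ, (I ∩ (fun s => O.piecewise P.Q (fun _ => 0) (s, (r:ℝ))) ⁻¹' Ω) := by
      ext s
      simp only [mem_inter_iff, mem_ofPred_eq, mem_iInter, mem_preimage]
      constructor
      · rintro ⟨hs, h⟩ r
        refine ⟨hs, ?_⟩
        rw [piecewise_eq_of_mem O _ _ (show ((s, (r:ℝ)) : ℝ × ℝ) ∈ O from ⟨hs, trivial⟩)]
        exact h r
      · intro h
        have hs := (h 0).1
        refine ⟨hs, fun t => ?_⟩
        have hcl : IsClosed {t : ℝ | P.Q (s, t) ∈ Ω} := hΩ.preimage (P.continuous_Q_snd hφ s)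
        have hd : range ((↑) : ℚ → ℝ) ⊆ {t : ℝ | P.Q (s, t) ∈ Ω} := by
          rintro _ ⟨r, rfl⟩
          have := (h r).2
          rw [piecewise_eq_of_mem O _ _ (show ((s, (r:ℝ)) : ℝ × ℝ) ∈ O from ⟨hs, trivial⟩)] at this
          exact this
        have h2 := hcl.closure_subset_iff.2 hd
        rw [Rat.denseRange_cast.closure_range] at h2
        exact h2 (mem_univ t)
    rw [this]
    refine MeasurableSet.iInter fun r => hIm.inter ?_
    exact (hQm.comp (measurable_id.prodMk measurable_const)) hΩ.measurableSet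
  -- length
  set f : ℝ × ℝ → ℝ := fun z => w (P.Q z) * sq (X (P.Q z)) with hf
  have hfc : ContinuousOn f O := by
    rintro ⟨s, t⟩ ⟨hs, -⟩
    have h1 : ContinuousAt P.Q (s, t) := (P.contDiffAt_Q hφ hs t).continuousAt
    have h2 : ContinuousAt (fun z => w (P.Q z)) (s, t) :=
      ContinuousAt.comp (f := P.Q) (hw _ (P.ne_zero hφ hs t)).continuousAt h1
    have h3 : ContinuousAt (fun z => sq (X (P.Q z))) (s, t) :=
      ContinuousAt.comp (f := P.Q) (g := fun q => sq (X q))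
        (continuous_sq.comp hX.continuous).continuousAt h1
    exact (h2.mul h3).continuousWithinAt
  have hfm : Measurable (O.piecewise f (fun _ => 0)) :=
    hfc.measurable_piecewise continuousOn_const hOm
  have hTm : Measurable (I.piecewise P.T (fun _ => 0)) :=
    P.continuousOn_T.measurable_piecewise continuousOn_const hIm
  set A : Set (ℝ × ℝ) := {z | 0 < z.2} ∩ {z | z.2 ≤ I.piecewise P.T (fun _ => 0) z.1} with hA
  have hAm : MeasurableSet A := (measurableSet_lt measurable_const measurable_snd).inter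
    (measurableSet_le measurable_snd (hTm.comp measurable_fst))
  set F : ℝ × ℝ → ℝ := A.indicator (O.piecewise f (fun _ => 0)) with hF
  have hFm : Measurable F := hfm.indicator hAm
  have hint : Measurable fun s => ∫ t, F (s, t) :=
    (hFm.stronglyMeasurable.integral_prod_right' (ν := volume)).measurable
  have hlen : ∀ s ∈ I, ∫ t, F (s, t) = P.len w s := by
    intro s hs
    unfold len
    rw [intervalIntegral.integral_of_le (P.hT s hs).le, ← integral_indicator measurableSet_Ioc]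
    congr 1
    ext t
    simp only [hF, indicator]
    have hO' : ((s, t) : ℝ × ℝ) ∈ O := ⟨hs, trivial⟩
    rw [piecewise_eq_of_mem O _ _ hO']
    have : ((s, t) : ℝ × ℝ) ∈ A ↔ t ∈ Ioc 0 (P.T s) := by
      simp only [hA, mem_inter_iff, mem_ofPred_eq, mem_Ioc]
      rw [piecewise_eq_of_mem I _ _ hs]
    simp only [this, hf]
  have m3 : MeasurableSet (I ∩ {s | P.len w s ∈ M}) := by
    have : I ∩ {s | P.len w s ∈ M} = I ∩ (fun s => ∫ t, F (s, t)) ⁻¹' M := by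
      ext s
      simp only [mem_inter_iff, mem_ofPred_eq, mem_preimage]
      refine and_congr_right fun hs => ?_
      rw [hlen s hs]
    rw [this]
    exact hIm.inter (hint hM)
  have : P.good w Ω B M = (I ∩ {s | P.σ s ∉ B}) ∩ ((I ∩ {s | ∀ t, P.Q (s, t) ∈ Ω}) ∩
      (I ∩ {s | P.len w s ∈ M})) := by
    ext s
    simp only [good, mem_inter_iff, mem_ofPred_eq]
    tauto
  rw [this]
  exact m1.inter (m2.inter m3)

end Patch

end

end Pool.Agent.H709R2
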