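import Pool.Agent.H709R2.Torus

/-! Total variation of the argument of a polynomial field along a line. -/

open Real Set MeasureTheory Topology Filter
open scoped ENNReal

namespace Pool.Agent.H709R2

noncomputable section

/-- integral of the kernel of one root -/
lemma lintegral_root (z : ℂ) :
    ∫⁻ x : ℝ, ENNReal.ofReal |(1 / ((x : ℂ) - z)).im| ≤ ENNReal.ofReal π := by
  have him : ∀ x : ℝ, (1 / ((x : ℂ) - z)).im = z.im / ((x - z.re) ^ 2 + z.im ^ 2) := by
    intro x
    rw [one_div, Complex.inv_im, Complex.normSq_apply]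
    simp
    ring_nf
  by_cases hb : z.im = 0
  · simp [hb, one_div]
  · have h1 : ∀ x : ℝ, |(1 / ((x : ℂ) - z)).im| =
        |z.im|⁻¹ * (1 + ((x - z.re) / |z.im|) ^ 2)⁻¹ := by
      intro x
      have hb' : 0 < |z.im| := abs_pos.2 hb
      rw [him, abs_div, abs_of_pos (show 0 < (x - z.re) ^ 2 + z.im ^ 2 by positivity)]
      rw [show z.im ^ 2 = |z.im| ^ 2 by rw [sq_abs]]
      field_simp
      ring_nf
    have hint : Integrable fun x : ℝ => |z.im|⁻¹ * (1 + ((x - z.re) / |z.im|) ^ 2)⁻¹ := by
      have h2 := integrable_inv_one_add_sq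
      have h3 := (h2.comp_div (abs_pos.2 hb).ne').comp_sub_right z.re
      exact h3.const_mul _
    simp only [h1]
    rw [← ofReal_integral_eq_lintegral_ofReal hint
      (ae_of_all _ fun x => by positivity)]
    apply ENNReal.ofReal_le_ofReal
    rw [integral_const_mul]
    have h4 : ∫ x : ℝ, (1 + ((x - z.re) / |z.im|) ^ 2)⁻¹ = |z.im| * π := by
      rw [integral_sub_right_eq_self (fun x : ℝ => (1 + (x / |z.im|) ^ 2)⁻¹) z.re]
      rw [Measure.integral_comp_div (fun x : ℝ => (1 + x ^ 2)⁻¹) |z.im|,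
        integral_univ_inv_one_add_sq, abs_abs, smul_eq_mul]
    rw [h4, ← mul_assoc, inv_mul_cancel₀ (abs_pos.2 hb).ne', one_mul]

lemma lintegral_roots (s : Multiset ℂ) :
    ∫⁻ x : ℝ, ENNReal.ofReal |((s.map fun z => 1 / ((x : ℂ) - z)).sum).im| ≤
      ENNReal.ofReal (Multiset.card s * π) := by
  induction s using Multiset.induction_on with
  | empty => simp
  | cons a s ih =>
    simp only [Multiset.map_cons, Multiset.sum_cons, Multiset.card_cons, Complex.add_im]
    calc ∫⁻ x : ℝ, ENNReal.ofReal |(1 / ((x : ℂ) - a)).im +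
          ((s.map fun z => 1 / ((x : ℂ) - z)).sum).im|
        ≤ ∫⁻ x : ℝ, (ENNReal.ofReal |(1 / ((x : ℂ) - a)).im| +
          ENNReal.ofReal |((s.map fun z => 1 / ((x : ℂ) - z)).sum).im|) := by
          refine lintegral_mono fun x => ?_
          rw [← ENNReal.ofReal_add (abs_nonneg _) (abs_nonneg _)]
          exact ENNReal.ofReal_le_ofReal (abs_add_le _ _)
      _ = (∫⁻ x : ℝ, ENNReal.ofReal |(1 / ((x : ℂ) - a)).im|) +
          ∫⁻ x : ℝ, ENNReal.ofReal |((s.map fun z => 1 / ((x : ℂ) - z)).sum).im| := by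
          refine lintegral_add_left ?_ _
          refine Measurable.ennreal_ofReal ?_
          refine (Complex.measurable_im.comp ?_).abs
          exact measurable_const.div (Complex.measurable_ofReal.sub measurable_const)
      _ ≤ ENNReal.ofReal π + ENNReal.ofReal (Multiset.card s * π) := by
          gcongr
          exact lintegral_root a
      _ = ENNReal.ofReal ((Multiset.card s + 1 : ℕ) * π) := by
          rw [← ENNReal.ofReal_add pi_pos.le (by positivity)]
          congr 1
          push_cast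
          ring

/-- the argument of a complex polynomial of degree `≤ n` varies by at most `n π` along the
real line -/
lemma lintegral_logDeriv (g : Polynomial ℂ) {n : ℕ} (hg : g.natDegree ≤ n) :
    ∫⁻ x : ℝ, ENNReal.ofReal |(g.derivative.eval (x : ℂ) / g.eval (x : ℂ)).im| ≤
      ENNReal.ofReal (n * π) := by
  calc ∫⁻ x : ℝ, ENNReal.ofReal |(g.derivative.eval (x : ℂ) / g.eval (x : ℂ)).im|
      ≤ ∫⁻ x : ℝ, ENNReal.ofReal |((g.roots.map fun z => 1 / ((x : ℂ) - z)).sum).im| := by
        refine lintegral_mono fun x => ?_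
        by_cases hx : g.eval (x : ℂ) = 0
        · simp [hx]
        · rw [(IsAlgClosed.splits g).eval_derivative_div_eval_of_ne_zero hx]
    _ ≤ ENNReal.ofReal (Multiset.card g.roots * π) := lintegral_roots _
    _ ≤ ENNReal.ofReal (n * π) := by
        apply ENNReal.ofReal_le_ofReal
        gcongr
        exact (Polynomial.card_roots' g).trans hg

/-- the planar polynomial vector field with components `P, Q` -/
def field (P Q : MvPolynomial (Fin 2) ℝ) (p : ℝ × ℝ) : ℝ × ℝ :=
  (MvPolynomial.eval ![p.1, p.2] P, MvPolynomial.eval ![p.1, p.2] Q)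

lemma contDiff_evalPoly (P : MvPolynomial (Fin 2) ℝ) {m : WithTop ℕ∞} :
    ContDiff ℝ m (fun p : ℝ × ℝ => MvPolynomial.eval ![p.1, p.2] P) := by
  induction P using MvPolynomial.induction_on with
  | C a => simp only [MvPolynomial.eval_C]; exact contDiff_const
  | add p q hp hq => simp only [map_add]; exact hp.add hq
  | mul_X p i hp =>
    simp only [map_mul, MvPolynomial.eval_X]
    refine hp.mul ?_
    fin_cases i
    · simpa using contDiff_fst
    · simpa using contDiff_snd

lemma contDiff_field (P Q : MvPolynomial (Fin 2) ℝ) {m : WithTop ℕ∞} :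
    ContDiff ℝ m (field P Q) := (contDiff_evalPoly P).prodMk (contDiff_evalPoly Q)

/-- the restriction of `P + i Q` to the line `p + t v` as a complex polynomial in `t` -/
def lineP (P Q : MvPolynomial (Fin 2) ℝ) (p v : ℝ × ℝ) : Polynomial ℂ :=
  MvPolynomial.aeval
    (![Polynomial.C (p.1 : ℂ) + Polynomial.C (v.1 : ℂ) * Polynomial.X,
      Polynomial.C (p.2 : ℂ) + Polynomial.C (v.2 : ℂ) * Polynomial.X] : Fin 2 → Polynomial ℂ)
    (P.map (algebraMap ℝ ℂ) + MvPolynomial.C Complex.I * Q.map (algebraMap ℝ ℂ))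

lemma totalDegree_map_le' (P : MvPolynomial (Fin 2) ℝ) :
    (P.map (algebraMap ℝ ℂ)).totalDegree ≤ P.totalDegree := by
  unfold MvPolynomial.totalDegree
  exact Finset.sup_mono (MvPolynomial.support_map_subset _ _)

lemma natDegree_lineP {P Q : MvPolynomial (Fin 2) ℝ} {n : ℕ} (hP : P.totalDegree ≤ n)
    (hQ : Q.totalDegree ≤ n) (p v : ℝ × ℝ) : (lineP P Q p v).natDegree ≤ n := by
  unfold lineP
  have h1 : (P.map (algebraMap ℝ ℂ) +
      MvPolynomial.C Complex.I * Q.map (algebraMap ℝ ℂ)).totalDegree ≤ n := by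
    refine (MvPolynomial.totalDegree_add _ _).trans (max_le ?_ ?_)
    · exact (totalDegree_map_le' _).trans hP
    · refine (MvPolynomial.totalDegree_mul _ _).trans ?_
      rw [MvPolynomial.totalDegree_C, zero_add]
      exact (totalDegree_map_le' _).trans hQ
  have h2 := MvPolynomial.aeval_natDegree_le (n := 1) _ h1
    (![Polynomial.C (p.1 : ℂ) + Polynomial.C (v.1 : ℂ) * Polynomial.X,
      Polynomial.C (p.2 : ℂ) + Polynomial.C (v.2 : ℂ) * Polynomial.X] : Fin 2 → Polynomial ℂ)
    (by
      intro i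
      fin_cases i
      · simp only [Fin.zero_eta, Matrix.cons_val_zero]
        refine (Polynomial.natDegree_add_le _ _).trans (max_le (by simp) ?_)
        exact (Polynomial.natDegree_C_mul_le _ _).trans Polynomial.natDegree_X_le
      · simp only [Fin.mk_one, Matrix.cons_val_one]
        refine (Polynomial.natDegree_add_le _ _).trans (max_le (by simp) ?_)
        exact (Polynomial.natDegree_C_mul_le _ _).trans Polynomial.natDegree_X_le)
  simpa using h2

lemma eval_map_ofReal (P : MvPolynomial (Fin 2) ℝ) (x y : ℝ) :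
    MvPolynomial.eval ![(x : ℂ), (y : ℂ)] (P.map (algebraMap ℝ ℂ)) =
      ((MvPolynomial.eval ![x, y] P : ℝ) : ℂ) := by
  induction P using MvPolynomial.induction_on with
  | C a => simp
  | add p q hp hq => simp [hp, hq]
  | mul_X p i hp =>
    rw [map_mul, map_mul, hp, MvPolynomial.map_X, MvPolynomial.eval_X, map_mul,
      MvPolynomial.eval_X, Complex.ofReal_mul]
    congr 1
    fin_cases i <;> simp

lemma eval_lineP (P Q : MvPolynomial (Fin 2) ℝ) (p v : ℝ × ℝ) (t : ℝ) :
    (lineP P Q p v).eval (t : ℂ) =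
      ((field P Q (p + t • v)).1 : ℂ) + ((field P Q (p + t • v)).2 : ℂ) * Complex.I := by
  unfold lineP field
  have h1 : ∀ F : MvPolynomial (Fin 2) ℂ, (MvPolynomial.aeval
      (![Polynomial.C (p.1 : ℂ) + Polynomial.C (v.1 : ℂ) * Polynomial.X,
      Polynomial.C (p.2 : ℂ) + Polynomial.C (v.2 : ℂ) * Polynomial.X] : Fin 2 → Polynomial ℂ)
      F).eval (t : ℂ) = MvPolynomial.eval ![((p + t • v).1 : ℂ), ((p + t • v).2 : ℂ)] F := by
    intro F
    induction F using MvPolynomial.induction_on with
    | C a => simp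
    | add p q hp hq => simp [hp, hq]
    | mul_X q i hq =>
      rw [map_mul, Polynomial.eval_mul, hq, map_mul, MvPolynomial.aeval_X, MvPolynomial.eval_X]
      congr 1
      fin_cases i
      · simp
        ring
      · simp
        ring
  rw [h1, map_add, map_mul, MvPolynomial.eval_C, eval_map_ofReal, eval_map_ofReal]
  ring

lemma deriv_lineP (P Q : MvPolynomial (Fin 2) ℝ) (p v : ℝ × ℝ) (t : ℝ) :
    (lineP P Q p v).derivative.eval (t : ℂ) =
      ((fderiv ℝ (field P Q) (p + t • v) v).1 : ℂ) +
        ((fderiv ℝ (field P Q) (p + t • v) v).2 : ℂ) * Complex.I := by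
  have h1 : HasDerivAt (fun t : ℝ => (lineP P Q p v).eval (t : ℂ))
      ((lineP P Q p v).derivative.eval (t : ℂ)) t :=
    ((lineP P Q p v).hasDerivAt (t : ℂ)).comp_ofReal
  have hl : HasDerivAt (fun t : ℝ => p + t • v) v t := by
    simpa using ((hasDerivAt_id t).smul_const v).const_add p
  have hd : HasDerivAt (fun t : ℝ => field P Q (p + t • v)) (fderiv ℝ (field P Q) (p + t • v) v) t :=
    ((contDiff_field P Q (m := 1)).differentiable (by norm_num) _).hasFDerivAt.comp_hasDerivAt t hl
  have hd1 : HasDerivAt (fun t : ℝ => (field P Q (p + t • v)).1)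
      (fderiv ℝ (field P Q) (p + t • v) v).1 t :=
    (ContinuousLinearMap.fst ℝ ℝ ℝ).hasFDerivAt.comp_hasDerivAt t hd
  have hd2 : HasDerivAt (fun t : ℝ => (field P Q (p + t • v)).2)
      (fderiv ℝ (field P Q) (p + t • v) v).2 t :=
    (ContinuousLinearMap.snd ℝ ℝ ℝ).hasFDerivAt.comp_hasDerivAt t hd
  have h2 : HasDerivAt (fun t : ℝ => ((field P Q (p + t • v)).1 : ℂ) +
      ((field P Q (p + t • v)).2 : ℂ) * Complex.I)
      (((fderiv ℝ (field P Q) (p + t • v) v).1 : ℂ) +
        ((fderiv ℝ (field P Q) (p + t • v) v).2 : ℂ) * Complex.I) t :=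
    hd1.ofReal_comp.add (hd2.ofReal_comp.mul_const _)
  have h3 : (fun t : ℝ => (lineP P Q p v).eval (t : ℂ)) = fun t : ℝ =>
      ((field P Q (p + t • v)).1 : ℂ) + ((field P Q (p + t • v)).2 : ℂ) * Complex.I := by
    ext t
    exact eval_lineP P Q p v t
  rw [h3] at h1
  exact h1.unique h2

/-- **Variation of the argument** of a polynomial vector field along a line. -/
theorem lintegral_line {P Q : MvPolynomial (Fin 2) ℝ} {n : ℕ} (hP : P.totalDegree ≤ n)
    (hQ : Q.totalDegree ≤ n) (p v : ℝ × ℝ) :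
    ∫⁻ t : ℝ, ENNReal.ofReal
      (|wedge (field P Q (p + t • v)) (fderiv ℝ (field P Q) (p + t • v) v)| /
        sq (field P Q (p + t • v))) ≤ ENNReal.ofReal (n * π) := by
  refine le_trans (lintegral_mono fun t => ?_)
    (lintegral_logDeriv (lineP P Q p v) (natDegree_lineP hP hQ p v))
  apply ENNReal.ofReal_le_ofReal
  rw [deriv_lineP, eval_lineP]
  set a := field P Q (p + t • v)
  set b := fderiv ℝ (field P Q) (p + t • v) v
  have h1 : (((b.1 : ℂ) + (b.2 : ℂ) * Complex.I) / ((a.1 : ℂ) + (a.2 : ℂ) * Complex.I)).im =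
      wedge a b / sq a := by
    rw [Complex.div_im]
    simp [Complex.normSq_apply, wedge, sq]
    ring
  rw [h1, abs_div, abs_of_nonneg (show 0 ≤ sq a by unfold sq; positivity)]

end

end Pool.Agent.H709R2
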