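import Pool.Agent.H709R2.Main
import Pool.Agent.H709R2.PolyLine

/-! Cutoff, minimal periods, integrals over rectangles. -/

open Real Set MeasureTheory Topology Filter
open scoped ENNReal

namespace Pool.Agent.H709R2

noncomputable section

/-- cutoff of a smooth field outside a big ball -/
lemma exists_cutoff {F : ℝ × ℝ → ℝ × ℝ} (hF : ContDiff ℝ 2 F) (R : ℝ) :
    ∃ X : ℝ × ℝ → ℝ × ℝ, ContDiff ℝ 2 X ∧ (∃ K : NNReal, LipschitzWith K X) ∧
      (∃ M : NNReal, ∀ x, ‖X x‖ ≤ M) ∧ ∀ p, ‖p‖ ≤ R → X =ᶠ[𝓝 p] F := by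
  set r := max R 0 with hr
  let χ : ContDiffBump (0 : ℝ × ℝ) := ⟨r + 1, r + 2, by positivity, by linarith⟩
  have hX : ContDiff ℝ 2 (fun x => χ x • F x) := (χ.contDiff).smul hF
  have hs : HasCompactSupport (fun x => χ x • F x) := χ.hasCompactSupport.smul_right
  refine ⟨fun x => χ x • F x, hX, hX.lipschitzWith_of_hasCompactSupport hs (by norm_num), ?_, ?_⟩
  · obtain ⟨M, hM⟩ := hs.exists_bound_of_continuous hX.continuous
    refine ⟨⟨max M 0, le_max_right _ _⟩, fun x => (hM x).trans (le_max_left _ _)⟩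
  · intro p hp
    have h1 : Metric.ball (0 : ℝ × ℝ) (r + 1) ∈ 𝓝 p := by
      refine Metric.isOpen_ball.mem_nhds ?_
      rw [mem_ball_zero_iff]
      have : R ≤ r := le_max_left _ _
      linarith
    filter_upwards [h1] with x hx
    rw [χ.one_of_mem_closedBall (Metric.ball_subset_closedBall hx), one_smul]

variable {X : ℝ × ℝ → ℝ × ℝ} {φ : ℝ → ℝ × ℝ → ℝ → ℝ × ℝ}

lemma rot_ne_zero {v : ℝ × ℝ} (hv : v ≠ 0) (α : ℝ) : rot α v ≠ 0 := by
  intro h
  have h1 := sq_rot α v
  rw [h] at h1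
  have h2 := sq_pos hv
  rw [← h1] at h2
  simp [sq] at h2

/-- a periodic nonconstant orbit has a minimal period -/
lemma exists_minPer (hφ : RotFlow X φ) {α : ℝ} {p : ℝ × ℝ} {T : ℝ} (hT : 0 < T)
    (hper : φ T p α = p) (hne : X p ≠ 0) : ∃ T₀, MinPer X φ α p T₀ := by
  have hd := hφ.deriv p α 0
  rw [hφ.zero] at hd
  have h1 := hd.eventually_ne (c := p) (rot_ne_zero hne α)
  have hcont : Continuous fun t => φ t p α :=
    continuous_iff_continuousAt.2 fun t => (hφ.deriv p α t).continuousAt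
  obtain ⟨ε, hε, hε2⟩ := Metric.mem_nhdsWithin_iff.1 h1
  have h2 : ∀ t, 0 < t → t < ε → φ t p α ≠ p := by
    intro t ht ht2
    have : t ∈ Metric.ball (0:ℝ) ε ∩ {0}ᶜ := by
      refine ⟨?_, ht.ne'⟩
      rw [Metric.mem_ball, dist_zero_right, Real.norm_eq_abs, abs_of_pos ht]
      exact ht2
    exact hε2 this
  set Z : Set ℝ := {t | t ∈ Icc ε T ∧ φ t p α = p} with hZ
  have hεT : ε ≤ T := by
    by_contra hc
    exact h2 T hT (not_le.1 hc) hper
  have hZne : Z.Nonempty := ⟨T, ⟨hεT, le_rfl⟩, hper⟩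
  have hZc : IsCompact Z := by
    have : Z = Icc ε T ∩ (fun t => φ t p α) ⁻¹' {p} := by ext t; rfl
    rw [this]
    exact isCompact_Icc.inter_right (isClosed_singleton.preimage hcont)
  obtain ⟨T₀, hT₀, hmin⟩ := hZc.exists_isLeast hZne
  refine ⟨T₀, lt_of_lt_of_le hε hT₀.1.1, hT₀.2, ?_, hne⟩
  intro t ht hc
  by_cases h3 : t < ε
  · exact h2 t ht.1 h3 hc
  · have : t ∈ Z := ⟨⟨not_lt.1 h3, ht.2.le.trans hT₀.1.2⟩, hc⟩
    exact absurd (hmin this) (not_le.2 ht.2)

/-- a nonconstant periodic solution of the rotated field which stays where `X = F` is an orbit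
of the flow -/
lemma minPer_of_closed (hφ : RotFlow X φ) {α : ℝ} {γ : ℝ → ℝ × ℝ} {T : ℝ} (hT : 0 < T)
    (hγ : ∀ t, HasDerivAt γ (rot α (X (γ t))) t) (hper : ∀ t, γ (t + T) = γ t)
    (hnc : ∃ s t, γ s ≠ γ t) :
    ∃ T₀, MinPer X φ α (γ 0) T₀ ∧ range γ = range (fun t => φ t (γ 0) α) := by
  have h1 : ∀ t, γ t = φ t (γ 0) α := hφ.uniq α γ hγ
  have hp : φ T (γ 0) α = γ 0 := by
    rw [← h1, ← hper 0, zero_add]
  have hne : X (γ 0) ≠ 0 := by
    intro hc
    obtain ⟨s, t, hst⟩ := hnc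
    apply hst
    have h2 := hφ.uniq α (fun _ => γ 0) (fun t => by
      rw [hc]
      have : rot α (0 : ℝ × ℝ) = 0 := by unfold rot; ext <;> simp
      rw [this]
      exact hasDerivAt_const t _)
    rw [h1 s, h1 t, ← h2 s, ← h2 t]
  obtain ⟨T₀, hT₀⟩ := exists_minPer hφ hT hp hne
  refine ⟨T₀, hT₀, ?_⟩
  congr 1
  ext1 t
  exact h1 t

/-! ### The weight `1/|X|` -/

/-- the weight `1/|X|` -/
def winv (X : ℝ × ℝ → ℝ × ℝ) (p : ℝ × ℝ) : ℝ := (√(sq (X p)))⁻¹

lemma contDiffAt_winv (hX : ContDiff ℝ 2 X) {p : ℝ × ℝ} (hp : X p ≠ 0) :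
    ContDiffAt ℝ 1 (winv X) p := by
  have h1 : ContDiff ℝ 1 fun p => sq (X p) := by
    unfold sq
    have := hX.of_le (show (1 : WithTop ℕ∞) ≤ 2 by norm_num)
    exact ((contDiff_fst.comp this).pow 2).add ((contDiff_snd.comp this).pow 2)
  exact ((h1.contDiffAt).sqrt (sq_pos hp).ne').inv (Real.sqrt_pos.2 (sq_pos hp)).ne'

/-- the divergence of the unit field -/
lemma divW_winv (hX : ContDiff ℝ 2 X) {p : ℝ × ℝ} (hp : X p ≠ 0) (α : ℝ) :
    divW (winv X) X α p * √(sq (X p)) * sq (X p) =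
      (rot α (X p)).1 * wedge (X p) (fderiv ℝ X p (0, 1)) -
        (rot α (X p)).2 * wedge (X p) (fderiv ℝ X p (1, 0)) := by
  have hs := sq_pos hp
  have hs2 := Real.sqrt_pos.2 hs
  have hXd : DifferentiableAt ℝ X p := (hX.differentiable (by norm_num)) p
  have hder : ∀ v, fderiv ℝ (winv X) p v =
      -((X p).1 * (fderiv ℝ X p v).1 + (X p).2 * (fderiv ℝ X p v).2) /
        (√(sq (X p)) * sq (X p)) := by
    intro v
    have hl : HasDerivAt (fun t : ℝ => p + t • v) v 0 := by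
      simpa using ((hasDerivAt_id (0:ℝ)).smul_const v).const_add p
    have hp0 : p + (0:ℝ) • v = p := by simp
    have hd : HasDerivAt (fun t : ℝ => X (p + t • v)) (fderiv ℝ X p v) 0 := by
      have h1 : HasFDerivAt X (fderiv ℝ X p) (p + (0:ℝ) • v) := by
        rw [hp0]; exact hXd.hasFDerivAt
      exact h1.comp_hasDerivAt 0 hl
    have hd1 : HasDerivAt (fun t : ℝ => (X (p + t • v)).1) (fderiv ℝ X p v).1 0 :=
      (ContinuousLinearMap.fst ℝ ℝ ℝ).hasFDerivAt.comp_hasDerivAt 0 hd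
    have hd2 : HasDerivAt (fun t : ℝ => (X (p + t • v)).2) (fderiv ℝ X p v).2 0 :=
      (ContinuousLinearMap.snd ℝ ℝ ℝ).hasFDerivAt.comp_hasDerivAt 0 hd
    have hq : HasDerivAt (fun t : ℝ => sq (X (p + t • v)))
        (2 * ((X p).1 * (fderiv ℝ X p v).1 + (X p).2 * (fderiv ℝ X p v).2)) 0 := by
      have := (hd1.pow 2).add (hd2.pow 2)
      unfold sq
      refine this.congr_deriv ?_
      simp
      ring
    have hw : HasDerivAt (fun t : ℝ => winv X (p + t • v))
        (-(2 * ((X p).1 * (fderiv ℝ X p v).1 + (X p).2 * (fderiv ℝ X p v).2) /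
          (2 * √(sq (X (p + (0:ℝ) • v))))) / (√(sq (X (p + (0:ℝ) • v)))) ^ 2) 0 := by
      unfold winv
      refine (hq.sqrt ?_).inv ?_
      · rw [hp0]; exact hs.ne'
      · rw [hp0]; exact hs2.ne'
    have hw' : HasDerivAt (fun t : ℝ => winv X (p + t • v)) (fderiv ℝ (winv X) p v) 0 := by
      have h1 : HasFDerivAt (winv X) (fderiv ℝ (winv X) p) (p + (0:ℝ) • v) := by
        rw [hp0]
        exact ((contDiffAt_winv hX hp).differentiableAt (by norm_num)).hasFDerivAt
      exact h1.comp_hasDerivAt 0 hl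
    rw [hw'.unique hw, hp0, Real.sq_sqrt hs.le]
    field_simp
  unfold divW
  rw [hder]
  have hlin : fderiv ℝ X p (rot α (X p)) = (rot α (X p)).1 • fderiv ℝ X p (1, 0) +
      (rot α (X p)).2 • fderiv ℝ X p (0, 1) := clm_decomp _ _
  rw [hlin]
  set A := fderiv ℝ X p (1, 0)
  set B := fderiv ℝ X p (0, 1)
  have hwinv : winv X p = (√(sq (X p)))⁻¹ := rfl
  rw [hwinv]
  unfold divRot
  have key : -((X p).1 * ((rot α (X p)).1 • A + (rot α (X p)).2 • B).1 +
      (X p).2 * ((rot α (X p)).1 • A + (rot α (X p)).2 • B).2) +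
      sq (X p) * ((rot α A).1 + (rot α B).2) =
      (rot α (X p)).1 * wedge (X p) B - (rot α (X p)).2 * wedge (X p) A := by
    unfold sq wedge rot
    simp only [Prod.fst_add, Prod.snd_add, Prod.smul_fst, Prod.smul_snd, smul_eq_mul]
    ring
  rw [← key]
  field_simp
  rfl

lemma abs_divW_winv_le (hX : ContDiff ℝ 2 X) {p : ℝ × ℝ} (hp : X p ≠ 0) (α : ℝ) :
    |divW (winv X) X α p| ≤ |wedge (X p) (fderiv ℝ X p (1, 0))| / sq (X p) +
      |wedge (X p) (fderiv ℝ X p (0, 1))| / sq (X p) := by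
  have hs := sq_pos hp
  have hs2 := Real.sqrt_pos.2 hs
  have h1 := divW_winv hX hp α
  have hV : sq (rot α (X p)) = sq (X p) := sq_rot _ _
  have hV1 : |(rot α (X p)).1| ≤ √(sq (X p)) := by
    apply Real.abs_le_sqrt
    rw [← hV]
    unfold sq
    nlinarith [sq_nonneg (rot α (X p)).2]
  have hV2 : |(rot α (X p)).2| ≤ √(sq (X p)) := by
    apply Real.abs_le_sqrt
    rw [← hV]
    unfold sq
    nlinarith [sq_nonneg (rot α (X p)).1]
  rw [← add_div, le_div_iff₀ hs]
  have h2 : |divW (winv X) X α p| * sq (X p) * √(sq (X p)) ≤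
      (|wedge (X p) (fderiv ℝ X p (1, 0))| + |wedge (X p) (fderiv ℝ X p (0, 1))|) *
        √(sq (X p)) := by
    calc |divW (winv X) X α p| * sq (X p) * √(sq (X p))
        = |divW (winv X) X α p * √(sq (X p)) * sq (X p)| := by
          rw [abs_mul, abs_mul, abs_of_pos hs, abs_of_pos hs2]; ring
      _ = |(rot α (X p)).1 * wedge (X p) (fderiv ℝ X p (0, 1)) -
        (rot α (X p)).2 * wedge (X p) (fderiv ℝ X p (1, 0))| := by rw [h1]
      _ ≤ |(rot α (X p)).1| * |wedge (X p) (fderiv ℝ X p (0, 1))| +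
        |(rot α (X p)).2| * |wedge (X p) (fderiv ℝ X p (1, 0))| := by
          rw [← abs_mul, ← abs_mul]; exact abs_sub _ _
      _ ≤ √(sq (X p)) * |wedge (X p) (fderiv ℝ X p (0, 1))| +
        √(sq (X p)) * |wedge (X p) (fderiv ℝ X p (1, 0))| := by gcongr
      _ = _ := by ring
  exact le_of_mul_le_mul_right h2 hs2

/-! ### Integrals over rectangles -/

lemma measurable_kernel {F : ℝ × ℝ → ℝ × ℝ} (hF : ContDiff ℝ 2 F) (v : ℝ × ℝ) :
    Measurable fun p => ENNReal.ofReal (|wedge (F p) (fderiv ℝ F p v)| / sq (F p)) := by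
  have h1 : Continuous fun p => fderiv ℝ F p v :=
    (hF.continuous_fderiv (by norm_num)).clm_apply continuous_const
  have h2 : Continuous fun p => wedge (F p) (fderiv ℝ F p v) := by
    unfold wedge
    have := hF.continuous
    fun_prop
  have h3 : Continuous fun p => sq (F p) := by
    unfold sq
    have := hF.continuous
    fun_prop
  exact (h2.abs.measurable.div h3.measurable).ennreal_ofReal

theorem lintegral_rect {P Q : MvPolynomial (Fin 2) ℝ} {n : ℕ} (hP : P.totalDegree ≤ n)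
    (hQ : Q.totalDegree ≤ n) (a b c e : ℝ) :
    ∫⁻ p in Icc a b ×ˢ Icc c e, (ENNReal.ofReal
      (|wedge (field P Q p) (fderiv ℝ (field P Q) p (1, 0))| / sq (field P Q p)) +
      ENNReal.ofReal
      (|wedge (field P Q p) (fderiv ℝ (field P Q) p (0, 1))| / sq (field P Q p))) ≤
      ENNReal.ofReal (n * π) * (ENNReal.ofReal (b - a) + ENNReal.ofReal (e - c)) := by
  have hF : ContDiff ℝ 2 (field P Q) := contDiff_field P Q
  rw [lintegral_add_left (measurable_kernel hF _)]
  rw [Measure.volume_eq_prod, ← Measure.prod_restrict]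
  have h1 : ∫⁻ p, ENNReal.ofReal
      (|wedge (field P Q p) (fderiv ℝ (field P Q) p (1, 0))| / sq (field P Q p))
      ∂((volume.restrict (Icc a b)).prod (volume.restrict (Icc c e))) ≤
      ENNReal.ofReal (n * π) * ENNReal.ofReal (e - c) := by
    rw [lintegral_prod_symm _ (measurable_kernel hF _).aemeasurable]
    calc ∫⁻ y in Icc c e, ∫⁻ x in Icc a b, ENNReal.ofReal
          (|wedge (field P Q (x, y)) (fderiv ℝ (field P Q) (x, y) (1, 0))| / sq (field P Q (x, y)))
        ≤ ∫⁻ y in Icc c e, ENNReal.ofReal (n * π) := by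
          refine lintegral_mono fun y => ?_
          refine (setLIntegral_le_lintegral _ _).trans ?_
          have h2 := lintegral_line hP hQ (0, y) (1, 0)
          have h3 : ∀ t : ℝ, ((0:ℝ), y) + t • ((1:ℝ), (0:ℝ)) = (t, y) := by
            intro t; ext <;> simp
          simp only [h3] at h2
          exact h2
      _ = ENNReal.ofReal (n * π) * ENNReal.ofReal (e - c) := by
          rw [lintegral_const, Measure.restrict_apply_univ, Real.volume_Icc]
  have h2 : ∫⁻ p, ENNReal.ofReal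
      (|wedge (field P Q p) (fderiv ℝ (field P Q) p (0, 1))| / sq (field P Q p))
      ∂((volume.restrict (Icc a b)).prod (volume.restrict (Icc c e))) ≤
      ENNReal.ofReal (n * π) * ENNReal.ofReal (b - a) := by
    rw [lintegral_prod _ (measurable_kernel hF _).aemeasurable]
    calc ∫⁻ x in Icc a b, ∫⁻ y in Icc c e, ENNReal.ofReal
          (|wedge (field P Q (x, y)) (fderiv ℝ (field P Q) (x, y) (0, 1))| / sq (field P Q (x, y)))
        ≤ ∫⁻ x in Icc a b, ENNReal.ofReal (n * π) := by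
          refine lintegral_mono fun x => ?_
          refine (setLIntegral_le_lintegral _ _).trans ?_
          have h2 := lintegral_line hP hQ (x, 0) (0, 1)
          have h3 : ∀ t : ℝ, (x, (0:ℝ)) + t • ((0:ℝ), (1:ℝ)) = (x, t) := by
            intro t; ext <;> simp
          simp only [h3] at h2
          exact h2
      _ = ENNReal.ofReal (n * π) * ENNReal.ofReal (b - a) := by
          rw [lintegral_const, Measure.restrict_apply_univ, Real.volume_Icc]
  calc _ ≤ ENNReal.ofReal (n * π) * ENNReal.ofReal (e - c) +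
        ENNReal.ofReal (n * π) * ENNReal.ofReal (b - a) := add_le_add h1 h2
    _ = _ := by rw [← mul_add, add_comm (ENNReal.ofReal (e - c))]

end

end Pool.Agent.H709R2
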