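import Pool.Agent.H709R2.SumE

/-! The number of closed orbits in a square is locally integrable over the coefficients. -/

open Real Set MeasureTheory Topology Filter
open scoped ENNReal

namespace Pool.Agent.H709R2

noncomputable section

variable {S : Finset (ℕ × ℕ)}

lemma encard_biUnion_le {α ι : Type*} (s : Finset ι) (f : ι → Set α) :
    ((⋃ i ∈ s, f i).encard : ℝ≥0∞) ≤ ∑ i ∈ s, ((f i).encard : ℝ≥0∞) := by
  let _ : MeasurableSpace α := ⊤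
  have h1 : ∀ t : Set α, Measure.count t = (t.encard : ℝ≥0∞) := fun t =>
    Measure.count_apply (MeasurableSpace.measurableSet_top)
  rw [← h1]
  refine (measure_biUnion_finset_le _ _).trans ?_
  simp only [h1]
  exact le_rfl

lemma encard_union_le' {α : Type*} (s t : Set α) :
    ((s ∪ t).encard : ℝ≥0∞) ≤ (s.encard : ℝ≥0∞) + (t.encard : ℝ≥0∞) := by
  have := ENat.toENNReal_le.2 (Set.encard_union_le s t)
  simpa using this

/-- scales -/
def sc (k : ℕ) : ℝ := (1 / 2) ^ k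

lemma sc_pos (k : ℕ) : 0 < sc k := by unfold sc; positivity

lemma sc_le_one (k : ℕ) : sc k ≤ 1 := pow_le_one₀ (by norm_num) (by norm_num)

/-- half the number of grid points -/
def gn (R : ℝ) (k : ℕ) : ℤ := ⌈R / (sc k) ^ 16⌉

/-- grid indices -/
def grid (R : ℝ) (k : ℕ) : Finset (ℤ × ℤ) :=
  Finset.Icc (-gn R k) (gn R k) ×ˢ Finset.Icc (-gn R k) (gn R k)

/-- grid points -/
def gp (k : ℕ) (z : ℤ × ℤ) : ℝ × ℝ := ((z.1 : ℝ) * (sc k) ^ 16, (z.2 : ℝ) * (sc k) ^ 16)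

lemma gn_bound {R : ℝ} (hR : 0 ≤ R) (k : ℕ) : (gn R k : ℝ) * (sc k) ^ 16 ≤ R + 1 := by
  have hL : 0 < (sc k) ^ 16 := by have := sc_pos k; positivity
  have hL1 : (sc k) ^ 16 ≤ 1 := pow_le_one₀ (sc_pos k).le (sc_le_one k)
  have h1 : (gn R k : ℝ) < R / (sc k) ^ 16 + 1 := Int.ceil_lt_add_one _
  calc (gn R k : ℝ) * (sc k) ^ 16 ≤ (R / (sc k) ^ 16 + 1) * (sc k) ^ 16 := by gcongr
    _ = R + (sc k) ^ 16 := by rw [add_mul, div_mul_cancel₀ _ hL.ne', one_mul]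
    _ ≤ R + 1 := by linarith

lemma gn_nonneg {R : ℝ} (hR : 0 ≤ R) (k : ℕ) : 0 ≤ gn R k := by
  have hL : 0 < (sc k) ^ 16 := by have := sc_pos k; positivity
  exact Int.ceil_nonneg (by positivity)

lemma norm_gp {R : ℝ} (hR : 0 ≤ R) (k : ℕ) {z : ℤ × ℤ} (hz : z ∈ grid R k) :
    ‖gp k z‖ ≤ R + 1 := by
  have hL : 0 < (sc k) ^ 16 := by have := sc_pos k; positivity
  unfold grid at hz
  rw [Finset.mem_product, Finset.mem_Icc, Finset.mem_Icc] at hz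
  obtain ⟨⟨h1, h2⟩, h3, h4⟩ := hz
  have key : ∀ i : ℤ, -gn R k ≤ i → i ≤ gn R k → ‖(i : ℝ) * (sc k) ^ 16‖ ≤ R + 1 := by
    intro i hi1 hi2
    rw [Real.norm_eq_abs, abs_mul, abs_of_pos hL]
    have h5 : |(i : ℝ)| ≤ gn R k := by
      rw [abs_le]
      constructor
      · have : ((-gn R k : ℤ) : ℝ) ≤ i := by exact_mod_cast hi1
        simpa using this
      · exact_mod_cast hi2
    calc |(i : ℝ)| * (sc k) ^ 16 ≤ (gn R k : ℝ) * (sc k) ^ 16 := by gcongr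
      _ ≤ R + 1 := gn_bound hR k
  unfold gp
  rw [Prod.norm_def, max_le_iff]
  exact ⟨key _ h1 h2, key _ h3 h4⟩

lemma exists_gp {R : ℝ} (hR : 0 ≤ R) (k : ℕ) {x : ℝ × ℝ} (hx : ‖x‖ ≤ R) :
    ∃ z ∈ grid R k, ‖x - gp k z‖ ≤ (sc k) ^ 16 := by
  have hL : 0 < (sc k) ^ 16 := by have := sc_pos k; positivity
  set L := (sc k) ^ 16 with hLdef
  have key : ∀ a : ℝ, |a| ≤ R → -gn R k ≤ ⌊a / L⌋ ∧ ⌊a / L⌋ ≤ gn R k ∧
      |a - (⌊a / L⌋ : ℝ) * L| ≤ L := by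
    intro a ha
    rw [abs_le] at ha
    refine ⟨?_, ?_, ?_⟩
    · unfold gn
      rw [← Int.floor_neg, ← hLdef]
      apply Int.floor_le_floor
      rw [← neg_div]
      gcongr
      exact ha.1
    · unfold gn
      rw [← hLdef]
      refine (Int.floor_le_ceil _).trans (Int.ceil_le_ceil ?_)
      gcongr
      exact ha.2
    · have h1 := Int.floor_le (a / L)
      have h2 := Int.lt_floor_add_one (a / L)
      rw [le_div_iff₀ hL] at h1
      rw [div_lt_iff₀ hL] at h2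
      rw [abs_le]
      constructor <;> nlinarith
  have h1 := key x.1 ((norm_fst_le x).trans hx)
  have h2 := key x.2 ((norm_snd_le x).trans hx)
  refine ⟨(⌊x.1 / L⌋, ⌊x.2 / L⌋), ?_, ?_⟩
  · unfold grid
    rw [Finset.mem_product, Finset.mem_Icc, Finset.mem_Icc]
    exact ⟨⟨h1.1, h1.2.1⟩, h2.1, h2.2.1⟩
  · unfold gp
    rw [Prod.norm_def, max_le_iff, ← hLdef]
    exact ⟨h1.2.2, h2.2.2⟩

lemma card_grid {R : ℝ} (hR : 0 ≤ R) (k : ℕ) :
    ((grid R k).card : ℝ) * ((sc k) ^ 16) ^ 2 ≤ (2 * R + 3) ^ 2 := by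
  have hL : 0 < (sc k) ^ 16 := by have := sc_pos k; positivity
  have hL1 : (sc k) ^ 16 ≤ 1 := pow_le_one₀ (sc_pos k).le (sc_le_one k)
  have h1 : (Finset.Icc (-gn R k) (gn R k)).card = (2 * gn R k + 1).toNat := by
    rw [Int.card_Icc]
    congr 1
    ring
  have h2 : ((Finset.Icc (-gn R k) (gn R k)).card : ℝ) = 2 * gn R k + 1 := by
    rw [h1]
    have h3 : (((2 * gn R k + 1).toNat : ℤ) : ℝ) = ((2 * gn R k + 1 : ℤ) : ℝ) := by
      rw [Int.toNat_of_nonneg (by have := gn_nonneg hR k; linarith)]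
    have h4 : (((2 * gn R k + 1).toNat : ℤ) : ℝ) = (((2 * gn R k + 1).toNat : ℕ) : ℝ) := by
      norm_cast
    rw [← h4, h3]
    push_cast
    ring
  unfold grid
  rw [Finset.card_product]
  push_cast
  rw [h2]
  have h5 : (2 * (gn R k : ℝ) + 1) * (sc k) ^ 16 ≤ 2 * R + 3 := by
    have := gn_bound hR k
    nlinarith
  have h6 : 0 ≤ (2 * (gn R k : ℝ) + 1) * (sc k) ^ 16 := by
    have : (0:ℝ) ≤ gn R k := by exact_mod_cast gn_nonneg hR k
    positivity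
  calc (2 * (gn R k : ℝ) + 1) * (2 * (gn R k : ℝ) + 1) * ((sc k) ^ 16) ^ 2
      = ((2 * (gn R k : ℝ) + 1) * (sc k) ^ 16) ^ 2 := by ring
    _ ≤ (2 * R + 3) ^ 2 := pow_le_pow_left₀ h6 h5 2

/-- covering of all closed orbits in a square -/
lemma cls_cover (V : ℝ × ℝ → ℝ × ℝ) {R : ℝ} (hR : 0 ≤ R) :
    Cls V (sqr 0 R) 0 ⊆ Cls V (sqr 0 R) 1 ∪ ⋃ k : ℕ, ⋃ z ∈ grid R k,
      Cls V (sqr (gp k z) (2 * (sc k) ^ 16)) ((1 / 2) ^ 16 * (sc k) ^ 16) := by
  classical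
  rintro C ⟨hC, hCΩ, -⟩
  by_cases hbig : ∃ x ∈ C, ∃ y ∈ C, (1:ℝ) ^ 2 ≤ sq (x - y)
  · exact Or.inl ⟨hC, hCΩ, hbig⟩
  right
  -- two distinct points
  obtain ⟨x₀, hx₀, y₀, hy₀, hxy⟩ : ∃ x ∈ C, ∃ y ∈ C, x ≠ y := by
    obtain ⟨γ, T, -, -, -, ⟨s, t, hst⟩, rfl⟩ := hC
    exact ⟨γ s, ⟨s, rfl⟩, γ t, ⟨t, rfl⟩, hst⟩
  have hpos : 0 < sq (x₀ - y₀) := sq_pos (sub_ne_zero.2 hxy)
  have hex : ∃ k : ℕ, ∃ x ∈ C, ∃ y ∈ C, ((sc (k + 1)) ^ 16) ^ 2 ≤ sq (x - y) := by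
    obtain ⟨k, hk⟩ := exists_pow_lt_of_lt_one hpos (show (1/2:ℝ) < 1 by norm_num)
    refine ⟨k, x₀, hx₀, y₀, hy₀, le_trans ?_ hk.le⟩
    have h1 : ((sc (k + 1)) ^ 16) ^ 2 = (1 / 2 : ℝ) ^ ((k + 1) * 32) := by
      unfold sc
      rw [← pow_mul, ← pow_mul]
    rw [h1]
    exact pow_le_pow_of_le_one (by norm_num) (by norm_num) (by omega)
  set k := Nat.find hex with hk
  obtain ⟨x, hx, y, hy, hle⟩ := Nat.find_spec hex
  rw [← hk] at hle
  have hless : ∀ x ∈ C, ∀ y ∈ C, sq (x - y) < ((sc k) ^ 16) ^ 2 := by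
    intro x' hx' y' hy'
    by_contra hcon
    push Not at hcon
    rcases Nat.eq_zero_or_pos k with h0 | h0
    · apply hbig
      refine ⟨x', hx', y', hy', ?_⟩
      rw [h0] at hcon
      simpa [sc] using hcon
    · have h2 : k - 1 < Nat.find hex := by omega
      apply Nat.find_min hex h2
      refine ⟨x', hx', y', hy', ?_⟩
      rw [Nat.sub_add_cancel h0]
      exact hcon
  obtain ⟨z, hz, hz2⟩ := exists_gp hR k (x := x) (by
    have := mem_sqr.1 (hCΩ hx)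
    simpa using this)
  have hL : 0 < (sc k) ^ 16 := by have := sc_pos k; positivity
  simp only [mem_iUnion]
  refine ⟨k, z, hz, hC, ?_, x, hx, y, hy, ?_⟩
  · intro w hw
    rw [mem_sqr]
    have h1 := hless w hw x hx
    have h2 : ‖w - x‖ ≤ (sc k) ^ 16 := by
      have h3 := (norm_le_sq (w - x)).trans h1.le
      exact le_of_sq_le_sq h3 hL.le
    calc ‖w - gp k z‖ = ‖(w - x) + (x - gp k z)‖ := by congr 1; abel
      _ ≤ ‖w - x‖ + ‖x - gp k z‖ := norm_add_le _ _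
      _ ≤ 2 * (sc k) ^ 16 := by linarith
  · refine le_trans (le_of_eq ?_) hle
    unfold sc
    rw [pow_succ]
    ring

/-- **Theorem E.** -/
theorem thmE (S : Finset (ℕ × ℕ)) (h00 : (0, 0) ∈ S) (h10 : (1, 0) ∈ S) (h01 : (0, 1) ∈ S)
    {M R : ℝ} (hM : 0 ≤ M) (hR : 0 ≤ R) :
    ∫⁻ c in BM S M, ((Cls (fld c) (sqr 0 R) 0).encard : ℝ≥0∞) < ⊤ := by
  obtain ⟨C, hC0, hC⟩ := cell_integral S h00 h10 h01 (M := M) (R := R) (θ := (1 / 2) ^ 16) hM hR
    (by norm_num) (by norm_num)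
  have hΩ : ∀ (q : ℝ × ℝ) (r : ℝ), IsCompact (sqr q r) := fun q r =>
    isCompact_Icc.prod isCompact_Icc
  have hmeas : ∀ (q : ℝ × ℝ) (r d : ℝ),
      Measurable (fun c : S → ℝ × ℝ => ((Cls (fld c) (sqr q r) d).encard : ℝ≥0∞)) :=
    fun q r d => measurable_count (hΩ q r) d
  have hvol : volume (BM S M) < ⊤ :=
    (measure_mono (BM_subset hM)).trans_lt (isCompact_closedBall _ _).measure_lt_top
  -- big closed orbits
  have hbig : ∫⁻ c in BM S M, ((Cls (fld c) (sqr 0 R) 1).encard : ℝ≥0∞) < ⊤ := by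
    set n : ℕ := S.sup (fun m => m.1 + m.2) with hn
    calc ∫⁻ c in BM S M, ((Cls (fld c) (sqr 0 R) 1).encard : ℝ≥0∞)
        ≤ ENNReal.ofReal π * ∫⁻ c in BM S M, ((Cls (fld c) (sqr 0 R) 1).encard : ℝ≥0∞) := by
          conv_lhs => rw [← one_mul (∫⁻ c in BM S M, ((Cls (fld c) (sqr 0 R) 1).encard : ℝ≥0∞))]
          gcongr
          rw [ENNReal.one_le_ofReal]
          linarith [pi_gt_three]
      _ = ∫⁻ c in BM S M, ∫⁻ α in Ioo 0 π,
            ((Cls (fld (rotc α c)) (sqr 0 R) 1).encard : ℝ≥0∞) := lintegral_rot (hmeas 0 R 1) M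
      _ ≤ ∫⁻ c in BM S M, ENNReal.ofReal (2 * π * n * R / 1) :=
          lintegral_mono fun c => bound_one S c 0 hR one_pos
      _ = ENNReal.ofReal (2 * π * n * R / 1) * volume (BM S M) := setLIntegral_const _ _
      _ < ⊤ := ENNReal.mul_lt_top ENNReal.ofReal_lt_top hvol
  have hsmall : ∫⁻ c in BM S M, ∑' k : ℕ, ∑ z ∈ grid R k,
      ((Cls (fld c) (sqr (gp k z) (2 * (sc k) ^ 16)) ((1 / 2) ^ 16 * (sc k) ^ 16)).encard : ℝ≥0∞)
      < ⊤ := by
    rw [lintegral_tsum (fun k => (Finset.measurable_fun_sum _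
      (fun z _ => hmeas _ _ _)).aemeasurable)]
    have h1 : ∀ k : ℕ, ∫⁻ c in BM S M, ∑ z ∈ grid R k,
        ((Cls (fld c) (sqr (gp k z) (2 * (sc k) ^ 16)) ((1 / 2) ^ 16 * (sc k) ^ 16)).encard : ℝ≥0∞)
        ≤ ENNReal.ofReal (C * (2 * R + 3) ^ 2) * ENNReal.ofReal ((1 / 2) ^ k) := by
      intro k
      rw [lintegral_finsetSum _ (fun z _ => hmeas _ _ _)]
      calc ∑ z ∈ grid R k, ∫⁻ c in BM S M, ((Cls (fld c) (sqr (gp k z) (2 * (sc k) ^ 16))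
            ((1 / 2) ^ 16 * (sc k) ^ 16)).encard : ℝ≥0∞)
          ≤ ∑ z ∈ grid R k, ENNReal.ofReal (C * sc k * ((sc k) ^ 16) ^ 2) :=
            Finset.sum_le_sum fun z hz => hC (sc k) (sc_pos k) (sc_le_one k) _ (norm_gp hR k hz)
        _ = ENNReal.ofReal ((grid R k).card * (C * sc k * ((sc k) ^ 16) ^ 2)) := by
            rw [Finset.sum_const, nsmul_eq_mul, ENNReal.ofReal_mul (Nat.cast_nonneg _),
              ENNReal.ofReal_natCast]
        _ ≤ ENNReal.ofReal (C * (2 * R + 3) ^ 2 * (1 / 2) ^ k) := by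
            apply ENNReal.ofReal_le_ofReal
            have h2 := card_grid hR k
            have h3 := (sc_pos k).le
            calc ((grid R k).card : ℝ) * (C * sc k * ((sc k) ^ 16) ^ 2)
                = C * sc k * (((grid R k).card : ℝ) * ((sc k) ^ 16) ^ 2) := by ring
              _ ≤ C * sc k * (2 * R + 3) ^ 2 := by gcongr
              _ = _ := by unfold sc; ring
        _ = _ := ENNReal.ofReal_mul (by positivity)
    calc ∑' k : ℕ, ∫⁻ c in BM S M, ∑ z ∈ grid R k,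
        ((Cls (fld c) (sqr (gp k z) (2 * (sc k) ^ 16)) ((1 / 2) ^ 16 * (sc k) ^ 16)).encard : ℝ≥0∞)
        ≤ ∑' k : ℕ, ENNReal.ofReal (C * (2 * R + 3) ^ 2) * ENNReal.ofReal ((1 / 2) ^ k) :=
          ENNReal.tsum_le_tsum h1
      _ = ENNReal.ofReal (C * (2 * R + 3) ^ 2) * ∑' k : ℕ, ENNReal.ofReal ((1 / 2) ^ k) :=
          ENNReal.tsum_mul_left
      _ < ⊤ := by
          refine ENNReal.mul_lt_top ENNReal.ofReal_lt_top ?_
          rw [← ENNReal.ofReal_tsum_of_nonneg (fun k => by positivity)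
            (summable_geometric_of_lt_one (by norm_num) (by norm_num))]
          exact ENNReal.ofReal_lt_top
  calc ∫⁻ c in BM S M, ((Cls (fld c) (sqr 0 R) 0).encard : ℝ≥0∞)
      ≤ ∫⁻ c in BM S M, (((Cls (fld c) (sqr 0 R) 1).encard : ℝ≥0∞) + ∑' k : ℕ, ∑ z ∈ grid R k,
          ((Cls (fld c) (sqr (gp k z) (2 * (sc k) ^ 16))
            ((1 / 2) ^ 16 * (sc k) ^ 16)).encard : ℝ≥0∞)) := by
        refine lintegral_mono fun c => ?_
        refine (ENat.toENNReal_le.2 (Set.encard_le_encard (cls_cover (fld c) hR))).trans ?_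
        refine (encard_union_le' _ _).trans ?_
        gcongr
        refine (encard_le_tsum (s := ⋃ k : ℕ, ⋃ z ∈ grid R k,
          Cls (fld c) (sqr (gp k z) (2 * (sc k) ^ 16)) ((1 / 2) ^ 16 * (sc k) ^ 16))
          (subset_refl _)).trans ?_
        exact ENNReal.tsum_le_tsum fun k => encard_biUnion_le _ _
    _ = (∫⁻ c in BM S M, ((Cls (fld c) (sqr 0 R) 1).encard : ℝ≥0∞)) +
        ∫⁻ c in BM S M, ∑' k : ℕ, ∑ z ∈ grid R k,
          ((Cls (fld c) (sqr (gp k z) (2 * (sc k) ^ 16))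
            ((1 / 2) ^ 16 * (sc k) ^ 16)).encard : ℝ≥0∞) := lintegral_add_left (hmeas 0 R 1) _
    _ < ⊤ := ENNReal.add_lt_top.2 ⟨hbig, hsmall⟩

end

end Pool.Agent.H709R2
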