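import Mathlib

/-! Two closed integral curves of a rotated family do not meet (integral identity on a torus). -/

open Real Set MeasureTheory Topology

namespace Pool.Agent.H709R2

noncomputable section

/-- rotation of the plane by the angle `α` -/
def rot (α : ℝ) (v : ℝ × ℝ) : ℝ × ℝ :=
  (Real.cos α * v.1 - Real.sin α * v.2, Real.sin α * v.1 + Real.cos α * v.2)

/-- the oriented area of the parallelogram spanned by two vectors -/
def wedge (a b : ℝ × ℝ) : ℝ := a.1 * b.2 - a.2 * b.1

/-- squared Euclidean length -/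
def sq (v : ℝ × ℝ) : ℝ := v.1 ^ 2 + v.2 ^ 2

lemma wedge_rot (α β : ℝ) (v : ℝ × ℝ) :
    wedge (rot α v) (rot β v) = sq v * Real.sin (β - α) := by
  unfold wedge rot sq
  rw [Real.sin_sub]
  ring

lemma sq_rot (α : ℝ) (v : ℝ × ℝ) : sq (rot α v) = sq v := by
  unfold rot sq
  have := Real.sin_sq_add_cos_sq α
  simp only
  linear_combination (v.1 ^ 2 + v.2 ^ 2) * this

lemma sq_pos {v : ℝ × ℝ} (h : v ≠ 0) : 0 < sq v := by
  unfold sq
  rcases v with ⟨a, b⟩
  have : a ≠ 0 ∨ b ≠ 0 := by
    by_contra hc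
    push Not at hc
    exact h (by rw [hc.1, hc.2]; rfl)
  rcases this with h | h
  · have := sq_pos_of_ne_zero h; simp only; nlinarith [sq_nonneg b]
  · have := sq_pos_of_ne_zero h; simp only; nlinarith [sq_nonneg a]
where
  sq_pos_of_ne_zero {a : ℝ} (h : a ≠ 0) : 0 < a ^ 2 := by positivity

lemma continuous_rot (α : ℝ) : Continuous (rot α) := by
  unfold rot
  fun_prop

/-- the torus identity -/
theorem torus_identity {γ η γ' η' : ℝ → ℝ × ℝ} {T S : ℝ}
    (hγ : ∀ t, HasDerivAt γ (γ' t) t) (hη : ∀ t, HasDerivAt η (η' t) t)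
    (cγ : Continuous γ') (cη : Continuous η')
    (pγ : γ T = γ 0) (pη : η S = η 0)
    {a b b' : ℝ → ℝ} (ha : Continuous a) (hb : ∀ x, HasDerivAt b (b' x) x) (cb : Continuous b') :
    ∫ s in (0:ℝ)..T, ∫ t in (0:ℝ)..S,
      a ((γ s).1 - (η t).1) * b ((γ s).2 - (η t).2) * wedge (γ' s) (η' t) = 0 := by
  have cγ0 : Continuous γ := continuous_iff_continuousAt.2 fun t => (hγ t).continuousAt
  have cη0 : Continuous η := continuous_iff_continuousAt.2 fun t => (hη t).continuousAt
  have cb0 : Continuous b := continuous_iff_continuousAt.2 fun t => (hb t).continuousAt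
  set A : ℝ → ℝ := fun x => ∫ u in (0:ℝ)..x, a u with hA
  have hAd : ∀ x, HasDerivAt A (a x) x := fun x =>
    intervalIntegral.integral_hasDerivAt_right (ha.intervalIntegrable _ _)
      (ha.stronglyMeasurableAtFilter _ _) ha.continuousAt
  have cA : Continuous A := continuous_iff_continuousAt.2 fun t => (hAd t).continuousAt
  have hγ1 : ∀ t, HasDerivAt (fun t => (γ t).1) (γ' t).1 t := fun t =>
    (ContinuousLinearMap.fst ℝ ℝ ℝ).hasFDerivAt.comp_hasDerivAt t (hγ t)
  have hγ2 : ∀ t, HasDerivAt (fun t => (γ t).2) (γ' t).2 t := fun t =>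
    (ContinuousLinearMap.snd ℝ ℝ ℝ).hasFDerivAt.comp_hasDerivAt t (hγ t)
  have hη1 : ∀ t, HasDerivAt (fun t => (η t).1) (η' t).1 t := fun t =>
    (ContinuousLinearMap.fst ℝ ℝ ℝ).hasFDerivAt.comp_hasDerivAt t (hη t)
  have hη2 : ∀ t, HasDerivAt (fun t => (η t).2) (η' t).2 t := fun t =>
    (ContinuousLinearMap.snd ℝ ℝ ℝ).hasFDerivAt.comp_hasDerivAt t (hη t)
  -- the potential
  set Φ : ℝ → ℝ → ℝ := fun s t => A ((γ s).1 - (η t).1) * b ((γ s).2 - (η t).2) with hΦ
  set Φs : ℝ → ℝ → ℝ := fun s t => a ((γ s).1 - (η t).1) * (γ' s).1 * b ((γ s).2 - (η t).2) +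
    A ((γ s).1 - (η t).1) * (b' ((γ s).2 - (η t).2) * (γ' s).2) with hΦs
  set Φt : ℝ → ℝ → ℝ := fun s t => a ((γ s).1 - (η t).1) * (-(η' t).1) * b ((γ s).2 - (η t).2) +
    A ((γ s).1 - (η t).1) * (b' ((γ s).2 - (η t).2) * (-(η' t).2)) with hΦt
  have dΦs : ∀ s t, HasDerivAt (fun s => Φ s t) (Φs s t) s := by
    intro s t
    have h1 : HasDerivAt (fun s => A ((γ s).1 - (η t).1)) (a ((γ s).1 - (η t).1) * (γ' s).1) s :=
      (hAd _).comp s ((hγ1 s).sub_const _)
    have h2 : HasDerivAt (fun s => b ((γ s).2 - (η t).2)) (b' ((γ s).2 - (η t).2) * (γ' s).2) s :=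
      (hb _).comp s ((hγ2 s).sub_const _)
    exact h1.mul h2
  have dΦt : ∀ s t, HasDerivAt (fun t => Φ s t) (Φt s t) t := by
    intro s t
    have h1 : HasDerivAt (fun t => A ((γ s).1 - (η t).1)) (a ((γ s).1 - (η t).1) * (-(η' t).1)) t :=
      (hAd _).comp t ((hη1 t).const_sub _)
    have h2 : HasDerivAt (fun t => b ((γ s).2 - (η t).2))
        (b' ((γ s).2 - (η t).2) * (-(η' t).2)) t :=
      (hb _).comp t ((hη2 t).const_sub _)
    exact h1.mul h2
  have key : ∀ s t, a ((γ s).1 - (η t).1) * b ((γ s).2 - (η t).2) * wedge (γ' s) (η' t) =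
      Φs s t * (η' t).2 + Φt s t * (γ' s).2 := by
    intro s t
    simp only [hΦs, hΦt, wedge]
    ring
  have cΦs : Continuous (fun p : ℝ × ℝ => Φs p.1 p.2) := by
    simp only [hΦs]
    fun_prop
  have cΦt : Continuous (fun p : ℝ × ℝ => Φt p.1 p.2) := by
    simp only [hΦt]
    fun_prop
  have i1 : ∀ s, IntervalIntegrable (fun t => Φs s t * (η' t).2) volume 0 S := fun s =>
    ((cΦs.comp (by fun_prop : Continuous fun t : ℝ => (s, t))).mul
      (by fun_prop : Continuous fun t => (η' t).2)).intervalIntegrable _ _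
  have i2 : ∀ s, IntervalIntegrable (fun t => Φt s t * (γ' s).2) volume 0 S := fun s =>
    ((cΦt.comp (by fun_prop : Continuous fun t : ℝ => (s, t))).mul
      continuous_const).intervalIntegrable _ _
  have e1 : ∀ s, ∫ t in (0:ℝ)..S,
      a ((γ s).1 - (η t).1) * b ((γ s).2 - (η t).2) * wedge (γ' s) (η' t) =
      ∫ t in (0:ℝ)..S, Φs s t * (η' t).2 := by
    intro s
    simp_rw [key]
    rw [intervalIntegral.integral_add (i1 s) (i2 s)]
    rw [intervalIntegral.integral_mul_const]
    rw [intervalIntegral.integral_eq_sub_of_hasDerivAt (fun t _ => dΦt s t)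
      ((cΦt.comp (by fun_prop : Continuous fun t : ℝ => (s, t))).intervalIntegrable _ _)]
    simp only [hΦ, pη]
    ring
  simp_rw [e1]
  have cF : Continuous (Function.uncurry fun s t => Φs s t * (η' t).2) := by
    have : Continuous fun p : ℝ × ℝ => Φs p.1 p.2 * (η' p.2).2 :=
      cΦs.mul (by fun_prop)
    exact this
  rw [intervalIntegral_integral_swap_aux cF]
  have e2 : ∀ t, ∫ s in (0:ℝ)..T, Φs s t * (η' t).2 = 0 := by
    intro t
    rw [intervalIntegral.integral_mul_const]
    rw [intervalIntegral.integral_eq_sub_of_hasDerivAt (fun s _ => dΦs s t)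
      ((cΦs.comp (by fun_prop : Continuous fun s : ℝ => (s, t))).intervalIntegrable _ _)]
    simp only [hΦ, pγ]
    ring
  simp_rw [e2]
  simp
where
  intervalIntegral_integral_swap_aux {T S : ℝ} {F : ℝ → ℝ → ℝ}
    (cF : Continuous (Function.uncurry F)) :
    ∫ s in (0:ℝ)..T, ∫ t in (0:ℝ)..S, F s t = ∫ t in (0:ℝ)..S, ∫ s in (0:ℝ)..T, F s t := by
    refine intervalIntegral_intervalIntegral_swap ?_
    have h1 : IsCompact (uIcc 0 T ×ˢ uIcc 0 S) := isCompact_uIcc.prod isCompact_uIcc
    have h2 : IntegrableOn (Function.uncurry F) (uIcc 0 T ×ˢ uIcc 0 S) :=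
      cF.continuousOn.integrableOn_compact h1
    exact h2.mono_set (prod_mono uIoc_subset_uIcc uIoc_subset_uIcc)

/-- **Duff's non-intersection property.** Two closed integral curves of the fields `rot α X` and
`rot β X` with `sin (β - α) ≠ 0` do not meet. -/
theorem no_meeting {X : ℝ × ℝ → ℝ × ℝ} (hX : Continuous X) {α β : ℝ}
    (hs : Real.sin (β - α) ≠ 0) {γ η : ℝ → ℝ × ℝ} {T S : ℝ} (hT : 0 < T) (hS : 0 < S)
    (hγ : ∀ t, HasDerivAt γ (rot α (X (γ t))) t) (hη : ∀ t, HasDerivAt η (rot β (X (η t))) t)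
    (pγ : γ T = γ 0) (pη : η S = η 0) (h0 : ∀ t, X (γ t) ≠ 0) : γ 0 ≠ η 0 := by
  intro hmeet
  have cγ0 : Continuous γ := continuous_iff_continuousAt.2 fun t => (hγ t).continuousAt
  have cη0 : Continuous η := continuous_iff_continuousAt.2 fun t => (hη t).continuousAt
  set σ : ℝ := Real.sin (β - α) with hσ
  -- the function which is positive on the diagonal
  set G : (ℝ × ℝ) × (ℝ × ℝ) → ℝ := fun q => σ * wedge (rot α (X q.1)) (rot β (X q.2)) with hG
  have cG : Continuous G := by
    have h1 : Continuous fun q : (ℝ × ℝ) × (ℝ × ℝ) => rot α (X q.1) :=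
      (continuous_rot α).comp (hX.comp continuous_fst)
    have h2 : Continuous fun q : (ℝ × ℝ) × (ℝ × ℝ) => rot β (X q.2) :=
      (continuous_rot β).comp (hX.comp continuous_snd)
    simp only [hG, wedge]
    fun_prop
  set K : Set ((ℝ × ℝ) × (ℝ × ℝ)) := (fun t => (γ t, γ t)) '' Icc 0 T with hK
  have hKc : IsCompact K := isCompact_Icc.image (by fun_prop)
  have hKO : K ⊆ G ⁻¹' Ioi 0 := by
    rintro _ ⟨t, -, rfl⟩
    simp only [hG, mem_preimage, mem_Ioi]
    rw [wedge_rot, ← hσ]
    have := sq_pos (h0 t)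
    have : 0 < σ ^ 2 := by positivity
    nlinarith [sq_pos (h0 t)]
  obtain ⟨ε, hε, hthick⟩ := hKc.exists_thickening_subset_open (isOpen_Ioi.preimage cG) hKO
  -- bump function
  let f : ContDiffBump (0:ℝ) := ⟨ε / 2, ε, by positivity, by linarith⟩
  have hfc : ContDiff ℝ 1 f := f.contDiff
  have hfd : ∀ x, HasDerivAt f (deriv f x) x := fun x =>
    (hfc.differentiable one_ne_zero x).hasDerivAt
  have hfd' : Continuous (deriv f) := hfc.continuous_deriv le_rfl
  have key := torus_identity (γ := γ) (η := η) (γ' := fun t => rot α (X (γ t)))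
    (η' := fun t => rot β (X (η t))) hγ hη ((continuous_rot α).comp (hX.comp cγ0))
    ((continuous_rot β).comp (hX.comp cη0)) pγ pη hfc.continuous hfd hfd'
  set I : ℝ → ℝ → ℝ := fun s t => f ((γ s).1 - (η t).1) * f ((γ s).2 - (η t).2) *
    wedge (rot α (X (γ s))) (rot β (X (η t))) with hI
  have hpos : ∀ s ∈ Icc 0 T, ∀ t, 0 ≤ σ * I s t := by
    intro s hs t
    by_cases h1 : |(γ s).1 - (η t).1| < ε
    · by_cases h2 : |(γ s).2 - (η t).2| < ε
      · have h3 : ((γ s, η t) : (ℝ × ℝ) × (ℝ × ℝ)) ∈ Metric.thickening ε K := by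
          rw [Metric.mem_thickening_iff]
          refine ⟨(γ s, γ s), ⟨s, hs, rfl⟩, ?_⟩
          rw [Prod.dist_eq, dist_self, Prod.dist_eq, Real.dist_eq, Real.dist_eq]
          simp only [abs_sub_comm (η t).1, abs_sub_comm (η t).2]
          exact max_lt hε (max_lt h1 h2)
        have h4 := hthick h3
        simp only [hG, mem_preimage, mem_Ioi] at h4
        have h5 : σ * I s t = (f ((γ s).1 - (η t).1) * f ((γ s).2 - (η t).2)) *
          (σ * wedge (rot α (X (γ s))) (rot β (X (η t)))) := by simp only [hI]; ring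
        rw [h5]
        exact mul_nonneg (mul_nonneg f.nonneg f.nonneg) h4.le
      · have : f ((γ s).2 - (η t).2) = 0 := by
          apply f.zero_of_le_dist
          rw [Real.dist_eq, sub_zero]
          exact not_lt.1 h2
        simp only [hI, this]
        simp
    · have : f ((γ s).1 - (η t).1) = 0 := by
        apply f.zero_of_le_dist
        rw [Real.dist_eq, sub_zero]
        exact not_lt.1 h1
      simp only [hI, this]
      simp
  have hpos0 : 0 < σ * I 0 0 := by
    have h6 : f (0:ℝ) = 1 := f.one_of_mem_closedBall (Metric.mem_closedBall_self (by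
      change 0 ≤ ε / 2; positivity))
    simp only [hI, ← hmeet, sub_self, h6, one_mul]
    rw [wedge_rot, ← hσ]
    have : 0 < σ ^ 2 := by positivity
    nlinarith [sq_pos (h0 0)]
  have cI : Continuous (fun p : ℝ × ℝ => σ * I p.1 p.2) := by
    have c1 : Continuous fun p : ℝ × ℝ => rot α (X (γ p.1)) :=
      (continuous_rot α).comp (hX.comp (cγ0.comp continuous_fst))
    have c2 : Continuous fun p : ℝ × ℝ => rot β (X (η p.2)) :=
      (continuous_rot β).comp (hX.comp (cη0.comp continuous_snd))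
    have c3 : Continuous f := hfc.continuous
    have c4 : Continuous fun p : ℝ × ℝ => (γ p.1).1 - (η p.2).1 := by fun_prop
    have c5 : Continuous fun p : ℝ × ℝ => (γ p.1).2 - (η p.2).2 := by fun_prop
    have c6 := c3.comp c4
    have c7 := c3.comp c5
    simp only [hI, wedge]
    simp only [Function.comp_def] at c6 c7
    fun_prop
  have e1 : ∫ s in (0:ℝ)..T, ∫ t in (0:ℝ)..S, σ * I s t = 0 := by
    simp_rw [intervalIntegral.integral_const_mul]
    rw [key, mul_zero]
  have e2 : 0 < ∫ s in (0:ℝ)..T, ∫ t in (0:ℝ)..S, σ * I s t := by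
    refine intervalIntegral.integral_pos hT ?_ ?_ ⟨0, ⟨le_rfl, hT.le⟩, ?_⟩
    · exact (intervalIntegral.continuous_parametric_intervalIntegral_of_continuous'
        (f := fun s t => σ * I s t) cI 0 S).continuousOn
    · intro s hs
      exact intervalIntegral.integral_nonneg hS.le fun t _ => hpos s (Ioc_subset_Icc_self hs) t
    · refine intervalIntegral.integral_pos hS ?_ ?_ ⟨0, ⟨le_rfl, hS.le⟩, hpos0⟩
      · exact (cI.comp (by fun_prop : Continuous fun t : ℝ => ((0:ℝ), t))).continuousOn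
      · intro t _
        exact hpos 0 ⟨le_rfl, hT.le⟩ t
  linarith

end

end Pool.Agent.H709R2
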