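import Pool.Agent.GR.Flow
import Pool.Agent.H709R2.Torus

/-! Smooth flow of the rotated family of a bounded Lipschitz plane field. -/

open Real Set MeasureTheory Topology

namespace Pool.Agent.H709R2

noncomputable section

/-- `φ t p α` is the flow of the rotated field `rot α X`; it is `C²` jointly in all variables -/
structure RotFlow (X : ℝ × ℝ → ℝ × ℝ) (φ : ℝ → ℝ × ℝ → ℝ → ℝ × ℝ) : Prop where
  zero : ∀ p α, φ 0 p α = p
  deriv : ∀ p α t, HasDerivAt (fun t => φ t p α) (rot α (X (φ t p α))) t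
  smooth : ContDiff ℝ 2 (fun q : ℝ × (ℝ × ℝ) × ℝ => φ q.1 q.2.1 q.2.2)
  uniq : ∀ (α : ℝ) (γ : ℝ → ℝ × ℝ), (∀ t, HasDerivAt γ (rot α (X (γ t))) t) →
    ∀ t, γ t = φ t (γ 0) α

lemma RotFlow.add {X : ℝ × ℝ → ℝ × ℝ} {φ : ℝ → ℝ × ℝ → ℝ → ℝ × ℝ} (h : RotFlow X φ)
    (t s : ℝ) (p : ℝ × ℝ) (α : ℝ) : φ (t + s) p α = φ t (φ s p α) α := by
  have h1 := h.uniq α (fun t => φ (t + s) p α) (fun t => by
    have := (h.deriv p α (t + s)).scomp t ((hasDerivAt_id t).add_const s)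
    simp only [one_smul] at this
    exact this) t
  simpa using h1

lemma norm_rot_le (α : ℝ) (v : ℝ × ℝ) : ‖rot α v‖ ≤ 2 * ‖v‖ := by
  unfold rot
  rw [Prod.norm_def]
  have h1 : |v.1| ≤ ‖v‖ := norm_fst_le v
  have h2 : |v.2| ≤ ‖v‖ := norm_snd_le v
  have hc := Real.abs_cos_le_one α
  have hs := Real.abs_sin_le_one α
  simp only [Real.norm_eq_abs]
  refine max_le ?_ ?_
  · calc |Real.cos α * v.1 - Real.sin α * v.2| ≤ |Real.cos α * v.1| + |Real.sin α * v.2| := by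
          exact abs_sub _ _
      _ ≤ 1 * ‖v‖ + 1 * ‖v‖ := by
          rw [abs_mul, abs_mul]
          gcongr
      _ = 2 * ‖v‖ := by ring
  · calc |Real.sin α * v.1 + Real.cos α * v.2| ≤ |Real.sin α * v.1| + |Real.cos α * v.2| := by
          exact abs_add_le _ _
      _ ≤ 1 * ‖v‖ + 1 * ‖v‖ := by
          rw [abs_mul, abs_mul]
          gcongr
      _ = 2 * ‖v‖ := by ring

lemma rot_sub (α : ℝ) (v w : ℝ × ℝ) : rot α v - rot α w = rot α (v - w) := by
  unfold rot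
  ext <;> simp <;> ring

lemma norm_rot_sub_le (α β : ℝ) (w : ℝ × ℝ) : ‖rot α w - rot β w‖ ≤ 2 * |α - β| * ‖w‖ := by
  unfold rot
  rw [Prod.norm_def]
  have h1 : |w.1| ≤ ‖w‖ := norm_fst_le w
  have h2 : |w.2| ≤ ‖w‖ := norm_snd_le w
  have hc : |Real.cos α - Real.cos β| ≤ |α - β| := Real.abs_cos_sub_cos_le α β
  have hs : |Real.sin α - Real.sin β| ≤ |α - β| := Real.abs_sin_sub_sin_le α β
  simp only [Real.norm_eq_abs, Prod.fst_sub, Prod.snd_sub]
  refine max_le ?_ ?_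
  · calc |Real.cos α * w.1 - Real.sin α * w.2 - (Real.cos β * w.1 - Real.sin β * w.2)|
        = |(Real.cos α - Real.cos β) * w.1 - (Real.sin α - Real.sin β) * w.2| := by ring_nf
      _ ≤ |(Real.cos α - Real.cos β) * w.1| + |(Real.sin α - Real.sin β) * w.2| := abs_sub _ _
      _ ≤ |α - β| * ‖w‖ + |α - β| * ‖w‖ := by
          rw [abs_mul, abs_mul]
          gcongr
      _ = _ := by ring
  · calc |Real.sin α * w.1 + Real.cos α * w.2 - (Real.sin β * w.1 + Real.cos β * w.2)|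
        = |(Real.sin α - Real.sin β) * w.1 + (Real.cos α - Real.cos β) * w.2| := by ring_nf
      _ ≤ |(Real.sin α - Real.sin β) * w.1| + |(Real.cos α - Real.cos β) * w.2| := abs_add_le _ _
      _ ≤ |α - β| * ‖w‖ + |α - β| * ‖w‖ := by
          rw [abs_mul, abs_mul]
          gcongr
      _ = _ := by ring

/-- the suspended field -/
def susp (X : ℝ × ℝ → ℝ × ℝ) (q : (ℝ × ℝ) × ℝ) : (ℝ × ℝ) × ℝ := (rot q.2 (X q.1), 0)

lemma contDiff_susp {X : ℝ × ℝ → ℝ × ℝ} {m : WithTop ℕ∞} (hX : ContDiff ℝ m X) :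
    ContDiff ℝ m (susp X) := by
  unfold susp rot
  have h1 : ContDiff ℝ m fun q : (ℝ × ℝ) × ℝ => X q.1 := hX.comp contDiff_fst
  have h2 : ContDiff ℝ m fun q : (ℝ × ℝ) × ℝ => (X q.1).1 := contDiff_fst.comp h1
  have h3 : ContDiff ℝ m fun q : (ℝ × ℝ) × ℝ => (X q.1).2 := contDiff_snd.comp h1
  have h4 : ContDiff ℝ m fun q : (ℝ × ℝ) × ℝ => Real.cos q.2 := Real.contDiff_cos.comp contDiff_snd
  have h5 : ContDiff ℝ m fun q : (ℝ × ℝ) × ℝ => Real.sin q.2 := Real.contDiff_sin.comp contDiff_snd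
  exact (((h4.mul h2).sub (h5.mul h3)).prodMk ((h5.mul h2).add (h4.mul h3))).prodMk contDiff_const

lemma lipschitz_susp {X : ℝ × ℝ → ℝ × ℝ} {K M : NNReal} (hK : LipschitzWith K X)
    (hM : ∀ x, ‖X x‖ ≤ M) : LipschitzWith (2 * K + 2 * M) (susp X) := by
  refine LipschitzWith.of_dist_le_mul fun p q => ?_
  rw [dist_eq_norm, dist_eq_norm]
  have h1 : ‖X p.1 - X q.1‖ ≤ K * ‖p - q‖ := by
    have := hK.dist_le_mul p.1 q.1
    rw [dist_eq_norm, dist_eq_norm] at this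
    refine this.trans ?_
    gcongr
    exact norm_fst_le (p - q)
  have h2 : |p.2 - q.2| ≤ ‖p - q‖ := norm_snd_le (p - q)
  have h3 : ‖susp X p - susp X q‖ = ‖rot p.2 (X p.1) - rot q.2 (X q.1)‖ := by
    unfold susp
    rw [Prod.norm_def]
    simp
  rw [h3]
  calc ‖rot p.2 (X p.1) - rot q.2 (X q.1)‖
      = ‖rot p.2 (X p.1 - X q.1) + (rot p.2 (X q.1) - rot q.2 (X q.1))‖ := by
        rw [← rot_sub]; congr 1; abel
    _ ≤ 2 * (K * ‖p - q‖) + 2 * ‖p - q‖ * M := by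
        refine (norm_add_le _ _).trans (add_le_add ?_ ?_)
        · exact (norm_rot_le _ _).trans (by gcongr)
        · exact (norm_rot_sub_le _ _ _).trans (by gcongr; exact hM _)
    _ = ((2 * K + 2 * M : NNReal) : ℝ) * ‖p - q‖ := by push_cast; ring

lemma norm_susp_le {X : ℝ × ℝ → ℝ × ℝ} {M : NNReal} (hM : ∀ x, ‖X x‖ ≤ M) (q : (ℝ × ℝ) × ℝ) :
    ‖susp X q‖ ≤ ((2 * M : NNReal) : ℝ) := by
  have : ‖susp X q‖ = ‖rot q.2 (X q.1)‖ := by
    unfold susp; rw [Prod.norm_def]; simp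
  rw [this]
  push_cast
  exact (norm_rot_le _ _).trans (by gcongr; exact hM _)

/-- existence of the smooth flow of the rotated family -/
theorem exists_rotFlow {X : ℝ × ℝ → ℝ × ℝ} (hX : ContDiff ℝ 2 X) {K M : NNReal}
    (hK : LipschitzWith K X) (hM : ∀ x, ‖X x‖ ≤ M) : ∃ φ, RotFlow X φ := by
  have hF := contDiff_susp hX
  have hL := lipschitz_susp hK hM
  have hB := norm_susp_le hM
  choose u hu0 hu using fun x => GR.Flow.exists_solution (X := susp X) hL hB x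
  set g : ℝ → (ℝ × ℝ) × ℝ → (ℝ × ℝ) × ℝ := fun t x => u x t with hg
  have hflow : GR.Flow.IsFlowOf (susp X) g := ⟨fun x => hu0 x, fun x t => hu x t⟩
  have hsm : ContDiff ℝ 2 (fun p : ℝ × (ℝ × ℝ) × ℝ => g p.1 p.2) := by
    have := GR.Flow.contDiff_flow (X := ⟨susp X, hF.continuous⟩) (m := 2) (by norm_num)
      (by simpa using hF) (K := 2 * K + 2 * M) hL (g := g) hflow
    simpa using this
  -- the parameter is constant
  have hpar : ∀ x t, (u x t).2 = x.2 := by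
    intro x t
    have h1 : ∀ t, HasDerivAt (fun t => (u x t).2) 0 t := fun t => by
      have := (ContinuousLinearMap.snd ℝ (ℝ × ℝ) ℝ).hasFDerivAt.comp_hasDerivAt t (hu x t)
      exact this
    have h2 := is_const_of_deriv_eq_zero (fun t => (h1 t).differentiableAt)
      (fun t => (h1 t).deriv) t 0
    simp only [hu0] at h2
    exact h2
  refine ⟨fun t p α => (g t (p, α)).1, ?_, ?_, ?_, ?_⟩
  · intro p α
    simp [hg, hu0]
  · intro p α t
    have := (ContinuousLinearMap.fst ℝ (ℝ × ℝ) ℝ).hasFDerivAt.comp_hasDerivAt t (hu (p, α) t)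
    simp only [susp, ContinuousLinearMap.coe_fst'] at this
    rw [hpar] at this
    exact this
  · exact contDiff_fst.comp hsm
  · intro α γ hγ t
    have h1 : (fun t => (γ t, α)) = u (γ 0, α) := by
      refine ODE_solution_unique_univ (v := fun _ => susp X) (s := fun _ => univ)
        (K := 2 * K + 2 * M) (t₀ := 0)
        (fun t => hL.lipschitzOnWith) (fun t => ⟨?_, trivial⟩) (fun t => ⟨hu _ t, trivial⟩) ?_
      · exact (hγ t).prodMk (hasDerivAt_const t α)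
      · simp [hu0]
    have h2 := congrFun h1 t
    simp only [hg]
    rw [← h2]

end

end Pool.Agent.H709R2
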