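import Pool.Agent.H709R2.MeasN

/-! Integration over the coefficients: rotations, translations. -/

open Real Set MeasureTheory Topology Filter
open scoped ENNReal

namespace Pool.Agent.H709R2

noncomputable section

/-- a subadditivity lemma for cardinalities -/
lemma encard_le_tsum {α ι : Type*} [Countable ι] {s : Set α} {f : ι → Set α}
    (h : s ⊆ ⋃ i, f i) : (s.encard : ℝ≥0∞) ≤ ∑' i, ((f i).encard : ℝ≥0∞) := by
  let _ : MeasurableSpace α := ⊤
  have h1 : ∀ t : Set α, Measure.count t = (t.encard : ℝ≥0∞) := fun t =>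
    Measure.count_apply (MeasurableSpace.measurableSet_top)
  rw [← h1]
  refine (measure_mono h).trans ((measure_iUnion_le _).trans ?_)
  simp only [h1]
  exact le_rfl

lemma measurePreserving_rot (α : ℝ) :
    MeasurePreserving (rot α) (volume : Measure (ℝ × ℝ)) volume := by
  have h1 := Complex.volume_preserving_equiv_real_prod
  have h2 := h1.symm
  have h3 : MeasurePreserving (fun z : ℂ => rotation (Circle.exp α) z) volume volume :=
    (rotation (Circle.exp α)).measurePreserving
  have h4 := h1.comp (h3.comp h2)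
  have h5 : rot α = Complex.measurableEquivRealProd ∘
      (fun z : ℂ => rotation (Circle.exp α) z) ∘ Complex.measurableEquivRealProd.symm := by
    ext v
    · simp only [Function.comp_apply, rotation_apply, Circle.coe_exp, rot,
        Complex.measurableEquivRealProd_apply, Complex.measurableEquivRealProd_symm_apply]
      rw [Complex.mul_re, Complex.exp_ofReal_mul_I_re, Complex.exp_ofReal_mul_I_im]
    · simp only [Function.comp_apply, rotation_apply, Circle.coe_exp, rot,
        Complex.measurableEquivRealProd_apply, Complex.measurableEquivRealProd_symm_apply]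
      rw [Complex.mul_im, Complex.exp_ofReal_mul_I_re, Complex.exp_ofReal_mul_I_im]
      ring
  rw [h5]
  exact h4

variable {S : Finset (ℕ × ℕ)}

lemma measurePreserving_rotc (α : ℝ) :
    MeasurePreserving (rotc α : (S → ℝ × ℝ) → (S → ℝ × ℝ)) volume volume :=
  volume_preserving_pi fun _ => measurePreserving_rot α

/-- rotation invariant bounded set of coefficients -/
def BM (S : Finset (ℕ × ℕ)) (M : ℝ) : Set (S → ℝ × ℝ) := {c | ∀ m, sq (c m) ≤ M ^ 2}

lemma rotc_mem_BM {M α : ℝ} {c : S → ℝ × ℝ} : rotc α c ∈ BM S M ↔ c ∈ BM S M := by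
  unfold BM rotc
  simp only [mem_ofPred_eq, sq_rot]

lemma measurableSet_BM (M : ℝ) : MeasurableSet (BM S M) := by
  have : IsClosed (BM S M) := by
    unfold BM
    simp only [ofPred_forall]
    exact isClosed_iInter fun m => isClosed_le (continuous_sq.comp (continuous_apply m))
      continuous_const
  exact this.measurableSet

lemma norm_le_of_mem_BM {M : ℝ} (hM : 0 ≤ M) {c : S → ℝ × ℝ} (hc : c ∈ BM S M) : ‖c‖ ≤ M := by
  rw [pi_norm_le_iff_of_nonneg hM]
  intro m
  have h1 := (norm_le_sq (c m)).trans (hc m)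
  exact abs_le_of_sq_le_sq' h1 hM |>.2

lemma BM_subset {M : ℝ} (hM : 0 ≤ M) : BM S M ⊆ Metric.closedBall 0 M := fun _ hc =>
  mem_closedBall_zero_iff.2 (norm_le_of_mem_BM hM hc)

lemma continuous_rotc : Continuous fun z : ℝ × (S → ℝ × ℝ) => rotc z.1 z.2 := by
  unfold rotc rot
  refine continuous_pi fun m => ?_
  have h1 : Continuous fun z : ℝ × (S → ℝ × ℝ) => z.2 m := (continuous_apply m).comp continuous_snd
  fun_prop

/-- averaging over rotations -/
lemma lintegral_rot {N : (S → ℝ × ℝ) → ℝ≥0∞} (hN : Measurable N) (M : ℝ) :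
    ENNReal.ofReal π * ∫⁻ c in BM S M, N c =
      ∫⁻ c in BM S M, ∫⁻ α in Ioo 0 π, N (rotc α c) := by
  have hmeas : Measurable fun z : ℝ × (S → ℝ × ℝ) => N (rotc z.1 z.2) :=
    hN.comp continuous_rotc.measurable
  have h1 : ∀ α : ℝ, ∫⁻ c in BM S M, N (rotc α c) = ∫⁻ c in BM S M, N c := by
    intro α
    have h2 := (measurePreserving_rotc (S := S) α).setLIntegral_comp_preimage
      (measurableSet_BM M) hN
    have h3 : rotc α ⁻¹' (BM S M) = BM S M := by
      ext c
      exact rotc_mem_BM
    rw [h3] at h2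
    exact h2
  have h4 := lintegral_lintegral_swap (μ := volume.restrict (BM S M))
    (ν := volume.restrict (Ioo 0 π)) (f := fun c α => N (rotc α c))
    (hmeas.comp measurable_swap).aemeasurable
  rw [h4]
  simp only [h1]
  rw [lintegral_const, Measure.restrict_apply_univ, Real.volume_Ioo, sub_zero, mul_comm]

/-- averaging over translations -/
lemma lintegral_translate {V W : Type*} [NormedAddCommGroup V] [MeasurableSpace V]
    [BorelSpace V] [SecondCountableTopology V]
    {μ : Measure V} [SFinite μ] [μ.IsAddLeftInvariant] [MeasurableSpace W] {ν : Measure W}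
    [SFinite ν] {T : W → V}
    (hT : Measurable T) {J : Set W} (hJ : MeasurableSet J) (hJ1 : ν J = 1)
    {E : Set V} (hE : MeasurableSet E) :
    μ E = ∫⁻ c, ν (J ∩ {τ | T τ + c ∈ E}) ∂μ := by
  have hm : MeasurableSet {z : V × W | T z.2 + z.1 ∈ E} :=
    ((hT.comp measurable_snd).add measurable_fst) hE
  have hm1 : ∀ c, MeasurableSet {τ | T τ + c ∈ E} := fun c =>
    (hT.add measurable_const) hE
  have h1 : ∀ c, ν (J ∩ {τ | T τ + c ∈ E}) = ∫⁻ τ in J, E.indicator 1 (T τ + c) ∂ν := by
    intro c
    have : (fun τ => E.indicator (1 : V → ℝ≥0∞) (T τ + c)) =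
        {τ | T τ + c ∈ E}.indicator 1 := by
      ext τ
      simp only [indicator, mem_ofPred_eq]
      rfl
    rw [this, lintegral_indicator_one (hm1 c), Measure.restrict_apply (hm1 c), inter_comm]
  simp only [h1]
  rw [lintegral_lintegral_swap]
  · have h2 : ∀ τ, ∫⁻ c, E.indicator (1 : V → ℝ≥0∞) (T τ + c) ∂μ = μ E := by
      intro τ
      rw [lintegral_add_left_eq_self (fun c => E.indicator (1 : V → ℝ≥0∞) c) (T τ),
        lintegral_indicator_one hE]
    simp only [h2]
    rw [lintegral_const, Measure.restrict_apply_univ, hJ1, mul_one]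
  · have h3 : (Function.uncurry fun (c : V) (τ : W) => E.indicator (1 : V → ℝ≥0∞) (T τ + c)) =
        {z : V × W | T z.2 + z.1 ∈ E}.indicator 1 := by
      ext z
      simp only [indicator, mem_ofPred_eq, Function.uncurry]
      rfl
    rw [h3]
    exact (measurable_one.indicator hm).aemeasurable

/-- volume bound by slicing -/
lemma volume_le_slice {V W : Type*} [NormedAddCommGroup V] [MeasurableSpace V]
    [BorelSpace V] [SecondCountableTopology V]
    {μ : Measure V} [SFinite μ] [μ.IsAddLeftInvariant] [MeasurableSpace W] {ν : Measure W}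
    [SFinite ν] {T : W → V}
    (hT : Measurable T) {J : Set W} (hJ : MeasurableSet J) (hJ1 : ν J = 1)
    {E B : Set V} (hE : MeasurableSet E) (hB : MeasurableSet B)
    {β : ℝ≥0∞} (h1 : ∀ c, ∀ τ ∈ J, T τ + c ∈ E → c ∈ B)
    (h2 : ∀ c ∈ B, ν (J ∩ {τ | T τ + c ∈ E}) ≤ β) :
    μ E ≤ β * μ B := by
  rw [lintegral_translate hT hJ hJ1 hE]
  calc ∫⁻ c, ν (J ∩ {τ | T τ + c ∈ E}) ∂μ ≤ ∫⁻ c, B.indicator (fun _ => β) c ∂μ := by
        refine lintegral_mono fun c => ?_
        by_cases hc : c ∈ B
        · rw [indicator_of_mem hc]; exact h2 c hc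
        · rw [indicator_of_notMem hc]
          have : J ∩ {τ | T τ + c ∈ E} = ∅ := by
            ext τ
            simp only [mem_inter_iff, mem_ofPred_eq, mem_empty_iff_false, iff_false, not_and]
            intro hτ hτ2
            exact hc (h1 c τ hτ hτ2)
          rw [this, measure_empty]
    _ = β * μ B := by rw [lintegral_indicator hB, setLIntegral_const]

end

end Pool.Agent.H709R2
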