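import Pool.Agent.H709R2.ThmA

/-! Closed orbits of almost linear planar systems: pointwise arguments. -/

open Real Set MeasureTheory Topology Filter
open scoped ENNReal

namespace Pool.Agent.H709R2

noncomputable section

/-- a continuous periodic function attains its maximum -/
lemma exists_max_periodic {f : ℝ → ℝ} (hf : Continuous f) {T : ℝ} (hT : 0 < T)
    (hper : Function.Periodic f T) : ∃ t, ∀ s, f s ≤ f t := by
  obtain ⟨t, -, ht⟩ := isCompact_Icc.exists_isMaxOn (s := Icc 0 T) ⟨0, le_rfl, hT.le⟩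
    hf.continuousOn
  refine ⟨t, fun s => ?_⟩
  obtain ⟨y, hy, hy2⟩ := hper.exists_mem_Ico₀ hT s
  rw [hy2]
  exact ht ⟨hy.1, hy.2.le⟩

lemma cs2 (a b c d : ℝ) : (a * c + b * d) ^ 2 ≤ (a ^ 2 + b ^ 2) * (c ^ 2 + d ^ 2) := by
  nlinarith [sq_nonneg (a * d - b * c)]

section Lin

variable {b₁ b₂ b₃ b₄ : ℝ} {y V : ℝ → ℝ × ℝ}

/-- squared Frobenius norm -/
def fro (b₁ b₂ b₃ b₄ : ℝ) : ℝ := b₁ ^ 2 + b₂ ^ 2 + b₃ ^ 2 + b₄ ^ 2

/-- the linear map with matrix `b₁ b₂ / b₃ b₄` -/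
def lin (b₁ b₂ b₃ b₄ : ℝ) (y : ℝ × ℝ) : ℝ × ℝ := (b₁ * y.1 + b₂ * y.2, b₃ * y.1 + b₄ * y.2)

lemma adj_le (b₁ b₂ b₃ b₄ p q : ℝ) : (b₄ * p - b₂ * q) ^ 2 + (-b₃ * p + b₁ * q) ^ 2 ≤
    fro b₁ b₂ b₃ b₄ * (p ^ 2 + q ^ 2) := by
  have : fro b₁ b₂ b₃ b₄ * (p ^ 2 + q ^ 2) - ((b₄ * p - b₂ * q) ^ 2 + (-b₃ * p + b₁ * q) ^ 2) =
      (b₄ * q + b₂ * p) ^ 2 + (b₃ * q + b₁ * p) ^ 2 := by unfold fro; ring
  have h2 : 0 ≤ (b₄ * q + b₂ * p) ^ 2 + (b₃ * q + b₁ * p) ^ 2 := by positivity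
  linarith

lemma sq_nonneg' (v : ℝ × ℝ) : 0 ≤ sq v := by unfold sq; positivity

/-- focus/node/centre case: the trace is small if there is a closed orbit -/
lemma trace_small (hV : ∀ t, HasDerivAt y (V t) t) {T ε : ℝ} (hT : 0 < T)
    (hper : Function.Periodic y T)
    (he : ∀ t, sq (V t - lin b₁ b₂ b₃ b₄ (y t)) ≤ ε ^ 2)
    (hD : 0 < b₁ * b₄ - b₂ * b₃) (t₀ : ℝ) :
    (b₁ * b₄ - b₂ * b₃) ^ 3 * (b₁ + b₄) ^ 2 * sq (y t₀) ≤
      ((b₁ * b₄ - b₂ * b₃) + fro b₁ b₂ b₃ b₄) ^ 3 * ε ^ 2 := by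
  set D := b₁ * b₄ - b₂ * b₃ with hDdef
  set N := fro b₁ b₂ b₃ b₄ with hN
  have hN0 : 0 ≤ N := by rw [hN]; unfold fro; positivity
  set f : ℝ → ℝ := fun t => D * ((y t).1 ^ 2 + (y t).2 ^ 2) +
    ((b₄ * (y t).1 - b₂ * (y t).2) ^ 2 + (-b₃ * (y t).1 + b₁ * (y t).2) ^ 2) with hf
  have h1 : ∀ t, HasDerivAt (fun t => (y t).1) (V t).1 t := fun t =>
    (ContinuousLinearMap.fst ℝ ℝ ℝ).hasFDerivAt.comp_hasDerivAt t (hV t)
  have h2 : ∀ t, HasDerivAt (fun t => (y t).2) (V t).2 t := fun t =>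
    (ContinuousLinearMap.snd ℝ ℝ ℝ).hasFDerivAt.comp_hasDerivAt t (hV t)
  have hfd : ∀ t, HasDerivAt f (D * (2 * (y t).1 * (V t).1 + 2 * (y t).2 * (V t).2) +
      (2 * (b₄ * (y t).1 - b₂ * (y t).2) * (b₄ * (V t).1 - b₂ * (V t).2) +
        2 * (-b₃ * (y t).1 + b₁ * (y t).2) * (-b₃ * (V t).1 + b₁ * (V t).2))) t := by
    intro t
    have e1 := (((h1 t).pow 2).add ((h2 t).pow 2)).const_mul D
    have e2 := (((h1 t).const_mul b₄).sub ((h2 t).const_mul b₂)).pow 2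
    have e3 := (((h1 t).const_mul (-b₃)).add ((h2 t).const_mul b₁)).pow 2
    refine (e1.add (e2.add e3)).congr_deriv ?_
    simp
  have hfc : Continuous f := continuous_iff_continuousAt.2 fun t => (hfd t).continuousAt
  have hfp : Function.Periodic f T := fun t => by simp only [hf]; rw [hper t]
  obtain ⟨t, ht⟩ := exists_max_periodic hfc hT hfp
  have hcrit := IsLocalMax.hasDerivAt_eq_zero (Eventually.of_forall ht) (hfd t)
  have hmax := ht t₀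
  simp only [hf] at hmax
  have het := he t
  unfold sq lin at het
  simp only [Prod.fst_sub, Prod.snd_sub] at het
  set p := (y t).1
  set q := (y t).2
  set u := (V t).1 - (b₁ * p + b₂ * q) with hu
  set v := (V t).2 - (b₃ * p + b₄ * q) with hv
  have hV1 : (V t).1 = b₁ * p + b₂ * q + u := by rw [hu]; ring
  have hV2 : (V t).2 = b₃ * p + b₄ * q + v := by rw [hv]; ring
  rw [hV1, hV2] at hcrit
  -- critical point equation
  have hcr : D * (b₁ + b₄) * (p ^ 2 + q ^ 2) = -(D * (p * u + q * v) +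
      ((b₄ * p - b₂ * q) * (b₄ * u - b₂ * v) + (-b₃ * p + b₁ * q) * (-b₃ * u + b₁ * v))) := by
    rw [hDdef] at hcrit ⊢
    linear_combination (1/2) * hcrit
  set s := p ^ 2 + q ^ 2 with hs
  have hs0 : 0 ≤ s := by positivity
  set w := u ^ 2 + v ^ 2 with hw
  have hw0 : 0 ≤ w := by positivity
  have hwε : w ≤ ε ^ 2 := het
  set r := √(s * w) with hr
  have hr0 : 0 ≤ r := Real.sqrt_nonneg _
  have hr2 : r ^ 2 = s * w := Real.sq_sqrt (by positivity)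
  have hb1 : |p * u + q * v| ≤ r := by
    apply Real.abs_le_sqrt
    exact cs2 _ _ _ _
  have hc1 : (b₄ * p - b₂ * q) ^ 2 + (-b₃ * p + b₁ * q) ^ 2 ≤ N * s := by
    exact adj_le _ _ _ _ _ _
  have hc2 : (b₄ * u - b₂ * v) ^ 2 + (-b₃ * u + b₁ * v) ^ 2 ≤ N * w := by
    exact adj_le _ _ _ _ _ _
  have hb2 : |(b₄ * p - b₂ * q) * (b₄ * u - b₂ * v) +
      (-b₃ * p + b₁ * q) * (-b₃ * u + b₁ * v)| ≤ N * r := by
    have : N * r = √((N * s) * (N * w)) := by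
      rw [show (N * s) * (N * w) = N ^ 2 * (s * w) by ring, Real.sqrt_mul (by positivity),
        Real.sqrt_sq hN0]
    rw [this]
    apply Real.abs_le_sqrt
    exact le_trans (cs2 _ _ _ _) (mul_le_mul hc1 hc2 (by positivity) (by positivity))
  have hb3 : (D * (b₁ + b₄) * s) ^ 2 ≤ (D + N) ^ 2 * (s * w) := by
    have h6 : |D * (b₁ + b₄) * s| ≤ (D + N) * r := by
      rw [hcr, abs_neg, show (D + N) * r = D * r + N * r by ring]
      refine (abs_add_le _ _).trans ?_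
      rw [abs_mul, abs_of_pos hD]
      exact add_le_add (mul_le_mul_of_nonneg_left hb1 hD.le) hb2
    rw [← hr2, ← mul_pow, ← sq_abs]
    exact pow_le_pow_left₀ (abs_nonneg _) h6 2
  have hDN : 0 < D + N := by linarith
  have hmax2 : D * sq (y t₀) ≤ (D + N) * s := by
    calc D * sq (y t₀) ≤ D * ((y t₀).1 ^ 2 + (y t₀).2 ^ 2) +
          ((b₄ * (y t₀).1 - b₂ * (y t₀).2) ^ 2 + (-b₃ * (y t₀).1 + b₁ * (y t₀).2) ^ 2) := by
          unfold sq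
          have : 0 ≤ (b₄ * (y t₀).1 - b₂ * (y t₀).2) ^ 2 + (-b₃ * (y t₀).1 + b₁ * (y t₀).2) ^ 2 := by
            positivity
          linarith
      _ ≤ D * s + ((b₄ * p - b₂ * q) ^ 2 + (-b₃ * p + b₁ * q) ^ 2) := hmax
      _ ≤ D * s + N * s := by linarith
      _ = (D + N) * s := by ring
  by_cases hs1 : s = 0
  · rw [hs1, mul_zero] at hmax2
    have : sq (y t₀) = 0 := by
      have h7 := sq_nonneg' (y t₀)
      have h8 : sq (y t₀) ≤ 0 := by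
        by_contra hc
        exact absurd hmax2 (not_le.2 (mul_pos hD (not_le.1 hc)))
      exact le_antisymm h8 h7
    rw [this, mul_zero]
    positivity
  have hspos : 0 < s := lt_of_le_of_ne hs0 (Ne.symm hs1)
  have hb4 : D ^ 2 * (b₁ + b₄) ^ 2 * s ≤ (D + N) ^ 2 * w := by
    have h5 : s * (D ^ 2 * (b₁ + b₄) ^ 2 * s) ≤ s * ((D + N) ^ 2 * w) := by
      calc s * (D ^ 2 * (b₁ + b₄) ^ 2 * s) = (D * (b₁ + b₄) * s) ^ 2 := by ring
        _ ≤ _ := hb3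
        _ = _ := by ring
    exact le_of_mul_le_mul_left h5 hspos
  calc D ^ 3 * (b₁ + b₄) ^ 2 * sq (y t₀) = D ^ 2 * (b₁ + b₄) ^ 2 * (D * sq (y t₀)) := by ring
    _ ≤ D ^ 2 * (b₁ + b₄) ^ 2 * ((D + N) * s) := by gcongr
    _ = (D + N) * (D ^ 2 * (b₁ + b₄) ^ 2 * s) := by ring
    _ ≤ (D + N) * ((D + N) ^ 2 * w) := by gcongr
    _ ≤ (D + N) * ((D + N) ^ 2 * ε ^ 2) := by gcongr
    _ = _ := by ring

lemma stay_far (hV : ∀ t, HasDerivAt y (V t) t) (hVc : Continuous V) {v ρ t₀ t : ℝ} (hv : 0 < v)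
    (hρ : 0 < ρ) (hvV : ∀ t, sq (V t) ≤ v ^ 2) (h0 : ρ ^ 2 ≤ sq (y t₀)) (ht₀ : t₀ ≤ t)
    (ht : t - t₀ ≤ ρ / (2 * v)) : ρ ^ 2 / 4 ≤ sq (y t) := by
  have h1 := dist_le_len hV hVc ht₀
  have h2 : ∫ t in t₀..t, √(sq (V t)) ≤ ∫ t in t₀..t, v := by
    refine intervalIntegral.integral_mono_on ht₀
      (((continuous_sq.comp hVc).sqrt).intervalIntegrable _ _) (by simp) fun t _ => ?_
    exact Real.sqrt_le_iff.2 ⟨hv.le, hvV t⟩
  rw [intervalIntegral.integral_const, smul_eq_mul] at h2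
  have h3 : √(sq (y t - y t₀)) ≤ ρ / 2 := by
    refine h1.trans (h2.trans ?_)
    calc (t - t₀) * v ≤ ρ / (2 * v) * v := by gcongr
      _ = ρ / 2 := by field_simp
  have h4 : sq (y t - y t₀) ≤ (ρ / 2) ^ 2 := by
    have := Real.sqrt_le_iff.1 h3
    exact this.2
  have h5 : sq (y t₀) ≤ 2 * sq (y t) + 2 * sq (y t - y t₀) := by
    unfold sq
    simp only [Prod.fst_sub, Prod.snd_sub]
    nlinarith [sq_nonneg (2 * (y t).1 - (y t₀).1), sq_nonneg (2 * (y t).2 - (y t₀).2)]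
  nlinarith

/-- saddle case: there is no closed orbit -/
lemma no_saddle (hV : ∀ t, HasDerivAt y (V t) t) (hVc : Continuous V) {T ε g v ρ : ℝ} (hT : 0 < T)
    (hper : Function.Periodic y T) (hε : 0 ≤ ε)
    (he : ∀ t, sq (V t - lin b₁ b₂ b₃ b₄ (y t)) ≤ ε ^ 2)
    (hD : b₁ * b₄ - b₂ * b₃ < 0) (hg : 0 ≤ g)
    (hg2 : fro b₁ b₂ b₃ b₄ - 2 * (b₁ * b₄ - b₂ * b₃) ≤ g ^ 2)
    (hv : 0 < v) (hρ : 0 < ρ) (hvV : ∀ t, sq (V t) ≤ v ^ 2) {t₀ : ℝ} (h0 : ρ ^ 2 ≤ sq (y t₀))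
    (h1 : g * ε ≤ -(b₁ * b₄ - b₂ * b₃) * ρ / 4)
    (h2 : 16 * g ^ 3 * ε ^ 2 * v < ρ ^ 3 * (-(b₁ * b₄ - b₂ * b₃)) ^ 3) : False := by
  set E := -(b₁ * b₄ - b₂ * b₃) with hEdef
  have hE : 0 < E := by rw [hEdef]; linarith
  set G₁ := b₁ - b₄ with hG1
  set G₂ := b₂ + b₃ with hG2
  have hG : G₁ ^ 2 + G₂ ^ 2 ≤ g ^ 2 := by
    refine le_trans (le_of_eq ?_) hg2
    rw [hG1, hG2]; unfold fro; ring
  -- the function W
  set W : ℝ → ℝ := fun t => G₁ * ((y t).1 ^ 2 - (y t).2 ^ 2) + 2 * G₂ * ((y t).1 * (y t).2) with hW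
  set W' : ℝ → ℝ := fun t => 2 * G₁ * ((y t).1 * (V t).1 - (y t).2 * (V t).2) +
    2 * G₂ * ((V t).1 * (y t).2 + (y t).1 * (V t).2) with hW'
  have d1 : ∀ t, HasDerivAt (fun t => (y t).1) (V t).1 t := fun t =>
    (ContinuousLinearMap.fst ℝ ℝ ℝ).hasFDerivAt.comp_hasDerivAt t (hV t)
  have d2 : ∀ t, HasDerivAt (fun t => (y t).2) (V t).2 t := fun t =>
    (ContinuousLinearMap.snd ℝ ℝ ℝ).hasFDerivAt.comp_hasDerivAt t (hV t)
  have hWd : ∀ t, HasDerivAt W (W' t) t := by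
    intro t
    have e1 := ((((d1 t).pow 2).sub ((d2 t).pow 2)).const_mul G₁).add
      (((d1 t).mul (d2 t)).const_mul (2 * G₂))
    refine e1.congr_deriv ?_
    simp only [hW']
    simp
    ring
  have hyc : Continuous y := continuous_iff_continuousAt.2 fun t => (hV t).continuousAt
  have hWc : Continuous W := continuous_iff_continuousAt.2 fun t => (hWd t).continuousAt
  have hW'c : Continuous W' := by simp only [hW']; fun_prop
  have hWp : Function.Periodic W T := fun t => by simp only [hW]; rw [hper t]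
  -- lower bound of the derivative
  have hlow : ∀ t, 2 * E * sq (y t) - 2 * (g * √(sq (y t)) * ε) ≤ W' t := by
    intro t
    have het := he t
    unfold sq lin at het
    simp only [Prod.fst_sub, Prod.snd_sub] at het
    simp only [hW']
    unfold sq
    set p := (y t).1
    set q := (y t).2
    set u := (V t).1 - (b₁ * p + b₂ * q) with hu
    set w := (V t).2 - (b₃ * p + b₄ * q) with hw
    have hV1 : (V t).1 = b₁ * p + b₂ * q + u := by rw [hu]; ring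
    have hV2 : (V t).2 = b₃ * p + b₄ * q + w := by rw [hw]; ring
    rw [hV1, hV2]
    have e1 : 2 * G₁ * (p * (b₁ * p + b₂ * q + u) - q * (b₃ * p + b₄ * q + w)) +
        2 * G₂ * ((b₁ * p + b₂ * q + u) * q + p * (b₃ * p + b₄ * q + w)) =
        2 * ((b₁ * p + b₂ * q) ^ 2 + (b₃ * p + b₄ * q) ^ 2) + 2 * E * (p ^ 2 + q ^ 2) +
        2 * ((G₁ * p + G₂ * q) * u + (G₂ * p - G₁ * q) * w) := by
      rw [hG1, hG2, hEdef]; ring
    rw [e1]
    have e2 : |(G₁ * p + G₂ * q) * u + (G₂ * p - G₁ * q) * w| ≤ g * √(p ^ 2 + q ^ 2) * ε := by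
      have e3 : g * √(p ^ 2 + q ^ 2) * ε = √((g ^ 2 * (p ^ 2 + q ^ 2)) * ε ^ 2) := by
        rw [Real.sqrt_mul (by positivity), Real.sqrt_sq hε, Real.sqrt_mul (by positivity),
          Real.sqrt_sq hg]
      rw [e3]
      apply Real.abs_le_sqrt
      refine (cs2 _ _ _ _).trans ?_
      refine mul_le_mul ?_ het (by positivity) (by positivity)
      calc (G₁ * p + G₂ * q) ^ 2 + (G₂ * p - G₁ * q) ^ 2 = (G₁ ^ 2 + G₂ ^ 2) * (p ^ 2 + q ^ 2) := by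
            ring
        _ ≤ _ := by gcongr
    have e4 := (abs_le.1 e2).1
    have e5 : 0 ≤ (b₁ * p + b₂ * q) ^ 2 + (b₃ * p + b₄ * q) ^ 2 := by positivity
    linarith
  -- |W| ≤ g |y|²
  have hWle : ∀ t, |W t| ≤ g * sq (y t) := by
    intro t
    have e3 : g * sq (y t) = √(g ^ 2 * (sq (y t)) ^ 2) := by
      rw [Real.sqrt_mul (by positivity), Real.sqrt_sq hg, Real.sqrt_sq (sq_nonneg' _)]
    rw [e3]
    apply Real.abs_le_sqrt
    simp only [hW]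
    unfold sq
    calc (G₁ * ((y t).1 ^ 2 - (y t).2 ^ 2) + 2 * G₂ * ((y t).1 * (y t).2)) ^ 2
        = (G₁ * ((y t).1 ^ 2 - (y t).2 ^ 2) + G₂ * (2 * ((y t).1 * (y t).2))) ^ 2 := by ring
      _ ≤ (G₁ ^ 2 + G₂ ^ 2) * (((y t).1 ^ 2 - (y t).2 ^ 2) ^ 2 + (2 * ((y t).1 * (y t).2)) ^ 2) :=
          cs2 _ _ _ _
      _ = (G₁ ^ 2 + G₂ ^ 2) * ((y t).1 ^ 2 + (y t).2 ^ 2) ^ 2 := by ring
      _ ≤ _ := by gcongr
  -- at critical points
  have hcrit : ∀ t, W' t = 0 → E ^ 2 * |W t| ≤ g ^ 3 * ε ^ 2 := by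
    intro t ht
    have e1 := hlow t
    rw [ht] at e1
    set r := √(sq (y t)) with hr
    have hr0 : 0 ≤ r := Real.sqrt_nonneg _
    have hr2 : sq (y t) = r ^ 2 := (Real.sq_sqrt (sq_nonneg' _)).symm
    rw [hr2] at e1
    have e2 : r * (E * r) ≤ r * (g * ε) := by nlinarith
    have e3 : E * r ≤ g * ε := by
      by_cases hr1 : r = 0
      · rw [hr1]; simp; positivity
      · exact le_of_mul_le_mul_left e2 (lt_of_le_of_ne hr0 (Ne.symm hr1))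
    calc E ^ 2 * |W t| ≤ E ^ 2 * (g * r ^ 2) := by
          rw [← hr2]; exact mul_le_mul_of_nonneg_left (hWle t) (by positivity)
      _ = g * (E * r) ^ 2 := by ring
      _ ≤ g * (g * ε) ^ 2 := by gcongr
      _ = _ := by ring
  have hbound : ∀ t, E ^ 2 * |W t| ≤ g ^ 3 * ε ^ 2 := by
    intro t
    obtain ⟨a, ha⟩ := exists_max_periodic hWc hT hWp
    obtain ⟨b, hb⟩ := exists_max_periodic (f := fun t => -W t) hWc.neg hT
      (fun t => by simp only; rw [hWp t])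
    have ca := IsLocalMax.hasDerivAt_eq_zero (Eventually.of_forall ha) (hWd a)
    have cb := IsLocalMax.hasDerivAt_eq_zero (Eventually.of_forall hb) (hWd b).neg
    have c1 := hcrit a ca
    have c2 := hcrit b (by simpa using cb)
    have c3 : |W t| ≤ max |W a| |W b| := by
      rw [abs_le]
      constructor
      · have := hb t
        have h5 := neg_abs_le (W b)
        have h6 := le_max_right |W a| |W b|
        linarith
      · have := ha t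
        have h5 := le_abs_self (W a)
        have h6 := le_max_left |W a| |W b|
        linarith
    calc E ^ 2 * |W t| ≤ E ^ 2 * max |W a| |W b| := by gcongr
      _ = max (E ^ 2 * |W a|) (E ^ 2 * |W b|) := mul_max_of_nonneg _ _ (by positivity)
      _ ≤ _ := max_le c1 c2
  -- growth
  set τ := ρ / (2 * v) with hτ
  have hτ0 : 0 < τ := by positivity
  have hgrow : ∀ t ∈ Icc t₀ (t₀ + τ), E * ρ ^ 2 / 4 ≤ W' t := by
    intro t ht
    have f1 := stay_far hV hVc hv hρ hvV h0 ht.1 (by linarith [ht.2])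
    have f2 := hlow t
    set r := √(sq (y t)) with hr
    have hr0 : 0 ≤ r := Real.sqrt_nonneg _
    have hr2 : sq (y t) = r ^ 2 := (Real.sq_sqrt (sq_nonneg' _)).symm
    rw [hr2] at f1 f2
    have hr3 : ρ / 2 ≤ r := by
      apply le_of_sq_le_sq _ hr0
      linarith [f1, show (ρ / 2) ^ 2 = ρ ^ 2 / 4 by ring]
    have f3 : g * ε ≤ E * r / 2 := by
      calc g * ε ≤ E * ρ / 4 := h1
        _ = E * (ρ / 2) / 2 := by ring
        _ ≤ E * r / 2 := by gcongr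
    have f4 : r * (g * ε) ≤ r * (E * r / 2) := mul_le_mul_of_nonneg_left f3 hr0
    have f5 : E * (ρ ^ 2 / 4) ≤ E * r ^ 2 := by gcongr
    nlinarith
  have hint : τ * (E * ρ ^ 2 / 4) ≤ W (t₀ + τ) - W t₀ := by
    rw [← intervalIntegral.integral_eq_sub_of_hasDerivAt (fun t _ => hWd t)
      (hW'c.intervalIntegrable _ _)]
    have : τ * (E * ρ ^ 2 / 4) = ∫ t in t₀..(t₀ + τ), E * ρ ^ 2 / 4 := by
      rw [intervalIntegral.integral_const, smul_eq_mul]; ring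
    rw [this]
    exact intervalIntegral.integral_mono_on (by linarith) (by simp)
      (hW'c.intervalIntegrable _ _) fun t ht => hgrow t ht
  have k1 := hbound (t₀ + τ)
  have k2 := hbound t₀
  have k3 : W (t₀ + τ) - W t₀ ≤ |W (t₀ + τ)| + |W t₀| := by
    have := le_abs_self (W (t₀ + τ))
    have := neg_abs_le (W t₀)
    linarith
  have k4 : E ^ 2 * (τ * (E * ρ ^ 2 / 4)) ≤ 2 * (g ^ 3 * ε ^ 2) := by
    calc E ^ 2 * (τ * (E * ρ ^ 2 / 4)) ≤ E ^ 2 * (|W (t₀ + τ)| + |W t₀|) := by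
          gcongr; exact hint.trans k3
      _ = E ^ 2 * |W (t₀ + τ)| + E ^ 2 * |W t₀| := by ring
      _ ≤ _ := by linarith
  have k5 : E ^ 2 * (τ * (E * ρ ^ 2 / 4)) * (8 * v) = ρ ^ 3 * E ^ 3 := by
    rw [hτ]; field_simp; ring
  have k6 : ρ ^ 3 * E ^ 3 ≤ 2 * (g ^ 3 * ε ^ 2) * (8 * v) := by
    rw [← k5]; gcongr
  linarith

/-- lower bound for the integral of the squared speed -/
lemma action_ge (hV : ∀ t, HasDerivAt y (V t) t) (hVc : Continuous V) {T ε v ρ N : ℝ}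
    (he : ∀ t, sq (V t - lin b₁ b₂ b₃ b₄ (y t)) ≤ ε ^ 2)
    (hN : fro b₁ b₂ b₃ b₄ ≤ N) (hN0 : 0 < N)
    (hv : 0 < v) (hρ : 0 < ρ) (hvV : ∀ t, sq (V t) ≤ v ^ 2) {t₀ : ℝ} (h0 : ρ ^ 2 ≤ sq (y t₀))
    (hT : ρ / (2 * v) ≤ T)
    (h1 : 16 * N * ε ^ 2 ≤ (b₁ * b₄ - b₂ * b₃) ^ 2 * ρ ^ 2) :
    (b₁ * b₄ - b₂ * b₃) ^ 2 * ρ ^ 3 / (32 * N * v) ≤ ∫ t in t₀..(t₀ + T), sq (V t) := by
  set D := b₁ * b₄ - b₂ * b₃ with hD
  set τ := ρ / (2 * v) with hτ
  have hτ0 : 0 < τ := by positivity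
  have hi : ∀ a b : ℝ, IntervalIntegrable (fun t => sq (V t)) volume a b := fun a b =>
    (continuous_sq.comp hVc).intervalIntegrable _ _
  have hlow : ∀ t ∈ Icc t₀ (t₀ + τ), D ^ 2 * ρ ^ 2 / (16 * N) ≤ sq (V t) := by
    intro t ht
    have f1 := stay_far hV hVc hv hρ hvV h0 ht.1 (by linarith [ht.2])
    have f2 : D ^ 2 * sq (y t) ≤ N * sq (lin b₁ b₂ b₃ b₄ (y t)) := by
      have a1 := adj_le b₁ b₂ b₃ b₄ (lin b₁ b₂ b₃ b₄ (y t)).1 (lin b₁ b₂ b₃ b₄ (y t)).2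
      have a2 : (b₄ * (lin b₁ b₂ b₃ b₄ (y t)).1 - b₂ * (lin b₁ b₂ b₃ b₄ (y t)).2) ^ 2 +
          (-b₃ * (lin b₁ b₂ b₃ b₄ (y t)).1 + b₁ * (lin b₁ b₂ b₃ b₄ (y t)).2) ^ 2 =
          D ^ 2 * sq (y t) := by
        rw [hD]; unfold lin sq; ring
      rw [a2] at a1
      refine a1.trans ?_
      have a3 : 0 ≤ sq (lin b₁ b₂ b₃ b₄ (y t)) := sq_nonneg' _
      calc fro b₁ b₂ b₃ b₄ * ((lin b₁ b₂ b₃ b₄ (y t)).1 ^ 2 + (lin b₁ b₂ b₃ b₄ (y t)).2 ^ 2)
          = fro b₁ b₂ b₃ b₄ * sq (lin b₁ b₂ b₃ b₄ (y t)) := rfl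
        _ ≤ _ := by gcongr
    have f3 : sq (lin b₁ b₂ b₃ b₄ (y t)) ≤ 2 * sq (V t) + 2 * ε ^ 2 := by
      have a4 := he t
      have a5 : sq (lin b₁ b₂ b₃ b₄ (y t)) ≤ 2 * sq (V t) +
          2 * sq (V t - lin b₁ b₂ b₃ b₄ (y t)) := by
        set z := lin b₁ b₂ b₃ b₄ (y t)
        unfold sq
        simp only [Prod.fst_sub, Prod.snd_sub]
        nlinarith [sq_nonneg (2 * (V t).1 - z.1), sq_nonneg (2 * (V t).2 - z.2)]
      linarith
    rw [div_le_iff₀ (by positivity)]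
    have f4 : D ^ 2 * (ρ ^ 2 / 4) ≤ N * (2 * sq (V t) + 2 * ε ^ 2) := by
      calc D ^ 2 * (ρ ^ 2 / 4) ≤ D ^ 2 * sq (y t) := by gcongr
        _ ≤ _ := f2
        _ ≤ _ := by gcongr
    nlinarith
  have h2 : ∫ t in t₀..(t₀ + T), sq (V t) =
      (∫ t in t₀..(t₀ + τ), sq (V t)) + ∫ t in (t₀ + τ)..(t₀ + T), sq (V t) :=
    (intervalIntegral.integral_add_adjacent_intervals (hi _ _) (hi _ _)).symm
  have h3 : 0 ≤ ∫ t in (t₀ + τ)..(t₀ + T), sq (V t) :=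
    intervalIntegral.integral_nonneg (by linarith) fun t _ => sq_nonneg' _
  have h4 : τ * (D ^ 2 * ρ ^ 2 / (16 * N)) ≤ ∫ t in t₀..(t₀ + τ), sq (V t) := by
    have : τ * (D ^ 2 * ρ ^ 2 / (16 * N)) = ∫ t in t₀..(t₀ + τ), D ^ 2 * ρ ^ 2 / (16 * N) := by
      rw [intervalIntegral.integral_const, smul_eq_mul]; ring
    rw [this]
    exact intervalIntegral.integral_mono_on (by linarith) (by simp) (hi _ _) fun t ht => hlow t ht
  have h5 : τ * (D ^ 2 * ρ ^ 2 / (16 * N)) = D ^ 2 * ρ ^ 3 / (32 * N * v) := by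
    rw [hτ]; field_simp; ring
  rw [h2, ← h5]
  linarith

end Lin

end

end Pool.Agent.H709R2
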