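import Pool.Agent.H709R2.Param

/-! The number of closed orbits is a Borel function of the coefficients. -/

open Real Set MeasureTheory Topology Filter
open scoped ENNReal

namespace Pool.Agent.H709R2

noncomputable section

variable {S : Finset (ℕ × ℕ)}

/-- a continuous parametrised flow, valid for bounded parameters and positions -/
lemma exists_parFlow (S : Finset (ℕ × ℕ)) (M R : ℝ) :
    ∃ u : ℝ → ℝ × ℝ → (S → ℝ × ℝ) → ℝ × ℝ,
      Continuous (fun z : ℝ × (ℝ × ℝ) × (S → ℝ × ℝ) => u z.1 z.2.1 z.2.2) ∧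
      (∀ p c, u 0 p c = p) ∧
      (∀ c, ‖c‖ ≤ M → ∀ p, (∀ s, ‖u s p c‖ ≤ R) →
        ∀ t, HasDerivAt (fun t => u t p c) (fld c (u t p c)) t) ∧
      (∀ c, ‖c‖ ≤ M → ∀ γ : ℝ → ℝ × ℝ, (∀ t, HasDerivAt γ (fld c (γ t)) t) →
        (∀ t, ‖γ t‖ ≤ R) → ∀ t, γ t = u t (γ 0) c) := by
  set r := max (max M R) 0 with hr
  let χ : ContDiffBump (0 : (ℝ × ℝ) × (S → ℝ × ℝ)) := ⟨r + 1, r + 2, by positivity, by linarith⟩
  set Y : (ℝ × ℝ) × (S → ℝ × ℝ) → (ℝ × ℝ) × (S → ℝ × ℝ) :=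
    fun z => χ z • (fld z.2 z.1, (0 : S → ℝ × ℝ)) with hY
  have hYs : ContDiff ℝ 1 Y := by
    have h1 : ContDiff ℝ 1 (fun z : (ℝ × ℝ) × (S → ℝ × ℝ) => fld z.2 z.1) :=
      contDiff_joint.comp (contDiff_snd.prodMk contDiff_fst)
    exact (χ.contDiff).smul (h1.prodMk contDiff_const)
  have hYc : HasCompactSupport Y := χ.hasCompactSupport.smul_right
  obtain ⟨K, hK⟩ := hYs.lipschitzWith_of_hasCompactSupport hYc (by norm_num)
  obtain ⟨B, hB⟩ := hYc.exists_bound_of_continuous hYs.continuous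
  have hB' : ∀ x, ‖Y x‖ ≤ ((⟨max B 0, le_max_right _ _⟩ : NNReal) : ℝ) :=
    fun x => (hB x).trans (le_max_left _ _)
  choose v hv0 hv using fun x => GR.Flow.exists_solution hK hB' x
  set g : ℝ → (ℝ × ℝ) × (S → ℝ × ℝ) → (ℝ × ℝ) × (S → ℝ × ℝ) := fun t x => v x t with hg
  have hflow : GR.Flow.IsFlowOf Y g := ⟨fun x => hv0 x, fun x t => hv x t⟩
  have hsm : Continuous (fun p : ℝ × ((ℝ × ℝ) × (S → ℝ × ℝ)) => g p.1 p.2) := by
    have := GR.Flow.contDiff_flow (X := ⟨Y, hYs.continuous⟩) (m := 1) (by norm_num)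
      (by simpa using hYs) (K := K) hK (g := g) hflow
    exact this.continuous
  have hpar : ∀ x t, (v x t).2 = x.2 := by
    intro x t
    have h1 : ∀ t, HasDerivAt (fun t => (v x t).2) 0 t := fun t => by
      have := (ContinuousLinearMap.snd ℝ (ℝ × ℝ) (S → ℝ × ℝ)).hasFDerivAt.comp_hasDerivAt t (hv x t)
      simp only [hY, Prod.smul_mk, smul_zero, ContinuousLinearMap.coe_snd'] at this
      exact this
    have h2 := is_const_of_deriv_eq_zero (fun t => (h1 t).differentiableAt)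
      (fun t => (h1 t).deriv) t 0
    simp only [hv0] at h2
    exact h2
  have hχ : ∀ (c : S → ℝ × ℝ) (p : ℝ × ℝ), ‖c‖ ≤ M → ‖p‖ ≤ R → Y (p, c) = (fld c p, 0) := by
    intro c p hc hp
    have : ((p, c) : (ℝ × ℝ) × (S → ℝ × ℝ)) ∈ Metric.closedBall 0 (r + 1) := by
      rw [mem_closedBall_zero_iff, Prod.norm_def, max_le_iff]
      have e1 : M ≤ r := (le_max_left _ _).trans (le_max_left _ _)
      have e2 : R ≤ r := (le_max_right _ _).trans (le_max_left _ _)
      exact ⟨by simp only; linarith, by simp only; linarith⟩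
    simp only [hY]
    rw [χ.one_of_mem_closedBall this, one_smul]
  refine ⟨fun t p c => (g t (p, c)).1, ?_, ?_, ?_, ?_⟩
  · exact continuous_fst.comp hsm
  · intro p c
    simp [hg, hv0]
  · intro c hc p hp t
    have h1 := (ContinuousLinearMap.fst ℝ (ℝ × ℝ) (S → ℝ × ℝ)).hasFDerivAt.comp_hasDerivAt t
      (hv (p, c) t)
    have h2 : v (p, c) t = ((g t (p, c)).1, c) := by
      ext1
      · rfl
      · exact hpar _ _
    rw [h2, hχ c _ hc (hp t)] at h1
    exact h1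
  · intro c hc γ hγ hR t
    have h1 : (fun t => (γ t, c)) = v (γ 0, c) := by
      refine ODE_solution_unique_univ (v := fun _ => Y) (s := fun _ => univ)
        (K := K) (t₀ := 0)
        (fun t => hK.lipschitzOnWith) (fun t => ⟨?_, trivial⟩) (fun t => ⟨hv _ t, trivial⟩) ?_
      · rw [hχ c _ hc (hR t)]
        exact (hγ t).prodMk (hasDerivAt_const t c)
      · simp [hv0]
    have h2 := congrFun h1 t
    simp only [hg]
    rw [← h2]

/-- the compact pieces -/
def piece (u : ℝ → ℝ × ℝ → (S → ℝ × ℝ) → ℝ × ℝ) (M : ℝ) (Ω : Set (ℝ × ℝ)) (d : ℝ) (m k : ℕ) :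
    Set ((S → ℝ × ℝ) × (Fin m → ℝ × ℝ) × (Fin m → ℝ) × (Fin m → ℝ)) :=
  (Metric.closedBall 0 M ×ˢ (Set.univ.pi fun _ => Ω) ×ˢ
    (Set.univ.pi fun _ => Icc ((k + 1 : ℝ)⁻¹) (k + 1)) ×ˢ
      (Set.univ.pi fun _ => Icc (-(k + 1 : ℝ)) (k + 1))) ∩
  {z | (∀ i, u (z.2.2.1 i) (z.2.1 i) z.1 = z.2.1 i) ∧
    (∀ i t, u t (z.2.1 i) z.1 ∈ Ω) ∧
    (∀ i, (k + 1 : ℝ)⁻¹ ≤ ‖fld z.1 (z.2.1 i)‖) ∧
    (∀ i, d ^ 2 ≤ sq (z.2.1 i - u (z.2.2.2 i) (z.2.1 i) z.1)) ∧
    (∀ i j, i ≠ j → ∀ t, (k + 1 : ℝ)⁻¹ ≤ ‖u t (z.2.1 i) z.1 - z.2.1 j‖)}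

lemma isCompact_piece {u : ℝ → ℝ × ℝ → (S → ℝ × ℝ) → ℝ × ℝ}
    (hu : Continuous (fun z : ℝ × (ℝ × ℝ) × (S → ℝ × ℝ) => u z.1 z.2.1 z.2.2))
    (M : ℝ) {Ω : Set (ℝ × ℝ)} (hΩ : IsCompact Ω) (d : ℝ) (m k : ℕ) :
    IsCompact (piece u M Ω d m k) := by
  refine IsCompact.inter_right ?_ ?_
  · refine (isCompact_closedBall _ _).prod ((isCompact_univ_pi fun _ => hΩ).prod
      ((isCompact_univ_pi fun _ => isCompact_Icc).prod (isCompact_univ_pi fun _ => isCompact_Icc)))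
  · have hp : ∀ i : Fin m, Continuous fun z : (S → ℝ × ℝ) × (Fin m → ℝ × ℝ) × (Fin m → ℝ) ×
        (Fin m → ℝ) => z.2.1 i := fun i => (continuous_apply i).comp (continuous_fst.comp
          continuous_snd)
    have hT : ∀ i : Fin m, Continuous fun z : (S → ℝ × ℝ) × (Fin m → ℝ × ℝ) × (Fin m → ℝ) ×
        (Fin m → ℝ) => z.2.2.1 i := fun i => (continuous_apply i).comp (continuous_fst.comp
          (continuous_snd.comp continuous_snd))
    have hs : ∀ i : Fin m, Continuous fun z : (S → ℝ × ℝ) × (Fin m → ℝ × ℝ) × (Fin m → ℝ) ×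
        (Fin m → ℝ) => z.2.2.2 i := fun i => (continuous_apply i).comp (continuous_snd.comp
          (continuous_snd.comp continuous_snd))
    have hut : ∀ (i : Fin m) (τ : (S → ℝ × ℝ) × (Fin m → ℝ × ℝ) × (Fin m → ℝ) ×
        (Fin m → ℝ) → ℝ), Continuous τ → Continuous fun z => u (τ z) (z.2.1 i) z.1 := by
      intro i τ hτ
      exact hu.comp (hτ.prodMk ((hp i).prodMk continuous_fst))
    have hfl : ∀ i : Fin m, Continuous fun z : (S → ℝ × ℝ) × (Fin m → ℝ × ℝ) × (Fin m → ℝ) ×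
        (Fin m → ℝ) => fld z.1 (z.2.1 i) := by
      intro i
      exact (contDiff_joint (m := 0)).continuous.comp (continuous_fst.prodMk (hp i))
    have c1 : IsClosed {z : (S → ℝ × ℝ) × (Fin m → ℝ × ℝ) × (Fin m → ℝ) × (Fin m → ℝ) |
        ∀ i, u (z.2.2.1 i) (z.2.1 i) z.1 = z.2.1 i} := by
      simp only [ofPred_forall]
      exact isClosed_iInter fun i => isClosed_eq (hut i _ (hT i)) (hp i)
    have c2 : IsClosed {z : (S → ℝ × ℝ) × (Fin m → ℝ × ℝ) × (Fin m → ℝ) × (Fin m → ℝ) |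
        ∀ i t, u t (z.2.1 i) z.1 ∈ Ω} := by
      simp only [ofPred_forall]
      exact isClosed_iInter fun i => isClosed_iInter fun t =>
        hΩ.isClosed.preimage (hut i (fun _ => t) continuous_const)
    have c3 : IsClosed {z : (S → ℝ × ℝ) × (Fin m → ℝ × ℝ) × (Fin m → ℝ) × (Fin m → ℝ) |
        ∀ i, (k + 1 : ℝ)⁻¹ ≤ ‖fld z.1 (z.2.1 i)‖} := by
      simp only [ofPred_forall]
      exact isClosed_iInter fun i => isClosed_le continuous_const (hfl i).norm
    have c4 : IsClosed {z : (S → ℝ × ℝ) × (Fin m → ℝ × ℝ) × (Fin m → ℝ) × (Fin m → ℝ) |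
        ∀ i, d ^ 2 ≤ sq (z.2.1 i - u (z.2.2.2 i) (z.2.1 i) z.1)} := by
      simp only [ofPred_forall]
      exact isClosed_iInter fun i => isClosed_le continuous_const
        (continuous_sq.comp ((hp i).sub (hut i _ (hs i))))
    have c5 : IsClosed {z : (S → ℝ × ℝ) × (Fin m → ℝ × ℝ) × (Fin m → ℝ) × (Fin m → ℝ) |
        ∀ i j, i ≠ j → ∀ t, (k + 1 : ℝ)⁻¹ ≤ ‖u t (z.2.1 i) z.1 - z.2.1 j‖} := by
      simp only [ofPred_forall]
      exact isClosed_iInter fun i => isClosed_iInter fun j => isClosed_iInter fun _ =>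
        isClosed_iInter fun t => isClosed_le continuous_const
          ((hut i (fun _ => t) continuous_const).sub (hp j)).norm
    exact c1.inter (c2.inter (c3.inter (c4.inter c5)))

/-- basic facts on a closed orbit seen through the parametrised flow -/
lemma closedOrbit_flow {u : ℝ → ℝ × ℝ → (S → ℝ × ℝ) → ℝ × ℝ} {M R : ℝ} {Ω : Set (ℝ × ℝ)}
    (hΩR : ∀ x ∈ Ω, ‖x‖ ≤ R)
    (huniq : ∀ c, ‖c‖ ≤ M → ∀ γ : ℝ → ℝ × ℝ, (∀ t, HasDerivAt γ (fld c (γ t)) t) →
        (∀ t, ‖γ t‖ ≤ R) → ∀ t, γ t = u t (γ 0) c)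
    {c : S → ℝ × ℝ} (hc : ‖c‖ ≤ M) {C : Set (ℝ × ℝ)} (hC : ClosedOrbit (fld c) C) (hCΩ : C ⊆ Ω)
    {x : ℝ × ℝ} (hx : x ∈ C) :
    (∃ T, 0 < T ∧ u T x c = x) ∧ C = range (fun t => u t x c) ∧ fld c x ≠ 0 := by
  obtain ⟨γ, T, hT, hγ, hper, ⟨a, b, hab⟩, rfl⟩ := hC
  obtain ⟨s, rfl⟩ := hx
  have h1 : ∀ t, γ (t + s) = u t (γ s) c := by
    intro t
    have h2 := huniq c hc (fun t => γ (t + s)) (fun t => by
      have := (hγ (t + s)).scomp t ((hasDerivAt_id t).add_const s)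
      simp only [one_smul] at this
      exact this) (fun t => hΩR _ (hCΩ ⟨_, rfl⟩)) t
    simpa using h2
  refine ⟨⟨T, hT, ?_⟩, ?_, ?_⟩
  · rw [← h1, add_comm, hper]
  · ext y
    constructor
    · rintro ⟨t, rfl⟩
      exact ⟨t - s, by simp only; rw [← h1, sub_add_cancel]⟩
    · rintro ⟨t, rfl⟩
      exact ⟨t + s, h1 t⟩
  · intro h0
    apply hab
    have h2 := huniq c hc (fun _ => γ s) (fun t => by rw [h0]; exact hasDerivAt_const t _)
      (fun t => hΩR _ (hCΩ ⟨_, rfl⟩))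
    have h3 : ∀ t, γ t = γ s := by
      intro t
      have h4 := h1 (t - s)
      rw [sub_add_cancel] at h4
      rw [h4]
      exact (h2 (t - s)).symm
    rw [h3 a, h3 b]

lemma level_eq {u : ℝ → ℝ × ℝ → (S → ℝ × ℝ) → ℝ × ℝ} {M R : ℝ} {Ω : Set (ℝ × ℝ)}
    (hu : Continuous (fun z : ℝ × (ℝ × ℝ) × (S → ℝ × ℝ) => u z.1 z.2.1 z.2.2))
    (hu0 : ∀ p c, u 0 p c = p)
    (hΩR : ∀ x ∈ Ω, ‖x‖ ≤ R)
    (hsol : ∀ c, ‖c‖ ≤ M → ∀ p, (∀ s, ‖u s p c‖ ≤ R) →
        ∀ t, HasDerivAt (fun t => u t p c) (fld c (u t p c)) t)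
    (huniq : ∀ c, ‖c‖ ≤ M → ∀ γ : ℝ → ℝ × ℝ, (∀ t, HasDerivAt γ (fld c (γ t)) t) →
        (∀ t, ‖γ t‖ ≤ R) → ∀ t, γ t = u t (γ 0) c) (d : ℝ) (m : ℕ) :
    {c : S → ℝ × ℝ | ‖c‖ ≤ M ∧ (m : ℕ∞) ≤ (Cls (fld c) Ω d).encard} =
      ⋃ k : ℕ, Prod.fst '' (piece u M Ω d m k) := by
  ext c
  simp only [mem_ofPred_eq, mem_iUnion, mem_image]
  constructor
  · rintro ⟨hc, hm⟩
    obtain ⟨t, htsub, htm⟩ := Set.exists_subset_encard_eq hm
    have htf : t.Finite := Set.finite_of_encard_eq_coe htm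
    have htn : t.ncard = m := by
      have := htf.cast_ncard_eq
      rw [htm] at this
      exact_mod_cast this
    have : Finite t := htf
    have e : Fin m ≃ t := by
      refine (Finite.equivFinOfCardEq ?_).symm
      rw [Nat.card_coe_set_eq]
      exact htn
    -- data
    have hdata : ∀ i : Fin m, ∃ (p : ℝ × ℝ) (T s : ℝ), p ∈ (e i : Set (ℝ × ℝ)) ∧ 0 < T ∧
        u T p c = p ∧ (e i : Set (ℝ × ℝ)) = range (fun t => u t p c) ∧ fld c p ≠ 0 ∧
        d ^ 2 ≤ sq (p - u s p c) := by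
      intro i
      obtain ⟨hC, hCΩ, x, hx, y, hy, hxy⟩ := htsub (e i).2
      obtain ⟨⟨T, hT, hTx⟩, hr, h0⟩ := closedOrbit_flow hΩR huniq hc hC hCΩ hx
      rw [hr] at hy
      obtain ⟨s, rfl⟩ := hy
      exact ⟨x, T, s, hx, hT, hTx, hr, h0, hxy⟩
    choose p T s hp hT hTp hr h0 hd using hdata
    have hΩi : ∀ i, (e i : Set (ℝ × ℝ)) ⊆ Ω := fun i => (htsub (e i).2).2.1
    have huΩ : ∀ i t, u t (p i) c ∈ Ω := fun i t => hΩi i (by rw [hr i]; exact ⟨t, rfl⟩)
    have hcont : ∀ i, Continuous fun t => u t (p i) c := fun i =>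
      hu.comp (f := fun t : ℝ => (t, p i, c)) (continuous_id.prodMk continuous_const)
    have hper : ∀ i, Function.Periodic (fun t => u t (p i) c) (T i) := by
      intro i t
      have h1 := huniq c hc (fun t => u (t + T i) (p i) c) (fun t => by
        have := (hsol c hc (p i) (fun s => hΩR _ (huΩ i s)) (t + T i)).scomp t
          ((hasDerivAt_id t).add_const (T i))
        simp only [one_smul] at this
        exact this) (fun t => hΩR _ (huΩ i _)) t
      simp only [zero_add] at h1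
      simp only
      rw [h1, hTp]
    -- separation
    have hsep : ∀ i j, i ≠ j → ∃ δ : ℝ, 0 < δ ∧ ∀ t, δ ≤ ‖u t (p i) c - p j‖ := by
      intro i j hij
      obtain ⟨t₁, ht₁⟩ := exists_max_periodic (f := fun t => -‖u t (p i) c - p j‖)
        ((hcont i).sub continuous_const).norm.neg (hT i)
        (fun t => by have := hper i t; simp only at this ⊢; rw [this])
      refine ⟨‖u t₁ (p i) c - p j‖, ?_, fun t => by have := ht₁ t; linarith⟩
      rw [norm_pos_iff, sub_ne_zero]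
      intro hc'
      apply hij
      apply e.injective
      apply Subtype.ext
      have hpj : p j ∈ (e i : Set (ℝ × ℝ)) := by
        rw [hr i, ← hc']; exact ⟨t₁, rfl⟩
      obtain ⟨-, h5, -⟩ := closedOrbit_flow hΩR huniq hc (htsub (e i).2).1 (hΩi i) hpj
      rw [h5, hr j]
    choose! δ hδ hδ2 using hsep
    -- choice of k
    obtain ⟨B, hB⟩ : ∃ B : ℝ, ∀ z : Fin m × Fin m, max (max (T z.1) |s z.1|)
        (max (max (T z.1)⁻¹ ‖fld c (p z.1)‖⁻¹) (δ z.1 z.2)⁻¹) ≤ B := by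
      obtain ⟨B, hB⟩ := (Set.finite_range (fun z : Fin m × Fin m => max (max (T z.1) |s z.1|)
        (max (max (T z.1)⁻¹ ‖fld c (p z.1)‖⁻¹) (δ z.1 z.2)⁻¹))).bddAbove
      exact ⟨B, fun z => hB ⟨z, rfl⟩⟩
    obtain ⟨k, hk⟩ := exists_nat_ge B
    have hk1 : (0:ℝ) < k + 1 := by positivity
    have hBk : B ≤ k + 1 := by linarith
    have b1 : ∀ i, T i ≤ k + 1 := fun i => ((le_max_left _ _).trans ((le_max_left _ _).trans
      (hB (i, i)))).trans hBk
    have b2 : ∀ i, |s i| ≤ k + 1 := fun i => ((le_max_right _ _).trans ((le_max_left _ _).trans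
      (hB (i, i)))).trans hBk
    have b3 : ∀ i, (T i)⁻¹ ≤ k + 1 := fun i => ((le_max_left _ _).trans ((le_max_left _ _).trans
      ((le_max_right _ _).trans (hB (i, i))))).trans hBk
    have b4 : ∀ i, ‖fld c (p i)‖⁻¹ ≤ k + 1 := fun i => ((le_max_right _ _).trans
      ((le_max_left _ _).trans ((le_max_right _ _).trans (hB (i, i))))).trans hBk
    have b5 : ∀ i j, (δ i j)⁻¹ ≤ k + 1 := fun i j => ((le_max_right _ _).trans
      ((le_max_right _ _).trans (hB (i, j)))).trans hBk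
    refine ⟨k, (c, p, T, s), ⟨⟨?_, ?_, ?_, ?_⟩, ?_, ?_, ?_, ?_, ?_⟩, rfl⟩
    · rw [mem_closedBall_zero_iff]; exact hc
    · intro i _
      exact hΩi i (hp i)
    · intro i _
      exact ⟨inv_le_of_inv_le₀ (hT i) (b3 i), b1 i⟩
    · intro i _
      exact abs_le.1 (b2 i)
    · exact hTp
    · exact huΩ
    · intro i
      exact inv_le_of_inv_le₀ (norm_pos_iff.2 (h0 i)) (b4 i)
    · exact hd
    · intro i j hij t
      exact (inv_le_of_inv_le₀ (hδ i j hij) (b5 i j)).trans (hδ2 i j hij t)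
  · rintro ⟨k, ⟨c', p, T, s⟩, ⟨⟨h1, h2, h3, h4⟩, h5, h6, h7, h8, h9⟩, rfl⟩
    simp only at h1 h2 h3 h4 h5 h6 h7 h8 h9 ⊢
    have hc : ‖c'‖ ≤ M := by rwa [mem_closedBall_zero_iff] at h1
    have hk1 : (0:ℝ) < ((k:ℝ) + 1)⁻¹ := by positivity
    refine ⟨hc, ?_⟩
    have hsol' : ∀ i t, HasDerivAt (fun t => u t (p i) c') (fld c' (u t (p i) c')) t :=
      fun i => hsol c' hc (p i) (fun s => hΩR _ (h6 i s))
    have hcl : ∀ i, range (fun t => u t (p i) c') ∈ Cls (fld c') Ω d := by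
      intro i
      have hTi : 0 < T i := lt_of_lt_of_le hk1 (h3 i trivial).1
      refine ⟨⟨fun t => u t (p i) c', T i, hTi, hsol' i, ?_, ?_, rfl⟩, ?_, p i, ?_,
        u (s i) (p i) c', ⟨s i, rfl⟩, h8 i⟩
      · intro t
        have e1 := huniq c' hc (fun t => u (t + T i) (p i) c') (fun t => by
          have := (hsol' i (t + T i)).scomp t ((hasDerivAt_id t).add_const (T i))
          simp only [one_smul] at this
          exact this) (fun t => hΩR _ (h6 i _)) t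
        simp only [zero_add] at e1
        simp only
        rw [e1, h5]
      · by_contra hcon
        push Not at hcon
        have e1 : (fun t => u t (p i) c') = fun _ => p i := by
          ext1 t
          rw [hcon t 0, hu0]
        have e2 := hsol' i 0
        rw [hu0, e1] at e2
        have e3 := e2.unique (hasDerivAt_const 0 (p i))
        have e4 := h7 i
        rw [e3, norm_zero] at e4
        linarith
      · rintro _ ⟨t, rfl⟩
        exact h6 i t
      · exact ⟨0, hu0 _ _⟩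
    have hinj : Function.Injective fun i => range (fun t => u t (p i) c') := by
      intro i j hij
      by_contra hne
      simp only at hij
      have : p j ∈ range (fun t => u t (p i) c') := by
        rw [hij]; exact ⟨0, hu0 _ _⟩
      obtain ⟨t, ht⟩ := this
      have e1 := h9 i j hne t
      simp only at ht
      rw [ht, sub_self, norm_zero] at e1
      linarith
    calc (m : ℕ∞) = (range fun i => range (fun t => u t (p i) c')).encard := by
          rw [← Set.image_univ, hinj.encard_image, Set.encard_univ]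
          simp
      _ ≤ _ := by
          apply Set.encard_le_encard
          rintro _ ⟨i, rfl⟩
          exact hcl i

theorem measurable_count {Ω : Set (ℝ × ℝ)} (hΩ : IsCompact Ω) (d : ℝ) :
    Measurable (fun c : S → ℝ × ℝ => ((Cls (fld c) Ω d).encard : ℝ≥0∞)) := by
  obtain ⟨R, hR⟩ := hΩ.isBounded.exists_norm_le
  have hlev : ∀ m : ℕ, MeasurableSet {c : S → ℝ × ℝ | (m : ℕ∞) ≤ (Cls (fld c) Ω d).encard} := by
    intro m
    have h1 : {c : S → ℝ × ℝ | (m : ℕ∞) ≤ (Cls (fld c) Ω d).encard} =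
        ⋃ M : ℕ, {c : S → ℝ × ℝ | ‖c‖ ≤ M ∧ (m : ℕ∞) ≤ (Cls (fld c) Ω d).encard} := by
      ext c
      simp only [mem_ofPred_eq, mem_iUnion]
      constructor
      · intro h
        obtain ⟨M, hM⟩ := exists_nat_ge ‖c‖
        exact ⟨M, hM, h⟩
      · rintro ⟨M, -, h⟩
        exact h
    rw [h1]
    refine MeasurableSet.iUnion fun M => ?_
    obtain ⟨u, hu, hu0, hsol, huniq⟩ := exists_parFlow S M R
    rw [level_eq hu hu0 hR hsol huniq d m]
    refine MeasurableSet.iUnion fun k => ?_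
    exact ((isCompact_piece hu M hΩ d m k).image continuous_fst).measurableSet
  refine measurable_of_Ici fun x => ?_
  by_cases hx : x = ⊤
  · have : (fun c : S → ℝ × ℝ => ((Cls (fld c) Ω d).encard : ℝ≥0∞)) ⁻¹' Ici x =
        ⋂ m : ℕ, {c : S → ℝ × ℝ | (m : ℕ∞) ≤ (Cls (fld c) Ω d).encard} := by
      ext c
      simp only [mem_preimage, mem_Ici, mem_iInter, mem_ofPred_eq, hx, top_le_iff]
      constructor
      · intro h m
        have : (Cls (fld c) Ω d).encard = ⊤ := by simpa using h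
        rw [this]; exact le_top
      · intro h
        have : (Cls (fld c) Ω d).encard = ⊤ := ENat.eq_top_iff_forall_ge.2 h
        rw [this]; rfl
    rw [this]
    exact MeasurableSet.iInter fun m => hlev m
  · have : (fun c : S → ℝ × ℝ => ((Cls (fld c) Ω d).encard : ℝ≥0∞)) ⁻¹' Ici x =
        {c : S → ℝ × ℝ | ((⌈x.toReal⌉₊ : ℕ) : ℕ∞) ≤ (Cls (fld c) Ω d).encard} := by
      ext c
      simp only [mem_preimage, mem_Ici, mem_ofPred_eq]
      generalize (Cls (fld c) Ω d).encard = N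
      induction N using ENat.recTopCoe with
      | top => simp
      | coe n =>
        rw [ENat.toENNReal_coe, Nat.cast_le, Nat.ceil_le]
        rw [← ENNReal.toReal_le_toReal hx (ENNReal.natCast_ne_top n)]
        simp
    rw [this]
    exact hlev _

end

end Pool.Agent.H709R2
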