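import Pool.Agent.H709R2.ODyn

/-! Odd degree: volume of the exceptional set. -/

open Real Set MeasureTheory Topology Filter
open scoped ENNReal

namespace Pool.Agent.H709R2

noncomputable section

variable {S : Finset (ℕ × ℕ)}

lemma isClosed_proj {X Y : Type*} [TopologicalSpace X] [TopologicalSpace Y] {K : Set Y}
    (hK : IsCompact K) {s : Set (X × Y)} (hs : IsClosed s) :
    IsClosed {x | ∃ y ∈ K, (x, y) ∈ s} := by
  have : CompactSpace K := isCompact_iff_compactSpace.1 hK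
  have h1 : IsClosed {p : X × K | (p.1, (p.2 : Y)) ∈ s} :=
    hs.preimage (continuous_fst.prodMk (continuous_subtype_val.comp continuous_snd))
  have h2 := isClosedMap_fst_of_compactSpace (X := X) (Y := K) _ h1
  have h3 : {x | ∃ y ∈ K, (x, y) ∈ s} = Prod.fst '' {p : X × K | (p.1, (p.2 : Y)) ∈ s} := by
    ext x
    simp only [mem_ofPred_eq, mem_image]
    constructor
    · rintro ⟨y, hy, hxy⟩
      exact ⟨(x, ⟨y, hy⟩), hxy, rfl⟩
    · rintro ⟨⟨x', y⟩, hxy, rfl⟩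
      exact ⟨y, y.2, hxy⟩
  rw [h3]
  exact h2

lemma continuous_topf_joint (n : ℕ) :
    Continuous fun z : (S → ℝ × ℝ) × (ℝ × ℝ) => topf n z.1 z.2 := by
  unfold topf
  refine continuous_finsetSum _ fun m _ => ?_
  split_ifs
  · have h1 : Continuous fun z : (S → ℝ × ℝ) × (ℝ × ℝ) => z.1 m :=
      (continuous_apply m).comp continuous_fst
    have h2 : Continuous fun z : (S → ℝ × ℝ) × (ℝ × ℝ) => z.2.1 ^ m.1.1 * z.2.2 ^ m.1.2 := by
      fun_prop
    exact h2.smul h1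
  · exact continuous_const

lemma continuous_prj (n : ℕ) :
    Continuous fun z : ((S → ℝ × ℝ) × (ℝ × ℝ)) × (ℝ × ℝ) => prj n z.1.2 z.1.1 z.2 := by
  have h1 : Continuous fun z : ((S → ℝ × ℝ) × (ℝ × ℝ)) × (ℝ × ℝ) => topf n z.1.1 z.2 :=
    (continuous_topf_joint n).comp ((continuous_fst.comp continuous_fst).prodMk continuous_snd)
  unfold prj wedge
  fun_prop

lemma topf_add (n : ℕ) (a b : S → ℝ × ℝ) (z : ℝ × ℝ) :
    topf n (a + b) z = topf n a z + topf n b z := by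
  unfold topf
  rw [← Finset.sum_add_distrib]
  refine Finset.sum_congr rfl fun m _ => ?_
  split_ifs
  · rw [Pi.add_apply, smul_add]
  · rw [add_zero]

lemma topf_smulc (n : ℕ) (t : ℝ) (a : S → ℝ × ℝ) (z : ℝ × ℝ) :
    topf n (t • a) z = t • topf n a z := by
  unfold topf
  rw [Finset.smul_sum]
  refine Finset.sum_congr rfl fun m _ => ?_
  split_ifs
  · rw [Pi.smul_apply, smul_comm]
  · rw [smul_zero]

lemma topf_single (n : ℕ) (e : S) (he : e.1.1 + e.1.2 = n) (w z : ℝ × ℝ) :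
    topf n (Pi.single e w : S → ℝ × ℝ) z = (z.1 ^ e.1.1 * z.2 ^ e.1.2) • w := by
  unfold topf
  rw [Finset.sum_eq_single e]
  · rw [if_pos he, Pi.single_eq_same]
  · intro k _ hk
    rw [Pi.single_eq_of_ne hk, smul_zero, ite_self]
  · intro h
    exact absurd (Finset.mem_univ e) h

lemma prj_add (n : ℕ) (ω : ℝ × ℝ) (a b : S → ℝ × ℝ) (u : ℝ × ℝ) :
    prj n ω (a + b) u = prj n ω a u + prj n ω b u := by
  unfold prj wedge
  rw [topf_add]
  simp only [Prod.fst_add, Prod.snd_add]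
  ring

lemma prj_smulc (n : ℕ) (ω : ℝ × ℝ) (t : ℝ) (a : S → ℝ × ℝ) (u : ℝ × ℝ) :
    prj n ω (t • a) u = t * prj n ω a u := by
  unfold prj wedge
  rw [topf_smulc]
  simp only [Prod.smul_fst, Prod.smul_snd, smul_eq_mul]
  ring

lemma prj_neg (n : ℕ) (ω : ℝ × ℝ) (a : S → ℝ × ℝ) (u : ℝ × ℝ) :
    prj n (-ω) a u = -prj n ω a u := by
  unfold prj
  simp only [Prod.fst_neg, Prod.snd_neg]
  ring

/-- perturbation direction -/
def Ev {n : ℕ} (hn0 : (n, 0) ∈ S) (h0n : (0, n) ∈ S) : S → ℝ × ℝ :=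
  (Pi.single (⟨(n, 0), hn0⟩ : S) (1, 0) : S → ℝ × ℝ) + Pi.single (⟨(0, n), h0n⟩ : S) (0, 1)

/-- angular step -/
def hst (n : ℕ) : ℝ := (1 / 2) ^ n / 16

lemma hst_pos (n : ℕ) : 0 < hst n := by unfold hst; positivity

lemma prj_Ev {n : ℕ} (hn : Odd n) (hn0 : (n, 0) ∈ S) (h0n : (0, n) ∈ S) {φ : ℝ}
    (hφ : |φ| ≤ hst n) {u : ℝ × ℝ} (hu : sq u = 1) :
    (1 / 2) ^ n / 4 ≤ prj n (Real.cos φ, Real.sin φ) (Ev hn0 h0n) u := by
  have h1 : topf n (Ev hn0 h0n) u = (u.1 ^ n, u.2 ^ n) := by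
    unfold Ev
    rw [topf_add, topf_single n _ (by simp), topf_single n _ (by simp)]
    ext <;> simp
  unfold prj
  rw [h1]
  unfold wedge
  simp only
  have hu' : u.1 ^ 2 + u.2 ^ 2 = 1 := hu
  obtain ⟨hu1, hu2⟩ := abs_le_one_of_sq hu
  set θ : ℝ := (1 / 2) ^ n with hθ
  have hθ0 : 0 < θ := by positivity
  have hθ1 : θ ≤ 1 := pow_le_one₀ (by norm_num) (by norm_num)
  have hφ' : |φ| ≤ θ / 16 := hφ
  -- lower bound of the radial part
  obtain ⟨k, hk⟩ := hn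
  have hrad : θ ≤ u.1 * u.1 ^ n + u.2 * u.2 ^ n := by
    have e1 : ∀ x : ℝ, x * x ^ n = (x ^ 2) ^ (k + 1) := by
      intro x
      rw [← pow_succ', ← pow_mul, hk]
      congr 1
    rw [e1, e1]
    have e2 : θ ≤ (1 / 2) ^ (k + 1) := by
      rw [hθ]
      exact pow_le_pow_of_le_one (by norm_num) (by norm_num) (by omega)
    rcases le_total (u.1 ^ 2) (u.2 ^ 2) with h | h
    · have h3 : (1 / 2 : ℝ) ≤ u.2 ^ 2 := by linarith
      have h4 : (1 / 2 : ℝ) ^ (k + 1) ≤ (u.2 ^ 2) ^ (k + 1) := pow_le_pow_left₀ (by norm_num) h3 _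
      have h5 : 0 ≤ (u.1 ^ 2) ^ (k + 1) := by positivity
      linarith
    · have h3 : (1 / 2 : ℝ) ≤ u.1 ^ 2 := by linarith
      have h4 : (1 / 2 : ℝ) ^ (k + 1) ≤ (u.1 ^ 2) ^ (k + 1) := pow_le_pow_left₀ (by norm_num) h3 _
      have h5 : 0 ≤ (u.2 ^ 2) ^ (k + 1) := by positivity
      linarith
  have hang : |u.1 * u.2 ^ n - u.2 * u.1 ^ n| ≤ 2 := by
    refine (abs_sub _ _).trans ?_
    rw [abs_mul, abs_mul, abs_pow, abs_pow]
    have h3 : |u.2| ^ n ≤ 1 := pow_le_one₀ (abs_nonneg _) hu2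
    have h4 : |u.1| ^ n ≤ 1 := pow_le_one₀ (abs_nonneg _) hu1
    calc |u.1| * |u.2| ^ n + |u.2| * |u.1| ^ n ≤ 1 * 1 + 1 * 1 := by gcongr
      _ = 2 := by norm_num
  have hsin : |Real.sin φ| ≤ θ / 16 := (Real.abs_sin_le_abs).trans hφ'
  have hcos : 1 / 2 ≤ Real.cos φ := by
    have h3 := Real.one_sub_sq_div_two_le_cos (x := φ)
    have h4 : φ ^ 2 ≤ 1 := by
      rw [← sq_abs]
      have : |φ| ≤ 1 := by linarith
      nlinarith [abs_nonneg φ]
    linarith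
  have h5 : |Real.sin φ * (u.1 * u.2 ^ n - u.2 * u.1 ^ n)| ≤ θ / 16 * 2 := by
    rw [abs_mul]; gcongr
  have h6 := neg_abs_le (Real.sin φ * (u.1 * u.2 ^ n - u.2 * u.1 ^ n))
  have h7 : 1 / 2 * θ ≤ Real.cos φ * (u.1 * u.1 ^ n + u.2 * u.2 ^ n) := by gcongr
  linarith

/-- the exceptional set of one arc -/
def Barc (S : Finset (ℕ × ℕ)) (n : ℕ) (M ρ δ θ : ℝ) : Set (S → ℝ × ℝ) :=
  BM S M ∩ ({c | ∀ ω : ℝ × ℝ, sq ω = 1 → ∃ u, sq u = 1 ∧ prj n ω c u ≤ ρ} ∩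
    {c | ∃ φ ∈ Icc (-hst n) (hst n), ∀ u, sq u = 1 →
      prj n (rot θ (Real.cos φ, Real.sin φ)) c u ≤ δ})

lemma measurableSet_Barc (n : ℕ) (M ρ δ θ : ℝ) : MeasurableSet (Barc S n M ρ δ θ) := by
  unfold Barc
  refine (measurableSet_BM M).inter (MeasurableSet.inter (IsClosed.measurableSet ?_)
    (IsClosed.measurableSet ?_))
  · have : {c : S → ℝ × ℝ | ∀ ω : ℝ × ℝ, sq ω = 1 → ∃ u, sq u = 1 ∧ prj n ω c u ≤ ρ} =
        ⋂ ω : ℝ × ℝ, ⋂ (_ : sq ω = 1), {c | ∃ u ∈ {u : ℝ × ℝ | sq u = 1},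
          (c, u) ∈ {z : (S → ℝ × ℝ) × (ℝ × ℝ) | prj n ω z.1 z.2 ≤ ρ}} := by
      ext c
      simp only [mem_ofPred_eq, mem_iInter]
    rw [this]
    refine isClosed_iInter fun ω => isClosed_iInter fun _ => isClosed_proj isCompact_circle ?_
    refine isClosed_le ?_ continuous_const
    exact (continuous_prj n).comp ((continuous_fst.prodMk continuous_const).prodMk continuous_snd)
  · have : {c : S → ℝ × ℝ | ∃ φ ∈ Icc (-hst n) (hst n), ∀ u, sq u = 1 →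
        prj n (rot θ (Real.cos φ, Real.sin φ)) c u ≤ δ} =
        {c | ∃ φ ∈ Icc (-hst n) (hst n), (c, φ) ∈ ⋂ u : ℝ × ℝ, ⋂ (_ : sq u = 1),
          {z : (S → ℝ × ℝ) × ℝ | prj n (rot θ (Real.cos z.2, Real.sin z.2)) z.1 u ≤ δ}} := by
      ext c
      simp only [mem_ofPred_eq, mem_iInter]
    rw [this]
    refine isClosed_proj isCompact_Icc (isClosed_iInter fun u => isClosed_iInter fun _ => ?_)
    refine isClosed_le ?_ continuous_const
    refine (continuous_prj n).comp ((continuous_fst.prodMk ?_).prodMk continuous_const)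
    fun_prop

lemma rotc_add (θ : ℝ) (a b : S → ℝ × ℝ) : rotc θ (a + b) = rotc θ a + rotc θ b := by
  ext1 m
  unfold rotc
  rw [Pi.add_apply, Pi.add_apply, rot_add]

lemma rotc_single (θ : ℝ) (m : S) (w : ℝ × ℝ) :
    rotc θ (Pi.single m w : S → ℝ × ℝ) = Pi.single m (rot θ w) := by
  ext1 k
  unfold rotc
  by_cases h : k = m
  · rw [h, Pi.single_eq_same, Pi.single_eq_same]
  · rw [Pi.single_eq_of_ne h, Pi.single_eq_of_ne h, rot_zero]

lemma norm_rotc_Ev {n : ℕ} (hn0 : (n, 0) ∈ S) (h0n : (0, n) ∈ S) (θ : ℝ) :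
    ‖rotc θ (Ev hn0 h0n)‖ ≤ 2 := by
  unfold Ev
  rw [rotc_add, rotc_single, rotc_single]
  have h1 : ‖rot θ (1, 0)‖ ≤ 1 := norm_le_one_of_sq (by rw [sq_rot]; simp [sq])
  have h2 : ‖rot θ (0, 1)‖ ≤ 1 := norm_le_one_of_sq (by rw [sq_rot]; simp [sq])
  refine (norm_add_le _ _).trans ?_
  have h3 := norm_single_le (S := S) ⟨(n, 0), hn0⟩ (rot θ (1, 0))
  have h4 := norm_single_le (S := S) ⟨(0, n), h0n⟩ (rot θ (0, 1))
  linarith

lemma vol_Barc {n : ℕ} (hn : Odd n) (hn0 : (n, 0) ∈ S) (h0n : (0, n) ∈ S) {M ρ δ : ℝ}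
    (hM : 0 ≤ M) (hρ : 0 ≤ ρ) (hδ : 0 ≤ δ) (θ : ℝ) :
    volume (Barc S n M ρ δ θ) ≤ ENNReal.ofReal (2 * ((ρ + δ) / ((1 / 2) ^ n / 4))) *
      volume (Metric.closedBall (0 : S → ℝ × ℝ) (M + 2)) := by
  set E := rotc θ (Ev hn0 h0n) with hE
  have hEn : ‖E‖ ≤ 2 := norm_rotc_Ev hn0 h0n θ
  set c₀ : ℝ := (1 / 2) ^ n / 4 with hc₀
  have hc₀0 : 0 < c₀ := by positivity
  have key : ∀ c : S → ℝ × ℝ, ∀ τ τ' : ℝ, τ ≤ τ' → τ • E + c ∈ Barc S n M ρ δ θ →
      τ' • E + c ∈ Barc S n M ρ δ θ → τ' - τ ≤ (ρ + δ) / c₀ := by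
    rintro c τ τ' hττ ⟨-, h1, -⟩ ⟨-, -, φ, hφ, h2⟩
    have hφ' : |φ| ≤ hst n := abs_le.2 ⟨hφ.1, hφ.2⟩
    set ω := rot θ (Real.cos φ, Real.sin φ) with hω
    have hω1 : sq ω = 1 := by
      rw [hω, sq_rot]
      unfold sq
      exact Real.cos_sq_add_sin_sq φ
    obtain ⟨u, hu, h3⟩ := h1 (-ω) (by rw [← hω1]; unfold sq; simp)
    have h4 := h2 u hu
    rw [prj_neg] at h3
    rw [prj_add, prj_smulc] at h3 h4
    have h5 : c₀ ≤ prj n ω E u := by
      rw [hω, hE, prj_rotc]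
      exact prj_Ev hn hn0 h0n hφ' hu
    rw [le_div_iff₀ hc₀0]
    have h6 : (τ' - τ) * c₀ ≤ (τ' - τ) * prj n ω E u :=
      mul_le_mul_of_nonneg_left h5 (by linarith)
    linarith
  refine volume_le_slice (T := fun τ : ℝ => τ • E) (ν := volume) (J := Icc (0:ℝ) 1)
    (by fun_prop) measurableSet_Icc (by simp) (measurableSet_Barc _ _ _ _ _)
    Metric.isClosed_closedBall.measurableSet ?_ ?_
  · intro c τ hτ hc
    rw [mem_closedBall_zero_iff]
    have h1 := mem_closedBall_zero_iff.1 (BM_subset hM hc.1)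
    have h2 : ‖τ • E‖ ≤ 2 := by
      rw [norm_smul, Real.norm_eq_abs, abs_of_nonneg hτ.1]
      calc τ * ‖E‖ ≤ 1 * 2 := by gcongr; exact hτ.2
        _ = 2 := by norm_num
    calc ‖c‖ ≤ ‖τ • E + c‖ + ‖τ • E‖ := norm_le_add_norm_add' _ _ |>.trans (by rw [add_comm])
      _ ≤ M + 2 := by linarith
  · intro c _
    by_cases hne : (Icc (0:ℝ) 1 ∩ {τ : ℝ | τ • E + c ∈ Barc S n M ρ δ θ}) = ∅
    · rw [hne, measure_empty]; exact zero_le
    · obtain ⟨τ₀, -, hτ₀⟩ := Set.nonempty_iff_ne_empty.2 hne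
      simp only [mem_ofPred_eq] at hτ₀
      set d := (ρ + δ) / c₀ with hd
      calc volume (Icc (0:ℝ) 1 ∩ {τ : ℝ | τ • E + c ∈ Barc S n M ρ δ θ})
          ≤ volume (Icc (τ₀ - d) (τ₀ + d)) := by
            refine measure_mono ?_
            rintro τ ⟨-, hτ⟩
            simp only [mem_ofPred_eq] at hτ
            rcases le_total τ τ₀ with h | h
            · have := key c τ τ₀ h hτ hτ₀
              have hd0 : 0 ≤ d := by positivity
              exact ⟨by linarith, by linarith⟩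
            · have := key c τ₀ τ h hτ₀ hτ
              have hd0 : 0 ≤ d := by positivity
              exact ⟨by linarith, by linarith⟩
        _ = ENNReal.ofReal (2 * d) := by
            rw [Real.volume_Icc]
            congr 1
            ring

/-- number of arcs -/
def narc (n : ℕ) : ℕ := ⌈2 * π / hst n⌉₊

/-- the exceptional set -/
def Bset (S : Finset (ℕ × ℕ)) (n : ℕ) (M ρ δ : ℝ) : Set (S → ℝ × ℝ) :=
  ⋃ k ∈ Finset.range (narc n + 1), Barc S n M ρ δ (-π + k * hst n)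

lemma measurableSet_Bset (n : ℕ) (M ρ δ : ℝ) : MeasurableSet (Bset S n M ρ δ) := by
  unfold Bset
  exact Finset.measurableSet_biUnion _ fun k _ => measurableSet_Barc _ _ _ _ _

lemma vol_Bset {n : ℕ} (hn : Odd n) (hn0 : (n, 0) ∈ S) (h0n : (0, n) ∈ S) {M ρ δ : ℝ}
    (hM : 0 ≤ M) (hρ : 0 ≤ ρ) (hδ : 0 ≤ δ) :
    volume (Bset S n M ρ δ) ≤ ENNReal.ofReal ((narc n + 1) * (8 * 2 ^ n) * (ρ + δ)) *
      volume (Metric.closedBall (0 : S → ℝ × ℝ) (M + 2)) := by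
  unfold Bset
  refine (measure_biUnion_finset_le _ _).trans ?_
  calc ∑ k ∈ Finset.range (narc n + 1), volume (Barc S n M ρ δ (-π + k * hst n))
      ≤ ∑ k ∈ Finset.range (narc n + 1), ENNReal.ofReal (2 * ((ρ + δ) / ((1 / 2) ^ n / 4))) *
        volume (Metric.closedBall (0 : S → ℝ × ℝ) (M + 2)) :=
        Finset.sum_le_sum fun k _ => vol_Barc hn hn0 h0n hM hρ hδ _
    _ = _ := by
        rw [Finset.sum_const, Finset.card_range, nsmul_eq_mul, ← mul_assoc,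
          ← ENNReal.ofReal_natCast, ← ENNReal.ofReal_mul (by positivity)]
        congr 2
        push_cast
        have : (1 / 2 : ℝ) ^ n = (2 ^ n)⁻¹ := by rw [one_div, inv_pow]
        rw [this]
        field_simp
        ring

lemma goodDir_of_notMem {n : ℕ} {M ρ δ : ℝ} {c : S → ℝ × ℝ} (hc : c ∈ BM S M)
    (hcB : c ∉ Bset S n M ρ δ) : goodDir n ρ δ c := by
  by_contra hcon
  unfold goodDir at hcon
  push Not at hcon
  obtain ⟨h1, ω, hω, h2⟩ := hcon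
  apply hcB
  -- angle of ω
  set x : ℂ := ⟨ω.1, ω.2⟩ with hx
  have hxn : ‖x‖ = 1 := by
    rw [Complex.norm_def, Complex.normSq_mk]
    have : ω.1 * ω.1 + ω.2 * ω.2 = 1 := by
      have : sq ω = ω.1 ^ 2 + ω.2 ^ 2 := rfl
      nlinarith
    rw [this, Real.sqrt_one]
  have hx0 : x ≠ 0 := by
    intro h
    rw [h, norm_zero] at hxn
    exact zero_ne_one hxn
  set t := Complex.arg x with ht
  have hc1 : Real.cos t = ω.1 := by rw [ht, Complex.cos_arg hx0, hxn, div_one]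
  have hs1 : Real.sin t = ω.2 := by rw [ht, Complex.sin_arg, hxn, div_one]
  have ht1 : -π < t := Complex.neg_pi_lt_arg x
  have ht2 : t ≤ π := Complex.arg_le_pi x
  have hh := hst_pos n
  set k : ℕ := ⌊(t + π) / hst n⌋₊ with hk
  have hk1 : (k : ℝ) ≤ (t + π) / hst n := Nat.floor_le (by
    have : 0 ≤ t + π := by linarith
    positivity)
  have hk2 : (t + π) / hst n < k + 1 := Nat.lt_floor_add_one _
  rw [le_div_iff₀ hh] at hk1
  rw [div_lt_iff₀ hh] at hk2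
  have hkn : k ∈ Finset.range (narc n + 1) := by
    rw [Finset.mem_range, Nat.lt_succ_iff]
    unfold narc
    have h3 : (k : ℝ) ≤ 2 * π / hst n := by
      rw [le_div_iff₀ hh]; linarith
    exact_mod_cast h3.trans (Nat.le_ceil _)
  unfold Bset
  refine mem_biUnion hkn ⟨hc, ?_, ?_⟩
  · intro ω' hω'
    obtain ⟨u, hu, h3⟩ := h1 ω' hω'
    exact ⟨u, hu, h3.le⟩
  · set φ := t - (-π + k * hst n) with hφ
    refine ⟨φ, ⟨by rw [hφ]; linarith, by rw [hφ]; linarith⟩, ?_⟩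
    have hrot : rot (-π + k * hst n) (Real.cos φ, Real.sin φ) = ω := by
      have e1 : t = (-π + k * hst n) + φ := by rw [hφ]; ring
      unfold rot
      ext
      · simp only
        rw [← hc1, e1, Real.cos_add (-π + k * hst n) φ]
      · simp only
        rw [← hs1, e1, Real.sin_add (-π + k * hst n) φ]
    rw [hrot]
    exact h2

end

end Pool.Agent.H709R2
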