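import Pool.Agent.H709R2.OCount

/-! Odd degree: integral of the number of big closed orbits near infinity. -/

open Real Set MeasureTheory Topology Filter
open scoped ENNReal

namespace Pool.Agent.H709R2

noncomputable section

variable {S : Finset (ℕ × ℕ)}

/-- pairs of points at comparable scales -/
def Fbig (j : ℕ) : Set ((ℝ × ℝ) × (ℝ × ℝ)) :=
  {z | ‖z.1‖ ≤ Rj (j + 2) ∧ (Rj j / 16) ^ 2 ≤ sq (z.1 - z.2)}

/-- an open neighbourhood -/
def Gbig (j : ℕ) : Set ((ℝ × ℝ) × (ℝ × ℝ)) :=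
  {z | ‖z.1‖ < 2 * Rj (j + 2) ∧ (Rj j / 32) ^ 2 < sq (z.1 - z.2)}

lemma isClosed_Fbig (j : ℕ) : IsClosed (Fbig j) :=
  (isClosed_le (continuous_norm.comp continuous_fst) continuous_const).inter
    (isClosed_le continuous_const (continuous_sq.comp (continuous_fst.sub continuous_snd)))

lemma isOpen_Gbig (j : ℕ) : IsOpen (Gbig j) :=
  (isOpen_lt (continuous_norm.comp continuous_fst) continuous_const).inter
    (isOpen_lt continuous_const (continuous_sq.comp (continuous_fst.sub continuous_snd)))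

lemma Fbig_subset (j : ℕ) : Fbig j ⊆ Gbig j := by
  rintro z ⟨h1, h2⟩
  have h3 := Rj_pos (j + 2)
  have h4 := Rj_pos j
  refine ⟨by linarith, lt_of_lt_of_le ?_ h2⟩
  have : Rj j / 32 < Rj j / 16 := by linarith
  gcongr

lemma Gbig_ratio (j : ℕ) (x y : ℝ × ℝ) (h : (x, y) ∈ Gbig j) (hx : x ≠ 0) :
    (1 / 2 : ℝ) ^ 141 ≤ sq (y - x) / sq x := by
  obtain ⟨h1, h2⟩ := h
  simp only at h1 h2
  have hx0 := sq_pos hx
  have hR := Rj_pos j
  have h3 : Rj (j + 2) = 2 ^ 64 * Rj j := by rw [Rj_succ, Rj_succ]; ring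
  have h4 : sq x ≤ 2 * ‖x‖ ^ 2 := sq_le_norm x
  have h5 : ‖x‖ ^ 2 ≤ (2 * Rj (j + 2)) ^ 2 := pow_le_pow_left₀ (norm_nonneg _) h1.le 2
  have h6 : sq (y - x) = sq (x - y) := by
    unfold sq; simp only [Prod.fst_sub, Prod.snd_sub]; ring
  rw [le_div_iff₀ hx0, h6]
  have h7 : sq x ≤ 2 * (2 * (2 ^ 64 * Rj j)) ^ 2 := by rw [← h3]; linarith
  calc (1 / 2 : ℝ) ^ 141 * sq x ≤ (1 / 2) ^ 141 * (2 * (2 * (2 ^ 64 * Rj j)) ^ 2) := by gcongr
    _ = (Rj j / 32) ^ 2 := by ring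
    _ ≤ _ := h2.le

lemma chord_big {x y : ℝ × ℝ} (hx : ‖x‖ ≤ 1) (hxy : ((1 / 2 : ℝ) ^ 68) ^ 2 ≤ sq (x - y)) :
    (1 / 2 : ℝ) ^ 71 ≤ √(psi x * psi y * sq (x - y)) := by
  apply Real.le_sqrt_of_sq_le
  have h1 : sq x ≤ 2 := by
    have := sq_le_norm x
    have := pow_le_pow_left₀ (norm_nonneg _) hx 2
    linarith
  set D := sq (x - y) with hD
  have h2 : sq y ≤ 4 + 2 * D := by
    have h3 : sq y ≤ 2 * sq x + 2 * sq (x - y) := by
      unfold sq; simp only [Prod.fst_sub, Prod.snd_sub]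
      nlinarith [sq_nonneg (2 * x.1 - y.1), sq_nonneg (2 * x.2 - y.2)]
    rw [← hD] at h3
    linarith
  have hD0 : 0 ≤ D := sq_nonneg' _
  have e1 := one_add_sq_pos x
  have e2 := one_add_sq_pos y
  have hx0 := sq_nonneg' x
  have hy0 := sq_nonneg' y
  unfold psi
  rw [← mul_inv, inv_mul_eq_div, le_div_iff₀ (mul_pos e1 e2)]
  have h4 : (1 + sq x) * (1 + sq y) ≤ 3 * (5 + 2 * D) := by
    apply mul_le_mul <;> linarith
  calc ((1 / 2 : ℝ) ^ 71) ^ 2 * ((1 + sq x) * (1 + sq y))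
      ≤ ((1 / 2 : ℝ) ^ 71) ^ 2 * (3 * (5 + 2 * D)) := by gcongr
    _ ≤ D := by
        norm_num at hxy ⊢
        linarith

lemma big_bound (c : S → ℝ × ℝ) (j : ℕ) {Ω : Set (ℝ × ℝ)} (hΩ : IsCompact Ω) :
    ∫⁻ α in Ioo 0 π, ((ClsF (fld (rotc α c)) Ω (Fbig j)).encard : ℝ≥0∞) ≤
      ENNReal.ofReal (2 ^ 71 * π ^ 2 * (dg S + 1)) := by
  set R := Rj (j + 2) with hRdef
  have hR : 0 < R := Rj_pos _
  obtain ⟨P, Q, hP, hQ, hPQ⟩ := exists_poly (resc R c)
  have hΩ' : IsCompact ((fun x : ℝ × ℝ => R⁻¹ • x) '' Ω) := hΩ.image (by fun_prop)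
  obtain ⟨g, hg1, hg2, hg3⟩ := thmAplus hP hQ hΩ' (d := (1 / 2) ^ 71) (by norm_num)
  calc ∫⁻ α in Ioo 0 π, ((ClsF (fld (rotc α c)) Ω (Fbig j)).encard : ℝ≥0∞)
      ≤ ∫⁻ α in Ioo 0 π, g α := by
        refine setLIntegral_mono' measurableSet_Ioo fun α hα => le_trans ?_ (hg2 α hα)
        refine ENat.toENNReal_le.2 ?_
        have hinj : Function.Injective (fun C : Set (ℝ × ℝ) => (fun x : ℝ × ℝ => R⁻¹ • x) '' C) :=
          (smul_right_injective _ (inv_ne_zero hR.ne')).image_injective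
        rw [← hinj.encard_image]
        refine Set.encard_le_encard ?_
        rintro _ ⟨C, ⟨hC, hCΩ, x, hx, y, hy, hxy⟩, rfl⟩
        refine ⟨?_, image_mono hCΩ, R⁻¹ • x, ⟨x, hx, rfl⟩, R⁻¹ • y, ⟨y, hy, rfl⟩, ?_⟩
        · have h1 := closedOrbit_resc hR hC
          have h2 : fld (resc R (rotc α c)) = fun p => rot α (field P Q p) := by
            rw [resc_rotc, hPQ]
            ext1 p
            exact (rot_fld α (resc R c) p).symm
          rwa [h2] at h1
        · obtain ⟨h1, h2⟩ := hxy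
          simp only at h1 h2
          refine chord_big ?_ ?_
          · rw [norm_smul, norm_inv, Real.norm_eq_abs, abs_of_pos hR, inv_mul_le_iff₀ hR, mul_one]
            exact h1
          · rw [← smul_sub, sq_smul', inv_pow, inv_mul_eq_div, le_div_iff₀ (by positivity)]
            refine le_trans (le_of_eq ?_) h2
            have h3 : R = 2 ^ 64 * Rj j := by rw [hRdef, Rj_succ, Rj_succ]; ring
            rw [h3]
            ring
    _ ≤ ∫⁻ α, g α := setLIntegral_le_lintegral _ _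
    _ ≤ _ := hg3
    _ = _ := by
        congr 1
        rw [div_eq_mul_inv, ← inv_pow, one_div, inv_inv]
        unfold dg
        ring

/-- averaging over rotations with two bounds -/
lemma integral_of_exceptional2 {N : (S → ℝ × ℝ) → ℝ≥0∞} (hN : Measurable N) {M : ℝ}
    {A : Set (S → ℝ × ℝ)} (hA : MeasurableSet A) {C₁ C₂ : ℝ≥0∞}
    (h0 : ∀ c ∈ BM S M, c ∉ A → ∫⁻ α in Ioo 0 π, N (rotc α c) ≤ C₂)
    (h1 : ∀ c, ∫⁻ α in Ioo 0 π, N (rotc α c) ≤ C₁) :
    ∫⁻ c in BM S M, N c ≤ C₁ * volume (BM S M ∩ A) + C₂ * volume (BM S M) := by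
  have hmB := measurableSet_BM (S := S) M
  calc ∫⁻ c in BM S M, N c = 1 * ∫⁻ c in BM S M, N c := (one_mul _).symm
    _ ≤ ENNReal.ofReal π * ∫⁻ c in BM S M, N c := by
        gcongr
        rw [ENNReal.one_le_ofReal]
        linarith [pi_gt_three]
    _ = ∫⁻ c in BM S M, ∫⁻ α in Ioo 0 π, N (rotc α c) := lintegral_rot hN M
    _ ≤ ∫⁻ c in BM S M, (A.indicator (fun _ => C₁) c + C₂) := by
        refine setLIntegral_mono' hmB fun c hc => ?_
        by_cases hcA : c ∈ A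
        · rw [indicator_of_mem hcA]; exact (h1 c).trans le_self_add
        · rw [indicator_of_notMem hcA, zero_add]
          exact h0 c hc hcA
    _ = _ := by
        rw [lintegral_add_right _ measurable_const, lintegral_indicator hA, setLIntegral_const,
          setLIntegral_const, Measure.restrict_apply hA, inter_comm]

theorem int_big {n : ℕ} (hn : Odd n) (hnS : dg S ≤ n) (hn0 : (n, 0) ∈ S) (h0n : (0, n) ∈ S)
    {M : ℝ} (hM : 0 ≤ M) : ∃ A : ℝ, 0 ≤ A ∧ ∀ (j : ℕ) (m : ℝ),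
      ∫⁻ c in BM S M, ((ClsF (fld c) (AnnM j m) (Fbig j)).encard : ℝ≥0∞) ≤
        ENNReal.ofReal (A * (1 / 2) ^ j) := by
  obtain ⟨K, hK1, hK⟩ := exists_quad S hn M
  have hK0 : 0 < K := by linarith
  set v : ℝ≥0∞ := volume (Metric.closedBall (0 : S → ℝ × ℝ) (M + 2)) with hv
  have hvfin : v ≠ ⊤ := (isCompact_closedBall _ _).measure_lt_top.ne
  have hvr : v = ENNReal.ofReal v.toReal := (ENNReal.ofReal_toReal hvfin).symm
  set V := v.toReal with hV
  have hV0 : 0 ≤ V := ENNReal.toReal_nonneg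
  have hvol1 : volume (Metric.closedBall (0 : S → ℝ × ℝ) (M + 1)) ≤ v :=
    measure_mono (Metric.closedBall_subset_closedBall (by linarith))
  have hvolB : volume (BM S M) ≤ v := (measure_mono (BM_subset hM)).trans
    (measure_mono (Metric.closedBall_subset_closedBall (by linarith)))
  set κ := cK S n M with hκ
  set E₀ : ℝ := √2 * (Fintype.card S * M) with hE₀
  have hE₀0 : 0 ≤ E₀ := by positivity
  set lam : ℝ := 1 + 256 * K ^ 3 * E₀ with hlam
  have hlam1 : 1 ≤ lam := by rw [hlam]; have : 0 ≤ 256 * K ^ 3 * E₀ := by positivity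
                             linarith
  have hlam0 : 0 < lam := by linarith
  set η : ℝ := (1 / 2) ^ 141 with hη
  have hη0 : 0 < η := by positivity
  have hlog : 0 < Real.log (1 + η) := Real.log_pos (by linarith)
  set B₁ : ℝ := 2 ^ 71 * π ^ 2 * (dg S + 1) with hB₁
  have hB₁0 : 0 ≤ B₁ := by positivity
  have hcI := cInf_nonneg (S := S) n M
  set B₂ : ℝ := 3 / Real.log (1 + η) * (32 * (cInf S n M * (128 * K ^ 3 / lam ^ 4) ^ 2)) with hB₂
  have hB₂0 : 0 ≤ B₂ := by positivity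
  set B₃ : ℝ := 24 * κ ^ 2 + (narc n + 1) * (8 * 2 ^ n) * (lam + E₀) with hB₃
  have hB₃0 : 0 ≤ B₃ := by positivity
  refine ⟨B₁ * (B₃ * V) + B₂ * V, add_nonneg (mul_nonneg hB₁0 (mul_nonneg hB₃0 hV0))
    (mul_nonneg hB₂0 hV0), fun j m => ?_⟩
  set R := Rj j with hR
  have hR0 : 0 < R := Rj_pos j
  have hR1 : 1 ≤ R := one_le_Rj j
  set h := (1 / 2 : ℝ) ^ j with hh
  have hh0 : 0 < h := by positivity
  have hh1 : h ≤ 1 := pow_le_one₀ (by norm_num) (by norm_num)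
  have hRh : R⁻¹ = h ^ 32 := by
    rw [hR, hh]; unfold Rj
    rw [← pow_mul, mul_comm j 32, one_div, inv_pow]
  have hR' : R⁻¹ ≤ h := by
    rw [hRh]
    calc h ^ 32 ≤ h ^ 1 := pow_le_pow_of_le_one hh0.le hh1 (by norm_num)
      _ = h := pow_one h
  set ρ := lam * h with hρ
  have hρ0 : 0 < ρ := by positivity
  set δ := epsR S M R with hδ
  have hδ0 : 0 ≤ δ := epsR_nonneg hM hR0.le
  have hδE : δ = E₀ * R⁻¹ := by
    rw [hδ, hE₀]; unfold epsR; ring
  have hδh : δ ≤ E₀ * h := by rw [hδE]; gcongr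
  set m₀ := ρ ^ 4 / (128 * K ^ 3) with hm₀
  have hm₀0 : 0 < m₀ := by positivity
  have hερ : epsR S M R ≤ ρ ^ 4 / (256 * K ^ 3) := by
    rw [← hδ, hδE, hRh, hρ, le_div_iff₀ (by positivity)]
    have h1 : h ^ 32 ≤ h ^ 4 := pow_le_pow_of_le_one hh0.le hh1 (by norm_num)
    have h2 : lam ≤ lam ^ 4 := by
      calc lam = lam ^ 1 := (pow_one _).symm
        _ ≤ lam ^ 4 := pow_le_pow_right₀ hlam1 (by norm_num)
    calc E₀ * h ^ 32 * (256 * K ^ 3) ≤ E₀ * h ^ 4 * (256 * K ^ 3) := by gcongr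
      _ = (256 * K ^ 3 * E₀) * h ^ 4 := by ring
      _ ≤ lam * h ^ 4 := by gcongr; rw [hlam]; linarith
      _ ≤ lam ^ 4 * h ^ 4 := by gcongr
      _ = _ := by ring
  have hεm : epsR S M R ≤ m₀ / 2 := by
    refine hερ.trans (le_of_eq ?_)
    rw [hm₀]; field_simp; norm_num
  set D := KR S n M (κ / R) (2 ^ (32 * j)) ∪ Bset S n M ρ δ with hD
  have hDm : MeasurableSet D := (measurableSet_KR _ _ _ _).union (measurableSet_Bset _ _ _ _)
  have hN : R ≤ ((2 ^ (32 * j) : ℕ) : ℝ) := by rw [hR]; unfold Rj; push_cast; exact le_rfl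
  have hvolD : volume (BM S M ∩ D) ≤ ENNReal.ofReal (B₃ * h) * v := by
    calc volume (BM S M ∩ D) ≤ volume (BM S M ∩ KR S n M (κ / R) (2 ^ (32 * j))) +
          volume (Bset S n M ρ δ) := by
          rw [hD, inter_union_distrib_left]
          exact (measure_union_le _ _).trans (add_le_add le_rfl (measure_mono inter_subset_right))
      _ ≤ ENNReal.ofReal (24 * κ ^ 2 / R) * v +
          ENNReal.ofReal ((narc n + 1) * (8 * 2 ^ n) * (ρ + δ)) * v := by
          refine add_le_add ((vol_KR_j hn0 h0n hM j).trans ?_) (vol_Bset hn hn0 h0n hM hρ0.le hδ0)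
          gcongr
      _ = ENNReal.ofReal (24 * κ ^ 2 / R + (narc n + 1) * (8 * 2 ^ n) * (ρ + δ)) * v := by
          rw [← add_mul, ENNReal.ofReal_add (by positivity) (by positivity)]
      _ ≤ _ := by
          gcongr
          rw [hB₃, div_eq_mul_inv]
          calc 24 * κ ^ 2 * R⁻¹ + (narc n + 1) * (8 * 2 ^ n) * (ρ + δ)
              ≤ 24 * κ ^ 2 * h + (narc n + 1) * (8 * 2 ^ n) * (lam * h + E₀ * h) := by gcongr
            _ = _ := by ring
  have hoff : ∀ c ∈ BM S M, c ∉ D → ∫⁻ α in Ioo 0 π,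
      ((ClsF (fld (rotc α c)) (AnnM j m) (Fbig j)).encard : ℝ≥0∞) ≤
        ENNReal.ofReal (B₂ * h) := by
    intro c hc hcD
    rw [hD, mem_union, not_or] at hcD
    have hcn := norm_le_of_mem_BM hM hc
    obtain ⟨g, hg1, hg2, hg3⟩ := count_infty hnS hcn hR1 hm₀0 hεm (isCompact_AnnM j m)
      (fun z hz => hz.1) (isOpen_Gbig j) hη0 (Gbig_ratio j) (by
        rintro α - ⟨C, hC, hCΩ, -⟩
        exact ang_lower hn hnS hM hK1 hK hR1 hρ0 le_rfl hερ hN hc hcD.1
          (goodDir_of_notMem hc hcD.2) α hC (fun z hz => (hCΩ hz).1))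
    calc ∫⁻ α in Ioo 0 π, ((ClsF (fld (rotc α c)) (AnnM j m) (Fbig j)).encard : ℝ≥0∞)
        ≤ ∫⁻ α in Ioo 0 π, g α := by
          refine setLIntegral_mono' measurableSet_Ioo fun α hα => le_trans ?_ (hg2 α hα)
          refine ENat.toENNReal_le.2 (Set.encard_le_encard ?_)
          rintro C ⟨hC, hCΩ, x, hx, y, hy, hxy⟩
          exact ⟨hC, hCΩ, x, hx, y, hy, Fbig_subset j hxy⟩
      _ ≤ ∫⁻ α, g α := setLIntegral_le_lintegral _ _
      _ ≤ _ := hg3
      _ ≤ _ := by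
          apply ENNReal.ofReal_le_ofReal
          have e1 : 3 / Real.log (1 + η) * (32 * (cInf S n M / m₀ ^ 2) / R) =
              B₂ * (h ^ 24) := by
            rw [hB₂, hm₀, hρ, div_eq_mul_inv (32 * _) R, hRh]
            field_simp
          rw [e1]
          gcongr
          calc h ^ 24 ≤ h ^ 1 := pow_le_pow_of_le_one hh0.le hh1 (by norm_num)
            _ = h := pow_one h
  refine (integral_of_exceptional2 (measurable_countF (isCompact_AnnM j m) (isClosed_Fbig j))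
    hDm (C₁ := ENNReal.ofReal B₁) (C₂ := ENNReal.ofReal (B₂ * h)) hoff
    (fun c => big_bound c j (isCompact_AnnM j m))).trans ?_
  calc ENNReal.ofReal B₁ * volume (BM S M ∩ D) + ENNReal.ofReal (B₂ * h) * volume (BM S M)
      ≤ ENNReal.ofReal B₁ * (ENNReal.ofReal (B₃ * h) * ENNReal.ofReal V) +
        ENNReal.ofReal (B₂ * h) * ENNReal.ofReal V := by
        rw [← hvr]; gcongr
    _ = _ := by
        have g1 : 0 ≤ B₃ * h := mul_nonneg hB₃0 hh0.le
        have g2 : 0 ≤ B₂ * h := mul_nonneg hB₂0 hh0.le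
        rw [← ENNReal.ofReal_mul g1, ← ENNReal.ofReal_mul hB₁0, ← ENNReal.ofReal_mul g2,
          ← ENNReal.ofReal_add (mul_nonneg hB₁0 (mul_nonneg g1 hV0)) (mul_nonneg g2 hV0)]
        congr 1
        ring

end

end Pool.Agent.H709R2
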