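import Pool.Agent.H709R2.WChart

/-! Integral of the number of closed orbits in a cell far from the origin (all degrees). -/

open Real Set MeasureTheory Topology Filter
open scoped ENNReal

namespace Pool.Agent.H709R2

noncomputable section

variable {S : Finset (ℕ × ℕ)}

/-- the local statement in a chart -/
lemma chart_no_orbit3 {e : S → ℕ × ℕ} {M K : ℝ} (hK : ∀ c : S → ℝ × ℝ, ‖c‖ ≤ M → ∀ p q : ℝ × ℝ,
      ‖p‖ ≤ 3 → ‖q‖ ≤ 3 → ‖fderiv ℝ (gfl e c) p‖ ≤ K ∧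
      ‖gfl e c p - gfl e c q‖ ≤ K * ‖p - q‖ ∧
      ‖gfl e c p - gfl e c q - fderiv ℝ (gfl e c) q (p - q)‖ ≤ K * ‖p - q‖ ^ 2) (hK0 : 1 ≤ K)
    {r L : ℝ} (hr : 1 ≤ r) (hL : 0 < L) {Ω : Set (ℝ × ℝ)} {m : ℝ × ℝ → ℝ} {ζ : ℝ × ℝ → ℝ × ℝ}
    {ζ₀ : ℝ × ℝ} {s : ℝ} (hm : ∀ z ∈ Ω, 0 < s * m z) (hζ3 : ∀ z ∈ Ω, ‖ζ z‖ ≤ 3) (hζ₀ : ‖ζ₀‖ ≤ 3)
    (h1 : ∀ z ∈ Ω, |(ζ z).1 - ζ₀.1| ≤ 6 * L / r) (h2 : ∀ z ∈ Ω, |(ζ z).2 - ζ₀.2| ≤ 3 * L / r ^ 2)
    {c : S → ℝ × ℝ} (hc : ‖c‖ ≤ M) (hfld : ∀ z ∈ Ω, fld c z = m z • gfl e c (ζ z))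
    (hT : c ∉ actv e (9 * K * (L / r)) (51 * K * (L ^ 2 / r ^ 2 + L / r ^ 2)) ζ₀)
    (α : ℝ) {C : Set (ℝ × ℝ)} (hC : ClosedOrbit (fld (rotc α c)) C) (hCΩ : C ⊆ Ω) : False := by
  have hr0 : 0 < r := by linarith
  have hK00 : 0 < K := by linarith
  set v := gfl e c ζ₀ with hv
  set d := fderiv ℝ (gfl e c) ζ₀ (1, 0) with hd
  have hδ : ∀ z ∈ Ω, ‖ζ z - ζ₀‖ ≤ 6 * L / r := by
    intro z hz
    rw [Prod.norm_def, max_le_iff]
    refine ⟨h1 z hz, (h2 z hz).trans ?_⟩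
    rw [div_le_div_iff₀ (by positivity) hr0]
    have : L * r ≤ L * r ^ 2 := by
      have : r ≤ r ^ 2 := by nlinarith
      gcongr
    nlinarith
  obtain ⟨a, ha⟩ := exists_functional (G := (fun z => gfl e c (ζ z)) '' Ω) (v := v) (d := d)
    (s₁ := 9 * K * (L / r)) (s₂ := 51 * K * (L ^ 2 / r ^ 2 + L / r ^ 2)) (by
      rintro _ ⟨z, hz, rfl⟩
      have e1 := (hK c hc (ζ z) ζ₀ (hζ3 z hz) hζ₀).2.1
      have e2 : ‖gfl e c (ζ z) - v‖ ≤ 6 * K * (L / r) := by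
        refine e1.trans ?_
        calc K * ‖ζ z - ζ₀‖ ≤ K * (6 * L / r) := by gcongr; exact hδ z hz
          _ = _ := by ring
      have e3 := pow_le_pow_left₀ (norm_nonneg _) e2 2
      refine (sq_le_norm _).trans ?_
      nlinarith [sq_nonneg (K * (L / r))]) (by
      rintro _ ⟨z, hz, rfl⟩
      refine ⟨(ζ z).1 - ζ₀.1, ?_⟩
      obtain ⟨k1, -, k3⟩ := hK c hc (ζ z) ζ₀ (hζ3 z hz) hζ₀
      have k1' := (hK c hc ζ₀ ζ₀ hζ₀ hζ₀).1
      have e1 : gfl e c (ζ z) - v - ((ζ z).1 - ζ₀.1) • d =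
          (gfl e c (ζ z) - gfl e c ζ₀ - fderiv ℝ (gfl e c) ζ₀ (ζ z - ζ₀)) +
          ((ζ z).2 - ζ₀.2) • fderiv ℝ (gfl e c) ζ₀ (0, 1) := by
        rw [clm_decomp (fderiv ℝ (gfl e c) ζ₀) (ζ z - ζ₀), ← hv, ← hd]
        simp only [Prod.fst_sub, Prod.snd_sub]
        abel
      have e2 : ‖fderiv ℝ (gfl e c) ζ₀ (0, 1)‖ ≤ K := by
        have h5 : ‖((0:ℝ), (1:ℝ))‖ = 1 := by simp [Prod.norm_def]
        have := (fderiv ℝ (gfl e c) ζ₀).le_opNorm ((0:ℝ), (1:ℝ))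
        rw [h5, mul_one] at this
        exact this.trans k1'
      have e3 : ‖gfl e c (ζ z) - v - ((ζ z).1 - ζ₀.1) • d‖ ≤
          36 * K * (L ^ 2 / r ^ 2 + L / r ^ 2) := by
        rw [e1]
        refine (norm_add_le _ _).trans ?_
        rw [norm_smul, Real.norm_eq_abs]
        have f1 : K * ‖ζ z - ζ₀‖ ^ 2 ≤ K * (6 * L / r) ^ 2 := by gcongr; exact hδ z hz
        have f2 : |(ζ z).2 - ζ₀.2| * ‖fderiv ℝ (gfl e c) ζ₀ (0, 1)‖ ≤ (3 * L / r ^ 2) * K := by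
          gcongr
          exact h2 z hz
        calc _ ≤ K * (6 * L / r) ^ 2 + (3 * L / r ^ 2) * K := add_le_add (k3.trans f1) f2
          _ = 36 * K * (L ^ 2 / r ^ 2) + 3 * K * (L / r ^ 2) := by ring
          _ ≤ 36 * K * (L ^ 2 / r ^ 2) + 36 * K * (L / r ^ 2) := by
              gcongr
              norm_num
          _ = _ := by ring
      have e4 := pow_le_pow_left₀ (norm_nonneg _) e3 2
      refine (sq_le_norm _).trans ?_
      nlinarith [sq_nonneg (K * (L ^ 2 / r ^ 2 + L / r ^ 2))]) hT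
  refine no_orbit_of_functional_rot (a := (s * a.1, s * a.2)) (fun z hz => ?_) α hC hCΩ
  have h3 := ha _ ⟨z, hz, rfl⟩
  rw [hfld z hz]
  simp only [Prod.smul_fst, Prod.smul_snd, smul_eq_mul]
  have h4 := mul_pos (hm z hz) h3
  calc 0 < s * m z * (a.1 * (gfl e c (ζ z)).1 + a.2 * (gfl e c (ζ z)).2) := h4
    _ = _ := by ring

lemma chart_sign {a x r L : ℝ} (hr : 1 ≤ r) (hL : 8 * L ≤ r) (ha : |a| = r)
    (hx : |x - a| ≤ 2 * L) (n : ℕ) : 0 < a ^ n * x ^ n := by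
  rw [← mul_pow]
  apply pow_pos
  have h1 := (abs_le.1 hx)
  rcases abs_cases a with ⟨h, h'⟩ | ⟨h, h'⟩
  · have : 0 < a := by linarith
    have : 0 < x := by linarith
    positivity
  · have h2 : a < 0 := h'
    have h3 : x < 0 := by linarith
    exact mul_pos_of_neg_of_neg h2 h3

/-- a cell far from the origin -/
theorem cell_thin_integral3 {n : ℕ} (hnS : dg S ≤ n) (hn0 : (n, 0) ∈ S)
    (h0n : (0, n) ∈ S) {M θ : ℝ} (hM : 0 ≤ M) (hθ : 0 < θ) :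
    ∃ A : ℝ, 0 ≤ A ∧ ∀ q : ℝ × ℝ, ∀ L : ℝ, 0 < L → 1 ≤ ‖q‖ → 8 * L ≤ ‖q‖ →
      ∫⁻ c in BM S M, ((Cls (fld c) (sqr q (2 * L)) (θ * L)).encard : ℝ≥0∞) ≤
        ENNReal.ofReal (A * ((L / ‖q‖) ^ 2 * ((L + 1) / ‖q‖))) := by
  obtain ⟨K₁, hK₁1, hK₁⟩ := exists_unif_gfl (ex1 n : S → ℕ × ℕ) M 3
  obtain ⟨K₂, hK₂1, hK₂⟩ := exists_unif_gfl (ex2 n : S → ℕ × ℕ) M 3
  set K := max K₁ K₂ with hKdef
  have hK1 : 1 ≤ K := hK₁1.trans (le_max_left _ _)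
  have hK0 : 0 < K := by linarith
  have hKa : ∀ c : S → ℝ × ℝ, ‖c‖ ≤ M → ∀ p q : ℝ × ℝ, ‖p‖ ≤ 3 → ‖q‖ ≤ 3 →
      ‖fderiv ℝ (gfl (ex1 n) c) p‖ ≤ K ∧
      ‖gfl (ex1 n) c p - gfl (ex1 n) c q‖ ≤ K * ‖p - q‖ ∧
      ‖gfl (ex1 n) c p - gfl (ex1 n) c q - fderiv ℝ (gfl (ex1 n) c) q (p - q)‖ ≤
        K * ‖p - q‖ ^ 2 := by
    intro c hc p q hp hq
    obtain ⟨h1, h2, h3⟩ := hK₁ c hc p q hp hq
    have hle : K₁ ≤ K := le_max_left _ _
    exact ⟨h1.trans hle, h2.trans (by gcongr), h3.trans (by gcongr)⟩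
  have hKb : ∀ c : S → ℝ × ℝ, ‖c‖ ≤ M → ∀ p q : ℝ × ℝ, ‖p‖ ≤ 3 → ‖q‖ ≤ 3 →
      ‖fderiv ℝ (gfl (ex2 n) c) p‖ ≤ K ∧
      ‖gfl (ex2 n) c p - gfl (ex2 n) c q‖ ≤ K * ‖p - q‖ ∧
      ‖gfl (ex2 n) c p - gfl (ex2 n) c q - fderiv ℝ (gfl (ex2 n) c) q (p - q)‖ ≤
        K * ‖p - q‖ ^ 2 := by
    intro c hc p q hp hq
    obtain ⟨h1, h2, h3⟩ := hK₂ c hc p q hp hq
    have hle : K₂ ≤ K := le_max_right _ _
    exact ⟨h1.trans hle, h2.trans (by gcongr), h3.trans (by gcongr)⟩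
  set v : ℝ≥0∞ := volume (Metric.closedBall (0 : S → ℝ × ℝ) (M + 1)) with hv
  have hvfin : v ≠ ⊤ := (isCompact_closedBall _ _).measure_lt_top.ne
  have hvr : v = ENNReal.ofReal v.toReal := (ENNReal.ofReal_toReal hvfin).symm
  set V := v.toReal with hV
  have hV0 : 0 ≤ V := ENNReal.toReal_nonneg
  set C₁ : ℝ := 4 * π * dg S / θ with hC₁
  have hC₁0 : 0 ≤ C₁ := by positivity
  refine ⟨C₁ * (8 * 9 * 51) * K ^ 2 * V, by positivity, fun q L hL hq1 hqL => ?_⟩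
  set r := ‖q‖ with hr
  have hr0 : 0 < r := by linarith
  have hΩ : IsCompact (sqr q (2 * L)) := isCompact_Icc.prod isCompact_Icc
  have hNm : Measurable fun c : S → ℝ × ℝ =>
      ((Cls (fld c) (sqr q (2 * L)) (θ * L)).encard : ℝ≥0∞) := measurable_count hΩ _
  have hb1 : ∀ c : S → ℝ × ℝ, ∫⁻ α in Ioo 0 π,
      ((Cls (fld (rotc α c)) (sqr q (2 * L)) (θ * L)).encard : ℝ≥0∞) ≤ ENNReal.ofReal C₁ := by
    intro c
    refine (bound_one S c q (by positivity) (by positivity)).trans ?_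
    apply ENNReal.ofReal_le_ofReal
    rw [hC₁]
    apply le_of_eq
    unfold dg
    field_simp
    ring
  set s₁ := 9 * K * (L / r) with hs₁
  set s₂ := 51 * K * (L ^ 2 / r ^ 2 + L / r ^ 2) with hs₂
  have hs₁0 : 0 ≤ s₁ := by positivity
  have hs₂0 : 0 ≤ s₂ := by positivity
  have hfin : ∀ A : Set (S → ℝ × ℝ), volume (BM S M ∩ A) ≤ ENNReal.ofReal (8 * s₁ * s₂) * v →
      ENNReal.ofReal C₁ * volume (BM S M ∩ A) ≤
        ENNReal.ofReal (C₁ * (8 * 9 * 51) * K ^ 2 * V * ((L / r) ^ 2 * ((L + 1) / r))) := by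
    intro A hA
    calc ENNReal.ofReal C₁ * volume (BM S M ∩ A)
        ≤ ENNReal.ofReal C₁ * (ENNReal.ofReal (8 * s₁ * s₂) * ENNReal.ofReal V) := by
          rw [← hvr]; gcongr
      _ = _ := by
          rw [← ENNReal.ofReal_mul (by positivity), ← ENNReal.ofReal_mul (by positivity)]
          congr 1
          rw [hs₁, hs₂]
          field_simp
  have hmem : ∀ z ∈ sqr q (2 * L), |z.1 - q.1| ≤ 2 * L ∧ |z.2 - q.2| ≤ 2 * L := by
    intro z hz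
    have h1 := mem_sqr.1 hz
    exact ⟨(norm_fst_le (z - q)).trans h1, (norm_snd_le (z - q)).trans h1⟩
  have hq1' : |q.1| ≤ r := norm_fst_le q
  have hq2' : |q.2| ≤ r := norm_snd_le q
  rcases max_choice ‖q.1‖ ‖q.2‖ with hmx | hmx
  · -- first chart
    have hqa : |q.1| = r := by
      rw [hr, Prod.norm_def, hmx]; rfl
    have hself := chart_coords hq1 hqL hqa hq2' (x := q.1) (y := q.2)
      (by simp; positivity) (by simp; positivity)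
    refine (integral_of_exceptional hNm (A := actv (ex1 n) s₁ s₂ (q.2 / q.1, 1 / q.1))
      (measurableSet_actv _ _ _ _) ?_ hb1).trans (hfin _ ?_)
    · intro c hc hcA α
      rw [ENat.toENNReal_eq_zero, Set.encard_eq_zero]
      ext C
      simp only [Cls, mem_ofPred_eq, mem_empty_iff_false, iff_false]
      rintro ⟨hC, hCΩ, -⟩
      refine chart_no_orbit3 hKa hK1 hq1 hL (Ω := sqr q (2 * L)) (m := fun z => z.1 ^ n) (s := q.1 ^ n)
        (ζ := fun z => (z.2 / z.1, 1 / z.1)) (ζ₀ := (q.2 / q.1, 1 / q.1)) ?_ ?_ ?_ ?_ ?_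
        (norm_le_of_mem_BM hM hc) ?_ hcA α hC hCΩ
      · intro z hz
        obtain ⟨h1, h2⟩ := hmem z hz
        exact chart_sign hq1 hqL hqa h1 n
      · intro z hz
        obtain ⟨h1, h2⟩ := hmem z hz
        have := chart_coords hq1 hqL hqa hq2' h1 h2
        exact norm_mk_le this.2.1 this.2.2.1
      · exact norm_mk_le hself.2.1 hself.2.2.1
      · intro z hz
        obtain ⟨h1, h2⟩ := hmem z hz
        exact (chart_coords hq1 hqL hqa hq2' h1 h2).2.2.2.1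
      · intro z hz
        obtain ⟨h1, h2⟩ := hmem z hz
        exact (chart_coords hq1 hqL hqa hq2' h1 h2).2.2.2.2
      · intro z hz
        obtain ⟨h1, h2⟩ := hmem z hz
        exact fld_chart1 hnS c (chart_coords hq1 hqL hqa hq2' h1 h2).1
    · exact vol_actv (ex1 n) ⟨(n, 0), hn0⟩ (by simp [ex1]) hs₁0 hs₂0 _ hM
  · -- second chart
    have hqa : |q.2| = r := by
      rw [hr, Prod.norm_def, hmx]; rfl
    have hself := chart_coords hq1 hqL hqa hq1' (x := q.2) (y := q.1)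
      (by simp; positivity) (by simp; positivity)
    refine (integral_of_exceptional hNm (A := actv (ex2 n) s₁ s₂ (q.1 / q.2, 1 / q.2))
      (measurableSet_actv _ _ _ _) ?_ hb1).trans (hfin _ ?_)
    · intro c hc hcA α
      rw [ENat.toENNReal_eq_zero, Set.encard_eq_zero]
      ext C
      simp only [Cls, mem_ofPred_eq, mem_empty_iff_false, iff_false]
      rintro ⟨hC, hCΩ, -⟩
      refine chart_no_orbit3 hKb hK1 hq1 hL (Ω := sqr q (2 * L)) (m := fun z => z.2 ^ n) (s := q.2 ^ n)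
        (ζ := fun z => (z.1 / z.2, 1 / z.2)) (ζ₀ := (q.1 / q.2, 1 / q.2)) ?_ ?_ ?_ ?_ ?_
        (norm_le_of_mem_BM hM hc) ?_ hcA α hC hCΩ
      · intro z hz
        obtain ⟨h1, h2⟩ := hmem z hz
        exact chart_sign hq1 hqL hqa h2 n
      · intro z hz
        obtain ⟨h1, h2⟩ := hmem z hz
        have := chart_coords hq1 hqL hqa hq1' h2 h1
        exact norm_mk_le this.2.1 this.2.2.1
      · exact norm_mk_le hself.2.1 hself.2.2.1
      · intro z hz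
        obtain ⟨h1, h2⟩ := hmem z hz
        exact (chart_coords hq1 hqL hqa hq1' h2 h1).2.2.2.1
      · intro z hz
        obtain ⟨h1, h2⟩ := hmem z hz
        exact (chart_coords hq1 hqL hqa hq1' h2 h1).2.2.2.2
      · intro z hz
        obtain ⟨h1, h2⟩ := hmem z hz
        exact fld_chart2 hnS c (chart_coords hq1 hqL hqa hq1' h2 h1).1
    · exact vol_actv (ex2 n) ⟨(0, n), h0n⟩ (by simp [ex2]) hs₁0 hs₂0 _ hM

end

end Pool.Agent.H709R2
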