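import Pool.Agent.H709R2.OEuler

/-! Count of closed orbits near infinity when the angular component is bounded below. -/

open Real Set MeasureTheory Topology Filter
open scoped ENNReal

namespace Pool.Agent.H709R2

noncomputable section

variable {S : Finset (ℕ × ℕ)}

/-- lower bound of the angular component of the field -/
lemma ang_fld_ge {n : ℕ} (hnS : dg S ≤ n) {c : S → ℝ × ℝ} {M : ℝ} (hc : ‖c‖ ≤ M) {R : ℝ}
    (hR : 1 ≤ R) {m₀ : ℝ} (hε : epsR S M R ≤ m₀ / 2) (α : ℝ) {σ : ℝ} (hσ : σ = 1 ∨ σ = -1)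
    (hlow : ∀ u, sq u = 1 → m₀ < σ * wedge u (topf n (rotc α c) u)) {z : ℝ × ℝ}
    (hz : R ≤ ‖z‖) : m₀ / 2 * ‖z‖ ^ (n + 1) ≤ |wedge z (fld (rotc α c) z)| := by
  have hM : 0 ≤ M := (norm_nonneg _).trans hc
  have hz0 : z ≠ 0 := by
    intro h
    rw [h, norm_zero] at hz
    linarith
  have hε0 : 0 ≤ epsR S M R := epsR_nonneg hM (by linarith)
  have hm0 : 0 ≤ m₀ := by linarith
  have hqp : 0 < sq z := sq_pos hz0
  set r := √(sq z) with hr
  have hr0 : 0 < r := Real.sqrt_pos.2 hqp
  have hr2 : r ^ 2 = sq z := Real.sq_sqrt hqp.le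
  set u := r⁻¹ • z with hu
  have hzu : z = r • u := by rw [hu, smul_smul, mul_inv_cancel₀ hr0.ne', one_smul]
  have hu1 : sq u = 1 := by
    rw [hu, sq_smul', ← hr2]; field_simp
  set T := topf n (rotc α c) with hT
  set E := fld (rotc α c) z - T z with hEd
  have hTz : T z = r ^ n • T u := by
    conv_lhs => rw [hzu, hT, topf_smul]
  have hVz : fld (rotc α c) z = r ^ n • T u + E := by
    rw [hEd, hTz]; abel
  have hEb := err_bound hnS hc hR α z hz
  rw [← hT, ← hEd] at hEb
  set ϱ := r * r ^ n with hϱ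
  have hϱ0 : 0 < ϱ := by rw [hϱ]; positivity
  have hEz : sq z * sq E ≤ (epsR S M R * ϱ) ^ 2 := by
    calc sq z * sq E ≤ sq z * (epsR S M R ^ 2 * sq z ^ n) := by gcongr
      _ = _ := by rw [← hr2, hϱ]; ring
  have hdec := wedge_sq_add_dot_sq z E
  have b2 : |wedge z E| ≤ epsR S M R * ϱ := by
    apply abs_le_of_sq_le_sq _ (by positivity)
    nlinarith [sq_nonneg (z.1 * E.1 + z.2 * E.2)]
  have hwed : wedge z (fld (rotc α c) z) = ϱ * wedge u (T u) + wedge z E := by
    rw [hVz, hϱ]
    have e1 : z.1 = r * u.1 := by rw [hzu]; rfl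
    have e2 : z.2 = r * u.2 := by rw [hzu]; rfl
    unfold wedge
    simp only [Prod.fst_add, Prod.snd_add, Prod.smul_fst, Prod.smul_snd, smul_eq_mul]
    rw [e1, e2]
    ring
  have hσ1 : |σ| = 1 := by rcases hσ with h | h <;> rw [h] <;> simp
  have h1 := hlow u hu1
  have h2 : ϱ * m₀ - epsR S M R * ϱ ≤ σ * wedge z (fld (rotc α c) z) := by
    rw [hwed, mul_add]
    have h3 : |σ * wedge z E| ≤ epsR S M R * ϱ := by rw [abs_mul, hσ1, one_mul]; exact b2
    have h4 := neg_abs_le (σ * wedge z E)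
    have h5 : ϱ * m₀ ≤ σ * (ϱ * wedge u (T u)) := by
      calc ϱ * m₀ ≤ ϱ * (σ * wedge u (T u)) := by gcongr
        _ = _ := by ring
    linarith
  have h3 : σ * wedge z (fld (rotc α c) z) ≤ |wedge z (fld (rotc α c) z)| := by
    have := le_abs_self (σ * wedge z (fld (rotc α c) z))
    rwa [abs_mul, hσ1, one_mul] at this
  have h4 : ‖z‖ ≤ r := by
    rw [hr]
    exact Real.le_sqrt_of_sq_le (norm_le_sq z)
  have h5 : ‖z‖ ^ (n + 1) ≤ ϱ := by
    rw [hϱ, pow_succ, mul_comm]
    gcongr
  calc m₀ / 2 * ‖z‖ ^ (n + 1) ≤ m₀ / 2 * ϱ := by gcongr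
    _ ≤ ϱ * m₀ - epsR S M R * ϱ := by nlinarith
    _ ≤ _ := h2.trans h3

/-- constant -/
def cInf (S : Finset (ℕ × ℕ)) (n : ℕ) (M : ℝ) : ℝ := 8 * n * (Fintype.card S * M) ^ 2

lemma cInf_nonneg (n : ℕ) (M : ℝ) : 0 ≤ cInf S n M := by unfold cInf; positivity

theorem count_infty {n : ℕ} (hnS : dg S ≤ n) {c : S → ℝ × ℝ} {M : ℝ} (hc : ‖c‖ ≤ M) {R : ℝ}
    (hR : 1 ≤ R) {m₀ : ℝ} (hm₀ : 0 < m₀) (hε : epsR S M R ≤ m₀ / 2)
    {Ω : Set (ℝ × ℝ)} (hΩc : IsCompact Ω) (hΩR : ∀ z ∈ Ω, R ≤ ‖z‖)
    {G : Set ((ℝ × ℝ) × (ℝ × ℝ))} (hG : IsOpen G) {η : ℝ} (hη : 0 < η)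
    (hGη : ∀ x y : ℝ × ℝ, (x, y) ∈ G → x ≠ 0 → η ≤ sq (y - x) / sq x)
    (hlow : ∀ α ∈ Ioo 0 π, (ClsF (fld (rotc α c)) Ω G).Nonempty →
      ∃ σ : ℝ, (σ = 1 ∨ σ = -1) ∧ ∀ u, sq u = 1 → m₀ < σ * wedge u (topf n (rotc α c) u)) :
    ∃ g : ℝ → ℝ≥0∞, Measurable g ∧
      (∀ α ∈ Ioo 0 π, ((ClsF (fld (rotc α c)) Ω G).encard : ℝ≥0∞) ≤ g α) ∧
      ∫⁻ α, g α ≤ ENNReal.ofReal (3 / Real.log (1 + η) * (32 * (cInf S n M / m₀ ^ 2) / R)) := by
  have hM : 0 ≤ M := (norm_nonneg _).trans hc
  have hR0 : 0 < R := by linarith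
  set F := fld c with hFdef
  have hF : ContDiff ℝ 2 F := contDiff_fld c
  obtain ⟨R', hR'⟩ := hΩc.isBounded.exists_norm_le
  obtain ⟨X, hX, ⟨K, hK⟩, ⟨M', hM'⟩, hXF⟩ := exists_cutoff hF R'
  obtain ⟨φ, hφ⟩ := exists_rotFlow hX hK hM'
  have hfr : ∀ α z, fld (rotc α c) z = rot α (F z) := fun α z => (rot_fld α c z).symm
  have hlog : 0 < Real.log (1 + η) := Real.log_pos (by linarith)
  set A := cInf S n M / m₀ ^ 2 with hA
  have hA0 : 0 ≤ A := by rw [hA]; have := cInf_nonneg (S := S) n M; positivity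
  set h : ℝ × ℝ → ℝ≥0∞ := fun p => ENNReal.ofReal (A / ‖p‖ ^ 3) with hh
  have hhm : Measurable h := by
    rw [hh]
    exact (measurable_const.div (continuous_norm.measurable.pow_const 3)).ennreal_ofReal
  obtain ⟨g, hg1, hg2, hg3⟩ := master3 (w := wang X) (ℓ := Real.log (1 + η) / 3) (Γ := Gᶜ)
    (Ω := Ω) hφ hX hΩc.isClosed hG.isClosed_compl hhm (by positivity) (by
      rintro α hα p T hmp hpΩ ⟨s, t, hst⟩
      rw [mem_compl_iff, not_not] at hst
      have hXΩ : ∀ z ∈ Ω, X z = F z := fun z hz => (hXF z (hR' z hz)).eq_of_nhds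
      -- a closed orbit of the original field
      have hCl : (ClsF (fld (rotc α c)) Ω G).Nonempty := by
        refine ⟨range (fun t => φ t p α), ⟨fun t => φ t p α, T, hmp.pos, fun t => ?_,
          fun t => hφ.periodic hmp.per t, ⟨0, T / 2, ?_⟩, rfl⟩, ?_, φ s p α, ⟨s, rfl⟩, φ t p α,
          ⟨t, rfl⟩, hst⟩
        · simp only
          rw [hfr, ← hXΩ _ (hpΩ t)]
          exact hφ.deriv p α t
        · simp only [hφ.zero]
          exact (hmp.min (T / 2) ⟨by linarith [hmp.pos], by linarith [hmp.pos]⟩).symm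
        · rintro _ ⟨t, rfl⟩
          exact hpΩ t
      obtain ⟨σ, hσ, hlo⟩ := hlow α hα hCl
      have hang : ∀ z ∈ Ω, m₀ / 2 * ‖z‖ ^ (n + 1) ≤ |wedge z (rot α (X z))| := by
        intro z hz
        rw [hXΩ z hz, ← hfr]
        exact ang_fld_ge hnS hc hR hε α hσ hlo (hΩR z hz)
      have hang0 : ∀ z ∈ Ω, wedge z (rot α (X z)) ≠ 0 := by
        intro z hz h0
        have h1 := hang z hz
        rw [h0, abs_zero] at h1
        have h2 : 0 < ‖z‖ := by linarith [hΩR z hz]
        have : 0 < m₀ / 2 * ‖z‖ ^ (n + 1) := by positivity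
        linarith
      have hp : p ∈ Ω := by
        have := hpΩ 0
        rwa [hφ.zero] at this
      refine ⟨contDiffAt_wang hX (hang0 p hp), ?_, ?_⟩
      · -- the length
        rw [← wlen_shift hφ hmp s]
        have hs := hmp.shift hφ s
        set q := φ s p α with hq
        have hqΩ : ∀ r, φ r q α ∈ Ω := by
          intro r
          rw [hq, ← hφ.add]
          exact hpΩ _
        have hper : Function.Periodic (fun t => φ t q α) T := fun t => hφ.periodic hs.per t
        obtain ⟨u, hu, hu2⟩ := hper.exists_mem_Ico₀ hs.pos (t - s)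
        have hq' : φ t p α = φ u q α := by
          have : φ (t - s) q α = φ t p α := by rw [hq, ← hφ.add, sub_add_cancel]
          rw [← this]; exact hu2
        rw [hq'] at hst
        have hne : ∀ r, φ r q α ≠ 0 := by
          intro r h0
          have := hΩR _ (hqΩ r)
          rw [h0, norm_zero] at this
          linarith
        have hV : Continuous fun t => rot α (X (φ t q α)) :=
          (continuous_rot α).comp (hX.continuous.comp (hφ.continuous_orbit q α))
        have hlen := log_len (hφ.deriv q α) hV hne hu.1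
        rw [hφ.zero] at hlen
        have hq0 : q ≠ 0 := by
          have := hne 0
          rwa [hφ.zero] at this
        have h1 := hGη _ _ hst hq0
        have h2 : Real.log (1 + η) ≤ Real.log (1 + sq (φ u q α - q) / sq q) :=
          Real.log_le_log (by linarith) (by linarith)
        have hcont : Continuous fun t => √(sq (rot α (X (φ t q α)))) / √(sq (φ t q α)) := by
          refine Continuous.div (continuous_sq.comp hV).sqrt
            (continuous_sq.comp (hφ.continuous_orbit q α)).sqrt fun t => ?_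
          exact (Real.sqrt_pos.2 (sq_pos (hne t))).ne'
        have hcw : Continuous fun t => wang X α (φ t q α) * sq (X (φ t q α)) := by
          rw [continuous_iff_continuousAt]
          intro r
          have h3 : ContinuousAt (fun t => wang X α (φ t q α)) r :=
            ContinuousAt.comp (f := fun t : ℝ => φ t q α)
              (contDiffAt_wang hX (hang0 _ (hqΩ r))).continuousAt
              (hφ.continuous_orbit q α).continuousAt
          exact h3.mul (continuous_sq.comp
            (hX.continuous.comp (hφ.continuous_orbit q α))).continuousAt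
        have h3 : ∫ t in (0:ℝ)..u, √(sq (rot α (X (φ t q α)))) / √(sq (φ t q α)) ≤
            ∫ t in (0:ℝ)..T, √(sq (rot α (X (φ t q α)))) / √(sq (φ t q α)) := by
          rw [← intervalIntegral.integral_add_adjacent_intervals (hcont.intervalIntegrable 0 u)
            (hcont.intervalIntegrable u T)]
          have h4 : 0 ≤ ∫ t in u..T, √(sq (rot α (X (φ t q α)))) / √(sq (φ t q α)) :=
            intervalIntegral.integral_nonneg hu.2.le fun t _ => by positivity
          linarith
        have h4 : ∫ t in (0:ℝ)..T, √(sq (rot α (X (φ t q α)))) / √(sq (φ t q α)) ≤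
            wlen X φ (wang X α) α q T := by
          unfold wlen
          refine intervalIntegral.integral_mono_on hs.pos.le (hcont.intervalIntegrable _ _)
            (hcw.intervalIntegrable _ _) fun t _ => ?_
          set z := φ t q α with hz
          set v := rot α (X z) with hv
          have hvs : sq (X z) = sq v := by rw [hv, sq_rot]
          have hw0 : 0 < |wedge z v| := abs_pos.2 (hang0 z (hqΩ t))
          have hz0 : 0 < √(sq z) := Real.sqrt_pos.2 (sq_pos (hne t))
          unfold wang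
          rw [← hv, hvs, inv_mul_eq_div, div_le_div_iff₀ hz0 hw0]
          have h5 : |wedge z v| ≤ √(sq z) * √(sq v) := by
            rw [← Real.sqrt_mul (sq_nonneg' _)]
            apply Real.abs_le_sqrt
            rw [← wedge_sq_add_dot_sq]
            nlinarith [sq_nonneg (z.1 * v.1 + z.2 * v.2)]
          calc √(sq v) * |wedge z v| ≤ √(sq v) * (√(sq z) * √(sq v)) := by gcongr
            _ = (√(sq v) * √(sq v)) * √(sq z) := by ring
            _ = sq v * √(sq z) := by rw [Real.mul_self_sqrt (sq_nonneg' _)]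
        linarith
      · -- the divergence
        simp only [hh]
        apply ENNReal.ofReal_le_ofReal
        rw [abs_divW_wang hX (hang0 p hp)]
        have heq := hXF p (hR' p hp)
        rw [heq.fderiv_eq, hXΩ p hp]
        have hpR := hΩR p hp
        have hp1 : 1 ≤ ‖p‖ := hR.trans hpR
        have hp0 : 0 < ‖p‖ := by linarith
        have h1 := wedge_fderiv_le hnS hc hp1
        have h2 := hang p hp
        rw [hXΩ p hp] at h2
        have h3 : (m₀ / 2 * ‖p‖ ^ (n + 1)) ^ 2 ≤ wedge p (rot α (F p)) ^ 2 := by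
          rw [← sq_abs (wedge p (rot α (F p)))]
          gcongr
        have h4 : 0 < (m₀ / 2 * ‖p‖ ^ (n + 1)) ^ 2 := by positivity
        calc |wedge (fderiv ℝ F p p) (F p)| / wedge p (rot α (F p)) ^ 2
            ≤ (2 * n * (Fintype.card S * M) ^ 2 * (‖p‖ ^ n) ^ 2 / ‖p‖) /
              (m₀ / 2 * ‖p‖ ^ (n + 1)) ^ 2 := by gcongr
          _ = A / ‖p‖ ^ 3 := by
              rw [hA]
              unfold cInf
              rw [pow_succ ‖p‖ n]
              field_simp
              ring)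
  refine ⟨g, hg1, ?_, hg3.trans ?_⟩
  · intro α hα
    refine le_trans ?_ (hg2 α hα)
    refine ENat.toENNReal_le.2 (Set.encard_le_encard ?_)
    rintro C ⟨⟨γ, T, hT, hγ, hper, hnc, rfl⟩, hCΩ, x, hx, y, hy, hxy⟩
    have hγ' : ∀ t, HasDerivAt γ (rot α (X (γ t))) t := by
      intro t
      rw [(hXF (γ t) (hR' _ (hCΩ ⟨t, rfl⟩))).eq_of_nhds, ← hfr]
      exact hγ t
    obtain ⟨T₀, hmp, hrange⟩ := minPer_of_closed hφ hT hγ' hper hnc
    exact ⟨γ 0, T₀, hmp, hrange, hCΩ, x, hx, y, hy, by rw [mem_compl_iff, not_not]; exact hxy⟩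
  · rw [show 1 / (Real.log (1 + η) / 3) = 3 / Real.log (1 + η) by field_simp,
      ENNReal.ofReal_mul (by positivity)]
    gcongr
    exact lintegral_cube hR0 hΩc.measurableSet hΩR hA0

end

end Pool.Agent.H709R2
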