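import Pool.Agent.H709R2.Master2

/-! The master inequality with a weight depending on the angle. -/

open Real Set MeasureTheory Topology Filter
open scoped ENNReal

namespace Pool.Agent.H709R2

noncomputable section

variable {X : ℝ × ℝ → ℝ × ℝ} {φ : ℝ → ℝ × ℝ → ℝ → ℝ × ℝ}

namespace Patch

variable {p₀ : ℝ × ℝ}

lemma continuous_divW_snd3 (hφ : RotFlow X φ) (hX : ContDiff ℝ 2 X) (P : Patch X φ p₀) {s : ℝ}
    (hs : s ∈ Ioo (-P.ε) P.ε) {w : ℝ × ℝ → ℝ} (hw : ∀ t, ContDiffAt ℝ 1 w (P.Q (s, t))) :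
    Continuous fun t : ℝ => divW w X (P.a s) (P.Q (s, t)) := by
  have hQ := P.continuous_Q_snd hφ s
  rw [continuous_iff_continuousAt]
  intro t
  have hwt := hw t
  have h1 : ContinuousAt (fderiv ℝ w) (P.Q (s, t)) :=
    (hwt.fderiv_right (m := 0) (by norm_num)).continuousAt
  have h2 : ContinuousAt (fun t : ℝ => fderiv ℝ w (P.Q (s, t))) t :=
    ContinuousAt.comp (f := fun t : ℝ => P.Q (s, t)) h1 hQ.continuousAt
  have h3 : Continuous fun t : ℝ => rot (P.a s) (X (P.Q (s, t))) :=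
    (continuous_rot _).comp (hX.continuous.comp hQ)
  have h4 : ContinuousAt (fun t : ℝ => fderiv ℝ w (P.Q (s, t)) (rot (P.a s) (X (P.Q (s, t))))) t :=
    h2.clm_apply h3.continuousAt
  have h5 : ContinuousAt (fun t : ℝ => w (P.Q (s, t))) t :=
    ContinuousAt.comp (f := fun t : ℝ => P.Q (s, t)) hwt.continuousAt hQ.continuousAt
  have h6 : Continuous fun t : ℝ => divRot X (P.a s) (P.Q (s, t)) := by
    have h7 : Continuous fun t : ℝ => ((P.a s, P.Q (s, t)) : ℝ × (ℝ × ℝ)) :=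
      continuous_const.prodMk hQ
    have h8 := (continuous_divRot hX).comp h7
    exact h8
  unfold divW
  exact h4.add (h5.mul h6.continuousAt)

lemma continuous_w_snd3 (hφ : RotFlow X φ) (hX : ContDiff ℝ 2 X) (P : Patch X φ p₀) {s : ℝ}
    (hs : s ∈ Ioo (-P.ε) P.ε) {w : ℝ × ℝ → ℝ} (hw : ∀ t, ContDiffAt ℝ 1 w (P.Q (s, t))) :
    Continuous fun t : ℝ => w (P.Q (s, t)) * sq (X (P.Q (s, t))) := by
  have hQ := P.continuous_Q_snd hφ s
  rw [continuous_iff_continuousAt]
  intro t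
  have hwt := hw t
  have h5 : ContinuousAt (fun t : ℝ => w (P.Q (s, t))) t :=
    ContinuousAt.comp (f := fun t : ℝ => P.Q (s, t)) hwt.continuousAt hQ.continuousAt
  exact h5.mul (continuous_sq.comp (hX.continuous.comp hQ)).continuousAt

/-- the identity `a'(s) ∫ w |X|² = ∫ div(w X_α) J` over one period -/
theorem identity3 (hφ : RotFlow X φ) (hX : ContDiff ℝ 2 X) (P : Patch X φ p₀) {s : ℝ}
    (hs : s ∈ Ioo (-P.ε) P.ε) {w : ℝ × ℝ → ℝ} (hw : ∀ t, ContDiffAt ℝ 1 w (P.Q (s, t))) :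
    deriv P.a s * P.len w s =
      ∫ t in (0:ℝ)..P.T s, divW w X (P.a s) (P.Q (s, t)) * Jac P.Q (s, t) := by
  have ha : HasDerivAt P.a (deriv P.a s) s :=
    ((P.ha s hs).differentiableAt (by norm_num)).hasDerivAt
  have hd : ∀ t, HasDerivAt (fun t => w (P.Q (s, t)) * Jac P.Q (s, t))
      (divW w X (P.a s) (P.Q (s, t)) * Jac P.Q (s, t) -
        deriv P.a s * (w (P.Q (s, t)) * sq (X (P.Q (s, t))))) t := fun t =>
    hasDerivAt_wJac (P.contDiffAt_Q hφ hs t) (eventually_flow_QQ hφ (P.hσ s hs) (P.ha s hs)) ha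
      (hX.differentiable (by norm_num) _)
      ((hw t).differentiableAt (by norm_num))
  have c1 : Continuous fun t : ℝ => divW w X (P.a s) (P.Q (s, t)) * Jac P.Q (s, t) :=
    (P.continuous_divW_snd3 hφ hX hs hw).mul (P.continuous_Jac_snd hφ hs)
  have c2 : Continuous fun t : ℝ => deriv P.a s * (w (P.Q (s, t)) * sq (X (P.Q (s, t)))) :=
    (P.continuous_w_snd3 hφ hX hs hw).const_mul (deriv P.a s)
  have c3 : Continuous fun t : ℝ => divW w X (P.a s) (P.Q (s, t)) * Jac P.Q (s, t) -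
      deriv P.a s * (w (P.Q (s, t)) * sq (X (P.Q (s, t)))) := c1.sub c2
  have h1 := intervalIntegral.integral_eq_sub_of_hasDerivAt
    (fun t (_ : t ∈ uIcc 0 (P.T s)) => hd t) (c3.intervalIntegrable _ _)
  rw [P.Jac_period hφ hs] at h1
  have e3 : P.Q (s, P.T s) = P.Q (s, 0) := by
    have := P.Q_period hφ hs 0
    rwa [zero_add] at this
  rw [e3, sub_self] at h1
  rw [intervalIntegral.integral_sub (c1.intervalIntegrable _ _) (c2.intervalIntegrable _ _),
    intervalIntegral.integral_const_mul] at h1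
  unfold len
  linarith

/-- the measure inequality on a patch -/
theorem lintegral_deriv_le3 (hφ : RotFlow X φ) (hX : ContDiff ℝ 2 X) (P : Patch X φ p₀)
    {S : Set ℝ} (hS : MeasurableSet S) (hSε : S ⊆ Ioo (-P.ε) P.ε)
    {w : ℝ → ℝ × ℝ → ℝ} (hw : ∀ s ∈ S, ∀ t, ContDiffAt ℝ 1 (w (P.a s)) (P.Q (s, t)))
    {h : ℝ × ℝ → ℝ≥0∞} (hh : Measurable h)
    (hbd : ∀ s ∈ S, ∀ t, ENNReal.ofReal |divW (w (P.a s)) X (P.a s) (P.Q (s, t))| ≤ h (P.Q (s, t)))
    {ℓ : ℝ} (hℓ : 0 < ℓ) (hlen : ∀ s ∈ S, ℓ ≤ P.len (w (P.a s)) s) :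
    ∫⁻ s in S, ENNReal.ofReal |deriv P.a s| ≤
      ENNReal.ofReal (1 / ℓ) * ∫⁻ p in P.Q '' P.strip S, h p := by
  set F : ℝ × ℝ → ℝ≥0∞ := fun z => ENNReal.ofReal |Jac P.Q z| * h (P.Q z) with hF
  -- pointwise bound
  have hpt : ∀ s ∈ S, ENNReal.ofReal |deriv P.a s| ≤
      ENNReal.ofReal (1 / ℓ) * ∫⁻ t in Ico 0 (P.T s), F (s, t) := by
    intro s hs
    have hsε := hSε hs
    have hT := P.hT s hsε
    have hid := P.identity3 hφ hX hsε (hw s hs)
    have c1 : Continuous fun t : ℝ => divW (w (P.a s)) X (P.a s) (P.Q (s, t)) * Jac P.Q (s, t) :=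
      (P.continuous_divW_snd3 hφ hX hsε (hw s hs)).mul (P.continuous_Jac_snd hφ hsε)
    have h1 : |deriv P.a s| * ℓ ≤
        ∫ t in (0:ℝ)..P.T s, |divW (w (P.a s)) X (P.a s) (P.Q (s, t)) * Jac P.Q (s, t)| := by
      calc |deriv P.a s| * ℓ ≤ |deriv P.a s| * P.len (w (P.a s)) s := by
            gcongr; exact hlen s hs
        _ = |deriv P.a s * P.len (w (P.a s)) s| := by
            rw [abs_mul, abs_of_nonneg (hℓ.le.trans (hlen s hs))]
        _ ≤ _ := by
            rw [hid]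
            exact intervalIntegral.abs_integral_le_integral_abs hT.le
    have h2 : |deriv P.a s| ≤ 1 / ℓ *
        ∫ t in (0:ℝ)..P.T s, |divW (w (P.a s)) X (P.a s) (P.Q (s, t)) * Jac P.Q (s, t)| := by
      rw [one_div, inv_mul_eq_div, le_div_iff₀ hℓ]
      exact h1
    refine (ENNReal.ofReal_le_ofReal h2).trans ?_
    rw [ENNReal.ofReal_mul (by positivity)]
    gcongr
    rw [intervalIntegral.integral_of_le hT.le]
    rw [ofReal_integral_eq_lintegral_ofReal]
    · rw [← restrict_Ico_eq_restrict_Ioc]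
      refine lintegral_mono fun t => ?_
      simp only [hF]
      rw [abs_mul, ENNReal.ofReal_mul (abs_nonneg _), mul_comm]
      gcongr
      exact hbd s hs t
    · exact (c1.abs.intervalIntegrable 0 (P.T s)).1
    · exact Eventually.of_forall fun t => abs_nonneg _
  -- measurability
  have hO : MeasurableSet (Ioo (-P.ε) P.ε ×ˢ (univ : Set ℝ)) := measurableSet_Ioo.prod MeasurableSet.univ
  have hstrip := P.measurableSet_strip hS hSε
  have hsub : P.strip S ⊆ Ioo (-P.ε) P.ε ×ˢ (univ : Set ℝ) := fun z hz => ⟨hSε hz.1, trivial⟩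
  have hQm : AEMeasurable P.Q (volume.restrict (P.strip S)) :=
    ((P.continuousOn_Q hφ).mono hsub).aemeasurable hstrip
  have hFm : AEMeasurable F (volume.restrict (P.strip S)) :=
    ((P.measurable_Jac.abs.ennreal_ofReal).aemeasurable).mul (hh.comp_aemeasurable hQm)
  have hind : AEMeasurable ((P.strip S).indicator F) (volume : Measure (ℝ × ℝ)) :=
    (aemeasurable_indicator_iff hstrip).2 hFm
  -- Tonelli
  have h3 : ∫⁻ z in P.strip S, F z = ∫⁻ s in S, ∫⁻ t in Ico 0 (P.T s), F (s, t) := by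
    rw [← lintegral_indicator hstrip, Measure.volume_eq_prod, lintegral_prod _
      (by rw [← Measure.volume_eq_prod]; exact hind)]
    rw [← lintegral_indicator hS]
    congr 1
    ext s
    by_cases hs : s ∈ S
    · rw [indicator_of_mem hs, ← lintegral_indicator measurableSet_Ico]
      congr 1
      ext t
      by_cases ht : t ∈ Ico 0 (P.T s)
      · rw [indicator_of_mem ht, indicator_of_mem]
        exact ⟨hs, ht⟩
      · rw [indicator_of_notMem ht, indicator_of_notMem]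
        exact fun hc => ht hc.2
    · rw [indicator_of_notMem hs]
      have : ∀ t, (P.strip S).indicator F (s, t) = 0 := fun t =>
        indicator_of_notMem (fun hc => hs hc.1) _
      simp [this]
  -- area formula
  have h4 : ∫⁻ p in P.Q '' P.strip S, h p = ∫⁻ z in P.strip S, F z := by
    have hsub2 : P.strip S ⊆ {z : ℝ × ℝ | z.1 ∈ Ioo (-P.ε) P.ε ∧ z.2 ∈ Ico 0 (P.T z.1)} :=
      fun z hz => ⟨hSε hz.1, hz.2⟩
    have hinj' : InjOn P.Q (P.strip S) := P.hinj.mono hsub2
    have h5 := lintegral_image_eq_lintegral_abs_det_fderiv_mul volume hstrip (f := P.Q)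
      (f' := fderiv ℝ P.Q)
      (fun z hz => ((P.contDiffAt_Q hφ (hSε hz.1) z.2).differentiableAt
        (by norm_num)).hasFDerivAt.hasFDerivWithinAt)
      hinj' h
    rw [h5]
    refine lintegral_congr fun z => ?_
    simp only [hF, Jac]
    rw [GR.Flow.det_plane]
    unfold wedge
    congr 4
    ring
  calc ∫⁻ s in S, ENNReal.ofReal |deriv P.a s|
      ≤ ∫⁻ s in S, ENNReal.ofReal (1 / ℓ) * ∫⁻ t in Ico 0 (P.T s), F (s, t) :=
        setLIntegral_mono' hS hpt
    _ = ENNReal.ofReal (1 / ℓ) * ∫⁻ s in S, ∫⁻ t in Ico 0 (P.T s), F (s, t) :=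
        lintegral_const_mul' _ _ ENNReal.ofReal_ne_top
    _ = ENNReal.ofReal (1 / ℓ) * ∫⁻ p in P.Q '' P.strip S, h p := by rw [h4, h3]

end Patch

/-- **Master inequality**: the upper integral over the angle of the number of good closed orbits
is controlled by the integral of the divergence of the weighted field. -/
theorem master3 (hφ : RotFlow X φ) (hX : ContDiff ℝ 2 X)
    {w : ℝ → ℝ × ℝ → ℝ}
    {Ω : Set (ℝ × ℝ)} (hΩ : IsClosed Ω) {Γ : Set ((ℝ × ℝ) × (ℝ × ℝ))} (hΓ : IsClosed Γ)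
    {h : ℝ × ℝ → ℝ≥0∞} (hh : Measurable h) {ℓ : ℝ} (hℓ : 0 < ℓ)
    (hbd : ∀ α ∈ Ioo 0 π, ∀ p T, MinPer X φ α p T → (∀ t, φ t p α ∈ Ω) →
      (∃ s t, (φ s p α, φ t p α) ∉ Γ) →
      ContDiffAt ℝ 1 (w α) p ∧ ℓ ≤ wlen X φ (w α) α p T ∧
        ENNReal.ofReal |divW (w α) X α p| ≤ h p) :
    ∃ g : ℝ → ℝ≥0∞, Measurable g ∧
      (∀ α ∈ Ioo 0 π, ({C | Good2 X φ Ω Γ α C}.encard : ℝ≥0∞) ≤ g α) ∧
      ∫⁻ α, g α ≤ ENNReal.ofReal (1 / ℓ) * ∫⁻ p in Ω, h p := by
  classical
  set U : Set (ℝ × ℝ) := {p | ∃ α ∈ Ioo 0 π, ∃ C, Good2 X φ Ω Γ α C ∧ p ∈ C} with hU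
  have hpatch : ∀ p ∈ U, Nonempty (Patch X φ p) := by
    rintro p ⟨α, hα, C, ⟨q, T, hq, rfl, -, -⟩, ⟨u, rfl⟩⟩
    exact good_patch hφ hX hα hq u
  by_cases hUe : U = ∅
  · refine ⟨fun _ => 0, measurable_const, ?_, by simp⟩
    intro α hα
    have : {C | Good2 X φ Ω Γ α C} = ∅ := by
      ext C
      simp only [mem_ofPred_eq, mem_empty_iff_false, iff_false]
      intro hC
      have hC' := hC
      obtain ⟨p, T, h1, rfl, -, -⟩ := hC
      have : φ 0 p α ∈ U := ⟨α, hα, _, hC', ⟨0, rfl⟩⟩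
      rw [hUe] at this
      exact this
    rw [this]
    simp
  -- countable cover
  set V : ℝ × ℝ → Set (ℝ × ℝ) := fun p => if hp : p ∈ U then (hpatch p hp).some.reg else univ with hV
  have hVn : ∀ p ∈ U, V p ∈ 𝓝[U] p := by
    intro p hp
    simp only [hV, dif_pos hp]
    exact mem_nhdsWithin_of_mem_nhds ((hpatch p hp).some.reg_mem_nhds hφ)
  obtain ⟨t, htU, htc, hcover⟩ := TopologicalSpace.countable_cover_nhdsWithin hVn
  have htne : t.Nonempty := by
    by_contra hne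
    rw [Set.not_nonempty_iff_eq_empty] at hne
    subst hne
    simp only [mem_empty_iff_false, iUnion_of_empty, iUnion_empty, subset_empty_iff] at hcover
    exact hUe hcover
  obtain ⟨e, he⟩ := htc.exists_eq_range htne
  have heU : ∀ k, e k ∈ U := fun k => htU (by rw [he]; exact mem_range_self k)
  set P : ∀ k, Patch X φ (e k) := fun k => (hpatch (e k) (heU k)).some with hP
  have hcov : ∀ p ∈ U, ∃ k, p ∈ (P k).reg := by
    intro p hp
    have h1 := hcover hp
    simp only [mem_iUnion] at h1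
    obtain ⟨q, hq, hq2⟩ := h1
    rw [he] at hq
    obtain ⟨k, rfl⟩ := hq
    refine ⟨k, ?_⟩
    simp only [hV, dif_pos (heU k)] at hq2
    exact hq2
  have hregm : ∀ k, MeasurableSet (P k).reg := fun k =>
    (P k).measurableSet_image hφ measurableSet_Ioo subset_rfl
  -- earlier regions and good parameters
  set B : ℕ → Set (ℝ × ℝ) := fun k => ⋃ j : ℕ, ⋃ (_ : j < k), (P j).reg with hB
  have hBm : ∀ k, MeasurableSet (B k) := fun k =>
    MeasurableSet.iUnion fun j => MeasurableSet.iUnion fun _ => hregm j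
  set S : ℕ → Set ℝ := fun k => (P k).good2 Ω (B k) Γ with hS
  have hSm : ∀ k, MeasurableSet (S k) := fun k => (P k).measurableSet_good2 hφ hX hΓ hΩ (hBm k)
  have hSε : ∀ k, S k ⊆ Ioo (-(P k).ε) (P k).ε := fun k s hs => hs.1
  have hSprop : ∀ k, ∀ s ∈ S k, ∀ t, ContDiffAt ℝ 1 (w ((P k).a s)) ((P k).Q (s, t)) ∧
      ℓ ≤ (P k).len (w ((P k).a s)) s ∧
      ENNReal.ofReal |divW (w ((P k).a s)) X ((P k).a s) ((P k).Q (s, t))| ≤ h ((P k).Q (s, t)) := by
    intro k s hs t
    have hmp := (P k).minPer hφ (hSε k hs)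
    have hmp' := hmp.shift hφ t
    have h1 := hbd _ ((P k).haπ s (hSε k hs)) ((P k).Q (s, t)) _ hmp' (by
      intro r
      have h2 := hs.2.2.1 (r + t)
      have h3 : φ r ((P k).Q (s, t)) ((P k).a s) = (P k).Q (s, r + t) := by
        simp only [Patch.Q, QQ]
        rw [hφ.add]
      rw [h3]
      exact h2) (by
      obtain ⟨r, r', hrr⟩ := hs.2.2.2
      refine ⟨r - t, r' - t, ?_⟩
      have h3 : ∀ r, φ (r - t) ((P k).Q (s, t)) ((P k).a s) = (P k).Q (s, r) := by
        intro r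
        simp only [Patch.Q, QQ]
        rw [← hφ.add, sub_add_cancel]
      rw [h3, h3]
      exact hrr)
    refine ⟨h1.1, ?_, h1.2.2⟩
    have h4 := h1.2.1
    rw [show (P k).Q (s, t) = φ t ((P k).σ s) ((P k).a s) from rfl, wlen_shift hφ hmp] at h4
    exact h4
  -- one-dimensional indicatrix on each patch
  have hind : ∀ k, ∃ g : ℝ → ℝ≥0∞, Measurable g ∧
      (∀ β, ((S k ∩ (P k).a ⁻¹' {β}).encard : ℝ≥0∞) ≤ g β) ∧
      ∫⁻ β, g β ≤ ENNReal.ofReal (1 / ℓ) * ∫⁻ p in (P k).Q '' (P k).strip (S k), h p := by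
    intro k
    obtain ⟨g, hg1, hg2, hg3⟩ := indicatrix (hSm k) (a := (P k).a) (a' := deriv (P k).a)
      (fun s hs => (((P k).ha s (hSε k hs)).differentiableAt (by norm_num)).hasDerivAt)
    refine ⟨g, hg1, hg2, hg3.trans ?_⟩
    exact (P k).lintegral_deriv_le3 hφ hX (hSm k) (hSε k) (w := w)
      (fun s hs t => (hSprop k s hs t).1) hh
      (fun s hs t => (hSprop k s hs t).2.2) hℓ (fun s hs => (hSprop k s hs 0).2.1)
  choose g hg1 hg2 hg3 using hind
  refine ⟨fun β => ∑' k, g k β, Measurable.tsum hg1, ?_, ?_⟩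
  · -- counting
    intro α hα
    refine encard_le_of_finset fun F hF => ?_
    have hch : ∀ C ∈ F, ∃ k : ℕ, ∃ s, s ∈ S k ∧ (P k).a s = α ∧
        C = range (fun t => (P k).Q (s, t)) := by
      intro C hC
      have hCg : Good2 X φ Ω Γ α C := hF hC
      have hCg' := hCg
      obtain ⟨p, T, hmp, hCr, hCΩ, x, hxC, y, hyC, hxy⟩ := hCg
      have hex : ∃ k, (C ∩ (P k).reg).Nonempty := by
        have hpC : φ 0 p α ∈ C := by rw [hCr]; exact ⟨0, rfl⟩
        obtain ⟨k, hk⟩ := hcov (φ 0 p α) ⟨α, hα, C, hCg', hpC⟩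
        exact ⟨k, _, hpC, hk⟩
      set k := Nat.find hex with hk
      obtain ⟨q, hqC, ⟨⟨s, t⟩, ⟨hs, ht⟩, hq⟩⟩ := Nat.find_spec hex
      rw [← hk] at hs ht hq
      simp only at hs ht
      rw [hCr] at hqC
      obtain ⟨u, hu⟩ := hqC
      simp only at hu
      have hmps := (P k).minPer hφ hs
      have hq' : φ t ((P k).σ s) ((P k).a s) = q := hq
      obtain ⟨e1, e2⟩ := orbit_eq hφ hX.continuous hα ((P k).haπ s hs) hmp hmps
        (hu.trans hq'.symm)
      have hrange : C = range (fun t => (P k).Q (s, t)) := by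
        rw [hCr]
        have h5 : (fun r => (P k).Q (s, r)) = fun r => φ r (φ (u - t) p α) α := by
          ext1 r
          simp only [Patch.Q, QQ]
          rw [← e1, e2]
        rw [h5, range_shift hφ]
      refine ⟨k, s, ⟨hs, ?_, ?_, ?_⟩, e1.symm, hrange⟩
      · -- not in an earlier region
        intro hσB
        simp only [hB, mem_iUnion] at hσB
        obtain ⟨j, hj, hj2⟩ := hσB
        refine Nat.find_min hex hj ⟨(P k).σ s, ?_, hj2⟩
        rw [hrange]
        exact ⟨0, (P k).Q_zero hφ s⟩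
      · intro r
        apply hCΩ
        rw [hrange]
        exact ⟨r, rfl⟩
      · rw [hrange] at hxC hyC
        obtain ⟨r, rfl⟩ := hxC
        obtain ⟨r', rfl⟩ := hyC
        exact ⟨r, r', hxy⟩
    choose! kk ss h1 h2 h3 using hch
    have hinj : ∀ k, Set.InjOn ss (F.filter fun C => kk C = k) := by
      intro k C hC C' hC' hss
      simp only [Finset.coe_filter, mem_ofPred_eq] at hC hC'
      rw [h3 C hC.1, h3 C' hC'.1, hC.2, hC'.2, hss]
    calc (F.card : ℝ≥0∞) = ((∑ k ∈ F.image kk, (F.filter fun C => kk C = k).card : ℕ) : ℝ≥0∞) := by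
          congr 1
          exact Finset.card_eq_sum_card_image kk F
      _ = ∑ k ∈ F.image kk, ((F.filter fun C => kk C = k).card : ℝ≥0∞) := by push_cast; rfl
      _ ≤ ∑ k ∈ F.image kk, g k α := by
          refine Finset.sum_le_sum fun k _ => ?_
          refine le_trans ?_ (hg2 k α)
          have h4 : ((F.filter fun C => kk C = k).card : ℕ∞) ≤
              (S k ∩ (P k).a ⁻¹' {α}).encard := by
            rw [← Set.encard_coe_eq_coe_finsetCard, ← (hinj k).encard_image]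
            apply Set.encard_le_encard
            rintro _ ⟨C, hC, rfl⟩
            simp only [Finset.coe_filter, mem_ofPred_eq] at hC
            have h5 := h1 C hC.1
            have h6 := h2 C hC.1
            rw [hC.2] at h5 h6
            exact ⟨h5, h6⟩
          have h7 := ENat.toENNReal_le.2 h4
          simpa using h7
      _ ≤ ∑' k, g k α := ENNReal.sum_le_tsum _
  · -- integral
    have hmeasimg : ∀ k, MeasurableSet ((P k).Q '' (P k).strip (S k)) := fun k =>
      (P k).measurableSet_image hφ (hSm k) (hSε k)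
    have hdisj : Pairwise (Function.onFun Disjoint fun k => (P k).Q '' (P k).strip (S k)) := by
      have key : ∀ j k, j < k → Disjoint ((P j).Q '' (P j).strip (S j))
          ((P k).Q '' (P k).strip (S k)) := by
        intro j k hjk
        rw [Set.disjoint_left]
        rintro _ ⟨⟨s', t'⟩, ⟨hs', ht'⟩, rfl⟩ ⟨⟨s, t⟩, ⟨hs, ht⟩, heq⟩
        simp only at hs' ht' hs ht
        have hm1 := (P j).minPer hφ (hSε j hs')
        have hm2 := (P k).minPer hφ (hSε k hs)
        have heq' : φ t' ((P j).σ s') ((P j).a s') = φ t ((P k).σ s) ((P k).a s) := heq.symm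
        obtain ⟨e1, e2⟩ := orbit_eq hφ hX.continuous ((P j).haπ s' (hSε j hs'))
          ((P k).haπ s (hSε k hs)) hm1 hm2 heq'
        apply hs.2.1
        simp only [hB, mem_iUnion]
        refine ⟨j, hjk, ?_⟩
        rw [e2]
        exact (P j).mem_reg hφ (hSε j hs') (t' - t)
      intro j k hjk
      rcases lt_or_gt_of_ne hjk with h | h
      · exact key j k h
      · exact (key k j h).symm
    rw [lintegral_tsum fun k => (hg1 k).aemeasurable]
    calc ∑' k, ∫⁻ β, g k β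
        ≤ ∑' k, ENNReal.ofReal (1 / ℓ) * ∫⁻ p in (P k).Q '' (P k).strip (S k), h p :=
          ENNReal.tsum_le_tsum hg3
      _ = ENNReal.ofReal (1 / ℓ) * ∫⁻ p in ⋃ k, (P k).Q '' (P k).strip (S k), h p := by
          rw [ENNReal.tsum_mul_left, lintegral_iUnion hmeasimg hdisj]
      _ ≤ ENNReal.ofReal (1 / ℓ) * ∫⁻ p in Ω, h p := by
          gcongr
          rintro _ hx
          simp only [mem_iUnion] at hx
          obtain ⟨k, ⟨s, t⟩, ⟨hs, ht⟩, rfl⟩ := hx
          exact hs.2.2.1 t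

end

end Pool.Agent.H709R2
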