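import Pool.Agent.H709R2.OBad
import Pool.Agent.H709R2.OMaster

/-! The weight `|z ∧ X_α|⁻¹`. -/

open Real Set MeasureTheory Topology Filter
open scoped ENNReal

namespace Pool.Agent.H709R2

noncomputable section

variable {X : ℝ × ℝ → ℝ × ℝ}

/-- the weight -/
def wang (X : ℝ × ℝ → ℝ × ℝ) (α : ℝ) (z : ℝ × ℝ) : ℝ := |wedge z (rot α (X z))|⁻¹

lemma contDiff_ang (hX : ContDiff ℝ 2 X) (α : ℝ) :
    ContDiff ℝ 2 fun z : ℝ × ℝ => wedge z (rot α (X z)) := by
  unfold wedge rot
  simp only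
  have h1 := hX.fst
  have h2 := hX.snd
  fun_prop

lemma contDiffAt_wang (hX : ContDiff ℝ 2 X) {α : ℝ} {p : ℝ × ℝ}
    (hp : wedge p (rot α (X p)) ≠ 0) : ContDiffAt ℝ 1 (wang X α) p := by
  unfold wang
  have h1 : ContDiffAt ℝ 1 (fun z : ℝ × ℝ => wedge z (rot α (X z))) p :=
    ((contDiff_ang hX α).of_le (by norm_num)).contDiffAt
  have h2 : ContDiffAt ℝ 1 (fun z : ℝ × ℝ => |wedge z (rot α (X z))|) p :=
    ContDiffAt.comp (g := fun x : ℝ => |x|) p (contDiffAt_abs hp) h1
  exact h2.inv (abs_ne_zero.2 hp)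

lemma wedge_rot' (α : ℝ) (v w : ℝ × ℝ) : wedge (rot α v) (rot α w) = wedge v w := by
  unfold wedge rot
  simp only
  have h := Real.sin_sq_add_cos_sq α
  linear_combination (v.1 * w.2 - v.2 * w.1) * h

lemma abs_divW_wang (hX : ContDiff ℝ 2 X) {α : ℝ} {p : ℝ × ℝ}
    (hp : wedge p (rot α (X p)) ≠ 0) :
    |divW (wang X α) X α p| =
      |wedge (fderiv ℝ X p p) (X p)| / wedge p (rot α (X p)) ^ 2 := by
  set V := rot α (X p) with hV
  set W := wedge p V with hW
  have hl : HasDerivAt (fun t : ℝ => p + t • V) V 0 := by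
    simpa using ((hasDerivAt_id (0:ℝ)).smul_const V).const_add p
  have hp0 : p + (0:ℝ) • V = p := by simp
  have hXd : HasDerivAt (fun t : ℝ => X (p + t • V)) (fderiv ℝ X p V) 0 := by
    have h1 : HasFDerivAt X (fderiv ℝ X p) (p + (0:ℝ) • V) := by
      rw [hp0]
      exact ((hX.differentiable (by norm_num)) p).hasFDerivAt
    exact h1.comp_hasDerivAt 0 hl
  have e1 : HasDerivAt (fun t : ℝ => wang X α (p + t • V)) (fderiv ℝ (wang X α) p V) 0 := by
    have h1 : HasFDerivAt (wang X α) (fderiv ℝ (wang X α) p) (p + (0:ℝ) • V) := by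
      rw [hp0]
      exact ((contDiffAt_wang hX hp).differentiableAt (by norm_num)).hasFDerivAt
    exact h1.comp_hasDerivAt 0 hl
  have hWd : HasDerivAt (fun t : ℝ => wedge (p + t • V) (rot α (X (p + t • V))))
      (wedge p (rot α (fderiv ℝ X p V))) 0 := by
    have a1 := (ContinuousLinearMap.fst ℝ ℝ ℝ).hasFDerivAt.comp_hasDerivAt 0 hl
    have a2 := (ContinuousLinearMap.snd ℝ ℝ ℝ).hasFDerivAt.comp_hasDerivAt 0 hl
    have b1 := (ContinuousLinearMap.fst ℝ ℝ ℝ).hasFDerivAt.comp_hasDerivAt 0 hXd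
    have b2 := (ContinuousLinearMap.snd ℝ ℝ ℝ).hasFDerivAt.comp_hasDerivAt 0 hXd
    have c2 := (b1.const_mul (Real.sin α)).add (b2.const_mul (Real.cos α))
    have c1 := (b1.const_mul (Real.cos α)).sub (b2.const_mul (Real.sin α))
    have h1 := (a1.mul c2).sub (a2.mul c1)
    refine h1.congr_deriv ?_
    simp only [Function.comp_apply, ContinuousLinearMap.coe_fst', ContinuousLinearMap.coe_snd',
      Pi.add_apply, Pi.sub_apply, hp0]
    rw [hV]
    unfold wedge rot
    simp only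
    ring
  have hne0 : wedge (p + (0:ℝ) • V) (rot α (X (p + (0:ℝ) • V))) ≠ 0 := by rw [hp0]; exact hp
  have hWa : HasDerivAt (fun t : ℝ => |wedge (p + t • V) (rot α (X (p + t • V)))|)
      ((SignType.sign (wedge (p + (0:ℝ) • V) (rot α (X (p + (0:ℝ) • V)))) : ℝ) *
        wedge p (rot α (fderiv ℝ X p V))) 0 := HasDerivAt.comp 0 (hasDerivAt_abs hne0) hWd
  have e2 := hWa.inv (abs_ne_zero.2 hne0)
  have e3 := e1.unique e2
  rw [hp0] at e3
  change fderiv ℝ (wang X α) p V = _ at e3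
  unfold divW
  rw [← hV, e3]
  have hws : wang X α p = |W|⁻¹ := rfl
  rw [hws]
  change |-((SignType.sign W : ℝ) * wedge p (rot α (fderiv ℝ X p V))) / |W| ^ 2 +
    |W|⁻¹ * divRot X α p| = _
  have hW0 : 0 < |W| := abs_pos.2 hp
  set s : ℝ := (SignType.sign W : ℝ) with hs
  have hsW : |W| = s * W := by
    rw [hs]
    rcases lt_or_gt_of_ne hp with h | h
    · have h' : W < 0 := h
      rw [sign_neg h', abs_of_neg h']; simp
    · have h' : 0 < W := h
      rw [sign_pos h', abs_of_pos h']; simp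
  have hs1 : |s| = 1 := by
    rw [hs]
    rcases lt_or_gt_of_ne hp with h | h
    · have h' : W < 0 := h
      rw [sign_neg h']; simp
    · have h' : 0 < W := h
      rw [sign_pos h']; simp
  have key : W * divRot X α p - wedge p (rot α (fderiv ℝ X p V)) =
      wedge (rot α (fderiv ℝ X p p)) V := by
    rw [clm_decomp (fderiv ℝ X p) V, clm_decomp (fderiv ℝ X p) p, hW]
    unfold divRot wedge rot
    simp only [Prod.fst_add, Prod.snd_add, Prod.smul_fst, Prod.smul_snd, smul_eq_mul]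
    ring
  have e5 : -(s * wedge p (rot α (fderiv ℝ X p V))) / |W| ^ 2 + |W|⁻¹ * divRot X α p =
      s * wedge (rot α (fderiv ℝ X p p)) V / W ^ 2 := by
    rw [← key, sq_abs]
    have : |W|⁻¹ = |W| / W ^ 2 := by
      rw [← sq_abs W]; field_simp
    rw [this, hsW]
    field_simp
    ring
  rw [e5, abs_div, abs_mul, hs1, one_mul, hV, wedge_rot', abs_of_nonneg (sq_nonneg W)]

end

end Pool.Agent.H709R2
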