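import Pool.Agent.H709R2.OQuad

/-! Odd degree: dynamics near infinity off the exceptional set. -/

open Real Set MeasureTheory Topology Filter
open scoped ENNReal

namespace Pool.Agent.H709R2

noncomputable section

variable {S : Finset (ℕ × ℕ)}

/-- component of the leading part in the direction `ω` -/
def prj (n : ℕ) (ω : ℝ × ℝ) (c : S → ℝ × ℝ) (u : ℝ × ℝ) : ℝ :=
  ω.1 * (u.1 * (topf n c u).1 + u.2 * (topf n c u).2) + ω.2 * wedge u (topf n c u)

lemma prj_rotc (n : ℕ) (α : ℝ) (ω : ℝ × ℝ) (c : S → ℝ × ℝ) (u : ℝ × ℝ) :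
    prj n (rot α ω) (rotc α c) u = prj n ω c u := by
  unfold prj
  rw [← rot_topf]
  unfold rot wedge
  simp only
  have h := Real.sin_sq_add_cos_sq α
  linear_combination (ω.1 * (u.1 * (topf n c u).1 + u.2 * (topf n c u).2) +
    ω.2 * (u.1 * (topf n c u).2 - u.2 * (topf n c u).1)) * h

lemma rot_rot_neg (α : ℝ) (v : ℝ × ℝ) : rot α (rot (-α) v) = v := by
  have h := Real.sin_sq_add_cos_sq α
  unfold rot
  rw [Real.cos_neg, Real.sin_neg]
  ext
  · simp only; linear_combination v.1 * h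
  · simp only; linear_combination v.2 * h

lemma rot_add_pi (α : ℝ) (v : ℝ × ℝ) : rot (α + π) v = -rot α v := by
  unfold rot
  rw [Real.cos_add_pi, Real.sin_add_pi]
  ext
  · simp only [Prod.fst_neg]; ring
  · simp only [Prod.snd_neg]; ring

lemma closedOrbit_neg {V : ℝ × ℝ → ℝ × ℝ} {C : Set (ℝ × ℝ)} (h : ClosedOrbit V C) :
    ClosedOrbit (fun z => -V z) C := by
  obtain ⟨γ, T, hT, hγ, hper, ⟨s, t, hst⟩, rfl⟩ := h
  refine ⟨fun t => γ (-t), T, hT, fun t => ?_, fun t => ?_, ⟨-s, -t, by simpa using hst⟩, ?_⟩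
  · have h1 := (hγ (-t)).scomp t (hasDerivAt_neg t)
    rw [neg_one_smul] at h1
    exact h1
  · have h1 := hper (-(t + T))
    simp only
    rw [← h1]
    congr 1
    ring
  · ext x
    constructor
    · rintro ⟨t, rfl⟩
      exact ⟨-t, by simp⟩
    · rintro ⟨t, rfl⟩
      exact ⟨-t, rfl⟩

/-- relative size of the lower order terms -/
def epsR (S : Finset (ℕ × ℕ)) (M R : ℝ) : ℝ := √2 * (Fintype.card S * M / R)

lemma epsR_nonneg {M R : ℝ} (hM : 0 ≤ M) (hR : 0 ≤ R) : 0 ≤ epsR S M R := by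
  unfold epsR; positivity

lemma epsR_sq (M R : ℝ) : epsR S M R ^ 2 = 2 * (Fintype.card S * M / R) ^ 2 := by
  unfold epsR
  rw [mul_pow, Real.sq_sqrt (by norm_num)]

lemma err_bound {n : ℕ} (hnS : dg S ≤ n) {c : S → ℝ × ℝ} {M : ℝ} (hc : ‖c‖ ≤ M) {R : ℝ}
    (hR : 1 ≤ R) (α : ℝ) (z : ℝ × ℝ) (hz : R ≤ ‖z‖) :
    sq (fld (rotc α c) z - topf n (rotc α c) z) ≤ epsR S M R ^ 2 * sq z ^ n := by
  have hM : 0 ≤ M := (norm_nonneg _).trans hc
  have hR0 : 0 < R := by linarith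
  rw [← rot_fld, ← rot_topf, rot_sub_eq, sq_rot]
  have h1 := norm_low_le hnS hc hR hz
  have h2 : ‖z‖ ^ 2 ≤ sq z := norm_le_sq z
  calc sq (fld c z - topf n c z) ≤ 2 * ‖fld c z - topf n c z‖ ^ 2 := sq_le_norm _
    _ ≤ 2 * ((Fintype.card S * M / R) * ‖z‖ ^ n) ^ 2 := by gcongr
    _ = epsR S M R ^ 2 * (‖z‖ ^ 2) ^ n := by
        rw [epsR_sq, mul_pow, ← pow_mul, ← pow_mul, mul_comm 2 n]; ring
    _ ≤ epsR S M R ^ 2 * sq z ^ n := by gcongr

/-- the dichotomy guaranteeing a lower bound of the angular component -/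
def goodDir (n : ℕ) (ρ δ : ℝ) (c : S → ℝ × ℝ) : Prop :=
  (∃ ω, sq ω = 1 ∧ ∀ u, sq u = 1 → ρ ≤ prj n ω c u) ∨
    (∀ ω, sq ω = 1 → ∃ u, sq u = 1 ∧ δ < prj n ω c u)

/-- one sign -/
lemma ang_lower_pos {n : ℕ} (hnS : dg S ≤ n) {M : ℝ} (hM : 0 ≤ M) {K : ℝ}
    (hK1 : 1 ≤ K) (hK : ∀ c : S → ℝ × ℝ, ‖c‖ ≤ M → (∀ u, sq u = 1 → sq (topf n c u) ≤ K ^ 2) ∧
      ∀ e, sq e = 1 → (∀ u, sq u = 1 → wedge e (topf n c e) ≤ wedge u (topf n c u)) →
        ∀ u, sq u = 1 → wedge u (topf n c u) ≤ wedge e (topf n c e) + K * wedge e u ^ 2)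
    {R ρ δ : ℝ} (hR : 1 ≤ R) (hρ : 0 < ρ) (hδ : epsR S M R ≤ δ)
    (hερ : epsR S M R ≤ ρ ^ 4 / (256 * K ^ 3)) {c : S → ℝ × ℝ} (hc : c ∈ BM S M)
    (hgood : goodDir n ρ δ c) (α : ℝ) {C : Set (ℝ × ℝ)}
    (hC : ClosedOrbit (fld (rotc α c)) C) (hCR : ∀ z ∈ C, R ≤ ‖z‖)
    (hpos : ∀ u, sq u = 1 → -epsR S M R ≤ wedge u (topf n (rotc α c) u)) :
    ∀ u, sq u = 1 → ρ ^ 4 / (128 * K ^ 3) < wedge u (topf n (rotc α c) u) := by
  have hR0 : 0 < R := by linarith
  have hc' : rotc α c ∈ BM S M := rotc_mem_BM.2 hc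
  have hcn := norm_le_of_mem_BM hM hc'
  rcases hgood with ⟨ω, hω, hI⟩ | hII
  · have hI' : ∀ u, sq u = 1 → ρ ≤ prj n (rot α ω) (rotc α c) u := by
      intro u hu
      rw [prj_rotc]
      exact hI u hu
    have hω' : sq (rot α ω) = 1 := by rw [sq_rot, hω]
    obtain ⟨e, he, hmin⟩ := circle_min n (rotc α c)
    obtain ⟨k1, k2⟩ := hK (rotc α c) hcn
    by_contra hcon
    push Not at hcon
    obtain ⟨u₀, hu₀, hle⟩ := hcon
    have hρK : ρ ≤ K := by
      have h1 := hI' e he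
      unfold prj at h1
      set v : ℝ × ℝ := (e.1 * (topf n (rotc α c) e).1 + e.2 * (topf n (rotc α c) e).2,
        wedge e (topf n (rotc α c) e)) with hv
      have h2 : sq v ≤ K ^ 2 := by
        have h3 := wedge_sq_add_dot_sq e (topf n (rotc α c) e)
        rw [he, one_mul] at h3
        have h4 := k1 e he
        have h5 : sq v = wedge e (topf n (rotc α c) e) ^ 2 +
            (e.1 * (topf n (rotc α c) e).1 + e.2 * (topf n (rotc α c) e).2) ^ 2 := by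
          rw [hv]; unfold sq; ring
        rw [h5, h3]; exact h4
      have h3 := cs2 (rot α ω).1 (rot α ω).2 v.1 v.2
      have h4 : ((rot α ω).1 * v.1 + (rot α ω).2 * v.2) ^ 2 ≤ K ^ 2 := by
        have h5 : (rot α ω).1 ^ 2 + (rot α ω).2 ^ 2 = 1 := hω'
        rw [h5, one_mul] at h3
        exact h3.trans h2
      exact h1.trans (abs_le_of_sq_le_sq' h4 (by linarith)).2
    refine no_orbit_small_min (V := fld (rotc α c)) (T := topf n (rotc α c))
      (ε := epsR S M R) (fun r z => topf_smul n _ r z) hR0 (epsR_nonneg hM hR0.le)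
      (fun z hz => err_bound hnS (norm_le_of_mem_BM hM hc) hR α z hz) hK1 hρ hρK k1 hω' hI' hpos
      he (fun u hu => ?_) hερ hC hCR
    have h1 := k2 e he hmin u hu
    have h2 := hmin u₀ hu₀
    linarith
  · exfalso
    obtain ⟨u, hu, h1⟩ := hII (rot (-α) (0, -1)) (by rw [sq_rot]; simp [sq])
    rw [← prj_rotc n α, rot_rot_neg] at h1
    unfold prj at h1
    have h2 := hpos u hu
    simp only at h1
    linarith

/-- the angular component is bounded below when there is a closed orbit near infinity -/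
theorem ang_lower {n : ℕ} (hn : Odd n) (hnS : dg S ≤ n) {M : ℝ} (hM : 0 ≤ M) {K : ℝ}
    (hK1 : 1 ≤ K) (hK : ∀ c : S → ℝ × ℝ, ‖c‖ ≤ M → (∀ u, sq u = 1 → sq (topf n c u) ≤ K ^ 2) ∧
      ∀ e, sq e = 1 → (∀ u, sq u = 1 → wedge e (topf n c e) ≤ wedge u (topf n c u)) →
        ∀ u, sq u = 1 → wedge u (topf n c u) ≤ wedge e (topf n c e) + K * wedge e u ^ 2)
    {R ρ δ : ℝ} (hR : 1 ≤ R) (hρ : 0 < ρ) (hδ : epsR S M R ≤ δ)
    (hερ : epsR S M R ≤ ρ ^ 4 / (256 * K ^ 3)) {N : ℕ} (hN : R ≤ N) {c : S → ℝ × ℝ}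
    (hc : c ∈ BM S M) (hcK : c ∉ KR S n M (cK S n M / R) N)
    (hgood : goodDir n ρ δ c) (α : ℝ) {C : Set (ℝ × ℝ)}
    (hC : ClosedOrbit (fld (rotc α c)) C) (hCR : ∀ z ∈ C, R ≤ ‖z‖) :
    ∃ σ : ℝ, (σ = 1 ∨ σ = -1) ∧
      ∀ u, sq u = 1 → ρ ^ 4 / (128 * K ^ 3) < σ * wedge u (topf n (rotc α c) u) := by
  have hR0 : 0 < R := by linarith
  have hcn := norm_le_of_mem_BM hM hc
  have hsign := sign_of_orbit (V := fld (rotc α c)) (T := topf n (rotc α c)) hn
    (ε := epsR S M R) (fun r z => topf_smul n _ r z) hR0 (epsR_nonneg hM hR0.le)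
    (fun z hz => err_bound hnS hcn hR α z hz) (fun z hz => by
      rw [← rot_topf, sq_rot, epsR_sq]
      exact big_of_notMem_KR3 hM hR hN hc hcK hz) hC hCR
  rcases hsign with h | h
  · refine ⟨1, Or.inl rfl, fun u hu => ?_⟩
    rw [one_mul]
    exact ang_lower_pos hnS hM hK1 hK hR hρ hδ hερ hc hgood α hC hCR h u hu
  · refine ⟨-1, Or.inr rfl, fun u hu => ?_⟩
    have e1 : ∀ z, fld (rotc (α + π) c) z = -fld (rotc α c) z := by
      intro z
      rw [← rot_fld, ← rot_fld, rot_add_pi]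
    have e2 : ∀ z, topf n (rotc (α + π) c) z = -topf n (rotc α c) z := by
      intro z
      rw [← rot_topf, ← rot_topf, rot_add_pi]
    have hC' : ClosedOrbit (fld (rotc (α + π) c)) C := by
      have h1 := closedOrbit_neg hC
      have h2 : (fun z => -fld (rotc α c) z) = fld (rotc (α + π) c) := by
        ext1 z; rw [e1]
      rwa [h2] at h1
    have h3 : ∀ u, wedge u (topf n (rotc (α + π) c) u) = -wedge u (topf n (rotc α c) u) := by
      intro u
      rw [e2]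
      unfold wedge
      simp only [Prod.fst_neg, Prod.snd_neg]
      ring
    have h4 := ang_lower_pos hnS hM hK1 hK hR hρ hδ hερ hc hgood (α + π) hC' hCR
      (fun u hu => by rw [h3]; linarith [h u hu]) u hu
    rw [h3] at h4
    linarith

end

end Pool.Agent.H709R2
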