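import Pool.Agent.H709R2.WCover

/-! Summation over the exterior regions. -/

open Real Set MeasureTheory Topology Filter
open scoped ENNReal

namespace Pool.Agent.H709R2

noncomputable section

variable {S : Finset (ℕ × ℕ)}

lemma isCompact_sqr (q : ℝ × ℝ) (r : ℝ) : IsCompact (sqr q r) := isCompact_Icc.prod isCompact_Icc

lemma isCompact_Ann (j : ℕ) : IsCompact (Ann j) :=
  (isCompact_sqr _ _).inter_left (isClosed_le continuous_const continuous_norm)

lemma isCompact_AnnM (j : ℕ) (m : ℝ) : IsCompact (AnnM j m) :=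
  (isCompact_sqr _ _).inter_left (isClosed_le continuous_const continuous_norm)

lemma Rj_eq_sq (j : ℕ) : Rj j = 2 ^ (16 * j) * 2 ^ (16 * j) := by
  unfold Rj; rw [← pow_add]; congr 1; ring

lemma inv_pow_le (j : ℕ) (e : ℕ) (he : 1 ≤ e) : ((2:ℝ) ^ (e * j))⁻¹ ≤ (1 / 2) ^ j := by
  rw [one_div, inv_pow]
  apply inv_anti₀ (by positivity)
  exact pow_le_pow_right₀ (by norm_num) (by nlinarith)

/-- volume of the exceptional set at scale `j` -/
lemma vol_KR_j {n : ℕ} (hn0 : (n, 0) ∈ S) (h0n : (0, n) ∈ S) {M : ℝ} (hM : 0 ≤ M) (j : ℕ) :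
    volume (BM S M ∩ KR S n M (cK S n M / Rj j) (2 ^ (32 * j))) ≤
      ENNReal.ofReal (24 * cK S n M ^ 2 / Rj j) *
        volume (Metric.closedBall (0 : S → ℝ × ℝ) (M + 1)) := by
  have hR := Rj_pos j
  have hc := cK_nonneg (S := S) n hM
  refine (measure_mono inter_subset_right).trans
    ((vol_KR hn0 h0n hM (by positivity) _).trans ?_)
  gcongr
  have h1 : (((2 ^ (32 * j) : ℕ)) : ℝ) = Rj j := by unfold Rj; push_cast; ring
  rw [h1]
  have h2 := one_le_Rj j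
  calc (2 * Rj j + 1) * (8 * (cK S n M / Rj j) ^ 2) ≤ (3 * Rj j) * (8 * (cK S n M / Rj j) ^ 2) := by
        gcongr; linarith
    _ = _ := by field_simp; ring

lemma no_orbit_j {n : ℕ} (hn : Even n) (hnS : dg S ≤ n) {M : ℝ} (hM : 0 ≤ M) {j : ℕ}
    {c : S → ℝ × ℝ} (hc : c ∈ BM S M)
    (hcK : c ∉ KR S n M (cK S n M / Rj j) (2 ^ (32 * j))) (α : ℝ)
    {C : Set (ℝ × ℝ)} (hC : ClosedOrbit (fld (rotc α c)) C) (hCR : ∀ z ∈ C, Rj j ≤ ‖z‖) :
    False := by
  refine no_orbit hn hnS (norm_le_of_mem_BM hM hc) (one_le_Rj j) (fun z hz => ?_) α hC hCR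
  refine big_of_notMem_KR hn hM (one_le_Rj j) ?_ hc hcK hz
  unfold Rj
  push_cast
  exact le_rfl

lemma int_T1 {n : ℕ} (hn : Even n) (hnS : dg S ≤ n) (hn0 : (n, 0) ∈ S) (h0n : (0, n) ∈ S)
    {M : ℝ} (hM : 0 ≤ M) : ∃ A : ℝ, 0 ≤ A ∧ ∀ j : ℕ, 
      ∫⁻ c in BM S M, ((Cls (fld c) (Ann j) (2 ^ (16 * j))).encard : ℝ≥0∞) ≤
        ENNReal.ofReal (A * (1 / 2) ^ j) := by
  set v : ℝ≥0∞ := volume (Metric.closedBall (0 : S → ℝ × ℝ) (M + 1)) with hv
  have hvfin : v ≠ ⊤ := (isCompact_closedBall _ _).measure_lt_top.ne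
  have hvr : v = ENNReal.ofReal v.toReal := (ENNReal.ofReal_toReal hvfin).symm
  set V := v.toReal with hV
  have hV0 : 0 ≤ V := ENNReal.toReal_nonneg
  set κ := cK S n M with hκ
  refine ⟨2 * π * dg S * 2 ^ 64 * (24 * κ ^ 2) * V, by positivity, fun j => ?_⟩
  have hR := Rj_pos j
  have hR2 := Rj_pos (j + 2)
  refine (integral_of_exceptional (measurable_count (isCompact_Ann j) _)
    (A := KR S n M (κ / Rj j) (2 ^ (32 * j))) (measurableSet_KR _ _ _ _)
    (C₁ := ENNReal.ofReal (2 * π * dg S * Rj (j + 2) / 2 ^ (16 * j))) ?_ ?_).trans ?_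
  · intro c hc hcA α
    rw [ENat.toENNReal_eq_zero, Set.encard_eq_zero]
    ext C
    simp only [Cls, mem_ofPred_eq, mem_empty_iff_false, iff_false]
    rintro ⟨hC, hCΩ, -⟩
    exact no_orbit_j hn hnS hM hc hcA α hC fun z hz => (hCΩ hz).1
  · intro c
    refine le_trans (lintegral_mono fun α => ?_) (bound_one S c 0 hR2.le (by positivity))
    refine ENat.toENNReal_le.2 (Set.encard_le_encard ?_)
    rintro C ⟨hC, hCΩ, hd⟩
    exact ⟨hC, fun z hz => (hCΩ hz).2, hd⟩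
  · calc ENNReal.ofReal (2 * π * dg S * Rj (j + 2) / 2 ^ (16 * j)) *
          volume (BM S M ∩ KR S n M (κ / Rj j) (2 ^ (32 * j)))
        ≤ ENNReal.ofReal (2 * π * dg S * Rj (j + 2) / 2 ^ (16 * j)) *
          (ENNReal.ofReal (24 * κ ^ 2 / Rj j) * ENNReal.ofReal V) := by
          rw [← hvr]
          gcongr
          exact vol_KR_j hn0 h0n hM j
      _ = ENNReal.ofReal (2 * π * dg S * 2 ^ 64 * (24 * κ ^ 2) * V * ((2:ℝ) ^ (16 * j))⁻¹) := by
          rw [← ENNReal.ofReal_mul (by positivity), ← ENNReal.ofReal_mul (by positivity)]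
          congr 1
          rw [Rj_succ, Rj_succ]
          field_simp
      _ ≤ _ := by
          apply ENNReal.ofReal_le_ofReal
          gcongr
          exact inv_pow_le j 16 (by norm_num)

lemma int_T2 {n : ℕ} (hn : Even n) (hnS : dg S ≤ n) (hn0 : (n, 0) ∈ S) (h0n : (0, n) ∈ S)
    {M : ℝ} (hM : 0 ≤ M) : ∃ A : ℝ, 0 ≤ A ∧ ∀ (j : ℕ) (m : ℝ),
      ∫⁻ c in BM S M, ((ClsF (fld c) (AnnM j m) (crossF (Rj (j + 1)))).encard : ℝ≥0∞) ≤
        ENNReal.ofReal (A * (1 / 2) ^ j) := by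
  set v : ℝ≥0∞ := volume (Metric.closedBall (0 : S → ℝ × ℝ) (M + 1)) with hv
  have hvfin : v ≠ ⊤ := (isCompact_closedBall _ _).measure_lt_top.ne
  have hvr : v = ENNReal.ofReal v.toReal := (ENNReal.ofReal_toReal hvfin).symm
  set V := v.toReal with hV
  have hV0 : 0 ≤ V := ENNReal.toReal_nonneg
  set κ := cK S n M with hκ
  refine ⟨6 * π ^ 2 * (dg S + 1) * (24 * κ ^ 2) * V, by positivity, fun j m => ?_⟩
  have hR := Rj_pos j
  refine (integral_of_exceptional (measurable_countF (isCompact_AnnM j m) (isClosed_crossF _))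
    (A := KR S n M (κ / Rj j) (2 ^ (32 * j))) (measurableSet_KR _ _ _ _)
    (C₁ := ENNReal.ofReal (6 * π ^ 2 * (dg S + 1))) ?_ ?_).trans ?_
  · intro c hc hcA α
    rw [ENat.toENNReal_eq_zero, Set.encard_eq_zero]
    ext C
    simp only [ClsF, mem_ofPred_eq, mem_empty_iff_false, iff_false]
    rintro ⟨hC, hCΩ, -⟩
    exact no_orbit_j hn hnS hM hc hcA α hC fun z hz => (hCΩ hz).1
  · intro c
    exact cross_bound c (Rj_pos (j + 1)) (isCompact_AnnM j m)
  · calc ENNReal.ofReal (6 * π ^ 2 * (dg S + 1)) *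
          volume (BM S M ∩ KR S n M (κ / Rj j) (2 ^ (32 * j)))
        ≤ ENNReal.ofReal (6 * π ^ 2 * (dg S + 1)) *
          (ENNReal.ofReal (24 * κ ^ 2 / Rj j) * ENNReal.ofReal V) := by
          rw [← hvr]
          gcongr
          exact vol_KR_j hn0 h0n hM j
      _ = ENNReal.ofReal (6 * π ^ 2 * (dg S + 1) * (24 * κ ^ 2) * V * (Rj j)⁻¹) := by
          rw [← ENNReal.ofReal_mul (by positivity), ← ENNReal.ofReal_mul (by positivity)]
          congr 1
          ring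
      _ ≤ _ := by
          apply ENNReal.ofReal_le_ofReal
          gcongr
          unfold Rj
          exact inv_pow_le j 32 (by norm_num)

lemma card_grf_le (j k : ℕ) (hj : 1 ≤ j) :
    ((grf j k).card : ℝ) * Lk j k ^ 2 ≤ 25 * 2 ^ 128 * Rj j ^ 2 := by
  have h1 : (grf j k).card ≤ (grd (Rj (j + 2)) (Lk j k)).card := Finset.card_filter_le _ _
  have h2 := card_grd (Rj_pos (j + 2)).le (Lk_pos j k)
  have h3 : Lk j k ≤ Rj (j + 2) := by
    refine (Lk_le j k).trans ?_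
    unfold Rj
    exact pow_le_pow_right₀ (by norm_num) (by omega)
  have h4 := Lk_pos j k
  have h5 := Rj_pos (j + 2)
  calc ((grf j k).card : ℝ) * Lk j k ^ 2
      ≤ ((grd (Rj (j + 2)) (Lk j k)).card : ℝ) * Lk j k ^ 2 := by gcongr
    _ ≤ (2 * Rj (j + 2) + 3 * Lk j k) ^ 2 := h2
    _ ≤ (2 * Rj (j + 2) + 3 * Rj (j + 2)) ^ 2 := by gcongr
    _ = _ := by rw [Rj_succ, Rj_succ]; ring

/-- the count in one cell -/
def cellN (j k : ℕ) (z : ℤ × ℤ) (c : S → ℝ × ℝ) : ℝ≥0∞ :=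
  ((Cls (fld c) (sqr (gpt (Lk j k) z) (2 * Lk j k)) ((1 / 2) ^ 16 * Lk j k)).encard : ℝ≥0∞)

lemma measurable_cellN (j k : ℕ) (z : ℤ × ℤ) :
    Measurable (cellN j k z : (S → ℝ × ℝ) → ℝ≥0∞) := measurable_count (isCompact_sqr _ _) _

/-- thin bound at scale `k` -/
lemma int_thin {n : ℕ} (hn : Even n) (hnS : dg S ≤ n) (hn0 : (n, 0) ∈ S) (h0n : (0, n) ∈ S)
    {M : ℝ} (hM : 0 ≤ M) : ∃ A : ℝ, 0 ≤ A ∧ ∀ j k : ℕ, 1 ≤ j →
      ∑ z ∈ grf j k, ∫⁻ c in BM S M, cellN j k z c ≤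
        ENNReal.ofReal (A * ((2:ℝ) ^ (16 * j))⁻¹) := by
  obtain ⟨A, hA0, hA⟩ := cell_thin_integral hn hnS hn0 h0n (M := M) (θ := (1 / 2) ^ 16) hM
    (by norm_num)
  refine ⟨A * (16 * 25 * 2 ^ 128), by positivity, fun j k hj => ?_⟩
  set L := Lk j k with hL
  have hL0 : 0 < L := Lk_pos j k
  have hR0 := Rj_pos j
  set P : ℝ := 2 ^ (16 * j) with hP
  have hP16 : (2:ℝ) ^ 16 ≤ P := pow_le_pow_right₀ (by norm_num) (by omega)
  have hP0 : 0 < P := by positivity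
  have hLP : L ≤ P := Lk_le j k
  have hRP : Rj j = P * P := Rj_eq_sq j
  have hterm : ∀ z ∈ grf j k, ∫⁻ c in BM S M, cellN j k z c ≤
      ENNReal.ofReal (A * (16 * (P / Rj j ^ 3)) * L ^ 2) := by
    intro z hz
    unfold grf at hz
    rw [Finset.mem_filter] at hz
    have hq := hz.2
    rw [← hL] at hq
    have hq1 : 1 ≤ ‖gpt L z‖ := by
      refine le_trans ?_ hq
      rw [hRP, le_div_iff₀ (by norm_num)]
      nlinarith
    have hq2 : 8 * L ≤ ‖gpt L z‖ := by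
      refine le_trans ?_ hq
      rw [hRP, le_div_iff₀ (by norm_num)]
      nlinarith
    refine (hA (gpt L z) L hL0 hq1 hq2).trans ?_
    apply ENNReal.ofReal_le_ofReal
    have hq0 : 0 < ‖gpt L z‖ := by linarith
    have e1 : L / ‖gpt L z‖ ≤ L / (Rj j / 2) := by gcongr
    have e2 : (L + 1) / ‖gpt L z‖ ≤ (2 * P) / (Rj j / 2) := by
      gcongr
      linarith
    calc A * ((L / ‖gpt L z‖) ^ 2 * ((L + 1) / ‖gpt L z‖))
        ≤ A * ((L / (Rj j / 2)) ^ 2 * ((2 * P) / (Rj j / 2))) := by gcongr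
      _ = _ := by field_simp; ring
  calc ∑ z ∈ grf j k, ∫⁻ c in BM S M, cellN j k z c
      ≤ ∑ z ∈ grf j k, ENNReal.ofReal (A * (16 * (P / Rj j ^ 3)) * L ^ 2) :=
        Finset.sum_le_sum hterm
    _ = ENNReal.ofReal ((grf j k).card * (A * (16 * (P / Rj j ^ 3)) * L ^ 2)) := by
        rw [Finset.sum_const, nsmul_eq_mul, ENNReal.ofReal_mul (Nat.cast_nonneg _),
          ENNReal.ofReal_natCast]
    _ ≤ _ := by
        apply ENNReal.ofReal_le_ofReal
        have h1 := card_grf_le j k hj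
        rw [← hL] at h1
        calc ((grf j k).card : ℝ) * (A * (16 * (P / Rj j ^ 3)) * L ^ 2)
            = A * (16 * (P / Rj j ^ 3)) * (((grf j k).card : ℝ) * L ^ 2) := by ring
          _ ≤ A * (16 * (P / Rj j ^ 3)) * (25 * 2 ^ 128 * Rj j ^ 2) := by gcongr
          _ = _ := by
              rw [hRP]
              field_simp

/-- tiny cells -/
lemma int_tiny (h00 : (0, 0) ∈ S) (h10 : (1, 0) ∈ S) (h01 : (0, 1) ∈ S) {M : ℝ} (hM : 0 ≤ M) :
    ∃ A : ℝ, 0 ≤ A ∧ ∃ E : ℕ, ∀ j k : ℕ, 1 ≤ j →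
      ∑ z ∈ grf j (j + k), ∫⁻ c in BM S M, cellN j (j + k) z c ≤
        ENNReal.ofReal (A * (2:ℝ) ^ (E * j) * (1 / 2) ^ k) := by
  obtain ⟨A, hA0, hA⟩ := cell_integral_K S h00 h10 h01 (M := M) (θ := (1 / 2) ^ 16) hM
    (by norm_num) (by norm_num)
  obtain ⟨K₀, hK₀1, hK₀⟩ := exists_unif_pow S M
  set D := dg S with hD
  refine ⟨A * (K₀ * (2 * 2 ^ 64) ^ D) ^ 9 * (25 * 2 ^ 128), by positivity,
    32 * D * 9 + 64, fun j k hj => ?_⟩
  set s := sc k with hs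
  have hs0 : 0 < s := sc_pos k
  have hs1 : s ≤ 1 := sc_le_one k
  have hL : Lk j (j + k) = s ^ 16 := by
    rw [hs]
    unfold Lk sc
    rw [pow_add, mul_pow, ← mul_assoc, ← pow_mul, mul_comm j 16, ← mul_pow]
    norm_num
  have hL1 : s ^ 16 ≤ 1 := pow_le_one₀ hs0.le hs1
  have hR2 := one_le_Rj (j + 2)
  have hR264 : Rj (j + 2) = 2 ^ 64 * Rj j := by rw [Rj_succ, Rj_succ]; ring
  set K := K₀ * (2 * Rj (j + 2)) ^ D with hK
  have hK1 : 1 ≤ K := by
    have : 1 ≤ (2 * Rj (j + 2)) ^ D := one_le_pow₀ (by linarith)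
    nlinarith
  have hterm : ∀ z ∈ grf j (j + k), ∫⁻ c in BM S M, cellN j (j + k) z c ≤
      ENNReal.ofReal (A * K ^ 9 * s * (s ^ 16) ^ 2) := by
    intro z hz
    unfold grf at hz
    rw [Finset.mem_filter] at hz
    have hq := norm_gpt (Lk_pos j (j + k)) hz.1
    rw [hL] at hq
    have hq' : ‖gpt (s ^ 16) z‖ ≤ 2 * Rj (j + 2) := by linarith
    unfold cellN
    rw [hL]
    refine hA K hK1 s hs0 hs1 (gpt (s ^ 16) z) fun c hc p hp => ?_
    have hRbig : (4:ℝ) ≤ Rj (j + 2) := by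
      unfold Rj
      calc (4:ℝ) = 2 ^ 2 := by norm_num
        _ ≤ 2 ^ (32 * (j + 2)) := pow_le_pow_right₀ (by norm_num) (by omega)
    have hpn : ‖p‖ ≤ 2 * Rj (j + 2) := by
      calc ‖p‖ = ‖gpt (s ^ 16) z + (p - gpt (s ^ 16) z)‖ := by congr 1; abel
        _ ≤ ‖gpt (s ^ 16) z‖ + ‖p - gpt (s ^ 16) z‖ := norm_add_le _ _
        _ ≤ _ := by linarith
    obtain ⟨k1, k2, k3, k4⟩ := hK₀ (2 * Rj (j + 2)) (by linarith) c hc p (gpt (s ^ 16) z) hpn hq'
    have k5 := (hK₀ (2 * Rj (j + 2)) (by linarith) c hc (gpt (s ^ 16) z) (gpt (s ^ 16) z)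
      hq' hq').1
    exact ⟨k5, k2, k3, k4⟩
  calc ∑ z ∈ grf j (j + k), ∫⁻ c in BM S M, cellN j (j + k) z c
      ≤ ∑ z ∈ grf j (j + k), ENNReal.ofReal (A * K ^ 9 * s * (s ^ 16) ^ 2) :=
        Finset.sum_le_sum hterm
    _ = ENNReal.ofReal ((grf j (j + k)).card * (A * K ^ 9 * s * (s ^ 16) ^ 2)) := by
        rw [Finset.sum_const, nsmul_eq_mul, ENNReal.ofReal_mul (Nat.cast_nonneg _),
          ENNReal.ofReal_natCast]
    _ ≤ _ := by
        apply ENNReal.ofReal_le_ofReal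
        have h1 := card_grf_le j (j + k) hj
        rw [hL] at h1
        have hKK : K = K₀ * (2 * 2 ^ 64) ^ D * (2:ℝ) ^ (32 * D * j) := by
          rw [hK, hR264]
          unfold Rj
          rw [← mul_assoc, mul_pow _ ((2:ℝ) ^ (32 * j)) D, ← pow_mul, mul_assoc K₀]
          congr 2
          ring_nf
        calc ((grf j (j + k)).card : ℝ) * (A * K ^ 9 * s * (s ^ 16) ^ 2)
            = A * K ^ 9 * s * (((grf j (j + k)).card : ℝ) * (s ^ 16) ^ 2) := by ring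
          _ ≤ A * K ^ 9 * s * (25 * 2 ^ 128 * Rj j ^ 2) := by gcongr
          _ = A * (K₀ * (2 * 2 ^ 64) ^ D) ^ 9 * (25 * 2 ^ 128) *
                (((2:ℝ) ^ (32 * D * j)) ^ 9 * ((2:ℝ) ^ (32 * j)) ^ 2) * s := by
              rw [hKK]; unfold Rj; ring
          _ = _ := by
              rw [← pow_mul, ← pow_mul, ← pow_add, hs]
              unfold sc
              congr 3
              ring

/-- all cells at scale `j` -/
lemma int_T3 {n : ℕ} (hn : Even n) (hnS : dg S ≤ n) (hn0 : (n, 0) ∈ S) (h0n : (0, n) ∈ S)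
    (h00 : (0, 0) ∈ S) (h10 : (1, 0) ∈ S) (h01 : (0, 1) ∈ S)
    {M : ℝ} (hM : 0 ≤ M) : ∃ A : ℝ, 0 ≤ A ∧ ∀ j : ℕ, 1 ≤ j →
      ∫⁻ c in BM S M, ∑' k : ℕ, ∑ z ∈ grf j k, cellN j k z c ≤
        ENNReal.ofReal (A * (1 / 2) ^ j) := by
  obtain ⟨A₁, hA₁0, hA₁⟩ := int_thin hn hnS hn0 h0n hM
  obtain ⟨A₂, hA₂0, E, hA₂⟩ := int_tiny h00 h10 h01 hM
  refine ⟨(E + 2) * A₁ + 2 * A₂, by positivity, fun j hj => ?_⟩
  rw [lintegral_tsum (fun k => (Finset.measurable_fun_sum _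
      (fun z _ => measurable_cellN j k z)).aemeasurable)]
  set f : ℕ → ℝ≥0∞ := fun k => ∫⁻ c in BM S M, ∑ z ∈ grf j k, cellN j k z c with hf
  have hf1 : ∀ k, f k = ∑ z ∈ grf j k, ∫⁻ c in BM S M, cellN j k z c := fun k =>
    lintegral_finsetSum _ (fun z _ => measurable_cellN j k z)
  set k₀ := (E + 2) * j with hk₀
  have hsplit : ∑' k, f k = ∑ k ∈ Finset.range k₀, f k + ∑' k, f (k + k₀) :=
    (ENNReal.summable.sum_add_tsum_nat_add' (f := f) (k := k₀)).symm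
  rw [hsplit]
  have h1 : ∑ k ∈ Finset.range k₀, f k ≤ ENNReal.ofReal ((E + 2) * A₁ * (1 / 2) ^ j) := by
    calc ∑ k ∈ Finset.range k₀, f k
        ≤ ∑ k ∈ Finset.range k₀, ENNReal.ofReal (A₁ * ((2:ℝ) ^ (16 * j))⁻¹) :=
          Finset.sum_le_sum fun k _ => by rw [hf1]; exact hA₁ j k hj
      _ = ENNReal.ofReal (k₀ * (A₁ * ((2:ℝ) ^ (16 * j))⁻¹)) := by
          rw [Finset.sum_const, nsmul_eq_mul, ENNReal.ofReal_mul (Nat.cast_nonneg _),
            ENNReal.ofReal_natCast, Finset.card_range]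
      _ ≤ _ := by
          apply ENNReal.ofReal_le_ofReal
          rw [hk₀]
          push_cast
          have e1 : (j : ℝ) ≤ 2 ^ j := by exact_mod_cast (Nat.lt_two_pow_self (n := j)).le
          have e2 : (j : ℝ) * ((2:ℝ) ^ (16 * j))⁻¹ ≤ (1 / 2) ^ j := by
            calc (j : ℝ) * ((2:ℝ) ^ (16 * j))⁻¹ ≤ 2 ^ j * ((2:ℝ) ^ (16 * j))⁻¹ := by gcongr
              _ ≤ 2 ^ j * ((2:ℝ) ^ (2 * j))⁻¹ := by
                  gcongr
                  · norm_num
                  · omega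
              _ = (1 / 2) ^ j := by
                  rw [mul_comm 2 j, pow_mul, pow_two, one_div, inv_pow]
                  field_simp
          calc ((E:ℝ) + 2) * j * (A₁ * ((2:ℝ) ^ (16 * j))⁻¹)
              = (E + 2) * A₁ * (j * ((2:ℝ) ^ (16 * j))⁻¹) := by ring
            _ ≤ _ := by gcongr
  have h2 : ∑' k, f (k + k₀) ≤ ENNReal.ofReal (2 * A₂ * (1 / 2) ^ j) := by
    calc ∑' k, f (k + k₀) ≤ ∑' k : ℕ, ENNReal.ofReal (A₂ * (1 / 2) ^ j) *
          ENNReal.ofReal ((1 / 2) ^ k) := by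
          refine ENNReal.tsum_le_tsum fun k => ?_
          rw [hf1]
          have e1 : k + k₀ = j + (k + (E + 1) * j) := by rw [hk₀]; ring
          rw [e1]
          refine (hA₂ j (k + (E + 1) * j) hj).trans ?_
          rw [← ENNReal.ofReal_mul (by positivity)]
          apply ENNReal.ofReal_le_ofReal
          apply le_of_eq
          have e2 : (2:ℝ) ^ (E * j) * (1 / 2) ^ ((E + 1) * j) = (1 / 2) ^ j := by
            rw [add_mul, one_mul, pow_add, ← mul_assoc, ← mul_pow]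
            norm_num
          calc A₂ * (2:ℝ) ^ (E * j) * (1 / 2) ^ (k + (E + 1) * j)
              = A₂ * ((2:ℝ) ^ (E * j) * (1 / 2) ^ ((E + 1) * j)) * (1 / 2) ^ k := by
                rw [pow_add]; ring
            _ = _ := by rw [e2]
      _ = ENNReal.ofReal (A₂ * (1 / 2) ^ j) * ∑' k : ℕ, ENNReal.ofReal ((1 / 2) ^ k) :=
          ENNReal.tsum_mul_left
      _ = _ := by
          rw [← ENNReal.ofReal_tsum_of_nonneg (fun k => by positivity)
            (summable_geometric_of_lt_one (by norm_num) (by norm_num)), tsum_geometric_two,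
            ← ENNReal.ofReal_mul (by positivity)]
          congr 1
          ring
  refine (add_le_add h1 h2).trans (le_of_eq ?_)
  rw [← ENNReal.ofReal_add (by positivity) (by positivity)]
  congr 1
  ring

end

end Pool.Agent.H709R2
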