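import Pool.Agent.H709R2.ODiv
import Pool.Agent.H709R2.WSum

/-! Estimates for the count of closed orbits near infinity. -/

open Real Set MeasureTheory Topology Filter
open scoped ENNReal

namespace Pool.Agent.H709R2

noncomputable section

variable {S : Finset (ℕ × ℕ)}

/-- Euler's relation -/
lemma fderiv_fld_self (c : S → ℝ × ℝ) (z : ℝ × ℝ) :
    fderiv ℝ (fld c) z z = ∑ m : S, ((m.1.1 + m.1.2 : ℕ) : ℝ) • (z.1 ^ m.1.1 * z.2 ^ m.1.2) • c m := by
  have h0 : HasDerivAt (fun t : ℝ => t • z) z 1 := by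
    simpa using (hasDerivAt_id (1:ℝ)).smul_const z
  have h1 : HasDerivAt (fun t : ℝ => fld c (t • z)) (fderiv ℝ (fld c) z z) 1 := by
    have h2 : HasFDerivAt (fld c) (fderiv ℝ (fld c) z) ((1:ℝ) • z) := by
      rw [one_smul]
      exact (((contDiff_fld c (m := 1)).differentiable (by norm_num)) z).hasFDerivAt
    exact h2.comp_hasDerivAt 1 h0
  have h2 : (fun t : ℝ => fld c (t • z)) =
      fun t : ℝ => ∑ m : S, (t ^ (m.1.1 + m.1.2)) • (z.1 ^ m.1.1 * z.2 ^ m.1.2) • c m := by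
    ext1 t
    unfold fld
    refine Finset.sum_congr rfl fun m _ => ?_
    rw [smul_smul, Prod.smul_fst, Prod.smul_snd, smul_eq_mul, smul_eq_mul, mul_pow, mul_pow, pow_add]
    congr 1
    ring
  rw [h2] at h1
  have h3 : HasDerivAt
      (fun t : ℝ => ∑ m : S, (t ^ (m.1.1 + m.1.2)) • (z.1 ^ m.1.1 * z.2 ^ m.1.2) • c m)
      (∑ m : S, (((m.1.1 + m.1.2 : ℕ) : ℝ) * (1:ℝ) ^ (m.1.1 + m.1.2 - 1)) •
        (z.1 ^ m.1.1 * z.2 ^ m.1.2) • c m) 1 :=
    HasDerivAt.fun_sum fun m _ => (hasDerivAt_pow (m.1.1 + m.1.2) (1:ℝ)).smul_const _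
  rw [h1.unique h3]
  refine Finset.sum_congr rfl fun m _ => ?_
  rw [one_pow, mul_one]

lemma euler_bound {n : ℕ} (hnS : dg S ≤ n) {c : S → ℝ × ℝ} {M : ℝ} (hc : ‖c‖ ≤ M) {z : ℝ × ℝ}
    (hz : 1 ≤ ‖z‖) :
    ‖fderiv ℝ (fld c) z z - (n : ℝ) • fld c z‖ ≤ Fintype.card S * (n * M) * ‖z‖ ^ n / ‖z‖ := by
  have hM : 0 ≤ M := (norm_nonneg _).trans hc
  have hz0 : 0 < ‖z‖ := by linarith
  rw [fderiv_fld_self]
  unfold fld
  rw [Finset.smul_sum, ← Finset.sum_sub_distrib]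
  refine (norm_sum_le _ _).trans ?_
  calc ∑ m : S, ‖((m.1.1 + m.1.2 : ℕ) : ℝ) • (z.1 ^ m.1.1 * z.2 ^ m.1.2) • c m -
        (n : ℝ) • (z.1 ^ m.1.1 * z.2 ^ m.1.2) • c m‖
      ≤ ∑ m : S, (n * M) * ‖z‖ ^ n / ‖z‖ := by
        refine Finset.sum_le_sum fun m _ => ?_
        rw [← sub_smul, norm_smul, norm_smul, norm_mul, norm_pow, norm_pow]
        have h1 : ‖c m‖ ≤ M := (norm_le_pi_norm c m).trans hc
        have h2 : m.1.1 + m.1.2 ≤ n := (le_dg m).trans hnS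
        have h3 : ‖z.1‖ ≤ ‖z‖ := norm_fst_le z
        have h4 : ‖z.2‖ ≤ ‖z‖ := norm_snd_le z
        rcases Nat.lt_or_ge (m.1.1 + m.1.2) n with h | h
        · have h5 : ‖((m.1.1 + m.1.2 : ℕ) : ℝ) - n‖ ≤ n := by
            rw [Real.norm_eq_abs, abs_le]
            have : ((m.1.1 + m.1.2 : ℕ) : ℝ) ≤ n := by exact_mod_cast h2
            have h0 : (0:ℝ) ≤ ((m.1.1 + m.1.2 : ℕ) : ℝ) := Nat.cast_nonneg _
            constructor <;> linarith
          rw [le_div_iff₀ hz0]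
          calc ‖((m.1.1 + m.1.2 : ℕ) : ℝ) - n‖ * (‖z.1‖ ^ m.1.1 * ‖z.2‖ ^ m.1.2 * ‖c m‖) * ‖z‖
              ≤ n * (‖z‖ ^ m.1.1 * ‖z‖ ^ m.1.2 * M) * ‖z‖ := by gcongr
            _ = n * M * ‖z‖ ^ (m.1.1 + m.1.2 + 1) := by rw [pow_succ, pow_add]; ring
            _ ≤ n * M * ‖z‖ ^ n := by
                gcongr
                omega
        · have h5 : m.1.1 + m.1.2 = n := le_antisymm h2 h
          rw [h5, sub_self, norm_zero, zero_mul]
          positivity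
    _ = _ := by
        rw [Finset.sum_const, Finset.card_univ, nsmul_eq_mul]
        ring

lemma norm_fld_le {n : ℕ} (hnS : dg S ≤ n) {c : S → ℝ × ℝ} {M : ℝ} (hc : ‖c‖ ≤ M) {z : ℝ × ℝ}
    (hz : 1 ≤ ‖z‖) : ‖fld c z‖ ≤ Fintype.card S * M * ‖z‖ ^ n := by
  have hM : 0 ≤ M := (norm_nonneg _).trans hc
  unfold fld
  refine (norm_sum_le _ _).trans ?_
  calc ∑ m : S, ‖(z.1 ^ m.1.1 * z.2 ^ m.1.2) • c m‖
      ≤ ∑ m : S, M * ‖z‖ ^ n := by
        refine Finset.sum_le_sum fun m _ => ?_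
        rw [norm_smul, norm_mul, norm_pow, norm_pow]
        have h1 : ‖c m‖ ≤ M := (norm_le_pi_norm c m).trans hc
        have h2 : m.1.1 + m.1.2 ≤ n := (le_dg m).trans hnS
        have h3 : ‖z.1‖ ≤ ‖z‖ := norm_fst_le z
        have h4 : ‖z.2‖ ≤ ‖z‖ := norm_snd_le z
        calc ‖z.1‖ ^ m.1.1 * ‖z.2‖ ^ m.1.2 * ‖c m‖ ≤ ‖z‖ ^ m.1.1 * ‖z‖ ^ m.1.2 * M := by gcongr
          _ = M * ‖z‖ ^ (m.1.1 + m.1.2) := by rw [pow_add]; ring
          _ ≤ M * ‖z‖ ^ n := by gcongr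
    _ = _ := by
        rw [Finset.sum_const, Finset.card_univ, nsmul_eq_mul]
        ring

/-- numerator of the divergence -/
lemma wedge_fderiv_le {n : ℕ} (hnS : dg S ≤ n) {c : S → ℝ × ℝ} {M : ℝ} (hc : ‖c‖ ≤ M)
    {z : ℝ × ℝ} (hz : 1 ≤ ‖z‖) :
    |wedge (fderiv ℝ (fld c) z z) (fld c z)| ≤
      2 * n * (Fintype.card S * M) ^ 2 * (‖z‖ ^ n) ^ 2 / ‖z‖ := by
  have hM : 0 ≤ M := (norm_nonneg _).trans hc
  have hz0 : 0 < ‖z‖ := by linarith
  have e1 : wedge (fderiv ℝ (fld c) z z) (fld c z) =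
      wedge (fderiv ℝ (fld c) z z - (n : ℝ) • fld c z) (fld c z) := by
    unfold wedge
    simp only [Prod.fst_sub, Prod.snd_sub, Prod.smul_fst, Prod.smul_snd, smul_eq_mul]
    ring
  rw [e1]
  refine (abs_wedge_le' _ _).trans ?_
  calc 2 * ‖fderiv ℝ (fld c) z z - (n : ℝ) • fld c z‖ * ‖fld c z‖
      ≤ 2 * (Fintype.card S * (n * M) * ‖z‖ ^ n / ‖z‖) * (Fintype.card S * M * ‖z‖ ^ n) := by
        gcongr
        · exact euler_bound hnS hc hz
        · exact norm_fld_le hnS hc hz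
    _ = _ := by ring

/-- lower bound of the logarithmic length -/
lemma log_len {γ V : ℝ → ℝ × ℝ} (hγ : ∀ t, HasDerivAt γ (V t) t) (hV : Continuous V)
    (h0 : ∀ t, γ t ≠ 0) {a b : ℝ} (hab : a ≤ b) :
    Real.log (1 + sq (γ b - γ a) / sq (γ a)) ≤ 3 * ∫ t in a..b, √(sq (V t)) / √(sq (γ t)) := by
  have hγc : Continuous γ := continuous_iff_continuousAt.2 fun t => (hγ t).continuousAt
  set x := γ a with hx
  have hx0 : 0 < sq x := sq_pos (h0 a)
  have hden : ∀ t, 0 < sq x + sq (γ t - x) := fun t => add_pos_of_pos_of_nonneg hx0 (sq_nonneg' _)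
  have hd : ∀ t, HasDerivAt (fun t => Real.log (sq x + sq (γ t - x)))
      (2 * ((γ t - x).1 * (V t).1 + (γ t - x).2 * (V t).2) / (sq x + sq (γ t - x))) t := by
    intro t
    exact ((hasDerivAt_sq ((hγ t).sub_const x)).const_add (sq x)).log (hden t).ne'
  have hdc : Continuous fun t =>
      2 * ((γ t - x).1 * (V t).1 + (γ t - x).2 * (V t).2) / (sq x + sq (γ t - x)) := by
    refine Continuous.div (by fun_prop) ?_ fun t => (hden t).ne'
    exact continuous_const.add (continuous_sq.comp (hγc.sub continuous_const))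
  have hrc : Continuous fun t => 3 * (√(sq (V t)) / √(sq (γ t))) := by
    refine continuous_const.mul (Continuous.div (continuous_sq.comp hV).sqrt
      (continuous_sq.comp hγc).sqrt fun t => ?_)
    exact (Real.sqrt_pos.2 (sq_pos (h0 t))).ne'
  have h1 := intervalIntegral.integral_eq_sub_of_hasDerivAt (a := a) (b := b)
    (fun t _ => hd t) (hdc.intervalIntegrable _ _)
  have h2 : Real.log (1 + sq (γ b - x) / sq x) =
      Real.log (sq x + sq (γ b - x)) - Real.log (sq x + sq (γ a - x)) := by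
    have e1 : sq (γ a - x) = 0 := by rw [← hx]; simp [sq]
    rw [e1, add_zero, ← Real.log_div (hden b).ne' hx0.ne']
    congr 1
    field_simp
  rw [h2, ← h1, ← intervalIntegral.integral_const_mul]
  refine intervalIntegral.integral_mono_on hab (hdc.intervalIntegrable _ _)
    (hrc.intervalIntegrable _ _) fun t _ => ?_
  set u := γ t - x with hu
  have hγt : γ t = x + u := by rw [hu]; abel
  have hg0 := Real.sqrt_pos.2 (sq_pos (h0 t))
  rw [div_le_iff₀ (hden t), mul_div_assoc', div_mul_eq_mul_div, le_div_iff₀ hg0]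
  set A := √(sq x) with hA
  set B := √(sq u) with hB
  set G := √(sq (γ t)) with hG
  set W := √(sq (V t)) with hW
  have hA0 : 0 ≤ A := Real.sqrt_nonneg _
  have hB0 : 0 ≤ B := Real.sqrt_nonneg _
  have hW0 : 0 ≤ W := Real.sqrt_nonneg _
  have hA2 : A ^ 2 = sq x := Real.sq_sqrt (sq_nonneg' _)
  have hB2 : B ^ 2 = sq u := Real.sq_sqrt (sq_nonneg' _)
  have hW2 : W ^ 2 = sq (V t) := Real.sq_sqrt (sq_nonneg' _)
  have hdot : u.1 * (V t).1 + u.2 * (V t).2 ≤ B * W := by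
    have h3 := cs2 u.1 u.2 (V t).1 (V t).2
    have h4 : (u.1 * (V t).1 + u.2 * (V t).2) ^ 2 ≤ (B * W) ^ 2 := by
      rw [mul_pow, hB2, hW2]; exact h3
    exact (abs_le_of_sq_le_sq' h4 (by positivity)).2
  have hGle : G ≤ A + B := by
    rw [hG, Real.sqrt_le_iff]
    refine ⟨by positivity, ?_⟩
    have h3 := cs2 x.1 x.2 u.1 u.2
    have h4 : (x.1 * u.1 + x.2 * u.2) ^ 2 ≤ (A * B) ^ 2 := by
      rw [mul_pow, hA2, hB2]; exact h3
    have h5 := (abs_le_of_sq_le_sq' h4 (by positivity)).2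
    have h6 : sq (γ t) = sq x + 2 * (x.1 * u.1 + x.2 * u.2) + sq u := by
      rw [hγt]; unfold sq
      simp only [Prod.fst_add, Prod.snd_add]
      ring
    rw [h6, ← hA2, ← hB2]
    nlinarith
  have h7 : 2 * (B * G) ≤ 3 * (A ^ 2 + B ^ 2) := by nlinarith [sq_nonneg (A - B)]
  rw [← hA2, ← hB2]
  calc 2 * (u.1 * (V t).1 + u.2 * (V t).2) * G ≤ 2 * (B * W) * G := by gcongr
    _ = W * (2 * (B * G)) := by ring
    _ ≤ W * (3 * (A ^ 2 + B ^ 2)) := by gcongr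
    _ = _ := by ring

/-- dyadic estimate of the integral of `‖p‖⁻³` -/
lemma lintegral_cube {R : ℝ} (hR : 0 < R) {Ω : Set (ℝ × ℝ)} (hΩm : MeasurableSet Ω)
    (hΩ : ∀ p ∈ Ω, R ≤ ‖p‖) {A : ℝ} (hA : 0 ≤ A) :
    ∫⁻ p in Ω, ENNReal.ofReal (A / ‖p‖ ^ 3) ≤ ENNReal.ofReal (32 * A / R) := by
  have hpt : ∀ p ∈ Ω, ENNReal.ofReal (A / ‖p‖ ^ 3) ≤
      ∑' k : ℕ, (sqr (0 : ℝ × ℝ) (2 ^ (k + 1) * R)).indicator
        (fun _ => ENNReal.ofReal (A / (2 ^ k * R) ^ 3)) p := by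
    intro p hp
    have hpR := hΩ p hp
    have hex : ∃ k : ℕ, ‖p‖ < 2 ^ (k + 1) * R := by
      obtain ⟨k, hk⟩ := pow_unbounded_of_one_lt (‖p‖ / R) (show (1:ℝ) < 2 by norm_num)
      refine ⟨k, ?_⟩
      rw [div_lt_iff₀ hR] at hk
      have : (2:ℝ) ^ k ≤ 2 ^ (k + 1) := pow_le_pow_right₀ (by norm_num) (by omega)
      nlinarith
    set k := Nat.find hex with hk
    have hk1 : ‖p‖ < 2 ^ (k + 1) * R := Nat.find_spec hex
    have hk2 : 2 ^ k * R ≤ ‖p‖ := by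
      rcases Nat.eq_zero_or_pos k with h0 | h0
      · rw [h0, pow_zero, one_mul]; exact hpR
      · have h2 : k - 1 < Nat.find hex := by omega
        have h3 := Nat.find_min hex h2
        rw [Nat.sub_add_cancel h0] at h3
        exact not_lt.1 h3
    refine le_trans ?_ (ENNReal.le_tsum k)
    rw [indicator_of_mem (by rw [mem_sqr, sub_zero]; exact hk1.le)]
    apply ENNReal.ofReal_le_ofReal
    gcongr
  calc ∫⁻ p in Ω, ENNReal.ofReal (A / ‖p‖ ^ 3)
      ≤ ∫⁻ p in Ω, ∑' k : ℕ, (sqr (0 : ℝ × ℝ) (2 ^ (k + 1) * R)).indicator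
        (fun _ => ENNReal.ofReal (A / (2 ^ k * R) ^ 3)) p := setLIntegral_mono' hΩm hpt
    _ ≤ ∫⁻ p : ℝ × ℝ, ∑' k : ℕ, (sqr (0 : ℝ × ℝ) (2 ^ (k + 1) * R)).indicator
        (fun _ => ENNReal.ofReal (A / (2 ^ k * R) ^ 3)) p := setLIntegral_le_lintegral _ _
    _ = ∑' k : ℕ, ∫⁻ p : ℝ × ℝ, (sqr (0 : ℝ × ℝ) (2 ^ (k + 1) * R)).indicator
        (fun _ => ENNReal.ofReal (A / (2 ^ k * R) ^ 3)) p :=
        lintegral_tsum fun k => (measurable_const.indicator
          (isCompact_sqr _ _).measurableSet).aemeasurable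
    _ = ∑' k : ℕ, ENNReal.ofReal (16 * A / R * (1 / 2) ^ k) := by
        congr 1
        ext1 k
        rw [lintegral_indicator (isCompact_sqr _ _).measurableSet, setLIntegral_const]
        unfold sqr
        rw [Measure.volume_eq_prod, Measure.prod_prod, Real.volume_Icc, Real.volume_Icc,
          ← ENNReal.ofReal_mul (by
            simp only [Prod.fst_zero, zero_add, zero_sub, sub_neg_eq_add]; positivity),
          ← ENNReal.ofReal_mul (by positivity)]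
        congr 1
        simp only [Prod.fst_zero, Prod.snd_zero, zero_add, zero_sub, sub_neg_eq_add]
        have h2k : (0:ℝ) < 2 ^ k := by positivity
        have h2s : (2:ℝ) ^ (k + 1) = 2 ^ k * 2 := pow_succ _ _
        rw [one_div, inv_pow, h2s]
        field_simp
        ring
    _ = ENNReal.ofReal (16 * A / R * 2) := by
        rw [← ENNReal.ofReal_tsum_of_nonneg (fun k => by positivity)
            ((summable_geometric_of_lt_one (by norm_num) (by norm_num)).mul_left _),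
            tsum_mul_left, tsum_geometric_two]
    _ = _ := by congr 1; ring

end

end Pool.Agent.H709R2
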