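import Pool.Agent.H709R2.OBig
import Pool.Agent.H709R2.WFin

/-! Whole plane, odd degree: covering and summation. -/

open Real Set MeasureTheory Topology Filter
open scoped ENNReal

namespace Pool.Agent.H709R2

noncomputable section

variable {S : Finset (ℕ × ℕ)}

/-- thin bound at scale `k` -/
lemma int_thin3 {n : ℕ} (hnS : dg S ≤ n) (hn0 : (n, 0) ∈ S) (h0n : (0, n) ∈ S)
    {M : ℝ} (hM : 0 ≤ M) : ∃ A : ℝ, 0 ≤ A ∧ ∀ j k : ℕ, 1 ≤ j →
      ∑ z ∈ grf j k, ∫⁻ c in BM S M, cellN j k z c ≤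
        ENNReal.ofReal (A * ((2:ℝ) ^ (16 * j))⁻¹) := by
  obtain ⟨A, hA0, hA⟩ := cell_thin_integral3 hnS hn0 h0n (M := M) (θ := (1 / 2) ^ 16) hM
    (by norm_num)
  refine ⟨A * (16 * 25 * 2 ^ 128), by positivity, fun j k hj => ?_⟩
  set L := Lk j k with hL
  have hL0 : 0 < L := Lk_pos j k
  have hR0 := Rj_pos j
  set P : ℝ := 2 ^ (16 * j) with hP
  have hP16 : (2:ℝ) ^ 16 ≤ P := pow_le_pow_right₀ (by norm_num) (by omega)
  have hP0 : 0 < P := by positivity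
  have hLP : L ≤ P := Lk_le j k
  have hRP : Rj j = P * P := Rj_eq_sq j
  have hterm : ∀ z ∈ grf j k, ∫⁻ c in BM S M, cellN j k z c ≤
      ENNReal.ofReal (A * (16 * (P / Rj j ^ 3)) * L ^ 2) := by
    intro z hz
    unfold grf at hz
    rw [Finset.mem_filter] at hz
    have hq := hz.2
    rw [← hL] at hq
    have hq1 : 1 ≤ ‖gpt L z‖ := by
      refine le_trans ?_ hq
      rw [hRP, le_div_iff₀ (by norm_num)]
      nlinarith
    have hq2 : 8 * L ≤ ‖gpt L z‖ := by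
      refine le_trans ?_ hq
      rw [hRP, le_div_iff₀ (by norm_num)]
      nlinarith
    refine (hA (gpt L z) L hL0 hq1 hq2).trans ?_
    apply ENNReal.ofReal_le_ofReal
    have hq0 : 0 < ‖gpt L z‖ := by linarith
    have e1 : L / ‖gpt L z‖ ≤ L / (Rj j / 2) := by gcongr
    have e2 : (L + 1) / ‖gpt L z‖ ≤ (2 * P) / (Rj j / 2) := by
      gcongr
      linarith
    calc A * ((L / ‖gpt L z‖) ^ 2 * ((L + 1) / ‖gpt L z‖))
        ≤ A * ((L / (Rj j / 2)) ^ 2 * ((2 * P) / (Rj j / 2))) := by gcongr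
      _ = _ := by field_simp; ring
  calc ∑ z ∈ grf j k, ∫⁻ c in BM S M, cellN j k z c
      ≤ ∑ z ∈ grf j k, ENNReal.ofReal (A * (16 * (P / Rj j ^ 3)) * L ^ 2) :=
        Finset.sum_le_sum hterm
    _ = ENNReal.ofReal ((grf j k).card * (A * (16 * (P / Rj j ^ 3)) * L ^ 2)) := by
        rw [Finset.sum_const, nsmul_eq_mul, ENNReal.ofReal_mul (Nat.cast_nonneg _),
          ENNReal.ofReal_natCast]
    _ ≤ _ := by
        apply ENNReal.ofReal_le_ofReal
        have h1 := card_grf_le j k hj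
        rw [← hL] at h1
        calc ((grf j k).card : ℝ) * (A * (16 * (P / Rj j ^ 3)) * L ^ 2)
            = A * (16 * (P / Rj j ^ 3)) * (((grf j k).card : ℝ) * L ^ 2) := by ring
          _ ≤ A * (16 * (P / Rj j ^ 3)) * (25 * 2 ^ 128 * Rj j ^ 2) := by gcongr
          _ = _ := by
              rw [hRP]
              field_simp

/-- all cells at scale `j` -/
lemma int_T33 {n : ℕ} (hnS : dg S ≤ n) (hn0 : (n, 0) ∈ S) (h0n : (0, n) ∈ S)
    (h00 : (0, 0) ∈ S) (h10 : (1, 0) ∈ S) (h01 : (0, 1) ∈ S)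
    {M : ℝ} (hM : 0 ≤ M) : ∃ A : ℝ, 0 ≤ A ∧ ∀ j : ℕ, 1 ≤ j →
      ∫⁻ c in BM S M, ∑' k : ℕ, ∑ z ∈ grf j k, cellN j k z c ≤
        ENNReal.ofReal (A * (1 / 2) ^ j) := by
  obtain ⟨A₁, hA₁0, hA₁⟩ := int_thin3 hnS hn0 h0n hM
  obtain ⟨A₂, hA₂0, E, hA₂⟩ := int_tiny h00 h10 h01 hM
  refine ⟨(E + 2) * A₁ + 2 * A₂, by positivity, fun j hj => ?_⟩
  rw [lintegral_tsum (fun k => (Finset.measurable_fun_sum _
      (fun z _ => measurable_cellN j k z)).aemeasurable)]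
  set f : ℕ → ℝ≥0∞ := fun k => ∫⁻ c in BM S M, ∑ z ∈ grf j k, cellN j k z c with hf
  have hf1 : ∀ k, f k = ∑ z ∈ grf j k, ∫⁻ c in BM S M, cellN j k z c := fun k =>
    lintegral_finsetSum _ (fun z _ => measurable_cellN j k z)
  set k₀ := (E + 2) * j with hk₀
  have hsplit : ∑' k, f k = ∑ k ∈ Finset.range k₀, f k + ∑' k, f (k + k₀) :=
    (ENNReal.summable.sum_add_tsum_nat_add' (f := f) (k := k₀)).symm
  rw [hsplit]
  have h1 : ∑ k ∈ Finset.range k₀, f k ≤ ENNReal.ofReal ((E + 2) * A₁ * (1 / 2) ^ j) := by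
    calc ∑ k ∈ Finset.range k₀, f k
        ≤ ∑ k ∈ Finset.range k₀, ENNReal.ofReal (A₁ * ((2:ℝ) ^ (16 * j))⁻¹) :=
          Finset.sum_le_sum fun k _ => by rw [hf1]; exact hA₁ j k hj
      _ = ENNReal.ofReal (k₀ * (A₁ * ((2:ℝ) ^ (16 * j))⁻¹)) := by
          rw [Finset.sum_const, nsmul_eq_mul, ENNReal.ofReal_mul (Nat.cast_nonneg _),
            ENNReal.ofReal_natCast, Finset.card_range]
      _ ≤ _ := by
          apply ENNReal.ofReal_le_ofReal
          rw [hk₀]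
          push_cast
          have e1 : (j : ℝ) ≤ 2 ^ j := by exact_mod_cast (Nat.lt_two_pow_self (n := j)).le
          have e2 : (j : ℝ) * ((2:ℝ) ^ (16 * j))⁻¹ ≤ (1 / 2) ^ j := by
            calc (j : ℝ) * ((2:ℝ) ^ (16 * j))⁻¹ ≤ 2 ^ j * ((2:ℝ) ^ (16 * j))⁻¹ := by gcongr
              _ ≤ 2 ^ j * ((2:ℝ) ^ (2 * j))⁻¹ := by
                  gcongr
                  · norm_num
                  · omega
              _ = (1 / 2) ^ j := by
                  rw [mul_comm 2 j, pow_mul, pow_two, one_div, inv_pow]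
                  field_simp
          calc ((E:ℝ) + 2) * j * (A₁ * ((2:ℝ) ^ (16 * j))⁻¹)
              = (E + 2) * A₁ * (j * ((2:ℝ) ^ (16 * j))⁻¹) := by ring
            _ ≤ _ := by gcongr
  have h2 : ∑' k, f (k + k₀) ≤ ENNReal.ofReal (2 * A₂ * (1 / 2) ^ j) := by
    calc ∑' k, f (k + k₀) ≤ ∑' k : ℕ, ENNReal.ofReal (A₂ * (1 / 2) ^ j) *
          ENNReal.ofReal ((1 / 2) ^ k) := by
          refine ENNReal.tsum_le_tsum fun k => ?_
          rw [hf1]
          have e1 : k + k₀ = j + (k + (E + 1) * j) := by rw [hk₀]; ring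
          rw [e1]
          refine (hA₂ j (k + (E + 1) * j) hj).trans ?_
          rw [← ENNReal.ofReal_mul (by positivity)]
          apply ENNReal.ofReal_le_ofReal
          apply le_of_eq
          have e2 : (2:ℝ) ^ (E * j) * (1 / 2) ^ ((E + 1) * j) = (1 / 2) ^ j := by
            rw [add_mul, one_mul, pow_add, ← mul_assoc, ← mul_pow]
            norm_num
          calc A₂ * (2:ℝ) ^ (E * j) * (1 / 2) ^ (k + (E + 1) * j)
              = A₂ * ((2:ℝ) ^ (E * j) * (1 / 2) ^ ((E + 1) * j)) * (1 / 2) ^ k := by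
                rw [pow_add]; ring
            _ = _ := by rw [e2]
      _ = ENNReal.ofReal (A₂ * (1 / 2) ^ j) * ∑' k : ℕ, ENNReal.ofReal ((1 / 2) ^ k) :=
          ENNReal.tsum_mul_left
      _ = _ := by
          rw [← ENNReal.ofReal_tsum_of_nonneg (fun k => by positivity)
            (summable_geometric_of_lt_one (by norm_num) (by norm_num)), tsum_geometric_two,
            ← ENNReal.ofReal_mul (by positivity)]
          congr 1
          ring
  refine (add_le_add h1 h2).trans (le_of_eq ?_)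
  rw [← ENNReal.ofReal_add (by positivity) (by positivity)]
  congr 1
  ring

/-- closed orbits seen in the `j`-th exterior region -/
def outer3 (V : ℝ × ℝ → ℝ × ℝ) (m : ℝ) (j : ℕ) : Set (Set (ℝ × ℝ)) :=
  ClsF V (AnnM j m) (Fbig j) ∪
    (⋃ z ∈ grd (Rj (j + 2)) (Rj j / 16), Cls V (Ann j ∩ sqr (gpt (Rj j / 16) z) (Rj j / 8))
      (2 ^ (16 * j))) ∪
    ⋃ k : ℕ, ⋃ z ∈ grf j k, Cls V (sqr (gpt (Lk j k) z) (2 * Lk j k)) ((1 / 2) ^ 16 * Lk j k)

lemma cover_all3 (V : ℝ × ℝ → ℝ × ℝ) (m : ℝ) :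
    Cls V (sqr 0 m) 0 ⊆ (Cls V (sqr 0 (Rj 2)) 0 ∪ ClsF V (sqr 0 m) (crossF (Rj 1))) ∪
      ⋃ i : ℕ, outer3 V m (i + 1) := by
  classical
  rintro C ⟨hC, hCm, -⟩
  obtain ⟨x₀, hx₀⟩ : ∃ x, x ∈ C := by
    obtain ⟨γ, T, -, -, -, -, rfl⟩ := hC
    exact ⟨γ 0, ⟨0, rfl⟩⟩
  by_cases hin : ∃ x ∈ C, ‖x‖ ≤ Rj 1
  · left
    obtain ⟨x, hx, hx1⟩ := hin
    by_cases hbox : C ⊆ sqr 0 (Rj 2)
    · exact Or.inl ⟨hC, hbox, x, hx, x, hx, by simp [sq]⟩
    · right
      rw [Set.not_subset] at hbox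
      obtain ⟨y, hy, hy2⟩ := hbox
      rw [mem_sqr, sub_zero, not_le] at hy2
      refine ⟨hC, hCm, x, hx, y, hy, hx1, ?_⟩
      have h1 : Rj 2 = 2 ^ 32 * Rj 1 := Rj_succ 1
      have h2 := Rj_pos 1
      simp only
      nlinarith
  · right
    push Not at hin
    -- maximal `j`
    have hex : ∃ i : ℕ, ∃ x ∈ C, ‖x‖ < Rj (i + 2) := by
      obtain ⟨i, hi⟩ := pow_unbounded_of_one_lt ‖x₀‖ (show (1:ℝ) < 2 by norm_num)
      refine ⟨i, x₀, hx₀, hi.trans_le ?_⟩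
      unfold Rj
      exact pow_le_pow_right₀ (by norm_num) (by omega)
    set i := Nat.find hex with hi
    obtain ⟨x, hx, hx2⟩ := Nat.find_spec hex
    rw [← hi] at hx2
    have hlow : ∀ y ∈ C, Rj (i + 1) ≤ ‖y‖ := by
      intro y hy
      by_contra hcon
      push Not at hcon
      rcases Nat.eq_zero_or_pos i with h0 | h0
      · rw [h0] at hcon
        exact absurd (hin y hy) (not_lt.2 hcon.le)
      · have h2 : i - 1 < Nat.find hex := by omega
        apply Nat.find_min hex h2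
        refine ⟨y, hy, ?_⟩
        rw [show i - 1 + 2 = i + 1 by omega]
        exact hcon
    simp only [mem_iUnion]
    refine ⟨i, ?_⟩
    unfold outer3
    set j := i + 1 with hj
    have hRj := Rj_pos j
    have hRj1 : Rj (j + 1) = 2 ^ 32 * Rj j := Rj_succ j
    have hRj2 : Rj (j + 2) = 2 ^ 32 * Rj (j + 1) := Rj_succ (j + 1)
    by_cases hbig : ∃ x ∈ C, ∃ y ∈ C, (x, y) ∈ Fbig j
    · exact Or.inl (Or.inl ⟨hC, fun w hw => ⟨hlow w hw, hCm hw⟩, hbig⟩)
    · push Not at hbig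
      have hsm : ∀ x ∈ C, ‖x‖ ≤ Rj (j + 2) → ∀ y ∈ C, sq (x - y) < (Rj j / 16) ^ 2 := by
        intro x hx hxn y hy
        by_contra hcon
        push Not at hcon
        exact hbig x hx y hy ⟨hxn, hcon⟩
      have hx3 : ‖x‖ ≤ Rj (j + 1) := hx2.le
      have hclose : ∀ y ∈ C, ‖y - x‖ ≤ Rj j / 16 := by
        intro y hy
        have h1 := hsm x hx (by nlinarith) y hy
        have h2 : sq (y - x) = sq (x - y) := by
          unfold sq; simp only [Prod.fst_sub, Prod.snd_sub]; ring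
        have h3 := (norm_le_sq (y - x)).trans (h2 ▸ h1.le)
        exact le_of_sq_le_sq h3 (by positivity)
      have hbox : C ⊆ sqr 0 (Rj (j + 2)) := by
        intro y hy
        rw [mem_sqr, sub_zero]
        have h1 := hclose y hy
        have h2 : ‖y‖ ≤ ‖x‖ + ‖y - x‖ := by
          calc ‖y‖ = ‖x + (y - x)‖ := by congr 1; abel
            _ ≤ _ := norm_add_le _ _
        nlinarith
      have hCA : C ⊆ Ann j := fun y hy => ⟨hlow y hy, hbox hy⟩
      by_cases hmid : ∃ x ∈ C, ∃ y ∈ C, ((2:ℝ) ^ (16 * j)) ^ 2 ≤ sq (x - y)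
      · left; right
        obtain ⟨z, hz, hz2⟩ := exists_gpt (R := Rj (j + 2)) (L := Rj j / 16) (by positivity)
          (x := x) (by
            have := mem_sqr.1 (hbox hx)
            simpa using this)
        simp only [mem_iUnion]
        refine ⟨z, hz, hC, fun y hy => ⟨hCA hy, ?_⟩, hmid⟩
        rw [mem_sqr]
        have h1 := hclose y hy
        calc ‖y - gpt (Rj j / 16) z‖ = ‖(y - x) + (x - gpt (Rj j / 16) z)‖ := by congr 1; abel
          _ ≤ ‖y - x‖ + ‖x - gpt (Rj j / 16) z‖ := norm_add_le _ _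
          _ ≤ Rj j / 8 := by linarith
      · right
        push Not at hmid
        obtain ⟨k, z, hz, hz2⟩ := small_cover (j := j) (by omega) hC hCA hmid
        simp only [mem_iUnion]
        exact ⟨k, z, hz, hz2⟩

lemma isCompact_midcell (j : ℕ) (q : ℝ × ℝ) : IsCompact (Ann j ∩ sqr q (Rj j / 8)) :=
  (isCompact_Ann j).inter_right (isCompact_sqr _ _).isClosed

lemma no_orbit_mid {n : ℕ} (hnS : dg S ≤ n) {M : ℝ} (hM : 0 ≤ M) {j : ℕ}
    {c : S → ℝ × ℝ} (hc : c ∈ BM S M)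
    (hcK : c ∉ KR S n M (cK S n M / Rj j) (2 ^ (32 * j))) (α : ℝ) (q : ℝ × ℝ)
    {C : Set (ℝ × ℝ)} (hC : ClosedOrbit (fld (rotc α c)) C)
    (hCR : C ⊆ Ann j ∩ sqr q (Rj j / 8)) : False := by
  refine no_orbit3 hnS (norm_le_of_mem_BM hM hc) (one_le_Rj j) (fun z hz => ?_) α hC
    (fun z hz => (hCR hz).1.1) ?_
  · refine big_of_notMem_KR3 hM (one_le_Rj j) ?_ hc hcK hz
    unfold Rj
    push_cast
    exact le_rfl
  · intro z hz r hrz
    have hr : 0 < r := by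
      by_contra hr
      push Not at hr
      have h1 := mem_sqr.1 (hCR hz).2
      have h2 := mem_sqr.1 (hCR hrz).2
      have h3 : Rj j ≤ ‖z‖ := (hCR hz).1.1
      have h4 : ‖z - r • z‖ ≤ Rj j / 8 + Rj j / 8 := by
        calc ‖z - r • z‖ = ‖(z - q) - (r • z - q)‖ := by congr 1; abel
          _ ≤ ‖z - q‖ + ‖r • z - q‖ := norm_sub_le _ _
          _ ≤ _ := add_le_add h1 h2
      have h5 : ‖z - r • z‖ = (1 - r) * ‖z‖ := by
        have : z - r • z = (1 - r) • z := by rw [sub_smul, one_smul]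
        rw [this, norm_smul, Real.norm_eq_abs, abs_of_nonneg (by linarith)]
      have h6 := Rj_pos j
      nlinarith
    positivity

lemma int_mid {n : ℕ} (hnS : dg S ≤ n) (hn0 : (n, 0) ∈ S) (h0n : (0, n) ∈ S)
    {M : ℝ} (hM : 0 ≤ M) : ∃ A : ℝ, 0 ≤ A ∧ ∀ (j : ℕ) (q : ℝ × ℝ),
      ∫⁻ c in BM S M, ((Cls (fld c) (Ann j ∩ sqr q (Rj j / 8)) (2 ^ (16 * j))).encard : ℝ≥0∞) ≤
        ENNReal.ofReal (A * (1 / 2) ^ j) := by
  set v : ℝ≥0∞ := volume (Metric.closedBall (0 : S → ℝ × ℝ) (M + 1)) with hv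
  have hvfin : v ≠ ⊤ := (isCompact_closedBall _ _).measure_lt_top.ne
  have hvr : v = ENNReal.ofReal v.toReal := (ENNReal.ofReal_toReal hvfin).symm
  set V := v.toReal with hV
  have hV0 : 0 ≤ V := ENNReal.toReal_nonneg
  set κ := cK S n M with hκ
  refine ⟨2 * π * dg S * 2 ^ 64 * (24 * κ ^ 2) * V, by positivity, fun j q => ?_⟩
  have hR := Rj_pos j
  have hR2 := Rj_pos (j + 2)
  refine (integral_of_exceptional (measurable_count (isCompact_midcell j q) _)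
    (A := KR S n M (κ / Rj j) (2 ^ (32 * j))) (measurableSet_KR _ _ _ _)
    (C₁ := ENNReal.ofReal (2 * π * dg S * Rj (j + 2) / 2 ^ (16 * j))) ?_ ?_).trans ?_
  · intro c hc hcA α
    rw [ENat.toENNReal_eq_zero, Set.encard_eq_zero]
    ext C
    simp only [Cls, mem_ofPred_eq, mem_empty_iff_false, iff_false]
    rintro ⟨hC, hCΩ, -⟩
    exact no_orbit_mid hnS hM hc hcA α q hC hCΩ
  · intro c
    refine le_trans (lintegral_mono fun α => ?_) (bound_one S c 0 hR2.le (by positivity))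
    refine ENat.toENNReal_le.2 (Set.encard_le_encard ?_)
    rintro C ⟨hC, hCΩ, hd⟩
    exact ⟨hC, fun z hz => (hCΩ hz).1.2, hd⟩
  · calc ENNReal.ofReal (2 * π * dg S * Rj (j + 2) / 2 ^ (16 * j)) *
          volume (BM S M ∩ KR S n M (κ / Rj j) (2 ^ (32 * j)))
        ≤ ENNReal.ofReal (2 * π * dg S * Rj (j + 2) / 2 ^ (16 * j)) *
          (ENNReal.ofReal (24 * κ ^ 2 / Rj j) * ENNReal.ofReal V) := by
          rw [← hvr]
          gcongr
          exact vol_KR_j hn0 h0n hM j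
      _ = ENNReal.ofReal (2 * π * dg S * 2 ^ 64 * (24 * κ ^ 2) * V * ((2:ℝ) ^ (16 * j))⁻¹) := by
          rw [← ENNReal.ofReal_mul (by positivity), ← ENNReal.ofReal_mul (by positivity)]
          congr 1
          rw [Rj_succ, Rj_succ]
          field_simp
      _ ≤ _ := by
          apply ENNReal.ofReal_le_ofReal
          gcongr
          exact inv_pow_le j 16 (by norm_num)

lemma card_mid (j : ℕ) : ((grd (Rj (j + 2)) (Rj j / 16)).card : ℝ) ≤ 2 ^ 140 := by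
  have hR := Rj_pos j
  have h1 := card_grd (Rj_pos (j + 2)).le (L := Rj j / 16) (by positivity)
  have h2 : Rj (j + 2) = 2 ^ 64 * Rj j := by rw [Rj_succ, Rj_succ]; ring
  rw [h2] at h1
  have h3 : (2 * (2 ^ 64 * Rj j) + 3 * (Rj j / 16)) ^ 2 = (2 ^ 69 + 3) ^ 2 * (Rj j / 16) ^ 2 := by
    ring
  rw [h3] at h1
  have h4 : 0 < (Rj j / 16) ^ 2 := by positivity
  have h5 := le_of_mul_le_mul_right h1 h4
  rw [← h2] at h5
  refine h5.trans ?_
  norm_num

/-- the count in the middle cells -/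
def midN (j : ℕ) (z : ℤ × ℤ) (c : S → ℝ × ℝ) : ℝ≥0∞ :=
  ((Cls (fld c) (Ann j ∩ sqr (gpt (Rj j / 16) z) (Rj j / 8)) (2 ^ (16 * j))).encard : ℝ≥0∞)

lemma measurable_midN (j : ℕ) (z : ℤ × ℤ) :
    Measurable (midN j z : (S → ℝ × ℝ) → ℝ≥0∞) := measurable_count (isCompact_midcell _ _) _

lemma int_midsum {n : ℕ} (hnS : dg S ≤ n) (hn0 : (n, 0) ∈ S) (h0n : (0, n) ∈ S)
    {M : ℝ} (hM : 0 ≤ M) : ∃ A : ℝ, 0 ≤ A ∧ ∀ (j : ℕ),
      ∫⁻ c in BM S M, ∑ z ∈ grd (Rj (j + 2)) (Rj j / 16), midN j z c ≤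
        ENNReal.ofReal (A * (1 / 2) ^ j) := by
  obtain ⟨A, hA0, hA⟩ := int_mid hnS hn0 h0n hM
  refine ⟨2 ^ 140 * A, by positivity, fun j => ?_⟩
  rw [lintegral_finsetSum _ (fun z _ => measurable_midN j z)]
  calc ∑ z ∈ grd (Rj (j + 2)) (Rj j / 16), ∫⁻ c in BM S M, midN j z c
      ≤ ∑ z ∈ grd (Rj (j + 2)) (Rj j / 16), ENNReal.ofReal (A * (1 / 2) ^ j) :=
        Finset.sum_le_sum fun z _ => hA j _
    _ = ENNReal.ofReal ((grd (Rj (j + 2)) (Rj j / 16)).card * (A * (1 / 2) ^ j)) := by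
        rw [Finset.sum_const, nsmul_eq_mul, ENNReal.ofReal_mul (Nat.cast_nonneg _),
          ENNReal.ofReal_natCast]
    _ ≤ _ := by
        apply ENNReal.ofReal_le_ofReal
        rw [mul_assoc]
        gcongr
        exact card_mid j

end

end Pool.Agent.H709R2
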