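import Pool.Agent.H709R2.OFin

/-! Whole plane, all degrees. -/

open Real Set MeasureTheory Topology Filter
open scoped ENNReal

namespace Pool.Agent.H709R2

noncomputable section

variable {S : Finset (ℕ × ℕ)}

/-- uniform bound over the boxes -/
theorem box_uniform3 {n : ℕ} (hn : Odd n) (hnS : dg S ≤ n) (hn0 : (n, 0) ∈ S) (h0n : (0, n) ∈ S)
    (h00 : (0, 0) ∈ S) (h10 : (1, 0) ∈ S) (h01 : (0, 1) ∈ S) {M : ℝ} (hM : 0 ≤ M) :
    ∃ B : ℝ≥0∞, B < ⊤ ∧ ∀ m : ℕ, ∫⁻ c in BM S M, Nbox m c ≤ B := by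
  obtain ⟨A₁, hA₁0, hA₁⟩ := int_midsum hnS hn0 h0n hM
  obtain ⟨A₂, hA₂0, hA₂⟩ := int_big hn hnS hn0 h0n hM
  obtain ⟨A₃, hA₃0, hA₃⟩ := int_T33 hnS hn0 h0n h00 h10 h01 hM
  have hvol : volume (BM S M) < ⊤ :=
    (measure_mono (BM_subset hM)).trans_lt (isCompact_closedBall _ _).measure_lt_top
  set B₀ : ℝ≥0∞ := ∫⁻ c in BM S M, ((Cls (fld c) (sqr 0 (Rj 2)) 0).encard : ℝ≥0∞) with hB₀
  have hB₀fin : B₀ < ⊤ := thmE S h00 h10 h01 hM (Rj_pos 2).le
  set B₁ : ℝ≥0∞ := ENNReal.ofReal (6 * π ^ 2 * (dg S + 1)) * volume (BM S M) with hB₁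
  have hB₁fin : B₁ < ⊤ := ENNReal.mul_lt_top ENNReal.ofReal_lt_top hvol
  set B₂ : ℝ≥0∞ := ∑' i : ℕ, ENNReal.ofReal ((A₁ + A₂ + A₃) * (1 / 2) ^ (i + 1)) with hB₂
  have hB₂fin : B₂ < ⊤ := by
    rw [hB₂, ← ENNReal.ofReal_tsum_of_nonneg (fun i => by positivity)]
    · exact ENNReal.ofReal_lt_top
    · have h1 : Summable fun i : ℕ => (1 / 2 : ℝ) ^ i :=
        summable_geometric_of_lt_one (by norm_num) (by norm_num)
      exact ((summable_nat_add_iff 1).2 h1).mul_left _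
  refine ⟨B₀ + B₁ + B₂, ENNReal.add_lt_top.2 ⟨ENNReal.add_lt_top.2 ⟨hB₀fin, hB₁fin⟩, hB₂fin⟩,
    fun m => ?_⟩
  have mc : ∀ (Ω : Set (ℝ × ℝ)) (_ : IsCompact Ω) (d : ℝ),
      Measurable (fun c : S → ℝ × ℝ => ((Cls (fld c) Ω d).encard : ℝ≥0∞)) :=
    fun Ω hΩ d => measurable_count hΩ d
  have mF : ∀ (Ω : Set (ℝ × ℝ)) (_ : IsCompact Ω) (R : ℝ),
      Measurable (fun c : S → ℝ × ℝ => ((ClsF (fld c) Ω (crossF R)).encard : ℝ≥0∞)) :=
    fun Ω hΩ R => measurable_countF hΩ (isClosed_crossF R)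
  set T₁ : ℕ → (S → ℝ × ℝ) → ℝ≥0∞ := fun j c =>
    ∑ z ∈ grd (Rj (j + 2)) (Rj j / 16), midN j z c with hT₁
  set T₂ : ℕ → (S → ℝ × ℝ) → ℝ≥0∞ := fun j c =>
    ((ClsF (fld c) (AnnM j m) (Fbig j)).encard : ℝ≥0∞) with hT₂
  set T₃ : ℕ → (S → ℝ × ℝ) → ℝ≥0∞ := fun j c => ∑' k : ℕ, ∑ z ∈ grf j k, cellN j k z c with hT₃
  have mT₁ : ∀ j, Measurable (T₁ j) := fun j =>
    Finset.measurable_fun_sum _ (fun z _ => measurable_midN j z)
  have mT₂ : ∀ j, Measurable (T₂ j) := fun j =>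
    measurable_countF (isCompact_AnnM j m) (isClosed_Fbig j)
  have mT₃ : ∀ j, Measurable (T₃ j) := fun j =>
    Measurable.tsum fun k => Finset.measurable_fun_sum _ (fun z _ => measurable_cellN j k z)
  have hpt : ∀ c : S → ℝ × ℝ, Nbox m c ≤ ((Cls (fld c) (sqr 0 (Rj 2)) 0).encard : ℝ≥0∞) +
      ((ClsF (fld c) (sqr 0 m) (crossF (Rj 1))).encard : ℝ≥0∞) +
      ∑' i : ℕ, (T₁ (i + 1) c + T₂ (i + 1) c + T₃ (i + 1) c) := by
    intro c
    refine (ENat.toENNReal_le.2 (Set.encard_le_encard (cover_all3 (fld c) m))).trans ?_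
    refine (encard_union_le' _ _).trans ?_
    refine add_le_add (encard_union_le' _ _) ?_
    refine (encard_le_tsum (subset_refl _)).trans (ENNReal.tsum_le_tsum fun i => ?_)
    unfold outer3
    refine (encard_union_le' _ _).trans ?_
    refine add_le_add ((encard_union_le' _ _).trans ?_) ?_
    · rw [add_comm]
      exact add_le_add (encard_biUnion_le _ _) le_rfl
    refine (encard_le_tsum (subset_refl _)).trans (ENNReal.tsum_le_tsum fun k => ?_)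
    exact encard_biUnion_le _ _
  calc ∫⁻ c in BM S M, Nbox m c
      ≤ ∫⁻ c in BM S M, (((Cls (fld c) (sqr 0 (Rj 2)) 0).encard : ℝ≥0∞) +
      ((ClsF (fld c) (sqr 0 m) (crossF (Rj 1))).encard : ℝ≥0∞) +
      ∑' i : ℕ, (T₁ (i + 1) c + T₂ (i + 1) c + T₃ (i + 1) c)) := lintegral_mono hpt
    _ = B₀ + (∫⁻ c in BM S M, ((ClsF (fld c) (sqr 0 m) (crossF (Rj 1))).encard : ℝ≥0∞)) +
      ∑' i : ℕ, ((∫⁻ c in BM S M, T₁ (i + 1) c) + (∫⁻ c in BM S M, T₂ (i + 1) c) +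
        ∫⁻ c in BM S M, T₃ (i + 1) c) := by
        have m0 : Measurable (fun c : S → ℝ × ℝ =>
            ((Cls (fld c) (sqr 0 (Rj 2)) 0).encard : ℝ≥0∞)) := mc _ (isCompact_sqr _ _) _
        have m1 : Measurable (fun c : S → ℝ × ℝ =>
            ((ClsF (fld c) (sqr 0 m) (crossF (Rj 1))).encard : ℝ≥0∞)) := mF _ (isCompact_sqr _ _) _
        have e1 : ∀ (f g h : (S → ℝ × ℝ) → ℝ≥0∞), Measurable f → Measurable g →
            ∫⁻ c in BM S M, (f c + g c + h c) = (∫⁻ c in BM S M, f c) + (∫⁻ c in BM S M, g c) +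
              ∫⁻ c in BM S M, h c := by
          intro f g h hf hg
          rw [lintegral_add_left (f := fun c => f c + g c) (hf.add hg), lintegral_add_left hf]
        rw [e1 _ _ _ m0 m1, lintegral_tsum (f := fun i c => T₁ (i + 1) c + T₂ (i + 1) c +
          T₃ (i + 1) c) fun i =>
          (((mT₁ (i + 1)).add (mT₂ (i + 1))).add (mT₃ (i + 1))).aemeasurable]
        congr 2
        ext1 i
        exact e1 _ _ _ (mT₁ _) (mT₂ _)
    _ ≤ B₀ + B₁ + B₂ := by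
        refine add_le_add (add_le_add le_rfl ?_) (ENNReal.tsum_le_tsum fun i => ?_)
        · refine (integral_of_exceptional (mF _ (isCompact_sqr _ _) _) (A := univ)
            MeasurableSet.univ (C₁ := ENNReal.ofReal (6 * π ^ 2 * (dg S + 1))) ?_ ?_).trans ?_
          · intro c _ h
            exact absurd (mem_univ c) h
          · intro c
            exact cross_bound c (Rj_pos 1) (isCompact_sqr _ _)
          · rw [inter_univ]
        · refine (add_le_add (add_le_add (hA₁ (i + 1)) (hA₂ (i + 1) m))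
            (hA₃ (i + 1) (by omega))).trans (le_of_eq ?_)
          rw [← ENNReal.ofReal_add (by positivity) (by positivity),
            ← ENNReal.ofReal_add (by positivity) (by positivity)]
          congr 1
          ring

/-- **Theorem F**, odd degree. -/
theorem thmF3 {n : ℕ} (hn : Odd n) (hnS : dg S ≤ n) (hn0 : (n, 0) ∈ S) (h0n : (0, n) ∈ S)
    (h00 : (0, 0) ∈ S) (h10 : (1, 0) ∈ S) (h01 : (0, 1) ∈ S) {M : ℝ} (hM : 0 ≤ M) :
    ∫⁻ c in BM S M, NP c < ⊤ := by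
  obtain ⟨B, hB, hB2⟩ := box_uniform3 hn hnS hn0 h0n h00 h10 h01 hM
  have h1 : ∫⁻ c in BM S M, NP c = ⨆ m : ℕ, ∫⁻ c in BM S M, Nbox m c := by
    have : (fun c : S → ℝ × ℝ => NP c) = fun c => ⨆ m : ℕ, Nbox m c := by
      ext1 c
      exact NP_eq_iSup c
    rw [this]
    refine lintegral_iSup measurable_Nbox ?_
    intro m m' hmm c
    refine ENat.toENNReal_le.2 (Set.encard_le_encard ?_)
    intro C hC
    refine ⟨hC.1, hC.2.1.trans fun z hz => ?_, hC.2.2⟩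
    rw [mem_sqr] at hz ⊢
    have : (m : ℝ) ≤ m' := by exact_mod_cast hmm
    exact hz.trans this
  rw [h1]
  exact (iSup_le hB2).trans_lt hB

/-- **Theorem F**, all degrees. -/
theorem thmF_all {n : ℕ} (hnS : dg S ≤ n) (hn0 : (n, 0) ∈ S) (h0n : (0, n) ∈ S)
    (h00 : (0, 0) ∈ S) (h10 : (1, 0) ∈ S) (h01 : (0, 1) ∈ S) {M : ℝ} (hM : 0 ≤ M) :
    ∫⁻ c in BM S M, NP c < ⊤ := by
  rcases Nat.even_or_odd n with hn | hn
  · exact thmF hn hnS hn0 h0n h00 h10 h01 hM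
  · exact thmF3 hn hnS hn0 h0n h00 h10 h01 hM

end

end Pool.Agent.H709R2
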