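import Pool.Agent.H709R2.ONoOrb

/-! Odd degree: a closed orbit near infinity forces a sign of the angular component. -/

open Real Set MeasureTheory Topology Filter
open scoped ENNReal

namespace Pool.Agent.H709R2

noncomputable section

lemma eq_smul_of_wedge {a b : ℝ × ℝ} (ha : sq a = 1) (h : wedge a b = 0) :
    b = (a.1 * b.1 + a.2 * b.2) • a := by
  unfold sq at ha
  have e1 : a.1 * b.2 - a.2 * b.1 = 0 := h
  ext
  · rw [Prod.smul_fst, smul_eq_mul]
    linear_combination (-b.1) * ha - a.2 * e1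
  · rw [Prod.smul_snd, smul_eq_mul]
    linear_combination (-b.2) * ha + a.1 * e1

lemma sq_smul' (r : ℝ) (z : ℝ × ℝ) : sq (r • z) = r ^ 2 * sq z := by
  unfold sq
  simp only [Prod.smul_fst, Prod.smul_snd, smul_eq_mul]
  ring

/-- crossing of a ray -/
lemma cross_sign {V T : ℝ × ℝ → ℝ × ℝ} {n : ℕ} (hn : Odd n)
    (hT : ∀ (r : ℝ) (z : ℝ × ℝ), T (r • z) = r ^ n • T z) {R ε : ℝ} (hε : 0 ≤ ε)
    (hE : ∀ z, R ≤ ‖z‖ → sq (V z - T z) ≤ ε ^ 2 * sq z ^ n) {u : ℝ × ℝ} (hu : sq u = 1)
    {r : ℝ} (hr : r ≠ 0) (hrR : R ≤ ‖r • u‖) {s : ℝ} (hs : s = 1 ∨ s = -1)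
    (hg : ε < s * wedge u (T u)) : 0 < s * (r * wedge u (V (r • u))) := by
  set E := V (r • u) - T (r • u) with hEdef
  have hVE : V (r • u) = r ^ n • T u + E := by rw [hEdef, hT]; abel
  have h1 := hE _ hrR
  rw [sq_smul', hu, mul_one] at h1
  rw [← hEdef] at h1
  have hw : wedge u E ^ 2 ≤ (ε * |r| ^ n) ^ 2 := by
    calc wedge u E ^ 2 ≤ sq u * sq E := by
          rw [← wedge_sq_add_dot_sq]
          nlinarith [sq_nonneg (u.1 * E.1 + u.2 * E.2)]
      _ ≤ 1 * (ε ^ 2 * (r ^ 2) ^ n) := by rw [hu]; gcongr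
      _ = (ε * |r| ^ n) ^ 2 := by
          rw [← sq_abs r]
          ring
  have hw' : |wedge u E| ≤ ε * |r| ^ n := abs_le_of_sq_le_sq hw (by positivity)
  have e1 : wedge u (V (r • u)) = r ^ n * wedge u (T u) + wedge u E := by
    rw [hVE]
    unfold wedge
    simp only [Prod.fst_add, Prod.snd_add, Prod.smul_fst, Prod.smul_snd, smul_eq_mul]
    ring
  have e2 : r * r ^ n = |r| * |r| ^ n := by
    rw [← pow_succ', ← pow_succ', ← abs_pow, abs_of_nonneg]
    exact (Odd.add_one hn).pow_nonneg r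
  have hr0 : 0 < |r| := abs_pos.2 hr
  have e3 : s * (r * wedge u (V (r • u))) =
      |r| * |r| ^ n * (s * wedge u (T u)) + s * (r * wedge u E) := by
    rw [e1, ← e2]; ring
  have e4 : -(|r| * (ε * |r| ^ n)) ≤ s * (r * wedge u E) := by
    have h2 : |s * (r * wedge u E)| ≤ |r| * (ε * |r| ^ n) := by
      rw [abs_mul, abs_mul]
      have h3 : |s| = 1 := by rcases hs with h | h <;> rw [h] <;> simp
      rw [h3, one_mul]
      gcongr
    linarith [neg_abs_le (s * (r * wedge u E))]
  rw [e3]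
  have h5 : 0 < |r| * |r| ^ n := by positivity
  nlinarith

/-- a big closed orbit forces a sign -/
theorem sign_of_orbit {V T : ℝ × ℝ → ℝ × ℝ} {n : ℕ} (hn : Odd n)
    (hT : ∀ (r : ℝ) (z : ℝ × ℝ), T (r • z) = r ^ n • T z) {R ε : ℝ} (hR : 0 < R) (hε : 0 ≤ ε)
    (hE : ∀ z, R ≤ ‖z‖ → sq (V z - T z) ≤ ε ^ 2 * sq z ^ n)
    (hκ : ∀ z, z ≠ 0 → 16 * ε ^ 2 * sq z ^ n < sq (T z))
    {C : Set (ℝ × ℝ)} (hC : ClosedOrbit V C) (hCR : ∀ z ∈ C, R ≤ ‖z‖) :
    (∀ u, sq u = 1 → -ε ≤ wedge u (T u)) ∨ (∀ u, sq u = 1 → wedge u (T u) ≤ ε) := by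
  by_contra hcon
  push Not at hcon
  obtain ⟨⟨b, hb1, hb⟩, ⟨a, ha1, ha⟩⟩ := hcon
  have hC' := hC
  obtain ⟨γ, τ, hτ, hγ, hper, -, hCr⟩ := hC'
  have hγR : ∀ t, R ≤ ‖γ t‖ := fun t => hCR _ (by rw [hCr]; exact ⟨t, rfl⟩)
  have hγ0 : ∀ t, γ t ≠ 0 := by
    intro t h
    have := hγR t
    rw [h, norm_zero] at this
    linarith
  set D := wedge b a with hD
  have hDab : wedge a b = -D := by rw [hD]; unfold wedge; ring
  have hD0 : D ≠ 0 := by
    intro h
    have h1 : wedge a b = 0 := by rw [hDab, h, neg_zero]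
    have h2 := eq_smul_of_wedge ha1 h1
    set r := a.1 * b.1 + a.2 * b.2 with hr
    have h3 : wedge b (T b) = (r * r ^ n) * wedge a (T a) := by
      rw [h2, hT]
      unfold wedge
      simp only [Prod.smul_fst, Prod.smul_snd, smul_eq_mul]
      ring
    have h4 : 0 ≤ r * r ^ n := by
      rw [← pow_succ']
      exact (Odd.add_one hn).pow_nonneg r
    have h5 : 0 ≤ wedge b (T b) := by
      rw [h3]
      exact mul_nonneg h4 (by linarith)
    linarith
  have key := no_zero_of_cross (f := fun t => D * (wedge a (γ t) * wedge b (γ t)))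
    (f' := fun t => D * (wedge a (V (γ t)) * wedge b (γ t) + wedge a (γ t) * wedge b (V (γ t))))
    (fun t => ((hasDerivAt_wedge_left a (hγ t)).mul (hasDerivAt_wedge_left b (hγ t))).const_mul D)
    hτ (fun t => by simp only [hper]) (by
      intro t ht
      rcases mul_eq_zero.1 ht with h | h
      · exact absurd h hD0
      rcases mul_eq_zero.1 h with h | h
      · have h1 := eq_smul_of_wedge ha1 h
        set r := a.1 * (γ t).1 + a.2 * (γ t).2 with hr
        have hr0 : r ≠ 0 := by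
          intro h2
          rw [h2, zero_smul] at h1
          exact hγ0 t h1
        have h2 := cross_sign hn hT hε hE ha1 hr0 (by rw [← h1]; exact hγR t) (Or.inl rfl)
          (by rw [one_mul]; exact ha)
        rw [← h1, one_mul] at h2
        have h3 : wedge b (γ t) = r * D := by
          rw [h1, hD]; unfold wedge
          simp only [Prod.smul_fst, Prod.smul_snd, smul_eq_mul]
          ring
        rw [h, zero_mul, add_zero, h3]
        have : 0 < D ^ 2 := by positivity
        calc 0 < D ^ 2 * (r * wedge a (V (γ t))) := by positivity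
          _ = _ := by ring
      · have h1 := eq_smul_of_wedge hb1 h
        set r := b.1 * (γ t).1 + b.2 * (γ t).2 with hr
        have hr0 : r ≠ 0 := by
          intro h2
          rw [h2, zero_smul] at h1
          exact hγ0 t h1
        have h2 := cross_sign hn hT hε hE hb1 hr0 (by rw [← h1]; exact hγR t) (Or.inr rfl)
          (by linarith)
        rw [← h1] at h2
        have h3 : wedge a (γ t) = -(r * D) := by
          rw [h1, hD]; unfold wedge
          simp only [Prod.smul_fst, Prod.smul_snd, smul_eq_mul]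
          ring
        rw [h, mul_zero, zero_add, h3]
        have : 0 < D ^ 2 := by positivity
        calc 0 < D ^ 2 * (-1 * (r * wedge b (V (γ t)))) := by positivity
          _ = _ := by ring)
  have hne : ∀ t, wedge a (γ t) ≠ 0 := by
    intro t h
    apply key t
    rw [h]; ring
  have hcont : Continuous fun t => wedge a (γ t) :=
    continuous_iff_continuousAt.2 fun t => (hasDerivAt_wedge_left a (hγ t)).continuousAt
  refine no_orbit_core3 hT hR hE hκ hC hCR ?_
  intro z hz r hrz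
  rw [hCr] at hz hrz
  obtain ⟨t, rfl⟩ := hz
  obtain ⟨t', ht'⟩ := hrz
  have h1 : wedge a (γ t') = r * wedge a (γ t) := by
    rw [ht']
    unfold wedge
    simp only [Prod.smul_fst, Prod.smul_snd, smul_eq_mul]
    ring
  have hr : 0 < r := by
    by_contra hr
    push Not at hr
    have h2 : ∃ x, wedge a (γ x) = 0 := by
      rcases lt_or_gt_of_ne (hne t) with h | h
      · exact mem_range_of_exists_le_of_exists_ge hcont ⟨t, h.le⟩
          ⟨t', by rw [h1]; exact mul_nonneg_of_nonpos_of_nonpos hr h.le⟩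
      · exact mem_range_of_exists_le_of_exists_ge hcont
          ⟨t', by rw [h1]; exact mul_nonpos_of_nonpos_of_nonneg hr h.le⟩ ⟨t, h.le⟩
    obtain ⟨x, hx⟩ := h2
    exact hne x hx
  positivity

end

end Pool.Agent.H709R2
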