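import Pool.Agent.H709R2.ON1

/-! Odd degree: the angular component is bounded below along big closed orbits. -/

open Real Set MeasureTheory Topology Filter
open scoped ENNReal

namespace Pool.Agent.H709R2

noncomputable section

lemma abs_le_one_of_sq {ω : ℝ × ℝ} (h : sq ω = 1) : |ω.1| ≤ 1 ∧ |ω.2| ≤ 1 := by
  unfold sq at h
  constructor
  · exact abs_le_one_iff_mul_self_le_one.2 (by nlinarith [sq_nonneg ω.2])
  · exact abs_le_one_iff_mul_self_le_one.2 (by nlinarith [sq_nonneg ω.1])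

/-- the pointwise inequality -/
lemma lyap_ineq {K ρ ε τ y₁ y₂ e₁ e₂ α P κ a m₀ : ℝ} (hK : 1 ≤ K) (hρ : 0 < ρ) (hρK : ρ ≤ K)
    (hκ : κ = ρ ^ 2 / (8 * K ^ 2)) (ha : a = 2 * K / ρ) (hm : m₀ = ρ ^ 4 / (128 * K ^ 3))
    (hε : 0 ≤ ε) (hεs : ε ≤ ρ ^ 4 / (256 * K ^ 3)) (hτ : |τ| = 1)
    (h1 : ρ - 2 * a * ε ≤ τ * y₁ + a * y₂) (h2 : y₂ ≤ m₀ + K * α ^ 2)
    (he₁ : |e₁| ≤ ε) (he₂ : |e₂| ≤ ε) (hP0 : 0 ≤ P) (hP : P ≤ 2 / κ) (hPα : P * α ^ 2 ≤ κ) :
    0 < τ * (y₁ + e₁) + a * (y₂ + e₂) - a * P * (y₂ + e₂) := by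
  have hK0 : 0 < K := by linarith
  have hκ0 : 0 < κ := by rw [hκ]; positivity
  have ha0 : 0 < a := by rw [ha]; positivity
  have hm0 : 0 < m₀ := by rw [hm]; positivity
  have ha2 : 2 ≤ a := by rw [ha, le_div_iff₀ hρ]; linarith
  have hκ8 : κ ≤ 1 / 8 := by
    rw [hκ, div_le_div_iff₀ (by positivity) (by norm_num)]
    nlinarith
  have c1 : a * (K * κ) = ρ / 4 := by rw [ha, hκ]; field_simp; norm_num
  have c2 : a * (2 / κ * m₀) = ρ / 4 := by rw [ha, hκ, hm]; field_simp; norm_num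
  have c3 : a * (4 / κ) * (ρ ^ 4 / (256 * K ^ 3)) = ρ / 4 := by rw [ha, hκ]; field_simp; norm_num
  have c4 : (1 + 3 * a + a * (2 / κ)) ≤ a * (4 / κ) := by
    have h3 : 16 ≤ 2 / κ := by rw [le_div_iff₀ hκ0]; linarith
    have h4 : a * (4 / κ) = a * (2 / κ) + a * (2 / κ) := by ring
    rw [h4]
    nlinarith
  have c5 : (1 + 3 * a + a * (2 / κ)) * ε ≤ ρ / 4 := by
    calc (1 + 3 * a + a * (2 / κ)) * ε ≤ (a * (4 / κ)) * (ρ ^ 4 / (256 * K ^ 3)) := by gcongr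
      _ = ρ / 4 := c3
  have d1 : -ε ≤ τ * e₁ := by
    have h3 : |τ * e₁| ≤ ε := by rw [abs_mul, hτ, one_mul]; exact he₁
    linarith [neg_abs_le (τ * e₁)]
  have d2 : -ε ≤ e₂ := by linarith [neg_abs_le e₂]
  have d3 : e₂ ≤ ε := (le_abs_self e₂).trans he₂
  have d4 : P * (y₂ + e₂) ≤ 2 / κ * (m₀ + ε) + K * κ := by
    calc P * (y₂ + e₂) ≤ P * (m₀ + K * α ^ 2 + ε) := by gcongr
      _ = P * (m₀ + ε) + K * (P * α ^ 2) := by ring
      _ ≤ _ := by gcongr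
  have d5 : a * (P * (y₂ + e₂)) ≤ a * (2 / κ * (m₀ + ε) + K * κ) := by gcongr
  have d6 : a * (2 / κ * (m₀ + ε) + K * κ) = ρ / 4 + ρ / 4 + a * (2 / κ) * ε := by
    rw [mul_add, mul_add, mul_add, c1, c2]; ring
  have d7 : -(a * ε) ≤ a * e₂ := by nlinarith
  nlinarith

/-- the Lyapunov function has positive derivative -/
lemma lyap_deriv {e z v : ℝ × ℝ} (he : sq e = 1) (hz : z ≠ 0) {s : ℝ} (hs0 : 0 < s) (hs1 : s < 1)
    {γ : ℝ → ℝ × ℝ} {t : ℝ} (hγt : γ t = z) (hγ : HasDerivAt γ v t) (τ a : ℝ) :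
    HasDerivAt (fun t => τ / 2 * Real.log (sq (γ t)) - a * Real.arctan
      ((2 * s * (wedge e (γ t) * (e.1 * (γ t).1 + e.2 * (γ t).2))) /
        ((1 + s) * wedge e (γ t) ^ 2 + (1 - s) * (e.1 * (γ t).1 + e.2 * (γ t).2) ^ 2)))
      ((sq z)⁻¹ * (τ * (z.1 * v.1 + z.2 * v.2) + a * wedge z v - a *
        ((1 - s ^ 2) * (sq z) ^ 2 / ((1 - s) ^ 2 * (sq z) ^ 2 + 4 * s * wedge e z ^ 2 * sq z)) *
          wedge z v)) t := by
  have hq : 0 < sq z := sq_pos hz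
  have dA : HasDerivAt (fun t => wedge e (γ t)) (wedge e v) t := hasDerivAt_wedge_left e hγ
  have dB : HasDerivAt (fun t => e.1 * (γ t).1 + e.2 * (γ t).2) (e.1 * v.1 + e.2 * v.2) t := by
    have h1 := (ContinuousLinearMap.fst ℝ ℝ ℝ).hasFDerivAt.comp_hasDerivAt t hγ
    have h2 := (ContinuousLinearMap.snd ℝ ℝ ℝ).hasFDerivAt.comp_hasDerivAt t hγ
    exact (h1.const_mul e.1).add (h2.const_mul e.2)
  have dq : HasDerivAt (fun t => sq (γ t)) (2 * (z.1 * v.1 + z.2 * v.2)) t := by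
    have := hasDerivAt_sq hγ
    rwa [hγt] at this
  set A := wedge e z with hA
  set B := e.1 * z.1 + e.2 * z.2 with hB
  set A' := wedge e v with hA'
  set B' := e.1 * v.1 + e.2 * v.2 with hB'
  have hAB : A ^ 2 + B ^ 2 = sq z := by
    rw [hA, hB, wedge_sq_add_dot_sq, he, one_mul]
  have hW : B * A' - A * B' = wedge z v := by
    have h1 : B * A' - A * B' = sq e * wedge z v := by
      rw [hA, hB, hA', hB']; unfold wedge sq; ring
    rw [h1, he, one_mul]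
  have hD : 0 < (1 + s) * A ^ 2 + (1 - s) * B ^ 2 := by
    have h1 : (1 + s) * A ^ 2 + (1 - s) * B ^ 2 = (1 - s) * sq z + 2 * s * A ^ 2 := by
      rw [← hAB]; ring
    rw [h1]
    have : 0 < (1 - s) * sq z := mul_pos (by linarith) hq
    positivity
  have dN : HasDerivAt (fun t => 2 * s * (wedge e (γ t) * (e.1 * (γ t).1 + e.2 * (γ t).2)))
      (2 * s * (A' * B + A * B')) t := by
    have h1 := (dA.mul dB).const_mul (2 * s)
    rw [hγt] at h1
    exact h1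
  have dD : HasDerivAt (fun t => (1 + s) * wedge e (γ t) ^ 2 +
      (1 - s) * (e.1 * (γ t).1 + e.2 * (γ t).2) ^ 2)
      ((1 + s) * (2 * A * A') + (1 - s) * (2 * B * B')) t := by
    have h1 := ((dA.pow 2).const_mul (1 + s)).add ((dB.pow 2).const_mul (1 - s))
    rw [hγt] at h1
    refine h1.congr_deriv ?_
    rw [← hA, ← hB]
    ring
  have dND := dN.div dD (by rw [hγt]; exact hD.ne')
  rw [hγt] at dND
  have dL := ((dq.log (by rw [hγt]; exact hq.ne')).const_mul (τ / 2)).sub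
    (dND.arctan.const_mul a)
  rw [hγt] at dL
  refine dL.congr_deriv ?_
  simp only [Pi.div_apply, hγt]
  rw [← hA, ← hB]
  set D := (1 + s) * A ^ 2 + (1 - s) * B ^ 2 with hDdef
  set G := (1 - s) ^ 2 * (sq z) ^ 2 + 4 * s * A ^ 2 * sq z with hG
  have hG0 : 0 < G := by
    have h1 : 0 < (1 - s) ^ 2 * (sq z) ^ 2 := by
      have : 0 < 1 - s := by linarith
      positivity
    have h2 : 0 ≤ 4 * s * A ^ 2 * sq z := by positivity
    linarith
  have hGD : (2 * s * (A * B)) ^ 2 + D ^ 2 = G := by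
    rw [hG, hDdef, ← hAB]; ring
  have e1 : 1 / (1 + (2 * s * (A * B) / D) ^ 2) * ((2 * s * (A' * B + A * B') * D -
      2 * s * (A * B) * ((1 + s) * (2 * A * A') + (1 - s) * (2 * B * B'))) / D ^ 2) =
      (2 * s * ((1 - s) * B ^ 2 - (1 + s) * A ^ 2) * wedge z v) / G := by
    have e2 : 1 + (2 * s * (A * B) / D) ^ 2 = G / D ^ 2 := by
      rw [← hGD]; field_simp; ring
    rw [e2, ← hW, hDdef]
    have : D ≠ 0 := hD.ne'
    rw [← hDdef]
    field_simp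
    rw [hDdef]
    ring
  rw [e1]
  have e3 : (1 - s ^ 2) * sq z ^ 2 = G + sq z * (2 * s * ((1 - s) * B ^ 2 - (1 + s) * A ^ 2)) := by
    rw [hG, ← hAB]; ring
  rw [e3]
  field_simp
  ring

/-- no big closed orbits when the angular component is small somewhere -/
theorem no_orbit_small_min {V T : ℝ × ℝ → ℝ × ℝ} {n : ℕ}
    (hT : ∀ (r : ℝ) (z : ℝ × ℝ), T (r • z) = r ^ n • T z) {R ε : ℝ} (hR : 0 < R) (hε : 0 ≤ ε)
    (hE : ∀ z, R ≤ ‖z‖ → sq (V z - T z) ≤ ε ^ 2 * sq z ^ n)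
    {K ρ : ℝ} (hK : 1 ≤ K) (hρ : 0 < ρ) (hρK : ρ ≤ K)
    (hTK : ∀ u, sq u = 1 → sq (T u) ≤ K ^ 2) {ω : ℝ × ℝ} (hω : sq ω = 1)
    (hI : ∀ u, sq u = 1 → ρ ≤ ω.1 * (u.1 * (T u).1 + u.2 * (T u).2) + ω.2 * wedge u (T u))
    (hpos : ∀ u, sq u = 1 → -ε ≤ wedge u (T u)) {e : ℝ × ℝ} (he : sq e = 1)
    (hq : ∀ u, sq u = 1 → wedge u (T u) ≤ ρ ^ 4 / (128 * K ^ 3) + K * wedge e u ^ 2)
    (hεs : ε ≤ ρ ^ 4 / (256 * K ^ 3))
    {C : Set (ℝ × ℝ)} (hC : ClosedOrbit V C) (hCR : ∀ z ∈ C, R ≤ ‖z‖) : False := by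
  obtain ⟨γ, t₀, ht₀, hγ, hper, -, rfl⟩ := hC
  have hγR : ∀ t, R ≤ ‖γ t‖ := fun t => hCR _ ⟨t, rfl⟩
  have hγ0 : ∀ t, γ t ≠ 0 := by
    intro t h
    have := hγR t
    rw [h, norm_zero] at this
    linarith
  have hK0 : 0 < K := by linarith
  set κ := ρ ^ 2 / (8 * K ^ 2) with hκ
  set a := 2 * K / ρ with ha
  set m₀ := ρ ^ 4 / (128 * K ^ 3) with hm
  have hκ0 : 0 < κ := by rw [hκ]; positivity
  have ha0 : 0 < a := by rw [ha]; positivity
  have hm0 : 0 < m₀ := by rw [hm]; positivity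
  have hκ8 : κ ≤ 1 / 8 := by
    rw [hκ, div_le_div_iff₀ (by positivity) (by norm_num)]
    nlinarith
  have hmρ : m₀ ≤ ρ / 128 := by
    have h1 : m₀ = ρ / 128 * (ρ / K) ^ 3 := by rw [hm]; field_simp
    have h2 : ρ / K ≤ 1 := (div_le_one hK0).2 hρK
    have h3 : (ρ / K) ^ 3 ≤ 1 := pow_le_one₀ (by positivity) h2
    rw [h1]
    nlinarith
  have hεm : ε ≤ m₀ / 2 := by
    refine hεs.trans (le_of_eq ?_)
    rw [hm]; field_simp; norm_num
  -- the direction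
  have hω1 := (abs_le_one_of_sq hω).1
  have hω2 := (abs_le_one_of_sq hω).2
  have hcs : ∀ u, sq u = 1 → |u.1 * (T u).1 + u.2 * (T u).2| ≤ K := by
    intro u hu
    apply abs_le_of_sq_le_sq _ hK0.le
    have h1 := wedge_sq_add_dot_sq u (T u)
    have h2 := hTK u hu
    rw [hu, one_mul] at h1
    nlinarith [sq_nonneg (wedge u (T u))]
  have hω1a : 1 / a ≤ |ω.1| := by
    have h1 := hI e he
    have h2 : |wedge e (T e)| ≤ m₀ := by
      rw [abs_le]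
      constructor
      · have := hpos e he
        linarith
      · have := hq e he
        have h3 : wedge e e = 0 := by unfold wedge; ring
        rw [h3] at this
        simpa using this
    have h3 : |ω.2 * wedge e (T e)| ≤ 1 * m₀ := by rw [abs_mul]; gcongr
    have h4 : |ω.1 * (e.1 * (T e).1 + e.2 * (T e).2)| ≤ |ω.1| * K := by
      rw [abs_mul]; gcongr; exact hcs e he
    have h5 := le_abs_self (ω.1 * (e.1 * (T e).1 + e.2 * (T e).2))
    have h6 := le_abs_self (ω.2 * wedge e (T e))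
    have h7 : ρ / 2 ≤ |ω.1| * K := by linarith
    rw [ha, one_div_div, div_le_iff₀ (by positivity)]
    linarith
  have hωpos : 0 < |ω.1| := lt_of_lt_of_le (by positivity) hω1a
  set τ : ℝ := ω.1 / |ω.1| with hτ
  have hτ1 : |τ| = 1 := by rw [hτ, abs_div, abs_abs, div_self hωpos.ne']
  have hτω : |ω.1| * τ = ω.1 := by rw [hτ]; field_simp
  have hlow : ∀ u, sq u = 1 → ρ - 2 * a * ε ≤
      τ * (u.1 * (T u).1 + u.2 * (T u).2) + a * wedge u (T u) := by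
    intro u hu
    have h1 := hI u hu
    have h2 := hpos u hu
    set y₁ := u.1 * (T u).1 + u.2 * (T u).2
    set y₂ := wedge u (T u)
    set b := 1 / |ω.1| with hb
    have hb1 : 1 ≤ b := by rw [hb, le_div_iff₀ hωpos]; linarith
    have hba : b ≤ a := by
      rw [hb, div_le_iff₀ hωpos]
      have h4 : a * (1 / a) ≤ a * |ω.1| := mul_le_mul_of_nonneg_left hω1a ha0.le
      have h5 : a * (1 / a) = 1 := by field_simp
      linarith
    have h3 : b * ρ ≤ τ * y₁ + b * ω.2 * y₂ := by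
      calc b * ρ ≤ b * (ω.1 * y₁ + ω.2 * y₂) := by gcongr
        _ = _ := by
            rw [hb, hτ]; field_simp
    have h4 : |b * ω.2| ≤ a := by
      rw [abs_mul, abs_of_pos (by linarith)]
      calc b * |ω.2| ≤ a * 1 := by gcongr
        _ = a := mul_one a
    have h5 := abs_le.1 h4
    have h6 : -(2 * a * ε) ≤ (a - b * ω.2) * y₂ := by
      have h7 : 0 ≤ a - b * ω.2 := by linarith
      have h8 : a - b * ω.2 ≤ 2 * a := by linarith
      calc -(2 * a * ε) ≤ (a - b * ω.2) * (-ε) := by nlinarith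
        _ ≤ _ := by gcongr
    have h7 : ρ ≤ b * ρ := by nlinarith
    calc ρ - 2 * a * ε ≤ (τ * y₁ + b * ω.2 * y₂) + (a - b * ω.2) * y₂ := by linarith
      _ = _ := by ring
  -- the Lyapunov function
  set s := 1 - κ with hs
  have hs0 : 0 < s := by rw [hs]; linarith
  have hs1 : s < 1 := by rw [hs]; linarith
  have hs78 : 7 / 8 ≤ s := by rw [hs]; linarith
  have hderiv := fun t => lyap_deriv (z := γ t) he (hγ0 t) hs0 hs1 rfl (hγ t) τ a
  obtain ⟨t, ht⟩ := exists_max_periodic (f := fun t => τ / 2 * Real.log (sq (γ t)) -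
      a * Real.arctan
      ((2 * s * (wedge e (γ t) * (e.1 * (γ t).1 + e.2 * (γ t).2))) /
        ((1 + s) * wedge e (γ t) ^ 2 + (1 - s) * (e.1 * (γ t).1 + e.2 * (γ t).2) ^ 2)))
    (continuous_iff_continuousAt.2 fun t => (hderiv t).continuousAt) ht₀
    (fun t => by simp only [hper])
  have hmax : IsLocalMax (fun t => τ / 2 * Real.log (sq (γ t)) -
      a * Real.arctan
      ((2 * s * (wedge e (γ t) * (e.1 * (γ t).1 + e.2 * (γ t).2))) /
        ((1 + s) * wedge e (γ t) ^ 2 + (1 - s) * (e.1 * (γ t).1 + e.2 * (γ t).2) ^ 2))) t :=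
    Filter.Eventually.of_forall fun t' => ht t'
  have hzero := hmax.hasDerivAt_eq_zero (hderiv t)
  set z := γ t with hz
  have hz0 : z ≠ 0 := hγ0 t
  have hqp : 0 < sq z := sq_pos hz0
  set r := √(sq z) with hr
  have hr0 : 0 < r := Real.sqrt_pos.2 hqp
  have hr2 : r ^ 2 = sq z := Real.sq_sqrt hqp.le
  set u := r⁻¹ • z with hu
  have hzu : z = r • u := by rw [hu, smul_smul, mul_inv_cancel₀ hr0.ne', one_smul]
  have hu1 : sq u = 1 := by
    rw [hu, sq_smul', ← hr2]; field_simp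
  set E := V z - T z with hEd
  have hTz : T z = r ^ n • T u := by
    conv_lhs => rw [hzu, hT]
  have hVz : V z = r ^ n • T u + E := by
    rw [hEd, hTz]; abel
  have hEb := hE z (hγR t)
  rw [← hEd] at hEb
  set ϱ := r * r ^ n with hϱ
  have hϱ0 : 0 < ϱ := by rw [hϱ]; positivity
  have hEz : sq z * sq E ≤ (ε * ϱ) ^ 2 := by
    calc sq z * sq E ≤ sq z * (ε ^ 2 * sq z ^ n) := by gcongr
      _ = _ := by rw [← hr2, hϱ]; ring
  have hdec := wedge_sq_add_dot_sq z E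
  have b1 : |(z.1 * E.1 + z.2 * E.2) / ϱ| ≤ ε := by
    rw [abs_div, abs_of_pos hϱ0, div_le_iff₀ hϱ0]
    apply abs_le_of_sq_le_sq _ (by positivity)
    nlinarith [sq_nonneg (wedge z E)]
  have b2 : |wedge z E / ϱ| ≤ ε := by
    rw [abs_div, abs_of_pos hϱ0, div_le_iff₀ hϱ0]
    apply abs_le_of_sq_le_sq _ (by positivity)
    nlinarith [sq_nonneg (z.1 * E.1 + z.2 * E.2)]
  set y₁ := u.1 * (T u).1 + u.2 * (T u).2 with hy₁
  set y₂ := wedge u (T u) with hy₂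
  set α := wedge e u with hα
  have hdot : z.1 * (V z).1 + z.2 * (V z).2 = ϱ * (y₁ + (z.1 * E.1 + z.2 * E.2) / ϱ) := by
    rw [mul_add, mul_div_cancel₀ _ hϱ0.ne', hVz, hy₁, hϱ]
    have e1 : z.1 = r * u.1 := by rw [hzu]; rfl
    have e2 : z.2 = r * u.2 := by rw [hzu]; rfl
    simp only [Prod.fst_add, Prod.snd_add, Prod.smul_fst, Prod.smul_snd, smul_eq_mul]
    rw [e1, e2]
    ring
  have hwed : wedge z (V z) = ϱ * (y₂ + wedge z E / ϱ) := by
    rw [mul_add, mul_div_cancel₀ _ hϱ0.ne', hVz, hy₂, hϱ]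
    have e1 : z.1 = r * u.1 := by rw [hzu]; rfl
    have e2 : z.2 = r * u.2 := by rw [hzu]; rfl
    unfold wedge
    simp only [Prod.fst_add, Prod.snd_add, Prod.smul_fst, Prod.smul_snd, smul_eq_mul]
    rw [e1, e2]
    ring
  have hAα : wedge e z ^ 2 = sq z * α ^ 2 := by
    rw [hα, ← hr2]
    conv_lhs => rw [hzu]
    unfold wedge
    simp only [Prod.smul_fst, Prod.smul_snd, smul_eq_mul]
    ring
  set P := (1 - s ^ 2) * (sq z) ^ 2 / ((1 - s) ^ 2 * (sq z) ^ 2 + 4 * s * wedge e z ^ 2 * sq z)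
    with hP
  have hden : 0 < κ ^ 2 + 4 * s * α ^ 2 := by positivity
  have hPe : P = (1 - s ^ 2) / (κ ^ 2 + 4 * s * α ^ 2) := by
    have e1 : (1 - s) ^ 2 * (sq z) ^ 2 + 4 * s * wedge e z ^ 2 * sq z =
        (κ ^ 2 + 4 * s * α ^ 2) * sq z ^ 2 := by
      rw [hAα, show (1 - s) = κ by rw [hs]; ring]; ring
    rw [hP, e1, mul_div_mul_right _ _ (by positivity)]
  have h1s : 1 - s ^ 2 = κ * (1 + s) := by
    rw [show κ = 1 - s by rw [hs]; ring]; ring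
  have hP0 : 0 ≤ P := by
    rw [hPe, h1s]; positivity
  have hP1 : P ≤ 2 / κ := by
    rw [hPe, h1s, div_le_div_iff₀ hden hκ0]
    have h1 : 0 ≤ s * α ^ 2 := by positivity
    nlinarith [mul_pos hκ0 hκ0]
  have hP2 : P * α ^ 2 ≤ κ := by
    rw [hPe, h1s, div_mul_eq_mul_div, div_le_iff₀ hden]
    have h1 : 0 ≤ α ^ 2 := sq_nonneg α
    have h2 : (1 + s) ≤ 4 * s := by linarith
    calc κ * (1 + s) * α ^ 2 ≤ κ * (4 * s) * α ^ 2 := by gcongr
      _ ≤ κ * (κ ^ 2 + 4 * s * α ^ 2) := by nlinarith [pow_pos hκ0 3]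
  have hfin := lyap_ineq hK hρ hρK hκ ha hm hε hεs hτ1 (hlow u hu1) (hq u hu1) b1 b2 hP0 hP1 hP2
  rw [hdot, hwed] at hzero
  have hlast : (sq z)⁻¹ * (τ * (ϱ * (y₁ + (z.1 * E.1 + z.2 * E.2) / ϱ)) +
      a * (ϱ * (y₂ + wedge z E / ϱ)) - a * P * (ϱ * (y₂ + wedge z E / ϱ))) =
      (sq z)⁻¹ * ϱ * (τ * (y₁ + (z.1 * E.1 + z.2 * E.2) / ϱ) + a * (y₂ + wedge z E / ϱ) -
        a * P * (y₂ + wedge z E / ϱ)) := by ring
  rw [hlast] at hzero
  have : 0 < (sq z)⁻¹ * ϱ * (τ * (y₁ + (z.1 * E.1 + z.2 * E.2) / ϱ) + a * (y₂ + wedge z E / ϱ) -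
        a * P * (y₂ + wedge z E / ϱ)) := by positivity
  linarith

end

end Pool.Agent.H709R2
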