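import Pool.Agent.H709R2.OChart

/-! Nonexistence near infinity, all degrees. -/

open Real Set MeasureTheory Topology Filter
open scoped ENNReal

namespace Pool.Agent.H709R2

noncomputable section

variable {S : Finset (ℕ × ℕ)}

/-- the core nonexistence statement -/
theorem no_orbit_core3 {V T : ℝ × ℝ → ℝ × ℝ} {n : ℕ}
    (hT : ∀ (r : ℝ) (z : ℝ × ℝ), T (r • z) = r ^ n • T z) {R ε : ℝ} (hR : 0 < R)
    (hE : ∀ z, R ≤ ‖z‖ → sq (V z - T z) ≤ ε ^ 2 * sq z ^ n)
    (hκ : ∀ z, z ≠ 0 → 16 * ε ^ 2 * sq z ^ n < sq (T z))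
    {C : Set (ℝ × ℝ)} (hC : ClosedOrbit V C) (hCR : ∀ z ∈ C, R ≤ ‖z‖)
    (hrp : ∀ z ∈ C, ∀ r : ℝ, r • z ∈ C → 0 < r ^ n) : False := by
  obtain ⟨γ, τ, hτ, hγ, hper, -, rfl⟩ := hC
  have hγR : ∀ t, R ≤ ‖γ t‖ := fun t => hCR _ ⟨t, rfl⟩
  have hγ0 : ∀ t, γ t ≠ 0 := by
    intro t h
    have := hγR t
    rw [h, norm_zero] at this
    linarith
  have hγs : ∀ t, 0 < sq (γ t) := fun t => sq_pos (hγ0 t)
  have claim1 : ∀ t₀, wedge (γ t₀) (T (γ t₀)) ^ 2 ≤ ε ^ 2 * sq (γ t₀) ^ (n + 1) := by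
    intro t₀
    by_contra hcon
    push Not at hcon
    set z₀ := γ t₀ with hz₀
    set g₀ := wedge z₀ (T z₀) with hg₀
    have hz0s : 0 < sq z₀ := hγs t₀
    have h1 := no_zero_of_cross (f := fun t => g₀ * wedge z₀ (γ t))
      (f' := fun t => g₀ * wedge z₀ (V (γ t)))
      (fun t => (hasDerivAt_wedge_left z₀ (hγ t)).const_mul g₀) hτ
      (fun t => by simp only [hper]) (by
        intro t ht
        have hg0 : g₀ ≠ 0 := by
          intro h
          rw [h] at hcon
          have : 0 ≤ ε ^ 2 * sq z₀ ^ (n + 1) := by positivity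
          nlinarith
        have hw : wedge z₀ (γ t) = 0 := by
          rcases mul_eq_zero.1 ht with h | h
          · exact absurd h hg0
          · exact h
        -- `γ t` is a multiple of `z₀`
        set r := (z₀.1 * (γ t).1 + z₀.2 * (γ t).2) / sq z₀ with hr
        have hγt : γ t = r • z₀ := by
          have e1 : z₀.1 * (γ t).2 - z₀.2 * (γ t).1 = 0 := hw
          ext
          · rw [Prod.smul_fst, smul_eq_mul, hr, div_mul_eq_mul_div, eq_div_iff hz0s.ne']
            unfold sq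
            linear_combination (-z₀.2) * e1
          · rw [Prod.smul_snd, smul_eq_mul, hr, div_mul_eq_mul_div, eq_div_iff hz0s.ne']
            unfold sq
            linear_combination z₀.1 * e1
        have hsqr : sq (γ t) = r ^ 2 * sq z₀ := by
          rw [hγt]
          unfold sq
          simp only [Prod.smul_fst, Prod.smul_snd, smul_eq_mul]
          ring
        have hrn : 0 < r ^ n := hrp z₀ ⟨t₀, rfl⟩ r (by rw [← hγt]; exact ⟨t, rfl⟩)
        have hEt := hE (γ t) (hγR t)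
        set E := V (γ t) - T (γ t) with hEdef
        have hV : wedge z₀ (V (γ t)) = r ^ n * g₀ + wedge z₀ E := by
          have e1 : V (γ t) = T (γ t) + E := by rw [hEdef]; abel
          rw [e1, hγt, hT, hg₀]
          unfold wedge
          simp only [Prod.fst_add, Prod.snd_add, Prod.smul_fst, Prod.smul_snd, smul_eq_mul]
          ring
        have hwE : wedge z₀ E ^ 2 < (r ^ n * g₀) ^ 2 := by
          calc wedge z₀ E ^ 2 ≤ sq z₀ * sq E := by
                rw [← wedge_sq_add_dot_sq]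
                nlinarith [sq_nonneg (z₀.1 * E.1 + z₀.2 * E.2)]
            _ ≤ sq z₀ * (ε ^ 2 * sq (γ t) ^ n) := by gcongr
            _ = (r ^ n) ^ 2 * (ε ^ 2 * sq z₀ ^ (n + 1)) := by
                rw [hsqr, mul_pow, ← pow_mul, ← pow_mul, mul_comm 2 n]
                ring
            _ < (r ^ n) ^ 2 * g₀ ^ 2 := by
                have : 0 < (r ^ n) ^ 2 := by positivity
                exact mul_lt_mul_of_pos_left hcon this
            _ = _ := by ring
        rw [hV]
        have h5 : |wedge z₀ E| < |r ^ n * g₀| := sq_lt_sq.1 hwE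
        rw [abs_mul, abs_of_pos hrn] at h5
        have h6 : -(|g₀| * |wedge z₀ E|) ≤ g₀ * wedge z₀ E := by
          rw [← abs_mul]; exact neg_abs_le _
        have h7 : 0 < |g₀| := abs_pos.2 hg0
        have h8 : g₀ * (r ^ n * g₀) = r ^ n * |g₀| * |g₀| := by
          rw [mul_assoc, abs_mul_abs_self]; ring
        rw [mul_add, h8]
        nlinarith) t₀
    apply h1
    have : wedge z₀ (γ t₀) = 0 := by rw [← hz₀]; unfold wedge; ring
    simp only [this, mul_zero]
  -- the radius is strictly monotone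
  obtain ⟨t₁, ht₁⟩ := exists_max_periodic (f := fun t => sq (γ t))
    (continuous_sq.comp (continuous_iff_continuousAt.2 fun t => (hγ t).continuousAt)) hτ
    (fun t => by simp only [hper])
  have h2 : IsLocalMax (fun t => sq (γ t)) t₁ := Filter.Eventually.of_forall fun t => ht₁ t
  have h3 := h2.hasDerivAt_eq_zero (hasDerivAt_sq (hγ t₁))
  set z := γ t₁ with hz
  have hEt := hE z (hγR t₁)
  set E := V z - T z with hEdef
  have hVz : V z = T z + E := by rw [hEdef]; abel
  have h4 := claim1 t₁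
  rw [← hz] at h4
  have h5 := hκ z (hγ0 t₁)
  have h6 := wedge_sq_add_dot_sq z (T z)
  have h7 : (z.1 * E.1 + z.2 * E.2) ^ 2 ≤ sq z * sq E := cs2 _ _ _ _
  have hzs : 0 < sq z := hγs t₁
  have h8 : (z.1 * E.1 + z.2 * E.2) = -(z.1 * (T z).1 + z.2 * (T z).2) := by
    rw [hVz] at h3
    simp only [Prod.fst_add, Prod.snd_add] at h3
    linarith
  rw [h8, neg_sq] at h7
  have h9 : sq z * sq E ≤ ε ^ 2 * sq z ^ (n + 1) := by
    calc sq z * sq E ≤ sq z * (ε ^ 2 * sq z ^ n) := by gcongr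
      _ = _ := by ring
  have h10 : sq z * (16 * ε ^ 2 * sq z ^ n) < sq z * sq (T z) := mul_lt_mul_of_pos_left h5 hzs
  have h11 : sq z * (16 * ε ^ 2 * sq z ^ n) = 16 * (ε ^ 2 * sq z ^ (n + 1)) := by ring
  have h12 : 0 ≤ ε ^ 2 * sq z ^ (n + 1) := by positivity
  nlinarith

/-- no closed orbits outside the box of radius `R` when the leading part is not small -/
theorem no_orbit3 {n : ℕ} (hnS : dg S ≤ n) {c : S → ℝ × ℝ} {M : ℝ}
    (hc : ‖c‖ ≤ M) {R : ℝ} (hR : 1 ≤ R)
    (hκ : ∀ z : ℝ × ℝ, z ≠ 0 →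
      16 * (2 * (Fintype.card S * M / R) ^ 2) * sq z ^ n < sq (topf n c z)) (α : ℝ)
    {C : Set (ℝ × ℝ)} (hC : ClosedOrbit (fld (rotc α c)) C) (hCR : ∀ z ∈ C, R ≤ ‖z‖)
    (hrp : ∀ z ∈ C, ∀ r : ℝ, r • z ∈ C → 0 < r ^ n) : False := by
  have hM : 0 ≤ M := (norm_nonneg _).trans hc
  have hR0 : 0 < R := by linarith
  set ε : ℝ := √2 * (Fintype.card S * M / R) with hε
  have hε2 : ε ^ 2 = 2 * (Fintype.card S * M / R) ^ 2 := by
    rw [hε, mul_pow, Real.sq_sqrt (by norm_num)]
  refine no_orbit_core3 (V := fld (rotc α c)) (T := topf n (rotc α c)) (ε := ε)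
    (fun r z => topf_smul n _ r z) hR0 ?_ ?_ hC hCR hrp
  · intro z hz
    rw [← rot_fld, ← rot_topf, rot_sub_eq, sq_rot]
    have h1 := norm_low_le hnS hc hR hz
    have h2 : ‖z‖ ^ 2 ≤ sq z := norm_le_sq z
    calc sq (fld c z - topf n c z) ≤ 2 * ‖fld c z - topf n c z‖ ^ 2 := sq_le_norm _
      _ ≤ 2 * ((Fintype.card S * M / R) * ‖z‖ ^ n) ^ 2 := by gcongr
      _ = ε ^ 2 * (‖z‖ ^ 2) ^ n := by rw [hε2, mul_pow, ← pow_mul, ← pow_mul, mul_comm 2 n]; ring
      _ ≤ ε ^ 2 * sq z ^ n := by gcongr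
  · intro z hz
    rw [← rot_topf, sq_rot, hε2]
    exact hκ z hz

lemma big_of_notMem_KR3 {n : ℕ} {M : ℝ} (hM : 0 ≤ M) {R : ℝ} (hR : 1 ≤ R) {N : ℕ}
    (hN : R ≤ N) {c : S → ℝ × ℝ} (hc : c ∈ BM S M) (hcK : c ∉ KR S n M (cK S n M / R) N)
    {z : ℝ × ℝ} (hz : z ≠ 0) :
    16 * (2 * (Fintype.card S * M / R) ^ 2) * sq z ^ n < sq (topf n c z) := by
  have hR0 : 0 < R := by linarith
  have hN0 : (0:ℝ) < N := by linarith
  have hcM := norm_le_of_mem_BM hM hc
  -- lower bound on the unit box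
  have key : ∀ w : ℝ × ℝ, ‖w‖ = 1 →
      6 * 2 ^ n * (Fintype.card S * M) / R < ‖topf n c w‖ := by
    -- points on the right and upper sides
    have key1 : ∀ u : ℝ, |u| ≤ 1 → 6 * 2 ^ n * (Fintype.card S * M) / R < ‖topf n c (1, u)‖ ∧
        6 * 2 ^ n * (Fintype.card S * M) / R < ‖topf n c (u, 1)‖ := by
      intro u hu
      have hu' := abs_le.1 hu
      set j : ℤ := ⌊u * N⌋ with hj
      have hj1 : (j : ℝ) ≤ u * N := Int.floor_le _
      have hj2 : u * N < j + 1 := Int.lt_floor_add_one _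
      have hjN : j ∈ Finset.Icc (-(N : ℤ)) N := by
        rw [Finset.mem_Icc]
        constructor
        · have : ((-(N : ℤ) : ℤ) : ℝ) ≤ u * N := by
            push_cast
            nlinarith
          exact Int.le_floor.2 this
        · have : (j : ℝ) ≤ N := by nlinarith
          exact_mod_cast this
      have hdist : |u - (j : ℝ) / N| ≤ 1 / R := by
        have e1 : u - (j : ℝ) / N = (u * N - j) / N := by field_simp
        rw [e1, abs_div, abs_of_pos hN0, abs_of_nonneg (by linarith)]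
        calc (u * N - j) / N ≤ 1 / N := by gcongr; linarith
          _ ≤ 1 / R := by gcongr
      have hjabs : |(j : ℝ) / N| ≤ 1 := by
        rw [Finset.mem_Icc] at hjN
        rw [abs_div, abs_of_pos hN0, div_le_one hN0, abs_le]
        constructor
        · have : ((-(N : ℤ) : ℤ) : ℝ) ≤ j := by exact_mod_cast hjN.1
          simpa using this
        · exact_mod_cast hjN.2
      have hnot : c ∉ smallAt S n M (cK S n M / R) (1, (j : ℝ) / N) ∧
          c ∉ smallAt S n M (cK S n M / R) ((j : ℝ) / N, 1) := by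
        constructor
        · intro h
          exact hcK (mem_biUnion hjN (Or.inl h))
        · intro h
          exact hcK (mem_biUnion hjN (Or.inr h))
      have hbig : cK S n M / R < ‖topf n c (1, (j : ℝ) / N)‖ ∧
          cK S n M / R < ‖topf n c ((j : ℝ) / N, 1)‖ := by
        constructor
        · by_contra h
          exact hnot.1 ⟨hc, not_lt.1 h⟩
        · by_contra h
          exact hnot.2 ⟨hc, not_lt.1 h⟩
      have e0 : cK S n M / R = 6 * 2 ^ n * (Fintype.card S * M) / R +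
          Fintype.card S * (n * M) * (1 / R) := by unfold cK; ring
      have hn1 : ‖((1:ℝ), (j : ℝ) / N)‖ ≤ 1 := by
        rw [Prod.norm_def, max_le_iff]; exact ⟨by simp, hjabs⟩
      have hn2 : ‖((1:ℝ), u)‖ ≤ 1 := by
        rw [Prod.norm_def, max_le_iff]; exact ⟨by simp, hu⟩
      have hn3 : ‖((j : ℝ) / N, (1:ℝ))‖ ≤ 1 := by
        rw [Prod.norm_def, max_le_iff]; exact ⟨hjabs, by simp⟩
      have hn4 : ‖(u, (1:ℝ))‖ ≤ 1 := by
        rw [Prod.norm_def, max_le_iff]; exact ⟨hu, by simp⟩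
      have d1 : ‖((1:ℝ), (j : ℝ) / N) - ((1:ℝ), u)‖ ≤ 1 / R := by
        rw [Prod.norm_def, max_le_iff]
        simp only [Prod.mk_sub_mk, sub_self, norm_zero]
        refine ⟨by positivity, ?_⟩
        rw [Real.norm_eq_abs, abs_sub_comm]
        exact hdist
      have d2 : ‖((j : ℝ) / N, (1:ℝ)) - (u, (1:ℝ))‖ ≤ 1 / R := by
        rw [Prod.norm_def, max_le_iff]
        simp only [Prod.mk_sub_mk, sub_self, norm_zero]
        refine ⟨?_, by positivity⟩
        rw [Real.norm_eq_abs, abs_sub_comm]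
        exact hdist
      have l1 := topf_lip (n := n) hcM hn1 hn2
      have l2 := topf_lip (n := n) hcM hn3 hn4
      have t1 : ‖topf n c (1, (j : ℝ) / N)‖ ≤ ‖topf n c (1, u)‖ +
          Fintype.card S * (n * M) * (1 / R) := by
        calc ‖topf n c (1, (j : ℝ) / N)‖ = ‖topf n c (1, u) +
              (topf n c (1, (j : ℝ) / N) - topf n c (1, u))‖ := by congr 1; abel
          _ ≤ _ := norm_add_le _ _
          _ ≤ _ := by
              gcongr
              exact l1.trans (by gcongr)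
      have t2 : ‖topf n c ((j : ℝ) / N, 1)‖ ≤ ‖topf n c (u, 1)‖ +
          Fintype.card S * (n * M) * (1 / R) := by
        calc ‖topf n c ((j : ℝ) / N, 1)‖ = ‖topf n c (u, 1) +
              (topf n c ((j : ℝ) / N, 1) - topf n c (u, 1))‖ := by congr 1; abel
          _ ≤ _ := norm_add_le _ _
          _ ≤ _ := by
              gcongr
              exact l2.trans (by gcongr)
      constructor
      · linarith [hbig.1]
      · linarith [hbig.2]
    have hneg : ∀ w : ℝ × ℝ, ‖topf n c w‖ = ‖topf n c (-w)‖ := by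
      intro w
      have : -w = (-1 : ℝ) • w := by simp
      rw [this, topf_smul, norm_smul, norm_pow, norm_neg, norm_one, one_pow, one_mul]
    intro w hw
    rw [Prod.norm_def] at hw
    rcases max_choice ‖w.1‖ ‖w.2‖ with h | h
    · rw [h] at hw
      have hw2 : |w.2| ≤ 1 := by
        have := le_max_right ‖w.1‖ ‖w.2‖
        rw [h, hw] at this
        exact this
      rcases eq_or_eq_neg_of_abs_eq hw with h1 | h1
      · have := (key1 w.2 hw2).1
        rwa [← h1] at this
      · have := (key1 (-w.2) (by rwa [abs_neg])).1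
        rw [hneg w]
        have e : -w = (1, -w.2) := by ext <;> simp [h1]
        rwa [e]
    · rw [h] at hw
      have hw1 : |w.1| ≤ 1 := by
        have := le_max_left ‖w.1‖ ‖w.2‖
        rw [h, hw] at this
        exact this
      rcases eq_or_eq_neg_of_abs_eq hw with h1 | h1
      · have := (key1 w.1 hw1).2
        rwa [← h1] at this
      · have := (key1 (-w.1) (by rwa [abs_neg])).2
        rw [hneg w]
        have e : -w = (-w.1, 1) := by ext <;> simp [h1]
        rwa [e]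
  set r := ‖z‖ with hr
  have hr0 : 0 < r := norm_pos_iff.2 hz
  set w := r⁻¹ • z with hw
  have hwn : ‖w‖ = 1 := by
    rw [hw, norm_smul, norm_inv, Real.norm_eq_abs, abs_of_pos hr0, ← hr, inv_mul_cancel₀ hr0.ne']
  have hzw : z = r • w := by rw [hw, smul_smul, mul_inv_cancel₀ hr0.ne', one_smul]
  have h1 := key w hwn
  have h2 : sq w ≤ 2 := by
    have := sq_le_norm w
    rw [hwn] at this
    linarith
  have h3 : 0 ≤ sq w := sq_nonneg' w
  have h4 : sq z = r ^ 2 * sq w := by
    conv_lhs => rw [hzw]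
    unfold sq
    simp only [Prod.smul_fst, Prod.smul_snd, smul_eq_mul]
    ring
  have h5 : sq (topf n c z) = (r ^ n) ^ 2 * sq (topf n c w) := by
    conv_lhs => rw [hzw, topf_smul]
    unfold sq
    simp only [Prod.smul_fst, Prod.smul_snd, smul_eq_mul]
    ring
  have h6 := norm_le_sq (topf n c w)
  set B : ℝ := Fintype.card S * M / R with hB
  have hB0 : 0 ≤ B := by positivity
  have h7 : (6 * 2 ^ n * B) ^ 2 < sq (topf n c w) := by
    have e1 : 6 * 2 ^ n * B < ‖topf n c w‖ := by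
      refine lt_of_le_of_lt (le_of_eq ?_) h1
      rw [hB]; ring
    have e2 : (6 * 2 ^ n * B) ^ 2 < ‖topf n c w‖ ^ 2 := by gcongr
    linarith
  have h8 : 32 * 2 ^ n * B ^ 2 ≤ (6 * 2 ^ n * B) ^ 2 := by
    have e1 : (1:ℝ) ≤ 2 ^ n := one_le_pow₀ (by norm_num)
    have e2 : (2:ℝ) ^ n ≤ 2 ^ n * 2 ^ n := by nlinarith
    calc 32 * 2 ^ n * B ^ 2 ≤ 32 * (2 ^ n * 2 ^ n) * B ^ 2 := by gcongr
      _ ≤ 36 * (2 ^ n * 2 ^ n) * B ^ 2 := by gcongr; norm_num
      _ = _ := by ring
  rw [h4, h5, mul_pow, ← pow_mul, mul_comm 2 n, pow_mul]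
  have h9 : sq w ^ n ≤ 2 ^ n := pow_le_pow_left₀ h3 h2 n
  calc 16 * (2 * B ^ 2) * ((r ^ n) ^ 2 * sq w ^ n) = (r ^ n) ^ 2 * (32 * sq w ^ n * B ^ 2) := by ring
    _ ≤ (r ^ n) ^ 2 * (32 * 2 ^ n * B ^ 2) := by gcongr
    _ ≤ (r ^ n) ^ 2 * (6 * 2 ^ n * B) ^ 2 := by gcongr
    _ < (r ^ n) ^ 2 * sq (topf n c w) := by gcongr

end

end Pool.Agent.H709R2
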