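import Pool.Agent.H709R2.ON2

/-! Odd degree: quadratic growth of the angular component near its minimum. -/

open Real Set MeasureTheory Topology Filter
open scoped ENNReal

namespace Pool.Agent.H709R2

noncomputable section

variable {S : Finset (ℕ × ℕ)}

/-- coefficients of the leading part -/
def cutc (n : ℕ) (c : S → ℝ × ℝ) : S → ℝ × ℝ := fun m => if m.1.1 + m.1.2 = n then c m else 0

lemma topf_eq_fld (n : ℕ) (c : S → ℝ × ℝ) (z : ℝ × ℝ) : topf n c z = fld (cutc n c) z := by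
  unfold topf fld cutc
  refine Finset.sum_congr rfl fun m _ => ?_
  split_ifs
  · rfl
  · rw [smul_zero]

lemma norm_cutc_le (n : ℕ) (c : S → ℝ × ℝ) : ‖cutc n c‖ ≤ ‖c‖ := by
  rw [pi_norm_le_iff_of_nonneg (norm_nonneg _)]
  intro m
  unfold cutc
  split_ifs
  · exact norm_le_pi_norm c m
  · rw [norm_zero]; exact norm_nonneg _

lemma abs_wedge_le' (a b : ℝ × ℝ) : |wedge a b| ≤ 2 * ‖a‖ * ‖b‖ := by
  unfold wedge
  have h1 : |a.1| ≤ ‖a‖ := norm_fst_le a
  have h2 : |a.2| ≤ ‖a‖ := norm_snd_le a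
  have h3 : |b.1| ≤ ‖b‖ := norm_fst_le b
  have h4 : |b.2| ≤ ‖b‖ := norm_snd_le b
  calc |a.1 * b.2 - a.2 * b.1| ≤ |a.1 * b.2| + |a.2 * b.1| := abs_sub _ _
    _ = |a.1| * |b.2| + |a.2| * |b.1| := by rw [abs_mul, abs_mul]
    _ ≤ ‖a‖ * ‖b‖ + ‖a‖ * ‖b‖ := by gcongr
    _ = _ := by ring

lemma norm_le_one_of_sq {u : ℝ × ℝ} (h : sq u = 1) : ‖u‖ ≤ 1 := by
  have h1 := norm_le_sq u
  rw [h] at h1
  exact le_of_sq_le_sq (by rw [one_pow]; exact h1) zero_le_one

lemma isCompact_circle : IsCompact {u : ℝ × ℝ | sq u = 1} := by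
  refine Metric.isCompact_of_isClosed_isBounded (isClosed_eq continuous_sq continuous_const) ?_
  refine (Metric.isBounded_closedBall (x := (0 : ℝ × ℝ)) (r := 1)).subset fun u hu => ?_
  rw [mem_closedBall_zero_iff]
  exact norm_le_one_of_sq hu

lemma continuous_topf_space (n : ℕ) (c : S → ℝ × ℝ) : Continuous (topf n c) := by
  have : topf n c = fld (cutc n c) := by ext1 z; exact topf_eq_fld n c z
  rw [this]
  exact (contDiff_fld _ (m := 0)).continuous

lemma circle_min (n : ℕ) (c : S → ℝ × ℝ) : ∃ e : ℝ × ℝ, sq e = 1 ∧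
    ∀ u, sq u = 1 → wedge e (topf n c e) ≤ wedge u (topf n c u) := by
  have hne : {u : ℝ × ℝ | sq u = 1}.Nonempty := ⟨(1, 0), by simp [sq]⟩
  have hc : Continuous fun u => wedge u (topf n c u) := by
    have := continuous_topf_space n c
    unfold wedge
    fun_prop
  obtain ⟨e, he, hmin⟩ := isCompact_circle.exists_isMinOn hne hc.continuousOn
  exact ⟨e, he, fun u hu => hmin hu⟩

/-- uniform quadratic bound -/
lemma exists_quad (S : Finset (ℕ × ℕ)) {n : ℕ} (hn : Odd n) (M : ℝ) : ∃ K : ℝ, 1 ≤ K ∧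
    ∀ c : S → ℝ × ℝ, ‖c‖ ≤ M → (∀ u, sq u = 1 → sq (topf n c u) ≤ K ^ 2) ∧
      ∀ e, sq e = 1 → (∀ u, sq u = 1 → wedge e (topf n c e) ≤ wedge u (topf n c u)) →
        ∀ u, sq u = 1 → wedge u (topf n c u) ≤ wedge e (topf n c e) + K * wedge e u ^ 2 := by
  obtain ⟨K₀, hK₀1, hK₀⟩ := exists_unif S M 1
  have hK₀0 : 0 < K₀ := by linarith
  refine ⟨24 * K₀, by linarith, fun c hc => ?_⟩
  set T := topf n c with hT
  have hTf : ∀ z, T z = fld (cutc n c) z := topf_eq_fld n c
  have hcc : ‖cutc n c‖ ≤ M := (norm_cutc_le n c).trans hc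
  have hT0 : T 0 = 0 := by
    have h1 := topf_smul n c 0 (0 : ℝ × ℝ)
    rw [zero_smul, zero_pow hn.pos.ne', zero_smul] at h1
    exact h1
  have hTn : ∀ u : ℝ × ℝ, ‖u‖ ≤ 1 → ‖T u‖ ≤ K₀ := by
    intro u hu
    have h1 := (hK₀ (cutc n c) hcc u 0 hu (by simp)).2.2.1
    rw [← hTf, ← hTf, hT0, sub_zero, sub_zero] at h1
    nlinarith
  have hneg : ∀ u, wedge (-u) (T (-u)) = wedge u (T u) := by
    intro u
    have h1 : T (-u) = -T u := by
      have h2 := topf_smul n c (-1) u
      rw [neg_one_smul, hn.neg_one_pow, neg_one_smul] at h2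
      exact h2
    rw [h1]
    unfold wedge
    simp only [Prod.fst_neg, Prod.snd_neg]
    ring
  refine ⟨fun u hu => ?_, fun e he hmin => ?_⟩
  · have h1 := hTn u (norm_le_one_of_sq hu)
    have h2 := sq_le_norm (T u)
    have h3 := pow_le_pow_left₀ (norm_nonneg _) h1 2
    nlinarith [sq_nonneg K₀]
  -- the case of a nonnegative scalar product
  have he1 := norm_le_one_of_sq he
  have key : ∀ u, sq u = 1 → 0 ≤ e.1 * u.1 + e.2 * u.2 →
      wedge u (T u) ≤ wedge e (T e) + 24 * K₀ * wedge e u ^ 2 := by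
    intro u hu hB
    set B := e.1 * u.1 + e.2 * u.2 with hBdef
    have hAB : wedge e u ^ 2 + B ^ 2 = 1 := by
      rw [hBdef, wedge_sq_add_dot_sq, he, hu, one_mul]
    have hB1 : B ≤ 1 := by nlinarith [sq_nonneg (wedge e u)]
    set u' : ℝ × ℝ := (2 * B) • e - u with hu'
    have hu'1 : sq u' = 1 := by
      have h1 : sq u' = 4 * B ^ 2 * sq e - 4 * B * B + sq u := by
        rw [hu']
        conv_rhs => rw [hBdef]
        unfold sq
        simp only [Prod.fst_sub, Prod.snd_sub, Prod.smul_fst, Prod.smul_snd, smul_eq_mul]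
        rw [← hBdef]
        have : B = e.1 * u.1 + e.2 * u.2 := hBdef
        linear_combination (4 * B) * this
      rw [h1, he, hu]; ring
    set L : (ℝ × ℝ) → ℝ := fun h => wedge h (T e) + wedge e (fderiv ℝ (fld (cutc n c)) e h) with hL
    have hTay : ∀ w, sq w = 1 → |wedge w (T w) - wedge e (T e) - L (w - e)| ≤
        4 * K₀ * sq (w - e) := by
      intro w hw
      have hw1 := norm_le_one_of_sq hw
      obtain ⟨-, -, k3, k4⟩ := hK₀ (cutc n c) hcc w e hw1 he1
      rw [← hTf, ← hTf] at k3 k4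
      set Rm := T w - T e - fderiv ℝ (fld (cutc n c)) e (w - e) with hRm
      have e1 : wedge w (T w) - wedge e (T e) - L (w - e) =
          wedge (w - e) (T w - T e) + wedge e Rm := by
        rw [hL, hRm]
        unfold wedge
        simp only [Prod.fst_sub, Prod.snd_sub]
        ring
      rw [e1]
      have h1 := norm_le_sq (w - e)
      calc |wedge (w - e) (T w - T e) + wedge e Rm|
          ≤ |wedge (w - e) (T w - T e)| + |wedge e Rm| := abs_add_le _ _
        _ ≤ 2 * ‖w - e‖ * ‖T w - T e‖ + 2 * ‖e‖ * ‖Rm‖ :=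
            add_le_add (abs_wedge_le' _ _) (abs_wedge_le' _ _)
        _ ≤ 2 * ‖w - e‖ * (K₀ * ‖w - e‖) + 2 * 1 * (K₀ * ‖w - e‖ ^ 2) := by gcongr
        _ = 4 * K₀ * ‖w - e‖ ^ 2 := by ring
        _ ≤ _ := by gcongr
    have hd1 : sq (u - e) = 2 - 2 * B := by
      have : sq (u - e) = sq u - 2 * B + sq e := by
        rw [hBdef]; unfold sq
        simp only [Prod.fst_sub, Prod.snd_sub]
        ring
      rw [this, hu, he]; ring
    have hd2 : sq (u' - e) = 2 - 2 * B := by
      have h1 : sq (u' - e) = sq u' - 2 * (2 * B * sq e - B) + sq e := by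
        conv_rhs => rw [hBdef]
        rw [hu']
        unfold sq
        simp only [Prod.fst_sub, Prod.snd_sub, Prod.smul_fst, Prod.smul_snd, smul_eq_mul]
        ring
      rw [h1, hu'1, he]; ring
    have t1 := abs_le.1 (hTay u hu)
    have t2 := abs_le.1 (hTay u' hu'1)
    rw [hd1] at t1
    rw [hd2] at t2
    have hLsum : L (u - e) + L (u' - e) = (2 * B - 2) * L e := by
      have e1 : u' - e = (2 * B - 1) • e - u := by
        rw [hu']; rw [sub_smul, one_smul]; abel
      have e2 : u - e + (u' - e) = (2 * B - 2) • e := by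
        rw [hu', sub_smul, show (2:ℝ) • e = e + e from two_smul ℝ e]; abel
      have hadd : ∀ a b, L a + L b = L (a + b) := by
        intro a b
        simp only [hL, map_add]
        unfold wedge
        simp only [Prod.fst_add, Prod.snd_add]
        ring
      have hsm : ∀ (r : ℝ) a, L (r • a) = r * L a := by
        intro r a
        simp only [hL, map_smul]
        unfold wedge
        simp only [Prod.smul_fst, Prod.smul_snd, smul_eq_mul]
        ring
      rw [hadd, e2, hsm]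
    have hLe : |L e| ≤ 4 * K₀ := by
      have k1 := (hK₀ (cutc n c) hcc e e he1 he1).1
      have k2 : ‖fderiv ℝ (fld (cutc n c)) e e‖ ≤ K₀ := by
        refine ((fderiv ℝ (fld (cutc n c)) e).le_opNorm e).trans ?_
        calc ‖fderiv ℝ (fld (cutc n c)) e‖ * ‖e‖ ≤ K₀ * 1 := by gcongr
          _ = K₀ := mul_one _
      calc |L e| ≤ |wedge e (T e)| + |wedge e (fderiv ℝ (fld (cutc n c)) e e)| := abs_add_le _ _
        _ ≤ 2 * ‖e‖ * ‖T e‖ + 2 * ‖e‖ * ‖fderiv ℝ (fld (cutc n c)) e e‖ :=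
            add_le_add (abs_wedge_le' _ _) (abs_wedge_le' _ _)
        _ ≤ 2 * 1 * K₀ + 2 * 1 * K₀ := by
            gcongr
            exact hTn e he1
        _ = _ := by ring
    have hLe' := abs_le.1 hLe
    have hminu' := hmin u' hu'1
    have hBA : 1 - B ≤ wedge e u ^ 2 := by nlinarith
    have h3 : (2 * B - 2) * L e ≤ (2 - 2 * B) * (4 * K₀) := by
      have h4 : 0 ≤ 2 - 2 * B := by linarith
      nlinarith [mul_le_mul_of_nonneg_left hLe'.1 h4]
    have h5 : wedge u (T u) - wedge e (T e) ≤ (2 - 2 * B) * (12 * K₀) := by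
      nlinarith [t1.2, t2.2]
    have h6 : (2 - 2 * B) * (12 * K₀) ≤ 24 * K₀ * wedge e u ^ 2 := by nlinarith
    linarith
  intro u hu
  by_cases hB : 0 ≤ e.1 * u.1 + e.2 * u.2
  · exact key u hu hB
  · have h1 : sq (-u) = 1 := by
      rw [← hu]; unfold sq; simp
    have h2 := key (-u) h1 (by
      simp only [Prod.fst_neg, Prod.snd_neg]
      linarith)
    rw [hneg] at h2
    have h3 : wedge e (-u) ^ 2 = wedge e u ^ 2 := by
      unfold wedge
      simp only [Prod.fst_neg, Prod.snd_neg]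
      ring
    rwa [h3] at h2

end

end Pool.Agent.H709R2
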