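import Pool.Agent.H709R2.CellE

/-! Linear families of polynomial planar vector fields. -/

open Real Set MeasureTheory Topology Filter
open scoped ENNReal

namespace Pool.Agent.H709R2

noncomputable section

variable {S : Finset (ℕ × ℕ)}

/-- the planar polynomial field `∑ x^i y^j c_{ij}`, `(i,j) ∈ S`, with coefficient vectors
`c_{ij} ∈ ℝ²` -/
def fld (c : S → ℝ × ℝ) (p : ℝ × ℝ) : ℝ × ℝ := ∑ m : S, (p.1 ^ m.1.1 * p.2 ^ m.1.2) • c m

/-- rotation of all coefficient vectors -/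
def rotc (α : ℝ) (c : S → ℝ × ℝ) : S → ℝ × ℝ := fun m => rot α (c m)

lemma rot_add (α : ℝ) (v w : ℝ × ℝ) : rot α (v + w) = rot α v + rot α w := by
  unfold rot
  ext <;> simp <;> ring

lemma rot_smul (α r : ℝ) (v : ℝ × ℝ) : rot α (r • v) = r • rot α v := by
  unfold rot
  ext <;> simp <;> ring

lemma rot_zero (α : ℝ) : rot α 0 = 0 := by
  unfold rot
  ext <;> simp

lemma rot_fld (α : ℝ) (c : S → ℝ × ℝ) (p : ℝ × ℝ) : rot α (fld c p) = fld (rotc α c) p := by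
  have h : ∀ (s : Finset S), rot α (∑ m ∈ s, (p.1 ^ m.1.1 * p.2 ^ m.1.2) • c m) =
      ∑ m ∈ s, (p.1 ^ m.1.1 * p.2 ^ m.1.2) • rot α (c m) := by
    classical
    intro s
    induction s using Finset.induction_on with
    | empty => simp [rot_zero]
    | insert a s ha ih => rw [Finset.sum_insert ha, Finset.sum_insert ha, rot_add, rot_smul, ih]
  exact h Finset.univ

lemma contDiff_joint {m : WithTop ℕ∞} :
    ContDiff ℝ m (fun z : (S → ℝ × ℝ) × (ℝ × ℝ) => fld z.1 z.2) := by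
  unfold fld
  refine ContDiff.sum fun k _ => ?_
  have h1 : ContDiff ℝ m (fun z : (S → ℝ × ℝ) × (ℝ × ℝ) => z.2.1 ^ k.1.1 * z.2.2 ^ k.1.2) :=
    ((contDiff_fst.comp contDiff_snd).pow _).mul ((contDiff_snd.comp contDiff_snd).pow _)
  have h2 : ContDiff ℝ m (fun z : (S → ℝ × ℝ) × (ℝ × ℝ) => z.1 k) :=
    (contDiff_apply ℝ (ℝ × ℝ) k).comp contDiff_fst
  exact h1.smul h2

lemma contDiff_fld (c : S → ℝ × ℝ) {m : WithTop ℕ∞} : ContDiff ℝ m (fld c) :=
  contDiff_joint.comp (contDiff_const.prodMk contDiff_id)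

/-- the field is given by a pair of polynomials -/
lemma exists_poly (c : S → ℝ × ℝ) : ∃ P Q : MvPolynomial (Fin 2) ℝ,
    P.totalDegree ≤ S.sup (fun m => m.1 + m.2) ∧ Q.totalDegree ≤ S.sup (fun m => m.1 + m.2) ∧
    field P Q = fld c := by
  set n := S.sup (fun m => m.1 + m.2) with hn
  have hdeg : ∀ f : S → ℝ, (∑ m : S, MvPolynomial.C (f m) * (MvPolynomial.X 0 ^ m.1.1 *
      MvPolynomial.X 1 ^ m.1.2) : MvPolynomial (Fin 2) ℝ).totalDegree ≤ n := by
    intro f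
    refine (MvPolynomial.totalDegree_finsetSum _ _).trans (Finset.sup_le fun m _ => ?_)
    refine (MvPolynomial.totalDegree_mul _ _).trans ?_
    rw [MvPolynomial.totalDegree_C, zero_add]
    refine (MvPolynomial.totalDegree_mul _ _).trans ?_
    rw [MvPolynomial.totalDegree_X_pow, MvPolynomial.totalDegree_X_pow]
    exact Finset.le_sup (f := fun m : ℕ × ℕ => m.1 + m.2) m.2
  refine ⟨_, _, hdeg (fun m => (c m).1), hdeg (fun m => (c m).2), ?_⟩
  ext p
  · unfold field fld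
    simp only [map_sum, map_mul, map_pow, MvPolynomial.eval_C, MvPolynomial.eval_X,
      Matrix.cons_val_zero, Matrix.cons_val_one, Prod.fst_sum, Prod.smul_fst, smul_eq_mul]
    refine Finset.sum_congr rfl fun m _ => ?_
    ring
  · unfold field fld
    simp only [map_sum, map_mul, map_pow, MvPolynomial.eval_C, MvPolynomial.eval_X,
      Matrix.cons_val_zero, Matrix.cons_val_one, Prod.snd_sum, Prod.smul_snd, smul_eq_mul]
    refine Finset.sum_congr rfl fun m _ => ?_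
    ring

/-- uniform bounds on a bounded set of parameters and positions -/
lemma exists_unif (S : Finset (ℕ × ℕ)) (M R : ℝ) : ∃ K : ℝ, 1 ≤ K ∧
    ∀ c : S → ℝ × ℝ, ‖c‖ ≤ M → ∀ p q : ℝ × ℝ, ‖p‖ ≤ R → ‖q‖ ≤ R →
      ‖fderiv ℝ (fld c) p‖ ≤ K ∧ ‖fderiv ℝ (fld c) p - fderiv ℝ (fld c) q‖ ≤ K * ‖p - q‖ ∧
      ‖fld c p - fld c q‖ ≤ K * ‖p - q‖ ∧
      ‖fld c p - fld c q - fderiv ℝ (fld c) q (p - q)‖ ≤ K * ‖p - q‖ ^ 2 := by
  set Ψ : (S → ℝ × ℝ) × (ℝ × ℝ) → ℝ × ℝ := fun z => fld z.1 z.2 with hΨ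
  have hΨs : ContDiff ℝ 2 Ψ := contDiff_joint
  set B : Set ((S → ℝ × ℝ) × (ℝ × ℝ)) := Metric.closedBall 0 M ×ˢ Metric.closedBall 0 R with hB
  have hBc : IsCompact B := (isCompact_closedBall _ _).prod (isCompact_closedBall _ _)
  have hBx : Convex ℝ B := (convex_closedBall _ _).prod (convex_closedBall _ _)
  have hD : ContDiff ℝ 1 (fderiv ℝ Ψ) := hΨs.fderiv_right (by norm_num)
  obtain ⟨K₁, hK₁⟩ := hBc.exists_bound_of_continuousOn hD.continuous.continuousOn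
  obtain ⟨K₂, hK₂⟩ := hD.contDiffOn.exists_lipschitzOnWith (s := B) (by norm_num) hBx hBc
  set K := max (max K₁ K₂) 1 with hK
  have hK1 : K₁ ≤ K := (le_max_left _ _).trans (le_max_left _ _)
  have hK2 : (K₂ : ℝ) ≤ K := (le_max_right _ _).trans (le_max_left _ _)
  have hK3 : 1 ≤ K := le_max_right _ _
  have hK0 : 0 ≤ K := by linarith
  have hinr : ‖ContinuousLinearMap.inr ℝ (S → ℝ × ℝ) (ℝ × ℝ)‖ ≤ 1 :=
    ContinuousLinearMap.norm_inr_le_one ℝ (S → ℝ × ℝ) (ℝ × ℝ)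
  have hder : ∀ (c : S → ℝ × ℝ) (p : ℝ × ℝ), fderiv ℝ (fld c) p =
      (fderiv ℝ Ψ (c, p)).comp (ContinuousLinearMap.inr ℝ (S → ℝ × ℝ) (ℝ × ℝ)) := by
    intro c p
    have h1 : HasFDerivAt (fun p : ℝ × ℝ => ((c, p) : (S → ℝ × ℝ) × (ℝ × ℝ)))
        (ContinuousLinearMap.inr ℝ (S → ℝ × ℝ) (ℝ × ℝ)) p := hasFDerivAt_prodMk_right c p
    exact (((hΨs.differentiable (by norm_num)) (c, p)).hasFDerivAt.comp p h1).fderiv
  refine ⟨K, hK3, fun c hc p q hp hq => ?_⟩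
  have hmem : ∀ x : ℝ × ℝ, ‖x‖ ≤ R → (c, x) ∈ B := fun x hx =>
    ⟨by rw [mem_closedBall_zero_iff]; exact hc, by rw [mem_closedBall_zero_iff]; exact hx⟩
  have h1 : ∀ x : ℝ × ℝ, ‖x‖ ≤ R → ‖fderiv ℝ (fld c) x‖ ≤ K := by
    intro x hx
    rw [hder]
    refine (ContinuousLinearMap.opNorm_comp_le _ _).trans ?_
    calc ‖fderiv ℝ Ψ (c, x)‖ * ‖ContinuousLinearMap.inr ℝ (S → ℝ × ℝ) (ℝ × ℝ)‖
        ≤ K * 1 := mul_le_mul ((hK₁ _ (hmem x hx)).trans hK1) hinr (norm_nonneg _) hK0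
      _ = K := mul_one K
  have h2 : ∀ x y : ℝ × ℝ, ‖x‖ ≤ R → ‖y‖ ≤ R →
      ‖fderiv ℝ (fld c) x - fderiv ℝ (fld c) y‖ ≤ K * ‖x - y‖ := by
    intro x y hx hy
    rw [hder, hder, ← ContinuousLinearMap.sub_comp]
    refine (ContinuousLinearMap.opNorm_comp_le _ _).trans ?_
    have e1 := hK₂.dist_le_mul _ (hmem x hx) _ (hmem y hy)
    rw [dist_eq_norm, dist_eq_norm] at e1
    have e2 : ‖((c, x) : (S → ℝ × ℝ) × (ℝ × ℝ)) - (c, y)‖ = ‖x - y‖ := by
      simp [Prod.norm_def]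
    rw [e2] at e1
    calc ‖fderiv ℝ Ψ (c, x) - fderiv ℝ Ψ (c, y)‖ *
          ‖ContinuousLinearMap.inr ℝ (S → ℝ × ℝ) (ℝ × ℝ)‖
        ≤ (K * ‖x - y‖) * 1 := by
          refine mul_le_mul (e1.trans ?_) hinr (norm_nonneg _) (by positivity)
          gcongr
      _ = _ := mul_one _
  have hseg : ∀ x ∈ segment ℝ q p, ‖x‖ ≤ R := by
    intro x hx
    have e1 := (convex_closedBall (0 : ℝ × ℝ) R).segment_subset
      (mem_closedBall_zero_iff.2 hq) (mem_closedBall_zero_iff.2 hp) hx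
    exact mem_closedBall_zero_iff.1 e1
  have hfd : ∀ x ∈ segment ℝ q p, HasFDerivWithinAt (fld c) (fderiv ℝ (fld c) x)
      (segment ℝ q p) x := fun x _ =>
    (((contDiff_fld c (m := 2)).differentiable (by norm_num)) x).hasFDerivAt.hasFDerivWithinAt
  refine ⟨h1 p hp, h2 p q hp hq, ?_, ?_⟩
  · exact Convex.norm_image_sub_le_of_norm_hasFDerivWithin_le hfd
      (fun x hx => h1 x (hseg x hx)) (convex_segment q p) (left_mem_segment ℝ q p)
      (right_mem_segment ℝ q p)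
  · have := Convex.norm_image_sub_le_of_norm_hasFDerivWithin_le' (φ := fderiv ℝ (fld c) q)
      (C := K * ‖p - q‖) hfd
      (fun x hx => by
        refine (h2 x q (hseg x hx) hq).trans ?_
        gcongr
        have := segment_subset_closedBall_left q p hx
        rw [Metric.mem_closedBall, dist_eq_norm, dist_eq_norm] at this
        rwa [norm_sub_rev p q])
      (convex_segment q p) (left_mem_segment ℝ q p) (right_mem_segment ℝ q p)
    refine this.trans (le_of_eq ?_)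
    ring

end

end Pool.Agent.H709R2
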