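import Pool.Agent.H709R2.Patch

/-! Existence of patches: near a closed orbit of `rot α₀ X`, every point lies on a closed orbit of
`rot α X` for an `α` near `α₀` depending smoothly on the transversal coordinate. -/

open Real Set MeasureTheory Topology Filter

namespace Pool.Agent.H709R2

noncomputable section

/-- a patch of closed orbits around `p₀` -/
structure Patch (X : ℝ × ℝ → ℝ × ℝ) (φ : ℝ → ℝ × ℝ → ℝ → ℝ × ℝ) (p₀ : ℝ × ℝ) where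
  ε : ℝ
  a : ℝ → ℝ
  T : ℝ → ℝ
  σ : ℝ → ℝ × ℝ
  hε : 0 < ε
  hσ : ∀ s ∈ Ioo (-ε) ε, ContDiffAt ℝ 2 σ s
  ha : ∀ s ∈ Ioo (-ε) ε, ContDiffAt ℝ 2 a s
  hTd : ∀ s ∈ Ioo (-ε) ε, ContDiffAt ℝ 2 T s
  hT : ∀ s ∈ Ioo (-ε) ε, 0 < T s
  hper : ∀ s ∈ Ioo (-ε) ε, φ (T s) (σ s) (a s) = σ s
  haπ : ∀ s ∈ Ioo (-ε) ε, a s ∈ Ioo 0 π
  hne : ∀ s ∈ Ioo (-ε) ε, X (σ s) ≠ 0
  hinj : InjOn (QQ φ σ a) {z | z.1 ∈ Ioo (-ε) ε ∧ z.2 ∈ Ico 0 (T z.1)}
  hnhds : QQ φ σ a '' {z | z.1 ∈ Ioo (-ε) ε} ∈ 𝓝 p₀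

variable {X : ℝ × ℝ → ℝ × ℝ} {φ : ℝ → ℝ × ℝ → ℝ → ℝ × ℝ}

lemma continuous_sq : Continuous sq := by unfold sq; fun_prop

lemma continuous_divRot (hX : ContDiff ℝ 2 X) : Continuous fun q : ℝ × (ℝ × ℝ) => divRot X q.1 q.2 := by
  have h1 : Continuous (fderiv ℝ X) := hX.continuous_fderiv (by norm_num)
  have h2 : Continuous fun q : ℝ × (ℝ × ℝ) => fderiv ℝ X q.2 (1, 0) :=
    (h1.comp continuous_snd).clm_apply continuous_const
  have h3 : Continuous fun q : ℝ × (ℝ × ℝ) => fderiv ℝ X q.2 (0, 1) :=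
    (h1.comp continuous_snd).clm_apply continuous_const
  unfold divRot rot
  fun_prop

/-- the key transversality: `∂φ/∂α ∧ ∂φ/∂t < 0` for positive times -/
lemma wedge_param_neg (hφ : RotFlow X φ) (hX : ContDiff ℝ 2 X) {p₀ : ℝ × ℝ} {α₀ T₀ : ℝ}
    (hT : 0 < T₀) (hne : X p₀ ≠ 0) :
    Jac (QQ φ (fun _ => p₀) (fun s => α₀ + s)) (0, T₀) < 0 := by
  set Q := QQ φ (fun _ => p₀) (fun s => α₀ + s) with hQ
  have hσ : ∀ s, ContDiffAt ℝ 2 (fun _ : ℝ => p₀) s := fun s => contDiffAt_const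
  have ha : ∀ s, ContDiffAt ℝ 2 (fun s : ℝ => α₀ + s) s := fun s =>
    (contDiff_const.add contDiff_id).contDiffAt
  have hy : ∀ t, HasDerivAt (fun t => Jac Q (0, t))
      (divRot X (α₀ + 0) (Q (0, t)) * Jac Q (0, t) - 1 * sq (X (Q (0, t)))) t := fun t =>
    hasDerivAt_Jac (contDiffAt_QQ hφ (hσ 0) (ha 0)) (eventually_flow_QQ hφ (hσ 0) (ha 0))
      ((hasDerivAt_id (0:ℝ)).const_add α₀) (hX.differentiable (by norm_num) _)
  have hQc : Continuous fun t : ℝ => Q (0, t) := by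
    simp only [hQ, QQ]
    exact hφ.continuous.comp (by fun_prop : Continuous fun t : ℝ => ((t, p₀, α₀ + 0) : ℝ × (ℝ × ℝ) × ℝ))
  refine neg_of_deriv (y := fun t => Jac Q (0, t)) (c := fun t => divRot X (α₀ + 0) (Q (0, t)))
    (q := fun t => sq (X (Q (0, t)))) ?_ ?_ ?_ ?_ ?_ hT
  · have h1 : Continuous fun t : ℝ => ((α₀ + 0, Q (0, t)) : ℝ × (ℝ × ℝ)) :=
      continuous_const.prodMk hQc
    have h2 := (continuous_divRot hX).comp h1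
    exact h2
  · exact continuous_sq.comp (hX.continuous.comp hQc)
  · intro t
    have := hy t
    rw [one_mul] at this
    exact this
  · -- at time zero the parameter derivative vanishes
    have hd : DifferentiableAt ℝ Q (0, 0) :=
      (contDiffAt_QQ hφ (hσ 0) (ha 0)).differentiableAt (by norm_num)
    have ls : HasDerivAt (fun s' : ℝ => ((s', (0:ℝ)) : ℝ × ℝ)) (1, 0) 0 :=
      (hasDerivAt_id (0:ℝ)).prodMk (hasDerivAt_const (0:ℝ) (0:ℝ))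
    have h1 : HasDerivAt (fun s' : ℝ => Q (s', 0)) (fderiv ℝ Q (0, 0) (1, 0)) 0 :=
      HasFDerivAt.comp_hasDerivAt (0:ℝ) (f := fun s' : ℝ => ((s', (0:ℝ)) : ℝ × ℝ))
      (l := Q) hd.hasFDerivAt ls
    have h2 : (fun s' : ℝ => Q (s', 0)) = fun _ => p₀ := by
      ext1 s'
      simp only [hQ, QQ]
      exact hφ.zero _ _
    rw [h2] at h1
    have h3 := h1.unique (hasDerivAt_const 0 p₀)
    simp only [Jac, h3]
    unfold wedge
    simp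
  · intro t
    exact sq_pos (hφ.ne_zero hne t)

/-- implicit function step -/
lemma exists_implicit (hφ : RotFlow X φ) (hX : ContDiff ℝ 2 X) {p₀ n : ℝ × ℝ} {α₀ T₀ : ℝ}
    (hT : 0 < T₀) (hper : φ T₀ p₀ α₀ = p₀) (hne : X p₀ ≠ 0) :
    ∃ a T : ℝ → ℝ, a 0 = α₀ ∧ T 0 = T₀ ∧ ContDiffAt ℝ 2 a 0 ∧ ContDiffAt ℝ 2 T 0 ∧
      ∀ᶠ s in 𝓝 (0:ℝ), φ (T s) (p₀ + s • n) (a s) = p₀ + s • n := by
  set H : ℝ × (ℝ × ℝ) → ℝ × ℝ := fun q => φ q.2.2 (p₀ + q.1 • n) q.2.1 - (p₀ + q.1 • n) with hH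
  have hHc : ContDiff ℝ 2 H := by
    simp only [hH]
    have h1 : ContDiff ℝ 2 (fun q : ℝ × (ℝ × ℝ) => ((q.2.2, p₀ + q.1 • n, q.2.1) :
        ℝ × (ℝ × ℝ) × ℝ)) := by fun_prop
    exact (hφ.smooth.comp h1).sub (by fun_prop)
  have cdf : ContDiffAt ℝ 2 H (0, (α₀, T₀)) := hHc.contDiffAt
  -- invertibility
  have hinv : (fderiv ℝ H (0, (α₀, T₀)) ∘L .inr ℝ ℝ (ℝ × ℝ)).IsInvertible := by
    apply isInvertible_of_wedge
    have hd : HasFDerivAt H (fderiv ℝ H (0, (α₀, T₀))) (0, (α₀, T₀)) :=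
      (cdf.differentiableAt (by norm_num)).hasFDerivAt
    -- derivative in α
    set Q := QQ φ (fun _ => p₀) (fun s => α₀ + s) with hQ
    have hQd : DifferentiableAt ℝ Q (0, T₀) :=
      (contDiffAt_QQ hφ contDiffAt_const
        (contDiff_const.add contDiff_id).contDiffAt).differentiableAt (by norm_num)
    have e1 : (fderiv ℝ H (0, (α₀, T₀)) ∘L .inr ℝ ℝ (ℝ × ℝ)) (1, 0) =
        fderiv ℝ Q (0, T₀) (1, 0) := by
      have l1 : HasDerivAt (fun s : ℝ => ((0, (α₀ + s, T₀)) : ℝ × (ℝ × ℝ))) (0, (1, 0)) 0 :=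
        (hasDerivAt_const (0:ℝ) (0:ℝ)).prodMk
          (((hasDerivAt_id (0:ℝ)).const_add α₀).prodMk (hasDerivAt_const (0:ℝ) T₀))
      have hd' : HasFDerivAt H (fderiv ℝ H (0, (α₀, T₀))) ((0, (α₀ + 0, T₀)) : ℝ × (ℝ × ℝ)) := by
        simpa using hd
      have h1 := HasFDerivAt.comp_hasDerivAt (0:ℝ)
        (f := fun s : ℝ => ((0, (α₀ + s, T₀)) : ℝ × (ℝ × ℝ))) (l := H) hd' l1
      have l2 : HasDerivAt (fun s : ℝ => ((s, T₀) : ℝ × ℝ)) (1, 0) 0 :=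
        (hasDerivAt_id (0:ℝ)).prodMk (hasDerivAt_const (0:ℝ) T₀)
      have h2 := (HasFDerivAt.comp_hasDerivAt (0:ℝ) (f := fun s : ℝ => ((s, T₀) : ℝ × ℝ))
        (l := Q) hQd.hasFDerivAt l2).sub_const p₀
      have h3 : (H ∘ fun s : ℝ => ((0, (α₀ + s, T₀)) : ℝ × (ℝ × ℝ))) =
          fun s => (Q ∘ fun s : ℝ => ((s, T₀) : ℝ × ℝ)) s - p₀ := by
        ext1 s
        simp [hH, hQ, QQ]
      rw [h3] at h1
      exact h1.unique h2
    have e2 : (fderiv ℝ H (0, (α₀, T₀)) ∘L .inr ℝ ℝ (ℝ × ℝ)) (0, 1) =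
        fderiv ℝ Q (0, T₀) (0, 1) := by
      have l1 : HasDerivAt (fun t : ℝ => ((0, (α₀, t)) : ℝ × (ℝ × ℝ))) (0, (0, 1)) T₀ :=
        (hasDerivAt_const T₀ (0:ℝ)).prodMk
          ((hasDerivAt_const T₀ α₀).prodMk (hasDerivAt_id T₀))
      have h1 := HasFDerivAt.comp_hasDerivAt T₀
        (f := fun t : ℝ => ((0, (α₀, t)) : ℝ × (ℝ × ℝ))) (l := H) hd l1
      have l2 : HasDerivAt (fun t : ℝ => ((0, t) : ℝ × ℝ)) (0, 1) T₀ :=
        (hasDerivAt_const T₀ (0:ℝ)).prodMk (hasDerivAt_id T₀)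
      have h2 := (HasFDerivAt.comp_hasDerivAt T₀ (f := fun t : ℝ => ((0, t) : ℝ × ℝ))
        (l := Q) hQd.hasFDerivAt l2).sub_const p₀
      have h3 : (H ∘ fun t : ℝ => ((0, (α₀, t)) : ℝ × (ℝ × ℝ))) =
          fun t => (Q ∘ fun t : ℝ => ((0, t) : ℝ × ℝ)) t - p₀ := by
        ext1 s
        simp [hH, hQ, QQ]
      rw [h3] at h1
      exact h1.unique h2
    rw [e1, e2]
    exact (wedge_param_neg hφ hX hT hne).ne
  have h2ne : (2 : WithTop ℕ∞) ≠ 0 := by norm_num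
  set ψ := cdf.implicitFunction h2ne hinv with hψ
  have hψc : ContDiffAt ℝ 2 ψ 0 := cdf.contDiffAt_implicitFunction h2ne hinv
  have hψ0 : ψ 0 = (α₀, T₀) := cdf.implicitFunction_apply_self h2ne hinv
  have hψe := cdf.eventually_apply_implicitFunction h2ne hinv
  refine ⟨fun s => (ψ s).1, fun s => (ψ s).2, by simp [hψ0], by simp [hψ0], hψc.fst, hψc.snd, ?_⟩
  have h0 : H (0, (α₀, T₀)) = 0 := by simp [hH, hper]
  filter_upwards [hψe] with s hs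
  have hs' : H (s, ψ s) = 0 := by rw [← h0]; exact hs
  simp only [hH] at hs'
  exact sub_eq_zero.1 hs'

end

end Pool.Agent.H709R2
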