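import Pool.Agent.H709R2.Patch2

/-! Existence of patches, injectivity part. -/

open Real Set MeasureTheory Topology Filter

namespace Pool.Agent.H709R2

noncomputable section

variable {X : ℝ × ℝ → ℝ × ℝ} {φ : ℝ → ℝ × ℝ → ℝ → ℝ × ℝ}

/-- the transversal through `p₀` -/
def tr (X : ℝ × ℝ → ℝ × ℝ) (p₀ : ℝ × ℝ) (α₀ : ℝ) (s : ℝ) : ℝ × ℝ :=
  p₀ + s • ((-(rot α₀ (X p₀)).2, (rot α₀ (X p₀)).1) : ℝ × ℝ)

lemma contDiff_tr (p₀ : ℝ × ℝ) (α₀ : ℝ) : ContDiff ℝ 2 (tr X p₀ α₀) := by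
  unfold tr; fun_prop

lemma tr_zero (p₀ : ℝ × ℝ) (α₀ : ℝ) : tr X p₀ α₀ 0 = p₀ := by unfold tr; simp

/-- two closed orbits of the family through a common point have the same angle in `(0,π)` -/
lemma same_angle (hφ : RotFlow X φ) (hX : Continuous X) {p q : ℝ × ℝ} {α β T S t u : ℝ}
    (hα : α ∈ Ioo 0 π) (hβ : β ∈ Ioo 0 π) (hT : 0 < T) (hS : 0 < S)
    (hp : φ T p α = p) (hq : φ S q β = q) (hne : X p ≠ 0) (hm : φ t p α = φ u q β) : α = β := by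
  by_contra hab
  have hs : Real.sin (β - α) ≠ 0 := by
    intro h
    rw [Real.sin_eq_zero_iff_of_lt_of_lt (by linarith [hα.2, hβ.1]) (by linarith [hα.1, hβ.2])] at h
    exact hab (by linarith)
  refine no_meeting (γ := fun r => φ (t + r) p α) (η := fun r => φ (u + r) q β) hX hs hT hS
    ?_ ?_ ?_ ?_ ?_ ?_
  · intro r
    have := (hφ.deriv p α (t + r)).scomp r ((hasDerivAt_id r).const_add t)
    simp only [one_smul] at this
    exact this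
  · intro r
    have := (hφ.deriv q β (u + r)).scomp r ((hasDerivAt_id r).const_add u)
    simp only [one_smul] at this
    exact this
  · simp only [add_zero]
    exact hφ.periodic hp t
  · simp only [add_zero]
    exact hφ.periodic hq u
  · intro r
    exact hφ.ne_zero hne _
  · simpa using hm

/-- local injectivity and openness of the parametrisation at the base point -/
lemma local_QQ (hφ : RotFlow X φ) {p₀ : ℝ × ℝ} {α₀ : ℝ} {a : ℝ → ℝ}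
    (hne : X p₀ ≠ 0) (ha0 : a 0 = α₀) (ha : ContDiffAt ℝ 2 a 0) :
    (∃ N ∈ 𝓝 ((0:ℝ), (0:ℝ)), InjOn (QQ φ (tr X p₀ α₀) a) N) ∧
      map (QQ φ (tr X p₀ α₀) a) (𝓝 ((0:ℝ), (0:ℝ))) = 𝓝 p₀ := by
  set Q := QQ φ (tr X p₀ α₀) a with hQ
  have hc : ContDiffAt ℝ 2 Q (0, 0) := contDiffAt_QQ hφ (contDiff_tr p₀ α₀).contDiffAt ha
  have hd : DifferentiableAt ℝ Q (0, 0) := hc.differentiableAt (by norm_num)
  have hQ0 : Q (0, 0) = p₀ := by
    simp only [hQ, QQ]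
    rw [hφ.zero, tr_zero]
  have e2 : fderiv ℝ Q (0, 0) (0, 1) = rot α₀ (X p₀) := by
    rw [hQ, fderiv_QQ_snd hφ hd, ← hQ, hQ0, ha0]
  have e1 : fderiv ℝ Q (0, 0) (1, 0) = (-(rot α₀ (X p₀)).2, (rot α₀ (X p₀)).1) := by
    have ls : HasDerivAt (fun s' : ℝ => ((s', (0:ℝ)) : ℝ × ℝ)) (1, 0) 0 :=
      (hasDerivAt_id (0:ℝ)).prodMk (hasDerivAt_const (0:ℝ) (0:ℝ))
    have h1 : HasDerivAt (fun s' : ℝ => Q (s', 0)) (fderiv ℝ Q (0, 0) (1, 0)) 0 :=
      HasFDerivAt.comp_hasDerivAt (0:ℝ) (f := fun s' : ℝ => ((s', (0:ℝ)) : ℝ × ℝ))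
      (l := Q) hd.hasFDerivAt ls
    have h2 : (fun s' : ℝ => Q (s', 0)) = tr X p₀ α₀ := by
      ext1 s'
      simp only [hQ, QQ]
      exact hφ.zero _ _
    rw [h2] at h1
    have h3 : HasDerivAt (tr X p₀ α₀) ((-(rot α₀ (X p₀)).2, (rot α₀ (X p₀)).1) : ℝ × ℝ) 0 := by
      unfold tr
      have := ((hasDerivAt_id (0:ℝ)).smul_const
        ((-(rot α₀ (X p₀)).2, (rot α₀ (X p₀)).1) : ℝ × ℝ)).const_add p₀
      simpa using this
    exact h1.unique h3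
  have hinv : (fderiv ℝ Q (0, 0)).IsInvertible := by
    apply isInvertible_of_wedge
    rw [e1, e2]
    have h1 := sq_pos hne
    rw [← sq_rot α₀] at h1
    unfold wedge
    unfold sq at h1
    simp only
    nlinarith
  obtain ⟨M, hM⟩ := hinv
  have hstrict : HasStrictFDerivAt Q (M : (ℝ × ℝ) →L[ℝ] (ℝ × ℝ)) (0, 0) := by
    rw [hM]
    exact hc.hasStrictFDerivAt (by norm_num)
  constructor
  · refine ⟨(hstrict.toOpenPartialHomeomorph Q).source,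
      (hstrict.toOpenPartialHomeomorph Q).open_source.mem_nhds
        hstrict.mem_toOpenPartialHomeomorph_source, ?_⟩
    exact (hstrict.toOpenPartialHomeomorph Q).injOn
  · rw [hstrict.map_nhds_eq_of_equiv, hQ0]

/-- the no-return property -/
lemma no_return (hφ : RotFlow X φ) {p₀ : ℝ × ℝ} {α₀ T₀ : ℝ} {a T : ℝ → ℝ}
    (hne : X p₀ ≠ 0) (hmin : ∀ t ∈ Ioo 0 T₀, φ t p₀ α₀ ≠ p₀)
    (hT0 : T 0 = T₀) (ha0 : a 0 = α₀) (ha : ContDiffAt ℝ 2 a 0) (hT : ContDiffAt ℝ 2 T 0)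
    (hpos : 0 < T₀)
    (hper : ∀ᶠ s in 𝓝 (0:ℝ), φ (T s) (tr X p₀ α₀ s) (a s) = tr X p₀ α₀ s) :
    ∃ ε > 0, ∀ s ∈ Ioo (-ε) ε, ∀ s' ∈ Ioo (-ε) ε, ∀ t ∈ Ico 0 (T s),
      QQ φ (tr X p₀ α₀) a (s, t) = tr X p₀ α₀ s' → t = 0 ∧ s = s' := by
  set Q := QQ φ (tr X p₀ α₀) a with hQ
  obtain ⟨⟨N, hN, hinj⟩, -⟩ := local_QQ hφ hne ha0 ha
  rw [← hQ] at hinj
  by_contra hcon
  push Not at hcon
  have hcon' : ∀ k : ℕ, ∃ s s' t : ℝ, s ∈ Ioo (-(1 / ((k:ℝ) + 1))) (1 / ((k:ℝ) + 1)) ∧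
      s' ∈ Ioo (-(1 / ((k:ℝ) + 1))) (1 / ((k:ℝ) + 1)) ∧ t ∈ Ico 0 (T s) ∧
      Q (s, t) = tr X p₀ α₀ s' ∧ (t = 0 → s ≠ s') := by
    intro k
    obtain ⟨s, hs, s', hs', t, ht, h1, h2⟩ := hcon (1 / ((k:ℝ) + 1)) (by positivity)
    exact ⟨s, s', t, hs, hs', ht, h1, h2⟩
  choose s s' t hs hs' ht hQe hne' using hcon'
  have hz : Tendsto (fun k : ℕ => 1 / ((k:ℝ) + 1)) atTop (𝓝 0) := tendsto_one_div_add_atTop_nhds_zero_nat
  have hz' : Tendsto (fun k : ℕ => -(1 / ((k:ℝ) + 1))) atTop (𝓝 0) := by simpa using hz.neg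
  have hs0 : Tendsto s atTop (𝓝 0) := tendsto_of_tendsto_of_tendsto_of_le_of_le hz' hz
    (fun k => (hs k).1.le) (fun k => (hs k).2.le)
  have hs'0 : Tendsto s' atTop (𝓝 0) := tendsto_of_tendsto_of_tendsto_of_le_of_le hz' hz
    (fun k => (hs' k).1.le) (fun k => (hs' k).2.le)
  have hTs : Tendsto (fun k => T (s k)) atTop (𝓝 T₀) := by
    have := hT.continuousAt.tendsto
    rw [hT0] at this
    exact this.comp hs0
  have has : Tendsto (fun k => a (s k)) atTop (𝓝 α₀) := by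
    have := ha.continuousAt.tendsto
    rw [ha0] at this
    exact this.comp hs0
  have hinjσ : ∀ u v : ℝ, tr X p₀ α₀ u = tr X p₀ α₀ v → u = v := by
    intro u v huv
    unfold tr at huv
    have h1 := add_left_cancel huv
    have h2 : ((-(rot α₀ (X p₀)).2, (rot α₀ (X p₀)).1) : ℝ × ℝ) ≠ 0 := by
      intro h3
      have h4 := congrArg Prod.fst h3
      have h5 := congrArg Prod.snd h3
      simp only [Prod.fst_zero, Prod.snd_zero, neg_eq_zero] at h4 h5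
      have h6 := sq_pos hne
      rw [← sq_rot α₀] at h6
      unfold sq at h6
      rw [h4, h5] at h6
      simp at h6
    exact smul_left_injective ℝ h2 h1
  -- t k is positive
  have htpos : ∀ k, 0 < t k := by
    intro k
    rcases (ht k).1.lt_or_eq with h | h
    · exact h
    · exfalso
      refine hne' k h.symm (hinjσ _ _ ?_)
      rw [← hQe k, ← h]
      simp only [hQ, QQ]
      rw [hφ.zero]
  -- bounded, extract a subsequence
  have hbdd : ∀ᶠ k in atTop, t k ∈ Icc 0 (T₀ + 1) := by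
    have h1 : ∀ᶠ k in atTop, T (s k) < T₀ + 1 := hTs.eventually (gt_mem_nhds (by linarith))
    filter_upwards [h1] with k hk
    exact ⟨(htpos k).le, ((ht k).2.trans hk).le⟩
  obtain ⟨tl, htl, ψ, hψ, htψ⟩ := isCompact_Icc.tendsto_subseq' hbdd.frequently
  have hψt : Tendsto ψ atTop atTop := hψ.tendsto_atTop
  have hcσ : Continuous (tr X p₀ α₀) := (contDiff_tr p₀ α₀).continuous
  have hσs : Tendsto (fun k => tr X p₀ α₀ (s (ψ k))) atTop (𝓝 p₀) := by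
    have := (hcσ.tendsto 0)
    rw [tr_zero] at this
    exact this.comp (hs0.comp hψt)
  have hσs' : Tendsto (fun k => tr X p₀ α₀ (s' (ψ k))) atTop (𝓝 p₀) := by
    have := (hcσ.tendsto 0)
    rw [tr_zero] at this
    exact this.comp (hs'0.comp hψt)
  have hlim : Tendsto (fun k => Q (s (ψ k), t (ψ k))) atTop (𝓝 (φ tl p₀ α₀)) := by
    have h1 : Tendsto (fun k => ((t (ψ k), tr X p₀ α₀ (s (ψ k)), a (s (ψ k))) :
        ℝ × (ℝ × ℝ) × ℝ)) atTop (𝓝 (tl, p₀, α₀)) :=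
      Tendsto.prodMk_nhds htψ (Tendsto.prodMk_nhds hσs (has.comp hψt))
    exact (hφ.continuous.tendsto (tl, p₀, α₀)).comp h1
  have hlim2 : φ tl p₀ α₀ = p₀ := by
    refine tendsto_nhds_unique hlim ?_
    refine hσs'.congr fun k => ?_
    exact (hQe (ψ k)).symm
  have htl2 : tl ≤ T₀ := le_of_tendsto_of_tendsto' htψ (hTs.comp hψt)
    (fun k => (ht (ψ k)).2.le)
  have hcase : tl = 0 ∨ tl = T₀ := by
    by_contra h
    push Not at h
    exact hmin tl ⟨lt_of_le_of_ne htl.1 (Ne.symm h.1), lt_of_le_of_ne htl2 h.2⟩ hlim2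
  have hN' : ∀ᶠ k in atTop, ((s' (ψ k), 0) : ℝ × ℝ) ∈ N := by
    have : Tendsto (fun k => ((s' (ψ k), (0:ℝ)) : ℝ × ℝ)) atTop (𝓝 (0, 0)) :=
      Tendsto.prodMk_nhds (hs'0.comp hψt) tendsto_const_nhds
    exact this.eventually hN
  have hQs' : ∀ k, Q (s' k, 0) = tr X p₀ α₀ (s' k) := by
    intro k
    simp only [hQ, QQ]
    rw [hφ.zero]
  rcases hcase with h0 | h0
  · have h1 : ∀ᶠ k in atTop, ((s (ψ k), t (ψ k)) : ℝ × ℝ) ∈ N := by
      have : Tendsto (fun k => ((s (ψ k), t (ψ k)) : ℝ × ℝ)) atTop (𝓝 (0, 0)) := by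
        rw [h0] at htψ
        exact Tendsto.prodMk_nhds (hs0.comp hψt) htψ
      exact this.eventually hN
    obtain ⟨k, hk1, hk2⟩ := (h1.and hN').exists
    have h2 := hinj hk1 hk2 (by rw [hQe, hQs'])
    have h3 := congrArg Prod.snd h2
    simp only at h3
    exact (htpos (ψ k)).ne' h3
  · have h1 : ∀ᶠ k in atTop, ((s (ψ k), t (ψ k) - T (s (ψ k))) : ℝ × ℝ) ∈ N := by
      have : Tendsto (fun k => ((s (ψ k), t (ψ k) - T (s (ψ k))) : ℝ × ℝ)) atTop (𝓝 (0, 0)) := by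
        refine Tendsto.prodMk_nhds (hs0.comp hψt) ?_
        have := htψ.sub (hTs.comp hψt)
        rw [h0, sub_self] at this
        exact this
      exact this.eventually hN
    have h1' : ∀ᶠ k in atTop, φ (T (s (ψ k))) (tr X p₀ α₀ (s (ψ k))) (a (s (ψ k))) =
        tr X p₀ α₀ (s (ψ k)) := (hs0.comp hψt).eventually hper
    obtain ⟨k, ⟨hk1, hk3⟩, hk2⟩ := ((h1.and h1').and hN').exists
    have h2 := hinj hk1 hk2 (by
      rw [hQs', ← hQe]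
      simp only [hQ, QQ]
      have h4 := hφ.periodic hk3 (t (ψ k) - T (s (ψ k)))
      rw [← h4, sub_add_cancel])
    have h3 := congrArg Prod.snd h2
    simp only at h3
    have := (ht (ψ k)).2
    linarith

theorem exists_patch (hφ : RotFlow X φ) (hX : ContDiff ℝ 2 X) {p₀ : ℝ × ℝ} {α₀ T₀ : ℝ}
    (hT : 0 < T₀) (hper : φ T₀ p₀ α₀ = p₀) (hmin : ∀ t ∈ Ioo 0 T₀, φ t p₀ α₀ ≠ p₀)
    (hne : X p₀ ≠ 0) (hα : α₀ ∈ Ioo 0 π) : Nonempty (Patch X φ p₀) := by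
  obtain ⟨a, T, ha0, hT0, ha, hTc, hev⟩ := exists_implicit hφ hX
    (n := (-(rot α₀ (X p₀)).2, (rot α₀ (X p₀)).1)) hT hper hne
  have hev' : ∀ᶠ s in 𝓝 (0:ℝ), φ (T s) (tr X p₀ α₀ s) (a s) = tr X p₀ α₀ s := hev
  obtain ⟨ε₁, hε₁, hnr⟩ := no_return hφ hne hmin hT0 ha0 ha hTc hT hev'
  -- collect the open conditions
  have c1 : ∀ᶠ s in 𝓝 (0:ℝ), ContDiffAt ℝ 2 a s := ha.eventually (by norm_num)
  have c2 : ∀ᶠ s in 𝓝 (0:ℝ), ContDiffAt ℝ 2 T s := hTc.eventually (by norm_num)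
  have c3 : ∀ᶠ s in 𝓝 (0:ℝ), 0 < T s := by
    have := hTc.continuousAt.tendsto
    rw [hT0] at this
    exact this.eventually (lt_mem_nhds hT)
  have c4 : ∀ᶠ s in 𝓝 (0:ℝ), a s ∈ Ioo 0 π := by
    have := ha.continuousAt.tendsto
    rw [ha0] at this
    exact this.eventually (Ioo_mem_nhds hα.1 hα.2)
  have c5 : ∀ᶠ s in 𝓝 (0:ℝ), X (tr X p₀ α₀ s) ≠ 0 := by
    have h1 : Continuous fun s => X (tr X p₀ α₀ s) :=
      hX.continuous.comp (contDiff_tr p₀ α₀).continuous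
    have h2 := h1.tendsto 0
    simp only [tr_zero] at h2
    exact h2.eventually (isOpen_ne.mem_nhds hne)
  obtain ⟨ε₂, hε₂, hball⟩ := Metric.eventually_nhds_iff_ball.1
    (c1.and (c2.and (c3.and (c4.and (c5.and hev')))))
  set ε := min ε₁ ε₂ with hε
  have hεpos : 0 < ε := lt_min hε₁ hε₂
  have hsub2 : ∀ s ∈ Ioo (-ε) ε, s ∈ Metric.ball (0:ℝ) ε₂ := by
    intro s hs
    rw [Metric.mem_ball, Real.dist_eq, sub_zero, abs_lt]
    exact ⟨by linarith [hs.1, min_le_right ε₁ ε₂], by linarith [hs.2, min_le_right ε₁ ε₂]⟩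
  have hsub1 : ∀ s ∈ Ioo (-ε) ε, s ∈ Ioo (-ε₁) ε₁ := by
    intro s hs
    exact ⟨by linarith [hs.1, min_le_left ε₁ ε₂], by linarith [hs.2, min_le_left ε₁ ε₂]⟩
  refine ⟨⟨ε, a, T, tr X p₀ α₀, hεpos, fun s _ => (contDiff_tr p₀ α₀).contDiffAt,
    fun s hs => (hball s (hsub2 s hs)).1, fun s hs => (hball s (hsub2 s hs)).2.1,
    fun s hs => (hball s (hsub2 s hs)).2.2.1, fun s hs => (hball s (hsub2 s hs)).2.2.2.2.2,
    fun s hs => (hball s (hsub2 s hs)).2.2.2.1, fun s hs => (hball s (hsub2 s hs)).2.2.2.2.1,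
    ?_, ?_⟩⟩
  · -- injectivity
    have hP : ∀ s ∈ Ioo (-ε) ε, φ (T s) (tr X p₀ α₀ s) (a s) = tr X p₀ α₀ s :=
      fun s hs => (hball s (hsub2 s hs)).2.2.2.2.2
    have main : ∀ s ∈ Ioo (-ε) ε, ∀ s' ∈ Ioo (-ε) ε, ∀ t ∈ Ico 0 (T s), ∀ t' ∈ Ico 0 (T s'),
        t' ≤ t → QQ φ (tr X p₀ α₀) a (s, t) = QQ φ (tr X p₀ α₀) a (s', t') →
        ((s, t) : ℝ × ℝ) = (s', t') := by
      intro s hs s' hs' t ht t' ht' htt hQe
      simp only [QQ] at hQe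
      have haa : a s = a s' := same_angle hφ hX.continuous
        (hball s (hsub2 s hs)).2.2.2.1 (hball s' (hsub2 s' hs')).2.2.2.1
        (hball s (hsub2 s hs)).2.2.1 (hball s' (hsub2 s' hs')).2.2.1 (hP s hs) (hP s' hs')
        (hball s (hsub2 s hs)).2.2.2.2.1 hQe
      have h1 : QQ φ (tr X p₀ α₀) a (s, t - t') = tr X p₀ α₀ s' := by
        simp only [QQ]
        have h2 : φ (t - t') (tr X p₀ α₀ s) (a s) = φ (-t') (φ t (tr X p₀ α₀ s) (a s)) (a s) := by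
          rw [← hφ.add]; congr 1; ring
        rw [h2, hQe, haa, ← hφ.add, neg_add_cancel, hφ.zero]
      obtain ⟨h3, h4⟩ := hnr s (hsub1 s hs) s' (hsub1 s' hs') (t - t')
        ⟨by linarith, by linarith [ht.2, ht'.1]⟩ h1
      rw [h4, sub_eq_zero.1 h3]
    rintro ⟨s, t⟩ ⟨hs, ht⟩ ⟨s', t'⟩ ⟨hs', ht'⟩ hQe
    simp only at hs ht hs' ht'
    rcases le_total t' t with h | h
    · exact main s hs s' hs' t ht t' ht' h hQe
    · exact (main s' hs' s hs t' ht' t ht h hQe.symm).symm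
  · -- neighbourhood
    obtain ⟨-, hmap⟩ := local_QQ hφ hne ha0 ha
    rw [← hmap]
    apply image_mem_map
    have : {z : ℝ × ℝ | z.1 ∈ Ioo (-ε) ε} = Ioo (-ε) ε ×ˢ univ := by ext; simp
    rw [this]
    exact prod_mem_nhds (Ioo_mem_nhds (by linarith) hεpos) univ_mem

end

end Pool.Agent.H709R2
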