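import Pool.Agent.H709R2.Patch3
import Pool.Agent.H709R2.Indicatrix

/-! The measure inequality on one patch. -/

open Real Set MeasureTheory Topology Filter
open scoped ENNReal

namespace Pool.Agent.H709R2

noncomputable section

variable {X : ℝ × ℝ → ℝ × ℝ} {φ : ℝ → ℝ × ℝ → ℝ → ℝ × ℝ} {p₀ : ℝ × ℝ}

namespace Patch

/-- the swept orbits -/
def Q (P : Patch X φ p₀) : ℝ × ℝ → ℝ × ℝ := QQ φ P.σ P.a

/-- the integral defining the weighted length -/
def len (P : Patch X φ p₀) (w : ℝ × ℝ → ℝ) (s : ℝ) : ℝ :=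
  ∫ t in (0:ℝ)..P.T s, w (P.Q (s, t)) * sq (X (P.Q (s, t)))

lemma contDiffAt_Q (hφ : RotFlow X φ) (P : Patch X φ p₀) {s : ℝ} (hs : s ∈ Ioo (-P.ε) P.ε)
    (t : ℝ) : ContDiffAt ℝ 2 P.Q (s, t) :=
  contDiffAt_QQ hφ (P.hσ s hs) (P.ha s hs)

lemma continuous_Q_snd (hφ : RotFlow X φ) (P : Patch X φ p₀) (s : ℝ) :
    Continuous fun t : ℝ => P.Q (s, t) :=
  hφ.continuous.comp (by fun_prop : Continuous fun t : ℝ => ((t, P.σ s, P.a s) : ℝ × (ℝ × ℝ) × ℝ))

lemma ne_zero (hφ : RotFlow X φ) (P : Patch X φ p₀) {s : ℝ} (hs : s ∈ Ioo (-P.ε) P.ε)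
    (t : ℝ) : X (P.Q (s, t)) ≠ 0 := hφ.ne_zero (P.hne s hs) t

lemma Q_period (hφ : RotFlow X φ) (P : Patch X φ p₀) {s : ℝ} (hs : s ∈ Ioo (-P.ε) P.ε)
    (t : ℝ) : P.Q (s, t + P.T s) = P.Q (s, t) := hφ.periodic (P.hper s hs) t

lemma Q_zero (hφ : RotFlow X φ) (P : Patch X φ p₀) (s : ℝ) : P.Q (s, 0) = P.σ s := hφ.zero _ _

lemma Jac_period (hφ : RotFlow X φ) (P : Patch X φ p₀) {s : ℝ} (hs : s ∈ Ioo (-P.ε) P.ε) :
    Jac P.Q (s, P.T s) = Jac P.Q (s, 0) := by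
  have hd0 : DifferentiableAt ℝ P.Q (s, 0) :=
    (P.contDiffAt_Q hφ hs 0).differentiableAt (by norm_num)
  have hdT : DifferentiableAt ℝ P.Q (s, P.T s) :=
    (P.contDiffAt_Q hφ hs (P.T s)).differentiableAt (by norm_num)
  have hT : HasDerivAt P.T (deriv P.T s) s :=
    ((P.hTd s hs).differentiableAt (by norm_num)).hasDerivAt
  have l0 : HasDerivAt (fun s' : ℝ => ((s', (0:ℝ)) : ℝ × ℝ)) (1, 0) s :=
    (hasDerivAt_id s).prodMk (hasDerivAt_const s (0:ℝ))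
  have lT : HasDerivAt (fun s' : ℝ => ((s', P.T s') : ℝ × ℝ)) (1, deriv P.T s) s :=
    (hasDerivAt_id s).prodMk hT
  have h0 := HasFDerivAt.comp_hasDerivAt s (f := fun s' : ℝ => ((s', (0:ℝ)) : ℝ × ℝ))
      (l := P.Q) hd0.hasFDerivAt l0
  have h1 := HasFDerivAt.comp_hasDerivAt s (f := fun s' : ℝ => ((s', P.T s') : ℝ × ℝ))
      (l := P.Q) hdT.hasFDerivAt lT
  have heq : (P.Q ∘ fun s' : ℝ => ((s', P.T s') : ℝ × ℝ)) =ᶠ[𝓝 s]
      (P.Q ∘ fun s' : ℝ => ((s', (0:ℝ)) : ℝ × ℝ)) := by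
    filter_upwards [Ioo_mem_nhds hs.1 hs.2] with s' hs'
    simp only [Function.comp_apply]
    have := P.Q_period hφ hs' 0
    rwa [zero_add] at this
  have h2 := (h0.congr_of_eventuallyEq heq).unique h1
  have v0 : fderiv ℝ P.Q (s, 0) (0, 1) = rot (P.a s) (X (P.Q (s, 0))) :=
    fderiv_QQ_snd (y := (s, 0)) hφ hd0
  have vT : fderiv ℝ P.Q (s, P.T s) (0, 1) = rot (P.a s) (X (P.Q (s, P.T s))) :=
    fderiv_QQ_snd (y := (s, P.T s)) hφ hdT
  have e3 : P.Q (s, P.T s) = P.Q (s, 0) := by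
    have := P.Q_period hφ hs 0
    rwa [zero_add] at this
  have e4 : fderiv ℝ P.Q (s, P.T s) (1, deriv P.T s) =
      fderiv ℝ P.Q (s, P.T s) (1, 0) + deriv P.T s • fderiv ℝ P.Q (s, P.T s) (0, 1) := by
    rw [clm_decomp (fderiv ℝ P.Q (s, P.T s)) (1, deriv P.T s)]
    simp
  rw [e4] at h2
  unfold Jac
  rw [v0, h2, vT, e3]
  unfold wedge
  simp only [Prod.fst_add, Prod.snd_add, Prod.smul_fst, Prod.smul_snd, smul_eq_mul]
  ring

lemma continuous_Jac_snd (hφ : RotFlow X φ) (P : Patch X φ p₀) {s : ℝ}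
    (hs : s ∈ Ioo (-P.ε) P.ε) : Continuous fun t : ℝ => Jac P.Q (s, t) := by
  rw [continuous_iff_continuousAt]
  intro t
  have h1 : ContinuousAt (fderiv ℝ P.Q) (s, t) :=
    ((P.contDiffAt_Q hφ hs t).fderiv_right (m := 1) (by norm_num)).continuousAt
  have h2 : ContinuousAt (fun t : ℝ => fderiv ℝ P.Q (s, t)) t :=
    ContinuousAt.comp (f := fun t : ℝ => ((s, t) : ℝ × ℝ)) h1 (by fun_prop)
  have h3 : ContinuousAt (fun t : ℝ => fderiv ℝ P.Q (s, t) (1, 0)) t :=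
    h2.clm_apply continuousAt_const
  have h4 : ContinuousAt (fun t : ℝ => fderiv ℝ P.Q (s, t) (0, 1)) t :=
    h2.clm_apply continuousAt_const
  unfold Jac wedge
  exact (h3.fst.mul h4.snd).sub (h3.snd.mul h4.fst)

lemma continuous_divW_snd (hφ : RotFlow X φ) (hX : ContDiff ℝ 2 X) (P : Patch X φ p₀) {s : ℝ}
    (hs : s ∈ Ioo (-P.ε) P.ε) {w : ℝ × ℝ → ℝ} (hw : ∀ p, X p ≠ 0 → ContDiffAt ℝ 1 w p) :
    Continuous fun t : ℝ => divW w X (P.a s) (P.Q (s, t)) := by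
  have hQ := P.continuous_Q_snd hφ s
  rw [continuous_iff_continuousAt]
  intro t
  have hwt := hw _ (P.ne_zero hφ hs t)
  have h1 : ContinuousAt (fderiv ℝ w) (P.Q (s, t)) :=
    (hwt.fderiv_right (m := 0) (by norm_num)).continuousAt
  have h2 : ContinuousAt (fun t : ℝ => fderiv ℝ w (P.Q (s, t))) t :=
    ContinuousAt.comp (f := fun t : ℝ => P.Q (s, t)) h1 hQ.continuousAt
  have h3 : Continuous fun t : ℝ => rot (P.a s) (X (P.Q (s, t))) :=
    (continuous_rot _).comp (hX.continuous.comp hQ)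
  have h4 : ContinuousAt (fun t : ℝ => fderiv ℝ w (P.Q (s, t)) (rot (P.a s) (X (P.Q (s, t))))) t :=
    h2.clm_apply h3.continuousAt
  have h5 : ContinuousAt (fun t : ℝ => w (P.Q (s, t))) t :=
    ContinuousAt.comp (f := fun t : ℝ => P.Q (s, t)) hwt.continuousAt hQ.continuousAt
  have h6 : Continuous fun t : ℝ => divRot X (P.a s) (P.Q (s, t)) := by
    have h7 : Continuous fun t : ℝ => ((P.a s, P.Q (s, t)) : ℝ × (ℝ × ℝ)) :=
      continuous_const.prodMk hQ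
    have h8 := (continuous_divRot hX).comp h7
    exact h8
  unfold divW
  exact h4.add (h5.mul h6.continuousAt)

lemma continuous_w_snd (hφ : RotFlow X φ) (hX : ContDiff ℝ 2 X) (P : Patch X φ p₀) {s : ℝ}
    (hs : s ∈ Ioo (-P.ε) P.ε) {w : ℝ × ℝ → ℝ} (hw : ∀ p, X p ≠ 0 → ContDiffAt ℝ 1 w p) :
    Continuous fun t : ℝ => w (P.Q (s, t)) * sq (X (P.Q (s, t))) := by
  have hQ := P.continuous_Q_snd hφ s
  rw [continuous_iff_continuousAt]
  intro t
  have hwt := hw _ (P.ne_zero hφ hs t)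
  have h5 : ContinuousAt (fun t : ℝ => w (P.Q (s, t))) t :=
    ContinuousAt.comp (f := fun t : ℝ => P.Q (s, t)) hwt.continuousAt hQ.continuousAt
  exact h5.mul (continuous_sq.comp (hX.continuous.comp hQ)).continuousAt

/-- the identity `a'(s) ∫ w |X|² = ∫ div(w X_α) J` over one period -/
theorem identity (hφ : RotFlow X φ) (hX : ContDiff ℝ 2 X) (P : Patch X φ p₀) {s : ℝ}
    (hs : s ∈ Ioo (-P.ε) P.ε) {w : ℝ × ℝ → ℝ} (hw : ∀ p, X p ≠ 0 → ContDiffAt ℝ 1 w p) :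
    deriv P.a s * P.len w s =
      ∫ t in (0:ℝ)..P.T s, divW w X (P.a s) (P.Q (s, t)) * Jac P.Q (s, t) := by
  have ha : HasDerivAt P.a (deriv P.a s) s :=
    ((P.ha s hs).differentiableAt (by norm_num)).hasDerivAt
  have hd : ∀ t, HasDerivAt (fun t => w (P.Q (s, t)) * Jac P.Q (s, t))
      (divW w X (P.a s) (P.Q (s, t)) * Jac P.Q (s, t) -
        deriv P.a s * (w (P.Q (s, t)) * sq (X (P.Q (s, t))))) t := fun t =>
    hasDerivAt_wJac (P.contDiffAt_Q hφ hs t) (eventually_flow_QQ hφ (P.hσ s hs) (P.ha s hs)) ha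
      (hX.differentiable (by norm_num) _)
      ((hw _ (P.ne_zero hφ hs t)).differentiableAt (by norm_num))
  have c1 : Continuous fun t : ℝ => divW w X (P.a s) (P.Q (s, t)) * Jac P.Q (s, t) :=
    (P.continuous_divW_snd hφ hX hs hw).mul (P.continuous_Jac_snd hφ hs)
  have c2 : Continuous fun t : ℝ => deriv P.a s * (w (P.Q (s, t)) * sq (X (P.Q (s, t)))) :=
    (P.continuous_w_snd hφ hX hs hw).const_mul (deriv P.a s)
  have c3 : Continuous fun t : ℝ => divW w X (P.a s) (P.Q (s, t)) * Jac P.Q (s, t) -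
      deriv P.a s * (w (P.Q (s, t)) * sq (X (P.Q (s, t)))) := c1.sub c2
  have h1 := intervalIntegral.integral_eq_sub_of_hasDerivAt
    (fun t (_ : t ∈ uIcc 0 (P.T s)) => hd t) (c3.intervalIntegrable _ _)
  rw [P.Jac_period hφ hs] at h1
  have e3 : P.Q (s, P.T s) = P.Q (s, 0) := by
    have := P.Q_period hφ hs 0
    rwa [zero_add] at this
  rw [e3, sub_self] at h1
  rw [intervalIntegral.integral_sub (c1.intervalIntegrable _ _) (c2.intervalIntegrable _ _),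
    intervalIntegral.integral_const_mul] at h1
  unfold len
  linarith

end Patch

end

end Pool.Agent.H709R2
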