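import Pool.Agent.H709R2.PatchIneq

/-! The measure inequality on one patch, second part. -/

open Real Set MeasureTheory Topology Filter
open scoped ENNReal

namespace Pool.Agent.H709R2

noncomputable section

variable {X : ℝ × ℝ → ℝ × ℝ} {φ : ℝ → ℝ × ℝ → ℝ → ℝ × ℝ} {p₀ : ℝ × ℝ}

namespace Patch

/-- the parameter domain over a set of transversal parameters -/
def strip (P : Patch X φ p₀) (S : Set ℝ) : Set (ℝ × ℝ) :=
  {z | z.1 ∈ S ∧ z.2 ∈ Ico 0 (P.T z.1)}

lemma continuousOn_T (P : Patch X φ p₀) : ContinuousOn P.T (Ioo (-P.ε) P.ε) :=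
  fun s hs => (P.hTd s hs).continuousAt.continuousWithinAt

lemma measurableSet_strip (P : Patch X φ p₀) {S : Set ℝ} (hS : MeasurableSet S)
    (hSε : S ⊆ Ioo (-P.ε) P.ε) : MeasurableSet (P.strip S) := by
  classical
  set T' : ℝ → ℝ := (Ioo (-P.ε) P.ε).piecewise P.T (fun _ => 0) with hT'
  have hT'm : Measurable T' :=
    P.continuousOn_T.measurable_piecewise continuousOn_const measurableSet_Ioo
  have : P.strip S = (Prod.fst ⁻¹' S) ∩ ({z : ℝ × ℝ | 0 ≤ z.2} ∩ {z : ℝ × ℝ | z.2 < T' z.1}) := by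
    ext z
    simp only [strip, mem_ofPred_eq, mem_inter_iff, mem_preimage, mem_Ico]
    constructor
    · rintro ⟨h1, h2, h3⟩
      refine ⟨h1, h2, ?_⟩
      rw [hT', Set.piecewise_eq_of_mem _ _ _ (hSε h1)]
      exact h3
    · rintro ⟨h1, h2, h3⟩
      rw [hT', Set.piecewise_eq_of_mem _ _ _ (hSε h1)] at h3
      exact ⟨h1, h2, h3⟩
  rw [this]
  refine (measurable_fst hS).inter ((measurableSet_le measurable_const measurable_snd).inter
    (measurableSet_lt measurable_snd (hT'm.comp measurable_fst)))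

lemma continuousOn_Q (hφ : RotFlow X φ) (P : Patch X φ p₀) :
    ContinuousOn P.Q (Ioo (-P.ε) P.ε ×ˢ univ) := by
  rintro ⟨s, t⟩ ⟨hs, -⟩
  exact (P.contDiffAt_Q hφ hs t).continuousAt.continuousWithinAt

lemma measurable_Jac (P : Patch X φ p₀) : Measurable (Jac P.Q) := by
  unfold Jac wedge
  have h1 : Measurable fun z => fderiv ℝ P.Q z (1, 0) := measurable_fderiv_apply_const ℝ P.Q _
  have h2 : Measurable fun z => fderiv ℝ P.Q z (0, 1) := measurable_fderiv_apply_const ℝ P.Q _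
  exact (h1.fst.mul h2.snd).sub (h1.snd.mul h2.fst)

/-- the measure inequality on a patch -/
theorem lintegral_deriv_le (hφ : RotFlow X φ) (hX : ContDiff ℝ 2 X) (P : Patch X φ p₀)
    {S : Set ℝ} (hS : MeasurableSet S) (hSε : S ⊆ Ioo (-P.ε) P.ε)
    {w : ℝ × ℝ → ℝ} (hw : ∀ p, X p ≠ 0 → ContDiffAt ℝ 1 w p)
    {h : ℝ × ℝ → ℝ≥0∞} (hh : Measurable h)
    (hbd : ∀ s ∈ S, ∀ t, ENNReal.ofReal |divW w X (P.a s) (P.Q (s, t))| ≤ h (P.Q (s, t)))
    {ℓ : ℝ} (hℓ : 0 < ℓ) (hlen : ∀ s ∈ S, ℓ ≤ P.len w s) :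
    ∫⁻ s in S, ENNReal.ofReal |deriv P.a s| ≤
      ENNReal.ofReal (1 / ℓ) * ∫⁻ p in P.Q '' P.strip S, h p := by
  set F : ℝ × ℝ → ℝ≥0∞ := fun z => ENNReal.ofReal |Jac P.Q z| * h (P.Q z) with hF
  -- pointwise bound
  have hpt : ∀ s ∈ S, ENNReal.ofReal |deriv P.a s| ≤
      ENNReal.ofReal (1 / ℓ) * ∫⁻ t in Ico 0 (P.T s), F (s, t) := by
    intro s hs
    have hsε := hSε hs
    have hT := P.hT s hsε
    have hid := P.identity hφ hX hsε hw
    have c1 : Continuous fun t : ℝ => divW w X (P.a s) (P.Q (s, t)) * Jac P.Q (s, t) :=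
      (P.continuous_divW_snd hφ hX hsε hw).mul (P.continuous_Jac_snd hφ hsε)
    have h1 : |deriv P.a s| * ℓ ≤
        ∫ t in (0:ℝ)..P.T s, |divW w X (P.a s) (P.Q (s, t)) * Jac P.Q (s, t)| := by
      calc |deriv P.a s| * ℓ ≤ |deriv P.a s| * P.len w s := by
            gcongr; exact hlen s hs
        _ = |deriv P.a s * P.len w s| := by
            rw [abs_mul, abs_of_nonneg (hℓ.le.trans (hlen s hs))]
        _ ≤ _ := by
            rw [hid]
            exact intervalIntegral.abs_integral_le_integral_abs hT.le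
    have h2 : |deriv P.a s| ≤ 1 / ℓ *
        ∫ t in (0:ℝ)..P.T s, |divW w X (P.a s) (P.Q (s, t)) * Jac P.Q (s, t)| := by
      rw [one_div, inv_mul_eq_div, le_div_iff₀ hℓ]
      exact h1
    refine (ENNReal.ofReal_le_ofReal h2).trans ?_
    rw [ENNReal.ofReal_mul (by positivity)]
    gcongr
    rw [intervalIntegral.integral_of_le hT.le]
    rw [ofReal_integral_eq_lintegral_ofReal]
    · rw [← restrict_Ico_eq_restrict_Ioc]
      refine lintegral_mono fun t => ?_
      simp only [hF]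
      rw [abs_mul, ENNReal.ofReal_mul (abs_nonneg _), mul_comm]
      gcongr
      exact hbd s hs t
    · exact (c1.abs.intervalIntegrable 0 (P.T s)).1
    · exact Eventually.of_forall fun t => abs_nonneg _
  -- measurability
  have hO : MeasurableSet (Ioo (-P.ε) P.ε ×ˢ (univ : Set ℝ)) := measurableSet_Ioo.prod MeasurableSet.univ
  have hstrip := P.measurableSet_strip hS hSε
  have hsub : P.strip S ⊆ Ioo (-P.ε) P.ε ×ˢ (univ : Set ℝ) := fun z hz => ⟨hSε hz.1, trivial⟩
  have hQm : AEMeasurable P.Q (volume.restrict (P.strip S)) :=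
    ((P.continuousOn_Q hφ).mono hsub).aemeasurable hstrip
  have hFm : AEMeasurable F (volume.restrict (P.strip S)) :=
    ((P.measurable_Jac.abs.ennreal_ofReal).aemeasurable).mul (hh.comp_aemeasurable hQm)
  have hind : AEMeasurable ((P.strip S).indicator F) (volume : Measure (ℝ × ℝ)) :=
    (aemeasurable_indicator_iff hstrip).2 hFm
  -- Tonelli
  have h3 : ∫⁻ z in P.strip S, F z = ∫⁻ s in S, ∫⁻ t in Ico 0 (P.T s), F (s, t) := by
    rw [← lintegral_indicator hstrip, Measure.volume_eq_prod, lintegral_prod _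
      (by rw [← Measure.volume_eq_prod]; exact hind)]
    rw [← lintegral_indicator hS]
    congr 1
    ext s
    by_cases hs : s ∈ S
    · rw [indicator_of_mem hs, ← lintegral_indicator measurableSet_Ico]
      congr 1
      ext t
      by_cases ht : t ∈ Ico 0 (P.T s)
      · rw [indicator_of_mem ht, indicator_of_mem]
        exact ⟨hs, ht⟩
      · rw [indicator_of_notMem ht, indicator_of_notMem]
        exact fun hc => ht hc.2
    · rw [indicator_of_notMem hs]
      have : ∀ t, (P.strip S).indicator F (s, t) = 0 := fun t =>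
        indicator_of_notMem (fun hc => hs hc.1) _
      simp [this]
  -- area formula
  have h4 : ∫⁻ p in P.Q '' P.strip S, h p = ∫⁻ z in P.strip S, F z := by
    have hsub2 : P.strip S ⊆ {z : ℝ × ℝ | z.1 ∈ Ioo (-P.ε) P.ε ∧ z.2 ∈ Ico 0 (P.T z.1)} :=
      fun z hz => ⟨hSε hz.1, hz.2⟩
    have hinj' : InjOn P.Q (P.strip S) := P.hinj.mono hsub2
    have h5 := lintegral_image_eq_lintegral_abs_det_fderiv_mul volume hstrip (f := P.Q)
      (f' := fderiv ℝ P.Q)
      (fun z hz => ((P.contDiffAt_Q hφ (hSε hz.1) z.2).differentiableAt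
        (by norm_num)).hasFDerivAt.hasFDerivWithinAt)
      hinj' h
    rw [h5]
    refine lintegral_congr fun z => ?_
    simp only [hF, Jac]
    rw [GR.Flow.det_plane]
    unfold wedge
    congr 4
    ring
  calc ∫⁻ s in S, ENNReal.ofReal |deriv P.a s|
      ≤ ∫⁻ s in S, ENNReal.ofReal (1 / ℓ) * ∫⁻ t in Ico 0 (P.T s), F (s, t) :=
        setLIntegral_mono' hS hpt
    _ = ENNReal.ofReal (1 / ℓ) * ∫⁻ s in S, ∫⁻ t in Ico 0 (P.T s), F (s, t) :=
        lintegral_const_mul' _ _ ENNReal.ofReal_ne_top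
    _ = ENNReal.ofReal (1 / ℓ) * ∫⁻ p in P.Q '' P.strip S, h p := by rw [h4, h3]

end Patch

end

end Pool.Agent.H709R2
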