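import Pool.Agent.H709R2.FinE

/-! Affine perturbations of a polynomial field. -/

open Real Set MeasureTheory Topology Filter
open scoped ENNReal

namespace Pool.Agent.H709R2

noncomputable section

/-- parameter space of affine perturbations -/
abbrev Aff : Type := Fin 6 → ℝ

/-- constant part -/
def A0 (a : Aff) : ℝ × ℝ := (a 0, a 3)

/-- coefficient vector of `x` -/
def A1 (a : Aff) : ℝ × ℝ := (a 1, a 4)

/-- coefficient vector of `y` -/
def A2 (a : Aff) : ℝ × ℝ := (a 2, a 5)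

lemma norm_A0_le (a : Aff) : ‖A0 a‖ ≤ ‖a‖ := by
  unfold A0
  rw [Prod.norm_def, max_le_iff]
  exact ⟨norm_le_pi_norm a 0, norm_le_pi_norm a 3⟩

lemma norm_A1_le (a : Aff) : ‖A1 a‖ ≤ ‖a‖ := by
  unfold A1
  rw [Prod.norm_def, max_le_iff]
  exact ⟨norm_le_pi_norm a 1, norm_le_pi_norm a 4⟩

lemma norm_A2_le (a : Aff) : ‖A2 a‖ ≤ ‖a‖ := by
  unfold A2
  rw [Prod.norm_def, max_le_iff]
  exact ⟨norm_le_pi_norm a 2, norm_le_pi_norm a 5⟩

lemma continuous_A0 : Continuous A0 := by unfold A0; fun_prop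
lemma continuous_A1 : Continuous A1 := by unfold A1; fun_prop
lemma continuous_A2 : Continuous A2 := by unfold A2; fun_prop

/-- affine perturbation of a field -/
def pert (F : ℝ × ℝ → ℝ × ℝ) (a : Aff) (p : ℝ × ℝ) : ℝ × ℝ :=
  F p + (A0 a + (p.1 • A1 a + p.2 • A2 a))

lemma contDiff_pert {F : ℝ × ℝ → ℝ × ℝ} {m : WithTop ℕ∞} (hF : ContDiff ℝ m F) (a : Aff) :
    ContDiff ℝ m (pert F a) := by
  unfold pert
  exact hF.add (contDiff_const.add ((contDiff_fst.smul contDiff_const).add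
    (contDiff_snd.smul contDiff_const)))

lemma fderiv_pert {F : ℝ × ℝ → ℝ × ℝ} (hF : ContDiff ℝ 2 F) (a : Aff) (p v : ℝ × ℝ) :
    fderiv ℝ (pert F a) p v = fderiv ℝ F p v + (v.1 • A1 a + v.2 • A2 a) := by
  have h1 : HasFDerivAt F (fderiv ℝ F p) p := (hF.differentiable (by norm_num) p).hasFDerivAt
  have h2 : HasFDerivAt (fun p : ℝ × ℝ => p.1 • A1 a)
      ((ContinuousLinearMap.fst ℝ ℝ ℝ).smulRight (A1 a)) p :=
    (ContinuousLinearMap.fst ℝ ℝ ℝ).hasFDerivAt.smul_const (A1 a)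
  have h3 : HasFDerivAt (fun p : ℝ × ℝ => p.2 • A2 a)
      ((ContinuousLinearMap.snd ℝ ℝ ℝ).smulRight (A2 a)) p :=
    (ContinuousLinearMap.snd ℝ ℝ ℝ).hasFDerivAt.smul_const (A2 a)
  have h4 : HasFDerivAt (pert F a) (fderiv ℝ F p + ((ContinuousLinearMap.fst ℝ ℝ ℝ).smulRight (A1 a) +
      (ContinuousLinearMap.snd ℝ ℝ ℝ).smulRight (A2 a))) p :=
    h1.add ((h2.add h3).const_add (A0 a))
  rw [h4.fderiv]
  simp

lemma fderiv_pert_sub {F : ℝ × ℝ → ℝ × ℝ} (hF : ContDiff ℝ 2 F) (a : Aff) (p q : ℝ × ℝ) :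
    fderiv ℝ (pert F a) p - fderiv ℝ (pert F a) q = fderiv ℝ F p - fderiv ℝ F q := by
  refine ContinuousLinearMap.ext fun v => ?_
  simp only [sub_apply, fderiv_pert hF]
  abel

/-- bounds for a perturbed field -/
lemma pert_bounds {F : ℝ × ℝ → ℝ × ℝ} (hF : ContDiff ℝ 2 F) {R' : ℝ}
    (h1 : ∀ p, ‖p‖ ≤ R' → ‖fderiv ℝ F p‖ ≤ 2)
    (h2 : ∀ p q, ‖p‖ ≤ R' → ‖q‖ ≤ R' → ‖fderiv ℝ F p - fderiv ℝ F q‖ ≤ 4 * ‖p - q‖)
    {a : Aff} (ha : ‖a‖ ≤ 1) {p q : ℝ × ℝ} (hp : ‖p‖ ≤ R') (hq : ‖q‖ ≤ R') :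
    ‖fderiv ℝ (pert F a) p‖ ≤ 4 ∧
      ‖fderiv ℝ (pert F a) p - fderiv ℝ (pert F a) q‖ ≤ 4 * ‖p - q‖ ∧
      ‖pert F a p - pert F a q‖ ≤ 4 * ‖p - q‖ ∧
      ‖pert F a p - pert F a q - fderiv ℝ (pert F a) q (p - q)‖ ≤ 4 * ‖p - q‖ ^ 2 := by
  have ha1 : ‖A1 a‖ ≤ 1 := (norm_A1_le a).trans ha
  have ha2 : ‖A2 a‖ ≤ 1 := (norm_A2_le a).trans ha
  have k1 : ∀ x, ‖x‖ ≤ R' → ‖fderiv ℝ (pert F a) x‖ ≤ 4 := by
    intro x hx
    refine ContinuousLinearMap.opNorm_le_bound _ (by norm_num) fun v => ?_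
    rw [fderiv_pert hF]
    have e1 := (fderiv ℝ F x).le_opNorm v
    have e2 : ‖v.1 • A1 a‖ ≤ ‖v‖ := by
      rw [norm_smul]
      calc ‖v.1‖ * ‖A1 a‖ ≤ ‖v‖ * 1 := mul_le_mul (norm_fst_le v) ha1 (norm_nonneg _)
            (norm_nonneg _)
        _ = ‖v‖ := mul_one _
    have e3 : ‖v.2 • A2 a‖ ≤ ‖v‖ := by
      rw [norm_smul]
      calc ‖v.2‖ * ‖A2 a‖ ≤ ‖v‖ * 1 := mul_le_mul (norm_snd_le v) ha2 (norm_nonneg _)
            (norm_nonneg _)
        _ = ‖v‖ := mul_one _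
    calc ‖fderiv ℝ F x v + (v.1 • A1 a + v.2 • A2 a)‖
        ≤ ‖fderiv ℝ F x v‖ + (‖v.1 • A1 a‖ + ‖v.2 • A2 a‖) :=
          (norm_add_le _ _).trans (by gcongr; exact norm_add_le _ _)
      _ ≤ 2 * ‖v‖ + (‖v‖ + ‖v‖) := by
          refine add_le_add (e1.trans ?_) (add_le_add e2 e3)
          gcongr
          exact h1 x hx
      _ = 4 * ‖v‖ := by ring
  have k2 : ∀ x y, ‖x‖ ≤ R' → ‖y‖ ≤ R' →
      ‖fderiv ℝ (pert F a) x - fderiv ℝ (pert F a) y‖ ≤ 4 * ‖x - y‖ := by
    intro x y hx hy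
    rw [fderiv_pert_sub hF]
    exact h2 x y hx hy
  have hseg : ∀ x ∈ segment ℝ q p, ‖x‖ ≤ R' := by
    intro x hx
    have e1 := (convex_closedBall (0 : ℝ × ℝ) R').segment_subset
      (mem_closedBall_zero_iff.2 hq) (mem_closedBall_zero_iff.2 hp) hx
    exact mem_closedBall_zero_iff.1 e1
  have hfd : ∀ x ∈ segment ℝ q p, HasFDerivWithinAt (pert F a) (fderiv ℝ (pert F a) x)
      (segment ℝ q p) x := fun x _ =>
    (((contDiff_pert hF a).differentiable (by norm_num)) x).hasFDerivAt.hasFDerivWithinAt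
  refine ⟨k1 p hp, k2 p q hp hq, ?_, ?_⟩
  · exact Convex.norm_image_sub_le_of_norm_hasFDerivWithin_le hfd
      (fun x hx => k1 x (hseg x hx)) (convex_segment q p) (left_mem_segment ℝ q p)
      (right_mem_segment ℝ q p)
  · have := Convex.norm_image_sub_le_of_norm_hasFDerivWithin_le' (φ := fderiv ℝ (pert F a) q)
      (C := 4 * ‖p - q‖) hfd
      (fun x hx => by
        refine (k2 x q (hseg x hx) hq).trans ?_
        gcongr
        have := segment_subset_closedBall_left q p hx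
        rw [Metric.mem_closedBall, dist_eq_norm, dist_eq_norm] at this
        rwa [norm_sub_rev p q])
      (convex_segment q p) (left_mem_segment ℝ q p) (right_mem_segment ℝ q p)
    refine this.trans (le_of_eq ?_)
    ring

/-- a pair of polynomials is a member of a finite linear family -/
lemma exists_coef {n : ℕ} (P Q : MvPolynomial (Fin 2) ℝ) (hP : P.totalDegree ≤ n)
    (hQ : Q.totalDegree ≤ n) :
    ∃ (S : Finset (ℕ × ℕ)) (c : S → ℝ × ℝ), (0, 0) ∈ S ∧ (1, 0) ∈ S ∧ (0, 1) ∈ S ∧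
      (S.sup (fun m => m.1 + m.2)) ≤ n + 1 ∧ fld c = field P Q := by
  classical
  set e : (Fin 2 →₀ ℕ) → ℕ × ℕ := fun d => (d 0, d 1) with he
  have hinj : Function.Injective e := by
    intro d d' h
    simp only [he, Prod.mk.injEq] at h
    ext i
    fin_cases i
    · exact h.1
    · exact h.2
  set f : ℕ × ℕ → (Fin 2 →₀ ℕ) := fun m => Finsupp.single 0 m.1 + Finsupp.single 1 m.2 with hf
  have hfe : ∀ d, f (e d) = d := by
    intro d
    apply hinj
    simp [he, hf]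
  set S : Finset (ℕ × ℕ) := (P.support ∪ Q.support).image e ∪ {(0, 0), (1, 0), (0, 1)} with hS
  have hdeg : ∀ (G : MvPolynomial (Fin 2) ℝ), G.totalDegree ≤ n → ∀ d ∈ G.support,
      d 0 + d 1 ≤ n := by
    intro G hG d hd
    have h1 := MvPolynomial.le_totalDegree hd
    have h2 : (d.sum fun _ e => e) = d 0 + d 1 := by
      rw [Finsupp.sum_fintype _ _ (fun _ => rfl), Fin.sum_univ_two]
    rw [h2] at h1
    exact h1.trans hG
  refine ⟨S, fun m => (P.coeff (f m.1), Q.coeff (f m.1)), ?_, ?_, ?_, ?_, ?_⟩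
  · simp [hS]
  · simp [hS]
  · simp [hS]
  · refine Finset.sup_le fun m hm => ?_
    rw [hS, Finset.mem_union, Finset.mem_image] at hm
    rcases hm with ⟨d, hd, rfl⟩ | hm
    · rw [Finset.mem_union] at hd
      rcases hd with hd | hd
      · exact (hdeg P hP d hd).trans (Nat.le_succ n)
      · exact (hdeg Q hQ d hd).trans (Nat.le_succ n)
    · simp only [Finset.mem_insert, Finset.mem_singleton] at hm
      rcases hm with rfl | rfl | rfl <;> simp
  · have key : ∀ (G : MvPolynomial (Fin 2) ℝ), G.support ⊆ P.support ∪ Q.support →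
        ∀ p : ℝ × ℝ, ∑ m : S, (p.1 ^ m.1.1 * p.2 ^ m.1.2) * G.coeff (f m.1) =
          MvPolynomial.eval ![p.1, p.2] G := by
      intro G hG p
      rw [MvPolynomial.eval_eq']
      have h1 : ∑ m : S, (p.1 ^ m.1.1 * p.2 ^ m.1.2) * G.coeff (f m.1) =
          ∑ m ∈ S, (p.1 ^ m.1 * p.2 ^ m.2) * G.coeff (f m) :=
        Finset.sum_coe_sort S (fun m => (p.1 ^ m.1 * p.2 ^ m.2) * G.coeff (f m))
      rw [h1]
      have h2 : G.support.image e ⊆ S := by
        intro m hm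
        rw [hS, Finset.mem_union]
        left
        exact Finset.image_subset_image hG hm
      rw [← Finset.sum_subset h2]
      · rw [Finset.sum_image (fun d _ d' _ h => hinj h)]
        refine Finset.sum_congr rfl fun d _ => ?_
        rw [hfe, Fin.prod_univ_two]
        simp only [he, Matrix.cons_val_zero, Matrix.cons_val_one]
        ring
      · intro m _ hm
        have : G.coeff (f m) = 0 := by
          rw [← MvPolynomial.notMem_support_iff]
          intro hc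
          apply hm
          rw [Finset.mem_image]
          exact ⟨f m, hc, by simp [he, hf]⟩
        rw [this, mul_zero]
    ext p
    · unfold fld field
      simp only [Prod.fst_sum, Prod.smul_fst, smul_eq_mul]
      exact key P Finset.subset_union_left p
    · unfold fld field
      simp only [Prod.snd_sum, Prod.smul_snd, smul_eq_mul]
      exact key Q Finset.subset_union_right p

/-- derivative of polynomial evaluation -/
lemma hasFDerivAt_eval (P : MvPolynomial (Fin 2) ℝ) (p : ℝ × ℝ) :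
    HasFDerivAt (fun p : ℝ × ℝ => MvPolynomial.eval ![p.1, p.2] P)
      ((MvPolynomial.eval ![p.1, p.2] (MvPolynomial.pderiv 0 P)) • ContinuousLinearMap.fst ℝ ℝ ℝ +
        (MvPolynomial.eval ![p.1, p.2] (MvPolynomial.pderiv 1 P)) •
          ContinuousLinearMap.snd ℝ ℝ ℝ) p := by
  induction P using MvPolynomial.induction_on with
  | C a =>
    simp only [MvPolynomial.eval_C, MvPolynomial.pderiv_C, map_zero, zero_smul, add_zero]
    exact hasFDerivAt_const a p
  | add f g hf hg =>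
    simp only [map_add]
    refine (hf.add hg).congr_fderiv ?_
    ext <;> simp
  | mul_X f i hf =>
    simp only [map_mul, MvPolynomial.eval_X]
    fin_cases i
    · have h1 : HasFDerivAt (fun p : ℝ × ℝ => p.1) (ContinuousLinearMap.fst ℝ ℝ ℝ) p :=
        (ContinuousLinearMap.fst ℝ ℝ ℝ).hasFDerivAt
      have h2 := hf.mul h1
      simp only [Fin.zero_eta, Matrix.cons_val_zero]
      refine h2.congr_fderiv ?_
      ext <;> simp
    · have h1 : HasFDerivAt (fun p : ℝ × ℝ => p.2) (ContinuousLinearMap.snd ℝ ℝ ℝ) p :=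
        (ContinuousLinearMap.snd ℝ ℝ ℝ).hasFDerivAt
      have h2 := hf.mul h1
      simp only [Fin.mk_one, Matrix.cons_val_one]
      refine h2.congr_fderiv ?_
      ext <;> simp

end

end Pool.Agent.H709R2
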