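import Pool.Agent.H709R2.Smooth1

/-! Smoothed analysis: integration over affine perturbations. -/

open Real Set MeasureTheory Topology Filter
open scoped ENNReal

namespace Pool.Agent.H709R2

noncomputable section

/-- number of closed orbits of the rotated perturbed field -/
def cntA (F : ℝ × ℝ → ℝ × ℝ) (Ω : Set (ℝ × ℝ)) (d : ℝ) (z : ℝ × Aff) : ℝ≥0∞ :=
  ((Cls (fun p => rot z.1 (pert F z.2 p)) Ω d).encard : ℝ≥0∞)

/-- the coefficients of the perturbed field -/
def coefA {S : Finset (ℕ × ℕ)} (h00 : (0, 0) ∈ S) (h10 : (1, 0) ∈ S) (h01 : (0, 1) ∈ S)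
    (c : S → ℝ × ℝ) (a : Aff) : S → ℝ × ℝ :=
  c + (Pi.single (⟨(0, 0), h00⟩ : S) (A0 a) + (Pi.single (⟨(1, 0), h10⟩ : S) (A1 a) +
    Pi.single (⟨(0, 1), h01⟩ : S) (A2 a)))

lemma fld_coefA {S : Finset (ℕ × ℕ)} (h00 : (0, 0) ∈ S) (h10 : (1, 0) ∈ S) (h01 : (0, 1) ∈ S)
    (c : S → ℝ × ℝ) (a : Aff) : fld (coefA h00 h10 h01 c a) = pert (fld c) a := by
  ext1 p
  unfold coefA pert
  rw [fld_add, fld_add, fld_add, fld_single, fld_single, fld_single]
  simp

lemma continuous_coefA {S : Finset (ℕ × ℕ)} (h00 : (0, 0) ∈ S) (h10 : (1, 0) ∈ S)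
    (h01 : (0, 1) ∈ S) (c : S → ℝ × ℝ) : Continuous (coefA h00 h10 h01 c) := by
  unfold coefA
  have h : ∀ m : S, Continuous fun w : ℝ × ℝ => (Pi.single m w : S → ℝ × ℝ) :=
    fun m => continuous_single (A := fun _ : S => ℝ × ℝ) m
  exact continuous_const.add (((h _).comp continuous_A0).add
    (((h _).comp continuous_A1).add ((h _).comp continuous_A2)))

lemma cntA_eq {S : Finset (ℕ × ℕ)} (h00 : (0, 0) ∈ S) (h10 : (1, 0) ∈ S) (h01 : (0, 1) ∈ S)
    (c : S → ℝ × ℝ) (Ω : Set (ℝ × ℝ)) (d : ℝ) (z : ℝ × Aff) :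
    cntA (fld c) Ω d z =
      ((Cls (fld (rotc z.1 (coefA h00 h10 h01 c z.2))) Ω d).encard : ℝ≥0∞) := by
  unfold cntA
  have : (fun p => rot z.1 (pert (fld c) z.2 p)) = fld (rotc z.1 (coefA h00 h10 h01 c z.2)) := by
    ext1 p
    rw [← rot_fld, fld_coefA]
  rw [this]

lemma measurable_cntA {n : ℕ} {P Q : MvPolynomial (Fin 2) ℝ} (hP : P.totalDegree ≤ n)
    (hQ : Q.totalDegree ≤ n) {Ω : Set (ℝ × ℝ)} (hΩ : IsCompact Ω) (d : ℝ) :
    Measurable (cntA (field P Q) Ω d) := by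
  obtain ⟨S, c, h00, h10, h01, -, hc⟩ := exists_coef P Q hP hQ
  rw [← hc]
  have h1 : cntA (fld c) Ω d = fun z =>
      ((Cls (fld (rotc z.1 (coefA h00 h10 h01 c z.2))) Ω d).encard : ℝ≥0∞) := by
    ext1 z
    exact cntA_eq h00 h10 h01 c Ω d z
  rw [h1]
  have h2 : Continuous fun z : ℝ × Aff => rotc z.1 (coefA h00 h10 h01 c z.2) :=
    continuous_rotc.comp (continuous_fst.prodMk ((continuous_coefA h00 h10 h01 c).comp
      continuous_snd))
  exact (measurable_count hΩ d).comp h2.measurable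

/-- uniform bound at any scale -/
lemma boundA_one {n : ℕ} {P Q : MvPolynomial (Fin 2) ℝ} (hP : P.totalDegree ≤ n)
    (hQ : Q.totalDegree ≤ n) (a : Aff) (q : ℝ × ℝ) {r d : ℝ} (hr : 0 ≤ r) (hd : 0 < d) :
    ∫⁻ α in Ioo 0 π, cntA (field P Q) (sqr q r) d (α, a) ≤
      ENNReal.ofReal (2 * π * (n + 1) * r / d) := by
  obtain ⟨S, c, h00, h10, h01, hS, hc⟩ := exists_coef P Q hP hQ
  rw [← hc]
  simp only [cntA_eq h00 h10 h01]
  refine (bound_one S _ q hr hd).trans ?_
  apply ENNReal.ofReal_le_ofReal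
  have : ((S.sup (fun m => m.1 + m.2) : ℕ) : ℝ) ≤ n + 1 := by exact_mod_cast hS
  gcongr

/-- Jacobian determinant of the perturbed field -/
def jd (F : ℝ × ℝ → ℝ × ℝ) (q : ℝ × ℝ) (a : Aff) : ℝ :=
  wedge (fderiv ℝ (pert F a) q (1, 0)) (fderiv ℝ (pert F a) q (0, 1))

lemma jd_eq {F : ℝ × ℝ → ℝ × ℝ} (hF : ContDiff ℝ 2 F) (q : ℝ × ℝ) (a : Aff) :
    jd F q a = ((fderiv ℝ F q (1, 0)).1 + a 1) * ((fderiv ℝ F q (0, 1)).2 + a 5) -
      ((fderiv ℝ F q (1, 0)).2 + a 4) * ((fderiv ℝ F q (0, 1)).1 + a 2) := by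
  unfold jd wedge
  rw [fderiv_pert hF, fderiv_pert hF]
  simp [A1, A2]

lemma continuous_jd {F : ℝ × ℝ → ℝ × ℝ} (hF : ContDiff ℝ 2 F) (q : ℝ × ℝ) :
    Continuous (jd F q) := by
  have : jd F q = fun a => ((fderiv ℝ F q (1, 0)).1 + a 1) *
      ((fderiv ℝ F q (0, 1)).2 + a 5) -
      ((fderiv ℝ F q (1, 0)).2 + a 4) * ((fderiv ℝ F q (0, 1)).1 + a 2) := by
    ext1 a
    exact jd_eq hF q a
  rw [this]
  fun_prop

lemma continuous_pertq (F : ℝ × ℝ → ℝ × ℝ) (q : ℝ × ℝ) : Continuous fun a : Aff => pert F a q := by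
  unfold pert A0 A1 A2
  fun_prop

lemma norm_le_addA (x c : Aff) : ‖c‖ ≤ ‖x + c‖ + ‖x‖ := by
  have h : c = (x + c) - x := by abel
  calc ‖c‖ = ‖(x + c) - x‖ := by rw [← h]
    _ ≤ ‖x + c‖ + ‖x‖ := norm_sub_le _ _

lemma volume_ballA {ρ : ℝ} (hρ : 0 ≤ ρ) :
    volume (Metric.closedBall (0 : Aff) ρ) = ENNReal.ofReal ((2 * ρ) ^ 6) := by
  rw [Real.volume_pi_closedBall _ hρ]
  simp

/-- vector with prescribed constant part -/
def T0 (τ : ℝ × ℝ) : Aff := ![τ.1, 0, 0, τ.2, 0, 0]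

lemma norm_T0_le (τ : ℝ × ℝ) : ‖T0 τ‖ ≤ ‖τ‖ := by
  rw [pi_norm_le_iff_of_nonneg (norm_nonneg _)]
  intro i
  fin_cases i
  · exact norm_fst_le τ
  · simp [T0]
  · simp [T0]
  · exact norm_snd_le τ
  · simp [T0]
  · simp [T0]

lemma continuous_T0 : Continuous T0 := by
  unfold T0
  refine continuous_pi fun i => ?_
  fin_cases i <;> simp <;> fun_prop

lemma A0_T0_add (τ : ℝ × ℝ) (c : Aff) : A0 (T0 τ + c) = τ + A0 c := by
  ext <;> simp [A0, T0]

lemma A1_T0_add (τ : ℝ × ℝ) (c : Aff) : A1 (T0 τ + c) = A1 c := by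
  ext <;> simp [A1, T0]

lemma A2_T0_add (τ : ℝ × ℝ) (c : Aff) : A2 (T0 τ + c) = A2 c := by
  ext <;> simp [A2, T0]

lemma volA_value {F : ℝ × ℝ → ℝ × ℝ} (q : ℝ × ℝ) {β r : ℝ} (hβ : 0 < β)
    {G : Set Aff} (hG : MeasurableSet G)
    (hinv : ∀ (c : Aff) (τ : ℝ × ℝ), T0 τ + c ∈ G ↔ c ∈ G) :
    volume ((Metric.closedBall (0 : Aff) β ∩ {a | ‖pert F a q‖ ≤ r}) ∩ G) ≤
      (ENNReal.ofReal (2 * r / β) * ENNReal.ofReal (2 * r / β)) *
        volume (Metric.closedBall (0 : Aff) (2 * β) ∩ G) := by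
  have hTc : Continuous fun τ : ℝ × ℝ => T0 (β • τ) :=
    continuous_T0.comp (continuous_const_smul β)
  refine volume_le_slice (T := fun τ : ℝ × ℝ => T0 (β • τ))
    (ν := volume) (J := Icc (0:ℝ) 1 ×ˢ Icc (0:ℝ) 1) hTc.measurable
    (measurableSet_Icc.prod measurableSet_Icc) ?_ ?_ ?_ ?_ ?_
  · rw [Measure.volume_eq_prod, Measure.prod_prod, Real.volume_Icc]
    simp
  · exact ((Metric.isClosed_closedBall.measurableSet).inter
      (measurableSet_le (continuous_pertq F q).norm.measurable measurable_const)).inter hG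
  · exact Metric.isClosed_closedBall.measurableSet.inter hG
  · intro c τ hτ hc
    refine ⟨?_, (hinv c _).1 hc.2⟩
    rw [mem_closedBall_zero_iff]
    have h1 := mem_closedBall_zero_iff.1 hc.1.1
    have h2 : ‖T0 (β • τ)‖ ≤ β := by
      refine (norm_T0_le _).trans ?_
      rw [norm_smul, Real.norm_eq_abs, abs_of_pos hβ]
      have h3 : ‖τ‖ ≤ 1 := by
        rw [Prod.norm_def, max_le_iff, Real.norm_eq_abs, Real.norm_eq_abs, abs_le, abs_le]
        exact ⟨⟨by linarith [hτ.1.1], hτ.1.2⟩, by linarith [hτ.2.1], hτ.2.2⟩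
      calc β * ‖τ‖ ≤ β * 1 := by gcongr
        _ = β := mul_one β
    have := norm_le_addA (T0 (β • τ)) c
    linarith
  · intro c _
    refine (measure_mono (t := sqr (-(β⁻¹ • pert F c q)) (r / β)) ?_).trans ?_
    · rintro τ ⟨-, hτ⟩
      rw [mem_sqr, sub_neg_eq_add]
      have h1 := hτ.1.2
      simp only [mem_ofPred_eq] at h1
      have h2 : pert F (T0 (β • τ) + c) q = β • (τ + β⁻¹ • pert F c q) := by
        rw [smul_add, smul_smul, mul_inv_cancel₀ hβ.ne', one_smul]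
        unfold pert
        rw [A0_T0_add, A1_T0_add, A2_T0_add]
        abel
      rw [h2, norm_smul, Real.norm_eq_abs, abs_of_pos hβ] at h1
      rw [le_div_iff₀ hβ, mul_comm]
      exact h1
    · unfold sqr
      rw [Measure.volume_eq_prod, Measure.prod_prod, Real.volume_Icc, Real.volume_Icc]
      have e1 : ∀ x : ℝ, x + r / β - (x - r / β) = 2 * r / β := by intro x; ring
      rw [e1, e1]

lemma volA_slice1 (w : Aff) (hw : ‖w‖ ≤ 1) {ρ β : ℝ} (hβ : 0 < β) {E : Set Aff}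
    (hE : MeasurableSet E) (hEρ : E ⊆ Metric.closedBall 0 ρ) {b : ℝ≥0∞}
    (h : ∀ c, volume {τ : ℝ | (β * τ) • w + c ∈ E} ≤ b) :
    volume E ≤ b * volume (Metric.closedBall (0 : Aff) (ρ + β)) := by
  refine volume_le_slice (T := fun τ : ℝ => (β * τ) • w)
    (ν := volume) (J := Icc (0:ℝ) 1)
    (by fun_prop) measurableSet_Icc (by simp)
    hE Metric.isClosed_closedBall.measurableSet ?_ ?_
  · intro c τ hτ hc
    rw [mem_closedBall_zero_iff]
    have h1 := mem_closedBall_zero_iff.1 (hEρ hc)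
    have h2 : ‖(β * τ) • w‖ ≤ β := by
      rw [norm_smul, Real.norm_eq_abs, abs_mul, abs_of_pos hβ, abs_of_nonneg hτ.1]
      calc β * τ * ‖w‖ ≤ β * 1 * 1 := mul_le_mul (mul_le_mul_of_nonneg_left hτ.2 hβ.le) hw
            (norm_nonneg _) (by positivity)
        _ = β := by ring
    have := norm_le_addA ((β * τ) • w) c
    linarith
  · intro c _
    exact (measure_mono inter_subset_right).trans (h c)

lemma volA_jd {F : ℝ × ℝ → ℝ × ℝ} (hF : ContDiff ℝ 2 F) (q : ℝ × ℝ) {ρ β s : ℝ} (hβ : 0 < β)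
    (hs : 0 < s) :
    volume (Metric.closedBall (0 : Aff) ρ ∩ {a | |jd F q a| < s ^ 2}) ≤
      ENNReal.ofReal (4 * s / β) * volume (Metric.closedBall (0 : Aff) (ρ + β)) := by
  set x₁ := (fderiv ℝ F q (1, 0)).1 with hx₁
  set x₂ := (fderiv ℝ F q (1, 0)).2 with hx₂
  set x₃ := (fderiv ℝ F q (0, 1)).1 with hx₃
  set x₄ := (fderiv ℝ F q (0, 1)).2 with hx₄
  have hjd : ∀ a, jd F q a = (x₁ + a 1) * (x₄ + a 5) - (x₂ + a 4) * (x₃ + a 2) :=
    fun a => jd_eq hF q a
  set f : Aff → ℝ := fun a => x₁ + a 1 with hf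
  have hfc : Continuous f := by simp only [hf]; fun_prop
  set E₁ := Metric.closedBall (0 : Aff) ρ ∩ {c | |f c| ≤ s} with hE₁
  set E₂ := Metric.closedBall (0 : Aff) ρ ∩ ({c | s < |f c|} ∩ {c | |jd F q c| < s ^ 2})
    with hE₂
  have m₁ : MeasurableSet E₁ := Metric.isClosed_closedBall.measurableSet.inter
    (measurableSet_le hfc.abs.measurable measurable_const)
  have m₂ : MeasurableSet E₂ := Metric.isClosed_closedBall.measurableSet.inter
    ((measurableSet_lt measurable_const hfc.abs.measurable).inter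
      (measurableSet_lt (continuous_jd hF q).abs.measurable measurable_const))
  have hsub : Metric.closedBall (0 : Aff) ρ ∩ {c | |jd F q c| < s ^ 2} ⊆ E₁ ∪ E₂ := by
    rintro c ⟨h1, h2⟩
    by_cases h : |f c| ≤ s
    · exact Or.inl ⟨h1, h⟩
    · exact Or.inr ⟨h1, not_le.1 h, h2⟩
  have v₁ : volume E₁ ≤ ENNReal.ofReal (2 * s / β) *
      volume (Metric.closedBall (0 : Aff) (ρ + β)) := by
    refine volA_slice1 (Pi.single 1 1) (by simp [Pi.norm_single]) hβ m₁
      inter_subset_left ?_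
    intro c
    refine (measure_mono (t := Icc (-(f c) / β - s / β) (-(f c) / β + s / β)) ?_).trans ?_
    · rintro τ ⟨-, hτ⟩
      simp only [mem_ofPred_eq, hf] at hτ
      have e1 : x₁ + ((β * τ) • (Pi.single 1 1 : Aff) + c) 1 =
          β * τ + f c := by
        simp only [hf]
        simp
        ring
      rw [e1, abs_le] at hτ
      constructor
      · rw [← sub_div, div_le_iff₀ hβ]; linarith [hτ.1]
      · rw [← add_div, le_div_iff₀ hβ]; linarith [hτ.2]
    · rw [Real.volume_Icc]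
      apply ENNReal.ofReal_le_ofReal
      apply le_of_eq
      ring
  have v₂ : volume E₂ ≤ ENNReal.ofReal (2 * s / β) *
      volume (Metric.closedBall (0 : Aff) (ρ + β)) := by
    refine volA_slice1 (Pi.single 5 1) (by simp [Pi.norm_single]) hβ m₂
      inter_subset_left ?_
    intro c
    by_cases hac : s < |f c|
    · have ha0 : f c ≠ 0 := by
        intro h
        rw [h, abs_zero] at hac
        linarith
      set D := jd F q c with hD
      refine (measure_mono (t := Icc (-(D / f c) / β - s / β) (-(D / f c) / β + s / β)) ?_).trans ?_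
      · rintro τ ⟨-, -, hτ⟩
        simp only [mem_ofPred_eq] at hτ
        have h1 : jd F q ((β * τ) • (Pi.single 5 1 : Aff) + c) =
            f c * (β * τ) + D := by
          rw [hD, hjd, hjd]
          simp [hf]
          ring
        rw [h1] at hτ
        have h2 : |β * τ + D / f c| ≤ s := by
          have h3 : f c * (β * τ) + D = f c * (β * τ + D / f c) := by field_simp
          rw [h3, abs_mul] at hτ
          by_contra hcon
          push Not at hcon
          have : s * s < |f c| * |β * τ + D / f c| := mul_lt_mul'' hac hcon hs.le hs.le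
          nlinarith
        rw [abs_le] at h2
        constructor
        · rw [← sub_div, div_le_iff₀ hβ]; linarith [h2.1]
        · rw [← add_div, le_div_iff₀ hβ]; linarith [h2.2]
      · rw [Real.volume_Icc]
        apply ENNReal.ofReal_le_ofReal
        apply le_of_eq
        ring
    · have : {τ : ℝ | (β * τ) • (Pi.single 5 1 : Aff) + c ∈ E₂} = ∅ := by
        ext τ
        simp only [mem_ofPred_eq, mem_empty_iff_false, iff_false]
        rintro ⟨-, h1, -⟩
        apply hac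
        simp only [mem_ofPred_eq, hf] at h1
        simpa [hf] using h1
      rw [this, measure_empty]
      exact zero_le
  calc volume (Metric.closedBall (0 : Aff) ρ ∩ {c | |jd F q c| < s ^ 2})
      ≤ volume (E₁ ∪ E₂) := measure_mono hsub
    _ ≤ volume E₁ + volume E₂ := measure_union_le _ _
    _ ≤ ENNReal.ofReal (2 * s / β) * volume (Metric.closedBall (0 : Aff) (ρ + β)) +
        ENNReal.ofReal (2 * s / β) * volume (Metric.closedBall (0 : Aff) (ρ + β)) :=
        add_le_add v₁ v₂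
    _ = _ := by
        rw [← add_mul, ← ENNReal.ofReal_add (by positivity) (by positivity)]
        congr 2
        ring

end

end Pool.Agent.H709R2
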