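import Pool.Agent.H709R2.Smooth2

/-! Smoothed analysis: one cell, and summation over cells and scales. -/

open Real Set MeasureTheory Topology Filter
open scoped ENNReal

namespace Pool.Agent.H709R2

noncomputable section

/-- the ratio between consecutive scales -/
def th : ℝ := (1 / 2) ^ 16

lemma th_pos : 0 < th := by unfold th; positivity

lemma th_le_one : th ≤ 1 := by unfold th; norm_num

/-- constant -/
def CH : ℝ := 300 * 4 ^ 2 / th + 13000000 * 4 ^ 6 / th ^ 3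

/-- constant -/
def Ccell : ℝ := 576 * 46656 * (700000000 * 4 ^ 7 / th ^ 4 + 4 * π / th * (CH + 4))

lemma CH_pos : 0 < CH := by have := th_pos; unfold CH; positivity

lemma Ccell_pos : 0 < Ccell := by have := th_pos; have := CH_pos; unfold Ccell; positivity

theorem cellA {n : ℕ} {P Q : MvPolynomial (Fin 2) ℝ} (hP : P.totalDegree ≤ n)
    (hQ : Q.totalDegree ≤ n) {R : ℝ}
    (h1 : ∀ p, ‖p‖ ≤ R + 3 → ‖fderiv ℝ (field P Q) p‖ ≤ 2)
    (h2 : ∀ p q, ‖p‖ ≤ R + 3 → ‖q‖ ≤ R + 3 →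
      ‖fderiv ℝ (field P Q) p - fderiv ℝ (field P Q) q‖ ≤ 4 * ‖p - q‖)
    {β : ℝ} (hβ : 0 < β) (hβ1 : β ≤ 1) {s : ℝ} (hs : 0 < s) (hs1 : s ≤ 1) {q : ℝ × ℝ}
    (hq : ‖q‖ ≤ R + 1) :
    ∫⁻ a in Metric.closedBall (0 : Aff) β, ∫⁻ α in Ioo 0 π,
      cntA (field P Q) (sqr q (2 * s ^ 16)) (th * s ^ 16) (α, a) ≤
        ENNReal.ofReal (Ccell * (n + 1) * s * (s ^ 16) ^ 2 * β ^ 3) := by
  set F := field P Q with hFdef
  have hF : ContDiff ℝ 2 F := contDiff_field P Q
  have hθ := th_pos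
  have hθ1 := th_le_one
  have hH0 := CH_pos
  set C₁ : ℝ := 4 * π / th * (n + 1) with hC₁
  have hC₁0 : 0 ≤ C₁ := by positivity
  set C₂ : ℝ := 700000000 * 4 ^ 7 / th ^ 4 + C₁ * CH with hC₂
  have hC₂0 : 0 ≤ C₂ := by positivity
  set L := s ^ 16 with hL
  have hL0 : 0 < L := by positivity
  have hL1 : L ≤ 1 := pow_le_one₀ hs.le hs1
  set N : ℝ × Aff → ℝ≥0∞ := cntA F (sqr q (2 * L)) (th * L) with hN
  have hb1 : ∀ a, ∫⁻ α in Ioo 0 π, N (α, a) ≤ ENNReal.ofReal C₁ := by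
    intro a
    refine (boundA_one hP hQ a q (by positivity) (by positivity)).trans ?_
    apply ENNReal.ofReal_le_ofReal
    rw [hC₁]
    apply le_of_eq
    field_simp
    ring
  have hq3 : ‖q‖ ≤ R + 3 := by linarith
  have hp3 : ∀ p, ‖p - q‖ ≤ 2 * L → ‖p‖ ≤ R + 3 := by
    intro p hp
    calc ‖p‖ = ‖q + (p - q)‖ := by congr 1; abel
      _ ≤ ‖q‖ + ‖p - q‖ := norm_add_le _ _
      _ ≤ _ := by linarith
  have hpb : ∀ a ∈ Metric.closedBall (0 : Aff) β, ‖a‖ ≤ 1 := fun a ha =>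
    (mem_closedBall_zero_iff.1 ha).trans hβ1
  have hb2 : ∀ a ∈ Metric.closedBall (0 : Aff) β, 12 * L < ‖pert F a q‖ →
      ∫⁻ α in Ioo 0 π, N (α, a) = 0 := by
    intro a ha haq
    have : ∀ α, N (α, a) = 0 := by
      intro α
      simp only [hN, cntA]
      rw [cls_eq_empty (F := pert F a) (K := 4) (by norm_num) hL0
        (fun p hp => ((pert_bounds hF h1 h2 (hpb a ha) (hp3 p hp) hq3).2.2.1))
        (by linarith) α]
      simp
    simp [this]
  have hb3 : ∀ a ∈ Metric.closedBall (0 : Aff) β, ‖pert F a q‖ ≤ 12 * L → s ^ 2 ≤ |jd F q a| →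
      ∫⁻ α in Ioo 0 π, N (α, a) ≤ ENNReal.ofReal (C₂ * s) := by
    intro a ha haq hj
    by_cases hsH : s * CH ≤ 1
    · have hs14 : s ^ 14 ≤ s := by
        calc s ^ 14 ≤ s ^ 1 := pow_le_pow_of_le_one hs.le hs1 (by norm_num)
          _ = s := pow_one s
      have hs26 : s ^ 26 ≤ s := by
        calc s ^ 26 ≤ s ^ 1 := pow_le_pow_of_le_one hs.le hs1 (by norm_num)
          _ = s := pow_one s
      have k1 : 300 * 4 ^ 2 / th * s ≤ 1 := by
        refine le_trans ?_ hsH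
        rw [mul_comm s CH]
        unfold CH
        have : 0 ≤ 13000000 * 4 ^ 6 / th ^ 3 * s := by positivity
        nlinarith
      have k2 : 13000000 * 4 ^ 6 / th ^ 3 * s ≤ 1 := by
        refine le_trans ?_ hsH
        rw [mul_comm s CH]
        unfold CH
        have : 0 ≤ 300 * 4 ^ 2 / th * s := by positivity
        nlinarith
      have hc1 : 300 * 4 ^ 2 * L ≤ s ^ 2 * th := by
        rw [div_mul_eq_mul_div, div_le_iff₀ hθ, one_mul] at k1
        calc 300 * 4 ^ 2 * L = (300 * 4 ^ 2 * s ^ 14) * s ^ 2 := by rw [hL]; ring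
          _ ≤ (300 * 4 ^ 2 * s) * s ^ 2 := by gcongr
          _ ≤ th * s ^ 2 := by gcongr
          _ = _ := by ring
      have hc2 : 13000000 * 4 ^ 6 * L ^ 2 ≤ th ^ 3 * (s ^ 2) ^ 3 := by
        rw [div_mul_eq_mul_div, div_le_iff₀ (by positivity), one_mul] at k2
        calc 13000000 * 4 ^ 6 * L ^ 2 = (13000000 * 4 ^ 6 * s ^ 26) * s ^ 6 := by rw [hL]; ring
          _ ≤ (13000000 * 4 ^ 6 * s) * s ^ 6 := by gcongr
          _ ≤ th ^ 3 * s ^ 6 := by gcongr
          _ = _ := by ring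
      obtain ⟨g, hg1, hg2, hg3⟩ := cell_bound (contDiff_pert hF a) (q := q) (K := 4)
        (by norm_num) hL0 hL1 hθ hθ1
        (δ := s ^ 2) (by positivity) (pow_le_one₀ hs.le hs1)
        (fun p hp => (pert_bounds hF h1 h2 (hpb a ha) (hp3 p hp) hq3).2.2.2)
        (fun p hp => (pert_bounds hF h1 h2 (hpb a ha) (hp3 p hp) hq3).2.1)
        ((pert_bounds hF h1 h2 (hpb a ha) hq3 hq3).1) (by linarith) hj hc1 hc2
      calc ∫⁻ α in Ioo 0 π, N (α, a) ≤ ∫⁻ α in Ioo 0 π, g α :=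
            setLIntegral_mono' measurableSet_Ioo fun α hα => hg2 α hα
        _ ≤ ∫⁻ α, g α := setLIntegral_le_lintegral _ _
        _ ≤ _ := hg3
        _ ≤ _ := by
            apply ENNReal.ofReal_le_ofReal
            have e1 : 700000000 * 4 ^ 7 * L / (th ^ 4 * (s ^ 2) ^ 4) =
                700000000 * 4 ^ 7 / th ^ 4 * s ^ 8 := by
              rw [hL]; field_simp
            rw [e1, hC₂]
            have e2 : s ^ 8 ≤ s := by
              calc s ^ 8 ≤ s ^ 1 := pow_le_pow_of_le_one hs.le hs1 (by norm_num)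
                _ = s := pow_one s
            calc 700000000 * 4 ^ 7 / th ^ 4 * s ^ 8 ≤ 700000000 * 4 ^ 7 / th ^ 4 * s := by gcongr
              _ ≤ 700000000 * 4 ^ 7 / th ^ 4 * s + C₁ * CH * s := by
                  have : 0 ≤ C₁ * CH * s := by positivity
                  linarith
              _ = _ := by ring
    · refine (hb1 a).trans (ENNReal.ofReal_le_ofReal ?_)
      push Not at hsH
      rw [hC₂]
      calc C₁ = C₁ * 1 := (mul_one _).symm
        _ ≤ C₁ * (s * CH) := by gcongr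
        _ ≤ 700000000 * 4 ^ 7 / th ^ 4 * s + C₁ * CH * s := by
            have : 0 ≤ 700000000 * 4 ^ 7 / th ^ 4 * s := by positivity
            nlinarith
        _ = _ := by ring
  -- indicator majorant
  set A₁ : Set Aff := {a | ‖pert F a q‖ ≤ 12 * L} with hA₁
  set A₂ : Set Aff := {a | |jd F q a| < s ^ 2} with hA₂
  have mA₁ : MeasurableSet A₁ := measurableSet_le (continuous_pertq F q).norm.measurable
    measurable_const
  have mA₂ : MeasurableSet A₂ := measurableSet_lt (continuous_jd hF q).abs.measurable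
    measurable_const
  set B := Metric.closedBall (0 : Aff) β with hB
  have hmB : MeasurableSet B := Metric.isClosed_closedBall.measurableSet
  have hmaj : ∀ a ∈ B, ∫⁻ α in Ioo 0 π, N (α, a) ≤
      A₁.indicator (fun _ => ENNReal.ofReal (C₂ * s)) a +
        (A₁ ∩ A₂).indicator (fun _ => ENNReal.ofReal C₁) a := by
    intro a ha
    by_cases k1 : a ∈ A₁
    · by_cases k2 : a ∈ A₂
      · rw [indicator_of_mem (show a ∈ A₁ ∩ A₂ from ⟨k1, k2⟩)]
        exact (hb1 a).trans le_add_self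
      · rw [indicator_of_mem k1]
        refine (hb3 a ha k1 ?_).trans le_self_add
        simpa [hA₂] using k2
    · rw [hb2 a ha (not_le.1 k1)]
      exact zero_le
  have hvol1 : volume (B ∩ A₁) ≤ ENNReal.ofReal (576 * 46656 * L ^ 2 * β ^ 4) := by
    have k1 := volA_value (F := F) q (r := 12 * L) hβ (G := univ)
      MeasurableSet.univ (fun _ _ => by simp)
    rw [inter_univ, inter_univ] at k1
    refine k1.trans ?_
    rw [volume_ballA (by positivity), ← ENNReal.ofReal_mul (by positivity),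
      ← ENNReal.ofReal_mul (by positivity)]
    apply ENNReal.ofReal_le_ofReal
    have e1 : 2 * (12 * L) / β * (2 * (12 * L) / β) * (2 * (2 * β)) ^ 6 =
        576 * 4096 * L ^ 2 * β ^ 4 := by
      field_simp
      ring
    rw [e1]
    gcongr
    norm_num
  have hvol2 : volume (B ∩ (A₁ ∩ A₂)) ≤ ENNReal.ofReal (576 * 46656 * L ^ 2 * (4 * s) * β ^ 3) := by
    have hinv : ∀ (c : Aff) (τ : ℝ × ℝ), T0 τ + c ∈ A₂ ↔ c ∈ A₂ := by
      intro c τ
      simp only [hA₂, mem_ofPred_eq, jd]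
      rw [fderiv_pert hF, fderiv_pert hF, fderiv_pert hF, fderiv_pert hF, A1_T0_add, A2_T0_add]
    have k1 := volA_value (F := F) q (r := 12 * L) hβ (G := A₂) mA₂ hinv
    rw [inter_assoc] at k1
    refine k1.trans ?_
    have k3 := volA_jd hF q (ρ := 2 * β) hβ hs
    rw [show 2 * β + β = 3 * β by ring, volume_ballA (by positivity)] at k3
    calc ENNReal.ofReal (2 * (12 * L) / β) * ENNReal.ofReal (2 * (12 * L) / β) *
          volume (Metric.closedBall (0 : Aff) (2 * β) ∩ A₂)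
        ≤ ENNReal.ofReal (2 * (12 * L) / β) * ENNReal.ofReal (2 * (12 * L) / β) *
          (ENNReal.ofReal (4 * s / β) * ENNReal.ofReal ((2 * (3 * β)) ^ 6)) := by gcongr
      _ = _ := by
          rw [← ENNReal.ofReal_mul (by positivity), ← ENNReal.ofReal_mul (by positivity),
            ← ENNReal.ofReal_mul (by positivity)]
          congr 1
          field_simp
          ring
  calc ∫⁻ a in B, ∫⁻ α in Ioo 0 π, N (α, a)
      ≤ ∫⁻ a in B, (A₁.indicator (fun _ => ENNReal.ofReal (C₂ * s)) a +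
        (A₁ ∩ A₂).indicator (fun _ => ENNReal.ofReal C₁) a) := setLIntegral_mono' hmB hmaj
    _ = ENNReal.ofReal (C₂ * s) * volume (B ∩ A₁) +
        ENNReal.ofReal C₁ * volume (B ∩ (A₁ ∩ A₂)) := by
        rw [lintegral_add_left (measurable_const.indicator mA₁),
          lintegral_indicator mA₁, lintegral_indicator (mA₁.inter mA₂),
          setLIntegral_const, setLIntegral_const, Measure.restrict_apply mA₁,
          Measure.restrict_apply (mA₁.inter mA₂), inter_comm A₁, inter_comm (A₁ ∩ A₂)]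
    _ ≤ ENNReal.ofReal (C₂ * s) * ENNReal.ofReal (576 * 46656 * L ^ 2 * β ^ 4) +
        ENNReal.ofReal C₁ * ENNReal.ofReal (576 * 46656 * L ^ 2 * (4 * s) * β ^ 3) := by gcongr
    _ = ENNReal.ofReal (576 * 46656 * (C₂ * β + 4 * C₁) * s * L ^ 2 * β ^ 3) := by
        rw [← ENNReal.ofReal_mul (by positivity), ← ENNReal.ofReal_mul (by positivity),
          ← ENNReal.ofReal_add (by positivity) (by positivity)]
        congr 1
        ring
    _ ≤ _ := by
        apply ENNReal.ofReal_le_ofReal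
        have e1 : C₂ * β + 4 * C₁ ≤ (700000000 * 4 ^ 7 / th ^ 4 + 4 * π / th * (CH + 4)) *
            (n + 1) := by
          calc C₂ * β + 4 * C₁ ≤ C₂ * 1 + 4 * C₁ := by gcongr
            _ = 700000000 * 4 ^ 7 / th ^ 4 * 1 + 4 * π / th * (CH + 4) * (n + 1) := by
                rw [hC₂, hC₁]; ring
            _ ≤ 700000000 * 4 ^ 7 / th ^ 4 * (n + 1) + 4 * π / th * (CH + 4) * (n + 1) := by
                have : (1:ℝ) ≤ n + 1 := by linarith [(Nat.cast_nonneg n : (0:ℝ) ≤ n)]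
                gcongr
            _ = _ := by ring
        calc 576 * 46656 * (C₂ * β + 4 * C₁) * s * L ^ 2 * β ^ 3
            ≤ 576 * 46656 * ((700000000 * 4 ^ 7 / th ^ 4 + 4 * π / th * (CH + 4)) *
              (n + 1)) * s * L ^ 2 * β ^ 3 := by gcongr
          _ = _ := by unfold Ccell; ring

/-- **Smoothed analysis**, angles in `(0, π)` -/
theorem smooth_main {n : ℕ} {P Q : MvPolynomial (Fin 2) ℝ} (hP : P.totalDegree ≤ n)
    (hQ : Q.totalDegree ≤ n) {R : ℝ} (hR : 0 ≤ R)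
    (h1 : ∀ p, ‖p‖ ≤ R + 3 → ‖fderiv ℝ (field P Q) p‖ ≤ 2)
    (h2 : ∀ p q, ‖p‖ ≤ R + 3 → ‖q‖ ≤ R + 3 →
      ‖fderiv ℝ (field P Q) p - fderiv ℝ (field P Q) q‖ ≤ 4 * ‖p - q‖)
    {β : ℝ} (hβ : 0 < β) (hβ1 : β ≤ 1) :
    ∫⁻ a in Metric.closedBall (0 : Aff) β, ∫⁻ α in Ioo 0 π,
      cntA (field P Q) (sqr 0 R) 0 (α, a) ≤
        ENNReal.ofReal ((18 * Ccell + 128 * π) * (n + 1) * (R + 1) ^ 2 * β ^ 3) := by
  set F := field P Q with hFdef
  set B := Metric.closedBall (0 : Aff) β with hB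
  have hC0 := Ccell_pos
  have hΩ : ∀ (q : ℝ × ℝ) (r : ℝ), IsCompact (sqr q r) := fun q r =>
    isCompact_Icc.prod isCompact_Icc
  have hmeas : ∀ (q : ℝ × ℝ) (r d : ℝ), Measurable (cntA F (sqr q r) d) :=
    fun q r d => measurable_cntA hP hQ (hΩ q r) d
  have hmα : ∀ (q : ℝ × ℝ) (r d : ℝ) (a : Aff), Measurable fun α : ℝ => cntA F (sqr q r) d (α, a) :=
    fun q r d a => (hmeas q r d).comp (measurable_id.prodMk measurable_const)
  have hmI : ∀ (q : ℝ × ℝ) (r d : ℝ), Measurable fun a : Aff =>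
      ∫⁻ α in Ioo 0 π, cntA F (sqr q r) d (α, a) := fun q r d =>
    ((hmeas q r d).comp measurable_swap).lintegral_prod_right'
  have hpt : ∀ z : ℝ × Aff, cntA F (sqr 0 R) 0 z ≤ cntA F (sqr 0 R) 1 z +
      ∑' k : ℕ, ∑ y ∈ grid R k, cntA F (sqr (gp k y) (2 * (sc k) ^ 16)) (th * (sc k) ^ 16) z := by
    intro z
    unfold cntA
    refine (ENat.toENNReal_le.2 (Set.encard_le_encard (cls_cover _ hR))).trans ?_
    refine (encard_union_le' _ _).trans ?_
    gcongr
    refine (encard_le_tsum (s := ⋃ k : ℕ, ⋃ y ∈ grid R k,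
      Cls (fun p => rot z.1 (pert F z.2 p)) (sqr (gp k y) (2 * (sc k) ^ 16))
        ((1 / 2) ^ 16 * (sc k) ^ 16)) (subset_refl _)).trans ?_
    exact ENNReal.tsum_le_tsum fun k => encard_biUnion_le _ _
  have hinner : ∀ a : Aff, ∫⁻ α in Ioo 0 π, cntA F (sqr 0 R) 0 (α, a) ≤
      (∫⁻ α in Ioo 0 π, cntA F (sqr 0 R) 1 (α, a)) +
      ∑' k : ℕ, ∑ y ∈ grid R k, ∫⁻ α in Ioo 0 π,
        cntA F (sqr (gp k y) (2 * (sc k) ^ 16)) (th * (sc k) ^ 16) (α, a) := by
    intro a
    refine (lintegral_mono fun α => hpt (α, a)).trans ?_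
    rw [lintegral_add_left (hmα 0 R 1 a), lintegral_tsum (fun k =>
      (Finset.measurable_fun_sum _ (fun y _ => hmα _ _ _ a)).aemeasurable)]
    gcongr with k
    rw [lintegral_finsetSum _ (fun y _ => hmα _ _ _ a)]
  have hbig : ∫⁻ a in B, ∫⁻ α in Ioo 0 π, cntA F (sqr 0 R) 1 (α, a) ≤
      ENNReal.ofReal (128 * π * (n + 1) * (R + 1) ^ 2 * β ^ 3) := by
    calc ∫⁻ a in B, ∫⁻ α in Ioo 0 π, cntA F (sqr 0 R) 1 (α, a)
        ≤ ∫⁻ a in B, ENNReal.ofReal (2 * π * (n + 1) * R / 1) :=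
          lintegral_mono fun a => boundA_one hP hQ a 0 hR one_pos
      _ = ENNReal.ofReal (2 * π * (n + 1) * R / 1) * volume B := setLIntegral_const _ _
      _ ≤ _ := by
          rw [hB, volume_ballA hβ.le, ← ENNReal.ofReal_mul (by positivity)]
          apply ENNReal.ofReal_le_ofReal
          have e1 : R ≤ (R + 1) ^ 2 := by nlinarith
          have e2 : β ^ 6 ≤ β ^ 3 := pow_le_pow_of_le_one hβ.le hβ1 (by norm_num)
          calc 2 * π * (n + 1) * R / 1 * (2 * β) ^ 6 = 128 * π * (n + 1) * R * β ^ 6 := by ring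
            _ ≤ 128 * π * (n + 1) * (R + 1) ^ 2 * β ^ 3 := by gcongr
  have hsmall : ∫⁻ a in B, ∑' k : ℕ, ∑ y ∈ grid R k, ∫⁻ α in Ioo 0 π,
        cntA F (sqr (gp k y) (2 * (sc k) ^ 16)) (th * (sc k) ^ 16) (α, a) ≤
      ENNReal.ofReal (18 * Ccell * (n + 1) * (R + 1) ^ 2 * β ^ 3) := by
    rw [lintegral_tsum (fun k => (Finset.measurable_fun_sum _
      (fun y _ => hmI _ _ _)).aemeasurable)]
    have k1 : ∀ k : ℕ, ∫⁻ a in B, ∑ y ∈ grid R k, ∫⁻ α in Ioo 0 π,
        cntA F (sqr (gp k y) (2 * (sc k) ^ 16)) (th * (sc k) ^ 16) (α, a)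
        ≤ ENNReal.ofReal (9 * Ccell * (n + 1) * (R + 1) ^ 2 * β ^ 3) *
          ENNReal.ofReal ((1 / 2) ^ k) := by
      intro k
      rw [lintegral_finsetSum _ (fun y _ => hmI _ _ _)]
      calc ∑ y ∈ grid R k, ∫⁻ a in B, ∫⁻ α in Ioo 0 π,
            cntA F (sqr (gp k y) (2 * (sc k) ^ 16)) (th * (sc k) ^ 16) (α, a)
          ≤ ∑ y ∈ grid R k, ENNReal.ofReal (Ccell * (n + 1) * sc k * ((sc k) ^ 16) ^ 2 * β ^ 3) :=
            Finset.sum_le_sum fun y hy => cellA hP hQ h1 h2 hβ hβ1 (sc_pos k) (sc_le_one k)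
              (norm_gp hR k hy)
        _ = ENNReal.ofReal ((grid R k).card *
              (Ccell * (n + 1) * sc k * ((sc k) ^ 16) ^ 2 * β ^ 3)) := by
            rw [Finset.sum_const, nsmul_eq_mul, ENNReal.ofReal_mul (Nat.cast_nonneg _),
              ENNReal.ofReal_natCast]
        _ ≤ ENNReal.ofReal (9 * Ccell * (n + 1) * (R + 1) ^ 2 * β ^ 3 * (1 / 2) ^ k) := by
            apply ENNReal.ofReal_le_ofReal
            have e2 := card_grid hR k
            have e3 := (sc_pos k).le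
            calc ((grid R k).card : ℝ) * (Ccell * (n + 1) * sc k * ((sc k) ^ 16) ^ 2 * β ^ 3)
                = Ccell * (n + 1) * sc k * β ^ 3 * (((grid R k).card : ℝ) * ((sc k) ^ 16) ^ 2) := by
                  ring
              _ ≤ Ccell * (n + 1) * sc k * β ^ 3 * (2 * R + 3) ^ 2 := by gcongr
              _ ≤ Ccell * (n + 1) * sc k * β ^ 3 * (9 * (R + 1) ^ 2) := by
                  gcongr
                  nlinarith
              _ = _ := by unfold sc; ring
        _ = _ := ENNReal.ofReal_mul (by positivity)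
    calc ∑' k : ℕ, ∫⁻ a in B, ∑ y ∈ grid R k, ∫⁻ α in Ioo 0 π,
        cntA F (sqr (gp k y) (2 * (sc k) ^ 16)) (th * (sc k) ^ 16) (α, a)
        ≤ ∑' k : ℕ, ENNReal.ofReal (9 * Ccell * (n + 1) * (R + 1) ^ 2 * β ^ 3) *
          ENNReal.ofReal ((1 / 2) ^ k) := ENNReal.tsum_le_tsum k1
      _ = ENNReal.ofReal (9 * Ccell * (n + 1) * (R + 1) ^ 2 * β ^ 3) *
          ∑' k : ℕ, ENNReal.ofReal ((1 / 2) ^ k) := ENNReal.tsum_mul_left
      _ = ENNReal.ofReal (9 * Ccell * (n + 1) * (R + 1) ^ 2 * β ^ 3) * ENNReal.ofReal 2 := by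
          rw [← ENNReal.ofReal_tsum_of_nonneg (fun k => by positivity)
            (summable_geometric_of_lt_one (by norm_num) (by norm_num)), tsum_geometric_two]
      _ = _ := by
          rw [← ENNReal.ofReal_mul (by positivity)]
          congr 1
          ring
  calc ∫⁻ a in B, ∫⁻ α in Ioo 0 π, cntA F (sqr 0 R) 0 (α, a)
      ≤ ∫⁻ a in B, ((∫⁻ α in Ioo 0 π, cntA F (sqr 0 R) 1 (α, a)) +
        ∑' k : ℕ, ∑ y ∈ grid R k, ∫⁻ α in Ioo 0 π,
          cntA F (sqr (gp k y) (2 * (sc k) ^ 16)) (th * (sc k) ^ 16) (α, a)) :=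
        lintegral_mono fun a => hinner a
    _ = (∫⁻ a in B, ∫⁻ α in Ioo 0 π, cntA F (sqr 0 R) 1 (α, a)) +
        ∫⁻ a in B, ∑' k : ℕ, ∑ y ∈ grid R k, ∫⁻ α in Ioo 0 π,
          cntA F (sqr (gp k y) (2 * (sc k) ^ 16)) (th * (sc k) ^ 16) (α, a) :=
        lintegral_add_left (hmI 0 R 1) _
    _ ≤ ENNReal.ofReal (128 * π * (n + 1) * (R + 1) ^ 2 * β ^ 3) +
        ENNReal.ofReal (18 * Ccell * (n + 1) * (R + 1) ^ 2 * β ^ 3) := add_le_add hbig hsmall
    _ = _ := by
        rw [← ENNReal.ofReal_add (by positivity) (by positivity)]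
        congr 1
        ring

end

end Pool.Agent.H709R2
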