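import Pool.Agent.H709R2.Smooth3

/-! Smoothed analysis: small angles, polynomial hypotheses. -/

open Real Set MeasureTheory Topology Filter
open scoped ENNReal

namespace Pool.Agent.H709R2

noncomputable section

lemma closedOrbit_neg {V : ℝ × ℝ → ℝ × ℝ} {C : Set (ℝ × ℝ)} (h : ClosedOrbit V C) :
    ClosedOrbit (fun p => -V p) C := by
  obtain ⟨γ, T, hT, hγ, hper, ⟨s, t, hst⟩, rfl⟩ := h
  refine ⟨fun t => γ (-t), T, hT, ?_, ?_, ⟨-s, -t, by simpa using hst⟩, ?_⟩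
  · intro t
    have h1 := (hγ (-t)).scomp t (hasDerivAt_neg t)
    refine h1.congr_deriv ?_
    simp
  · intro t
    have h1 := hper (-(t + T))
    rw [show -(t + T) + T = -t by ring] at h1
    exact h1.symm
  · ext x
    constructor
    · rintro ⟨t, rfl⟩
      exact ⟨-t, by simp⟩
    · rintro ⟨t, rfl⟩
      exact ⟨-t, rfl⟩

lemma rot_add_pi (α : ℝ) (v : ℝ × ℝ) : rot (α + π) v = -rot α v := by
  unfold rot
  rw [Real.cos_add_pi, Real.sin_add_pi]
  ext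
  · simp; ring
  · simp; ring

lemma cntA_add_pi (F : ℝ × ℝ → ℝ × ℝ) (Ω : Set (ℝ × ℝ)) (d α : ℝ) (a : Aff) :
    cntA F Ω d (α + π, a) = cntA F Ω d (α, a) := by
  unfold cntA
  have : Cls (fun p => rot (α + π) (pert F a p)) Ω d = Cls (fun p => rot α (pert F a p)) Ω d := by
    ext C
    unfold Cls
    simp only [mem_ofPred_eq, rot_add_pi]
    constructor
    · rintro ⟨h1, h2, h3⟩
      refine ⟨?_, h2, h3⟩
      have := closedOrbit_neg h1
      simpa using this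
    · rintro ⟨h1, h2, h3⟩
      exact ⟨closedOrbit_neg h1, h2, h3⟩
  simp only [this]

/-- integration over a small interval of angles around zero -/
lemma lintegral_small_angle (F : ℝ × ℝ → ℝ × ℝ) (Ω : Set (ℝ × ℝ)) (d : ℝ) (a : Aff) {β : ℝ}
    (hβ : 0 < β) (hβ1 : β ≤ 1) :
    ∫⁻ α in Icc (-β) β, cntA F Ω d (α, a) ≤ 2 * ∫⁻ α in Ioo 0 π, cntA F Ω d (α, a) := by
  set f : ℝ → ℝ≥0∞ := fun α => cntA F Ω d (α, a) with hf
  have hπ := pi_gt_three
  have hsub : Icc (-β) β ⊆ (Icc (-β) 0) ∪ (Icc 0 β) := by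
    intro x hx
    rcases le_total x 0 with h | h
    · exact Or.inl ⟨hx.1, h⟩
    · exact Or.inr ⟨h, hx.2⟩
  have h1 : ∫⁻ α in Icc 0 β, f α ≤ ∫⁻ α in Ioo 0 π, f α := by
    rw [← restrict_Ioc_eq_restrict_Icc]
    refine lintegral_mono_set ?_
    intro x hx
    exact ⟨hx.1, by linarith [hx.2]⟩
  have h2 : ∫⁻ α in Icc (-β) 0, f α ≤ ∫⁻ α in Ioo 0 π, f α := by
    rw [← restrict_Ico_eq_restrict_Icc]
    have h3 : ∀ α, f α = f (α + π) := fun α => (cntA_add_pi F Ω d α a).symm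
    have h4 : ∫⁻ α in Ico (-β) 0, f α = ∫⁻ α in Ico (-β) 0, f (α + π) := by
      simp only [← h3]
    have h5 : ∫⁻ α in Ico (-β) 0, f (α + π) = ∫⁻ α in Ico (π - β) π, f α := by
      have h6 : MeasurableEmbedding (fun x : ℝ => x + π) := measurableEmbedding_addRight π
      have h7 := (measurePreserving_add_right (volume : Measure ℝ) π).setLIntegral_comp_preimage_emb
        h6 f (Ico (π - β) π)
      rw [← h7]
      congr 2
      ext x
      simp only [mem_Ico, mem_preimage]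
      constructor
      · rintro ⟨h8, h9⟩; exact ⟨by linarith, by linarith⟩
      · rintro ⟨h8, h9⟩; exact ⟨by linarith, by linarith⟩
    rw [h4, h5]
    refine lintegral_mono_set ?_
    intro x hx
    exact ⟨by linarith [hx.1], hx.2⟩
  calc ∫⁻ α in Icc (-β) β, f α ≤ ∫⁻ α in (Icc (-β) 0) ∪ (Icc 0 β), f α := lintegral_mono_set hsub
    _ ≤ (∫⁻ α in Icc (-β) 0, f α) + ∫⁻ α in Icc 0 β, f α := lintegral_union_le _ _ _
    _ ≤ (∫⁻ α in Ioo 0 π, f α) + ∫⁻ α in Ioo 0 π, f α := add_le_add h2 h1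
    _ = _ := (two_mul _).symm

/-- the parameter box -/
def Ubox (β : ℝ) : Set (ℝ × Aff) := {z | |z.1| ≤ β ∧ ∀ i, |z.2 i| ≤ β}

lemma Ubox_eq {β : ℝ} (hβ : 0 < β) : Ubox β = Icc (-β) β ×ˢ Metric.closedBall (0 : Aff) β := by
  ext z
  unfold Ubox
  rw [mem_prod, mem_closedBall_zero_iff, pi_norm_le_iff_of_nonneg hβ.le, mem_Icc, ← abs_le]
  rfl

theorem smooth_box {n : ℕ} {P Q : MvPolynomial (Fin 2) ℝ} (hP : P.totalDegree ≤ n)
    (hQ : Q.totalDegree ≤ n) {R : ℝ} (hR : 0 ≤ R)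
    (h1 : ∀ p, ‖p‖ ≤ R + 3 → ‖fderiv ℝ (field P Q) p‖ ≤ 2)
    (h2 : ∀ p q, ‖p‖ ≤ R + 3 → ‖q‖ ≤ R + 3 →
      ‖fderiv ℝ (field P Q) p - fderiv ℝ (field P Q) q‖ ≤ 4 * ‖p - q‖)
    {β : ℝ} (hβ : 0 < β) (hβ1 : β ≤ 1) :
    ∫⁻ z in Ubox β, cntA (field P Q) (sqr 0 R) 0 z ≤
      ENNReal.ofReal ((18 * Ccell + 128 * π) / 64 * (n + 1) * (R + 1) ^ 2 / β ^ 4) *
        volume (Ubox β) := by
  have hC0 := Ccell_pos
  have hm : Measurable (cntA (field P Q) (sqr 0 R) 0) :=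
    measurable_cntA hP hQ (isCompact_Icc.prod isCompact_Icc) 0
  have hvol : volume (Ubox β) = ENNReal.ofReal (128 * β ^ 7) := by
    rw [Ubox_eq hβ, Measure.volume_eq_prod, Measure.prod_prod, Real.volume_Icc,
      volume_ballA hβ.le, ← ENNReal.ofReal_mul (by linarith)]
    congr 1
    ring
  rw [hvol, ← ENNReal.ofReal_mul (by positivity)]
  rw [Ubox_eq hβ, Measure.volume_eq_prod, ← Measure.prod_restrict,
    lintegral_prod_symm _ hm.aemeasurable]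
  calc ∫⁻ a in Metric.closedBall (0 : Aff) β, ∫⁻ α in Icc (-β) β,
        cntA (field P Q) (sqr 0 R) 0 (α, a)
      ≤ ∫⁻ a in Metric.closedBall (0 : Aff) β, 2 * ∫⁻ α in Ioo 0 π,
        cntA (field P Q) (sqr 0 R) 0 (α, a) :=
        lintegral_mono fun a => lintegral_small_angle _ _ _ a hβ hβ1
    _ = 2 * ∫⁻ a in Metric.closedBall (0 : Aff) β, ∫⁻ α in Ioo 0 π,
        cntA (field P Q) (sqr 0 R) 0 (α, a) := lintegral_const_mul' _ _ (by norm_num)
    _ ≤ 2 * ENNReal.ofReal ((18 * Ccell + 128 * π) * (n + 1) * (R + 1) ^ 2 * β ^ 3) := by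
        gcongr
        exact smooth_main hP hQ hR h1 h2 hβ hβ1
    _ = _ := by
        rw [show (2 : ℝ≥0∞) = ENNReal.ofReal 2 by norm_num, ← ENNReal.ofReal_mul (by norm_num)]
        congr 1
        field_simp
        ring

/-- the derivative of a polynomial field through partial derivatives -/
lemma fderiv_field (P Q : MvPolynomial (Fin 2) ℝ) (p v : ℝ × ℝ) :
    fderiv ℝ (field P Q) p v =
      (MvPolynomial.eval ![p.1, p.2] (MvPolynomial.pderiv 0 P) * v.1 +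
        MvPolynomial.eval ![p.1, p.2] (MvPolynomial.pderiv 1 P) * v.2,
       MvPolynomial.eval ![p.1, p.2] (MvPolynomial.pderiv 0 Q) * v.1 +
        MvPolynomial.eval ![p.1, p.2] (MvPolynomial.pderiv 1 Q) * v.2) := by
  have h := (hasFDerivAt_eval P p).prodMk (hasFDerivAt_eval Q p)
  have h2 : HasFDerivAt (field P Q) _ p := h
  rw [h2.fderiv]
  simp

lemma eval_lip (G : MvPolynomial (Fin 2) ℝ) {R' : ℝ}
    (h : ∀ p : ℝ × ℝ, ‖p‖ ≤ R' → ∀ i, |MvPolynomial.eval ![p.1, p.2] (MvPolynomial.pderiv i G)| ≤ 1)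
    {p q : ℝ × ℝ} (hp : ‖p‖ ≤ R') (hq : ‖q‖ ≤ R') :
    |MvPolynomial.eval ![p.1, p.2] G - MvPolynomial.eval ![q.1, q.2] G| ≤ 2 * ‖p - q‖ := by
  have h1 := Convex.norm_image_sub_le_of_norm_hasFDerivWithin_le
    (f := fun p : ℝ × ℝ => MvPolynomial.eval ![p.1, p.2] G) (s := Metric.closedBall 0 R') (C := 2)
    (fun x _ => (hasFDerivAt_eval G x).hasFDerivWithinAt)
    (fun x hx => by
      have hx' := mem_closedBall_zero_iff.1 hx
      refine ContinuousLinearMap.opNorm_le_bound _ (by norm_num) fun v => ?_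
      simp only [add_apply, smul_apply,
        ContinuousLinearMap.coe_fst', ContinuousLinearMap.coe_snd', smul_eq_mul]
      refine (norm_add_le _ _).trans ?_
      rw [norm_mul, norm_mul]
      simp only [Real.norm_eq_abs]
      have e1 := h x hx' 0
      have e2 := h x hx' 1
      have e3 : |v.1| ≤ ‖v‖ := norm_fst_le v
      have e4 : |v.2| ≤ ‖v‖ := norm_snd_le v
      calc _ ≤ 1 * ‖v‖ + 1 * ‖v‖ := by gcongr
        _ = 2 * ‖v‖ := by ring)
    (convex_closedBall _ _) (mem_closedBall_zero_iff.2 hq) (mem_closedBall_zero_iff.2 hp)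
  exact h1

lemma field_D1 (P Q : MvPolynomial (Fin 2) ℝ) {R' : ℝ}
    (hP1 : ∀ p : ℝ × ℝ, ‖p‖ ≤ R' → ∀ i,
      |MvPolynomial.eval ![p.1, p.2] (MvPolynomial.pderiv i P)| ≤ 1)
    (hQ1 : ∀ p : ℝ × ℝ, ‖p‖ ≤ R' → ∀ i,
      |MvPolynomial.eval ![p.1, p.2] (MvPolynomial.pderiv i Q)| ≤ 1)
    {p : ℝ × ℝ} (hp : ‖p‖ ≤ R') : ‖fderiv ℝ (field P Q) p‖ ≤ 2 := by
  refine ContinuousLinearMap.opNorm_le_bound _ (by norm_num) fun v => ?_
  rw [fderiv_field, Prod.norm_def, max_le_iff]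
  have e3 := norm_fst_le v
  have e4 := norm_snd_le v
  constructor
  · refine (norm_add_le _ _).trans ?_
    rw [norm_mul, norm_mul]
    simp only [Real.norm_eq_abs] at *
    have e1 := hP1 p hp 0
    have e2 := hP1 p hp 1
    calc _ ≤ 1 * ‖v‖ + 1 * ‖v‖ := by gcongr
      _ = 2 * ‖v‖ := by ring
  · refine (norm_add_le _ _).trans ?_
    rw [norm_mul, norm_mul]
    simp only [Real.norm_eq_abs] at *
    have e1 := hQ1 p hp 0
    have e2 := hQ1 p hp 1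
    calc _ ≤ 1 * ‖v‖ + 1 * ‖v‖ := by gcongr
      _ = 2 * ‖v‖ := by ring

lemma field_D2 (P Q : MvPolynomial (Fin 2) ℝ) {R' : ℝ}
    (hP2 : ∀ p : ℝ × ℝ, ‖p‖ ≤ R' → ∀ i j,
      |MvPolynomial.eval ![p.1, p.2] (MvPolynomial.pderiv i (MvPolynomial.pderiv j P))| ≤ 1)
    (hQ2 : ∀ p : ℝ × ℝ, ‖p‖ ≤ R' → ∀ i j,
      |MvPolynomial.eval ![p.1, p.2] (MvPolynomial.pderiv i (MvPolynomial.pderiv j Q))| ≤ 1)
    {p q : ℝ × ℝ} (hp : ‖p‖ ≤ R') (hq : ‖q‖ ≤ R') :
    ‖fderiv ℝ (field P Q) p - fderiv ℝ (field P Q) q‖ ≤ 4 * ‖p - q‖ := by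
  refine ContinuousLinearMap.opNorm_le_bound _ (by positivity) fun v => ?_
  have hlip : ∀ (G : MvPolynomial (Fin 2) ℝ), (∀ p : ℝ × ℝ, ‖p‖ ≤ R' → ∀ i j,
      |MvPolynomial.eval ![p.1, p.2] (MvPolynomial.pderiv i (MvPolynomial.pderiv j G))| ≤ 1) →
      |(MvPolynomial.eval ![p.1, p.2] (MvPolynomial.pderiv 0 G) * v.1 +
        MvPolynomial.eval ![p.1, p.2] (MvPolynomial.pderiv 1 G) * v.2) -
        (MvPolynomial.eval ![q.1, q.2] (MvPolynomial.pderiv 0 G) * v.1 +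
        MvPolynomial.eval ![q.1, q.2] (MvPolynomial.pderiv 1 G) * v.2)| ≤
        4 * ‖p - q‖ * ‖v‖ := by
    intro G hG
    have e1 := eval_lip (MvPolynomial.pderiv 0 G) (fun p hp i => hG p hp i 0) hp hq
    have e2 := eval_lip (MvPolynomial.pderiv 1 G) (fun p hp i => hG p hp i 1) hp hq
    have e3 : |v.1| ≤ ‖v‖ := norm_fst_le v
    have e4 : |v.2| ≤ ‖v‖ := norm_snd_le v
    calc _ = |(MvPolynomial.eval ![p.1, p.2] (MvPolynomial.pderiv 0 G) -
          MvPolynomial.eval ![q.1, q.2] (MvPolynomial.pderiv 0 G)) * v.1 +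
          (MvPolynomial.eval ![p.1, p.2] (MvPolynomial.pderiv 1 G) -
          MvPolynomial.eval ![q.1, q.2] (MvPolynomial.pderiv 1 G)) * v.2| := by
          congr 1; ring
      _ ≤ 2 * ‖p - q‖ * ‖v‖ + 2 * ‖p - q‖ * ‖v‖ := by
          refine (abs_add_le _ _).trans ?_
          rw [abs_mul, abs_mul]
          gcongr
      _ = _ := by ring
  rw [sub_apply, fderiv_field, fderiv_field, Prod.norm_def, max_le_iff]
  exact ⟨hlip P hP2, hlip Q hQ2⟩

end

end Pool.Agent.H709R2
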