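import Pool.Agent.H709R2.Cut

/-! The averaged theorem for big closed orbits in a rectangle. -/

open Real Set MeasureTheory Topology Filter
open scoped ENNReal

namespace Pool.Agent.H709R2

noncomputable section

lemma dist_le_len {γ V : ℝ → ℝ × ℝ} (hγ : ∀ t, HasDerivAt γ (V t) t) (hV : Continuous V)
    {a b : ℝ} (hab : a ≤ b) : √(sq (γ b - γ a)) ≤ ∫ t in a..b, √(sq (V t)) := by
  set D := γ b - γ a with hD
  by_cases hD0 : sq D = 0
  · rw [hD0, Real.sqrt_zero]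
    exact intervalIntegral.integral_nonneg hab fun t _ => Real.sqrt_nonneg _
  have hDpos : 0 < sq D := lt_of_le_of_ne (by unfold sq; positivity) (Ne.symm hD0)
  have h1 : ∀ t, HasDerivAt (fun t => D.1 * (γ t).1 + D.2 * (γ t).2)
      (D.1 * (V t).1 + D.2 * (V t).2) t := by
    intro t
    have h11 := (ContinuousLinearMap.fst ℝ ℝ ℝ).hasFDerivAt.comp_hasDerivAt t (hγ t)
    have h12 := (ContinuousLinearMap.snd ℝ ℝ ℝ).hasFDerivAt.comp_hasDerivAt t (hγ t)
    exact (h11.const_mul D.1).add (h12.const_mul D.2)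
  have hc : Continuous fun t => D.1 * (V t).1 + D.2 * (V t).2 := by fun_prop
  have h2 : ∫ t in a..b, (D.1 * (V t).1 + D.2 * (V t).2) = sq D := by
    rw [intervalIntegral.integral_eq_sub_of_hasDerivAt (fun t _ => h1 t) (hc.intervalIntegrable _ _)]
    rw [hD]
    unfold sq
    simp only [Prod.fst_sub, Prod.snd_sub]
    ring
  have hcs : Continuous fun t => √(sq D) * √(sq (V t)) :=
    continuous_const.mul ((continuous_sq.comp hV).sqrt)
  have h3 : sq D ≤ √(sq D) * ∫ t in a..b, √(sq (V t)) := by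
    rw [← intervalIntegral.integral_const_mul]
    refine h2.symm.le.trans ?_
    refine intervalIntegral.integral_mono_on hab (hc.intervalIntegrable _ _)
      (hcs.intervalIntegrable _ _) fun t _ => ?_
    rw [← Real.sqrt_mul hDpos.le]
    apply Real.le_sqrt_of_sq_le
    unfold sq
    nlinarith [sq_nonneg (D.1 * (V t).2 - D.2 * (V t).1)]
  have h4 : √(sq D) * √(sq D) ≤ √(sq D) * ∫ t in a..b, √(sq (V t)) := by
    rw [Real.mul_self_sqrt hDpos.le]; exact h3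
  exact le_of_mul_le_mul_left h4 (Real.sqrt_pos.2 hDpos)

variable {X : ℝ × ℝ → ℝ × ℝ} {φ : ℝ → ℝ × ℝ → ℝ → ℝ × ℝ}

lemma RotFlow.continuous_orbit (hφ : RotFlow X φ) (p : ℝ × ℝ) (α : ℝ) :
    Continuous fun t => φ t p α :=
  continuous_iff_continuousAt.2 fun t => (hφ.deriv p α t).continuousAt

lemma wlen_winv_eq (hφ : RotFlow X φ) {α : ℝ} {p : ℝ × ℝ} {T : ℝ} (h : MinPer X φ α p T) :
    wlen X φ (winv X) α p T = ∫ t in (0:ℝ)..T, √(sq (rot α (X (φ t p α)))) := by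
  unfold wlen winv
  congr 1
  ext1 t
  rw [sq_rot]
  have h1 := sq_pos (hφ.ne_zero (α := α) h.ne t)
  have h2 := Real.sqrt_pos.2 h1
  rw [inv_mul_eq_div, div_eq_iff h2.ne', Real.mul_self_sqrt h1.le]

lemma len_ge (hφ : RotFlow X φ) (hX : Continuous X) {α : ℝ} {p : ℝ × ℝ} {T : ℝ}
    (h : MinPer X φ α p T)
    {q q' : ℝ × ℝ} (hq : q ∈ range (fun t => φ t p α)) (hq' : q' ∈ range (fun t => φ t p α)) :
    2 * √(sq (q - q')) ≤ wlen X φ (winv X) α p T := by
  obtain ⟨s, rfl⟩ := hq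
  obtain ⟨s', rfl⟩ := hq'
  simp only
  have hs := h.shift hφ s
  rw [← wlen_shift hφ h s, wlen_winv_eq hφ hs]
  set q := φ s p α with hqdef
  have hper : Function.Periodic (fun t => φ t q α) T := fun t => hφ.periodic hs.per t
  obtain ⟨u, hu, hu2⟩ := hper.exists_mem_Ico₀ hs.pos (s' - s)
  have hq' : φ s' p α = φ u q α := by
    rw [← hu2, hqdef, ← hφ.add, sub_add_cancel]
  rw [hq']
  have hd := hφ.deriv q α
  have hV : Continuous fun t => rot α (X (φ t q α)) :=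
    (continuous_rot α).comp (hX.comp (hφ.continuous_orbit q α))
  have hi : ∀ a b : ℝ, IntervalIntegrable (fun t => √(sq (rot α (X (φ t q α))))) volume a b :=
    fun a b => ((continuous_sq.comp hV).sqrt).intervalIntegrable _ _
  have h1 := dist_le_len hd hV hu.1
  have h2 := dist_le_len hd hV hu.2.le
  simp only [hφ.zero, hs.per] at h1 h2
  rw [← intervalIntegral.integral_add_adjacent_intervals (hi 0 u) (hi u T)]
  have h3 : sq (φ u q α - q) = sq (q - φ u q α) := by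
    unfold sq
    simp only [Prod.fst_sub, Prod.snd_sub]
    ring
  rw [h3] at h1
  linarith

/-- **Theorem A.** -/
theorem thmA {P Q : MvPolynomial (Fin 2) ℝ} {n : ℕ} (hP : P.totalDegree ≤ n)
    (hQ : Q.totalDegree ≤ n) (a b c e : ℝ) {d : ℝ} (hd : 0 < d) :
    ∃ g : ℝ → ℝ≥0∞, Measurable g ∧
      (∀ α ∈ Ioo 0 π, ({C : Set (ℝ × ℝ) | (∃ γ : ℝ → ℝ × ℝ, ∃ T : ℝ, 0 < T ∧
          (∀ t, HasDerivAt γ (rot α (field P Q (γ t))) t) ∧ (∀ t, γ (t + T) = γ t) ∧
          (∃ s t, γ s ≠ γ t) ∧ C = range γ) ∧ C ⊆ Icc a b ×ˢ Icc c e ∧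
          ∃ p ∈ C, ∃ q ∈ C, d ≤ √((p.1 - q.1) ^ 2 + (p.2 - q.2) ^ 2)}.encard : ℝ≥0∞) ≤ g α) ∧
      ∫⁻ α, g α ≤ ENNReal.ofReal (1 / (2 * d)) *
        (ENNReal.ofReal (n * π) * (ENNReal.ofReal (b - a) + ENNReal.ofReal (e - c))) := by
  set F := field P Q with hFdef
  have hF : ContDiff ℝ 2 F := contDiff_field P Q
  set Ω : Set (ℝ × ℝ) := Icc a b ×ˢ Icc c e with hΩdef
  have hΩc : IsCompact Ω := isCompact_Icc.prod isCompact_Icc
  obtain ⟨R, hR⟩ := hΩc.isBounded.exists_norm_le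
  obtain ⟨X, hX, ⟨K, hK⟩, ⟨M, hM⟩, hXF⟩ := exists_cutoff hF R
  obtain ⟨φ, hφ⟩ := exists_rotFlow hX hK hM
  set h : ℝ × ℝ → ℝ≥0∞ := fun p => ENNReal.ofReal
      (|wedge (F p) (fderiv ℝ F p (1, 0))| / sq (F p)) +
      ENNReal.ofReal (|wedge (F p) (fderiv ℝ F p (0, 1))| / sq (F p)) with hh
  have hhm : Measurable h := (measurable_kernel hF _).add (measurable_kernel hF _)
  have hw : ∀ p, X p ≠ 0 → ContDiffAt ℝ 1 (winv X) p := fun p hp => contDiffAt_winv hX hp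
  obtain ⟨g, hg1, hg2, hg3⟩ := master (w₁ := winv X) (w := winv X) (M := Ici (2 * d)) (ℓ := 2 * d)
    (Ω := Ω) hφ hX hw hw hΩc.isClosed measurableSet_Ici hhm (by positivity) (by
      intro α hα p T hmp hpΩ hlen
      refine ⟨hlen, ?_⟩
      have hp : p ∈ Ω := by
        have := hpΩ 0
        rwa [hφ.zero] at this
      have heq := hXF p (hR p hp)
      have h1 := abs_divW_winv_le hX hmp.ne α
      rw [heq.fderiv_eq, heq.eq_of_nhds] at h1
      simp only [hh]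
      rw [← ENNReal.ofReal_add (by unfold sq; positivity) (by unfold sq; positivity)]
      exact ENNReal.ofReal_le_ofReal h1)
  refine ⟨g, hg1, ?_, hg3.trans ?_⟩
  · intro α hα
    refine le_trans ?_ (hg2 α hα)
    have hsub : {C : Set (ℝ × ℝ) | (∃ γ : ℝ → ℝ × ℝ, ∃ T : ℝ, 0 < T ∧
          (∀ t, HasDerivAt γ (rot α (F (γ t))) t) ∧ (∀ t, γ (t + T) = γ t) ∧
          (∃ s t, γ s ≠ γ t) ∧ C = range γ) ∧ C ⊆ Ω ∧
          ∃ p ∈ C, ∃ q ∈ C, d ≤ √((p.1 - q.1) ^ 2 + (p.2 - q.2) ^ 2)} ⊆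
        {C | Good X φ (winv X) Ω (Ici (2 * d)) α C} := by
      rintro C ⟨⟨γ, T, hT, hγ, hper, hnc, rfl⟩, hCΩ, q, hq, q', hq', hdist⟩
      have hγ' : ∀ t, HasDerivAt γ (rot α (X (γ t))) t := by
        intro t
        rw [(hXF (γ t) (hR _ (hCΩ ⟨t, rfl⟩))).eq_of_nhds]
        exact hγ t
      obtain ⟨T₀, hmp, hrange⟩ := minPer_of_closed hφ hT hγ' hper hnc
      refine ⟨γ 0, T₀, hmp, hrange, hCΩ, ?_⟩
      rw [hrange] at hq hq'
      have h1 := len_ge hφ hX.continuous hmp hq hq'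
      rw [mem_Ici]
      refine le_trans ?_ h1
      unfold sq
      simp only [Prod.fst_sub, Prod.snd_sub]
      linarith
    exact ENat.toENNReal_le.2 (Set.encard_le_encard hsub)
  · gcongr
    exact lintegral_rect hP hQ a b c e

end

end Pool.Agent.H709R2
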