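import Pool.Agent.H709R2.IntE

/-! Volume of sets of coefficients with almost degenerate singular points. -/

open Real Set MeasureTheory Topology Filter
open scoped ENNReal

namespace Pool.Agent.H709R2

noncomputable section

variable {S : Finset (ℕ × ℕ)}

lemma fld_add (a b : S → ℝ × ℝ) (p : ℝ × ℝ) : fld (a + b) p = fld a p + fld b p := by
  unfold fld
  simp only [Pi.add_apply, smul_add, Finset.sum_add_distrib]

lemma fderiv_fld_add (a b : S → ℝ × ℝ) (p : ℝ × ℝ) :
    fderiv ℝ (fld (a + b)) p = fderiv ℝ (fld a) p + fderiv ℝ (fld b) p := by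
  have h : fld (a + b) = fun p => fld a p + fld b p := by
    ext1 p
    exact fld_add a b p
  rw [h]
  exact fderiv_add (((contDiff_fld a (m := 1)).differentiable (by norm_num)) p)
    (((contDiff_fld b (m := 1)).differentiable (by norm_num)) p)

lemma fld_single (m : S) (w : ℝ × ℝ) :
    fld (Pi.single m w) = fun p => (p.1 ^ m.1.1 * p.2 ^ m.1.2) • w := by
  ext1 p
  unfold fld
  rw [Finset.sum_eq_single m]
  · rw [Pi.single_eq_same]
  · intro k _ hk
    rw [Pi.single_eq_of_ne hk, smul_zero]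
  · intro h
    exact absurd (Finset.mem_univ m) h

lemma fderiv_single00 (h00 : (0, 0) ∈ S) (w q : ℝ × ℝ) :
    fderiv ℝ (fld (Pi.single (⟨(0, 0), h00⟩ : S) w)) q = 0 := by
  rw [fld_single]
  simp only [pow_zero, mul_one, one_smul]
  exact fderiv_const_apply w

lemma fderiv_single10 (h10 : (1, 0) ∈ S) (w q v : ℝ × ℝ) :
    fderiv ℝ (fld (Pi.single (⟨(1, 0), h10⟩ : S) w)) q v = v.1 • w := by
  rw [fld_single]
  simp only [pow_zero, mul_one, pow_one]
  have h1 : HasFDerivAt (fun p : ℝ × ℝ => p.1 • w)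
      ((ContinuousLinearMap.fst ℝ ℝ ℝ).smulRight w) q :=
    (ContinuousLinearMap.fst ℝ ℝ ℝ).hasFDerivAt.smul_const w
  rw [h1.fderiv]
  simp

lemma fderiv_single01 (h01 : (0, 1) ∈ S) (w q v : ℝ × ℝ) :
    fderiv ℝ (fld (Pi.single (⟨(0, 1), h01⟩ : S) w)) q v = v.2 • w := by
  rw [fld_single]
  simp only [pow_zero, one_mul, pow_one]
  have h1 : HasFDerivAt (fun p : ℝ × ℝ => p.2 • w)
      ((ContinuousLinearMap.snd ℝ ℝ ℝ).smulRight w) q :=
    (ContinuousLinearMap.snd ℝ ℝ ℝ).hasFDerivAt.smul_const w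
  rw [h1.fderiv]
  simp

/-- the Jacobian determinant at `q` -/
def jdet (c : S → ℝ × ℝ) (q : ℝ × ℝ) : ℝ :=
  wedge (fderiv ℝ (fld c) q (1, 0)) (fderiv ℝ (fld c) q (0, 1))

lemma continuous_fld_par (q : ℝ × ℝ) : Continuous fun c : S → ℝ × ℝ => fld c q :=
  (contDiff_joint (m := 0)).continuous.comp (continuous_id.prodMk continuous_const)

lemma continuous_fderiv_par (q v : ℝ × ℝ) :
    Continuous fun c : S → ℝ × ℝ => fderiv ℝ (fld c) q v := by
  have h1 : ∀ c : S → ℝ × ℝ, fderiv ℝ (fld c) q v =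
      fderiv ℝ (fun z : (S → ℝ × ℝ) × (ℝ × ℝ) => fld z.1 z.2) (c, q) (0, v) := by
    intro c
    have h2 : HasFDerivAt (fun p : ℝ × ℝ => ((c, p) : (S → ℝ × ℝ) × (ℝ × ℝ)))
        (ContinuousLinearMap.inr ℝ (S → ℝ × ℝ) (ℝ × ℝ)) q := hasFDerivAt_prodMk_right c q
    have h3 := ((((contDiff_joint (S := S) (m := 1)).differentiable (by norm_num))
      (c, q)).hasFDerivAt.comp q h2).fderiv
    have h4 : ((fun z : (S → ℝ × ℝ) × (ℝ × ℝ) => fld z.1 z.2) ∘ fun p : ℝ × ℝ => (c, p)) =
        fld c := rfl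
    rw [h4] at h3
    rw [h3]
    rfl
  simp only [h1]
  have h5 := (contDiff_joint (S := S) (m := 1)).continuous_fderiv (by norm_num)
  exact (h5.comp (continuous_id.prodMk continuous_const)).clm_apply continuous_const

lemma continuous_jdet (q : ℝ × ℝ) : Continuous fun c : S → ℝ × ℝ => jdet c q := by
  unfold jdet wedge
  have h1 := continuous_fderiv_par (S := S) q (1, 0)
  have h2 := continuous_fderiv_par (S := S) q (0, 1)
  fun_prop

lemma norm_single_le (m : S) (w : ℝ × ℝ) : ‖(Pi.single m w : S → ℝ × ℝ)‖ ≤ ‖w‖ := by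
  rw [pi_norm_le_iff_of_nonneg (norm_nonneg _)]
  intro k
  by_cases h : k = m
  · subst h; simp
  · rw [Pi.single_eq_of_ne h, norm_zero]; exact norm_nonneg _

lemma measurable_single (m : S) : Measurable fun w : ℝ × ℝ => (Pi.single m w : S → ℝ × ℝ) :=
  (continuous_single m).measurable

lemma norm_le_add' (x c : S → ℝ × ℝ) : ‖c‖ ≤ ‖x + c‖ + ‖x‖ := by
  have h : c = (x + c) - x := by abel
  calc ‖c‖ = ‖(x + c) - x‖ := by rw [← h]
    _ ≤ ‖x + c‖ + ‖x‖ := norm_sub_le _ _

/-- slicing in the constant coefficient -/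
lemma vol_fld (h00 : (0, 0) ∈ S) (q : ℝ × ℝ) {M r : ℝ} (hM : 0 ≤ M)
    {G : Set (S → ℝ × ℝ)} (hG : MeasurableSet G)
    (hinv : ∀ (c : S → ℝ × ℝ) (τ : ℝ × ℝ), Pi.single (⟨(0, 0), h00⟩ : S) τ + c ∈ G ↔ c ∈ G) :
    volume ((BM S M ∩ {c | ‖fld c q‖ ≤ r}) ∩ G) ≤
      (ENNReal.ofReal (2 * r) * ENNReal.ofReal (2 * r)) *
        volume (Metric.closedBall (0 : S → ℝ × ℝ) (M + 1) ∩ G) := by
  set m : S := ⟨(0, 0), h00⟩ with hm
  refine volume_le_slice (T := fun τ : ℝ × ℝ => (Pi.single m τ : S → ℝ × ℝ))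
    (ν := volume) (J := Icc (0:ℝ) 1 ×ˢ Icc (0:ℝ) 1) (measurable_single m)
    (measurableSet_Icc.prod measurableSet_Icc) ?_ ?_ ?_ ?_ ?_
  · rw [Measure.volume_eq_prod, Measure.prod_prod, Real.volume_Icc]
    simp
  · exact ((measurableSet_BM M).inter
      (measurableSet_le (continuous_fld_par q).norm.measurable measurable_const)).inter hG
  · exact Metric.isClosed_closedBall.measurableSet.inter hG
  · intro c τ hτ hc
    refine ⟨?_, (hinv c τ).1 hc.2⟩
    rw [mem_closedBall_zero_iff]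
    have h1 := norm_le_of_mem_BM hM hc.1.1
    have h2 : ‖(Pi.single m τ : S → ℝ × ℝ)‖ ≤ 1 := by
      refine (norm_single_le m τ).trans ?_
      rw [Prod.norm_def, max_le_iff, Real.norm_eq_abs, Real.norm_eq_abs, abs_le, abs_le]
      exact ⟨⟨by linarith [hτ.1.1], hτ.1.2⟩, by linarith [hτ.2.1], hτ.2.2⟩
    exact (norm_le_add' (Pi.single m τ : S → ℝ × ℝ) c).trans (add_le_add h1 h2)
  · intro c _
    refine (measure_mono (t := sqr (-(fld c q)) r) ?_).trans ?_
    · rintro τ ⟨-, hτ⟩
      rw [mem_sqr, sub_neg_eq_add]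
      have h1 := hτ.1.2
      simp only [mem_ofPred_eq] at h1
      rw [fld_add, fld_single] at h1
      simpa [hm] using h1
    · unfold sqr
      rw [Measure.volume_eq_prod, Measure.prod_prod, Real.volume_Icc, Real.volume_Icc]
      ring_nf
      exact le_rfl

/-- slicing in one real coordinate of one coefficient -/
lemma vol_slice1 (m : S) (w : ℝ × ℝ) (hw : ‖w‖ ≤ 1) {ρ : ℝ} {E : Set (S → ℝ × ℝ)}
    (hE : MeasurableSet E) (hEρ : E ⊆ Metric.closedBall 0 ρ) {β : ℝ≥0∞}
    (h : ∀ c, volume {τ : ℝ | (Pi.single m (τ • w) : S → ℝ × ℝ) + c ∈ E} ≤ β) :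
    volume E ≤ β * volume (Metric.closedBall (0 : S → ℝ × ℝ) (ρ + 1)) := by
  refine volume_le_slice (T := fun τ : ℝ => (Pi.single m (τ • w) : S → ℝ × ℝ))
    (ν := volume) (J := Icc (0:ℝ) 1)
    ((measurable_single m).comp (measurable_id.smul_const w)) measurableSet_Icc (by simp)
    hE Metric.isClosed_closedBall.measurableSet ?_ ?_
  · intro c τ hτ hc
    rw [mem_closedBall_zero_iff]
    have h1 := mem_closedBall_zero_iff.1 (hEρ hc)
    have h2 : ‖(Pi.single m (τ • w) : S → ℝ × ℝ)‖ ≤ 1 := by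
      refine (norm_single_le m _).trans ?_
      rw [norm_smul, Real.norm_eq_abs, abs_of_nonneg hτ.1]
      calc τ * ‖w‖ ≤ 1 * 1 := mul_le_mul hτ.2 hw (norm_nonneg _) (by norm_num)
        _ = 1 := by norm_num
    exact (norm_le_add' (Pi.single m (τ • w) : S → ℝ × ℝ) c).trans (add_le_add h1 h2)
  · intro c _
    exact (measure_mono inter_subset_right).trans (h c)

/-- volume of the coefficients with small Jacobian determinant at `q` -/
lemma vol_jdet (h10 : (1, 0) ∈ S) (h01 : (0, 1) ∈ S) (q : ℝ × ℝ) {ρ s : ℝ} (hs : 0 < s) :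
    volume (Metric.closedBall (0 : S → ℝ × ℝ) ρ ∩ {c | |jdet c q| < s ^ 2}) ≤
      ENNReal.ofReal (4 * s) * volume (Metric.closedBall (0 : S → ℝ × ℝ) (ρ + 1)) := by
  set a : (S → ℝ × ℝ) → ℝ := fun c => (fderiv ℝ (fld c) q (1, 0)).1 with ha
  have hac : Continuous a := continuous_fst.comp (continuous_fderiv_par q (1, 0))
  set E₁ := Metric.closedBall (0 : S → ℝ × ℝ) ρ ∩ {c | |a c| ≤ s} with hE₁
  set E₂ := Metric.closedBall (0 : S → ℝ × ℝ) ρ ∩ ({c | s < |a c|} ∩ {c | |jdet c q| < s ^ 2})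
    with hE₂
  have m₁ : MeasurableSet E₁ := Metric.isClosed_closedBall.measurableSet.inter
    (measurableSet_le hac.abs.measurable measurable_const)
  have m₂ : MeasurableSet E₂ := Metric.isClosed_closedBall.measurableSet.inter
    ((measurableSet_lt measurable_const hac.abs.measurable).inter
      (measurableSet_lt (continuous_jdet q).abs.measurable measurable_const))
  have hsub : Metric.closedBall (0 : S → ℝ × ℝ) ρ ∩ {c | |jdet c q| < s ^ 2} ⊆ E₁ ∪ E₂ := by
    rintro c ⟨h1, h2⟩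
    by_cases h : |a c| ≤ s
    · exact Or.inl ⟨h1, h⟩
    · exact Or.inr ⟨h1, not_le.1 h, h2⟩
  have v₁ : volume E₁ ≤ ENNReal.ofReal (2 * s) *
      volume (Metric.closedBall (0 : S → ℝ × ℝ) (ρ + 1)) := by
    refine vol_slice1 ⟨(1, 0), h10⟩ (1, 0) (by simp [Prod.norm_def]) m₁ inter_subset_left ?_
    intro c
    refine (measure_mono (t := Icc (-(a c) - s) (-(a c) + s)) ?_).trans ?_
    · rintro τ ⟨-, hτ⟩
      simp only [mem_ofPred_eq, ha] at hτ
      rw [fderiv_fld_add, _root_.add_apply, fderiv_single10] at hτ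
      simp only [Prod.fst_add, one_smul, Prod.smul_fst, smul_eq_mul, mul_one] at hτ
      rw [abs_le] at hτ
      simp only [ha]
      exact ⟨by linarith [hτ.1], by linarith [hτ.2]⟩
    · rw [Real.volume_Icc]
      apply ENNReal.ofReal_le_ofReal
      linarith
  have v₂ : volume E₂ ≤ ENNReal.ofReal (2 * s) *
      volume (Metric.closedBall (0 : S → ℝ × ℝ) (ρ + 1)) := by
    refine vol_slice1 ⟨(0, 1), h01⟩ (0, 1) (by simp [Prod.norm_def]) m₂ inter_subset_left ?_
    intro c
    by_cases hac : s < |a c|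
    · have ha0 : a c ≠ 0 := by
        intro h
        rw [h, abs_zero] at hac
        linarith
      set D := jdet c q with hD
      refine (measure_mono (t := Icc (-(D / a c) - s) (-(D / a c) + s)) ?_).trans ?_
      · rintro τ ⟨-, -, hτ⟩
        simp only [mem_ofPred_eq] at hτ
        have h1 : jdet ((Pi.single (⟨(0, 1), h01⟩ : S) (τ • ((0:ℝ), (1:ℝ))) : S → ℝ × ℝ) + c) q =
            a c * τ + D := by
          rw [hD]
          unfold jdet
          rw [fderiv_fld_add, _root_.add_apply, _root_.add_apply,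
            fderiv_single01, fderiv_single01]
          unfold wedge
          simp [ha]
          ring
        rw [h1] at hτ
        have h2 : |τ + D / a c| ≤ s := by
          have h3 : a c * τ + D = a c * (τ + D / a c) := by field_simp
          rw [h3, abs_mul] at hτ
          by_contra hcon
          push Not at hcon
          have : s * s < |a c| * |τ + D / a c| := mul_lt_mul'' hac hcon hs.le hs.le
          nlinarith
        rw [abs_le] at h2
        exact ⟨by linarith [h2.1], by linarith [h2.2]⟩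
      · rw [Real.volume_Icc]
        apply ENNReal.ofReal_le_ofReal
        linarith
    · have : {τ : ℝ | (Pi.single (⟨(0, 1), h01⟩ : S) (τ • ((0:ℝ), (1:ℝ))) : S → ℝ × ℝ) + c ∈
          E₂} = ∅ := by
        ext τ
        simp only [mem_ofPred_eq, mem_empty_iff_false, iff_false]
        rintro ⟨-, h1, -⟩
        apply hac
        simp only [mem_ofPred_eq, ha] at h1
        rw [fderiv_fld_add, _root_.add_apply, fderiv_single01] at h1
        simpa [ha] using h1
      rw [this, measure_empty]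
      exact zero_le
  calc volume (Metric.closedBall (0 : S → ℝ × ℝ) ρ ∩ {c | |jdet c q| < s ^ 2})
      ≤ volume (E₁ ∪ E₂) := measure_mono hsub
    _ ≤ volume E₁ + volume E₂ := measure_union_le _ _
    _ ≤ ENNReal.ofReal (2 * s) * volume (Metric.closedBall (0 : S → ℝ × ℝ) (ρ + 1)) +
        ENNReal.ofReal (2 * s) * volume (Metric.closedBall (0 : S → ℝ × ℝ) (ρ + 1)) :=
        add_le_add v₁ v₂
    _ = _ := by
        rw [← add_mul, ← ENNReal.ofReal_add (by positivity) (by positivity)]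
        ring_nf

end

end Pool.Agent.H709R2
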