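import Pool.Agent.H709R2.WUnif

/-! Tiny cells with explicit constants. -/

open Real Set MeasureTheory Topology Filter
open scoped ENNReal

namespace Pool.Agent.H709R2

noncomputable section

variable {S : Finset (ℕ × ℕ)}

/-- one tiny cell, with explicit dependence on the derivative bounds -/
theorem cell_integral_K (S : Finset (ℕ × ℕ)) (h00 : (0, 0) ∈ S) (h10 : (1, 0) ∈ S)
    (h01 : (0, 1) ∈ S) {M θ : ℝ} (hM : 0 ≤ M) (hθ : 0 < θ) (hθ1 : θ ≤ 1) :
    ∃ A : ℝ, 0 ≤ A ∧ ∀ K : ℝ, 1 ≤ K → ∀ s : ℝ, 0 < s → s ≤ 1 → ∀ q : ℝ × ℝ,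
      (∀ c : S → ℝ × ℝ, ‖c‖ ≤ M → ∀ p : ℝ × ℝ, ‖p - q‖ ≤ 2 →
        ‖fderiv ℝ (fld c) q‖ ≤ K ∧
        ‖fderiv ℝ (fld c) p - fderiv ℝ (fld c) q‖ ≤ K * ‖p - q‖ ∧
        ‖fld c p - fld c q‖ ≤ K * ‖p - q‖ ∧
        ‖fld c p - fld c q - fderiv ℝ (fld c) q (p - q)‖ ≤ K * ‖p - q‖ ^ 2) →
      ∫⁻ c in BM S M, ((Cls (fld c) (sqr q (2 * s ^ 16)) (θ * s ^ 16)).encard : ℝ≥0∞) ≤
        ENNReal.ofReal (A * K ^ 9 * s * (s ^ 16) ^ 2) := by
  set n : ℕ := S.sup (fun m => m.1 + m.2) with hn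
  set C₁ : ℝ := 4 * π * n / θ with hC₁
  have hC₁0 : 0 ≤ C₁ := by positivity
  set v : ℝ≥0∞ := volume (Metric.closedBall (0 : S → ℝ × ℝ) (M + 2)) with hv
  have hvfin : v ≠ ⊤ := (isCompact_closedBall _ _).measure_lt_top.ne
  have hvr : v = ENNReal.ofReal v.toReal := (ENNReal.ofReal_toReal hvfin).symm
  set V := v.toReal with hV
  have hV0 : 0 ≤ V := ENNReal.toReal_nonneg
  refine ⟨36 * V * (700000000 / θ ^ 4 + C₁ * (300 / θ + 13000000 / θ ^ 3) + 4 * C₁),
    by positivity, fun K hK1 s hs hs1 q hK => ?_⟩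
  have hK0 : 0 < K := by linarith
  set H : ℝ := 300 * K ^ 2 / θ + 13000000 * K ^ 6 / θ ^ 3 with hH
  have hH0 : 0 < H := by positivity
  set C₂ : ℝ := 700000000 * K ^ 7 / θ ^ 4 + C₁ * H with hC₂
  have hC₂0 : 0 ≤ C₂ := by positivity
  set L := s ^ 16 with hL
  have hL0 : 0 < L := by positivity
  have hL1 : L ≤ 1 := pow_le_one₀ hs.le hs1
  set N : (S → ℝ × ℝ) → ℝ≥0∞ := fun c => ((Cls (fld c) (sqr q (2 * L)) (θ * L)).encard : ℝ≥0∞)
    with hN
  have hΩ : IsCompact (sqr q (2 * L)) := isCompact_Icc.prod isCompact_Icc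
  have hNm : Measurable N := measurable_count hΩ _
  -- the three bounds
  have hb1 : ∀ c, ∫⁻ α in Ioo 0 π, N (rotc α c) ≤ ENNReal.ofReal C₁ := by
    intro c
    refine (bound_one S c q (by positivity) (by positivity)).trans ?_
    apply ENNReal.ofReal_le_ofReal
    rw [hC₁, ← hn]
    apply le_of_eq
    field_simp
    ring
  have hp3 : ∀ p, ‖p - q‖ ≤ 2 * L → ‖p - q‖ ≤ 2 := by
    intro p hp
    linarith
  have hrotN : ∀ α c, N (rotc α c) =
      ((Cls (fun p => rot α (fld c p)) (sqr q (2 * L)) (θ * L)).encard : ℝ≥0∞) := by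
    intro α c
    simp only [hN]
    have : fld (rotc α c) = fun p => rot α (fld c p) := by
      ext1 p
      exact (rot_fld α c p).symm
    rw [this]
  have hb2 : ∀ c ∈ BM S M, 3 * K * L < ‖fld c q‖ → ∫⁻ α in Ioo 0 π, N (rotc α c) = 0 := by
    intro c hc hcq
    have hcM := norm_le_of_mem_BM hM hc
    have : ∀ α, N (rotc α c) = 0 := by
      intro α
      rw [hrotN, cls_eq_empty hK0.le hL0
        (fun p hp => ((hK c hcM p (hp3 p hp)).2.2.1)) hcq α]
      simp
    simp [this]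
  have hb3 : ∀ c ∈ BM S M, ‖fld c q‖ ≤ 3 * K * L → s ^ 2 ≤ |jdet c q| →
      ∫⁻ α in Ioo 0 π, N (rotc α c) ≤ ENNReal.ofReal (C₂ * s) := by
    intro c hc hcq hj
    have hcM := norm_le_of_mem_BM hM hc
    by_cases hsH : s * H ≤ 1
    · have hs14 : s ^ 14 ≤ s := by
        calc s ^ 14 ≤ s ^ 1 := pow_le_pow_of_le_one hs.le hs1 (by norm_num)
          _ = s := pow_one s
      have hs26 : s ^ 26 ≤ s := by
        calc s ^ 26 ≤ s ^ 1 := pow_le_pow_of_le_one hs.le hs1 (by norm_num)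
          _ = s := pow_one s
      have k1 : 300 * K ^ 2 / θ * s ≤ 1 := by
        refine le_trans ?_ hsH
        rw [mul_comm s H, hH]
        have : 0 ≤ 13000000 * K ^ 6 / θ ^ 3 * s := by positivity
        nlinarith
      have k2 : 13000000 * K ^ 6 / θ ^ 3 * s ≤ 1 := by
        refine le_trans ?_ hsH
        rw [mul_comm s H, hH]
        have : 0 ≤ 300 * K ^ 2 / θ * s := by positivity
        nlinarith
      have hc1 : 300 * K ^ 2 * L ≤ s ^ 2 * θ := by
        rw [div_mul_eq_mul_div, div_le_iff₀ hθ, one_mul] at k1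
        calc 300 * K ^ 2 * L = (300 * K ^ 2 * s ^ 14) * s ^ 2 := by rw [hL]; ring
          _ ≤ (300 * K ^ 2 * s) * s ^ 2 := by gcongr
          _ ≤ θ * s ^ 2 := by gcongr
          _ = _ := by ring
      have hc2 : 13000000 * K ^ 6 * L ^ 2 ≤ θ ^ 3 * (s ^ 2) ^ 3 := by
        rw [div_mul_eq_mul_div, div_le_iff₀ (by positivity), one_mul] at k2
        calc 13000000 * K ^ 6 * L ^ 2 = (13000000 * K ^ 6 * s ^ 26) * s ^ 6 := by rw [hL]; ring
          _ ≤ (13000000 * K ^ 6 * s) * s ^ 6 := by gcongr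
          _ ≤ θ ^ 3 * s ^ 6 := by gcongr
          _ = _ := by ring
      obtain ⟨g, hg1, hg2, hg3⟩ := cell_bound (contDiff_fld c) (q := q) (K := K) hK1 hL0 hL1 hθ hθ1
        (δ := s ^ 2) (by positivity) (pow_le_one₀ hs.le hs1)
        (fun p hp => (hK c hcM p (hp3 p hp)).2.2.2)
        (fun p hp => (hK c hcM p (hp3 p hp)).2.1)
        ((hK c hcM q (by simp)).1) hcq hj hc1 hc2
      calc ∫⁻ α in Ioo 0 π, N (rotc α c) ≤ ∫⁻ α in Ioo 0 π, g α := by
            refine setLIntegral_mono' measurableSet_Ioo fun α hα => ?_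
            rw [hrotN]
            exact hg2 α hα
        _ ≤ ∫⁻ α, g α := setLIntegral_le_lintegral _ _
        _ ≤ _ := hg3
        _ ≤ _ := by
            apply ENNReal.ofReal_le_ofReal
            have e1 : 700000000 * K ^ 7 * L / (θ ^ 4 * (s ^ 2) ^ 4) =
                700000000 * K ^ 7 / θ ^ 4 * s ^ 8 := by
              rw [hL]; field_simp
            rw [e1, hC₂]
            have e2 : s ^ 8 ≤ s := by
              calc s ^ 8 ≤ s ^ 1 := pow_le_pow_of_le_one hs.le hs1 (by norm_num)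
                _ = s := pow_one s
            calc 700000000 * K ^ 7 / θ ^ 4 * s ^ 8 ≤ 700000000 * K ^ 7 / θ ^ 4 * s := by gcongr
              _ ≤ 700000000 * K ^ 7 / θ ^ 4 * s + C₁ * H * s := by
                  have : 0 ≤ C₁ * H * s := by positivity
                  linarith
              _ = _ := by ring
    · refine (hb1 c).trans (ENNReal.ofReal_le_ofReal ?_)
      push Not at hsH
      rw [hC₂]
      calc C₁ = C₁ * 1 := (mul_one _).symm
        _ ≤ C₁ * (s * H) := by gcongr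
        _ ≤ 700000000 * K ^ 7 / θ ^ 4 * s + C₁ * H * s := by
            have : 0 ≤ 700000000 * K ^ 7 / θ ^ 4 * s := by positivity
            nlinarith
        _ = _ := by ring
  -- indicator majorant
  set A₁ : Set (S → ℝ × ℝ) := {c | ‖fld c q‖ ≤ 3 * K * L} with hA₁
  set A₂ : Set (S → ℝ × ℝ) := {c | |jdet c q| < s ^ 2} with hA₂
  have mA₁ : MeasurableSet A₁ := measurableSet_le (continuous_fld_par q).norm.measurable
    measurable_const
  have mA₂ : MeasurableSet A₂ := measurableSet_lt (continuous_jdet q).abs.measurable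
    measurable_const
  have hmaj : ∀ c ∈ BM S M, ∫⁻ α in Ioo 0 π, N (rotc α c) ≤
      A₁.indicator (fun _ => ENNReal.ofReal (C₂ * s)) c +
        (A₁ ∩ A₂).indicator (fun _ => ENNReal.ofReal C₁) c := by
    intro c hc
    by_cases h1 : c ∈ A₁
    · by_cases h2 : c ∈ A₂
      · rw [indicator_of_mem (show c ∈ A₁ ∩ A₂ from ⟨h1, h2⟩)]
        exact (hb1 c).trans le_add_self
      · rw [indicator_of_mem h1]
        refine (hb3 c hc h1 ?_).trans le_self_add
        simpa [hA₂] using h2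
    · rw [hb2 c hc (not_le.1 h1)]
      exact zero_le
  have hvol1 : volume (BM S M ∩ A₁) ≤ ENNReal.ofReal (36 * K ^ 2 * L ^ 2 * V) := by
    have h1 := vol_fld (S := S) h00 q (M := M) (r := 3 * K * L) hM (G := univ)
      MeasurableSet.univ (fun _ _ => by simp)
    rw [inter_univ, inter_univ] at h1
    refine h1.trans ?_
    have h2 : volume (Metric.closedBall (0 : S → ℝ × ℝ) (M + 1)) ≤ v :=
      measure_mono (Metric.closedBall_subset_closedBall (by linarith))
    calc ENNReal.ofReal (2 * (3 * K * L)) * ENNReal.ofReal (2 * (3 * K * L)) *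
          volume (Metric.closedBall (0 : S → ℝ × ℝ) (M + 1))
        ≤ ENNReal.ofReal (2 * (3 * K * L)) * ENNReal.ofReal (2 * (3 * K * L)) *
          ENNReal.ofReal V := by rw [← hvr]; gcongr
      _ = _ := by
          rw [← ENNReal.ofReal_mul (by positivity), ← ENNReal.ofReal_mul (by positivity)]
          congr 1
          ring
  have hvol2 : volume (BM S M ∩ (A₁ ∩ A₂)) ≤ ENNReal.ofReal (36 * K ^ 2 * L ^ 2 * (4 * s) * V) := by
    have hinv : ∀ (c : S → ℝ × ℝ) (τ : ℝ × ℝ),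
        Pi.single (⟨(0, 0), h00⟩ : S) τ + c ∈ A₂ ↔ c ∈ A₂ := by
      intro c τ
      simp only [hA₂, mem_ofPred_eq, jdet]
      rw [fderiv_fld_add, fderiv_single00, zero_add]
    have h1 := vol_fld (S := S) h00 q (M := M) (r := 3 * K * L) hM (G := A₂) mA₂ hinv
    rw [inter_assoc] at h1
    refine h1.trans ?_
    have h3 := vol_jdet (S := S) h10 h01 q (ρ := M + 1) (s := s) hs
    rw [show M + 1 + 1 = M + 2 by ring] at h3
    calc ENNReal.ofReal (2 * (3 * K * L)) * ENNReal.ofReal (2 * (3 * K * L)) *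
          volume (Metric.closedBall (0 : S → ℝ × ℝ) (M + 1) ∩ A₂)
        ≤ ENNReal.ofReal (2 * (3 * K * L)) * ENNReal.ofReal (2 * (3 * K * L)) *
          (ENNReal.ofReal (4 * s) * ENNReal.ofReal V) := by rw [← hvr]; gcongr
      _ = _ := by
          rw [← ENNReal.ofReal_mul (by positivity), ← ENNReal.ofReal_mul (by positivity),
            ← ENNReal.ofReal_mul (by positivity)]
          congr 1
          ring
  have hmB := measurableSet_BM (S := S) M
  calc ∫⁻ c in BM S M, N c = 1 * ∫⁻ c in BM S M, N c := (one_mul _).symm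
    _ ≤ ENNReal.ofReal π * ∫⁻ c in BM S M, N c := by
        gcongr
        rw [ENNReal.one_le_ofReal]
        linarith [pi_gt_three]
    _ = ∫⁻ c in BM S M, ∫⁻ α in Ioo 0 π, N (rotc α c) := lintegral_rot hNm M
    _ ≤ ∫⁻ c in BM S M, (A₁.indicator (fun _ => ENNReal.ofReal (C₂ * s)) c +
        (A₁ ∩ A₂).indicator (fun _ => ENNReal.ofReal C₁) c) := setLIntegral_mono' hmB hmaj
    _ = ENNReal.ofReal (C₂ * s) * volume (BM S M ∩ A₁) +
        ENNReal.ofReal C₁ * volume (BM S M ∩ (A₁ ∩ A₂)) := by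
        rw [lintegral_add_left (measurable_const.indicator mA₁),
          lintegral_indicator mA₁, lintegral_indicator (mA₁.inter mA₂),
          setLIntegral_const, setLIntegral_const, Measure.restrict_apply mA₁,
          Measure.restrict_apply (mA₁.inter mA₂), inter_comm A₁, inter_comm (A₁ ∩ A₂)]
    _ ≤ ENNReal.ofReal (C₂ * s) * ENNReal.ofReal (36 * K ^ 2 * L ^ 2 * V) +
        ENNReal.ofReal C₁ * ENNReal.ofReal (36 * K ^ 2 * L ^ 2 * (4 * s) * V) := by gcongr
    _ ≤ _ := by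
        rw [← ENNReal.ofReal_mul (by positivity), ← ENNReal.ofReal_mul (by positivity),
          ← ENNReal.ofReal_add (by positivity) (by positivity)]
        apply ENNReal.ofReal_le_ofReal
        have e1 : K ^ 2 * C₂ ≤ K ^ 9 * (700000000 / θ ^ 4 +
            C₁ * (300 / θ + 13000000 / θ ^ 3)) := by
          have e2 : H ≤ K ^ 6 * (300 / θ + 13000000 / θ ^ 3) := by
            rw [hH]
            have e3 : K ^ 2 ≤ K ^ 6 := pow_le_pow_right₀ hK1 (by norm_num)
            calc 300 * K ^ 2 / θ + 13000000 * K ^ 6 / θ ^ 3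
                ≤ 300 * K ^ 6 / θ + 13000000 * K ^ 6 / θ ^ 3 := by gcongr
              _ = _ := by ring
          have e4 : K ^ 8 ≤ K ^ 9 := pow_le_pow_right₀ hK1 (by norm_num)
          calc K ^ 2 * C₂ ≤ K ^ 2 * (700000000 * K ^ 7 / θ ^ 4 +
                C₁ * (K ^ 6 * (300 / θ + 13000000 / θ ^ 3))) := by rw [hC₂]; gcongr
            _ = K ^ 9 * (700000000 / θ ^ 4) + K ^ 8 * (C₁ * (300 / θ + 13000000 / θ ^ 3)) := by
                ring
            _ ≤ K ^ 9 * (700000000 / θ ^ 4) + K ^ 9 * (C₁ * (300 / θ + 13000000 / θ ^ 3)) := by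
                gcongr
            _ = _ := by ring
        have e5 : K ^ 2 * C₁ ≤ K ^ 9 * C₁ := by
          have : K ^ 2 ≤ K ^ 9 := pow_le_pow_right₀ hK1 (by norm_num)
          gcongr
        calc C₂ * s * (36 * K ^ 2 * L ^ 2 * V) + C₁ * (36 * K ^ 2 * L ^ 2 * (4 * s) * V)
            = 36 * V * s * L ^ 2 * (K ^ 2 * C₂ + 4 * (K ^ 2 * C₁)) := by ring
          _ ≤ 36 * V * s * L ^ 2 * (K ^ 9 * (700000000 / θ ^ 4 +
            C₁ * (300 / θ + 13000000 / θ ^ 3)) + 4 * (K ^ 9 * C₁)) := by gcongr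
          _ = _ := by ring

end

end Pool.Agent.H709R2
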