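import Pool.Agent.H709R2.WThin

/-! Integral of the number of closed orbits in a cell far from the origin. -/

open Real Set MeasureTheory Topology Filter
open scoped ENNReal

namespace Pool.Agent.H709R2

noncomputable section

variable {S : Finset (ℕ × ℕ)}

lemma gfl_add (e : S → ℕ × ℕ) (a b : S → ℝ × ℝ) (p : ℝ × ℝ) :
    gfl e (a + b) p = gfl e a p + gfl e b p := by
  unfold gfl
  simp only [Pi.add_apply, smul_add, Finset.sum_add_distrib]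

lemma gfl_single (e : S → ℕ × ℕ) (m : S) (hm : e m = (0, 0)) (w : ℝ × ℝ) (p : ℝ × ℝ) :
    gfl e (Pi.single m w) p = w := by
  unfold gfl
  rw [Finset.sum_eq_single m]
  · rw [Pi.single_eq_same, hm]; simp
  · intro k _ hk
    rw [Pi.single_eq_of_ne hk, smul_zero]
  · intro h
    exact absurd (Finset.mem_univ m) h

lemma fderiv_gfl_shift (e : S → ℕ × ℕ) (m : S) (hm : e m = (0, 0)) (w : ℝ × ℝ)
    (c : S → ℝ × ℝ) (p : ℝ × ℝ) :
    fderiv ℝ (gfl e ((Pi.single m w : S → ℝ × ℝ) + c)) p = fderiv ℝ (gfl e c) p := by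
  have h : gfl e ((Pi.single m w : S → ℝ × ℝ) + c) = fun p => w + gfl e c p := by
    ext1 p
    rw [gfl_add, gfl_single e m hm]
  rw [h, fderiv_const_add]

lemma continuous_gfl_par (e : S → ℕ × ℕ) (q : ℝ × ℝ) : Continuous fun c : S → ℝ × ℝ => gfl e c q :=
  (contDiff_joint_gfl e (m := 0)).continuous.comp (continuous_id.prodMk continuous_const)

lemma continuous_fderiv_gfl_par (e : S → ℕ × ℕ) (q v : ℝ × ℝ) :
    Continuous fun c : S → ℝ × ℝ => fderiv ℝ (gfl e c) q v := by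
  have h1 : ∀ c : S → ℝ × ℝ, fderiv ℝ (gfl e c) q v =
      fderiv ℝ (fun z : (S → ℝ × ℝ) × (ℝ × ℝ) => gfl e z.1 z.2) (c, q) (0, v) := by
    intro c
    have h2 : HasFDerivAt (fun p : ℝ × ℝ => ((c, p) : (S → ℝ × ℝ) × (ℝ × ℝ)))
        (ContinuousLinearMap.inr ℝ (S → ℝ × ℝ) (ℝ × ℝ)) q := hasFDerivAt_prodMk_right c q
    have h3 := ((((contDiff_joint_gfl e (m := 1)).differentiable (by norm_num))
      (c, q)).hasFDerivAt.comp q h2).fderiv
    have h4 : ((fun z : (S → ℝ × ℝ) × (ℝ × ℝ) => gfl e z.1 z.2) ∘ fun p : ℝ × ℝ => (c, p)) =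
        gfl e c := rfl
    rw [h4] at h3
    rw [h3]
    rfl
  simp only [h1]
  have h5 := (contDiff_joint_gfl e (m := 1)).continuous_fderiv (by norm_num)
  exact (h5.comp (continuous_id.prodMk continuous_const)).clm_apply continuous_const

/-- coefficients for which a cell may contain closed orbits -/
def actv (e : S → ℕ × ℕ) (s₁ s₂ : ℝ) (ζ₀ : ℝ × ℝ) : Set (S → ℝ × ℝ) :=
  {c | Thin s₁ s₂ (gfl e c ζ₀) (fderiv ℝ (gfl e c) ζ₀ (1, 0))}

lemma measurableSet_actv (e : S → ℕ × ℕ) (s₁ s₂ : ℝ) (ζ₀ : ℝ × ℝ) :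
    MeasurableSet (actv e s₁ s₂ ζ₀) := by
  have c1 := continuous_gfl_par e ζ₀
  have c2 := continuous_fderiv_gfl_par e ζ₀ (1, 0)
  have c3 : Continuous fun c : S → ℝ × ℝ => sq (gfl e c ζ₀) := continuous_sq.comp c1
  have c4 : Continuous fun c : S → ℝ × ℝ => sq (fderiv ℝ (gfl e c) ζ₀ (1, 0)) :=
    continuous_sq.comp c2
  have c5 : Continuous fun c : S → ℝ × ℝ =>
      wedge (fderiv ℝ (gfl e c) ζ₀ (1, 0)) (gfl e c ζ₀) ^ 2 := by
    unfold wedge; fun_prop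
  have h1 : MeasurableSet {c : S → ℝ × ℝ | sq (gfl e c ζ₀) ≤ s₁ ^ 2} :=
    measurableSet_le c3.measurable measurable_const
  have h2 : MeasurableSet {c : S → ℝ × ℝ |
      wedge (fderiv ℝ (gfl e c) ζ₀ (1, 0)) (gfl e c ζ₀) ^ 2 ≤
        s₂ ^ 2 * sq (fderiv ℝ (gfl e c) ζ₀ (1, 0))} :=
    measurableSet_le c5.measurable (measurable_const.mul c4.measurable)
  have h3 : MeasurableSet {c : S → ℝ × ℝ | fderiv ℝ (gfl e c) ζ₀ (1, 0) = 0 →
      sq (gfl e c ζ₀) ≤ s₂ ^ 2} := by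
    have e1 : {c : S → ℝ × ℝ | fderiv ℝ (gfl e c) ζ₀ (1, 0) = 0 → sq (gfl e c ζ₀) ≤ s₂ ^ 2} =
        {c : S → ℝ × ℝ | fderiv ℝ (gfl e c) ζ₀ (1, 0) = 0}ᶜ ∪
          {c : S → ℝ × ℝ | sq (gfl e c ζ₀) ≤ s₂ ^ 2} := by
      ext c
      simp only [mem_ofPred_eq, mem_union, mem_compl_iff]
      tauto
    rw [e1]
    exact ((isClosed_eq c2 continuous_const).measurableSet.compl).union
      (measurableSet_le c3.measurable measurable_const)
  exact h1.inter (h2.inter h3)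

lemma vol_actv (e : S → ℕ × ℕ) (m : S) (hm : e m = (0, 0)) {s₁ s₂ : ℝ} (hs₁ : 0 ≤ s₁)
    (hs₂ : 0 ≤ s₂) (ζ₀ : ℝ × ℝ) {M : ℝ} (hM : 0 ≤ M) :
    volume (BM S M ∩ actv e s₁ s₂ ζ₀) ≤ ENNReal.ofReal (8 * s₁ * s₂) *
      volume (Metric.closedBall (0 : S → ℝ × ℝ) (M + 1)) := by
  refine vol_shift2 m ((measurableSet_BM M).inter (measurableSet_actv e s₁ s₂ ζ₀))
    (inter_subset_left.trans (BM_subset hM)) fun c => ?_
  refine le_trans (measure_mono (t := (fun τ : ℝ × ℝ => τ + gfl e c ζ₀) ⁻¹'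
    {w : ℝ × ℝ | Thin s₁ s₂ w (fderiv ℝ (gfl e c) ζ₀ (1, 0))}) ?_) ?_
  · rintro τ ⟨-, hτ⟩
    simp only [actv, mem_ofPred_eq] at hτ
    rw [fderiv_gfl_shift e m hm, gfl_add, gfl_single e m hm] at hτ
    exact hτ
  · rw [measure_preimage_add_right]
    exact volume_thin hs₁ hs₂ _

/-- the local statement in a chart -/
lemma chart_no_orbit {e : S → ℕ × ℕ} {M K : ℝ} (hK : ∀ c : S → ℝ × ℝ, ‖c‖ ≤ M → ∀ p q : ℝ × ℝ,
      ‖p‖ ≤ 3 → ‖q‖ ≤ 3 → ‖fderiv ℝ (gfl e c) p‖ ≤ K ∧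
      ‖gfl e c p - gfl e c q‖ ≤ K * ‖p - q‖ ∧
      ‖gfl e c p - gfl e c q - fderiv ℝ (gfl e c) q (p - q)‖ ≤ K * ‖p - q‖ ^ 2) (hK0 : 1 ≤ K)
    {r L : ℝ} (hr : 1 ≤ r) (hL : 0 < L) {Ω : Set (ℝ × ℝ)} {m : ℝ × ℝ → ℝ} {ζ : ℝ × ℝ → ℝ × ℝ}
    {ζ₀ : ℝ × ℝ} (hm : ∀ z ∈ Ω, 0 < m z) (hζ3 : ∀ z ∈ Ω, ‖ζ z‖ ≤ 3) (hζ₀ : ‖ζ₀‖ ≤ 3)
    (h1 : ∀ z ∈ Ω, |(ζ z).1 - ζ₀.1| ≤ 6 * L / r) (h2 : ∀ z ∈ Ω, |(ζ z).2 - ζ₀.2| ≤ 3 * L / r ^ 2)
    {c : S → ℝ × ℝ} (hc : ‖c‖ ≤ M) (hfld : ∀ z ∈ Ω, fld c z = m z • gfl e c (ζ z))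
    (hT : c ∉ actv e (9 * K * (L / r)) (51 * K * (L ^ 2 / r ^ 2 + L / r ^ 2)) ζ₀)
    (α : ℝ) {C : Set (ℝ × ℝ)} (hC : ClosedOrbit (fld (rotc α c)) C) (hCΩ : C ⊆ Ω) : False := by
  have hr0 : 0 < r := by linarith
  have hK00 : 0 < K := by linarith
  set v := gfl e c ζ₀ with hv
  set d := fderiv ℝ (gfl e c) ζ₀ (1, 0) with hd
  have hδ : ∀ z ∈ Ω, ‖ζ z - ζ₀‖ ≤ 6 * L / r := by
    intro z hz
    rw [Prod.norm_def, max_le_iff]
    refine ⟨h1 z hz, (h2 z hz).trans ?_⟩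
    rw [div_le_div_iff₀ (by positivity) hr0]
    have : L * r ≤ L * r ^ 2 := by
      have : r ≤ r ^ 2 := by nlinarith
      gcongr
    nlinarith
  obtain ⟨a, ha⟩ := exists_functional (G := (fun z => gfl e c (ζ z)) '' Ω) (v := v) (d := d)
    (s₁ := 9 * K * (L / r)) (s₂ := 51 * K * (L ^ 2 / r ^ 2 + L / r ^ 2)) (by
      rintro _ ⟨z, hz, rfl⟩
      have e1 := (hK c hc (ζ z) ζ₀ (hζ3 z hz) hζ₀).2.1
      have e2 : ‖gfl e c (ζ z) - v‖ ≤ 6 * K * (L / r) := by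
        refine e1.trans ?_
        calc K * ‖ζ z - ζ₀‖ ≤ K * (6 * L / r) := by gcongr; exact hδ z hz
          _ = _ := by ring
      have e3 := pow_le_pow_left₀ (norm_nonneg _) e2 2
      refine (sq_le_norm _).trans ?_
      nlinarith [sq_nonneg (K * (L / r))]) (by
      rintro _ ⟨z, hz, rfl⟩
      refine ⟨(ζ z).1 - ζ₀.1, ?_⟩
      obtain ⟨k1, -, k3⟩ := hK c hc (ζ z) ζ₀ (hζ3 z hz) hζ₀
      have k1' := (hK c hc ζ₀ ζ₀ hζ₀ hζ₀).1
      have e1 : gfl e c (ζ z) - v - ((ζ z).1 - ζ₀.1) • d =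
          (gfl e c (ζ z) - gfl e c ζ₀ - fderiv ℝ (gfl e c) ζ₀ (ζ z - ζ₀)) +
          ((ζ z).2 - ζ₀.2) • fderiv ℝ (gfl e c) ζ₀ (0, 1) := by
        rw [clm_decomp (fderiv ℝ (gfl e c) ζ₀) (ζ z - ζ₀), ← hv, ← hd]
        simp only [Prod.fst_sub, Prod.snd_sub]
        abel
      have e2 : ‖fderiv ℝ (gfl e c) ζ₀ (0, 1)‖ ≤ K := by
        have h5 : ‖((0:ℝ), (1:ℝ))‖ = 1 := by simp [Prod.norm_def]
        have := (fderiv ℝ (gfl e c) ζ₀).le_opNorm ((0:ℝ), (1:ℝ))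
        rw [h5, mul_one] at this
        exact this.trans k1'
      have e3 : ‖gfl e c (ζ z) - v - ((ζ z).1 - ζ₀.1) • d‖ ≤
          36 * K * (L ^ 2 / r ^ 2 + L / r ^ 2) := by
        rw [e1]
        refine (norm_add_le _ _).trans ?_
        rw [norm_smul, Real.norm_eq_abs]
        have f1 : K * ‖ζ z - ζ₀‖ ^ 2 ≤ K * (6 * L / r) ^ 2 := by gcongr; exact hδ z hz
        have f2 : |(ζ z).2 - ζ₀.2| * ‖fderiv ℝ (gfl e c) ζ₀ (0, 1)‖ ≤ (3 * L / r ^ 2) * K := by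
          gcongr
          exact h2 z hz
        calc _ ≤ K * (6 * L / r) ^ 2 + (3 * L / r ^ 2) * K := add_le_add (k3.trans f1) f2
          _ = 36 * K * (L ^ 2 / r ^ 2) + 3 * K * (L / r ^ 2) := by ring
          _ ≤ 36 * K * (L ^ 2 / r ^ 2) + 36 * K * (L / r ^ 2) := by
              gcongr
              norm_num
          _ = _ := by ring
      have e4 := pow_le_pow_left₀ (norm_nonneg _) e3 2
      refine (sq_le_norm _).trans ?_
      nlinarith [sq_nonneg (K * (L ^ 2 / r ^ 2 + L / r ^ 2))]) hT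
  refine no_orbit_of_functional_rot (a := a) (fun z hz => ?_) α hC hCΩ
  have h3 := ha _ ⟨z, hz, rfl⟩
  rw [hfld z hz]
  simp only [Prod.smul_fst, Prod.smul_snd, smul_eq_mul]
  have h4 := mul_pos (hm z hz) h3
  calc 0 < m z * (a.1 * (gfl e c (ζ z)).1 + a.2 * (gfl e c (ζ z)).2) := h4
    _ = _ := by ring

/-- coordinates in a cell far from the axis `x = 0` -/
lemma chart_coords {a b x y r L : ℝ} (hr : 1 ≤ r) (hL : 8 * L ≤ r) (ha : |a| = r)
    (hb : |b| ≤ r) (hx : |x - a| ≤ 2 * L) (hy : |y - b| ≤ 2 * L) :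
    x ≠ 0 ∧ |y / x| ≤ 3 ∧ |1 / x| ≤ 3 ∧ |y / x - b / a| ≤ 6 * L / r ∧
      |1 / x - 1 / a| ≤ 3 * L / r ^ 2 := by
  have hr0 : 0 < r := by linarith
  have hL0 : 0 ≤ L := by
    have := (abs_nonneg (x - a)).trans hx
    linarith
  have ha0 : a ≠ 0 := by
    intro h; rw [h, abs_zero] at ha; linarith
  have hx1 : 3 / 4 * r ≤ |x| := by
    have h1 : |a| ≤ |x| + |x - a| := by
      have := abs_sub_abs_le_abs_sub a x
      rw [abs_sub_comm] at this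
      linarith
    linarith
  have hx0 : x ≠ 0 := by
    intro h; rw [h, abs_zero] at hx1; linarith
  have hxpos : 0 < |x| := abs_pos.2 hx0
  have hy1 : |y| ≤ 5 / 4 * r := by
    have h1 : |y| ≤ |b| + |y - b| := by
      have := abs_sub_abs_le_abs_sub y b
      linarith
    linarith
  refine ⟨hx0, ?_, ?_, ?_, ?_⟩
  · rw [abs_div, div_le_iff₀ hxpos]; linarith
  · rw [abs_div, abs_one, div_le_iff₀ hxpos]; linarith
  · have e1 : y / x - b / a = ((y - b) * a - b * (x - a)) / (x * a) := by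
      field_simp
      ring
    rw [e1, abs_div, abs_mul x a, ha, div_le_div_iff₀ (by positivity) hr0]
    have e2 : |(y - b) * a - b * (x - a)| ≤ 4 * L * r := by
      refine (abs_sub _ _).trans ?_
      rw [abs_mul, abs_mul, ha]
      calc |y - b| * r + |b| * |x - a| ≤ 2 * L * r + r * (2 * L) := by gcongr
        _ = _ := by ring
    calc |(y - b) * a - b * (x - a)| * r ≤ 4 * L * r * r := by gcongr
      _ ≤ 6 * L * (3 / 4 * r * r) := by nlinarith [mul_nonneg hL0 (mul_pos hr0 hr0).le]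
      _ ≤ 6 * L * (|x| * r) := by gcongr
  · have e1 : 1 / x - 1 / a = -(x - a) / (x * a) := by
      field_simp
      ring
    rw [e1, abs_div, abs_neg, abs_mul x a, ha, div_le_div_iff₀ (by positivity) (by positivity)]
    calc |x - a| * r ^ 2 ≤ 2 * L * r ^ 2 := by gcongr
      _ ≤ 3 * L * (3 / 4 * r * r) := by nlinarith [mul_nonneg hL0 (mul_pos hr0 hr0).le]
      _ ≤ 3 * L * (|x| * r) := by gcongr

lemma norm_mk_le {a b r : ℝ} (ha : |a| ≤ r) (hb : |b| ≤ r) : ‖(a, b)‖ ≤ r := by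
  rw [Prod.norm_def, max_le_iff]; exact ⟨ha, hb⟩

/-- averaging over rotations and using an exceptional set -/
lemma integral_of_exceptional {N : (S → ℝ × ℝ) → ℝ≥0∞} (hN : Measurable N) {M : ℝ}
    {A : Set (S → ℝ × ℝ)} (hA : MeasurableSet A) {C₁ : ℝ≥0∞}
    (h0 : ∀ c ∈ BM S M, c ∉ A → ∀ α, N (rotc α c) = 0)
    (h1 : ∀ c, ∫⁻ α in Ioo 0 π, N (rotc α c) ≤ C₁) :
    ∫⁻ c in BM S M, N c ≤ C₁ * volume (BM S M ∩ A) := by
  have hmB := measurableSet_BM (S := S) M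
  calc ∫⁻ c in BM S M, N c = 1 * ∫⁻ c in BM S M, N c := (one_mul _).symm
    _ ≤ ENNReal.ofReal π * ∫⁻ c in BM S M, N c := by
        gcongr
        rw [ENNReal.one_le_ofReal]
        linarith [pi_gt_three]
    _ = ∫⁻ c in BM S M, ∫⁻ α in Ioo 0 π, N (rotc α c) := lintegral_rot hN M
    _ ≤ ∫⁻ c in BM S M, A.indicator (fun _ => C₁) c := by
        refine setLIntegral_mono' hmB fun c hc => ?_
        by_cases hcA : c ∈ A
        · rw [indicator_of_mem hcA]; exact h1 c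
        · rw [indicator_of_notMem hcA]
          simp [h0 c hc hcA]
    _ = _ := by
        rw [lintegral_indicator hA, setLIntegral_const, Measure.restrict_apply hA, inter_comm]

/-- a cell far from the origin -/
theorem cell_thin_integral {n : ℕ} (hn : Even n) (hnS : dg S ≤ n) (hn0 : (n, 0) ∈ S)
    (h0n : (0, n) ∈ S) {M θ : ℝ} (hM : 0 ≤ M) (hθ : 0 < θ) :
    ∃ A : ℝ, 0 ≤ A ∧ ∀ q : ℝ × ℝ, ∀ L : ℝ, 0 < L → 1 ≤ ‖q‖ → 8 * L ≤ ‖q‖ →
      ∫⁻ c in BM S M, ((Cls (fld c) (sqr q (2 * L)) (θ * L)).encard : ℝ≥0∞) ≤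
        ENNReal.ofReal (A * ((L / ‖q‖) ^ 2 * ((L + 1) / ‖q‖))) := by
  obtain ⟨K₁, hK₁1, hK₁⟩ := exists_unif_gfl (ex1 n : S → ℕ × ℕ) M 3
  obtain ⟨K₂, hK₂1, hK₂⟩ := exists_unif_gfl (ex2 n : S → ℕ × ℕ) M 3
  set K := max K₁ K₂ with hKdef
  have hK1 : 1 ≤ K := hK₁1.trans (le_max_left _ _)
  have hK0 : 0 < K := by linarith
  have hKa : ∀ c : S → ℝ × ℝ, ‖c‖ ≤ M → ∀ p q : ℝ × ℝ, ‖p‖ ≤ 3 → ‖q‖ ≤ 3 →
      ‖fderiv ℝ (gfl (ex1 n) c) p‖ ≤ K ∧
      ‖gfl (ex1 n) c p - gfl (ex1 n) c q‖ ≤ K * ‖p - q‖ ∧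
      ‖gfl (ex1 n) c p - gfl (ex1 n) c q - fderiv ℝ (gfl (ex1 n) c) q (p - q)‖ ≤
        K * ‖p - q‖ ^ 2 := by
    intro c hc p q hp hq
    obtain ⟨h1, h2, h3⟩ := hK₁ c hc p q hp hq
    have hle : K₁ ≤ K := le_max_left _ _
    exact ⟨h1.trans hle, h2.trans (by gcongr), h3.trans (by gcongr)⟩
  have hKb : ∀ c : S → ℝ × ℝ, ‖c‖ ≤ M → ∀ p q : ℝ × ℝ, ‖p‖ ≤ 3 → ‖q‖ ≤ 3 →
      ‖fderiv ℝ (gfl (ex2 n) c) p‖ ≤ K ∧
      ‖gfl (ex2 n) c p - gfl (ex2 n) c q‖ ≤ K * ‖p - q‖ ∧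
      ‖gfl (ex2 n) c p - gfl (ex2 n) c q - fderiv ℝ (gfl (ex2 n) c) q (p - q)‖ ≤
        K * ‖p - q‖ ^ 2 := by
    intro c hc p q hp hq
    obtain ⟨h1, h2, h3⟩ := hK₂ c hc p q hp hq
    have hle : K₂ ≤ K := le_max_right _ _
    exact ⟨h1.trans hle, h2.trans (by gcongr), h3.trans (by gcongr)⟩
  set v : ℝ≥0∞ := volume (Metric.closedBall (0 : S → ℝ × ℝ) (M + 1)) with hv
  have hvfin : v ≠ ⊤ := (isCompact_closedBall _ _).measure_lt_top.ne
  have hvr : v = ENNReal.ofReal v.toReal := (ENNReal.ofReal_toReal hvfin).symm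
  set V := v.toReal with hV
  have hV0 : 0 ≤ V := ENNReal.toReal_nonneg
  set C₁ : ℝ := 4 * π * dg S / θ with hC₁
  have hC₁0 : 0 ≤ C₁ := by positivity
  refine ⟨C₁ * (8 * 9 * 51) * K ^ 2 * V, by positivity, fun q L hL hq1 hqL => ?_⟩
  set r := ‖q‖ with hr
  have hr0 : 0 < r := by linarith
  have hΩ : IsCompact (sqr q (2 * L)) := isCompact_Icc.prod isCompact_Icc
  have hNm : Measurable fun c : S → ℝ × ℝ =>
      ((Cls (fld c) (sqr q (2 * L)) (θ * L)).encard : ℝ≥0∞) := measurable_count hΩ _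
  have hb1 : ∀ c : S → ℝ × ℝ, ∫⁻ α in Ioo 0 π,
      ((Cls (fld (rotc α c)) (sqr q (2 * L)) (θ * L)).encard : ℝ≥0∞) ≤ ENNReal.ofReal C₁ := by
    intro c
    refine (bound_one S c q (by positivity) (by positivity)).trans ?_
    apply ENNReal.ofReal_le_ofReal
    rw [hC₁]
    apply le_of_eq
    unfold dg
    field_simp
    ring
  set s₁ := 9 * K * (L / r) with hs₁
  set s₂ := 51 * K * (L ^ 2 / r ^ 2 + L / r ^ 2) with hs₂
  have hs₁0 : 0 ≤ s₁ := by positivity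
  have hs₂0 : 0 ≤ s₂ := by positivity
  have hfin : ∀ A : Set (S → ℝ × ℝ), volume (BM S M ∩ A) ≤ ENNReal.ofReal (8 * s₁ * s₂) * v →
      ENNReal.ofReal C₁ * volume (BM S M ∩ A) ≤
        ENNReal.ofReal (C₁ * (8 * 9 * 51) * K ^ 2 * V * ((L / r) ^ 2 * ((L + 1) / r))) := by
    intro A hA
    calc ENNReal.ofReal C₁ * volume (BM S M ∩ A)
        ≤ ENNReal.ofReal C₁ * (ENNReal.ofReal (8 * s₁ * s₂) * ENNReal.ofReal V) := by
          rw [← hvr]; gcongr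
      _ = _ := by
          rw [← ENNReal.ofReal_mul (by positivity), ← ENNReal.ofReal_mul (by positivity)]
          congr 1
          rw [hs₁, hs₂]
          field_simp
  have hmem : ∀ z ∈ sqr q (2 * L), |z.1 - q.1| ≤ 2 * L ∧ |z.2 - q.2| ≤ 2 * L := by
    intro z hz
    have h1 := mem_sqr.1 hz
    exact ⟨(norm_fst_le (z - q)).trans h1, (norm_snd_le (z - q)).trans h1⟩
  have hq1' : |q.1| ≤ r := norm_fst_le q
  have hq2' : |q.2| ≤ r := norm_snd_le q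
  rcases max_choice ‖q.1‖ ‖q.2‖ with hmx | hmx
  · -- first chart
    have hqa : |q.1| = r := by
      rw [hr, Prod.norm_def, hmx]; rfl
    have hself := chart_coords hq1 hqL hqa hq2' (x := q.1) (y := q.2)
      (by simp; positivity) (by simp; positivity)
    refine (integral_of_exceptional hNm (A := actv (ex1 n) s₁ s₂ (q.2 / q.1, 1 / q.1))
      (measurableSet_actv _ _ _ _) ?_ hb1).trans (hfin _ ?_)
    · intro c hc hcA α
      rw [ENat.toENNReal_eq_zero, Set.encard_eq_zero]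
      ext C
      simp only [Cls, mem_ofPred_eq, mem_empty_iff_false, iff_false]
      rintro ⟨hC, hCΩ, -⟩
      refine chart_no_orbit hKa hK1 hq1 hL (Ω := sqr q (2 * L)) (m := fun z => z.1 ^ n)
        (ζ := fun z => (z.2 / z.1, 1 / z.1)) (ζ₀ := (q.2 / q.1, 1 / q.1)) ?_ ?_ ?_ ?_ ?_
        (norm_le_of_mem_BM hM hc) ?_ hcA α hC hCΩ
      · intro z hz
        obtain ⟨h1, h2⟩ := hmem z hz
        exact hn.pow_pos (chart_coords hq1 hqL hqa hq2' h1 h2).1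
      · intro z hz
        obtain ⟨h1, h2⟩ := hmem z hz
        have := chart_coords hq1 hqL hqa hq2' h1 h2
        exact norm_mk_le this.2.1 this.2.2.1
      · exact norm_mk_le hself.2.1 hself.2.2.1
      · intro z hz
        obtain ⟨h1, h2⟩ := hmem z hz
        exact (chart_coords hq1 hqL hqa hq2' h1 h2).2.2.2.1
      · intro z hz
        obtain ⟨h1, h2⟩ := hmem z hz
        exact (chart_coords hq1 hqL hqa hq2' h1 h2).2.2.2.2
      · intro z hz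
        obtain ⟨h1, h2⟩ := hmem z hz
        exact fld_chart1 hnS c (chart_coords hq1 hqL hqa hq2' h1 h2).1
    · exact vol_actv (ex1 n) ⟨(n, 0), hn0⟩ (by simp [ex1]) hs₁0 hs₂0 _ hM
  · -- second chart
    have hqa : |q.2| = r := by
      rw [hr, Prod.norm_def, hmx]; rfl
    have hself := chart_coords hq1 hqL hqa hq1' (x := q.2) (y := q.1)
      (by simp; positivity) (by simp; positivity)
    refine (integral_of_exceptional hNm (A := actv (ex2 n) s₁ s₂ (q.1 / q.2, 1 / q.2))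
      (measurableSet_actv _ _ _ _) ?_ hb1).trans (hfin _ ?_)
    · intro c hc hcA α
      rw [ENat.toENNReal_eq_zero, Set.encard_eq_zero]
      ext C
      simp only [Cls, mem_ofPred_eq, mem_empty_iff_false, iff_false]
      rintro ⟨hC, hCΩ, -⟩
      refine chart_no_orbit hKb hK1 hq1 hL (Ω := sqr q (2 * L)) (m := fun z => z.2 ^ n)
        (ζ := fun z => (z.1 / z.2, 1 / z.2)) (ζ₀ := (q.1 / q.2, 1 / q.2)) ?_ ?_ ?_ ?_ ?_
        (norm_le_of_mem_BM hM hc) ?_ hcA α hC hCΩ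
      · intro z hz
        obtain ⟨h1, h2⟩ := hmem z hz
        exact hn.pow_pos (chart_coords hq1 hqL hqa hq1' h2 h1).1
      · intro z hz
        obtain ⟨h1, h2⟩ := hmem z hz
        have := chart_coords hq1 hqL hqa hq1' h2 h1
        exact norm_mk_le this.2.1 this.2.2.1
      · exact norm_mk_le hself.2.1 hself.2.2.1
      · intro z hz
        obtain ⟨h1, h2⟩ := hmem z hz
        exact (chart_coords hq1 hqL hqa hq1' h2 h1).2.2.2.1
      · intro z hz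
        obtain ⟨h1, h2⟩ := hmem z hz
        exact (chart_coords hq1 hqL hqa hq1' h2 h1).2.2.2.2
      · intro z hz
        obtain ⟨h1, h2⟩ := hmem z hz
        exact fld_chart2 hnS c (chart_coords hq1 hqL hqa hq1' h2 h1).1
    · exact vol_actv (ex2 n) ⟨(0, n), h0n⟩ (by simp [ex2]) hs₁0 hs₂0 _ hM

end

end Pool.Agent.H709R2
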