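import Pool.Agent.H709R2.WCross
import Pool.Agent.H709R2.FinE

/-! Covering of all closed orbits of the plane. -/

open Real Set MeasureTheory Topology Filter
open scoped ENNReal

namespace Pool.Agent.H709R2

noncomputable section

/-- radii -/
def Rj (j : ℕ) : ℝ := 2 ^ (32 * j)

/-- cell sizes -/
def Lk (j k : ℕ) : ℝ := 2 ^ (16 * j) * (sc k) ^ 16

lemma Rj_pos (j : ℕ) : 0 < Rj j := by unfold Rj; positivity

lemma Lk_pos (j k : ℕ) : 0 < Lk j k := by unfold Lk; have := sc_pos k; positivity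

lemma Rj_succ (j : ℕ) : Rj (j + 1) = 2 ^ 32 * Rj j := by
  unfold Rj; rw [mul_add, pow_add]; ring

lemma one_le_Rj (j : ℕ) : 1 ≤ Rj j := one_le_pow₀ (by norm_num)

lemma Lk_succ (j k : ℕ) : Lk j (k + 1) = (1 / 2) ^ 16 * Lk j k := by
  unfold Lk sc; rw [pow_succ]; ring

lemma Lk_le (j k : ℕ) : Lk j k ≤ 2 ^ (16 * j) := by
  unfold Lk
  have h1 : (sc k) ^ 16 ≤ 1 := pow_le_one₀ (sc_pos k).le (sc_le_one k)
  calc (2:ℝ) ^ (16 * j) * (sc k) ^ 16 ≤ 2 ^ (16 * j) * 1 := by gcongr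
    _ = _ := mul_one _

lemma Lk_zero (j : ℕ) : Lk j 0 = 2 ^ (16 * j) := by unfold Lk sc; simp

/-- bounded annulus -/
def Ann (j : ℕ) : Set (ℝ × ℝ) := {z | Rj j ≤ ‖z‖} ∩ sqr 0 (Rj (j + 2))

/-- exterior region in a big box -/
def AnnM (j : ℕ) (m : ℝ) : Set (ℝ × ℝ) := {z | Rj j ≤ ‖z‖} ∩ sqr 0 m

/-- relevant grid points -/
def grf (j k : ℕ) : Finset (ℤ × ℤ) :=
  (grd (Rj (j + 2)) (Lk j k)).filter fun z => Rj j / 2 ≤ ‖gpt (Lk j k) z‖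

/-- closed orbits seen in the `j`-th exterior region -/
def outer (V : ℝ × ℝ → ℝ × ℝ) (m : ℝ) (j : ℕ) : Set (Set (ℝ × ℝ)) :=
  Cls V (Ann j) (2 ^ (16 * j)) ∪ ClsF V (AnnM j m) (crossF (Rj (j + 1))) ∪
    ⋃ k : ℕ, ⋃ z ∈ grf j k, Cls V (sqr (gpt (Lk j k) z) (2 * Lk j k)) ((1 / 2) ^ 16 * Lk j k)

lemma small_cover {V : ℝ × ℝ → ℝ × ℝ} {j : ℕ} (hj : 1 ≤ j) {C : Set (ℝ × ℝ)}
    (hC : ClosedOrbit V C) (hCA : C ⊆ Ann j)
    (hsmall : ∀ x ∈ C, ∀ y ∈ C, sq (x - y) < (2 ^ (16 * j)) ^ 2) :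
    ∃ k : ℕ, ∃ z ∈ grf j k,
      C ∈ Cls V (sqr (gpt (Lk j k) z) (2 * Lk j k)) ((1 / 2) ^ 16 * Lk j k) := by
  classical
  obtain ⟨x₀, hx₀, y₀, hy₀, hxy⟩ : ∃ x ∈ C, ∃ y ∈ C, x ≠ y := by
    obtain ⟨γ, T, -, -, -, ⟨s, t, hst⟩, rfl⟩ := hC
    exact ⟨γ s, ⟨s, rfl⟩, γ t, ⟨t, rfl⟩, hst⟩
  have hpos : 0 < sq (x₀ - y₀) := sq_pos (sub_ne_zero.2 hxy)
  have hex : ∃ k : ℕ, ∃ x ∈ C, ∃ y ∈ C, (Lk j (k + 1)) ^ 2 ≤ sq (x - y) := by
    obtain ⟨k, hk⟩ := exists_pow_lt_of_lt_one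
      (show 0 < sq (x₀ - y₀) / (2 ^ (16 * j)) ^ 2 by positivity) (show (1/2:ℝ) < 1 by norm_num)
    refine ⟨k, x₀, hx₀, y₀, hy₀, ?_⟩
    rw [lt_div_iff₀ (by positivity)] at hk
    refine le_trans ?_ hk.le
    have h1 : (Lk j (k + 1)) ^ 2 = (1 / 2 : ℝ) ^ ((k + 1) * 32) * (2 ^ (16 * j)) ^ 2 := by
      unfold Lk sc
      rw [mul_pow, mul_comm, ← pow_mul, ← pow_mul]
    rw [h1]
    gcongr ?_ * _
    exact pow_le_pow_of_le_one (by norm_num) (by norm_num) (by omega)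
  set k := Nat.find hex with hk
  obtain ⟨x, hx, y, hy, hle⟩ := Nat.find_spec hex
  rw [← hk] at hle
  have hless : ∀ x ∈ C, ∀ y ∈ C, sq (x - y) < (Lk j k) ^ 2 := by
    intro x' hx' y' hy'
    by_contra hcon
    push Not at hcon
    rcases Nat.eq_zero_or_pos k with h0 | h0
    · rw [h0, Lk_zero] at hcon
      exact absurd (hsmall x' hx' y' hy') (not_lt.2 hcon)
    · have h2 : k - 1 < Nat.find hex := by omega
      apply Nat.find_min hex h2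
      refine ⟨x', hx', y', hy', ?_⟩
      rw [Nat.sub_add_cancel h0]
      exact hcon
  have hL := Lk_pos j k
  obtain ⟨z, hz, hz2⟩ := exists_gpt (R := Rj (j + 2)) hL (x := x) (by
    have := mem_sqr.1 (hCA hx).2
    simpa using this)
  refine ⟨k, z, ?_, hC, ?_, x, hx, y, hy, ?_⟩
  · unfold grf
    rw [Finset.mem_filter]
    refine ⟨hz, ?_⟩
    have h1 : Rj j ≤ ‖x‖ := (hCA hx).1
    have h2 : ‖x‖ ≤ ‖gpt (Lk j k) z‖ + ‖x - gpt (Lk j k) z‖ := by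
      calc ‖x‖ = ‖gpt (Lk j k) z + (x - gpt (Lk j k) z)‖ := by congr 1; abel
        _ ≤ _ := norm_add_le _ _
    have h3 : Lk j k ≤ Rj j / 2 := by
      refine (Lk_le j k).trans ?_
      unfold Rj
      rw [le_div_iff₀ (by norm_num)]
      calc (2:ℝ) ^ (16 * j) * 2 = 2 ^ (16 * j + 1) := by rw [pow_succ]
        _ ≤ 2 ^ (32 * j) := pow_le_pow_right₀ (by norm_num) (by omega)
    linarith
  · intro w hw
    rw [mem_sqr]
    have h1 := hless w hw x hx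
    have h2 : ‖w - x‖ ≤ Lk j k := by
      have h3 := (norm_le_sq (w - x)).trans h1.le
      exact le_of_sq_le_sq h3 hL.le
    calc ‖w - gpt (Lk j k) z‖ = ‖(w - x) + (x - gpt (Lk j k) z)‖ := by congr 1; abel
      _ ≤ ‖w - x‖ + ‖x - gpt (Lk j k) z‖ := norm_add_le _ _
      _ ≤ 2 * Lk j k := by linarith
  · rw [← Lk_succ]; exact hle

lemma cover_all (V : ℝ × ℝ → ℝ × ℝ) (m : ℝ) :
    Cls V (sqr 0 m) 0 ⊆ (Cls V (sqr 0 (Rj 2)) 0 ∪ ClsF V (sqr 0 m) (crossF (Rj 1))) ∪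
      ⋃ i : ℕ, outer V m (i + 1) := by
  classical
  rintro C ⟨hC, hCm, -⟩
  obtain ⟨x₀, hx₀⟩ : ∃ x, x ∈ C := by
    obtain ⟨γ, T, -, -, -, -, rfl⟩ := hC
    exact ⟨γ 0, ⟨0, rfl⟩⟩
  by_cases hin : ∃ x ∈ C, ‖x‖ ≤ Rj 1
  · left
    obtain ⟨x, hx, hx1⟩ := hin
    by_cases hbox : C ⊆ sqr 0 (Rj 2)
    · exact Or.inl ⟨hC, hbox, x, hx, x, hx, by simp [sq]⟩
    · right
      rw [Set.not_subset] at hbox
      obtain ⟨y, hy, hy2⟩ := hbox
      rw [mem_sqr, sub_zero, not_le] at hy2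
      refine ⟨hC, hCm, x, hx, y, hy, hx1, ?_⟩
      have h1 : Rj 2 = 2 ^ 32 * Rj 1 := Rj_succ 1
      have h2 := Rj_pos 1
      simp only
      nlinarith
  · right
    push Not at hin
    -- maximal `j`
    have hex : ∃ i : ℕ, ∃ x ∈ C, ‖x‖ < Rj (i + 2) := by
      obtain ⟨i, hi⟩ := pow_unbounded_of_one_lt ‖x₀‖ (show (1:ℝ) < 2 by norm_num)
      refine ⟨i, x₀, hx₀, hi.trans_le ?_⟩
      unfold Rj
      exact pow_le_pow_right₀ (by norm_num) (by omega)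
    set i := Nat.find hex with hi
    obtain ⟨x, hx, hx2⟩ := Nat.find_spec hex
    rw [← hi] at hx2
    have hlow : ∀ y ∈ C, Rj (i + 1) ≤ ‖y‖ := by
      intro y hy
      by_contra hcon
      push Not at hcon
      rcases Nat.eq_zero_or_pos i with h0 | h0
      · rw [h0] at hcon
        exact absurd (hin y hy) (not_lt.2 hcon.le)
      · have h2 : i - 1 < Nat.find hex := by omega
        apply Nat.find_min hex h2
        refine ⟨y, hy, ?_⟩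
        rw [show i - 1 + 2 = i + 1 by omega]
        exact hcon
    simp only [mem_iUnion]
    refine ⟨i, ?_⟩
    unfold outer
    by_cases hbox : C ⊆ sqr 0 (Rj (i + 1 + 2))
    · have hCA : C ⊆ Ann (i + 1) := fun y hy => ⟨hlow y hy, hbox hy⟩
      by_cases hbig : ∃ x ∈ C, ∃ y ∈ C, ((2:ℝ) ^ (16 * (i + 1))) ^ 2 ≤ sq (x - y)
      · exact Or.inl (Or.inl ⟨hC, hCA, hbig⟩)
      · right
        push Not at hbig
        obtain ⟨k, z, hz, hz2⟩ := small_cover (j := i + 1) (by omega) hC hCA hbig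
        simp only [mem_iUnion]
        exact ⟨k, z, hz, hz2⟩
    · left; right
      rw [Set.not_subset] at hbox
      obtain ⟨y, hy, hy2⟩ := hbox
      rw [mem_sqr, sub_zero, not_le] at hy2
      refine ⟨hC, fun w hw => ⟨hlow w hw, hCm hw⟩, x, hx, y, hy, hx2.le, ?_⟩
      have h1 : Rj (i + 1 + 2) = 2 ^ 32 * Rj (i + 1 + 1) := Rj_succ (i + 1 + 1)
      have h2 := Rj_pos (i + 1 + 1)
      simp only
      nlinarith

end

end Pool.Agent.H709R2
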