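import Pool.Agent.H709R2.WChart

/-! Crossing orbits, general grids. -/

open Real Set MeasureTheory Topology Filter
open scoped ENNReal

namespace Pool.Agent.H709R2

noncomputable section

variable {S : Finset (ℕ × ℕ)}

lemma closedOrbit_resc {c : S → ℝ × ℝ} {R : ℝ} (hR : 0 < R) {C : Set (ℝ × ℝ)}
    (hC : ClosedOrbit (fld c) C) : ClosedOrbit (fld (resc R c)) ((fun x => R⁻¹ • x) '' C) := by
  obtain ⟨γ, T, hT, hγ, hper, ⟨s, t, hst⟩, rfl⟩ := hC
  refine ⟨fun t => R⁻¹ • γ (R * t), T / R, by positivity, ?_, ?_, ⟨s / R, t / R, ?_⟩, ?_⟩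
  · intro t
    have h1 : HasDerivAt (fun t : ℝ => R * t) R t := by
      simpa using (hasDerivAt_id t).const_mul R
    have h2 := ((hγ (R * t)).scomp t h1).const_smul R⁻¹
    rw [smul_smul, inv_mul_cancel₀ hR.ne', one_smul] at h2
    rw [fld_resc, smul_smul, mul_inv_cancel₀ hR.ne', one_smul]
    exact h2
  · intro t
    simp only
    rw [show R * (t + T / R) = R * t + T by field_simp, hper]
  · simp only
    rw [mul_div_cancel₀ _ hR.ne', mul_div_cancel₀ _ hR.ne']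
    intro h
    apply hst
    exact smul_right_injective _ (inv_ne_zero hR.ne') h
  · ext x
    constructor
    · rintro ⟨_, ⟨u, rfl⟩, rfl⟩
      exact ⟨u / R, by simp only; rw [mul_div_cancel₀ _ hR.ne']⟩
    · rintro ⟨u, rfl⟩
      exact ⟨γ (R * u), ⟨R * u, rfl⟩, rfl⟩

lemma resc_rotc (R α : ℝ) (c : S → ℝ × ℝ) : resc R (rotc α c) = rotc α (resc R c) := by
  ext1 m
  unfold resc rotc
  rw [rot_smul]

/-- pairs of points crossing the annulus `R ≤ ‖z‖ ≤ 2R` -/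
def crossF (R : ℝ) : Set ((ℝ × ℝ) × (ℝ × ℝ)) := {z | ‖z.1‖ ≤ R ∧ 2 * R ≤ ‖z.2‖}

lemma isClosed_crossF (R : ℝ) : IsClosed (crossF R) :=
  (isClosed_le (continuous_norm.comp continuous_fst) continuous_const).inter
    (isClosed_le continuous_const (continuous_norm.comp continuous_snd))

lemma chord_cross {x y : ℝ × ℝ} (hx : ‖x‖ ≤ 1) (hy : 2 ≤ ‖y‖) :
    (1 / 6 : ℝ) ≤ √(psi x * psi y * sq (x - y)) := by
  apply Real.le_sqrt_of_sq_le
  have hy0 : 0 < ‖y‖ := by linarith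
  have h1 : sq x ≤ 2 := by
    have := sq_le_norm x
    have := pow_le_pow_left₀ (norm_nonneg x) hx 2
    linarith
  have h2 : sq y ≤ 2 * ‖y‖ ^ 2 := sq_le_norm y
  have h3 : ‖y‖ / 2 ≤ ‖x - y‖ := by
    have : ‖y‖ ≤ ‖x‖ + ‖x - y‖ := by
      calc ‖y‖ = ‖x - (x - y)‖ := by congr 1; abel
        _ ≤ _ := norm_sub_le _ _
    linarith
  have h4 : (‖y‖ / 2) ^ 2 ≤ sq (x - y) :=
    (pow_le_pow_left₀ (by positivity) h3 2).trans (norm_le_sq _)
  have h5 : (3 : ℝ)⁻¹ ≤ psi x := by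
    unfold psi
    exact inv_anti₀ (one_add_sq_pos x) (by linarith)
  have h6 : (9 / 4 * ‖y‖ ^ 2)⁻¹ ≤ psi y := by
    unfold psi
    refine inv_anti₀ (one_add_sq_pos y) ?_
    have : 4 ≤ ‖y‖ ^ 2 := by nlinarith
    linarith
  have h7 : (3 : ℝ)⁻¹ * (9 / 4 * ‖y‖ ^ 2)⁻¹ * (‖y‖ / 2) ^ 2 ≤ psi x * psi y * sq (x - y) := by
    have := (psi_pos x).le
    have := (psi_pos y).le
    gcongr
  refine le_trans ?_ h7
  field_simp
  norm_num

/-- crossing orbits: uniform bound at any scale -/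
lemma cross_bound (c : S → ℝ × ℝ) {R : ℝ} (hR : 0 < R) {Ω : Set (ℝ × ℝ)} (hΩ : IsCompact Ω) :
    ∫⁻ α in Ioo 0 π, ((ClsF (fld (rotc α c)) Ω (crossF R)).encard : ℝ≥0∞) ≤
      ENNReal.ofReal (6 * π ^ 2 * (dg S + 1)) := by
  obtain ⟨P, Q, hP, hQ, hPQ⟩ := exists_poly (resc R c)
  have hΩ' : IsCompact ((fun x : ℝ × ℝ => R⁻¹ • x) '' Ω) := hΩ.image (by fun_prop)
  obtain ⟨g, hg1, hg2, hg3⟩ := thmAplus hP hQ hΩ' (d := 1 / 6) (by norm_num)
  calc ∫⁻ α in Ioo 0 π, ((ClsF (fld (rotc α c)) Ω (crossF R)).encard : ℝ≥0∞)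
      ≤ ∫⁻ α in Ioo 0 π, g α := by
        refine setLIntegral_mono' measurableSet_Ioo fun α hα => le_trans ?_ (hg2 α hα)
        refine ENat.toENNReal_le.2 ?_
        have hinj : Function.Injective (fun C : Set (ℝ × ℝ) => (fun x : ℝ × ℝ => R⁻¹ • x) '' C) :=
          (smul_right_injective _ (inv_ne_zero hR.ne')).image_injective
        rw [← hinj.encard_image]
        refine Set.encard_le_encard ?_
        rintro _ ⟨C, ⟨hC, hCΩ, x, hx, y, hy, hxy⟩, rfl⟩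
        refine ⟨?_, image_mono hCΩ, R⁻¹ • x, ⟨x, hx, rfl⟩, R⁻¹ • y, ⟨y, hy, rfl⟩, ?_⟩
        · have h1 := closedOrbit_resc hR hC
          have h2 : fld (resc R (rotc α c)) = fun p => rot α (field P Q p) := by
            rw [resc_rotc, hPQ]
            ext1 p
            exact (rot_fld α (resc R c) p).symm
          rwa [h2] at h1
        · obtain ⟨h1, h2⟩ := hxy
          simp only at h1 h2
          refine chord_cross ?_ ?_
          · rw [norm_smul, norm_inv, Real.norm_eq_abs, abs_of_pos hR, inv_mul_le_iff₀ hR, mul_one]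
            exact h1
          · rw [norm_smul, norm_inv, Real.norm_eq_abs, abs_of_pos hR, inv_mul_eq_div,
              le_div_iff₀ hR]
            exact h2
    _ ≤ ∫⁻ α, g α := setLIntegral_le_lintegral _ _
    _ ≤ _ := hg3
    _ = _ := by
        congr 1
        unfold dg
        ring

/-! ### Grids with arbitrary spacing -/

/-- half the number of grid points -/
def gN (R L : ℝ) : ℤ := ⌈R / L⌉

/-- grid indices -/
def grd (R L : ℝ) : Finset (ℤ × ℤ) :=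
  Finset.Icc (-gN R L) (gN R L) ×ˢ Finset.Icc (-gN R L) (gN R L)

/-- grid points -/
def gpt (L : ℝ) (z : ℤ × ℤ) : ℝ × ℝ := ((z.1 : ℝ) * L, (z.2 : ℝ) * L)

lemma gN_bound {R L : ℝ} (hL : 0 < L) : (gN R L : ℝ) * L ≤ R + L := by
  have h1 : (gN R L : ℝ) < R / L + 1 := Int.ceil_lt_add_one _
  calc (gN R L : ℝ) * L ≤ (R / L + 1) * L := by gcongr
    _ = R + L := by rw [add_mul, div_mul_cancel₀ _ hL.ne', one_mul]

lemma gN_nonneg {R L : ℝ} (hR : 0 ≤ R) (hL : 0 < L) : 0 ≤ gN R L :=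
  Int.ceil_nonneg (by positivity)

lemma norm_gpt {R L : ℝ} (hL : 0 < L) {z : ℤ × ℤ} (hz : z ∈ grd R L) :
    ‖gpt L z‖ ≤ R + L := by
  unfold grd at hz
  rw [Finset.mem_product, Finset.mem_Icc, Finset.mem_Icc] at hz
  obtain ⟨⟨h1, h2⟩, h3, h4⟩ := hz
  have key : ∀ i : ℤ, -gN R L ≤ i → i ≤ gN R L → ‖(i : ℝ) * L‖ ≤ R + L := by
    intro i hi1 hi2
    rw [Real.norm_eq_abs, abs_mul, abs_of_pos hL]
    have h5 : |(i : ℝ)| ≤ gN R L := by
      rw [abs_le]
      constructor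
      · have : ((-gN R L : ℤ) : ℝ) ≤ i := by exact_mod_cast hi1
        simpa using this
      · exact_mod_cast hi2
    calc |(i : ℝ)| * L ≤ (gN R L : ℝ) * L := by gcongr
      _ ≤ R + L := gN_bound hL
  unfold gpt
  rw [Prod.norm_def, max_le_iff]
  exact ⟨key _ h1 h2, key _ h3 h4⟩

lemma exists_gpt {R L : ℝ} (hL : 0 < L) {x : ℝ × ℝ} (hx : ‖x‖ ≤ R) :
    ∃ z ∈ grd R L, ‖x - gpt L z‖ ≤ L := by
  have key : ∀ a : ℝ, |a| ≤ R → -gN R L ≤ ⌊a / L⌋ ∧ ⌊a / L⌋ ≤ gN R L ∧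
      |a - (⌊a / L⌋ : ℝ) * L| ≤ L := by
    intro a ha
    rw [abs_le] at ha
    refine ⟨?_, ?_, ?_⟩
    · unfold gN
      rw [← Int.floor_neg]
      apply Int.floor_le_floor
      rw [← neg_div]
      gcongr
      exact ha.1
    · unfold gN
      refine (Int.floor_le_ceil _).trans (Int.ceil_le_ceil ?_)
      gcongr
      exact ha.2
    · have h1 := Int.floor_le (a / L)
      have h2 := Int.lt_floor_add_one (a / L)
      rw [le_div_iff₀ hL] at h1
      rw [div_lt_iff₀ hL] at h2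
      rw [abs_le]
      constructor <;> nlinarith
  have h1 := key x.1 ((norm_fst_le x).trans hx)
  have h2 := key x.2 ((norm_snd_le x).trans hx)
  refine ⟨(⌊x.1 / L⌋, ⌊x.2 / L⌋), ?_, ?_⟩
  · unfold grd
    rw [Finset.mem_product, Finset.mem_Icc, Finset.mem_Icc]
    exact ⟨⟨h1.1, h1.2.1⟩, h2.1, h2.2.1⟩
  · unfold gpt
    rw [Prod.norm_def, max_le_iff]
    exact ⟨h1.2.2, h2.2.2⟩

lemma card_grd {R L : ℝ} (hR : 0 ≤ R) (hL : 0 < L) :
    ((grd R L).card : ℝ) * L ^ 2 ≤ (2 * R + 3 * L) ^ 2 := by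
  have h1 : (Finset.Icc (-gN R L) (gN R L)).card = (2 * gN R L + 1).toNat := by
    rw [Int.card_Icc]
    congr 1
    ring
  have h2 : ((Finset.Icc (-gN R L) (gN R L)).card : ℝ) = 2 * gN R L + 1 := by
    rw [h1]
    have h3 : (((2 * gN R L + 1).toNat : ℤ) : ℝ) = ((2 * gN R L + 1 : ℤ) : ℝ) := by
      rw [Int.toNat_of_nonneg (by have := gN_nonneg hR hL; linarith)]
    have h4 : (((2 * gN R L + 1).toNat : ℤ) : ℝ) = (((2 * gN R L + 1).toNat : ℕ) : ℝ) := by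
      norm_cast
    rw [← h4, h3]
    push_cast
    ring
  unfold grd
  rw [Finset.card_product]
  push_cast
  rw [h2]
  have h5 : (2 * (gN R L : ℝ) + 1) * L ≤ 2 * R + 3 * L := by
    have := gN_bound (R := R) hL
    nlinarith
  have h6 : 0 ≤ (2 * (gN R L : ℝ) + 1) * L := by
    have : (0:ℝ) ≤ gN R L := by exact_mod_cast gN_nonneg hR hL
    positivity
  calc (2 * (gN R L : ℝ) + 1) * (2 * (gN R L : ℝ) + 1) * L ^ 2
      = ((2 * (gN R L : ℝ) + 1) * L) ^ 2 := by ring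
    _ ≤ (2 * R + 3 * L) ^ 2 := pow_le_pow_left₀ h6 h5 2

end

end Pool.Agent.H709R2
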