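import Pool.Agent.H709R2.WFin
import Mathlib.Probability.Distributions.Gaussian.Real
import Mathlib.MeasureTheory.Integral.Pi

/-! From local integrability to Gaussian coefficients. -/

open Real Set MeasureTheory Topology Filter ProbabilityTheory
open scoped ENNReal

namespace Pool.Agent.H709R2

noncomputable section

variable {S : Finset (ℕ × ℕ)}

lemma closedOrbit_smul_field {V : ℝ × ℝ → ℝ × ℝ} {a : ℝ} (ha : 0 < a) {C : Set (ℝ × ℝ)}
    (hC : ClosedOrbit V C) : ClosedOrbit (fun p => a • V p) C := by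
  obtain ⟨γ, T, hT, hγ, hper, ⟨s, t, hst⟩, rfl⟩ := hC
  refine ⟨fun t => γ (a * t), T / a, by positivity, ?_, ?_, ⟨s / a, t / a, ?_⟩, ?_⟩
  · intro t
    have h1 : HasDerivAt (fun t : ℝ => a * t) a t := by
      simpa using (hasDerivAt_id t).const_mul a
    exact (hγ (a * t)).scomp t h1
  · intro t
    simp only
    rw [show a * (t + T / a) = a * t + T by field_simp, hper]
  · simp only
    rw [mul_div_cancel₀ _ ha.ne', mul_div_cancel₀ _ ha.ne']
    exact hst
  · ext x
    constructor
    · rintro ⟨u, rfl⟩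
      exact ⟨u / a, by simp only; rw [mul_div_cancel₀ _ ha.ne']⟩
    · rintro ⟨u, rfl⟩
      exact ⟨a * u, rfl⟩

lemma NP_smul {a : ℝ} (ha : 0 < a) (c : S → ℝ × ℝ) : NP (a • c) = NP c := by
  have h1 : {C : Set (ℝ × ℝ) | ClosedOrbit (fld (a • c)) C} =
      {C : Set (ℝ × ℝ) | ClosedOrbit (fld c) C} := by
    have e1 : fld (a • c) = fun p => a • fld c p := by
      ext1 p
      exact fld_smul_coef a c p
    have e2 : (fun p => a⁻¹ • (fun p => a • fld c p) p) = fld c := by
      ext1 p
      simp only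
      rw [smul_smul, inv_mul_cancel₀ ha.ne', one_smul]
    ext C
    simp only [mem_ofPred_eq]
    rw [e1]
    constructor
    · intro h
      have := closedOrbit_smul_field (inv_pos.2 ha) h
      rwa [e2] at this
    · intro h
      exact closedOrbit_smul_field ha h
  unfold NP
  rw [h1]

/-- scaling of the integral over a ball -/
lemma lintegral_BM_scale {M : ℝ} (hM : 0 < M) :
    ∫⁻ c in BM S M, NP c =
      ENNReal.ofReal (M ^ (Module.finrank ℝ (S → ℝ × ℝ))) * ∫⁻ c in BM S 1, NP c := by
  set D := Module.finrank ℝ (S → ℝ × ℝ) with hD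
  have hmN := measurable_NP (S := S)
  have h1 := Measure.map_addHaar_smul (volume : Measure (S → ℝ × ℝ)) (r := M⁻¹)
    (inv_ne_zero hM.ne')
  have h2 : ∫⁻ c, (BM S 1).indicator NP c
      ∂(Measure.map (fun x => M⁻¹ • x) (volume : Measure (S → ℝ × ℝ))) =
      ∫⁻ c, (BM S 1).indicator NP (M⁻¹ • c) := by
    refine lintegral_map (hmN.indicator (measurableSet_BM 1)) (measurable_const_smul _)
  have h3 : ∀ c : S → ℝ × ℝ, (BM S 1).indicator NP (M⁻¹ • c) = (BM S M).indicator NP c := by
    intro c
    have e1 : M⁻¹ • c ∈ BM S 1 ↔ c ∈ BM S M := by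
      unfold BM
      simp only [mem_ofPred_eq, Pi.smul_apply]
      refine forall_congr' fun m => ?_
      have e2 : sq (M⁻¹ • c m) = M⁻¹ ^ 2 * sq (c m) := by
        unfold sq
        simp only [Prod.smul_fst, Prod.smul_snd, smul_eq_mul]
        ring
      rw [e2, inv_pow, inv_mul_le_iff₀ (by positivity), one_pow, mul_one]
    by_cases hc : c ∈ BM S M
    · rw [indicator_of_mem hc, indicator_of_mem (e1.2 hc), NP_smul (inv_pos.2 hM)]
    · rw [indicator_of_notMem hc, indicator_of_notMem (fun h => hc (e1.1 h))]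
  simp only [h3] at h2
  rw [h1, lintegral_smul_measure, lintegral_indicator (measurableSet_BM M),
    lintegral_indicator (measurableSet_BM 1)] at h2
  rw [← h2, ← hD, inv_pow, inv_inv, abs_of_pos (by positivity)]
  rfl

/-- the standard Gaussian measure on the plane -/
def g2 : Measure (ℝ × ℝ) := (gaussianReal 0 1).prod (gaussianReal 0 1)

instance : IsProbabilityMeasure g2 := by unfold g2; infer_instance

/-- density -/
def dens (v : ℝ × ℝ) : ℝ := gaussianPDFReal 0 1 v.1 * gaussianPDFReal 0 1 v.2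

lemma dens_nonneg (v : ℝ × ℝ) : 0 ≤ dens v :=
  mul_nonneg (gaussianPDFReal_nonneg _ _ _) (gaussianPDFReal_nonneg _ _ _)

lemma measurable_dens : Measurable dens := by
  unfold dens
  exact ((measurable_gaussianPDFReal 0 1).comp measurable_fst).mul
    ((measurable_gaussianPDFReal 0 1).comp measurable_snd)

lemma g2_eq : g2 = volume.withDensity fun v => ENNReal.ofReal (dens v) := by
  unfold g2
  rw [gaussianReal_of_var_ne_zero 0 (one_ne_zero),
    prod_withDensity (measurable_gaussianPDF 0 1) (measurable_gaussianPDF 0 1)]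
  rw [← Measure.volume_eq_prod]
  congr 1
  ext1 v
  unfold dens gaussianPDF
  rw [ENNReal.ofReal_mul (gaussianPDFReal_nonneg _ _ _)]

lemma integrable_dens : Integrable dens (volume : Measure (ℝ × ℝ)) := by
  unfold dens
  rw [Measure.volume_eq_prod]
  exact (integrable_gaussianPDFReal 0 1).mul_prod (integrable_gaussianPDFReal 0 1)

/-- the Gaussian measure on the space of coefficients -/
def gS (S : Finset (ℕ × ℕ)) : Measure (S → ℝ × ℝ) := Measure.pi fun _ => g2

lemma gS_eq : gS S = (volume : Measure (S → ℝ × ℝ)).withDensity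
    fun c => ENNReal.ofReal (∏ m : S, dens (c m)) := by
  unfold gS
  refine Measure.pi_eq fun s hs => ?_
  rw [withDensity_apply _ (MeasurableSet.univ_pi hs)]
  have hint : ∀ m : S, Integrable ((s m).indicator dens) (volume : Measure (ℝ × ℝ)) := fun m =>
    integrable_dens.indicator (hs m)
  have h1 : ∫⁻ c in univ.pi s, ENNReal.ofReal (∏ m : S, dens (c m)) =
      ∫⁻ c : S → ℝ × ℝ, ENNReal.ofReal (∏ m : S, (s m).indicator dens (c m)) := by
    rw [← lintegral_indicator (MeasurableSet.univ_pi hs)]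
    congr 1
    ext1 c
    by_cases hc : c ∈ univ.pi s
    · rw [indicator_of_mem hc]
      congr 1
      refine Finset.prod_congr rfl fun m _ => ?_
      rw [indicator_of_mem (hc m (mem_univ m))]
    · rw [indicator_of_notMem hc]
      have : ∃ m, c m ∉ s m := by
        by_contra hcon
        push Not at hcon
        exact hc fun m _ => hcon m
      obtain ⟨m, hm⟩ := this
      rw [Finset.prod_eq_zero (Finset.mem_univ m) (indicator_of_notMem hm _), ENNReal.ofReal_zero]
  rw [h1, ← ofReal_integral_eq_lintegral_ofReal]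
  · rw [integral_fintype_prod_volume_eq_prod (f := fun (m : S) (v : ℝ × ℝ) =>
      (s m).indicator dens v), ENNReal.ofReal_prod_of_nonneg]
    · refine Finset.prod_congr rfl fun m _ => ?_
      rw [g2_eq, withDensity_apply _ (hs m), integral_indicator (hs m),
        ofReal_integral_eq_lintegral_ofReal integrable_dens.restrict
          (ae_of_all _ dens_nonneg)]
    · intro m _
      exact integral_nonneg fun v => indicator_nonneg (fun v _ => dens_nonneg v) v
  · exact Integrable.fintype_prod (f := fun (m : S) (v : ℝ × ℝ) => (s m).indicator dens v) hint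
  · refine ae_of_all _ fun c => ?_
    exact Finset.prod_nonneg fun m _ => indicator_nonneg (fun v _ => dens_nonneg v) _

lemma pdf_le (x : ℝ) : gaussianPDFReal 0 1 x ≤ rexp (-x ^ 2 / 2) := by
  rw [gaussianPDFReal_def]
  simp only [NNReal.coe_one, mul_one, sub_zero]
  have h1 : (√(2 * π))⁻¹ ≤ 1 := by
    apply inv_le_one_of_one_le₀
    rw [Real.one_le_sqrt]
    linarith [pi_gt_three]
  calc (√(2 * π))⁻¹ * rexp (-x ^ 2 / 2) ≤ 1 * rexp (-x ^ 2 / 2) := by gcongr
    _ = _ := one_mul _

lemma dens_le (v : ℝ × ℝ) : dens v ≤ rexp (-(sq v) / 2) := by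
  unfold dens
  have h : rexp (-(sq v) / 2) = rexp (-v.1 ^ 2 / 2) * rexp (-v.2 ^ 2 / 2) := by
    rw [← Real.exp_add]; congr 1; unfold sq; ring
  rw [h]
  exact mul_le_mul (pdf_le _) (pdf_le _) (gaussianPDFReal_nonneg _ _ _) (by positivity)

lemma dens_le_one (v : ℝ × ℝ) : dens v ≤ 1 := by
  refine (dens_le v).trans ?_
  rw [Real.exp_le_one_iff]
  have := sq_nonneg' v
  linarith

/-- decay of the density -/
lemma prod_dens_le {k : ℕ} {c : S → ℝ × ℝ} (hc : c ∉ BM S k) :
    ∏ m : S, dens (c m) ≤ rexp 1 * rexp (-1 * k) := by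
  have hex : ∃ m, (k:ℝ) ^ 2 < sq (c m) := by
    by_contra hcon
    push Not at hcon
    exact hc hcon
  obtain ⟨m, hm⟩ := hex
  calc ∏ m : S, dens (c m) ≤ dens (c m) := by
        classical
        rw [← Finset.mul_prod_erase _ _ (Finset.mem_univ m)]
        have h1 : ∏ x ∈ Finset.univ.erase m, dens (c x) ≤ 1 :=
          Finset.prod_le_one (fun i _ => dens_nonneg _) (fun i _ => dens_le_one _)
        calc dens (c m) * ∏ x ∈ Finset.univ.erase m, dens (c x) ≤ dens (c m) * 1 := by
              have := dens_nonneg (c m)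
              gcongr
          _ = _ := mul_one _
    _ ≤ rexp (-(sq (c m)) / 2) := dens_le _
    _ ≤ rexp 1 * rexp (-1 * k) := by
        rw [← Real.exp_add]
        apply Real.exp_le_exp.2
        nlinarith [sq_nonneg ((k:ℝ) - 1)]

/-- **Gaussian form.** -/
theorem gaussian_finite (h : ∫⁻ c in BM S 1, NP c < ⊤) : ∫⁻ c, NP c ∂(gS S) < ⊤ := by
  set D := Module.finrank ℝ (S → ℝ × ℝ) with hD
  have hmN := measurable_NP (S := S)
  have hmd : Measurable fun c : S → ℝ × ℝ => ENNReal.ofReal (∏ m : S, dens (c m)) := by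
    refine Measurable.ennreal_ofReal ?_
    exact Finset.measurable_fun_prod _ fun m _ => measurable_dens.comp (measurable_pi_apply m)
  rw [gS_eq, lintegral_withDensity_eq_lintegral_mul _ hmd hmN]
  simp only [Pi.mul_apply]
  have hpt : ∀ c : S → ℝ × ℝ, ENNReal.ofReal (∏ m : S, dens (c m)) * NP c ≤
      ∑' k : ℕ, ENNReal.ofReal (rexp 1 * rexp (-1 * k)) * (BM S (k + 1)).indicator NP c := by
    intro c
    classical
    have hex : ∃ k : ℕ, c ∈ BM S (k + 1) := by
      obtain ⟨B, hB⟩ : ∃ B : ℝ, ∀ m : S, sq (c m) ≤ B := by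
        obtain ⟨B, hB⟩ := (Set.finite_range (fun m : S => sq (c m))).bddAbove
        exact ⟨B, fun m => hB ⟨m, rfl⟩⟩
      obtain ⟨k, hk⟩ := exists_nat_ge B
      refine ⟨k, fun m => (hB m).trans ?_⟩
      have : (0:ℝ) ≤ k := Nat.cast_nonneg k
      nlinarith
    set k := Nat.find hex with hk
    have hk1 : c ∈ BM S (k + 1) := Nat.find_spec hex
    refine le_trans ?_ (ENNReal.le_tsum k)
    rw [indicator_of_mem hk1]
    gcongr
    rcases Nat.eq_zero_or_pos k with h0 | h0
    · rw [h0]
      simp only [CharP.cast_eq_zero, mul_zero, Real.exp_zero, mul_one]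
      calc ∏ m : S, dens (c m) ≤ 1 :=
            Finset.prod_le_one (fun i _ => dens_nonneg _) (fun i _ => dens_le_one _)
        _ ≤ rexp 1 := Real.one_le_exp (by norm_num)
    · apply prod_dens_le
      have h2 : k - 1 < Nat.find hex := by omega
      have h3 := Nat.find_min hex h2
      have h4 : ((k - 1 : ℕ) : ℝ) + 1 = k := by
        rw [Nat.cast_sub h0]; simp
      rwa [h4] at h3
  calc ∫⁻ c, ENNReal.ofReal (∏ m : S, dens (c m)) * NP c
      ≤ ∫⁻ c, ∑' k : ℕ, ENNReal.ofReal (rexp 1 * rexp (-1 * k)) *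
        (BM S (k + 1)).indicator NP c := lintegral_mono hpt
    _ = ∑' k : ℕ, ENNReal.ofReal (rexp 1 * rexp (-1 * k)) *
        ∫⁻ c in BM S (k + 1), NP c := by
        rw [lintegral_tsum fun k => ((hmN.indicator (measurableSet_BM _)).const_mul _).aemeasurable]
        congr 1
        ext1 k
        rw [lintegral_const_mul' _ _ ENNReal.ofReal_ne_top, lintegral_indicator (measurableSet_BM _)]
    _ = ∑' k : ℕ, ENNReal.ofReal (rexp 1 * rexp (-1 * k) * ((k:ℝ) + 1) ^ D) *
        ∫⁻ c in BM S 1, NP c := by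
        congr 1
        ext1 k
        rw [lintegral_BM_scale (by positivity), ← mul_assoc, ← ENNReal.ofReal_mul (by positivity)]
    _ = (∑' k : ℕ, ENNReal.ofReal (rexp 1 * rexp (-1 * k) * ((k:ℝ) + 1) ^ D)) *
        ∫⁻ c in BM S 1, NP c := ENNReal.tsum_mul_right
    _ < ⊤ := by
        refine ENNReal.mul_lt_top ?_ h
        rw [← ENNReal.ofReal_tsum_of_nonneg (fun k => by positivity)]
        · exact ENNReal.ofReal_lt_top
        · have h1 := Real.summable_pow_mul_exp_neg_nat_mul D (r := 1) one_pos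
          have h2 := ((summable_nat_add_iff 1).2 h1).mul_left (rexp 1 * rexp 1)
          refine h2.congr fun k => ?_
          push_cast
          rw [show -1 * ((k:ℝ) + 1) = -1 * k + -1 by ring, Real.exp_add (-1 * (k:ℝ)),
            Real.exp_neg 1]
          have := (Real.exp_pos 1).ne'
          field_simp

end

end Pool.Agent.H709R2
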