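import Pool.Agent.H709R2.WNoOrb

/-! Volume of the coefficients whose leading part almost vanishes somewhere. -/

open Real Set MeasureTheory Topology Filter
open scoped ENNReal

namespace Pool.Agent.H709R2

noncomputable section

variable {S : Finset (ℕ × ℕ)}

/-- slicing in one coefficient vector -/
lemma vol_shift2 (e : S) {ρ : ℝ} {E : Set (S → ℝ × ℝ)}
    (hE : MeasurableSet E) (hEρ : E ⊆ Metric.closedBall 0 ρ) {β : ℝ≥0∞}
    (h : ∀ c, volume {τ : ℝ × ℝ | (Pi.single e τ : S → ℝ × ℝ) + c ∈ E} ≤ β) :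
    volume E ≤ β * volume (Metric.closedBall (0 : S → ℝ × ℝ) (ρ + 1)) := by
  refine volume_le_slice (T := fun τ : ℝ × ℝ => (Pi.single e τ : S → ℝ × ℝ))
    (ν := volume) (J := Icc (0:ℝ) 1 ×ˢ Icc (0:ℝ) 1) (measurable_single e)
    (measurableSet_Icc.prod measurableSet_Icc) ?_ hE Metric.isClosed_closedBall.measurableSet ?_ ?_
  · rw [Measure.volume_eq_prod, Measure.prod_prod, Real.volume_Icc]
    simp
  · intro c τ hτ hc
    rw [mem_closedBall_zero_iff]
    have h1 := mem_closedBall_zero_iff.1 (hEρ hc)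
    have h2 : ‖(Pi.single e τ : S → ℝ × ℝ)‖ ≤ 1 := by
      refine (norm_single_le e τ).trans ?_
      rw [Prod.norm_def, max_le_iff, Real.norm_eq_abs, Real.norm_eq_abs, abs_le, abs_le]
      exact ⟨⟨by linarith [hτ.1.1], hτ.1.2⟩, by linarith [hτ.2.1], hτ.2.2⟩
    exact (norm_le_add' (Pi.single e τ : S → ℝ × ℝ) c).trans (add_le_add h1 h2)
  · intro c _
    exact (measure_mono inter_subset_right).trans (h c)

lemma continuous_topf (n : ℕ) (z : ℝ × ℝ) : Continuous fun c : S → ℝ × ℝ => topf n c z := by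
  unfold topf
  refine continuous_finsetSum _ fun m _ => ?_
  split_ifs
  · have h : Continuous fun c : S → ℝ × ℝ => c m := continuous_apply m
    exact h.const_smul (z.1 ^ m.1.1 * z.2 ^ m.1.2)
  · exact continuous_const

lemma topf_single_add (n : ℕ) (e : S) (he : e.1.1 + e.1.2 = n) {z : ℝ × ℝ}
    (hz : z.1 ^ e.1.1 * z.2 ^ e.1.2 = 1) (τ : ℝ × ℝ) (c : S → ℝ × ℝ) :
    topf n ((Pi.single e τ : S → ℝ × ℝ) + c) z = τ + topf n c z := by
  classical
  have h1 : topf n (Pi.single e τ : S → ℝ × ℝ) z = τ := by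
    unfold topf
    rw [Finset.sum_eq_single e]
    · rw [if_pos he, hz, one_smul, Pi.single_eq_same]
    · intro k _ hk
      rw [Pi.single_eq_of_ne hk, smul_zero, ite_self]
    · intro h
      exact absurd (Finset.mem_univ e) h
  have h2 : topf n ((Pi.single e τ : S → ℝ × ℝ) + c) z =
      topf n (Pi.single e τ : S → ℝ × ℝ) z + topf n c z := by
    unfold topf
    rw [← Finset.sum_add_distrib]
    refine Finset.sum_congr rfl fun m _ => ?_
    split_ifs
    · rw [Pi.add_apply, smul_add]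
    · rw [add_zero]
  rw [h2, h1]

/-- coefficients for which the leading part is small at `z` -/
def smallAt (S : Finset (ℕ × ℕ)) (n : ℕ) (M ρ : ℝ) (z : ℝ × ℝ) : Set (S → ℝ × ℝ) :=
  BM S M ∩ {c | ‖topf n c z‖ ≤ ρ}

lemma measurableSet_smallAt (n : ℕ) (M ρ : ℝ) (z : ℝ × ℝ) :
    MeasurableSet (smallAt S n M ρ z) :=
  (measurableSet_BM M).inter (measurableSet_le (continuous_topf n z).norm.measurable
    measurable_const)

lemma vol_smallAt {n : ℕ} (e : S) (he : e.1.1 + e.1.2 = n) {z : ℝ × ℝ}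
    (hz : z.1 ^ e.1.1 * z.2 ^ e.1.2 = 1) {M ρ : ℝ} (hM : 0 ≤ M) :
    volume (smallAt S n M ρ z) ≤ (ENNReal.ofReal (2 * ρ) * ENNReal.ofReal (2 * ρ)) *
      volume (Metric.closedBall (0 : S → ℝ × ℝ) (M + 1)) := by
  refine vol_shift2 e (measurableSet_smallAt n M ρ z)
    (inter_subset_left.trans (BM_subset hM)) fun c => ?_
  refine (measure_mono (t := sqr (-(topf n c z)) ρ) ?_).trans ?_
  · rintro τ ⟨-, hτ⟩
    rw [mem_sqr, sub_neg_eq_add]
    simp only [mem_ofPred_eq] at hτ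
    rwa [topf_single_add n e he hz] at hτ
  · unfold sqr
    rw [Measure.volume_eq_prod, Measure.prod_prod, Real.volume_Icc, Real.volume_Icc]
    ring_nf
    exact le_rfl

/-- Lipschitz bound for the leading part on the unit box -/
lemma topf_lip {n : ℕ} {c : S → ℝ × ℝ} {M : ℝ} (hc : ‖c‖ ≤ M) {z w : ℝ × ℝ}
    (hz : ‖z‖ ≤ 1) (hw : ‖w‖ ≤ 1) :
    ‖topf n c z - topf n c w‖ ≤ Fintype.card S * (n * M) * ‖z - w‖ := by
  have hM : 0 ≤ M := (norm_nonneg _).trans hc
  have hpow : ∀ (a b : ℝ) (k : ℕ), |a| ≤ 1 → |b| ≤ 1 → |a ^ k - b ^ k| ≤ k * |a - b| := by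
    intro a b k ha hb
    induction k with
    | zero => simp
    | succ k ih =>
      have e1 : a ^ (k + 1) - b ^ (k + 1) = a ^ k * (a - b) + (a ^ k - b ^ k) * b := by ring
      rw [e1]
      refine (abs_add_le _ _).trans ?_
      rw [abs_mul, abs_mul, abs_pow]
      push_cast
      have h1 : |a| ^ k ≤ 1 := pow_le_one₀ (abs_nonneg _) ha
      have h2 : |a ^ k - b ^ k| * |b| ≤ k * |a - b| * 1 := by gcongr
      nlinarith [abs_nonneg (a - b)]
  have hz1 : |z.1| ≤ 1 := (norm_fst_le z).trans hz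
  have hz2 : |z.2| ≤ 1 := (norm_snd_le z).trans hz
  have hw1 : |w.1| ≤ 1 := (norm_fst_le w).trans hw
  have hw2 : |w.2| ≤ 1 := (norm_snd_le w).trans hw
  have hd1 : |z.1 - w.1| ≤ ‖z - w‖ := norm_fst_le (z - w)
  have hd2 : |z.2 - w.2| ≤ ‖z - w‖ := norm_snd_le (z - w)
  unfold topf
  rw [← Finset.sum_sub_distrib]
  refine (norm_sum_le _ _).trans ?_
  calc ∑ m : S, ‖(if m.1.1 + m.1.2 = n then (z.1 ^ m.1.1 * z.2 ^ m.1.2) • c m else 0) -
        (if m.1.1 + m.1.2 = n then (w.1 ^ m.1.1 * w.2 ^ m.1.2) • c m else 0)‖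
      ≤ ∑ m : S, (n * M) * ‖z - w‖ := by
        refine Finset.sum_le_sum fun m _ => ?_
        split_ifs with h
        · rw [← sub_smul, norm_smul, Real.norm_eq_abs]
          have h1 : ‖c m‖ ≤ M := (norm_le_pi_norm c m).trans hc
          have e1 : z.1 ^ m.1.1 * z.2 ^ m.1.2 - w.1 ^ m.1.1 * w.2 ^ m.1.2 =
              (z.1 ^ m.1.1 - w.1 ^ m.1.1) * z.2 ^ m.1.2 +
                w.1 ^ m.1.1 * (z.2 ^ m.1.2 - w.2 ^ m.1.2) := by ring
          have e2 : |z.1 ^ m.1.1 * z.2 ^ m.1.2 - w.1 ^ m.1.1 * w.2 ^ m.1.2| ≤ n * ‖z - w‖ := by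
            rw [e1]
            refine (abs_add_le _ _).trans ?_
            rw [abs_mul, abs_mul, abs_pow, abs_pow]
            have a1 := hpow z.1 w.1 m.1.1 hz1 hw1
            have a2 := hpow z.2 w.2 m.1.2 hz2 hw2
            have a3 : |z.2| ^ m.1.2 ≤ 1 := pow_le_one₀ (abs_nonneg _) hz2
            have a4 : |w.1| ^ m.1.1 ≤ 1 := pow_le_one₀ (abs_nonneg _) hw1
            calc |z.1 ^ m.1.1 - w.1 ^ m.1.1| * |z.2| ^ m.1.2 +
                  |w.1| ^ m.1.1 * |z.2 ^ m.1.2 - w.2 ^ m.1.2|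
                ≤ (m.1.1 * |z.1 - w.1|) * 1 + 1 * (m.1.2 * |z.2 - w.2|) := by gcongr
              _ ≤ (m.1.1 * ‖z - w‖) * 1 + 1 * (m.1.2 * ‖z - w‖) := by gcongr
              _ = ((m.1.1 + m.1.2 : ℕ) : ℝ) * ‖z - w‖ := by push_cast; ring
              _ = n * ‖z - w‖ := by rw [h]
          calc |z.1 ^ m.1.1 * z.2 ^ m.1.2 - w.1 ^ m.1.1 * w.2 ^ m.1.2| * ‖c m‖
              ≤ (n * ‖z - w‖) * M := by gcongr
            _ = _ := by ring
        · rw [sub_self, norm_zero]; positivity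
    _ = _ := by
        rw [Finset.sum_const, Finset.card_univ, nsmul_eq_mul]
        ring

/-- the exceptional set of coefficients -/
def KR (S : Finset (ℕ × ℕ)) (n : ℕ) (M ρ : ℝ) (N : ℕ) : Set (S → ℝ × ℝ) :=
  ⋃ j ∈ Finset.Icc (-(N : ℤ)) N,
    (smallAt S n M ρ (1, (j : ℝ) / N) ∪ smallAt S n M ρ ((j : ℝ) / N, 1))

lemma measurableSet_KR (n : ℕ) (M ρ : ℝ) (N : ℕ) : MeasurableSet (KR S n M ρ N) := by
  unfold KR
  exact Finset.measurableSet_biUnion _ fun j _ =>
    (measurableSet_smallAt _ _ _ _).union (measurableSet_smallAt _ _ _ _)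

lemma KR_subset (n : ℕ) (M ρ : ℝ) (N : ℕ) : KR S n M ρ N ⊆ BM S M := by
  unfold KR
  refine iUnion₂_subset fun j _ => ?_
  exact union_subset inter_subset_left inter_subset_left

lemma vol_KR {n : ℕ} (hn0 : (n, 0) ∈ S) (h0n : (0, n) ∈ S) {M ρ : ℝ} (hM : 0 ≤ M) (hρ : 0 ≤ ρ)
    (N : ℕ) : volume (KR S n M ρ N) ≤ ENNReal.ofReal ((2 * N + 1) * (8 * ρ ^ 2)) *
      volume (Metric.closedBall (0 : S → ℝ × ℝ) (M + 1)) := by
  unfold KR
  refine (measure_biUnion_finset_le _ _).trans ?_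
  calc ∑ j ∈ Finset.Icc (-(N : ℤ)) N, volume (smallAt S n M ρ (1, (j : ℝ) / N) ∪
        smallAt S n M ρ ((j : ℝ) / N, 1))
      ≤ ∑ j ∈ Finset.Icc (-(N : ℤ)) N, ENNReal.ofReal (8 * ρ ^ 2) *
        volume (Metric.closedBall (0 : S → ℝ × ℝ) (M + 1)) := by
        refine Finset.sum_le_sum fun j _ => ?_
        refine (measure_union_le _ _).trans ?_
        have h1 := vol_smallAt (S := S) (n := n) ⟨(n, 0), hn0⟩ (by simp) (z := (1, (j : ℝ) / N))
          (by simp) (ρ := ρ) hM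
        have h2 := vol_smallAt (S := S) (n := n) ⟨(0, n), h0n⟩ (by simp) (z := ((j : ℝ) / N, 1))
          (by simp) (ρ := ρ) hM
        refine (add_le_add h1 h2).trans (le_of_eq ?_)
        rw [← add_mul, ← ENNReal.ofReal_mul (by positivity),
          ← ENNReal.ofReal_add (by positivity) (by positivity)]
        congr 2
        ring
    _ = _ := by
        rw [Finset.sum_const, nsmul_eq_mul, ← mul_assoc, Int.card_Icc]
        congr 1
        have : (((N : ℤ) + 1 - (-(N : ℤ))).toNat) = 2 * N + 1 := by omega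
        rw [this, ← ENNReal.ofReal_natCast, ← ENNReal.ofReal_mul (by positivity)]
        push_cast
        ring_nf

/-- constant of the exceptional set -/
def cK (S : Finset (ℕ × ℕ)) (n : ℕ) (M : ℝ) : ℝ :=
  6 * 2 ^ n * (Fintype.card S * M) + Fintype.card S * (n * M)

lemma cK_nonneg (n : ℕ) {M : ℝ} (hM : 0 ≤ M) : 0 ≤ cK S n M := by unfold cK; positivity

lemma big_of_notMem_KR {n : ℕ} (hn : Even n) {M : ℝ} (hM : 0 ≤ M) {R : ℝ} (hR : 1 ≤ R) {N : ℕ}
    (hN : R ≤ N) {c : S → ℝ × ℝ} (hc : c ∈ BM S M) (hcK : c ∉ KR S n M (cK S n M / R) N)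
    {z : ℝ × ℝ} (hz : z ≠ 0) :
    16 * (2 * (Fintype.card S * M / R) ^ 2) * sq z ^ n < sq (topf n c z) := by
  have hR0 : 0 < R := by linarith
  have hN0 : (0:ℝ) < N := by linarith
  have hcM := norm_le_of_mem_BM hM hc
  -- lower bound on the unit box
  have key : ∀ w : ℝ × ℝ, ‖w‖ = 1 →
      6 * 2 ^ n * (Fintype.card S * M) / R < ‖topf n c w‖ := by
    -- points on the right and upper sides
    have key1 : ∀ u : ℝ, |u| ≤ 1 → 6 * 2 ^ n * (Fintype.card S * M) / R < ‖topf n c (1, u)‖ ∧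
        6 * 2 ^ n * (Fintype.card S * M) / R < ‖topf n c (u, 1)‖ := by
      intro u hu
      have hu' := abs_le.1 hu
      set j : ℤ := ⌊u * N⌋ with hj
      have hj1 : (j : ℝ) ≤ u * N := Int.floor_le _
      have hj2 : u * N < j + 1 := Int.lt_floor_add_one _
      have hjN : j ∈ Finset.Icc (-(N : ℤ)) N := by
        rw [Finset.mem_Icc]
        constructor
        · have : ((-(N : ℤ) : ℤ) : ℝ) ≤ u * N := by
            push_cast
            nlinarith
          exact Int.le_floor.2 this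
        · have : (j : ℝ) ≤ N := by nlinarith
          exact_mod_cast this
      have hdist : |u - (j : ℝ) / N| ≤ 1 / R := by
        have e1 : u - (j : ℝ) / N = (u * N - j) / N := by field_simp
        rw [e1, abs_div, abs_of_pos hN0, abs_of_nonneg (by linarith)]
        calc (u * N - j) / N ≤ 1 / N := by gcongr; linarith
          _ ≤ 1 / R := by gcongr
      have hjabs : |(j : ℝ) / N| ≤ 1 := by
        rw [Finset.mem_Icc] at hjN
        rw [abs_div, abs_of_pos hN0, div_le_one hN0, abs_le]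
        constructor
        · have : ((-(N : ℤ) : ℤ) : ℝ) ≤ j := by exact_mod_cast hjN.1
          simpa using this
        · exact_mod_cast hjN.2
      have hnot : c ∉ smallAt S n M (cK S n M / R) (1, (j : ℝ) / N) ∧
          c ∉ smallAt S n M (cK S n M / R) ((j : ℝ) / N, 1) := by
        constructor
        · intro h
          exact hcK (mem_biUnion hjN (Or.inl h))
        · intro h
          exact hcK (mem_biUnion hjN (Or.inr h))
      have hbig : cK S n M / R < ‖topf n c (1, (j : ℝ) / N)‖ ∧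
          cK S n M / R < ‖topf n c ((j : ℝ) / N, 1)‖ := by
        constructor
        · by_contra h
          exact hnot.1 ⟨hc, not_lt.1 h⟩
        · by_contra h
          exact hnot.2 ⟨hc, not_lt.1 h⟩
      have e0 : cK S n M / R = 6 * 2 ^ n * (Fintype.card S * M) / R +
          Fintype.card S * (n * M) * (1 / R) := by unfold cK; ring
      have hn1 : ‖((1:ℝ), (j : ℝ) / N)‖ ≤ 1 := by
        rw [Prod.norm_def, max_le_iff]; exact ⟨by simp, hjabs⟩
      have hn2 : ‖((1:ℝ), u)‖ ≤ 1 := by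
        rw [Prod.norm_def, max_le_iff]; exact ⟨by simp, hu⟩
      have hn3 : ‖((j : ℝ) / N, (1:ℝ))‖ ≤ 1 := by
        rw [Prod.norm_def, max_le_iff]; exact ⟨hjabs, by simp⟩
      have hn4 : ‖(u, (1:ℝ))‖ ≤ 1 := by
        rw [Prod.norm_def, max_le_iff]; exact ⟨hu, by simp⟩
      have d1 : ‖((1:ℝ), (j : ℝ) / N) - ((1:ℝ), u)‖ ≤ 1 / R := by
        rw [Prod.norm_def, max_le_iff]
        simp only [Prod.mk_sub_mk, sub_self, norm_zero]
        refine ⟨by positivity, ?_⟩
        rw [Real.norm_eq_abs, abs_sub_comm]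
        exact hdist
      have d2 : ‖((j : ℝ) / N, (1:ℝ)) - (u, (1:ℝ))‖ ≤ 1 / R := by
        rw [Prod.norm_def, max_le_iff]
        simp only [Prod.mk_sub_mk, sub_self, norm_zero]
        refine ⟨?_, by positivity⟩
        rw [Real.norm_eq_abs, abs_sub_comm]
        exact hdist
      have l1 := topf_lip (n := n) hcM hn1 hn2
      have l2 := topf_lip (n := n) hcM hn3 hn4
      have t1 : ‖topf n c (1, (j : ℝ) / N)‖ ≤ ‖topf n c (1, u)‖ +
          Fintype.card S * (n * M) * (1 / R) := by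
        calc ‖topf n c (1, (j : ℝ) / N)‖ = ‖topf n c (1, u) +
              (topf n c (1, (j : ℝ) / N) - topf n c (1, u))‖ := by congr 1; abel
          _ ≤ _ := norm_add_le _ _
          _ ≤ _ := by
              gcongr
              exact l1.trans (by gcongr)
      have t2 : ‖topf n c ((j : ℝ) / N, 1)‖ ≤ ‖topf n c (u, 1)‖ +
          Fintype.card S * (n * M) * (1 / R) := by
        calc ‖topf n c ((j : ℝ) / N, 1)‖ = ‖topf n c (u, 1) +
              (topf n c ((j : ℝ) / N, 1) - topf n c (u, 1))‖ := by congr 1; abel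
          _ ≤ _ := norm_add_le _ _
          _ ≤ _ := by
              gcongr
              exact l2.trans (by gcongr)
      constructor
      · linarith [hbig.1]
      · linarith [hbig.2]
    have hneg : ∀ w : ℝ × ℝ, ‖topf n c w‖ = ‖topf n c (-w)‖ := by
      intro w
      have : -w = (-1 : ℝ) • w := by simp
      rw [this, topf_smul, hn.neg_one_pow, one_smul]
    intro w hw
    rw [Prod.norm_def] at hw
    rcases max_choice ‖w.1‖ ‖w.2‖ with h | h
    · rw [h] at hw
      have hw2 : |w.2| ≤ 1 := by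
        have := le_max_right ‖w.1‖ ‖w.2‖
        rw [h, hw] at this
        exact this
      rcases eq_or_eq_neg_of_abs_eq hw with h1 | h1
      · have := (key1 w.2 hw2).1
        rwa [← h1] at this
      · have := (key1 (-w.2) (by rwa [abs_neg])).1
        rw [hneg w]
        have e : -w = (1, -w.2) := by ext <;> simp [h1]
        rwa [e]
    · rw [h] at hw
      have hw1 : |w.1| ≤ 1 := by
        have := le_max_left ‖w.1‖ ‖w.2‖
        rw [h, hw] at this
        exact this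
      rcases eq_or_eq_neg_of_abs_eq hw with h1 | h1
      · have := (key1 w.1 hw1).2
        rwa [← h1] at this
      · have := (key1 (-w.1) (by rwa [abs_neg])).2
        rw [hneg w]
        have e : -w = (-w.1, 1) := by ext <;> simp [h1]
        rwa [e]
  set r := ‖z‖ with hr
  have hr0 : 0 < r := norm_pos_iff.2 hz
  set w := r⁻¹ • z with hw
  have hwn : ‖w‖ = 1 := by
    rw [hw, norm_smul, norm_inv, Real.norm_eq_abs, abs_of_pos hr0, ← hr, inv_mul_cancel₀ hr0.ne']
  have hzw : z = r • w := by rw [hw, smul_smul, mul_inv_cancel₀ hr0.ne', one_smul]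
  have h1 := key w hwn
  have h2 : sq w ≤ 2 := by
    have := sq_le_norm w
    rw [hwn] at this
    linarith
  have h3 : 0 ≤ sq w := sq_nonneg' w
  have h4 : sq z = r ^ 2 * sq w := by
    conv_lhs => rw [hzw]
    unfold sq
    simp only [Prod.smul_fst, Prod.smul_snd, smul_eq_mul]
    ring
  have h5 : sq (topf n c z) = (r ^ n) ^ 2 * sq (topf n c w) := by
    conv_lhs => rw [hzw, topf_smul]
    unfold sq
    simp only [Prod.smul_fst, Prod.smul_snd, smul_eq_mul]
    ring
  have h6 := norm_le_sq (topf n c w)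
  set B : ℝ := Fintype.card S * M / R with hB
  have hB0 : 0 ≤ B := by positivity
  have h7 : (6 * 2 ^ n * B) ^ 2 < sq (topf n c w) := by
    have e1 : 6 * 2 ^ n * B < ‖topf n c w‖ := by
      refine lt_of_le_of_lt (le_of_eq ?_) h1
      rw [hB]; ring
    have e2 : (6 * 2 ^ n * B) ^ 2 < ‖topf n c w‖ ^ 2 := by gcongr
    linarith
  have h8 : 32 * 2 ^ n * B ^ 2 ≤ (6 * 2 ^ n * B) ^ 2 := by
    have e1 : (1:ℝ) ≤ 2 ^ n := one_le_pow₀ (by norm_num)
    have e2 : (2:ℝ) ^ n ≤ 2 ^ n * 2 ^ n := by nlinarith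
    calc 32 * 2 ^ n * B ^ 2 ≤ 32 * (2 ^ n * 2 ^ n) * B ^ 2 := by gcongr
      _ ≤ 36 * (2 ^ n * 2 ^ n) * B ^ 2 := by gcongr; norm_num
      _ = _ := by ring
  rw [h4, h5, mul_pow, ← pow_mul, mul_comm 2 n, pow_mul]
  have h9 : sq w ^ n ≤ 2 ^ n := pow_le_pow_left₀ h3 h2 n
  calc 16 * (2 * B ^ 2) * ((r ^ n) ^ 2 * sq w ^ n) = (r ^ n) ^ 2 * (32 * sq w ^ n * B ^ 2) := by ring
    _ ≤ (r ^ n) ^ 2 * (32 * 2 ^ n * B ^ 2) := by gcongr
    _ ≤ (r ^ n) ^ 2 * (6 * 2 ^ n * B) ^ 2 := by gcongr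
    _ < (r ^ n) ^ 2 * sq (topf n c w) := by gcongr

end

end Pool.Agent.H709R2
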