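import Pool.Agent.H709R2.WCell

/-! Measurability of the number of closed orbits satisfying a closed pair condition. -/

open Real Set MeasureTheory Topology Filter
open scoped ENNReal

namespace Pool.Agent.H709R2

noncomputable section

variable {S : Finset (ℕ × ℕ)}

/-- closed orbits of `V` in `Ω` having a pair of points in `F` -/
def ClsF (V : ℝ × ℝ → ℝ × ℝ) (Ω : Set (ℝ × ℝ)) (F : Set ((ℝ × ℝ) × (ℝ × ℝ))) :
    Set (Set (ℝ × ℝ)) :=
  {C | ClosedOrbit V C ∧ C ⊆ Ω ∧ ∃ x ∈ C, ∃ y ∈ C, (x, y) ∈ F}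

/-- the compact pieces -/
def pieceF (u : ℝ → ℝ × ℝ → (S → ℝ × ℝ) → ℝ × ℝ) (M : ℝ) (Ω : Set (ℝ × ℝ))
    (F : Set ((ℝ × ℝ) × (ℝ × ℝ))) (m k : ℕ) :
    Set ((S → ℝ × ℝ) × (Fin m → ℝ × ℝ) × (Fin m → ℝ) × (Fin m → ℝ)) :=
  (Metric.closedBall 0 M ×ˢ (Set.univ.pi fun _ => Ω) ×ˢ
    (Set.univ.pi fun _ => Icc ((k + 1 : ℝ)⁻¹) (k + 1)) ×ˢ
      (Set.univ.pi fun _ => Icc (-(k + 1 : ℝ)) (k + 1))) ∩
  {z | (∀ i, u (z.2.2.1 i) (z.2.1 i) z.1 = z.2.1 i) ∧
    (∀ i t, u t (z.2.1 i) z.1 ∈ Ω) ∧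
    (∀ i, (k + 1 : ℝ)⁻¹ ≤ ‖fld z.1 (z.2.1 i)‖) ∧
    (∀ i, (z.2.1 i, u (z.2.2.2 i) (z.2.1 i) z.1) ∈ F) ∧
    (∀ i j, i ≠ j → ∀ t, (k + 1 : ℝ)⁻¹ ≤ ‖u t (z.2.1 i) z.1 - z.2.1 j‖)}

lemma isCompact_pieceF {u : ℝ → ℝ × ℝ → (S → ℝ × ℝ) → ℝ × ℝ}
    (hu : Continuous (fun z : ℝ × (ℝ × ℝ) × (S → ℝ × ℝ) => u z.1 z.2.1 z.2.2))
    (M : ℝ) {Ω : Set (ℝ × ℝ)} (hΩ : IsCompact Ω) {F : Set ((ℝ × ℝ) × (ℝ × ℝ))}
    (hF : IsClosed F) (m k : ℕ) :
    IsCompact (pieceF u M Ω F m k) := by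
  refine IsCompact.inter_right ?_ ?_
  · refine (isCompact_closedBall _ _).prod ((isCompact_univ_pi fun _ => hΩ).prod
      ((isCompact_univ_pi fun _ => isCompact_Icc).prod (isCompact_univ_pi fun _ => isCompact_Icc)))
  · have hp : ∀ i : Fin m, Continuous fun z : (S → ℝ × ℝ) × (Fin m → ℝ × ℝ) × (Fin m → ℝ) ×
        (Fin m → ℝ) => z.2.1 i := fun i => (continuous_apply i).comp (continuous_fst.comp
          continuous_snd)
    have hT : ∀ i : Fin m, Continuous fun z : (S → ℝ × ℝ) × (Fin m → ℝ × ℝ) × (Fin m → ℝ) ×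
        (Fin m → ℝ) => z.2.2.1 i := fun i => (continuous_apply i).comp (continuous_fst.comp
          (continuous_snd.comp continuous_snd))
    have hs : ∀ i : Fin m, Continuous fun z : (S → ℝ × ℝ) × (Fin m → ℝ × ℝ) × (Fin m → ℝ) ×
        (Fin m → ℝ) => z.2.2.2 i := fun i => (continuous_apply i).comp (continuous_snd.comp
          (continuous_snd.comp continuous_snd))
    have hut : ∀ (i : Fin m) (τ : (S → ℝ × ℝ) × (Fin m → ℝ × ℝ) × (Fin m → ℝ) ×
        (Fin m → ℝ) → ℝ), Continuous τ → Continuous fun z => u (τ z) (z.2.1 i) z.1 := by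
      intro i τ hτ
      exact hu.comp (hτ.prodMk ((hp i).prodMk continuous_fst))
    have hfl : ∀ i : Fin m, Continuous fun z : (S → ℝ × ℝ) × (Fin m → ℝ × ℝ) × (Fin m → ℝ) ×
        (Fin m → ℝ) => fld z.1 (z.2.1 i) := by
      intro i
      exact (contDiff_joint (m := 0)).continuous.comp (continuous_fst.prodMk (hp i))
    have c1 : IsClosed {z : (S → ℝ × ℝ) × (Fin m → ℝ × ℝ) × (Fin m → ℝ) × (Fin m → ℝ) |
        ∀ i, u (z.2.2.1 i) (z.2.1 i) z.1 = z.2.1 i} := by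
      simp only [ofPred_forall]
      exact isClosed_iInter fun i => isClosed_eq (hut i _ (hT i)) (hp i)
    have c2 : IsClosed {z : (S → ℝ × ℝ) × (Fin m → ℝ × ℝ) × (Fin m → ℝ) × (Fin m → ℝ) |
        ∀ i t, u t (z.2.1 i) z.1 ∈ Ω} := by
      simp only [ofPred_forall]
      exact isClosed_iInter fun i => isClosed_iInter fun t =>
        hΩ.isClosed.preimage (hut i (fun _ => t) continuous_const)
    have c3 : IsClosed {z : (S → ℝ × ℝ) × (Fin m → ℝ × ℝ) × (Fin m → ℝ) × (Fin m → ℝ) |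
        ∀ i, (k + 1 : ℝ)⁻¹ ≤ ‖fld z.1 (z.2.1 i)‖} := by
      simp only [ofPred_forall]
      exact isClosed_iInter fun i => isClosed_le continuous_const (hfl i).norm
    have c4 : IsClosed {z : (S → ℝ × ℝ) × (Fin m → ℝ × ℝ) × (Fin m → ℝ) × (Fin m → ℝ) |
        ∀ i, (z.2.1 i, u (z.2.2.2 i) (z.2.1 i) z.1) ∈ F} := by
      simp only [ofPred_forall]
      exact isClosed_iInter fun i => hF.preimage ((hp i).prodMk (hut i _ (hs i)))
    have c5 : IsClosed {z : (S → ℝ × ℝ) × (Fin m → ℝ × ℝ) × (Fin m → ℝ) × (Fin m → ℝ) |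
        ∀ i j, i ≠ j → ∀ t, (k + 1 : ℝ)⁻¹ ≤ ‖u t (z.2.1 i) z.1 - z.2.1 j‖} := by
      simp only [ofPred_forall]
      exact isClosed_iInter fun i => isClosed_iInter fun j => isClosed_iInter fun _ =>
        isClosed_iInter fun t => isClosed_le continuous_const
          ((hut i (fun _ => t) continuous_const).sub (hp j)).norm
    exact c1.inter (c2.inter (c3.inter (c4.inter c5)))

lemma level_eqF {u : ℝ → ℝ × ℝ → (S → ℝ × ℝ) → ℝ × ℝ} {M R : ℝ} {Ω : Set (ℝ × ℝ)}
    (hu : Continuous (fun z : ℝ × (ℝ × ℝ) × (S → ℝ × ℝ) => u z.1 z.2.1 z.2.2))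
    (hu0 : ∀ p c, u 0 p c = p)
    (hΩR : ∀ x ∈ Ω, ‖x‖ ≤ R)
    (hsol : ∀ c, ‖c‖ ≤ M → ∀ p, (∀ s, ‖u s p c‖ ≤ R) →
        ∀ t, HasDerivAt (fun t => u t p c) (fld c (u t p c)) t)
    (huniq : ∀ c, ‖c‖ ≤ M → ∀ γ : ℝ → ℝ × ℝ, (∀ t, HasDerivAt γ (fld c (γ t)) t) →
        (∀ t, ‖γ t‖ ≤ R) → ∀ t, γ t = u t (γ 0) c) (F : Set ((ℝ × ℝ) × (ℝ × ℝ)))
    (m : ℕ) :
    {c : S → ℝ × ℝ | ‖c‖ ≤ M ∧ (m : ℕ∞) ≤ (ClsF (fld c) Ω F).encard} =
      ⋃ k : ℕ, Prod.fst '' (pieceF u M Ω F m k) := by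
  ext c
  simp only [mem_ofPred_eq, mem_iUnion, mem_image]
  constructor
  · rintro ⟨hc, hm⟩
    obtain ⟨t, htsub, htm⟩ := Set.exists_subset_encard_eq hm
    have htf : t.Finite := Set.finite_of_encard_eq_coe htm
    have htn : t.ncard = m := by
      have := htf.cast_ncard_eq
      rw [htm] at this
      exact_mod_cast this
    have : Finite t := htf
    have e : Fin m ≃ t := by
      refine (Finite.equivFinOfCardEq ?_).symm
      rw [Nat.card_coe_set_eq]
      exact htn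
    -- data
    have hdata : ∀ i : Fin m, ∃ (p : ℝ × ℝ) (T s : ℝ), p ∈ (e i : Set (ℝ × ℝ)) ∧ 0 < T ∧
        u T p c = p ∧ (e i : Set (ℝ × ℝ)) = range (fun t => u t p c) ∧ fld c p ≠ 0 ∧
        (p, u s p c) ∈ F := by
      intro i
      obtain ⟨hC, hCΩ, x, hx, y, hy, hxy⟩ := htsub (e i).2
      obtain ⟨⟨T, hT, hTx⟩, hr, h0⟩ := closedOrbit_flow hΩR huniq hc hC hCΩ hx
      rw [hr] at hy
      obtain ⟨s, rfl⟩ := hy
      exact ⟨x, T, s, hx, hT, hTx, hr, h0, hxy⟩
    choose p T s hp hT hTp hr h0 hd using hdata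
    have hΩi : ∀ i, (e i : Set (ℝ × ℝ)) ⊆ Ω := fun i => (htsub (e i).2).2.1
    have huΩ : ∀ i t, u t (p i) c ∈ Ω := fun i t => hΩi i (by rw [hr i]; exact ⟨t, rfl⟩)
    have hcont : ∀ i, Continuous fun t => u t (p i) c := fun i =>
      hu.comp (f := fun t : ℝ => (t, p i, c)) (continuous_id.prodMk continuous_const)
    have hper : ∀ i, Function.Periodic (fun t => u t (p i) c) (T i) := by
      intro i t
      have h1 := huniq c hc (fun t => u (t + T i) (p i) c) (fun t => by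
        have := (hsol c hc (p i) (fun s => hΩR _ (huΩ i s)) (t + T i)).scomp t
          ((hasDerivAt_id t).add_const (T i))
        simp only [one_smul] at this
        exact this) (fun t => hΩR _ (huΩ i _)) t
      simp only [zero_add] at h1
      simp only
      rw [h1, hTp]
    -- separation
    have hsep : ∀ i j, i ≠ j → ∃ δ : ℝ, 0 < δ ∧ ∀ t, δ ≤ ‖u t (p i) c - p j‖ := by
      intro i j hij
      obtain ⟨t₁, ht₁⟩ := exists_max_periodic (f := fun t => -‖u t (p i) c - p j‖)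
        ((hcont i).sub continuous_const).norm.neg (hT i)
        (fun t => by have := hper i t; simp only at this ⊢; rw [this])
      refine ⟨‖u t₁ (p i) c - p j‖, ?_, fun t => by have := ht₁ t; linarith⟩
      rw [norm_pos_iff, sub_ne_zero]
      intro hc'
      apply hij
      apply e.injective
      apply Subtype.ext
      have hpj : p j ∈ (e i : Set (ℝ × ℝ)) := by
        rw [hr i, ← hc']; exact ⟨t₁, rfl⟩
      obtain ⟨-, h5, -⟩ := closedOrbit_flow hΩR huniq hc (htsub (e i).2).1 (hΩi i) hpj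
      rw [h5, hr j]
    choose! δ hδ hδ2 using hsep
    -- choice of k
    obtain ⟨B, hB⟩ : ∃ B : ℝ, ∀ z : Fin m × Fin m, max (max (T z.1) |s z.1|)
        (max (max (T z.1)⁻¹ ‖fld c (p z.1)‖⁻¹) (δ z.1 z.2)⁻¹) ≤ B := by
      obtain ⟨B, hB⟩ := (Set.finite_range (fun z : Fin m × Fin m => max (max (T z.1) |s z.1|)
        (max (max (T z.1)⁻¹ ‖fld c (p z.1)‖⁻¹) (δ z.1 z.2)⁻¹))).bddAbove
      exact ⟨B, fun z => hB ⟨z, rfl⟩⟩
    obtain ⟨k, hk⟩ := exists_nat_ge B
    have hk1 : (0:ℝ) < k + 1 := by positivity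
    have hBk : B ≤ k + 1 := by linarith
    have b1 : ∀ i, T i ≤ k + 1 := fun i => ((le_max_left _ _).trans ((le_max_left _ _).trans
      (hB (i, i)))).trans hBk
    have b2 : ∀ i, |s i| ≤ k + 1 := fun i => ((le_max_right _ _).trans ((le_max_left _ _).trans
      (hB (i, i)))).trans hBk
    have b3 : ∀ i, (T i)⁻¹ ≤ k + 1 := fun i => ((le_max_left _ _).trans ((le_max_left _ _).trans
      ((le_max_right _ _).trans (hB (i, i))))).trans hBk
    have b4 : ∀ i, ‖fld c (p i)‖⁻¹ ≤ k + 1 := fun i => ((le_max_right _ _).trans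
      ((le_max_left _ _).trans ((le_max_right _ _).trans (hB (i, i))))).trans hBk
    have b5 : ∀ i j, (δ i j)⁻¹ ≤ k + 1 := fun i j => ((le_max_right _ _).trans
      ((le_max_right _ _).trans (hB (i, j)))).trans hBk
    refine ⟨k, (c, p, T, s), ⟨⟨?_, ?_, ?_, ?_⟩, ?_, ?_, ?_, ?_, ?_⟩, rfl⟩
    · rw [mem_closedBall_zero_iff]; exact hc
    · intro i _
      exact hΩi i (hp i)
    · intro i _
      exact ⟨inv_le_of_inv_le₀ (hT i) (b3 i), b1 i⟩
    · intro i _
      exact abs_le.1 (b2 i)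
    · exact hTp
    · exact huΩ
    · intro i
      exact inv_le_of_inv_le₀ (norm_pos_iff.2 (h0 i)) (b4 i)
    · exact hd
    · intro i j hij t
      exact (inv_le_of_inv_le₀ (hδ i j hij) (b5 i j)).trans (hδ2 i j hij t)
  · rintro ⟨k, ⟨c', p, T, s⟩, ⟨⟨h1, h2, h3, h4⟩, h5, h6, h7, h8, h9⟩, rfl⟩
    simp only at h1 h2 h3 h4 h5 h6 h7 h8 h9 ⊢
    have hc : ‖c'‖ ≤ M := by rwa [mem_closedBall_zero_iff] at h1
    have hk1 : (0:ℝ) < ((k:ℝ) + 1)⁻¹ := by positivity
    refine ⟨hc, ?_⟩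
    have hsol' : ∀ i t, HasDerivAt (fun t => u t (p i) c') (fld c' (u t (p i) c')) t :=
      fun i => hsol c' hc (p i) (fun s => hΩR _ (h6 i s))
    have hcl : ∀ i, range (fun t => u t (p i) c') ∈ ClsF (fld c') Ω F := by
      intro i
      have hTi : 0 < T i := lt_of_lt_of_le hk1 (h3 i trivial).1
      refine ⟨⟨fun t => u t (p i) c', T i, hTi, hsol' i, ?_, ?_, rfl⟩, ?_, p i, ?_,
        u (s i) (p i) c', ⟨s i, rfl⟩, h8 i⟩
      · intro t
        have e1 := huniq c' hc (fun t => u (t + T i) (p i) c') (fun t => by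
          have := (hsol' i (t + T i)).scomp t ((hasDerivAt_id t).add_const (T i))
          simp only [one_smul] at this
          exact this) (fun t => hΩR _ (h6 i _)) t
        simp only [zero_add] at e1
        simp only
        rw [e1, h5]
      · by_contra hcon
        push Not at hcon
        have e1 : (fun t => u t (p i) c') = fun _ => p i := by
          ext1 t
          rw [hcon t 0, hu0]
        have e2 := hsol' i 0
        rw [hu0, e1] at e2
        have e3 := e2.unique (hasDerivAt_const 0 (p i))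
        have e4 := h7 i
        rw [e3, norm_zero] at e4
        linarith
      · rintro _ ⟨t, rfl⟩
        exact h6 i t
      · exact ⟨0, hu0 _ _⟩
    have hinj : Function.Injective fun i => range (fun t => u t (p i) c') := by
      intro i j hij
      by_contra hne
      simp only at hij
      have : p j ∈ range (fun t => u t (p i) c') := by
        rw [hij]; exact ⟨0, hu0 _ _⟩
      obtain ⟨t, ht⟩ := this
      have e1 := h9 i j hne t
      simp only at ht
      rw [ht, sub_self, norm_zero] at e1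
      linarith
    calc (m : ℕ∞) = (range fun i => range (fun t => u t (p i) c')).encard := by
          rw [← Set.image_univ, hinj.encard_image, Set.encard_univ]
          simp
      _ ≤ _ := by
          apply Set.encard_le_encard
          rintro _ ⟨i, rfl⟩
          exact hcl i

theorem measurable_countF {Ω : Set (ℝ × ℝ)} (hΩ : IsCompact Ω)
    {F : Set ((ℝ × ℝ) × (ℝ × ℝ))} (hF : IsClosed F) :
    Measurable (fun c : S → ℝ × ℝ => ((ClsF (fld c) Ω F).encard : ℝ≥0∞)) := by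
  obtain ⟨R, hR⟩ := hΩ.isBounded.exists_norm_le
  have hlev : ∀ m : ℕ, MeasurableSet {c : S → ℝ × ℝ | (m : ℕ∞) ≤ (ClsF (fld c) Ω F).encard} := by
    intro m
    have h1 : {c : S → ℝ × ℝ | (m : ℕ∞) ≤ (ClsF (fld c) Ω F).encard} =
        ⋃ M : ℕ, {c : S → ℝ × ℝ | ‖c‖ ≤ M ∧ (m : ℕ∞) ≤ (ClsF (fld c) Ω F).encard} := by
      ext c
      simp only [mem_ofPred_eq, mem_iUnion]
      constructor
      · intro h
        obtain ⟨M, hM⟩ := exists_nat_ge ‖c‖
        exact ⟨M, hM, h⟩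
      · rintro ⟨M, -, h⟩
        exact h
    rw [h1]
    refine MeasurableSet.iUnion fun M => ?_
    obtain ⟨u, hu, hu0, hsol, huniq⟩ := exists_parFlow S M R
    rw [level_eqF hu hu0 hR hsol huniq F m]
    refine MeasurableSet.iUnion fun k => ?_
    exact ((isCompact_pieceF hu M hΩ hF m k).image continuous_fst).measurableSet
  refine measurable_of_Ici fun x => ?_
  by_cases hx : x = ⊤
  · have : (fun c : S → ℝ × ℝ => ((ClsF (fld c) Ω F).encard : ℝ≥0∞)) ⁻¹' Ici x =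
        ⋂ m : ℕ, {c : S → ℝ × ℝ | (m : ℕ∞) ≤ (ClsF (fld c) Ω F).encard} := by
      ext c
      simp only [mem_preimage, mem_Ici, mem_iInter, mem_ofPred_eq, hx, top_le_iff]
      constructor
      · intro h m
        have : (ClsF (fld c) Ω F).encard = ⊤ := by simpa using h
        rw [this]; exact le_top
      · intro h
        have : (ClsF (fld c) Ω F).encard = ⊤ := ENat.eq_top_iff_forall_ge.2 h
        rw [this]; rfl
    rw [this]
    exact MeasurableSet.iInter fun m => hlev m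
  · have : (fun c : S → ℝ × ℝ => ((ClsF (fld c) Ω F).encard : ℝ≥0∞)) ⁻¹' Ici x =
        {c : S → ℝ × ℝ | ((⌈x.toReal⌉₊ : ℕ) : ℕ∞) ≤ (ClsF (fld c) Ω F).encard} := by
      ext c
      simp only [mem_preimage, mem_Ici, mem_ofPred_eq]
      generalize (ClsF (fld c) Ω F).encard = N
      induction N using ENat.recTopCoe with
      | top => simp
      | coe n =>
        rw [ENat.toENNReal_coe, Nat.cast_le, Nat.ceil_le]
        rw [← ENNReal.toReal_le_toReal hx (ENNReal.natCast_ne_top n)]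
        simp
    rw [this]
    exact hlev _

end

end Pool.Agent.H709R2
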