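import Pool.Agent.H709R2.WPlus

/-! Fields of even degree: no closed orbits near infinity unless the leading part almost vanishes
somewhere. -/

open Real Set MeasureTheory Topology Filter
open scoped ENNReal

namespace Pool.Agent.H709R2

noncomputable section

variable {S : Finset (ℕ × ℕ)}

/-- a periodic function all of whose zeros are crossed upwards has no zeros -/
lemma no_zero_of_cross {f f' : ℝ → ℝ} (hf : ∀ t, HasDerivAt f (f' t) t) {T : ℝ} (hT : 0 < T)
    (hper : ∀ t, f (t + T) = f t) (h : ∀ t, f t = 0 → 0 < f' t) (t₀ : ℝ) : f t₀ ≠ 0 := by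
  intro h0
  have hpos : ∀ t ∈ Icc t₀ (t₀ + 2 * T), -f t ≤ 0 := by
    refine image_le_of_deriv_right_lt_deriv_boundary (f := fun t => -f t) (f' := fun t => -f' t)
      (B := fun _ => 0) (B' := fun _ => 0) ?_ ?_ ?_ ?_ ?_
    · exact (continuous_iff_continuousAt.2 fun t => (hf t).continuousAt).neg.continuousOn
    · exact fun x _ => (hf x).neg.hasDerivWithinAt
    · simp [h0]
    · exact fun x => hasDerivAt_const x 0
    · intro x _ hx
      have : f x = 0 := by linarith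
      have := h x this
      linarith
  have h1 : f (t₀ + T) = 0 := by rw [hper, h0]
  have h2 : IsLocalMin f (t₀ + T) := by
    have : Icc t₀ (t₀ + 2 * T) ∈ 𝓝 (t₀ + T) := Icc_mem_nhds (by linarith) (by linarith)
    filter_upwards [this] with t ht
    rw [h1]
    linarith [hpos t ht]
  have h3 := h2.hasDerivAt_eq_zero (hf _)
  have h4 := h _ h1
  linarith

lemma wedge_sq_add_dot_sq (a b : ℝ × ℝ) :
    wedge a b ^ 2 + (a.1 * b.1 + a.2 * b.2) ^ 2 = sq a * sq b := by
  unfold wedge sq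
  ring

lemma hasDerivAt_wedge_left {γ : ℝ → ℝ × ℝ} {v : ℝ × ℝ} {t : ℝ} (a : ℝ × ℝ)
    (h : HasDerivAt γ v t) : HasDerivAt (fun t => wedge a (γ t)) (wedge a v) t := by
  have h1 := (ContinuousLinearMap.fst ℝ ℝ ℝ).hasFDerivAt.comp_hasDerivAt t h
  have h2 := (ContinuousLinearMap.snd ℝ ℝ ℝ).hasFDerivAt.comp_hasDerivAt t h
  exact (h2.const_mul a.1).sub (h1.const_mul a.2)

lemma hasDerivAt_sq {γ : ℝ → ℝ × ℝ} {v : ℝ × ℝ} {t : ℝ}
    (h : HasDerivAt γ v t) :
    HasDerivAt (fun t => sq (γ t)) (2 * ((γ t).1 * v.1 + (γ t).2 * v.2)) t := by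
  have h1 := (ContinuousLinearMap.fst ℝ ℝ ℝ).hasFDerivAt.comp_hasDerivAt t h
  have h2 := (ContinuousLinearMap.snd ℝ ℝ ℝ).hasFDerivAt.comp_hasDerivAt t h
  have h3 := (h1.pow 2).add (h2.pow 2)
  refine h3.congr_deriv ?_
  simp
  ring

/-- the core nonexistence statement -/
theorem no_orbit_core {V T : ℝ × ℝ → ℝ × ℝ} {n : ℕ} (hn : Even n)
    (hT : ∀ (r : ℝ) (z : ℝ × ℝ), T (r • z) = r ^ n • T z) {R ε : ℝ} (hR : 0 < R)
    (hE : ∀ z, R ≤ ‖z‖ → sq (V z - T z) ≤ ε ^ 2 * sq z ^ n)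
    (hκ : ∀ z, z ≠ 0 → 16 * ε ^ 2 * sq z ^ n < sq (T z))
    {C : Set (ℝ × ℝ)} (hC : ClosedOrbit V C) (hCR : ∀ z ∈ C, R ≤ ‖z‖) : False := by
  obtain ⟨γ, τ, hτ, hγ, hper, -, rfl⟩ := hC
  have hγR : ∀ t, R ≤ ‖γ t‖ := fun t => hCR _ ⟨t, rfl⟩
  have hγ0 : ∀ t, γ t ≠ 0 := by
    intro t h
    have := hγR t
    rw [h, norm_zero] at this
    linarith
  have hγs : ∀ t, 0 < sq (γ t) := fun t => sq_pos (hγ0 t)
  have claim1 : ∀ t₀, wedge (γ t₀) (T (γ t₀)) ^ 2 ≤ ε ^ 2 * sq (γ t₀) ^ (n + 1) := by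
    intro t₀
    by_contra hcon
    push Not at hcon
    set z₀ := γ t₀ with hz₀
    set g₀ := wedge z₀ (T z₀) with hg₀
    have hz0s : 0 < sq z₀ := hγs t₀
    have h1 := no_zero_of_cross (f := fun t => g₀ * wedge z₀ (γ t))
      (f' := fun t => g₀ * wedge z₀ (V (γ t)))
      (fun t => (hasDerivAt_wedge_left z₀ (hγ t)).const_mul g₀) hτ
      (fun t => by simp only [hper]) (by
        intro t ht
        have hg0 : g₀ ≠ 0 := by
          intro h
          rw [h] at hcon
          have : 0 ≤ ε ^ 2 * sq z₀ ^ (n + 1) := by positivity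
          nlinarith
        have hw : wedge z₀ (γ t) = 0 := by
          rcases mul_eq_zero.1 ht with h | h
          · exact absurd h hg0
          · exact h
        -- `γ t` is a multiple of `z₀`
        set r := (z₀.1 * (γ t).1 + z₀.2 * (γ t).2) / sq z₀ with hr
        have hγt : γ t = r • z₀ := by
          have e1 : z₀.1 * (γ t).2 - z₀.2 * (γ t).1 = 0 := hw
          ext
          · rw [Prod.smul_fst, smul_eq_mul, hr, div_mul_eq_mul_div, eq_div_iff hz0s.ne']
            unfold sq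
            linear_combination (-z₀.2) * e1
          · rw [Prod.smul_snd, smul_eq_mul, hr, div_mul_eq_mul_div, eq_div_iff hz0s.ne']
            unfold sq
            linear_combination z₀.1 * e1
        have hsqr : sq (γ t) = r ^ 2 * sq z₀ := by
          rw [hγt]
          unfold sq
          simp only [Prod.smul_fst, Prod.smul_snd, smul_eq_mul]
          ring
        have hr0 : r ≠ 0 := by
          intro h
          have := hγs t
          rw [hsqr, h] at this
          simp at this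
        have hrn : 0 < r ^ n := hn.pow_pos hr0
        have hEt := hE (γ t) (hγR t)
        set E := V (γ t) - T (γ t) with hEdef
        have hV : wedge z₀ (V (γ t)) = r ^ n * g₀ + wedge z₀ E := by
          have e1 : V (γ t) = T (γ t) + E := by rw [hEdef]; abel
          rw [e1, hγt, hT, hg₀]
          unfold wedge
          simp only [Prod.fst_add, Prod.snd_add, Prod.smul_fst, Prod.smul_snd, smul_eq_mul]
          ring
        have hwE : wedge z₀ E ^ 2 < (r ^ n * g₀) ^ 2 := by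
          calc wedge z₀ E ^ 2 ≤ sq z₀ * sq E := by
                rw [← wedge_sq_add_dot_sq]
                nlinarith [sq_nonneg (z₀.1 * E.1 + z₀.2 * E.2)]
            _ ≤ sq z₀ * (ε ^ 2 * sq (γ t) ^ n) := by gcongr
            _ = (r ^ n) ^ 2 * (ε ^ 2 * sq z₀ ^ (n + 1)) := by
                rw [hsqr, mul_pow, ← pow_mul, ← pow_mul, mul_comm 2 n]
                ring
            _ < (r ^ n) ^ 2 * g₀ ^ 2 := by
                have : 0 < (r ^ n) ^ 2 := by positivity
                exact mul_lt_mul_of_pos_left hcon this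
            _ = _ := by ring
        rw [hV]
        have h5 : |wedge z₀ E| < |r ^ n * g₀| := sq_lt_sq.1 hwE
        rw [abs_mul, abs_of_pos hrn] at h5
        have h6 : -(|g₀| * |wedge z₀ E|) ≤ g₀ * wedge z₀ E := by
          rw [← abs_mul]; exact neg_abs_le _
        have h7 : 0 < |g₀| := abs_pos.2 hg0
        have h8 : g₀ * (r ^ n * g₀) = r ^ n * |g₀| * |g₀| := by
          rw [mul_assoc, abs_mul_abs_self]; ring
        rw [mul_add, h8]
        nlinarith) t₀
    apply h1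
    have : wedge z₀ (γ t₀) = 0 := by rw [← hz₀]; unfold wedge; ring
    simp only [this, mul_zero]
  -- the radius is strictly monotone
  obtain ⟨t₁, ht₁⟩ := exists_max_periodic (f := fun t => sq (γ t))
    (continuous_sq.comp (continuous_iff_continuousAt.2 fun t => (hγ t).continuousAt)) hτ
    (fun t => by simp only [hper])
  have h2 : IsLocalMax (fun t => sq (γ t)) t₁ := Filter.Eventually.of_forall fun t => ht₁ t
  have h3 := h2.hasDerivAt_eq_zero (hasDerivAt_sq (hγ t₁))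
  set z := γ t₁ with hz
  have hEt := hE z (hγR t₁)
  set E := V z - T z with hEdef
  have hVz : V z = T z + E := by rw [hEdef]; abel
  have h4 := claim1 t₁
  rw [← hz] at h4
  have h5 := hκ z (hγ0 t₁)
  have h6 := wedge_sq_add_dot_sq z (T z)
  have h7 : (z.1 * E.1 + z.2 * E.2) ^ 2 ≤ sq z * sq E := cs2 _ _ _ _
  have hzs : 0 < sq z := hγs t₁
  have h8 : (z.1 * E.1 + z.2 * E.2) = -(z.1 * (T z).1 + z.2 * (T z).2) := by
    rw [hVz] at h3
    simp only [Prod.fst_add, Prod.snd_add] at h3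
    linarith
  rw [h8, neg_sq] at h7
  have h9 : sq z * sq E ≤ ε ^ 2 * sq z ^ (n + 1) := by
    calc sq z * sq E ≤ sq z * (ε ^ 2 * sq z ^ n) := by gcongr
      _ = _ := by ring
  have h10 : sq z * (16 * ε ^ 2 * sq z ^ n) < sq z * sq (T z) := mul_lt_mul_of_pos_left h5 hzs
  have h11 : sq z * (16 * ε ^ 2 * sq z ^ n) = 16 * (ε ^ 2 * sq z ^ (n + 1)) := by ring
  have h12 : 0 ≤ ε ^ 2 * sq z ^ (n + 1) := by positivity
  nlinarith

lemma rot_sub_eq (α : ℝ) (v w : ℝ × ℝ) : rot α v - rot α w = rot α (v - w) := by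
  unfold rot
  ext
  · simp only [Prod.fst_sub, Prod.snd_sub]; ring
  · simp only [Prod.fst_sub, Prod.snd_sub]; ring

/-- leading homogeneous part -/
def topf (n : ℕ) (c : S → ℝ × ℝ) (z : ℝ × ℝ) : ℝ × ℝ :=
  ∑ m : S, if m.1.1 + m.1.2 = n then (z.1 ^ m.1.1 * z.2 ^ m.1.2) • c m else 0

lemma topf_smul (n : ℕ) (c : S → ℝ × ℝ) (r : ℝ) (z : ℝ × ℝ) :
    topf n c (r • z) = r ^ n • topf n c z := by
  unfold topf
  rw [Finset.smul_sum]
  refine Finset.sum_congr rfl fun m _ => ?_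
  split_ifs with h
  · rw [smul_smul, Prod.smul_fst, Prod.smul_snd, smul_eq_mul, smul_eq_mul, mul_pow, mul_pow, ← h,
      pow_add]
    congr 1
    ring
  · rw [smul_zero]

lemma rot_topf (n : ℕ) (α : ℝ) (c : S → ℝ × ℝ) (z : ℝ × ℝ) :
    rot α (topf n c z) = topf n (rotc α c) z := by
  have h : ∀ (s : Finset S), rot α (∑ m ∈ s, if m.1.1 + m.1.2 = n then
      (z.1 ^ m.1.1 * z.2 ^ m.1.2) • c m else 0) =
      ∑ m ∈ s, if m.1.1 + m.1.2 = n then (z.1 ^ m.1.1 * z.2 ^ m.1.2) • rot α (c m) else 0 := by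
    classical
    intro s
    induction s using Finset.induction_on with
    | empty => simp [rot_zero]
    | insert a s ha ih =>
      rw [Finset.sum_insert ha, Finset.sum_insert ha, rot_add, ih]
      congr 1
      split_ifs
      · rw [rot_smul]
      · rw [rot_zero]
  exact h Finset.univ

lemma norm_low_le {n : ℕ} (hn : dg S ≤ n) {c : S → ℝ × ℝ} {M : ℝ} (hc : ‖c‖ ≤ M) {z : ℝ × ℝ}
    {R : ℝ} (hR : 1 ≤ R) (hz : R ≤ ‖z‖) :
    ‖fld c z - topf n c z‖ ≤ (Fintype.card S * M / R) * ‖z‖ ^ n := by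
  have hM : 0 ≤ M := (norm_nonneg _).trans hc
  have hR0 : 0 < R := by linarith
  unfold fld topf
  rw [← Finset.sum_sub_distrib]
  refine (norm_sum_le _ _).trans ?_
  calc ∑ m : S, ‖(z.1 ^ m.1.1 * z.2 ^ m.1.2) • c m -
        (if m.1.1 + m.1.2 = n then (z.1 ^ m.1.1 * z.2 ^ m.1.2) • c m else 0)‖
      ≤ ∑ m : S, (M / R) * ‖z‖ ^ n := by
        refine Finset.sum_le_sum fun m _ => ?_
        split_ifs with h
        · rw [sub_self, norm_zero]; positivity
        · rw [sub_zero, norm_smul, norm_mul, norm_pow, norm_pow]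
          have h1 : ‖c m‖ ≤ M := (norm_le_pi_norm c m).trans hc
          have h2 : m.1.1 + m.1.2 + 1 ≤ n := by
            have := (le_dg m).trans hn
            omega
          have h3 : ‖z.1‖ ≤ ‖z‖ := norm_fst_le z
          have h4 : ‖z.2‖ ≤ ‖z‖ := norm_snd_le z
          have hz1 : 1 ≤ ‖z‖ := hR.trans hz
          calc ‖z.1‖ ^ m.1.1 * ‖z.2‖ ^ m.1.2 * ‖c m‖ ≤ ‖z‖ ^ m.1.1 * ‖z‖ ^ m.1.2 * M := by gcongr
            _ = ‖z‖ ^ (m.1.1 + m.1.2) * M := by rw [pow_add]
            _ = (M / R) * (‖z‖ ^ (m.1.1 + m.1.2) * R) := by field_simp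
            _ ≤ (M / R) * (‖z‖ ^ (m.1.1 + m.1.2) * ‖z‖) := by gcongr
            _ = (M / R) * ‖z‖ ^ (m.1.1 + m.1.2 + 1) := by rw [pow_succ]
            _ ≤ (M / R) * ‖z‖ ^ n := by
                gcongr
    _ = _ := by
        rw [Finset.sum_const, Finset.card_univ, nsmul_eq_mul]
        ring

/-- no closed orbits outside the box of radius `R` when the leading part is not small -/
theorem no_orbit {n : ℕ} (hn : Even n) (hnS : dg S ≤ n) {c : S → ℝ × ℝ} {M : ℝ}
    (hc : ‖c‖ ≤ M) {R : ℝ} (hR : 1 ≤ R)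
    (hκ : ∀ z : ℝ × ℝ, z ≠ 0 →
      16 * (2 * (Fintype.card S * M / R) ^ 2) * sq z ^ n < sq (topf n c z)) (α : ℝ)
    {C : Set (ℝ × ℝ)} (hC : ClosedOrbit (fld (rotc α c)) C) (hCR : ∀ z ∈ C, R ≤ ‖z‖) : False := by
  have hM : 0 ≤ M := (norm_nonneg _).trans hc
  have hR0 : 0 < R := by linarith
  set ε : ℝ := √2 * (Fintype.card S * M / R) with hε
  have hε2 : ε ^ 2 = 2 * (Fintype.card S * M / R) ^ 2 := by
    rw [hε, mul_pow, Real.sq_sqrt (by norm_num)]
  refine no_orbit_core (V := fld (rotc α c)) (T := topf n (rotc α c)) (ε := ε) hn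
    (fun r z => topf_smul n _ r z) hR0 ?_ ?_ hC hCR
  · intro z hz
    rw [← rot_fld, ← rot_topf, rot_sub_eq, sq_rot]
    have h1 := norm_low_le hnS hc hR hz
    have h2 : ‖z‖ ^ 2 ≤ sq z := norm_le_sq z
    calc sq (fld c z - topf n c z) ≤ 2 * ‖fld c z - topf n c z‖ ^ 2 := sq_le_norm _
      _ ≤ 2 * ((Fintype.card S * M / R) * ‖z‖ ^ n) ^ 2 := by gcongr
      _ = ε ^ 2 * (‖z‖ ^ 2) ^ n := by rw [hε2, mul_pow, ← pow_mul, ← pow_mul, mul_comm 2 n]; ring
      _ ≤ ε ^ 2 * sq z ^ n := by gcongr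
  · intro z hz
    rw [← rot_topf, sq_rot, hε2]
    exact hκ z hz

end

end Pool.Agent.H709R2
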