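import Pool.Agent.H709R2.WKappa

/-! Cells near infinity: projective charts and thin parallelograms. -/

open Real Set MeasureTheory Topology Filter
open scoped ENNReal

namespace Pool.Agent.H709R2

noncomputable section

variable {S : Finset (ℕ × ℕ)}

/-- polynomial map with arbitrary exponents -/
def gfl (e : S → ℕ × ℕ) (c : S → ℝ × ℝ) (p : ℝ × ℝ) : ℝ × ℝ :=
  ∑ m : S, (p.1 ^ (e m).1 * p.2 ^ (e m).2) • c m

lemma contDiff_joint_gfl (e : S → ℕ × ℕ) {m : WithTop ℕ∞} :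
    ContDiff ℝ m (fun z : (S → ℝ × ℝ) × (ℝ × ℝ) => gfl e z.1 z.2) := by
  unfold gfl
  refine ContDiff.sum fun k _ => ?_
  have h1 : ContDiff ℝ m (fun z : (S → ℝ × ℝ) × (ℝ × ℝ) => z.2.1 ^ (e k).1 * z.2.2 ^ (e k).2) :=
    ((contDiff_fst.comp contDiff_snd).pow _).mul ((contDiff_snd.comp contDiff_snd).pow _)
  have h2 : ContDiff ℝ m (fun z : (S → ℝ × ℝ) × (ℝ × ℝ) => z.1 k) :=
    (contDiff_apply ℝ (ℝ × ℝ) k).comp contDiff_fst
  exact h1.smul h2

lemma contDiff_gfl (e : S → ℕ × ℕ) (c : S → ℝ × ℝ) {m : WithTop ℕ∞} : ContDiff ℝ m (gfl e c) :=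
  (contDiff_joint_gfl e).comp (contDiff_const.prodMk contDiff_id)

/-- uniform bounds -/
lemma exists_unif_gfl (e : S → ℕ × ℕ) (M R : ℝ) : ∃ K : ℝ, 1 ≤ K ∧
    ∀ c : S → ℝ × ℝ, ‖c‖ ≤ M → ∀ p q : ℝ × ℝ, ‖p‖ ≤ R → ‖q‖ ≤ R →
      ‖fderiv ℝ (gfl e c) p‖ ≤ K ∧
      ‖gfl e c p - gfl e c q‖ ≤ K * ‖p - q‖ ∧
      ‖gfl e c p - gfl e c q - fderiv ℝ (gfl e c) q (p - q)‖ ≤ K * ‖p - q‖ ^ 2 := by
  set Ψ : (S → ℝ × ℝ) × (ℝ × ℝ) → ℝ × ℝ := fun z => gfl e z.1 z.2 with hΨ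
  have hΨs : ContDiff ℝ 2 Ψ := contDiff_joint_gfl e
  set B : Set ((S → ℝ × ℝ) × (ℝ × ℝ)) := Metric.closedBall 0 M ×ˢ Metric.closedBall 0 R with hB
  have hBc : IsCompact B := (isCompact_closedBall _ _).prod (isCompact_closedBall _ _)
  have hBx : Convex ℝ B := (convex_closedBall _ _).prod (convex_closedBall _ _)
  have hD : ContDiff ℝ 1 (fderiv ℝ Ψ) := hΨs.fderiv_right (by norm_num)
  obtain ⟨K₁, hK₁⟩ := hBc.exists_bound_of_continuousOn hD.continuous.continuousOn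
  obtain ⟨K₂, hK₂⟩ := hD.contDiffOn.exists_lipschitzOnWith (s := B) (by norm_num) hBx hBc
  set K := max (max K₁ K₂) 1 with hK
  have hK1 : K₁ ≤ K := (le_max_left _ _).trans (le_max_left _ _)
  have hK2 : (K₂ : ℝ) ≤ K := (le_max_right _ _).trans (le_max_left _ _)
  have hK3 : 1 ≤ K := le_max_right _ _
  have hK0 : 0 ≤ K := by linarith
  have hinr : ‖ContinuousLinearMap.inr ℝ (S → ℝ × ℝ) (ℝ × ℝ)‖ ≤ 1 :=
    ContinuousLinearMap.norm_inr_le_one ℝ (S → ℝ × ℝ) (ℝ × ℝ)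
  have hder : ∀ (c : S → ℝ × ℝ) (p : ℝ × ℝ), fderiv ℝ (gfl e c) p =
      (fderiv ℝ Ψ (c, p)).comp (ContinuousLinearMap.inr ℝ (S → ℝ × ℝ) (ℝ × ℝ)) := by
    intro c p
    have h1 : HasFDerivAt (fun p : ℝ × ℝ => ((c, p) : (S → ℝ × ℝ) × (ℝ × ℝ)))
        (ContinuousLinearMap.inr ℝ (S → ℝ × ℝ) (ℝ × ℝ)) p := hasFDerivAt_prodMk_right c p
    exact (((hΨs.differentiable (by norm_num)) (c, p)).hasFDerivAt.comp p h1).fderiv
  refine ⟨K, hK3, fun c hc p q hp hq => ?_⟩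
  have hmem : ∀ x : ℝ × ℝ, ‖x‖ ≤ R → (c, x) ∈ B := fun x hx =>
    ⟨by rw [mem_closedBall_zero_iff]; exact hc, by rw [mem_closedBall_zero_iff]; exact hx⟩
  have h1 : ∀ x : ℝ × ℝ, ‖x‖ ≤ R → ‖fderiv ℝ (gfl e c) x‖ ≤ K := by
    intro x hx
    rw [hder]
    refine (ContinuousLinearMap.opNorm_comp_le _ _).trans ?_
    calc ‖fderiv ℝ Ψ (c, x)‖ * ‖ContinuousLinearMap.inr ℝ (S → ℝ × ℝ) (ℝ × ℝ)‖
        ≤ K * 1 := mul_le_mul ((hK₁ _ (hmem x hx)).trans hK1) hinr (norm_nonneg _) hK0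
      _ = K := mul_one K
  have h2 : ∀ x y : ℝ × ℝ, ‖x‖ ≤ R → ‖y‖ ≤ R →
      ‖fderiv ℝ (gfl e c) x - fderiv ℝ (gfl e c) y‖ ≤ K * ‖x - y‖ := by
    intro x y hx hy
    rw [hder, hder, ← ContinuousLinearMap.sub_comp]
    refine (ContinuousLinearMap.opNorm_comp_le _ _).trans ?_
    have e1 := hK₂.dist_le_mul _ (hmem x hx) _ (hmem y hy)
    rw [dist_eq_norm, dist_eq_norm] at e1
    have e2 : ‖((c, x) : (S → ℝ × ℝ) × (ℝ × ℝ)) - (c, y)‖ = ‖x - y‖ := by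
      simp [Prod.norm_def]
    rw [e2] at e1
    calc ‖fderiv ℝ Ψ (c, x) - fderiv ℝ Ψ (c, y)‖ *
          ‖ContinuousLinearMap.inr ℝ (S → ℝ × ℝ) (ℝ × ℝ)‖
        ≤ (K * ‖x - y‖) * 1 := by
          refine mul_le_mul (e1.trans ?_) hinr (norm_nonneg _) (by positivity)
          gcongr
      _ = _ := mul_one _
  have hseg : ∀ x ∈ segment ℝ q p, ‖x‖ ≤ R := by
    intro x hx
    have e1 := (convex_closedBall (0 : ℝ × ℝ) R).segment_subset
      (mem_closedBall_zero_iff.2 hq) (mem_closedBall_zero_iff.2 hp) hx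
    exact mem_closedBall_zero_iff.1 e1
  have hfd : ∀ x ∈ segment ℝ q p, HasFDerivWithinAt (gfl e c) (fderiv ℝ (gfl e c) x)
      (segment ℝ q p) x := fun x _ =>
    (((contDiff_gfl e c (m := 2)).differentiable (by norm_num)) x).hasFDerivAt.hasFDerivWithinAt
  refine ⟨h1 p hp, ?_, ?_⟩
  · exact Convex.norm_image_sub_le_of_norm_hasFDerivWithin_le hfd
      (fun x hx => h1 x (hseg x hx)) (convex_segment q p) (left_mem_segment ℝ q p)
      (right_mem_segment ℝ q p)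
  · have := Convex.norm_image_sub_le_of_norm_hasFDerivWithin_le' (φ := fderiv ℝ (gfl e c) q)
      (C := K * ‖p - q‖) hfd
      (fun x hx => by
        refine (h2 x q (hseg x hx) hq).trans ?_
        gcongr
        have := segment_subset_closedBall_left q p hx
        rw [Metric.mem_closedBall, dist_eq_norm, dist_eq_norm] at this
        rwa [norm_sub_rev p q])
      (convex_segment q p) (left_mem_segment ℝ q p) (right_mem_segment ℝ q p)
    refine this.trans (le_of_eq ?_)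
    ring

/-- first chart -/
def ex1 (n : ℕ) (m : S) : ℕ × ℕ := (m.1.2, n - (m.1.1 + m.1.2))

/-- second chart -/
def ex2 (n : ℕ) (m : S) : ℕ × ℕ := (m.1.1, n - (m.1.1 + m.1.2))

lemma fld_chart1 {n : ℕ} (hn : dg S ≤ n) (c : S → ℝ × ℝ) {z : ℝ × ℝ} (hz : z.1 ≠ 0) :
    fld c z = z.1 ^ n • gfl (ex1 n) c (z.2 / z.1, 1 / z.1) := by
  unfold fld gfl ex1
  rw [Finset.smul_sum]
  refine Finset.sum_congr rfl fun m _ => ?_
  rw [smul_smul]
  congr 1
  have h1 : m.1.1 + m.1.2 ≤ n := (le_dg m).trans hn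
  have h2 : z.1 ^ n = z.1 ^ m.1.1 * z.1 ^ m.1.2 * z.1 ^ (n - (m.1.1 + m.1.2)) := by
    rw [← pow_add, ← pow_add]
    congr 1
    omega
  simp only [div_pow, one_pow]
  rw [h2]
  field_simp

lemma fld_chart2 {n : ℕ} (hn : dg S ≤ n) (c : S → ℝ × ℝ) {z : ℝ × ℝ} (hz : z.2 ≠ 0) :
    fld c z = z.2 ^ n • gfl (ex2 n) c (z.1 / z.2, 1 / z.2) := by
  unfold fld gfl ex2
  rw [Finset.smul_sum]
  refine Finset.sum_congr rfl fun m _ => ?_
  rw [smul_smul]
  congr 1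
  have h1 : m.1.1 + m.1.2 ≤ n := (le_dg m).trans hn
  have h2 : z.2 ^ n = z.2 ^ m.1.1 * z.2 ^ m.1.2 * z.2 ^ (n - (m.1.1 + m.1.2)) := by
    rw [← pow_add, ← pow_add]
    congr 1
    omega
  simp only [div_pow, one_pow]
  rw [h2]
  field_simp

/-! ### The linear functional argument -/

lemma no_orbit_of_functional {V : ℝ × ℝ → ℝ × ℝ} {Ω : Set (ℝ × ℝ)} {a : ℝ × ℝ}
    (h : ∀ z ∈ Ω, 0 < a.1 * (V z).1 + a.2 * (V z).2) {C : Set (ℝ × ℝ)} (hC : ClosedOrbit V C)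
    (hCΩ : C ⊆ Ω) : False := by
  obtain ⟨γ, T, hT, hγ, hper, -, rfl⟩ := hC
  have h1 : ∀ t, HasDerivAt (fun t => a.1 * (γ t).1 + a.2 * (γ t).2)
      (a.1 * (V (γ t)).1 + a.2 * (V (γ t)).2) t := by
    intro t
    have e1 := (ContinuousLinearMap.fst ℝ ℝ ℝ).hasFDerivAt.comp_hasDerivAt t (hγ t)
    have e2 := (ContinuousLinearMap.snd ℝ ℝ ℝ).hasFDerivAt.comp_hasDerivAt t (hγ t)
    exact (e1.const_mul a.1).add (e2.const_mul a.2)
  have h3 : StrictMono (fun t => a.1 * (γ t).1 + a.2 * (γ t).2) :=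
    strictMono_of_hasDerivAt_pos h1 fun t => h _ (hCΩ ⟨t, rfl⟩)
  have h5 := h3 hT
  have h6 := hper 0
  rw [zero_add] at h6
  simp only [h6] at h5
  exact lt_irrefl _ h5

lemma no_orbit_of_functional_rot {c : S → ℝ × ℝ} {Ω : Set (ℝ × ℝ)} {a : ℝ × ℝ}
    (h : ∀ z ∈ Ω, 0 < a.1 * (fld c z).1 + a.2 * (fld c z).2) (α : ℝ) {C : Set (ℝ × ℝ)}
    (hC : ClosedOrbit (fld (rotc α c)) C) (hCΩ : C ⊆ Ω) : False := by
  refine no_orbit_of_functional (a := rot α a) (fun z hz => ?_) hC hCΩ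
  rw [← rot_fld]
  have h1 := h z hz
  have h2 : (rot α a).1 * (rot α (fld c z)).1 + (rot α a).2 * (rot α (fld c z)).2 =
      a.1 * (fld c z).1 + a.2 * (fld c z).2 := by
    unfold rot
    have := Real.sin_sq_add_cos_sq α
    simp only
    linear_combination (a.1 * (fld c z).1 + a.2 * (fld c z).2) * this
  rw [h2]
  exact h1

/-- thinness condition for the value `v` and the derivative `d` -/
def Thin (s₁ s₂ : ℝ) (v d : ℝ × ℝ) : Prop :=
  sq v ≤ s₁ ^ 2 ∧ wedge d v ^ 2 ≤ s₂ ^ 2 * sq d ∧ (d = 0 → sq v ≤ s₂ ^ 2)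

lemma exists_functional {G : Set (ℝ × ℝ)} {v d : ℝ × ℝ} {s₁ s₂ : ℝ}
    (h1 : ∀ w ∈ G, sq (w - v) ≤ s₁ ^ 2)
    (h2 : ∀ w ∈ G, ∃ t : ℝ, sq (w - v - t • d) ≤ s₂ ^ 2) (hT : ¬ Thin s₁ s₂ v d) :
    ∃ a : ℝ × ℝ, ∀ w ∈ G, 0 < a.1 * w.1 + a.2 * w.2 := by
  have aux : ∀ (s : ℝ) (w : ℝ × ℝ), sq (w - v) ≤ s ^ 2 → s ^ 2 < sq v →
      0 < v.1 * w.1 + v.2 * w.2 := by
    intro s w hw hs
    set E := w - v with hE
    have e1 : v.1 * w.1 + v.2 * w.2 = sq v + (v.1 * E.1 + v.2 * E.2) := by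
      rw [hE]; unfold sq; simp only [Prod.fst_sub, Prod.snd_sub]; ring
    have e2 : (v.1 * E.1 + v.2 * E.2) ^ 2 ≤ sq v * sq E := cs2 _ _ _ _
    have hv0 : 0 < sq v := lt_of_le_of_lt (sq_nonneg s) hs
    have e3 : (v.1 * E.1 + v.2 * E.2) ^ 2 < sq v ^ 2 := by
      refine lt_of_le_of_lt e2 ?_
      rw [pow_two (sq v)]
      exact mul_lt_mul_of_pos_left (lt_of_le_of_lt hw hs) hv0
    have e4 := abs_lt_of_sq_lt_sq e3 hv0.le
    rw [e1]
    linarith [(abs_lt.1 e4).1]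
  unfold Thin at hT
  rw [not_and_or, not_and_or] at hT
  rcases hT with h | h | h
  · exact ⟨v, fun w hw => aux s₁ w (h1 w hw) (not_le.1 h)⟩
  · push Not at h
    set σ := wedge d v with hσ
    refine ⟨(-(σ * d.2), σ * d.1), fun w hw => ?_⟩
    obtain ⟨t, ht⟩ := h2 w hw
    set E := w - v - t • d with hE
    have e1 : -(σ * d.2) * w.1 + σ * d.1 * w.2 = σ * (σ + wedge d E) := by
      have : wedge d w = σ + wedge d E := by
        rw [hE, hσ]
        unfold wedge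
        simp only [Prod.fst_sub, Prod.snd_sub, Prod.smul_fst, Prod.smul_snd, smul_eq_mul]
        ring
      rw [← this]
      unfold wedge
      ring
    have e2 : wedge d E ^ 2 < σ ^ 2 := by
      calc wedge d E ^ 2 ≤ sq d * sq E := by
            rw [← wedge_sq_add_dot_sq]
            nlinarith [sq_nonneg (d.1 * E.1 + d.2 * E.2)]
        _ ≤ sq d * s₂ ^ 2 := by
            have := sq_nonneg' d
            gcongr
        _ = s₂ ^ 2 * sq d := mul_comm _ _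
        _ < σ ^ 2 := h
    have e3 : |wedge d E| < |σ| := sq_lt_sq.1 e2
    simp only
    rw [e1]
    have e4 : -(|σ| * |wedge d E|) ≤ σ * wedge d E := by
      rw [← abs_mul]; exact neg_abs_le _
    have e5 : 0 < |σ| := lt_of_le_of_lt (abs_nonneg _) e3
    have e6 : σ * σ = |σ| * |σ| := (abs_mul_abs_self σ).symm
    rw [mul_add, e6]
    nlinarith
  · push Not at h
    obtain ⟨hd, hs⟩ := h
    refine ⟨v, fun w hw => aux s₂ w ?_ hs⟩
    obtain ⟨t, ht⟩ := h2 w hw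
    rwa [hd, smul_zero, sub_zero] at ht

/-! ### Area of thin sets -/

lemma volume_strip {κ s t : ℝ} (hs : 0 ≤ s) (ht : 0 ≤ t) :
    volume {w : ℝ × ℝ | |w.2| ≤ s ∧ |w.1 - κ * w.2| ≤ t} ≤ ENNReal.ofReal (2 * s * (2 * t)) := by
  have hm : MeasurableSet {w : ℝ × ℝ | |w.2| ≤ s ∧ |w.1 - κ * w.2| ≤ t} := by
    have h1 : IsClosed {w : ℝ × ℝ | |w.2| ≤ s ∧ |w.1 - κ * w.2| ≤ t} := by
      have e1 : Continuous fun w : ℝ × ℝ => |w.2| := by fun_prop
      have e2 : Continuous fun w : ℝ × ℝ => |w.1 - κ * w.2| := by fun_prop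
      exact (isClosed_le e1 continuous_const).inter (isClosed_le e2 continuous_const)
    exact h1.measurableSet
  rw [Measure.volume_eq_prod, Measure.prod_apply_symm hm]
  calc ∫⁻ y : ℝ, volume ((fun x => (x, y)) ⁻¹' {w : ℝ × ℝ | |w.2| ≤ s ∧ |w.1 - κ * w.2| ≤ t})
      ≤ ∫⁻ y : ℝ, (Icc (-s) s).indicator (fun _ => ENNReal.ofReal (2 * t)) y := by
        refine lintegral_mono fun y => ?_
        by_cases hy : y ∈ Icc (-s) s
        · rw [indicator_of_mem hy]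
          refine (measure_mono (t := Icc (κ * y - t) (κ * y + t)) ?_).trans ?_
          · rintro x ⟨-, hx⟩
            simp only at hx
            rw [abs_le] at hx
            exact ⟨by linarith [hx.1], by linarith [hx.2]⟩
          · rw [Real.volume_Icc]
            apply ENNReal.ofReal_le_ofReal
            linarith
        · rw [indicator_of_notMem hy]
          have : (fun x => (x, y)) ⁻¹' {w : ℝ × ℝ | |w.2| ≤ s ∧ |w.1 - κ * w.2| ≤ t} = ∅ := by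
            ext x
            simp only [mem_preimage, mem_ofPred_eq, mem_empty_iff_false, iff_false]
            rintro ⟨h, -⟩
            exact hy (abs_le.1 h)
          rw [this, measure_empty]
    _ = ENNReal.ofReal (2 * t) * volume (Icc (-s) s) := by
        rw [lintegral_indicator measurableSet_Icc, setLIntegral_const]
    _ = _ := by
        rw [Real.volume_Icc, ← ENNReal.ofReal_mul (by positivity)]
        congr 1
        ring

lemma volume_strip' {κ s t : ℝ} (hs : 0 ≤ s) (ht : 0 ≤ t) :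
    volume {w : ℝ × ℝ | |w.1| ≤ s ∧ |w.2 - κ * w.1| ≤ t} ≤ ENNReal.ofReal (2 * s * (2 * t)) := by
  have h1 := volume_strip (κ := κ) hs ht
  have h2 : MeasurePreserving (Prod.swap : ℝ × ℝ → ℝ × ℝ) volume volume :=
    Measure.measurePreserving_swap
  have hm : MeasurableSet {w : ℝ × ℝ | |w.2| ≤ s ∧ |w.1 - κ * w.2| ≤ t} := by
    have h1 : IsClosed {w : ℝ × ℝ | |w.2| ≤ s ∧ |w.1 - κ * w.2| ≤ t} := by
      have e1 : Continuous fun w : ℝ × ℝ => |w.2| := by fun_prop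
      have e2 : Continuous fun w : ℝ × ℝ => |w.1 - κ * w.2| := by fun_prop
      exact (isClosed_le e1 continuous_const).inter (isClosed_le e2 continuous_const)
    exact h1.measurableSet
  have h3 := h2.measure_preimage hm.nullMeasurableSet
  have h4 : (Prod.swap : ℝ × ℝ → ℝ × ℝ) ⁻¹' {w : ℝ × ℝ | |w.2| ≤ s ∧ |w.1 - κ * w.2| ≤ t} =
      {w : ℝ × ℝ | |w.1| ≤ s ∧ |w.2 - κ * w.1| ≤ t} := by
    ext w
    rfl
  rw [h4] at h3
  rw [h3]
  exact h1

lemma volume_thin {s₁ s₂ : ℝ} (hs₁ : 0 ≤ s₁) (hs₂ : 0 ≤ s₂) (d : ℝ × ℝ) :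
    volume {w : ℝ × ℝ | Thin s₁ s₂ w d} ≤ ENNReal.ofReal (8 * s₁ * s₂) := by
  have habs : ∀ (w : ℝ × ℝ) (s : ℝ), 0 ≤ s → sq w ≤ s ^ 2 → |w.1| ≤ s ∧ |w.2| ≤ s := by
    intro w s hs h
    unfold sq at h
    exact ⟨abs_le_of_sq_le_sq (by nlinarith [sq_nonneg w.2]) hs,
      abs_le_of_sq_le_sq (by nlinarith [sq_nonneg w.1]) hs⟩
  by_cases hd : d = 0
  · refine (measure_mono (t := {w : ℝ × ℝ | |w.2| ≤ s₁ ∧ |w.1 - 0 * w.2| ≤ s₂}) ?_).trans ?_
    · rintro w ⟨h1, -, h3⟩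
      refine ⟨(habs w s₁ hs₁ h1).2, ?_⟩
      rw [zero_mul, sub_zero]
      exact (habs w s₂ hs₂ (h3 hd)).1
    · refine (volume_strip hs₁ hs₂).trans ?_
      apply ENNReal.ofReal_le_ofReal
      nlinarith [mul_nonneg hs₁ hs₂]
  · have hsd : 0 < sq d := sq_pos hd
    rcases le_total (d.1 ^ 2) (d.2 ^ 2) with hle | hle
    · have hd2 : 0 < d.2 ^ 2 := by unfold sq at hsd; linarith
      have hd20 : d.2 ≠ 0 := by
        intro h; rw [h] at hd2; simp at hd2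
      refine (measure_mono (t := {w : ℝ × ℝ | |w.2| ≤ s₁ ∧ |w.1 - (d.1 / d.2) * w.2| ≤ 2 * s₂})
        ?_).trans ?_
      · rintro w ⟨h1, h2, -⟩
        refine ⟨(habs w s₁ hs₁ h1).2, ?_⟩
        apply abs_le_of_sq_le_sq _ (by positivity)
        have e1 : wedge d w ^ 2 = d.2 ^ 2 * (w.1 - d.1 / d.2 * w.2) ^ 2 := by
          unfold wedge
          field_simp
          ring
        have e2 : d.2 ^ 2 * (w.1 - d.1 / d.2 * w.2) ^ 2 ≤ d.2 ^ 2 * (2 * s₂) ^ 2 := by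
          rw [← e1]
          refine h2.trans ?_
          unfold sq
          nlinarith [sq_nonneg s₂]
        exact le_of_mul_le_mul_left e2 hd2
      · refine (volume_strip hs₁ (by positivity)).trans ?_
        apply ENNReal.ofReal_le_ofReal
        apply le_of_eq
        ring
    · have hd1 : 0 < d.1 ^ 2 := by unfold sq at hsd; linarith
      have hd10 : d.1 ≠ 0 := by
        intro h; rw [h] at hd1; simp at hd1
      refine (measure_mono (t := {w : ℝ × ℝ | |w.1| ≤ s₁ ∧ |w.2 - (d.2 / d.1) * w.1| ≤ 2 * s₂})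
        ?_).trans ?_
      · rintro w ⟨h1, h2, -⟩
        refine ⟨(habs w s₁ hs₁ h1).1, ?_⟩
        apply abs_le_of_sq_le_sq _ (by positivity)
        have e1 : wedge d w ^ 2 = d.1 ^ 2 * (w.2 - d.2 / d.1 * w.1) ^ 2 := by
          unfold wedge
          field_simp
        have e2 : d.1 ^ 2 * (w.2 - d.2 / d.1 * w.1) ^ 2 ≤ d.1 ^ 2 * (2 * s₂) ^ 2 := by
          rw [← e1]
          refine h2.trans ?_
          unfold sq
          nlinarith [sq_nonneg s₂]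
        exact le_of_mul_le_mul_left e2 hd1
      · refine (volume_strip' hs₁ (by positivity)).trans ?_
        apply ENNReal.ofReal_le_ofReal
        apply le_of_eq
        ring

end

end Pool.Agent.H709R2
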