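import Pool.Agent.H709R2.SumE

/-! Uniform bounds with polynomial growth; the field in projective charts. -/

open Real Set MeasureTheory Topology Filter
open scoped ENNReal

namespace Pool.Agent.H709R2

noncomputable section

variable {S : Finset (ℕ × ℕ)}

/-- total degree of the index set -/
def dg (S : Finset (ℕ × ℕ)) : ℕ := S.sup (fun m => m.1 + m.2)

lemma le_dg (m : S) : m.1.1 + m.1.2 ≤ dg S :=
  Finset.le_sup (f := fun m : ℕ × ℕ => m.1 + m.2) m.2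

/-- rescaled coefficients -/
def resc (R : ℝ) (c : S → ℝ × ℝ) : S → ℝ × ℝ := fun m => R ^ (m.1.1 + m.1.2) • c m

lemma fld_resc (R : ℝ) (c : S → ℝ × ℝ) (p : ℝ × ℝ) : fld (resc R c) p = fld c (R • p) := by
  unfold fld resc
  refine Finset.sum_congr rfl fun m _ => ?_
  rw [smul_smul, Prod.smul_fst, Prod.smul_snd, smul_eq_mul, smul_eq_mul, mul_pow, mul_pow, pow_add]
  congr 1
  ring

lemma fld_smul_coef (a : ℝ) (c : S → ℝ × ℝ) (p : ℝ × ℝ) : fld (a • c) p = a • fld c p := by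
  unfold fld
  rw [Finset.smul_sum]
  refine Finset.sum_congr rfl fun m _ => ?_
  rw [Pi.smul_apply, smul_comm]

lemma exists_unif_pow (S : Finset (ℕ × ℕ)) (M : ℝ) : ∃ K₀ : ℝ, 1 ≤ K₀ ∧ ∀ R : ℝ, 1 ≤ R →
    ∀ c : S → ℝ × ℝ, ‖c‖ ≤ M → ∀ p q : ℝ × ℝ, ‖p‖ ≤ R → ‖q‖ ≤ R →
      ‖fderiv ℝ (fld c) p‖ ≤ K₀ * R ^ dg S ∧
      ‖fderiv ℝ (fld c) p - fderiv ℝ (fld c) q‖ ≤ K₀ * R ^ dg S * ‖p - q‖ ∧
      ‖fld c p - fld c q‖ ≤ K₀ * R ^ dg S * ‖p - q‖ ∧
      ‖fld c p - fld c q - fderiv ℝ (fld c) q (p - q)‖ ≤ K₀ * R ^ dg S * ‖p - q‖ ^ 2 := by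
  obtain ⟨K, hK1, hK⟩ := exists_unif S M 1
  refine ⟨K, hK1, fun R hR c hc p q hp hq => ?_⟩
  have hR0 : 0 < R := by linarith
  have hK0 : 0 < K := by linarith
  set D := dg S with hD
  set A : ℝ := R ^ D with hA
  have hA0 : 0 < A := by positivity
  set c' : S → ℝ × ℝ := A⁻¹ • resc R c with hc'
  have hc'M : ‖c'‖ ≤ M := by
    have hM : 0 ≤ M := (norm_nonneg _).trans hc
    rw [pi_norm_le_iff_of_nonneg hM]
    intro m
    rw [hc', Pi.smul_apply, norm_smul]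
    unfold resc
    rw [norm_smul, Real.norm_eq_abs, Real.norm_eq_abs, abs_of_pos (by positivity),
      abs_of_pos (by positivity)]
    have h1 : R ^ (m.1.1 + m.1.2) ≤ A := pow_le_pow_right₀ hR (le_dg m)
    have h2 : ‖c m‖ ≤ M := (norm_le_pi_norm c m).trans hc
    calc A⁻¹ * (R ^ (m.1.1 + m.1.2) * ‖c m‖) ≤ A⁻¹ * (A * M) := by gcongr
      _ = M := by field_simp
  have hfld : ∀ x, fld c x = A • fld c' (R⁻¹ • x) := by
    intro x
    rw [hc', fld_smul_coef, fld_resc, smul_smul, mul_inv_cancel₀ hA0.ne', one_smul, smul_smul,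
      mul_inv_cancel₀ hR0.ne', one_smul]
  have hder : ∀ x, fderiv ℝ (fld c) x = (A * R⁻¹) • fderiv ℝ (fld c') (R⁻¹ • x) := by
    intro x
    have h1 : HasFDerivAt (fun x : ℝ × ℝ => R⁻¹ • x) (R⁻¹ • ContinuousLinearMap.id ℝ (ℝ × ℝ)) x :=
      (hasFDerivAt_id x).const_smul R⁻¹
    have h2 : HasFDerivAt (fld c') (fderiv ℝ (fld c') (R⁻¹ • x)) (R⁻¹ • x) :=
      (((contDiff_fld c' (m := 1)).differentiable (by norm_num)) _).hasFDerivAt
    have h3 := (h2.comp x h1).const_smul A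
    have h4 : fld c = fun x => A • (fld c' ∘ fun x => R⁻¹ • x) x := by
      ext1 x
      exact hfld x
    rw [h4]
    have h5 := h3.fderiv
    have h6 : (A • (fld c' ∘ fun x : ℝ × ℝ => R⁻¹ • x)) =
        fun x => A • (fld c' ∘ fun x => R⁻¹ • x) x := rfl
    rw [h6] at h5
    rw [h5]
    refine ContinuousLinearMap.ext fun v => ?_
    simp only [_root_.smul_apply, ContinuousLinearMap.comp_apply,
      ContinuousLinearMap.id_apply, map_smul]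
    rw [smul_smul]
  have hn : ∀ x : ℝ × ℝ, ‖x‖ ≤ R → ‖R⁻¹ • x‖ ≤ 1 := by
    intro x hx
    rw [norm_smul, norm_inv, Real.norm_eq_abs, abs_of_pos hR0, inv_mul_le_iff₀ hR0, mul_one]
    exact hx
  have hRi : R⁻¹ ≤ 1 := inv_le_one_of_one_le₀ hR
  have hRi0 : 0 < R⁻¹ := by positivity
  obtain ⟨k1, k2, k3, k4⟩ := hK c' hc'M (R⁻¹ • p) (R⁻¹ • q) (hn p hp) (hn q hq)
  have hsub : ‖R⁻¹ • p - R⁻¹ • q‖ = R⁻¹ * ‖p - q‖ := by
    rw [← smul_sub, norm_smul, norm_inv, Real.norm_eq_abs, abs_of_pos hR0]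
  have hsub' : R⁻¹ * ‖p - q‖ ≤ ‖p - q‖ := by
    calc R⁻¹ * ‖p - q‖ ≤ 1 * ‖p - q‖ := by gcongr
      _ = _ := one_mul _
  have hAR : |A * R⁻¹| ≤ A := by
    rw [abs_of_pos (by positivity)]
    calc A * R⁻¹ ≤ A * 1 := by gcongr
      _ = A := mul_one A
  rw [hsub] at k2 k3 k4
  refine ⟨?_, ?_, ?_, ?_⟩
  · rw [hder, norm_smul, Real.norm_eq_abs]
    calc |A * R⁻¹| * ‖fderiv ℝ (fld c') (R⁻¹ • p)‖ ≤ A * K := by gcongr
      _ = _ := mul_comm _ _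
  · have h8 : fderiv ℝ (fld c) p - fderiv ℝ (fld c) q =
        (A * R⁻¹) • (fderiv ℝ (fld c') (R⁻¹ • p) - fderiv ℝ (fld c') (R⁻¹ • q)) := by
      rw [hder p, hder q]
      exact (smul_sub _ _ _).symm
    rw [h8, norm_smul, Real.norm_eq_abs]
    calc |A * R⁻¹| * ‖fderiv ℝ (fld c') (R⁻¹ • p) - fderiv ℝ (fld c') (R⁻¹ • q)‖
        ≤ A * (K * ‖p - q‖) := by
          gcongr
          exact k2.trans (by gcongr)
      _ = _ := by ring
  · rw [hfld, hfld, ← smul_sub, norm_smul, Real.norm_eq_abs, abs_of_pos hA0]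
    calc A * ‖fld c' (R⁻¹ • p) - fld c' (R⁻¹ • q)‖ ≤ A * (K * ‖p - q‖) := by
          gcongr
          exact k3.trans (by gcongr)
      _ = _ := by ring
  · have h7 : fld c p - fld c q - fderiv ℝ (fld c) q (p - q) =
        A • (fld c' (R⁻¹ • p) - fld c' (R⁻¹ • q) -
          fderiv ℝ (fld c') (R⁻¹ • q) (R⁻¹ • p - R⁻¹ • q)) := by
      rw [hfld, hfld, hder, ← smul_sub R⁻¹, map_smul, _root_.smul_apply, smul_sub, smul_sub,
        smul_smul A R⁻¹]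
    rw [h7, norm_smul, Real.norm_eq_abs, abs_of_pos hA0]
    calc A * ‖fld c' (R⁻¹ • p) - fld c' (R⁻¹ • q) -
          fderiv ℝ (fld c') (R⁻¹ • q) (R⁻¹ • p - R⁻¹ • q)‖ ≤ A * (K * ‖p - q‖ ^ 2) := by
          gcongr
          exact k4.trans (by gcongr)
      _ = _ := by ring

end

end Pool.Agent.H709R2
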